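import Pool.Agent.H32.Flat.DivThm

/-!
# Module H1: weighted mean value property and smoothness of harmonic functions

* `MeanVal_radial`: for a continuous weight `η` vanishing on `[1, ∞)` and `f` harmonic on `ball z R`,
  the integral of `η (‖y‖²) f (z + r y)` is independent of `r`, `|r| < R`: its derivative is the
  integral of the divergence of the compactly supported field `Q(y) ∇f(z + r y)`,
  where `∇Q(y) = η (‖y‖²) y`.
* `mean_value`: the case `η = wt ^ 4`.
* `harmonic_contDiffAt`: near `z`, `f` is a convolution with a smooth kernel.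
-/

open Set Metric MeasureTheory Filter Topology InnerProductSpace
open scoped Laplacian Gradient RealInnerProductSpace

namespace Pool.Agent.H32.Flat

theorem MeanVal_event {y : E3} (hy : 1 < ‖y‖) : ∀ᶠ w in 𝓝 y, 1 < ‖w‖ :=
  continuous_norm.continuousAt.eventually (lt_mem_nhds hy)

theorem MeanVal_continuous {k h : E3 → ℝ} (hk : Continuous k) (hk0 : ∀ y, 1 < ‖y‖ → k y = 0)
    (hh : ∀ y, ‖y‖ ≤ 1 → ContinuousAt h y) : Continuous fun y => k y * h y := by
  rw [continuous_iff_continuousAt]
  intro y
  by_cases hy : ‖y‖ ≤ 1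
  · exact hk.continuousAt.mul (hh y hy)
  · push Not at hy
    have h1 : (fun y => k y * h y) =ᶠ[𝓝 y] fun _ => 0 := by
      filter_upwards [MeanVal_event hy] with w hw
      rw [hk0 w hw, zero_mul]
    exact continuousAt_const.congr h1.symm

theorem MeanVal_contDiff {k : E3 → ℝ} {G : E3 → E3} (hk : ContDiff ℝ 1 k)
    (hk0 : ∀ y, 1 < ‖y‖ → k y = 0) (hG : ∀ y, ‖y‖ ≤ 1 → ContDiffAt ℝ 1 G y) :
    ContDiff ℝ 1 fun y => k y • G y := by
  rw [contDiff_iff_contDiffAt]
  intro y
  by_cases hy : ‖y‖ ≤ 1
  · exact hk.contDiffAt.smul (hG y hy)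
  · push Not at hy
    have h1 : (fun y => k y • G y) =ᶠ[𝓝 y] fun _ => 0 := by
      filter_upwards [MeanVal_event hy] with w hw
      rw [hk0 w hw, zero_smul]
    exact contDiffAt_const.congr_of_eventuallyEq h1

theorem MeanVal_compact {α : Type*} [Zero α] {F : E3 → α} (hF : ∀ y, 1 < ‖y‖ → F y = 0) :
    HasCompactSupport F :=
  HasCompactSupport.intro (isCompact_closedBall (0 : E3) 1) fun y hy => hF y (by simpa using hy)

/-- the primitive of the weight -/
noncomputable def MeanVal_prim (η : ℝ → ℝ) (t : ℝ) : ℝ := ∫ τ in (1 : ℝ)..t, η τ / 2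

theorem MeanVal_prim_hasDerivAt {η : ℝ → ℝ} (hη : Continuous η) (t : ℝ) :
    HasDerivAt (MeanVal_prim η) (η t / 2) t :=
  (hη.div_const 2).integral_hasStrictDerivAt 1 t |>.hasDerivAt

theorem MeanVal_prim_contDiff {η : ℝ → ℝ} (hη : Continuous η) : ContDiff ℝ 1 (MeanVal_prim η) := by
  rw [contDiff_one_iff_deriv]
  refine ⟨fun t => (MeanVal_prim_hasDerivAt hη t).differentiableAt, ?_⟩
  have : deriv (MeanVal_prim η) = fun t => η t / 2 :=
    funext fun t => (MeanVal_prim_hasDerivAt hη t).deriv
  rw [this]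
  exact hη.div_const 2

theorem MeanVal_prim_zero {η : ℝ → ℝ} (hη0 : ∀ t, 1 ≤ t → η t = 0) {t : ℝ} (ht : 1 ≤ t) :
    MeanVal_prim η t = 0 := by
  unfold MeanVal_prim
  rw [intervalIntegral.integral_congr (g := fun _ => 0)]
  · simp
  · intro τ hτ
    rw [uIcc_of_le ht] at hτ
    simp [hη0 τ hτ.1]

theorem MeanVal_gradient {η : ℝ → ℝ} (hη : Continuous η) (y : E3) :
    gradient (fun y : E3 => MeanVal_prim η (‖y‖ ^ 2)) y = η (‖y‖ ^ 2) • y := by
  apply HasGradientAt.gradient
  rw [hasGradientAt_iff_hasFDerivAt]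
  have h1 := (MeanVal_prim_hasDerivAt hη (‖y‖ ^ 2)).comp_hasFDerivAt y
    (hasStrictFDerivAt_norm_sq y).hasFDerivAt
  refine h1.congr_fderiv ?_
  ext v
  simp only [smul_apply, innerSL_apply_apply, toDual_apply_apply, inner_smul_left,
    smul_eq_mul, RCLike.conj_to_real, nsmul_eq_mul, Nat.cast_ofNat]
  ring

theorem MeanVal_gradient_contDiffAt {f : E3 → ℝ} {x : E3} (hf : ContDiffAt ℝ 2 f x) :
    ContDiffAt ℝ 1 (gradient f) x := by
  have h1 : ContDiffAt ℝ 1 (fderiv ℝ f) x := hf.fderiv_right (by norm_num)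
  exact ((toDual ℝ E3).symm.toContinuousLinearEquiv.contDiff.contDiffAt).comp x h1

theorem MeanVal_inner {f : E3 → ℝ} (x v : E3) : ⟪gradient f x, v⟫ = fderiv ℝ f x v := by
  unfold gradient
  rw [toDual_symm_apply]

theorem MeanVal_mem {z : E3} {R s : ℝ} (hs : |s| < R) {y : E3} (hy : ‖y‖ ≤ 1) :
    z + s • y ∈ ball z R := by
  rw [mem_ball, dist_eq_norm, add_sub_cancel_left, norm_smul, Real.norm_eq_abs]
  calc |s| * ‖y‖ ≤ |s| * 1 := by gcongr
    _ < R := by rwa [mul_one]

/-- the integral of the derivative vanishes -/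
theorem MeanVal_deriv_integral {η : ℝ → ℝ} (hη : Continuous η) (hη0 : ∀ t, 1 ≤ t → η t = 0)
    {f : E3 → ℝ} {z : E3} {R s : ℝ} (hf : ∀ x ∈ ball z R, HarmonicAt f x) (hs : |s| < R) :
    ∫ y : E3, η (‖y‖ ^ 2) * ⟪gradient f (z + s • y), y⟫ = 0 := by
  have hη1 : ∀ y : E3, 1 < ‖y‖ → η (‖y‖ ^ 2) = 0 := fun y hy => hη0 _ (by nlinarith)
  set Q : E3 → ℝ := fun y => MeanVal_prim η (‖y‖ ^ 2) with hQ
  have hQ0 : ∀ y : E3, 1 < ‖y‖ → Q y = 0 := fun y hy => MeanVal_prim_zero hη0 (by nlinarith)
  have hQ1 : ContDiff ℝ 1 Q := (MeanVal_prim_contDiff hη).comp (contDiff_norm_sq ℝ)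
  set G : E3 → E3 := fun y => gradient f (z + s • y) with hG
  have haff : ∀ y : E3, HasFDerivAt (fun y : E3 => z + s • y)
      (s • ContinuousLinearMap.id ℝ E3) y := fun y =>
    ((hasFDerivAt_id y).const_smul s).const_add z
  have hG1 : ∀ y : E3, ‖y‖ ≤ 1 → ContDiffAt ℝ 1 G y := fun y hy =>
    ContDiffAt.comp (g := gradient f) (f := fun y : E3 => z + s • y) y
      (MeanVal_gradient_contDiffAt (hf _ (MeanVal_mem hs hy)).1)
      (contDiffAt_const.add (contDiff_const_smul s).contDiffAt)
  have hX := MeanVal_contDiff hQ1 hQ0 hG1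
  have hc : HasCompactSupport fun y => Q y • G y := MeanVal_compact fun y hy => by
    rw [hQ0 y hy, zero_smul]
  rw [← integral_divg hX hc]
  refine integral_congr_ae (Eventually.of_forall fun y => ?_)
  by_cases hy : ‖y‖ ≤ 1
  · have h1 : DifferentiableAt ℝ Q y := hQ1.differentiable (by norm_num) y
    have h2 : DifferentiableAt ℝ G y := (hG1 y hy).differentiableAt (by norm_num)
    have h3 := divg_smul h1 h2
    have hm := hf _ (MeanVal_mem hs hy)
    have h4 : divg G y = 0 := by
      have h5 : HasFDerivAt G ((fderiv ℝ (gradient f) (z + s • y)).comp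
          (s • ContinuousLinearMap.id ℝ E3)) y :=
        HasFDerivAt.comp (g := gradient f) (f := fun y : E3 => z + s • y) y
          ((MeanVal_gradient_contDiffAt hm.1).differentiableAt (by norm_num)).hasFDerivAt (haff y)
      have h6 : divg G y = s * divg (gradient f) (z + s • y) := by
        unfold divg
        rw [h5.fderiv, Finset.mul_sum]
        refine Finset.sum_congr rfl fun i _ => ?_
        simp
      rw [h6, divg_gradient hm.1, hm.2.self_of_nhds]
      simp
    simp only
    rw [h3, h4, mul_zero, add_zero, MeanVal_gradient hη, real_inner_smul_left, real_inner_comm]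
  · push Not at hy
    have h1 : (fun y => Q y • G y) =ᶠ[𝓝 y] fun _ => 0 := by
      filter_upwards [MeanVal_event hy] with w hw
      rw [hQ0 w hw, zero_smul]
    have h2 : fderiv ℝ (fun y => Q y • G y) y = 0 := by
      rw [h1.fderiv_eq]; simp
    simp only [divg, h2, hη1 y hy]
    simp

theorem MeanVal_radial {η : ℝ → ℝ} (hη : Continuous η) (hη0 : ∀ t, 1 ≤ t → η t = 0)
    {f : E3 → ℝ} {z : E3} {R r : ℝ} (hf : ∀ x ∈ ball z R, HarmonicAt f x) (hr : |r| < R) :
    ∫ y : E3, η (‖y‖ ^ 2) * f (z + r • y) = (∫ y : E3, η (‖y‖ ^ 2)) * f z := by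
  have hη1 : ∀ y : E3, 1 < ‖y‖ → η (‖y‖ ^ 2) = 0 := fun y hy => hη0 _ (by nlinarith)
  have hk : Continuous fun y : E3 => η (‖y‖ ^ 2) := hη.comp (continuous_norm.pow 2)
  have hR : 0 < R := (abs_nonneg r).trans_lt hr
  have hcf : ∀ {s : ℝ}, |s| < R → ∀ y : E3, ‖y‖ ≤ 1 → ContinuousAt (fun y => f (z + s • y)) y := by
    intro s hs y hy
    exact ContinuousAt.comp (f := fun y : E3 => z + s • y) (hf _ (MeanVal_mem hs hy)).1.continuousAt
      (by fun_prop)
  have hcg : ∀ {s : ℝ}, |s| < R → ∀ y : E3, ‖y‖ ≤ 1 →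
      ContinuousAt (fun y => ⟪gradient f (z + s • y), y⟫) y := by
    intro s hs y hy
    have h1 := (MeanVal_gradient_contDiffAt (hf _ (MeanVal_mem hs hy)).1).continuousAt
    exact (ContinuousAt.comp (f := fun y : E3 => z + s • y) h1 (by fun_prop)).inner
      continuousAt_id
  have hF : ∀ {s : ℝ}, |s| < R → Continuous fun y : E3 => η (‖y‖ ^ 2) * f (z + s • y) :=
    fun hs => MeanVal_continuous hk hη1 (hcf hs)
  have key : ∀ s : ℝ, |s| < R → HasDerivAt
      (fun s : ℝ => ∫ y : E3, η (‖y‖ ^ 2) * f (z + s • y)) 0 s := by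
    intro s hs
    obtain ⟨R', h1, h2⟩ := exists_between hs
    -- bound of the gradient
    have hcomp : IsCompact (closedBall z R') := isCompact_closedBall z R'
    have hcont : ContinuousOn (gradient f) (closedBall z R') := fun x hx =>
      (MeanVal_gradient_contDiffAt (hf x (closedBall_subset_ball h2 hx)).1).continuousAt.continuousWithinAt
    obtain ⟨C, hC⟩ := hcomp.exists_bound_of_continuousOn hcont
    have hset : {t : ℝ | |t| < R'} ∈ 𝓝 s :=
      (isOpen_lt continuous_abs continuous_const).mem_nhds h1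
    have hmain := hasDerivAt_integral_of_dominated_loc_of_deriv_le (μ := volume)
      (F := fun (s : ℝ) (y : E3) => η (‖y‖ ^ 2) * f (z + s • y))
      (F' := fun (s : ℝ) (y : E3) => η (‖y‖ ^ 2) * ⟪gradient f (z + s • y), y⟫)
      (bound := fun y : E3 => |η (‖y‖ ^ 2)| * C) (x₀ := s) (s := {t : ℝ | |t| < R'}) hset
      ?_ ?_ ?_ ?_ ?_ ?_
    · have h3 := hmain.2
      rwa [MeanVal_deriv_integral hη hη0 hf hs] at h3
    · filter_upwards [hset] with t ht
      exact (hF (lt_trans ht h2)).aestronglyMeasurable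
    · exact (hF hs).integrable_of_hasCompactSupport (MeanVal_compact fun y hy => by
        rw [hη1 y hy, zero_mul])
    · exact (MeanVal_continuous hk hη1 (hcg hs)).aestronglyMeasurable
    · refine Eventually.of_forall fun y t ht => ?_
      rw [Real.norm_eq_abs, abs_mul]
      by_cases hy : ‖y‖ ≤ 1
      · gcongr
        have h4 : z + t • y ∈ closedBall z R' := ball_subset_closedBall (MeanVal_mem ht hy)
        calc |⟪gradient f (z + t • y), y⟫| ≤ ‖gradient f (z + t • y)‖ * ‖y‖ :=
              abs_real_inner_le_norm _ _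
          _ ≤ ‖gradient f (z + t • y)‖ * 1 := by gcongr
          _ ≤ C := by rw [mul_one]; exact hC _ h4
      · push Not at hy
        rw [hη1 y hy]; simp
    · have h5 : Continuous fun y : E3 => |η (‖y‖ ^ 2)| * C := hk.abs.mul continuous_const
      exact h5.integrable_of_hasCompactSupport (MeanVal_compact fun y hy => by
        rw [hη1 y hy, abs_zero, zero_mul])
    · refine Eventually.of_forall fun y t ht => ?_
      by_cases hy : ‖y‖ ≤ 1
      · have h6 : HasDerivAt (fun t : ℝ => z + t • y) y t := by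
          simpa using ((hasDerivAt_id t).smul_const y).const_add z
        have h7 := ((hf _ (MeanVal_mem (lt_trans ht h2) hy)).1.differentiableAt
          (by norm_num)).hasFDerivAt.comp_hasDerivAt t h6
        have h8 := h7.const_mul (η (‖y‖ ^ 2))
        rw [← MeanVal_inner] at h8
        exact h8
      · push Not at hy
        simp only [hη1 y hy, zero_mul]
        exact hasDerivAt_const t 0
  have hconst := IsOpen.is_const_of_deriv_eq_zero (isOpen_ball (x := (0 : ℝ)) (ε := R))
    (convex_ball (0 : ℝ) R).isPreconnected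
    (f := fun s : ℝ => ∫ y : E3, η (‖y‖ ^ 2) * f (z + s • y))
    (fun s hs => (key s (by simpa using hs)).differentiableAt.differentiableWithinAt)
    (fun s hs => (key s (by simpa using hs)).deriv) (x := r) (y := 0) (by simpa using hr)
    (by simpa using hR)
  rw [hconst, ← integral_mul_const]
  simp

theorem mean_value {f : E3 → ℝ} {z : E3} {R r : ℝ} (hf : ∀ x ∈ ball z R, HarmonicAt f x)
    (hr : 0 < r) (hrR : r < R) :
    ∫ y : E3, wt (‖y‖ ^ 2) ^ 4 * f (z + r • y) = mm * f z := by
  have hc : Continuous fun t : ℝ => wt t ^ 4 := by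
    unfold wt
    fun_prop
  exact MeanVal_radial (η := fun t => wt t ^ 4) hc (fun t ht => by simp [wt, ht]) hf
    (by rwa [abs_of_pos hr])

theorem harmonic_contDiffAt {f : E3 → ℝ} {z : E3} (hf : HarmonicAt f z) (n : ℕ) :
    ContDiffAt ℝ n f z := by
  obtain ⟨R, hR, hball⟩ := Metric.eventually_nhds_iff_ball.1 hf.eventually
  set η : ℝ → ℝ := fun t => expNegInvGlue (1 - t) with hη
  have hη1 : Continuous η := by
    have : Continuous expNegInvGlue := (expNegInvGlue.contDiff (n := 0)).continuous
    exact this.comp (by fun_prop)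
  have hη0 : ∀ t, 1 ≤ t → η t = 0 := fun t ht => expNegInvGlue.zero_of_nonpos (by linarith)
  set s : ℝ := R / 4 with hs
  have hs0 : 0 < s := by positivity
  set K : E3 → ℝ := fun v => η (‖s⁻¹ • v‖ ^ 2) with hK
  have hKc : ContDiff ℝ n K := by
    have h1 : ContDiff ℝ n fun v : E3 => 1 - ‖s⁻¹ • v‖ ^ 2 :=
      contDiff_const.sub ((contDiff_norm_sq ℝ).comp
        (contDiff_const_smul s⁻¹))
    exact (expNegInvGlue.contDiff (n := (n : ℕ∞))).comp h1
  have hK0 : ∀ v : E3, s ≤ ‖v‖ → K v = 0 := by
    intro v hv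
    apply hη0
    rw [norm_smul, norm_inv, Real.norm_of_nonneg hs0.le]
    have : 1 ≤ s⁻¹ * ‖v‖ := by rw [inv_mul_eq_div, le_div_iff₀ hs0]; linarith
    nlinarith
  have hKs : HasCompactSupport K :=
    HasCompactSupport.intro (isCompact_closedBall (0 : E3) s) fun v hv => hK0 v (by
      simp only [mem_closedBall, dist_zero_right, not_le] at hv; exact hv.le)
  have hfc : ContinuousOn f (closedBall z (3 * R / 4)) := fun x hx =>
    (hball x (closedBall_subset_ball (by linarith) hx)).1.continuousAt.continuousWithinAt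
  set F : E3 → ℝ := (closedBall z (3 * R / 4)).indicator f with hF
  have hFi : Integrable F := by
    rw [hF, integrable_indicator_iff isClosed_closedBall.measurableSet]
    exact hfc.integrableOn_compact (isCompact_closedBall _ _)
  have hconv : ContDiff ℝ n (convolution F K (ContinuousLinearMap.mul ℝ ℝ) volume) :=
    HasCompactSupport.contDiff_convolution_right (n := (n : ℕ∞)) _ hKs hFi.locallyIntegrable hKc
  set c : ℝ := ∫ y : E3, η (‖y‖ ^ 2) with hc
  have hc0 : 0 < c := by
    have hcont : Continuous fun y : E3 => η (‖y‖ ^ 2) := hη1.comp (by fun_prop)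
    refine hcont.integral_pos_of_hasCompactSupport_nonneg_nonzero (x := 0) ?_ ?_ ?_
    · exact MeanVal_compact fun y hy => hη0 _ (by nlinarith)
    · intro y; exact expNegInvGlue.nonneg _
    · simp only [hη, norm_zero]
      exact (expNegInvGlue.pos_of_pos (by norm_num)).ne'
  have hrep : ∀ x ∈ ball z (R / 2), f x =
      c⁻¹ * (|(s ^ 3)⁻¹| * convolution F K (ContinuousLinearMap.mul ℝ ℝ) volume x) := by
    intro x hx
    have h1 := MeanVal_radial hη1 hη0 (f := f) (z := x) (R := R / 2) (r := s)
      (fun w hw => hball w (by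
        rw [mem_ball] at hw hx ⊢
        linarith [dist_triangle w x z])) (by rw [abs_of_pos hs0, hs]; linarith)
    have h2 : ∫ y : E3, η (‖y‖ ^ 2) * f (x + s • y) =
        |(s ^ 3)⁻¹| * convolution F K (ContinuousLinearMap.mul ℝ ℝ) volume x := by
      have h3 := Measure.integral_comp_smul (volume : Measure E3)
        (fun y : E3 => K y * f (x + y)) s
      rw [finrank_euclideanSpace_fin] at h3
      have h4 : ∫ y : E3, K (s • y) * f (x + s • y) = ∫ y : E3, η (‖y‖ ^ 2) * f (x + s • y) := by
        refine integral_congr_ae (Eventually.of_forall fun y => ?_)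
        simp only [hK, smul_smul, inv_mul_cancel₀ hs0.ne', one_smul]
      rw [← h4, h3, smul_eq_mul]
      congr 1
      have h5 : ∫ y : E3, K y * f (x + y) = ∫ w : E3, K (w - x) * f w := by
        have := integral_add_left_eq_self (μ := (volume : Measure E3))
          (fun w : E3 => K (w - x) * f w) x
        rw [← this]
        refine integral_congr_ae (Eventually.of_forall fun y => ?_)
        simp
      rw [h5]
      unfold convolution
      refine integral_congr_ae (Eventually.of_forall fun w => ?_)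
      simp only [ContinuousLinearMap.mul_apply']
      have h6 : K (w - x) = K (x - w) := by
        simp only [hK]
        rw [← neg_sub x w, smul_neg, norm_neg]
      rw [h6, mul_comm]
      by_cases hw : s ≤ ‖x - w‖
      · rw [hK0 _ hw]; simp
      · push Not at hw
        have h7 : w ∈ closedBall z (3 * R / 4) := by
          rw [mem_closedBall]
          rw [mem_ball] at hx
          have := dist_triangle w x z
          rw [dist_comm w x, dist_eq_norm x w] at this
          linarith
        simp only [hF, indicator_of_mem h7]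
    rw [← h2, h1, ← hc]
    field_simp
  refine ContDiffAt.congr_of_eventuallyEq (f := fun x =>
    c⁻¹ * (|(s ^ 3)⁻¹| * convolution F K (ContinuousLinearMap.mul ℝ ℝ) volume x)) ?_ ?_
  · exact (contDiff_const.mul (contDiff_const.mul hconv)).contDiffAt
  · filter_upwards [ball_mem_nhds z (half_pos hR)] with x hx
    exact hrep x hx

end Pool.Agent.H32.Flat
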