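import Pool.Agent.H32.Flat.BallClose
import Pool.Agent.H32.Flat.MeanVal

/-!
# Module R2: closeness on annuli about the hole

`κ_c, τ_c` from `almostCone_close L σ`; `τ ≤ τ_c` small, `κ` small, `M = 8/τ` large.  For
`M K δ ≤ s ≤ r₁/16` the function `v = sc u 0 s` is `AlmostCone L κ_c τ v` with `τ s ≥ 8Kδ`:
let `y₀` be `FB` with `|y₀| = τ s / 2 ≥ Kδ` (`Setup.meets`).
* `bound`: `u ≤ L|x|` (`LipOn`); `lip`: `LipOn`.
* `hom0`: `TT u 0 x = TT u y₀ x + ⟪y₀, Du u x⟫`, `|⟪y₀,Du⟫| ≤ Lτs`, and `Dens.hom` at `y₀`, scale `6s`.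
* `homF`: `Dens.hom` at `s y`, scale `6s` (`6 s ≤ r₀`).
* `vol0`: `Dens.vol` at `y₀`, scale `s`.
* `volF`: `Dens.vol` at `s y`, scale `s ρ`; `chi δ = 1` on the ball.
* `nondeg`: `FB` point `y₁` with `|y₁| = s/2`; `ball_close` at `y₁`, `ρ = |y₁|/64`.
-/

open Set Metric MeasureTheory Filter Topology InnerProductSpace
open scoped Laplacian Gradient RealInnerProductSpace

namespace Pool.Agent.H32.Flat

variable {u : E3 → ℝ} {O : Set E3} {L δ s τ : ℝ}

theorem AnnClose_isOpen_pos (h : OnePhase O u) : IsOpen (O ∩ {x | 0 < u x}) :=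
  h.cont.isOpen_inter_preimage h.isOpen (isOpen_Ioi (a := (0 : ℝ)))

theorem AnnClose_meas_ind (h : OnePhase O u) :
    AEStronglyMeasurable (ind u) (volume.restrict O) := by
  have hm : MeasurableSet (O ∩ {x | 0 < u x}) := (AnnClose_isOpen_pos h).measurableSet
  have h1 : AEStronglyMeasurable ((O ∩ {x | 0 < u x}).indicator (fun _ => (1 : ℝ)))
      (volume.restrict O) :=
    (stronglyMeasurable_const.indicator hm).aestronglyMeasurable
  refine h1.congr ?_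
  filter_upwards [ae_restrict_mem h.isOpen.measurableSet] with x hx
  unfold ind
  by_cases hu : 0 < u x
  · rw [indicator_of_mem (show x ∈ O ∩ {x | 0 < u x} from ⟨hx, hu⟩), if_pos hu]
  · rw [indicator_of_notMem (fun hh => hu hh.2), if_neg hu]

theorem AnnClose_meas_Du (h : OnePhase O u) :
    AEStronglyMeasurable (Du u) (volume.restrict O) := by
  have hm : MeasurableSet (O ∩ {x | 0 < u x}) := (AnnClose_isOpen_pos h).measurableSet
  have hc : ContinuousOn (gradient u) (O ∩ {x | 0 < u x}) := fun x hx =>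
    (MeanVal_gradient_contDiffAt (h.harm x hx.1 hx.2).1).continuousAt.continuousWithinAt
  have h1 : AEStronglyMeasurable ((O ∩ {x | 0 < u x}).indicator (gradient u))
      (volume.restrict O) :=
    ((aestronglyMeasurable_indicator_iff hm).2 (hc.aestronglyMeasurable hm)).restrict
  refine h1.congr ?_
  filter_upwards [ae_restrict_mem h.isOpen.measurableSet] with x hx
  unfold Du
  by_cases hu : 0 < u x
  · rw [indicator_of_mem (show x ∈ O ∩ {x | 0 < u x} from ⟨hx, hu⟩), if_pos hu]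
  · rw [indicator_of_notMem (fun hh => hu hh.2), if_neg hu]

theorem AnnClose_meas_TT (h : OnePhase O u) (y : E3) :
    AEStronglyMeasurable (TT u y) (volume.restrict O) := by
  unfold TT
  have h1 : Continuous fun x : E3 => x - y := by fun_prop
  exact (h1.aestronglyMeasurable.inner (AnnClose_meas_Du h)).sub
    (h.cont.aestronglyMeasurable h.isOpen.measurableSet)

theorem AnnClose_bd (h : OnePhase {x | δ < ‖x‖ ∧ ‖x‖ < 1} u) (hl : LipOn L δ u) (hδ : 0 < δ)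
    (hL : 0 ≤ L) {x : E3} (h1 : 2 * δ ≤ ‖x‖) (h2 : ‖x‖ ≤ 1 / 2) :
    ‖Du u x‖ ≤ L ∧ 0 ≤ u x ∧ u x ≤ L * ‖x‖ := by
  have hx : 0 ≤ u x := h.nonneg x ⟨by linarith, by linarith⟩
  unfold Du
  by_cases hu : 0 < u x
  · rw [if_pos hu]
    exact ⟨(hl x h1 h2 hu).1, hx, (hl x h1 h2 hu).2⟩
  · rw [if_neg hu, norm_zero]
    have : u x = 0 := le_antisymm (not_lt.1 hu) hx
    exact ⟨hL, hx, by rw [this]; positivity⟩

theorem AnnClose_iob {f : E3 → ℝ} {A : Set E3} {M : ℝ} (hA : volume A ≠ ⊤)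
    (hf : AEStronglyMeasurable f (volume.restrict A))
    (hb : ∀ᵐ x ∂(volume.restrict A), ‖f x‖ ≤ M) : IntegrableOn f A := by
  have : IsFiniteMeasure (volume.restrict A) := ⟨by simpa using lt_top_iff_ne_top.2 hA⟩
  exact Integrable.of_bound hf M hb

theorem AnnClose_integrable_TT (h : OnePhase {x | δ < ‖x‖ ∧ ‖x‖ < 1} u) (hl : LipOn L δ u)
    (hδ : 0 < δ) (hL : 0 ≤ L) (y : E3) {A : Set E3} (hA : MeasurableSet A)
    (hAs : ∀ x ∈ A, 2 * δ ≤ ‖x‖ ∧ ‖x‖ ≤ 1 / 2) : IntegrableOn (fun x => TT u y x ^ 2) A := by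
  have hAO : A ⊆ {x : E3 | δ < ‖x‖ ∧ ‖x‖ < 1} := fun x hx =>
    ⟨by linarith [(hAs x hx).1], by linarith [(hAs x hx).2]⟩
  have hAb : A ⊆ closedBall 0 (1 / 2) := fun x hx => by simpa using (hAs x hx).2
  refine AnnClose_iob (M := ((1 / 2 + ‖y‖) * L + L * (1 / 2)) ^ 2)
    ((measure_mono hAb).trans_lt measure_closedBall_lt_top).ne
    (((AnnClose_meas_TT h y).mono_measure (Measure.restrict_mono hAO le_rfl)).pow 2) ?_
  filter_upwards [ae_restrict_mem hA] with x hx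
  obtain ⟨h1, h2⟩ := hAs x hx
  obtain ⟨b1, b2, b3⟩ := AnnClose_bd h hl hδ hL h1 h2
  rw [norm_pow, Real.norm_eq_abs]
  gcongr
  unfold TT
  calc |⟪x - y, Du u x⟫ - u x| ≤ |⟪x - y, Du u x⟫| + |u x| := abs_sub _ _
    _ ≤ ‖x - y‖ * ‖Du u x‖ + u x := by
      rw [abs_of_nonneg b2]
      gcongr
      exact abs_real_inner_le_norm _ _
    _ ≤ (1 / 2 + ‖y‖) * L + L * (1 / 2) := by
      have h3 : ‖x - y‖ ≤ 1 / 2 + ‖y‖ := (norm_sub_le x y).trans (by linarith)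
      have h4 : u x ≤ L * (1 / 2) := b3.trans (by gcongr)
      gcongr

theorem AnnClose_vol_ball (r : ℝ) (hr : 0 ≤ r) :
    volume.real (ball (0 : E3) r) = r ^ 3 * volume.real (ball (0 : E3) 1) := by
  have := Measure.addHaar_ball (volume : Measure E3) (0 : E3) hr
  rw [Measure.real, this, finrank_euclideanSpace_fin, ENNReal.toReal_mul,
    ENNReal.toReal_ofReal (by positivity), Measure.real]

theorem AnnClose_vol_closedBall (r : ℝ) (hr : 0 ≤ r) :
    volume.real (closedBall (0 : E3) r) = r ^ 3 * volume.real (ball (0 : E3) 1) := by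
  have := Measure.addHaar_closedBall (volume : Measure E3) (0 : E3) hr
  rw [Measure.real, this, finrank_euclideanSpace_fin, ENNReal.toReal_mul,
    ENNReal.toReal_ofReal (by positivity), Measure.real]

/-- `Dens.hom` at the scale `6 s` -/
theorem AnnClose_hom {κ K r₁ r₀ : ℝ} (h : OnePhase {x | δ < ‖x‖ ∧ ‖x‖ < 1} u)
    (hl : LipOn L δ u) (hδ : 0 < δ) (hL : 0 ≤ L) (hd : Dens κ K r₁ r₀ δ u) (hs : 0 < s)
    (hs1 : s ≤ r₁ / 16) (hr : r₁ ≤ r₀) (hr0 : r₀ ≤ 1 / 16) (hτ : 8 * δ ≤ τ * s) {y : E3}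
    (hy : FB u y) (hy1 : K * δ ≤ ‖y‖) (hy2 : ‖y‖ ≤ s) :
    ∫ x in ball 0 (4 * s) \ closedBall 0 (τ * s), TT u y x ^ 2 ≤ κ * (6 * s) ^ 5 := by
  refine le_trans ?_ (hd.hom y hy hy1 (by linarith) (6 * s) (by positivity) (by linarith))
  refine setIntegral_mono_set ?_ (Eventually.of_forall fun x => sq_nonneg _)
    (LE.le.eventuallyLE ?_)
  · refine AnnClose_integrable_TT h hl hδ hL y
      (isOpen_ball.measurableSet.diff isClosed_closedBall.measurableSet) ?_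
    rintro x ⟨h1, h2⟩
    simp only [mem_closedBall, dist_zero_right, not_le] at h2
    rw [mem_ball, dist_eq_norm] at h1
    have : ‖x‖ ≤ ‖x - y‖ + ‖y‖ := by simpa using norm_add_le (x - y) y
    constructor <;> linarith
  · rintro x ⟨h1, h2⟩
    simp only [mem_closedBall, dist_zero_right, not_le, mem_ball] at h1 h2
    refine ⟨?_, ?_⟩
    · rw [mem_ball, dist_eq_norm]
      have := norm_sub_le x y
      linarith
    · simp only [mem_closedBall, dist_zero_right, not_le]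
      linarith

theorem AnnClose_preimage (hs : 0 < s) (τ : ℝ) :
    {x : E3 | (0 : E3) + s • x ∈ ball (0 : E3) (4 * s) \ closedBall (0 : E3) (τ * s)} =
      ball (0 : E3) 4 \ closedBall (0 : E3) τ := by
  ext x
  simp only [mem_ofPred_eq, zero_add, Set.mem_sdiff, mem_ball, mem_closedBall, dist_zero_right,
    norm_smul, Real.norm_of_nonneg hs.le]
  rw [mul_comm s, mul_lt_mul_iff_left₀ hs, mul_le_mul_iff_left₀ hs]

theorem AnnClose_cov (hs : 0 < s) (τ : ℝ) (y : E3) :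
    ∫ x in ball 0 4 \ closedBall 0 τ, TT (sc u 0 s) y x ^ 2 =
      1 / s ^ 5 * ∫ x in ball 0 (4 * s) \ closedBall 0 (τ * s), TT u (s • y) x ^ 2 := by
  have h1 := integral_sc (z := (0 : E3)) hs (ball (0 : E3) (4 * s) \ closedBall (0 : E3) (τ * s))
    (fun w => (TT u (s • y) w / s) ^ 2)
  rw [AnnClose_preimage hs] at h1
  have h2 : ∀ x, TT (sc u 0 s) y x ^ 2 = (TT u (s • y) (0 + s • x) / s) ^ 2 := by
    intro x
    rw [sc_TT hs, zero_add, zero_add]
  simp only [h2]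
  rw [h1]
  simp only [div_pow, integral_div]
  field_simp

theorem AnnClose_wt_lip (a b : ℝ) : |wt a - wt b| ≤ |a - b| := by
  unfold wt
  have := abs_max_sub_max_le_abs (1 - a) (1 - b) 0
  refine this.trans (le_of_eq ?_)
  rw [← abs_neg]; congr 1; ring

theorem AnnClose_wt_mem {a : ℝ} (ha : 0 ≤ a) : 0 ≤ wt a ∧ wt a ≤ 1 := by
  unfold wt
  constructor
  · exact le_max_right _ _
  · exact max_le (by linarith) (by norm_num)

theorem AnnClose_wt_zero {a : ℝ} (ha : 1 ≤ a) : wt a = 0 := by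
  unfold wt
  exact max_eq_right (by linarith)

theorem AnnClose_pow4 {a b : ℝ} (ha : 0 ≤ a) (ha1 : a ≤ 1) (hb : 0 ≤ b) (hb1 : b ≤ 1) :
    |a ^ 4 - b ^ 4| ≤ 4 * |a - b| := by
  have h1 : a ^ 4 - b ^ 4 = (a ^ 3 + a ^ 2 * b + a * b ^ 2 + b ^ 3) * (a - b) := by ring
  rw [h1, abs_mul]
  gcongr
  rw [abs_of_nonneg (by positivity)]
  have e1 : a ^ 3 ≤ 1 := pow_le_one₀ ha ha1
  have e2 : b ^ 3 ≤ 1 := pow_le_one₀ hb hb1
  have e3 : a ^ 2 * b ≤ 1 := mul_le_one₀ (pow_le_one₀ ha ha1) hb hb1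
  have e4 : a * b ^ 2 ≤ 1 := mul_le_one₀ ha1 (by positivity) (pow_le_one₀ hb hb1)
  linarith

theorem AnnClose_ind_mem (x : E3) : 0 ≤ ind u x ∧ ind u x ≤ 1 := by
  unfold ind
  split <;> norm_num

theorem AnnClose_vol0 {κ K r₁ r₀ : ℝ} (h : OnePhase {x | δ < ‖x‖ ∧ ‖x‖ < 1} u)
    (hδ : 0 < δ) (hd : Dens κ K r₁ r₀ δ u) (hs : 0 < s)
    (hs1 : s ≤ r₁ / 16) (hr : r₁ ≤ r₀) (hr0 : r₀ ≤ 1 / 16) (hτ0 : 0 < τ) (hτ1 : τ ≤ 1 / 4)
    (hτ : 8 * δ ≤ τ * s) {y : E3}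
    (hy : FB u y) (hy1 : K * δ ≤ ‖y‖) (hy2 : ‖y‖ ≤ τ * s / 2) :
    |(∫ x in ball 0 4 \ closedBall 0 τ, wt (‖x‖ ^ 2) ^ 4 * ind (sc u 0 s) x) - mm / 2| ≤
      κ + 1281 * volume.real (ball (0 : E3) 1) * τ := by
  set ω := volume.real (ball (0 : E3) 1) with hω
  have hω0 : 0 ≤ ω := measureReal_nonneg
  have hys : ‖y‖ ≤ s := hy2.trans (by nlinarith)
  have hV := hd.vol y hy hy1 (by linarith) s hs (by linarith)
  set A : Set E3 := ball (0 : E3) (4 * s) \ closedBall (0 : E3) (τ * s) with hA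
  have hAm : MeasurableSet A := isOpen_ball.measurableSet.diff isClosed_closedBall.measurableSet
  set F : E3 → ℝ := fun x => chi δ x * wt (‖x - y‖ ^ 2 / s ^ 2) ^ 4 * ind u x with hF
  set G : E3 → ℝ := fun x => wt (‖x‖ ^ 2 / s ^ 2) ^ 4 * ind u x with hG
  -- change of variables
  have hcov : ∫ x in ball 0 4 \ closedBall 0 τ, wt (‖x‖ ^ 2) ^ 4 * ind (sc u 0 s) x =
      1 / s ^ 3 * ∫ x in A, G x := by
    have h1 := integral_sc (z := (0 : E3)) hs A G
    rw [hA, AnnClose_preimage hs] at h1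
    rw [← hA] at h1
    rw [← h1]
    refine setIntegral_congr_fun (isOpen_ball.measurableSet.diff
      isClosed_closedBall.measurableSet) fun x _ => ?_
    simp only [hG]
    rw [sc_ind hs, zero_add, norm_smul, Real.norm_of_nonneg hs.le, mul_pow,
      mul_div_cancel_left₀ _ (by positivity)]
  have hOm : MeasurableSet {x : E3 | δ < ‖x‖ ∧ ‖x‖ < 1} := h.isOpen.measurableSet
  have hwc : ∀ z : E3, Continuous fun x : E3 => wt (‖x - z‖ ^ 2 / s ^ 2) ^ 4 := by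
    intro z
    unfold wt
    fun_prop
  have hFb : ∀ x, 0 ≤ F x ∧ F x ≤ 1 := by
    intro x
    have c1 := chi_nonneg δ x
    have c2 := AnnClose_wt_mem (a := ‖x - y‖ ^ 2 / s ^ 2) (by positivity)
    have c3 := AnnClose_ind_mem (u := u) x
    simp only [hF]
    constructor
    · have := c1.1; have := c2.1; have := c3.1
      positivity
    · exact mul_le_one₀ (mul_le_one₀ c1.2 (pow_nonneg c2.1 _) (pow_le_one₀ c2.1 c2.2)) c3.1 c3.2
  have hGb : ∀ x, 0 ≤ G x ∧ G x ≤ 1 := by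
    intro x
    have c2 := AnnClose_wt_mem (a := ‖x‖ ^ 2 / s ^ 2) (by positivity)
    have c3 := AnnClose_ind_mem (u := u) x
    simp only [hG]
    constructor
    · have := c2.1; have := c3.1
      positivity
    · exact mul_le_one₀ (pow_le_one₀ c2.1 c2.2) c3.1 c3.2
  -- measurability
  have hFm : AEStronglyMeasurable F volume := by
    have e : F = {x : E3 | δ < ‖x‖ ∧ ‖x‖ < 1}.indicator F := by
      symm
      rw [indicator_eq_self]
      intro x hx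
      by_contra hx2
      apply hx
      simp only [mem_ofPred_eq, not_and, not_lt] at hx2
      by_cases hx3 : δ < ‖x‖
      · have hx4 := hx2 hx3
        have : wt (‖x - y‖ ^ 2 / s ^ 2) = 0 := by
          apply AnnClose_wt_zero
          rw [le_div_iff₀ (by positivity), one_mul]
          have h5 : ‖x‖ ≤ ‖x - y‖ + ‖y‖ := by simpa using norm_add_le (x - y) y
          have h6 : s ≤ ‖x - y‖ := by linarith
          gcongr
        simp only [hF, this]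
        ring
      · have : chi δ x = 0 := chi_zero hδ (by linarith)
        simp only [hF, this]
        ring
    rw [e, aestronglyMeasurable_indicator_iff hOm]
    exact ((chi_contDiff δ).continuous.mul (hwc y)).aestronglyMeasurable.mul
      (AnnClose_meas_ind h)
  have hAO : A ⊆ {x : E3 | δ < ‖x‖ ∧ ‖x‖ < 1} := by
    rintro x ⟨h1, h2⟩
    simp only [mem_closedBall, dist_zero_right, not_le, mem_ball] at h1 h2
    constructor <;> linarith
  have hGm : AEStronglyMeasurable G (volume.restrict A) := by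
    have h1 : Continuous fun x : E3 => wt (‖x‖ ^ 2 / s ^ 2) ^ 4 := by
      simpa using hwc 0
    exact h1.aestronglyMeasurable.mul
      ((AnnClose_meas_ind h).mono_measure (Measure.restrict_mono hAO le_rfl))
  have hAfin : volume A ≠ ⊤ :=
    ((measure_mono sdiff_subset).trans_lt measure_ball_lt_top).ne
  have hFA : IntegrableOn F A := AnnClose_iob (M := 1) hAfin hFm.restrict
    (Eventually.of_forall fun x => by
      rw [Real.norm_of_nonneg (hFb x).1]; exact (hFb x).2)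
  have hGA : IntegrableOn G A := AnnClose_iob (M := 1) hAfin hGm
    (Eventually.of_forall fun x => by
      rw [Real.norm_of_nonneg (hGb x).1]; exact (hGb x).2)
  have hFC : IntegrableOn F (closedBall 0 (τ * s)) :=
    AnnClose_iob (M := 1) measure_closedBall_lt_top.ne hFm.restrict
    (Eventually.of_forall fun x => by
      rw [Real.norm_of_nonneg (hFb x).1]; exact (hFb x).2)
  -- decomposition
  have hτs : τ * s < 4 * s := by nlinarith
  have hsplit : ∫ x, F x = (∫ x in A, F x) + ∫ x in closedBall 0 (τ * s), F x := by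
    rw [← setIntegral_union (disjoint_sdiff_left) isClosed_closedBall.measurableSet hFA hFC]
    have e1 : A ∪ closedBall (0 : E3) (τ * s) = ball (0 : E3) (4 * s) :=
      sdiff_union_of_subset (closedBall_subset_ball hτs)
    rw [e1]
    symm
    refine setIntegral_eq_integral_of_forall_compl_eq_zero fun x hx => ?_
    rw [mem_ball, dist_zero_right, not_lt] at hx
    have : wt (‖x - y‖ ^ 2 / s ^ 2) = 0 := by
      apply AnnClose_wt_zero
      rw [le_div_iff₀ (by positivity), one_mul]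
      have h5 : ‖x‖ ≤ ‖x - y‖ + ‖y‖ := by simpa using norm_add_le (x - y) y
      have h6 : s ≤ ‖x - y‖ := by linarith
      gcongr
    simp only [hF, this]
    ring
  have hC : |∫ x in closedBall 0 (τ * s), F x| ≤ τ ^ 3 * s ^ 3 * ω := by
    have := norm_setIntegral_le_of_norm_le_const (μ := volume) (f := F) (C := 1)
      (s := closedBall (0 : E3) (τ * s)) measure_closedBall_lt_top (fun x _ => by
        rw [Real.norm_of_nonneg (hFb x).1]; exact (hFb x).2)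
    rw [AnnClose_vol_closedBall _ (by positivity), Real.norm_eq_abs] at this
    calc _ ≤ _ := this
      _ = τ ^ 3 * s ^ 3 * ω := by rw [← hω]; ring
  have hD : |(∫ x in A, F x) - ∫ x in A, G x| ≤ 20 * τ * (64 * s ^ 3 * ω) := by
    rw [← integral_sub hFA hGA]
    have hpt : ∀ x ∈ A, ‖F x - G x‖ ≤ 20 * τ := by
      rintro x ⟨h1, h2⟩
      simp only [mem_closedBall, dist_zero_right, not_le, mem_ball] at h1 h2
      have c1 : chi δ x = 1 := chi_one hδ (by linarith)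
      have c3 := AnnClose_ind_mem (u := u) x
      have c4 := AnnClose_wt_mem (a := ‖x - y‖ ^ 2 / s ^ 2) (by positivity)
      have c5 := AnnClose_wt_mem (a := ‖x‖ ^ 2 / s ^ 2) (by positivity)
      simp only [hF, hG, c1, one_mul]
      rw [← sub_mul, Real.norm_eq_abs, abs_mul, abs_of_nonneg c3.1]
      have c6 := AnnClose_pow4 c4.1 c4.2 c5.1 c5.2
      have c7 := AnnClose_wt_lip (‖x - y‖ ^ 2 / s ^ 2) (‖x‖ ^ 2 / s ^ 2)
      have c8 : |‖x - y‖ ^ 2 / s ^ 2 - ‖x‖ ^ 2 / s ^ 2| ≤ 5 * τ := by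
        rw [← sub_div, abs_div, abs_of_pos (show 0 < s ^ 2 by positivity),
          div_le_iff₀ (by positivity)]
        have d1 : |‖x - y‖ - ‖x‖| ≤ ‖y‖ := by
          have := abs_norm_sub_norm_le (x - y) x
          rwa [sub_sub_cancel_left, norm_neg] at this
        have d2 : ‖x - y‖ ≤ ‖x‖ + ‖y‖ := norm_sub_le x y
        have d3 : ‖x - y‖ ^ 2 - ‖x‖ ^ 2 = (‖x - y‖ - ‖x‖) * (‖x - y‖ + ‖x‖) := by ring
        rw [d3, abs_mul, abs_of_nonneg (show 0 ≤ ‖x - y‖ + ‖x‖ by positivity)]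
        calc |‖x - y‖ - ‖x‖| * (‖x - y‖ + ‖x‖) ≤ (τ * s / 2) * (9 * s) := by
              gcongr
              · exact d1.trans hy2
              · linarith
          _ ≤ 5 * τ * s ^ 2 := by nlinarith [mul_pos hτ0 (pow_pos hs 2)]
      calc |wt (‖x - y‖ ^ 2 / s ^ 2) ^ 4 - wt (‖x‖ ^ 2 / s ^ 2) ^ 4| * ind u x
          ≤ (4 * (5 * τ)) * 1 :=
            mul_le_mul (c6.trans (by linarith)) c3.2 c3.1 (by positivity)
        _ = 20 * τ := by ring
    have := norm_setIntegral_le_of_norm_le_const (μ := volume) hAfin.lt_top hpt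
    rw [Real.norm_eq_abs] at this
    refine this.trans ?_
    have hvA : volume.real A ≤ 64 * s ^ 3 * ω := by
      calc volume.real A ≤ volume.real (ball (0 : E3) (4 * s)) :=
            measureReal_mono sdiff_subset measure_ball_lt_top.ne
        _ = 64 * s ^ 3 * ω := by rw [AnnClose_vol_ball _ (by positivity)]; ring
    gcongr
  have hVV : VV (chi δ) u y s = 1 / s ^ 3 * ∫ x, F x := rfl
  rw [hcov]
  rw [hVV, hsplit] at hV
  have hs3 : (0 : ℝ) < s ^ 3 := by positivity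
  have key : |1 / s ^ 3 * (∫ x in A, G x) -
      1 / s ^ 3 * ((∫ x in A, F x) + ∫ x in closedBall 0 (τ * s), F x)| ≤
      1281 * ω * τ := by
    rw [← mul_sub, abs_mul, abs_of_pos (by positivity : 0 < 1 / s ^ 3), one_div,
      inv_mul_le_iff₀ hs3]
    have hD' := abs_le.1 hD
    have hC' := abs_le.1 hC
    have hτ3 : τ ^ 3 ≤ τ := by nlinarith [pow_pos hτ0 2, mul_pos hτ0 hτ0]
    have e2 : τ ^ 3 * s ^ 3 * ω ≤ τ * s ^ 3 * ω := by gcongr
    rw [abs_le]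
    constructor <;> nlinarith
  have hV' := abs_le.1 hV
  have key' := abs_le.1 key
  rw [abs_le]
  constructor <;> linarith

theorem AnnClose_volF {κ K r₁ r₀ ρ : ℝ} (hδ : 0 < δ) (hd : Dens κ K r₁ r₀ δ u) (hs : 0 < s)
    (hs1 : s ≤ r₁ / 16) (hr : r₁ ≤ r₀) (hτ : 8 * K * δ ≤ τ * s) (hK : 8 ≤ K) {y : E3}
    (hy : FB u (s • y)) (hy2 : ‖y‖ ≤ 1) (hρ : 0 < ρ) (hρ1 : ρ < 1) (hρ2 : τ + ρ < ‖y‖) :
    |1 / ρ ^ 3 * (∫ x in ball y ρ, wt (‖x - y‖ ^ 2 / ρ ^ 2) ^ 4 * ind (sc u 0 s) x) - mm / 2| ≤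
      κ := by
  have hKδ : 64 * δ ≤ 8 * K * δ := by nlinarith
  have hn : ‖s • y‖ = s * ‖y‖ := by rw [norm_smul, Real.norm_of_nonneg hs.le]
  have hV := hd.vol (s • y) hy (by rw [hn]; nlinarith) (by rw [hn]; nlinarith) (s * ρ)
    (by positivity) (by nlinarith)
  have e1 : ∫ x in ball y ρ, wt (‖x - y‖ ^ 2 / ρ ^ 2) ^ 4 * ind (sc u 0 s) x =
      1 / s ^ 3 * ∫ x in ball (s • y) (s * ρ),
        wt (‖x - s • y‖ ^ 2 / (s * ρ) ^ 2) ^ 4 * ind u x := by
    have h1 := integral_sc (z := (0 : E3)) hs (ball (s • y) (s * ρ))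
      (fun x => wt (‖x - s • y‖ ^ 2 / (s * ρ) ^ 2) ^ 4 * ind u x)
    have h2 : {x : E3 | (0 : E3) + s • x ∈ ball (s • y) (s * ρ)} = ball y ρ := by
      ext x
      simp only [mem_ofPred_eq, zero_add, mem_ball, dist_eq_norm, ← smul_sub, norm_smul,
        Real.norm_of_nonneg hs.le]
      rw [mul_lt_mul_iff_right₀ hs]
    rw [h2] at h1
    rw [← h1]
    refine setIntegral_congr_fun isOpen_ball.measurableSet fun x _ => ?_
    rw [sc_ind hs, zero_add, ← smul_sub, norm_smul, Real.norm_of_nonneg hs.le, mul_pow, mul_pow,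
      mul_div_mul_left _ _ (by positivity)]
  have e2 : VV (chi δ) u (s • y) (s * ρ) = 1 / (s * ρ) ^ 3 * ∫ x in ball (s • y) (s * ρ),
      wt (‖x - s • y‖ ^ 2 / (s * ρ) ^ 2) ^ 4 * ind u x := by
    unfold VV
    congr 1
    rw [← setIntegral_eq_integral_of_forall_compl_eq_zero (s := ball (s • y) (s * ρ))]
    · refine setIntegral_congr_fun isOpen_ball.measurableSet fun x hx => ?_
      rw [chi_one hδ, one_mul]
      rw [mem_ball, dist_eq_norm] at hx
      have h5 : ‖s • y‖ ≤ ‖x‖ + ‖x - s • y‖ := by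
        have := norm_sub_le x (x - s • y)
        rwa [sub_sub_cancel] at this
      rw [hn] at h5
      nlinarith
    · intro x hx
      rw [mem_ball, dist_eq_norm, not_lt] at hx
      have : wt (‖x - s • y‖ ^ 2 / (s * ρ) ^ 2) = 0 := by
        apply AnnClose_wt_zero
        rw [le_div_iff₀ (by positivity), one_mul]
        gcongr
      rw [this]
      ring
  rw [e2] at hV
  rw [e1]
  convert hV using 3
  field_simp

theorem AnnClose_hom0 {κ K r₁ r₀ κc : ℝ} (hone : OnePhase {x | δ < ‖x‖ ∧ ‖x‖ < 1} u)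
    (hl : LipOn L δ u) (hδ : 0 < δ) (hL : 0 ≤ L) (hd : Dens κ K r₁ r₀ δ u) (hs : 0 < s)
    (hs2 : s ≤ r₁ / 16) (hr : r₁ ≤ r₀) (hr0 : r₀ ≤ 1 / 16) (hτ0 : 0 < τ) (hτ2 : τ ≤ 1)
    (hτs : 8 * δ ≤ τ * s) {y₀ : E3}
    (hF₀ : FB u y₀) (hy₀K : K * δ ≤ ‖y₀‖) (hy₀ : ‖y₀‖ = τ * s / 2)
    (hωL : L ^ 2 * volume.real (ball (0 : E3) 1) * τ ≤ κc / 4000)
    (hκc : 0 ≤ κc) (hκ2 : κ ≤ κc / 20000) :
    1 / s ^ 5 * ∫ x in ball 0 (4 * s) \ closedBall 0 (τ * s), TT u 0 x ^ 2 ≤ κc := by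
  have hA := AnnClose_hom hone hl hδ hL hd hs hs2 hr hr0 hτs hF₀ hy₀K
    (by rw [hy₀]; nlinarith)
  set ω := volume.real (ball (0 : E3) 1) with hω
  have hω0 : 0 ≤ ω := measureReal_nonneg
  set A : Set E3 := ball (0 : E3) (4 * s) \ closedBall (0 : E3) (τ * s) with hAdef
  have hAm : MeasurableSet A :=
    isOpen_ball.measurableSet.diff isClosed_closedBall.measurableSet
  have hAb : ∀ x ∈ A, 2 * δ ≤ ‖x‖ ∧ ‖x‖ ≤ 1 / 2 := by
    rintro x ⟨h1, h2⟩
    simp only [mem_closedBall, dist_zero_right, not_le, mem_ball] at h1 h2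
    constructor <;> linarith
  have hi0 := AnnClose_integrable_TT hone hl hδ hL 0 hAm hAb
  have hi1 := AnnClose_integrable_TT hone hl hδ hL y₀ hAm hAb
  have hAfin : volume A ≠ ⊤ :=
    ((measure_mono sdiff_subset).trans_lt measure_ball_lt_top).ne
  have hic : IntegrableOn (fun _ : E3 => 2 * (L * ‖y₀‖) ^ 2) A :=
    integrableOn_const hAfin
  have hmono : ∫ x in A, TT u 0 x ^ 2 ≤
      ∫ x in A, (2 * TT u y₀ x ^ 2 + 2 * (L * ‖y₀‖) ^ 2) := by
    refine setIntegral_mono_on hi0 ((hi1.const_mul 2).add hic) hAm fun x hx => ?_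
    have b := AnnClose_bd hone hl hδ hL (hAb x hx).1 (hAb x hx).2
    have e1 : TT u 0 x = TT u y₀ x + ⟪y₀, Du u x⟫ := by
      unfold TT
      rw [sub_zero, inner_sub_left]
      ring
    have e2 : |⟪y₀, Du u x⟫| ≤ L * ‖y₀‖ := by
      calc |⟪y₀, Du u x⟫| ≤ ‖y₀‖ * ‖Du u x‖ := abs_real_inner_le_norm _ _
        _ ≤ ‖y₀‖ * L := by gcongr; exact b.1
        _ = L * ‖y₀‖ := mul_comm _ _
    have e3 : ⟪y₀, Du u x⟫ ^ 2 ≤ (L * ‖y₀‖) ^ 2 := by
      rw [← sq_abs]; gcongr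
    rw [e1]
    nlinarith [sq_nonneg (TT u y₀ x - ⟪y₀, Du u x⟫)]
  rw [integral_add (hi1.const_mul 2) hic, integral_const_mul] at hmono
  have hconst : ∫ _ in A, 2 * (L * ‖y₀‖) ^ 2 ≤ 32 * L ^ 2 * τ ^ 2 * ω * s ^ 5 := by
    rw [setIntegral_const, smul_eq_mul]
    have hvA : volume.real A ≤ 64 * s ^ 3 * ω := by
      calc volume.real A ≤ volume.real (ball (0 : E3) (4 * s)) :=
            measureReal_mono sdiff_subset measure_ball_lt_top.ne
        _ = 64 * s ^ 3 * ω := by rw [AnnClose_vol_ball _ (by positivity)]; ring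
    calc volume.real A * (2 * (L * ‖y₀‖) ^ 2)
        ≤ 64 * s ^ 3 * ω * (2 * (L * ‖y₀‖) ^ 2) := by gcongr
      _ = 32 * L ^ 2 * τ ^ 2 * ω * s ^ 5 := by rw [hy₀]; ring
  have htot : ∫ x in A, TT u 0 x ^ 2 ≤ (15552 * κ + 32 * L ^ 2 * τ ^ 2 * ω) * s ^ 5 := by
    calc _ ≤ _ := hmono
      _ ≤ 2 * (κ * (6 * s) ^ 5) + 32 * L ^ 2 * τ ^ 2 * ω * s ^ 5 := by gcongr
      _ = _ := by ring
  rw [one_div, inv_mul_le_iff₀ (by positivity)]
  refine htot.trans ?_
  have h32 : 32 * L ^ 2 * τ ^ 2 * ω ≤ 32 * (κc / 4000) := by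
    have : L ^ 2 * τ ^ 2 * ω ≤ L ^ 2 * ω * τ := by
      have : τ ^ 2 ≤ τ := by nlinarith
      calc L ^ 2 * τ ^ 2 * ω ≤ L ^ 2 * τ * ω := by gcongr
        _ = L ^ 2 * ω * τ := by ring
    linarith
  have : 15552 * κ + 32 * L ^ 2 * τ ^ 2 * ω ≤ κc := by linarith
  rw [mul_comm (s ^ 5)]
  gcongr

theorem AnnClose_nondeg (hs : 0 < s) {y₁ e : E3} (hy₁ : ‖y₁‖ = s / 2) (he : ‖e‖ = 1)
    (hτ2 : τ ≤ 1 / 4)
    (hcl : CloseAt u y₁ (s / 128) e (1 / 8)) :
    ∃ x : E3, τ < ‖x‖ ∧ ‖x‖ ≤ 1 ∧ 1 / 1000 ≤ sc u 0 s x := by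
  set x : E3 := y₁ + (s / 256) • e with hx
  have hxy : x - y₁ = (s / 256) • e := by rw [hx, add_sub_cancel_left]
  have hxyn : ‖x - y₁‖ = s / 256 := by
    rw [hxy, norm_smul, he, mul_one, Real.norm_of_nonneg (by positivity)]
  have hxb : x ∈ ball y₁ (s / 128) := by
    rw [mem_ball, dist_eq_norm, hxyn]; linarith
  have hc := (hcl x hxb).1
  have hin : ⟪x - y₁, e⟫ = s / 256 := by
    rw [hxy, real_inner_smul_left, real_inner_self_eq_norm_sq, he]; ring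
  rw [hin, max_eq_left (by positivity)] at hc
  have hux : s / 256 - s / 1024 ≤ u x := by
    have := (abs_le.1 hc).1
    linarith
  have hxn1 : ‖x‖ ≤ s / 2 + s / 256 := by
    have := norm_add_le y₁ (x - y₁)
    rw [add_sub_cancel, hy₁, hxyn] at this
    exact this
  have hxn2 : s / 2 - s / 256 ≤ ‖x‖ := by
    have := norm_sub_le x (x - y₁)
    rw [sub_sub_cancel, hy₁, hxyn] at this
    linarith
  have hnx : ‖s⁻¹ • x‖ = ‖x‖ / s := by
    rw [norm_smul, norm_inv, Real.norm_of_nonneg hs.le]; ring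
  refine ⟨s⁻¹ • x, ?_, ?_, ?_⟩
  · rw [hnx, lt_div_iff₀ hs]; nlinarith
  · rw [hnx, div_le_iff₀ hs]; linarith
  · unfold sc
    rw [zero_add, smul_smul, mul_inv_cancel₀ hs.ne', one_smul, le_div_iff₀ hs]
    linarith

theorem AnnClose_cone {κ K r₁ r₀ κc : ℝ} (hone : OnePhase {x | δ < ‖x‖ ∧ ‖x‖ < 1} u)
    (hl : LipOn L δ u) (hδ : 0 < δ) (hL : 1 ≤ L) (hK : 8 ≤ K) (hd : Dens κ K r₁ r₀ δ u)
    (hs : 0 < s) (hs2 : s ≤ r₁ / 16) (hr : r₁ ≤ r₀) (hr0 : r₀ ≤ 1 / 16) (hτ0 : 0 < τ)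
    (hτ2 : τ ≤ 1 / 4) (hτs : 8 * K * δ ≤ τ * s) (hKδ2 : 8 * δ ≤ K * δ) {y₀ y₁ e : E3}
    (hF₀ : FB u y₀) (hy₀ : ‖y₀‖ = τ * s / 2) (hy₁ : ‖y₁‖ = s / 2) (he : ‖e‖ = 1)
    (hcl : CloseAt u y₁ (s / 128) e (1 / 8))
    (hωτ : volume.real (ball (0 : E3) 1) * τ ≤ κc / 4000)
    (hωL : L ^ 2 * volume.real (ball (0 : E3) 1) * τ ≤ κc / 4000)
    (hκc : 0 ≤ κc) (hκ2 : κ ≤ κc / 20000) : AlmostCone L κc τ (sc u 0 s) := by
  have hn : ∀ x : E3, ‖(0 : E3) + s • x‖ = s * ‖x‖ := fun x => by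
    rw [zero_add, norm_smul, Real.norm_of_nonneg hs.le]
  have hmem : ∀ x : E3, τ < ‖x‖ → ‖x‖ < 8 →
      2 * δ ≤ ‖(0 : E3) + s • x‖ ∧ ‖(0 : E3) + s • x‖ ≤ 1 / 2 := by
    intro x h1 h2
    rw [hn]
    constructor <;> nlinarith
  refine ⟨?_, ?_, ?_, ?_, ?_, ?_, ?_, ?_⟩
  · refine (sc_onePhase hone 0 hs).mono ?_ ?_
    · exact (isOpen_lt continuous_const continuous_norm).inter
        (isOpen_lt continuous_norm continuous_const)
    · rintro x ⟨h1, h2⟩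
      have := hmem x h1 h2
      exact ⟨by linarith [this.1], by linarith [this.2]⟩
  · intro x h1 h2 h3
    rw [sc_gradient hs]
    rw [sc_pos hs] at h3
    exact (hl _ (hmem x h1 h2).1 (hmem x h1 h2).2 h3).1
  · intro x h1 h2
    have b := AnnClose_bd hone hl hδ (by linarith) (hmem x h1 h2).1 (hmem x h1 h2).2
    unfold sc
    rw [div_le_iff₀ hs]
    have := b.2.2
    rw [hn] at this
    nlinarith
  · rw [AnnClose_cov hs, smul_zero]
    exact AnnClose_hom0 hone hl hδ (by linarith) hd hs hs2 hr hr0 hτ0 (by linarith)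
      (show 8 * δ ≤ τ * s by linarith) hF₀ (by rw [hy₀]; linarith) hy₀ hωL
      hκc (by linarith)
  · intro y h1 h2 h3
    rw [AnnClose_cov hs]
    rw [sc_FB hs, zero_add] at h3
    have hny : ‖s • y‖ = s * ‖y‖ := by rw [norm_smul, Real.norm_of_nonneg hs.le]
    have hA := AnnClose_hom hone hl hδ (by linarith) hd hs hs2 hr hr0
      (show 8 * δ ≤ τ * s by linarith) h3 (by rw [hny]; nlinarith)
      (by rw [hny]; nlinarith)
    rw [one_div, inv_mul_le_iff₀ (by positivity)]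
    calc _ ≤ _ := hA
      _ = (7776 * κ) * s ^ 5 := by ring
      _ ≤ κc * s ^ 5 := by
        gcongr
        linarith
      _ = s ^ 5 * κc := mul_comm _ _
  · refine (AnnClose_vol0 hone hδ hd hs hs2 hr hr0 hτ0 hτ2 (by linarith) hF₀
      (by rw [hy₀]; linarith) hy₀.le).trans ?_
    linarith
  · intro y h1 h2 ρ h3 h4 h5
    rw [sc_FB hs, zero_add] at h2
    refine (AnnClose_volF hδ hd hs hs2 hr hτs hK h2 h1 h3 h4 h5).trans ?_
    linarith
  · exact AnnClose_nondeg hs hy₁ he hτ2 hcl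

theorem ann_close : ∀ L : ℝ, 1 ≤ L → ∀ σ : ℝ, 0 < σ → ∃ κ₀ : ℝ, 0 < κ₀ ∧ ∃ M : ℝ, 1 ≤ M ∧
    ∀ (κ K r₁ r₀ δ ε : ℝ) (u : E3 → ℝ), κ ≤ κ₀ → 8 ≤ K → 0 < δ → r₁ ≤ r₀ → r₀ ≤ 1 / 16 →
    Setup δ ε u → LipOn L δ u → Dens κ K r₁ r₀ δ u →
    ∀ s : ℝ, M * K * δ ≤ s → s ≤ r₁ / 16 →
    ∃ e : E3, ‖e‖ = 1 ∧ ∀ x : E3, σ * s ≤ ‖x‖ → ‖x‖ ≤ s / 2 →
      |u x - max ⟪x, e⟫ 0| ≤ σ * s ∧ (σ * s < ⟪x, e⟫ → 0 < u x) ∧
      (⟪x, e⟫ < -(σ * s) → u x = 0) := by
  intro L hL σ hσ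
  obtain ⟨κc, hκc, τc, hτc, hcone⟩ := almostCone_close L hL σ hσ
  obtain ⟨κb, hκb, hball⟩ := ball_close L hL (1 / 8) (by norm_num)
  set ω := volume.real (ball (0 : E3) 1) with hω
  have hω0 : 0 ≤ ω := measureReal_nonneg
  obtain ⟨τ, hτ0, hτ1, hτ2, hτ3⟩ : ∃ τ : ℝ, 0 < τ ∧ τ ≤ τc ∧ τ ≤ 1 / 4 ∧
      4000 * (ω + 1) * L ^ 2 * τ ≤ κc := by
    have hp : (0 : ℝ) < 4000 * (ω + 1) * L ^ 2 := by positivity
    refine ⟨min (min τc (1 / 4)) (κc / (4000 * (ω + 1) * L ^ 2)), by positivity,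
      (min_le_left _ _).trans (min_le_left _ _), (min_le_left _ _).trans (min_le_right _ _), ?_⟩
    have := min_le_right (min τc (1 / 4)) (κc / (4000 * (ω + 1) * L ^ 2))
    rw [le_div_iff₀ hp] at this
    linarith
  have hL2 : 1 ≤ L ^ 2 := one_le_pow₀ hL
  have hωτ : ω * τ ≤ κc / 4000 := by
    have : ω * τ ≤ (ω + 1) * L ^ 2 * τ := by
      have h1 : ω ≤ (ω + 1) * L ^ 2 := by nlinarith
      gcongr
    linarith
  have hωL : L ^ 2 * ω * τ ≤ κc / 4000 := by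
    have : L ^ 2 * ω * τ ≤ (ω + 1) * L ^ 2 * τ := by
      have h1 : L ^ 2 * ω ≤ (ω + 1) * L ^ 2 := by nlinarith
      gcongr
    linarith
  refine ⟨min κb (κc / 20000), by positivity, 8 / τ, ?_, ?_⟩
  · rw [le_div_iff₀ hτ0]; linarith
  intro κ K r₁ r₀ δ ε u hκ hK hδ hr hr0 hset hl hd s hs1 hs2
  have hκ1 : κ ≤ κb := hκ.trans (min_le_left _ _)
  have hκ2 : κ ≤ κc / 20000 := hκ.trans (min_le_right _ _)
  have hKδ : 0 < K * δ := by positivity
  have hKδ2 : 8 * δ ≤ K * δ := by gcongr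
  have hs : 0 < s := lt_of_lt_of_le (by positivity) hs1
  have hτs : 8 * K * δ ≤ τ * s := by
    have h1 : 8 / τ * K * δ = 8 * K * δ / τ := by ring
    rw [h1, div_le_iff₀ hτ0] at hs1
    linarith
  have hone := hset.onePhase
  -- free boundary points
  obtain ⟨y₀, hy₀, hF₀⟩ := hset.meets (τ * s / 2) (by linarith) (by nlinarith)
  obtain ⟨y₁, hy₁, hF₁⟩ := hset.meets (s / 2) (by nlinarith) (by linarith)
  obtain ⟨e₁, he₁, hcl₁⟩ := hball κ K r₁ r₀ δ u hκ1 hK hδ hr hr0 hone hl hd y₁ hF₁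
    (by rw [hy₁]; nlinarith) (by rw [hy₁]; linarith) (s / 128) (by positivity)
    (by rw [hy₁]; linarith)
  have hAC : AlmostCone L κc τ (sc u 0 s) :=
    AnnClose_cone hone hl hδ hL hK hd hs hs2 hr hr0 hτ0 hτ2 hτs hKδ2 hF₀ hy₀ hy₁ he₁ hcl₁
      hωτ hωL hκc.le hκ2
  obtain ⟨e, he, hcl⟩ := hcone τ _ hτ0 hτ1 hAC
  refine ⟨e, he, fun x hx1 hx2 => ?_⟩
  have hnx : ‖s⁻¹ • x‖ = ‖x‖ / s := by
    rw [norm_smul, norm_inv, Real.norm_of_nonneg hs.le]; ring
  have hin : ⟪s⁻¹ • x, e⟫ = ⟪x, e⟫ / s := by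
    rw [real_inner_smul_left]; ring
  obtain ⟨c1, c2, c3⟩ := hcl (s⁻¹ • x) (by rw [hnx, le_div_iff₀ hs]; exact hx1)
    (by rw [hnx, div_le_iff₀ hs]; linarith)
  have hsx : sc u 0 s (s⁻¹ • x) = u x / s := by
    unfold sc
    rw [zero_add, smul_smul, mul_inv_cancel₀ hs.ne', one_smul]
  rw [hsx, hin] at c1 c2 c3
  refine ⟨?_, ?_, ?_⟩
  · have e1 : u x - max ⟪x, e⟫ 0 = s * (u x / s - max (⟪x, e⟫ / s) 0) := by
      rw [mul_sub, mul_div_cancel₀ _ hs.ne', mul_max_of_nonneg _ _ hs.le, mul_zero,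
        mul_div_cancel₀ _ hs.ne']
    rw [e1, abs_mul, abs_of_pos hs, mul_comm σ]
    gcongr
  · intro hh
    have := c2 (by rw [lt_div_iff₀ hs]; exact hh)
    exact (div_pos_iff_of_pos_right hs).1 this
  · intro hh
    have := c3 (by rw [div_lt_iff₀ hs]; linarith)
    rcases div_eq_zero_iff.1 this with h | h
    · exact h
    · exact absurd h hs.ne'

end Pool.Agent.H32.Flat
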