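import Pool.Agent.H32.Flat.Defs

/-!
# Measurability of `u`, `Du u`, `ind u` on the open set of a one-phase solution
-/

open Set Metric MeasureTheory Filter Topology InnerProductSpace
open scoped Laplacian Gradient RealInnerProductSpace

namespace Pool.Agent.H32.Flat

variable {O : Set E3} {u : E3 → ℝ}

theorem DuMeas_isOpen_pos (h : OnePhase O u) : IsOpen (O ∩ {x | 0 < u x}) :=
  h.cont.isOpen_inter_preimage h.isOpen isOpen_Ioi

theorem DuMeas_measurableSet_pos (h : OnePhase O u) : MeasurableSet (O ∩ {x | 0 < u x}) :=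
  (DuMeas_isOpen_pos h).measurableSet

theorem DuMeas_contDiffAt (h : OnePhase O u) {x : E3} (hx : x ∈ O) (hu : 0 < u x) :
    ContDiffAt ℝ 2 u x := (h.harm x hx hu).1

theorem DuMeas_gradient_continuousAt {f : E3 → ℝ} {x : E3} (hf : ContDiffAt ℝ 2 f x) :
    ContinuousAt (gradient f) x := by
  have h1 : ContinuousAt (fderiv ℝ f) x := (hf.fderiv_right (m := 1) (by norm_num)).continuousAt
  exact ((toDual ℝ E3).symm.continuous.continuousAt).comp h1

theorem DuMeas_gradient_continuousOn (h : OnePhase O u) :
    ContinuousOn (gradient u) (O ∩ {x | 0 < u x}) := fun x hx =>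
  (DuMeas_gradient_continuousAt (DuMeas_contDiffAt h hx.1 hx.2)).continuousWithinAt

/-- `u` is a.e. strongly measurable on `O`. -/
theorem DuMeas_u (h : OnePhase O u) : AEStronglyMeasurable u (volume.restrict O) :=
  h.cont.aestronglyMeasurable h.isOpen.measurableSet

/-- `Du u` is a.e. strongly measurable on `O`. -/
theorem DuMeas_Du (h : OnePhase O u) : AEStronglyMeasurable (Du u) (volume.restrict O) := by
  have h1 : AEStronglyMeasurable ((O ∩ {x | 0 < u x}).indicator (gradient u))
      (volume.restrict O) := by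
    rw [aestronglyMeasurable_indicator_iff (DuMeas_measurableSet_pos h),
      Measure.restrict_restrict (DuMeas_measurableSet_pos h)]
    exact ((DuMeas_gradient_continuousOn h).aestronglyMeasurable
      (DuMeas_measurableSet_pos h)).mono_measure
        (Measure.restrict_mono (fun x hx => hx.1) le_rfl)
  refine h1.congr ?_
  filter_upwards [ae_restrict_mem h.isOpen.measurableSet] with x hx
  by_cases hu : 0 < u x
  · rw [indicator_of_mem (show x ∈ O ∩ {x | 0 < u x} from ⟨hx, hu⟩)]
    simp [Du, hu]
  · rw [indicator_of_notMem (fun hh => hu hh.2)]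
    simp [Du, hu]

/-- `ind u` is a.e. strongly measurable on `O`. -/
theorem DuMeas_ind (h : OnePhase O u) : AEStronglyMeasurable (ind u) (volume.restrict O) := by
  have h1 : AEStronglyMeasurable ((O ∩ {x | 0 < u x}).indicator (fun _ => (1 : ℝ)))
      (volume.restrict O) :=
    (stronglyMeasurable_const.indicator (DuMeas_measurableSet_pos h)).aestronglyMeasurable
  refine h1.congr ?_
  filter_upwards [ae_restrict_mem h.isOpen.measurableSet] with x hx
  by_cases hu : 0 < u x
  · rw [indicator_of_mem (show x ∈ O ∩ {x | 0 < u x} from ⟨hx, hu⟩)]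
    simp [ind, hu]
  · rw [indicator_of_notMem (fun hh => hu hh.2)]
    simp [ind, hu]

theorem DuMeas_ind_nonneg (x : E3) : 0 ≤ ind u x := by unfold ind; split_ifs <;> norm_num

theorem DuMeas_ind_le_one (x : E3) : ind u x ≤ 1 := by unfold ind; split_ifs <;> norm_num

theorem DuMeas_norm_Du_le {L : ℝ} (hL : 0 ≤ L) {x : E3} (hx : 0 < u x → ‖gradient u x‖ ≤ L) :
    ‖Du u x‖ ≤ L := by
  unfold Du
  split_ifs with hu
  · exact hx hu
  · simpa using hL

/-- A bounded a.e. strongly measurable function is integrable on a bounded measurable set. -/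
theorem DuMeas_integrableOn {F : Type*} [NormedAddCommGroup F] {f : E3 → F} {S : Set E3} {R M : ℝ}
    (hS : MeasurableSet S) (hSR : S ⊆ closedBall 0 R) (hf : AEStronglyMeasurable f (volume.restrict S))
    (hM : ∀ x ∈ S, ‖f x‖ ≤ M) : IntegrableOn f S := by
  have hfin : volume S < ⊤ := lt_of_le_of_lt (measure_mono hSR) measure_closedBall_lt_top
  have : IsFiniteMeasure (volume.restrict S) := ⟨by rwa [Measure.restrict_apply_univ]⟩
  exact Integrable.of_bound hf M ((ae_restrict_mem hS).mono hM)

end Pool.Agent.H32.Flat
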