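import Pool.Agent.H32.Flat.Weiss
import Pool.Agent.H32.Flat.DuMeas

/-!
# Module F2b: bounds for the cut-off errors and change of base point

`LipOn L δ u`: the universal Lipschitz bound (module D2) in the region `2δ ≤ |x| ≤ 1/2`.
`gradient (chi δ)` vanishes outside `3δ ≤ |x| ≤ 4δ` and is `≤ C/δ` in norm; there `u ≤ 4Lδ`,
`|Du| ≤ L`, the volume is `≤ C δ³`, `|x - y| ≤ |y| + 4δ`.

`basept`: on the union of the two balls `|wt(|x-y|²/ρ²) - wt(|x|²/ρ²)| ≤ 4|y|/ρ` (`wt` is `1`-Lipschitz),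
`0 ≤ wt ≤ 1`, `|Du|² + ind ≤ 2L²`, `u ≤ 2Lρ`, the union has volume `≤ C ρ³`.
-/

open Set Metric MeasureTheory Filter Topology InnerProductSpace
open scoped Laplacian Gradient RealInnerProductSpace

namespace Pool.Agent.H32.Flat

variable {u : E3 → ℝ}

/-- the universal Lipschitz bound -/
def LipOn (L δ : ℝ) (u : E3 → ℝ) : Prop :=
  ∀ x : E3, 2 * δ ≤ ‖x‖ → ‖x‖ ≤ 1 / 2 → 0 < u x → ‖gradient u x‖ ≤ L ∧ u x ≤ L * ‖x‖

theorem chi_contDiff (δ : ℝ) : ContDiff ℝ 1 (chi δ) := by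
  have h1 : ContDiff ℝ 1 (fun x : E3 => (‖x‖ ^ 2 / δ ^ 2 - 9) / 7) :=
    (((contDiff_norm_sq ℝ).div_const _).sub contDiff_const).div_const _
  exact (Real.smoothTransition.contDiff (n := 1)).comp h1

theorem chi_nonneg (δ : ℝ) (x : E3) : 0 ≤ chi δ x ∧ chi δ x ≤ 1 :=
  ⟨Real.smoothTransition.nonneg _, Real.smoothTransition.le_one _⟩

theorem chi_one {δ : ℝ} (hδ : 0 < δ) {x : E3} (hx : 4 * δ ≤ ‖x‖) : chi δ x = 1 := by
  refine Real.smoothTransition.one_of_one_le ?_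
  have h1 : 16 ≤ ‖x‖ ^ 2 / δ ^ 2 := by
    rw [le_div_iff₀ (by positivity)]
    nlinarith [norm_nonneg x]
  linarith

theorem chi_zero {δ : ℝ} (hδ : 0 < δ) {x : E3} (hx : ‖x‖ ≤ 3 * δ) : chi δ x = 0 := by
  refine Real.smoothTransition.zero_of_nonpos ?_
  have h1 : ‖x‖ ^ 2 / δ ^ 2 ≤ 9 := by
    rw [div_le_iff₀ (by positivity)]
    nlinarith [norm_nonneg x]
  linarith

theorem chi_tsupport {δ : ℝ} (hδ : 0 < δ) : tsupport (chi δ) ⊆ {x | 3 * δ ≤ ‖x‖} := by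
  refine closure_minimal (fun x hx => ?_) (isClosed_le continuous_const continuous_norm)
  by_contra hlt
  exact hx (chi_zero hδ (not_le.1 hlt).le)

theorem ErrBd_st : ∃ K : ℝ, 1 ≤ K ∧ ∀ t ∈ Icc (0 : ℝ) 1, |deriv Real.smoothTransition t| ≤ K := by
  have h1 : Continuous (deriv Real.smoothTransition) :=
    (Real.smoothTransition.contDiff (n := 1)).continuous_deriv le_rfl
  obtain ⟨K, hK⟩ := isCompact_Icc.exists_bound_of_continuousOn (s := Icc (0 : ℝ) 1) h1.continuousOn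
  exact ⟨max K 1, le_max_right _ _, fun t ht => (hK t ht).trans (le_max_left _ _)⟩

theorem ErrBd_norm_gradient (f : E3 → ℝ) (x : E3) : ‖gradient f x‖ = ‖fderiv ℝ f x‖ := by
  unfold gradient
  exact LinearIsometryEquiv.norm_map _ _

theorem ErrBd_fderiv_chi (δ : ℝ) (x : E3) : fderiv ℝ (chi δ) x =
    (deriv Real.smoothTransition ((‖x‖ ^ 2 / δ ^ 2 - 9) / 7)) •
      ((1 / (7 * δ ^ 2)) • (2 • (innerSL ℝ x) : E3 →L[ℝ] ℝ)) := by
  have h1 : HasFDerivAt (fun x : E3 => (‖x‖ ^ 2 / δ ^ 2 - 9) / 7)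
      ((1 / (7 * δ ^ 2)) • (2 • (innerSL ℝ x) : E3 →L[ℝ] ℝ)) x := by
    have h2 := ((hasStrictFDerivAt_norm_sq x).hasFDerivAt.const_mul (1 / (7 * δ ^ 2))).sub_const
      (9 / 7 : ℝ)
    refine h2.congr_of_eventuallyEq (Eventually.of_forall fun z => ?_)
    show (‖z‖ ^ 2 / δ ^ 2 - 9) / 7 = 1 / (7 * δ ^ 2) * ‖z‖ ^ 2 - 9 / 7
    ring
  have h3 : DifferentiableAt ℝ Real.smoothTransition ((‖x‖ ^ 2 / δ ^ 2 - 9) / 7) :=
    (Real.smoothTransition.contDiff (n := 1)).differentiable one_ne_zero _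
  exact (h3.hasDerivAt.comp_hasFDerivAt x h1).fderiv

theorem ErrBd_gradient_zero {f : E3 → ℝ} {x : E3} {c : ℝ} (h : f =ᶠ[𝓝 x] fun _ => c) :
    gradient f x = 0 := by
  unfold gradient
  rw [h.fderiv_eq, fderiv_fun_const]
  simp

theorem chi_gradient : ∃ C : ℝ, 1 ≤ C ∧ ∀ (δ : ℝ), 0 < δ → ∀ x : E3,
    ‖gradient (chi δ) x‖ ≤ C / δ ∧ (‖x‖ < 3 * δ ∨ 4 * δ < ‖x‖ → gradient (chi δ) x = 0) := by
  obtain ⟨K, hK1, hK⟩ := ErrBd_st
  refine ⟨2 * K, by linarith, fun δ hδ x => ?_⟩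
  have h0 : ‖x‖ < 3 * δ ∨ 4 * δ < ‖x‖ → gradient (chi δ) x = 0 := by
    rintro (h | h)
    · refine ErrBd_gradient_zero (c := 0) ?_
      filter_upwards [(isOpen_lt continuous_norm continuous_const).mem_nhds h] with z hz
      exact chi_zero hδ (le_of_lt hz)
    · refine ErrBd_gradient_zero (c := 1) ?_
      filter_upwards [(isOpen_lt continuous_const continuous_norm).mem_nhds h] with z hz
      exact chi_one hδ (le_of_lt hz)
  refine ⟨?_, h0⟩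
  by_cases hx : ‖x‖ < 3 * δ ∨ 4 * δ < ‖x‖
  · rw [h0 hx, norm_zero]
    positivity
  · push Not at hx
    rw [ErrBd_norm_gradient, ErrBd_fderiv_chi, norm_smul, norm_smul]
    have h1 : |deriv Real.smoothTransition ((‖x‖ ^ 2 / δ ^ 2 - 9) / 7)| ≤ K := by
      refine hK _ ⟨?_, ?_⟩
      · have : 9 ≤ ‖x‖ ^ 2 / δ ^ 2 := by
          rw [le_div_iff₀ (by positivity)]
          nlinarith
        linarith
      · have : ‖x‖ ^ 2 / δ ^ 2 ≤ 16 := by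
          rw [div_le_iff₀ (by positivity)]
          nlinarith [norm_nonneg x]
        linarith
    have h2 : ‖(2 • (innerSL ℝ x) : E3 →L[ℝ] ℝ)‖ ≤ 8 * δ := by
      rw [two_smul]
      refine (norm_add_le _ _).trans ?_
      rw [innerSL_apply_norm]
      linarith
    have h3 : ‖(1 / (7 * δ ^ 2) : ℝ)‖ = 1 / (7 * δ ^ 2) := by
      rw [Real.norm_eq_abs, abs_of_pos (by positivity)]
    rw [h3, Real.norm_eq_abs]
    calc |deriv Real.smoothTransition ((‖x‖ ^ 2 / δ ^ 2 - 9) / 7)| *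
          (1 / (7 * δ ^ 2) * ‖(2 • (innerSL ℝ x) : E3 →L[ℝ] ℝ)‖)
        ≤ K * (1 / (7 * δ ^ 2) * (8 * δ)) := by gcongr
      _ = (8 / 7 * K) / δ := by
          field_simp
      _ ≤ 2 * K / δ := by
          gcongr
          linarith

theorem ErrBd_wt_nonneg (t : ℝ) : 0 ≤ wt t := le_max_right _ _

theorem ErrBd_wt_le_one {t : ℝ} (ht : 0 ≤ t) : wt t ≤ 1 := max_le (by linarith) zero_le_one

theorem ErrBd_wt_zero {t : ℝ} (ht : 1 ≤ t) : wt t = 0 := max_eq_right (by linarith)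

theorem ErrBd_wt_zero' {x y : E3} {ρ : ℝ} (hρ : 0 < ρ) (h : ρ ≤ ‖x - y‖) :
    wt (‖x - y‖ ^ 2 / ρ ^ 2) = 0 := by
  refine ErrBd_wt_zero ?_
  rw [le_div_iff₀ (by positivity), one_mul]
  exact pow_le_pow_left₀ hρ.le h 2

theorem ErrBd_wt_bd (x y : E3) (ρ : ℝ) (n : ℕ) :
    |wt (‖x - y‖ ^ 2 / ρ ^ 2) ^ n| ≤ 1 := by
  rw [abs_of_nonneg (pow_nonneg (ErrBd_wt_nonneg _) n)]
  exact pow_le_one₀ (ErrBd_wt_nonneg _) (ErrBd_wt_le_one (by positivity))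

/-- Integrals of bounded functions supported in a ball. -/
theorem ErrBd_int {f : E3 → ℝ} {r M : ℝ} (hr : 0 ≤ r) (h0 : ∀ x, r < ‖x‖ → f x = 0)
    (hb : ∀ x, ‖x‖ ≤ r → |f x| ≤ M) :
    |∫ x, f x| ≤ M * (r ^ 3 * volume.real (ball (0 : E3) 1)) := by
  have h1 : ∫ x, f x = ∫ x in closedBall 0 r, f x := by
    symm
    refine setIntegral_eq_integral_of_forall_compl_eq_zero fun x hx => h0 x ?_
    rw [mem_closedBall_zero_iff, not_le] at hx
    exact hx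
  rw [h1]
  have h2 := norm_setIntegral_le_of_norm_le_const (μ := volume) (s := closedBall (0 : E3) r)
    (f := f) (C := M) measure_closedBall_lt_top (fun x hx => hb x (mem_closedBall_zero_iff.1 hx))
  rw [Measure.addHaar_real_closedBall _ _ hr, finrank_euclideanSpace_fin] at h2
  exact h2

/-- Pointwise bounds. -/
theorem ErrBd_pt {L δ : ℝ} (hL : 1 ≤ L) (hδ : 0 < δ)
    (h : OnePhase {x | δ < ‖x‖ ∧ ‖x‖ < 1} u) (hLip : LipOn L δ u) {x : E3} (h3 : 3 * δ ≤ ‖x‖)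
    (hx : ‖x‖ ≤ 1 / 2) : ‖Du u x‖ ≤ L ∧ 0 ≤ u x ∧ u x ≤ L * ‖x‖ := by
  have hO : x ∈ {x : E3 | δ < ‖x‖ ∧ ‖x‖ < 1} := ⟨by linarith, by linarith⟩
  refine ⟨DuMeas_norm_Du_le (by linarith) fun hu => (hLip x (by linarith) hx hu).1,
    h.nonneg x hO, ?_⟩
  rcases (h.nonneg x hO).lt_or_eq with hu | hu
  · exact (hLip x (by linarith) hx hu).2
  · rw [← hu]
    positivity

theorem err_bound : ∃ C : ℝ, 1 ≤ C ∧ ∀ (L δ : ℝ) (u : E3 → ℝ), 1 ≤ L → 0 < δ → δ ≤ 1 / 8 →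
    OnePhase {x | δ < ‖x‖ ∧ ‖x‖ < 1} u → LipOn L δ u → ∀ (y : E3) (ρ : ℝ), 0 < ρ →
    ‖y‖ + ρ ≤ 1 / 2 → |Err1 (chi δ) u y ρ| ≤ C * L ^ 2 * (‖y‖ + δ) * δ ^ 2 ∧
      |Err2 (chi δ) u y ρ| ≤ C * L ^ 2 * δ ^ 3 ∧
      |Err3 (chi δ) u y ρ| ≤ C * L ^ 2 * (‖y‖ + δ) * δ ^ 4 := by
  obtain ⟨C, hC1, hC⟩ := chi_gradient
  set v : ℝ := volume.real (ball (0 : E3) 1) with hv
  have hv0 : 0 ≤ v := measureReal_nonneg
  refine ⟨4096 * C * (v + 1), by nlinarith, ?_⟩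
  intro L δ u hL hδ hδ8 h hLip y ρ hρ hyρ
  set N : ℝ := ‖y‖ + δ with hN
  have hN0 : 0 < N := by positivity
  -- the support
  have hsup : ∀ x : E3, 4 * δ < ‖x‖ → gradient (chi δ) x = 0 := fun x hx => (hC δ hδ x).2 (Or.inr hx)
  have key : ∀ x : E3, ‖x‖ ≤ 4 * δ → (gradient (chi δ) x = 0 ∨ wt (‖x - y‖ ^ 2 / ρ ^ 2) = 0) ∨
      (‖gradient (chi δ) x‖ ≤ C / δ ∧ ‖Du u x‖ ≤ L ∧ |u x| ≤ 4 * L * δ ∧ ‖x - y‖ ≤ 4 * N) := by
    intro x hx
    by_cases h3 : ‖x‖ < 3 * δ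
    · exact Or.inl (Or.inl ((hC δ hδ x).2 (Or.inl h3)))
    · by_cases hw : ρ ≤ ‖x - y‖
      · exact Or.inl (Or.inr (ErrBd_wt_zero' hρ hw))
      · right
        push Not at h3 hw
        have hx2 : ‖x‖ ≤ 1 / 2 := by
          have : ‖x‖ ≤ ‖x - y‖ + ‖y‖ := by
            simpa using norm_add_le (x - y) y
          linarith
        obtain ⟨k1, k2, k3⟩ := ErrBd_pt hL hδ h hLip h3 hx2
        refine ⟨(hC δ hδ x).1, k1, ?_, ?_⟩
        · rw [abs_of_nonneg k2]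
          calc u x ≤ L * ‖x‖ := k3
            _ ≤ L * (4 * δ) := by gcongr
            _ = 4 * L * δ := by ring
        · calc ‖x - y‖ ≤ ‖x‖ + ‖y‖ := norm_sub_le _ _
            _ ≤ 4 * N := by
              rw [hN]
              linarith [norm_nonneg y]
  have hr : (0 : ℝ) ≤ 4 * δ := by positivity
  refine ⟨?_, ?_, ?_⟩
  · have h1 := ErrBd_int (f := fun x => wt (‖x - y‖ ^ 2 / ρ ^ 2) ^ 4 * ((‖Du u x‖ ^ 2 + ind u x) *
      ⟪x - y, gradient (chi δ) x⟫ - 2 * ⟪gradient (chi δ) x, Du u x⟫ * ⟪x - y, Du u x⟫))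
      (M := 16 * L ^ 2 * N * C / δ) hr
      (fun x hx => by
        rw [hsup x hx]
        simp)
      (fun x hx => by
        rcases key x hx with (k | k) | ⟨k1, k2, k3, k4⟩
        · rw [k]
          simp
          positivity
        · rw [k]
          simp
          positivity
        · rw [abs_mul]
          have e1 : |(‖Du u x‖ ^ 2 + ind u x) * ⟪x - y, gradient (chi δ) x⟫| ≤
              (2 * L ^ 2) * (4 * N * (C / δ)) := by
            rw [abs_mul]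
            have f1 : |‖Du u x‖ ^ 2 + ind u x| ≤ 2 * L ^ 2 := by
              rw [abs_of_nonneg (add_nonneg (sq_nonneg _) (DuMeas_ind_nonneg x))]
              have g1 : ‖Du u x‖ ^ 2 ≤ L ^ 2 := pow_le_pow_left₀ (norm_nonneg _) k2 2
              have g2 := DuMeas_ind_le_one (u := u) x
              nlinarith
            have f2 : |⟪x - y, gradient (chi δ) x⟫| ≤ 4 * N * (C / δ) :=
              (abs_real_inner_le_norm _ _).trans
                (mul_le_mul k4 k1 (norm_nonneg _) (by positivity))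
            exact mul_le_mul f1 f2 (abs_nonneg _) (by positivity)
          have e2 : |2 * ⟪gradient (chi δ) x, Du u x⟫ * ⟪x - y, Du u x⟫| ≤
              2 * (C / δ * L) * (4 * N * L) := by
            rw [abs_mul, abs_mul, abs_of_pos (by norm_num : (0 : ℝ) < 2)]
            have f1 : |⟪gradient (chi δ) x, Du u x⟫| ≤ C / δ * L :=
              (abs_real_inner_le_norm _ _).trans
                (mul_le_mul k1 k2 (norm_nonneg _) (by positivity))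
            have f2 : |⟪x - y, Du u x⟫| ≤ 4 * N * L :=
              (abs_real_inner_le_norm _ _).trans
                (mul_le_mul k4 k2 (norm_nonneg _) (by positivity))
            exact mul_le_mul (mul_le_mul_of_nonneg_left f1 (by norm_num)) f2 (abs_nonneg _)
              (by positivity)
          have e3 : |(‖Du u x‖ ^ 2 + ind u x) * ⟪x - y, gradient (chi δ) x⟫ -
              2 * ⟪gradient (chi δ) x, Du u x⟫ * ⟪x - y, Du u x⟫| ≤ 16 * L ^ 2 * N * C / δ := by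
            refine (abs_sub _ _).trans ((add_le_add e1 e2).trans (le_of_eq ?_))
            ring
          calc |wt (‖x - y‖ ^ 2 / ρ ^ 2) ^ 4| * |(‖Du u x‖ ^ 2 + ind u x) *
                ⟪x - y, gradient (chi δ) x⟫ - 2 * ⟪gradient (chi δ) x, Du u x⟫ * ⟪x - y, Du u x⟫|
              ≤ 1 * (16 * L ^ 2 * N * C / δ) :=
                mul_le_mul (ErrBd_wt_bd x y ρ 4) e3 (abs_nonneg _) zero_le_one
            _ = _ := one_mul _)
    refine h1.trans ?_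
    have h2 : 16 * L ^ 2 * N * C / δ * ((4 * δ) ^ 3 * v) = 1024 * C * v * L ^ 2 * N * δ ^ 2 := by
      field_simp
      ring
    rw [← hv, h2]
    have h3 : 0 ≤ C * L ^ 2 * N * δ ^ 2 := by positivity
    nlinarith [mul_nonneg h3 hv0]
  · have h1 := ErrBd_int (f := fun x => wt (‖x - y‖ ^ 2 / ρ ^ 2) ^ 4 *
      (u x * ⟪gradient (chi δ) x, Du u x⟫)) (M := 4 * C * L ^ 2) hr
      (fun x hx => by
        rw [hsup x hx]
        simp)
      (fun x hx => by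
        rcases key x hx with (k | k) | ⟨k1, k2, k3, k4⟩
        · rw [k]
          simp
          positivity
        · rw [k]
          simp
          positivity
        · rw [abs_mul, abs_mul]
          have f1 : |⟪gradient (chi δ) x, Du u x⟫| ≤ C / δ * L :=
            (abs_real_inner_le_norm _ _).trans
              (mul_le_mul k1 k2 (norm_nonneg _) (by positivity))
          calc |wt (‖x - y‖ ^ 2 / ρ ^ 2) ^ 4| * (|u x| * |⟪gradient (chi δ) x, Du u x⟫|)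
              ≤ 1 * ((4 * L * δ) * (C / δ * L)) :=
                mul_le_mul (ErrBd_wt_bd x y ρ 4) (mul_le_mul k3 f1 (abs_nonneg _) (by positivity))
                  (by positivity) zero_le_one
            _ = 4 * C * L ^ 2 := by
              field_simp)
    refine h1.trans ?_
    have h2 : 4 * C * L ^ 2 * ((4 * δ) ^ 3 * v) = 256 * C * v * L ^ 2 * δ ^ 3 := by ring
    rw [← hv, h2]
    have h3 : 0 ≤ C * L ^ 2 * δ ^ 3 := by positivity
    nlinarith [mul_nonneg h3 hv0]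
  · have h1 := ErrBd_int (f := fun x => wt (‖x - y‖ ^ 2 / ρ ^ 2) ^ 3 *
      (u x ^ 2 * ⟪x - y, gradient (chi δ) x⟫)) (M := 64 * C * L ^ 2 * N * δ) hr
      (fun x hx => by
        rw [hsup x hx]
        simp)
      (fun x hx => by
        rcases key x hx with (k | k) | ⟨k1, k2, k3, k4⟩
        · rw [k]
          simp
          positivity
        · rw [k]
          simp
          positivity
        · rw [abs_mul, abs_mul, abs_pow (u x)]
          have f1 : |⟪x - y, gradient (chi δ) x⟫| ≤ 4 * N * (C / δ) :=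
            (abs_real_inner_le_norm _ _).trans
              (mul_le_mul k4 k1 (norm_nonneg _) (by positivity))
          have f2 : |u x| ^ 2 ≤ (4 * L * δ) ^ 2 := pow_le_pow_left₀ (abs_nonneg _) k3 2
          calc |wt (‖x - y‖ ^ 2 / ρ ^ 2) ^ 3| * (|u x| ^ 2 * |⟪x - y, gradient (chi δ) x⟫|)
              ≤ 1 * ((4 * L * δ) ^ 2 * (4 * N * (C / δ))) :=
                mul_le_mul (ErrBd_wt_bd x y ρ 3) (mul_le_mul f2 f1 (abs_nonneg _) (by positivity))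
                  (by positivity) zero_le_one
            _ = 64 * C * L ^ 2 * N * δ := by
              field_simp
              ring)
    refine h1.trans ?_
    have h2 : 64 * C * L ^ 2 * N * δ * ((4 * δ) ^ 3 * v) = 4096 * C * v * L ^ 2 * N * δ ^ 4 := by
      ring
    rw [← hv, h2]
    have h3 : 0 ≤ C * L ^ 2 * N * δ ^ 4 := by positivity
    nlinarith [mul_nonneg h3 hv0]

theorem err_zero {δ : ℝ} (hδ : 0 < δ) (u : E3 → ℝ) {y : E3} {ρ : ℝ} (hρ : 0 < ρ)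
    (h : ρ ≤ ‖y‖ - 4 * δ) : Err1 (chi δ) u y ρ = 0 ∧ Err2 (chi δ) u y ρ = 0 ∧
      Err3 (chi δ) u y ρ = 0 := by
  obtain ⟨C, hC1, hC⟩ := chi_gradient
  have key : ∀ x : E3, gradient (chi δ) x = 0 ∨ wt (‖x - y‖ ^ 2 / ρ ^ 2) = 0 := by
    intro x
    by_cases hx : 4 * δ < ‖x‖
    · exact Or.inl ((hC δ hδ x).2 (Or.inr hx))
    · push Not at hx
      refine Or.inr (ErrBd_wt_zero' hρ ?_)
      have : ‖y‖ ≤ ‖x - y‖ + ‖x‖ := by
        have := norm_sub_le x (x - y)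
        rw [sub_sub_cancel] at this
        linarith
      linarith
  refine ⟨?_, ?_, ?_⟩
  · unfold Err1
    rw [← integral_zero E3 ℝ (μ := volume)]
    congr 1
    funext x
    rcases key x with k | k <;> rw [k] <;> simp
  · unfold Err2
    rw [← integral_zero E3 ℝ (μ := volume)]
    congr 1
    funext x
    rcases key x with k | k <;> rw [k] <;> simp
  · unfold Err3
    rw [← integral_zero E3 ℝ (μ := volume)]
    congr 1
    funext x
    rcases key x with k | k <;> rw [k] <;> simp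

theorem ErrBd_wt_lip (s t : ℝ) : |wt s - wt t| ≤ |s - t| := by
  unfold wt
  refine (abs_max_sub_max_le_abs _ _ _).trans (le_of_eq ?_)
  rw [abs_sub_comm s t]
  congr 1
  ring

theorem ErrBd_wt_diff {x y : E3} {ρ : ℝ} (hρ : 0 < ρ) (hy : ‖y‖ ≤ ρ) :
    |wt (‖x - y‖ ^ 2 / ρ ^ 2) - wt (‖x - 0‖ ^ 2 / ρ ^ 2)| ≤ 3 * ‖y‖ / ρ := by
  rw [sub_zero]
  have hle1 : ‖x - y‖ ≤ ‖x‖ + ‖y‖ := norm_sub_le _ _
  have hle2 : ‖x‖ ≤ ‖x - y‖ + ‖y‖ := by simpa using norm_add_le (x - y) y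
  by_cases hb : ρ ≤ ‖x - y‖ ∧ ρ ≤ ‖x‖
  · rw [ErrBd_wt_zero' hρ hb.1]
    have h2 := ErrBd_wt_zero' (x := x) (y := 0) hρ (by simpa using hb.2)
    rw [sub_zero] at h2
    rw [h2, sub_zero, abs_zero]
    positivity
  · have hsum : ‖x - y‖ + ‖x‖ ≤ 3 * ρ := by
      rw [not_and_or] at hb
      rcases hb with hb | hb <;> push Not at hb <;> linarith
    refine (ErrBd_wt_lip _ _).trans ?_
    rw [← sub_div, abs_div, abs_of_pos (show (0 : ℝ) < ρ ^ 2 by positivity)]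
    have h1 : |‖x - y‖ ^ 2 - ‖x‖ ^ 2| ≤ ‖y‖ * (3 * ρ) := by
      rw [sq_sub_sq, abs_mul, mul_comm]
      have h2 : |‖x - y‖ - ‖x‖| ≤ ‖y‖ := abs_le.2 ⟨by linarith, by linarith⟩
      have h3 : |‖x - y‖ + ‖x‖| ≤ 3 * ρ := by
        rw [abs_of_nonneg (by positivity)]
        exact hsum
      exact mul_le_mul h2 h3 (abs_nonneg _) (norm_nonneg _)
    calc |‖x - y‖ ^ 2 - ‖x‖ ^ 2| / ρ ^ 2 ≤ ‖y‖ * (3 * ρ) / ρ ^ 2 := by gcongr
      _ = 3 * ‖y‖ / ρ := by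
        field_simp

theorem ErrBd_pow_diff {a b : ℝ} (ha : 0 ≤ a) (ha1 : a ≤ 1) (hb : 0 ≤ b) (hb1 : b ≤ 1) (n : ℕ) :
    |a ^ n - b ^ n| ≤ n * |a - b| := by
  induction n with
  | zero => simp
  | succ n ih =>
    have h1 : a ^ (n + 1) - b ^ (n + 1) = a ^ n * (a - b) + b * (a ^ n - b ^ n) := by ring
    rw [h1]
    refine (abs_add_le _ _).trans ?_
    rw [abs_mul, abs_mul, abs_of_nonneg (pow_nonneg ha n), abs_of_nonneg hb]
    have h2 : a ^ n * |a - b| ≤ 1 * |a - b| :=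
      mul_le_mul_of_nonneg_right (pow_le_one₀ ha ha1) (abs_nonneg _)
    have h3 : b * |a ^ n - b ^ n| ≤ 1 * |a ^ n - b ^ n| :=
      mul_le_mul_of_nonneg_right hb1 (abs_nonneg _)
    push_cast
    linarith

theorem ErrBd_wt_pow_diff {x y : E3} {ρ : ℝ} (hρ : 0 < ρ) (hy : ‖y‖ ≤ ρ) (n : ℕ) :
    |wt (‖x - y‖ ^ 2 / ρ ^ 2) ^ n - wt (‖x - 0‖ ^ 2 / ρ ^ 2) ^ n| ≤ n * (3 * ‖y‖ / ρ) :=
  (ErrBd_pow_diff (ErrBd_wt_nonneg _) (ErrBd_wt_le_one (by positivity)) (ErrBd_wt_nonneg _)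
    (ErrBd_wt_le_one (by positivity)) n).trans
    (mul_le_mul_of_nonneg_left (ErrBd_wt_diff hρ hy) (Nat.cast_nonneg n))

theorem ErrBd_wt_continuous : Continuous wt := (continuous_const.sub continuous_id).max continuous_const

theorem ErrBd_integrable {δ : ℝ} (hδ : 0 < δ) {g : E3 → ℝ} {M : ℝ}
    (hg : AEStronglyMeasurable g (volume.restrict {x : E3 | δ < ‖x‖ ∧ ‖x‖ < 1}))
    (hM : ∀ x : E3, 3 * δ ≤ ‖x‖ → ‖x‖ ≤ 1 / 2 → |g x| ≤ M) {y : E3} {ρ : ℝ} (hρ : 0 < ρ)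
    (hy : ‖y‖ + ρ ≤ 1 / 2) {n : ℕ} (hn : n ≠ 0) :
    Integrable fun x => chi δ x * wt (‖x - y‖ ^ 2 / ρ ^ 2) ^ n * g x := by
  set A : Set E3 := {x | 3 * δ ≤ ‖x‖ ∧ ‖x‖ ≤ 1 / 2} with hA
  have hAm : MeasurableSet A :=
    ((isClosed_le continuous_const continuous_norm).inter
      (isClosed_le continuous_norm continuous_const)).measurableSet
  have hAO : A ⊆ {x : E3 | δ < ‖x‖ ∧ ‖x‖ < 1} := fun x hx => ⟨by linarith [hx.1], by linarith [hx.2]⟩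
  have hsupp : Function.support (fun x => chi δ x * wt (‖x - y‖ ^ 2 / ρ ^ 2) ^ n * g x) ⊆ A := by
    intro x hx
    rw [Function.mem_support] at hx
    constructor
    · by_contra hlt
      exact hx (by rw [chi_zero hδ (not_le.1 hlt).le]; ring)
    · by_contra hlt
      rw [not_le] at hlt
      refine hx ?_
      have h1 : ‖x‖ ≤ ‖x - y‖ + ‖y‖ := by simpa using norm_add_le (x - y) y
      rw [ErrBd_wt_zero' hρ (by linarith), zero_pow hn]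
      ring
  rw [← integrableOn_iff_integrable_of_support_subset hsupp]
  have hcont : Continuous fun x : E3 => chi δ x * wt (‖x - y‖ ^ 2 / ρ ^ 2) ^ n := by
    have h1 : Continuous fun x : E3 => ‖x - y‖ ^ 2 / ρ ^ 2 := by fun_prop
    exact (chi_contDiff δ).continuous.mul ((ErrBd_wt_continuous.comp h1).pow n)
  have hmeas : AEStronglyMeasurable (fun x => chi δ x * wt (‖x - y‖ ^ 2 / ρ ^ 2) ^ n * g x)
      (volume.restrict A) :=
    hcont.aestronglyMeasurable.mul (hg.mono_measure (Measure.restrict_mono hAO le_rfl))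
  refine DuMeas_integrableOn (R := 1 / 2) (M := M) hAm
    (fun x hx => mem_closedBall_zero_iff.2 hx.2) hmeas fun x hx => ?_
  rw [Real.norm_eq_abs, abs_mul, abs_mul]
  have h1 : |chi δ x| ≤ 1 := by
    rw [abs_of_nonneg (chi_nonneg δ x).1]
    exact (chi_nonneg δ x).2
  have h2 := ErrBd_wt_bd x y ρ n
  calc |chi δ x| * |wt (‖x - y‖ ^ 2 / ρ ^ 2) ^ n| * |g x| ≤ 1 * 1 * M :=
        mul_le_mul (mul_le_mul h1 h2 (abs_nonneg _) zero_le_one) (hM x hx.1 hx.2) (abs_nonneg _)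
          (by norm_num)
    _ = M := by ring

/-- The difference of two weighted integrals. -/
theorem ErrBd_diff {δ : ℝ} (hδ : 0 < δ) {g : E3 → ℝ} {M M' : ℝ}
    (hg : AEStronglyMeasurable g (volume.restrict {x : E3 | δ < ‖x‖ ∧ ‖x‖ < 1}))
    (hM : ∀ x : E3, 3 * δ ≤ ‖x‖ → ‖x‖ ≤ 1 / 2 → |g x| ≤ M) {y : E3} {ρ : ℝ} (hρ : 0 < ρ)
    (hyρ : ‖y‖ ≤ ρ) (hy : ‖y‖ + ρ ≤ 1 / 2) {n : ℕ} (hn : n ≠ 0) (hM' : 0 ≤ M')
    (hM2 : ∀ x : E3, 3 * δ ≤ ‖x‖ → ‖x‖ ≤ 1 / 2 → ‖x‖ ≤ 2 * ρ → |g x| ≤ M') :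
    |(∫ x, chi δ x * wt (‖x - y‖ ^ 2 / ρ ^ 2) ^ n * g x) -
      ∫ x, chi δ x * wt (‖x - 0‖ ^ 2 / ρ ^ 2) ^ n * g x| ≤
      n * (3 * ‖y‖ / ρ) * M' * ((2 * ρ) ^ 3 * volume.real (ball (0 : E3) 1)) := by
  rw [← integral_sub (ErrBd_integrable hδ hg hM hρ hy hn)
    (ErrBd_integrable hδ hg hM hρ (by rw [norm_zero]; linarith [norm_nonneg y]) hn)]
  refine ErrBd_int (by positivity) (fun x hx => ?_) fun x hx => ?_
  · have h1 : ‖x‖ ≤ ‖x - y‖ + ‖y‖ := by simpa using norm_add_le (x - y) y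
    have h2 : ‖x - 0‖ = ‖x‖ := by rw [sub_zero]
    have e1 : wt (‖x - y‖ ^ 2 / ρ ^ 2) = 0 := ErrBd_wt_zero' hρ (by linarith)
    have e2 : wt (‖x - 0‖ ^ 2 / ρ ^ 2) = 0 := ErrBd_wt_zero' hρ (by rw [h2]; linarith)
    rw [e1, e2]
    ring
  · have e : chi δ x * wt (‖x - y‖ ^ 2 / ρ ^ 2) ^ n * g x -
        chi δ x * wt (‖x - 0‖ ^ 2 / ρ ^ 2) ^ n * g x =
        chi δ x * ((wt (‖x - y‖ ^ 2 / ρ ^ 2) ^ n - wt (‖x - 0‖ ^ 2 / ρ ^ 2) ^ n) * g x) := by ring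
    have hK : 0 ≤ n * (3 * ‖y‖ / ρ) * M' := by positivity
    rw [e]
    by_cases h3 : 3 * δ ≤ ‖x‖
    · by_cases h4 : ‖x‖ ≤ 1 / 2
      · rw [abs_mul, abs_mul]
        have h1 : |chi δ x| ≤ 1 := by
          rw [abs_of_nonneg (chi_nonneg δ x).1]
          exact (chi_nonneg δ x).2
        calc |chi δ x| * (|wt (‖x - y‖ ^ 2 / ρ ^ 2) ^ n - wt (‖x - 0‖ ^ 2 / ρ ^ 2) ^ n| * |g x|)
            ≤ 1 * (n * (3 * ‖y‖ / ρ) * M') :=
              mul_le_mul h1 (mul_le_mul (ErrBd_wt_pow_diff hρ hyρ n) (hM2 x h3 h4 hx)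
                (abs_nonneg _) (by positivity)) (by positivity) zero_le_one
          _ = _ := one_mul _
      · push Not at h4
        have h1 : ‖x‖ ≤ ‖x - y‖ + ‖y‖ := by simpa using norm_add_le (x - y) y
        have h2 : ‖x - 0‖ = ‖x‖ := by rw [sub_zero]
        have e1 : wt (‖x - y‖ ^ 2 / ρ ^ 2) = 0 := ErrBd_wt_zero' hρ (by linarith)
        have e2 : wt (‖x - 0‖ ^ 2 / ρ ^ 2) = 0 :=
          ErrBd_wt_zero' hρ (by rw [h2]; linarith [norm_nonneg y])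
        rw [e1, e2, sub_self, zero_mul, mul_zero, abs_zero]
        exact hK
    · push Not at h3
      rw [chi_zero hδ h3.le, zero_mul, abs_zero]
      exact hK

theorem basept : ∃ C : ℝ, 1 ≤ C ∧ ∀ (L δ : ℝ) (u : E3 → ℝ), 1 ≤ L → 0 < δ → δ ≤ 1 / 8 →
    OnePhase {x | δ < ‖x‖ ∧ ‖x‖ < 1} u → LipOn L δ u → ∀ (y : E3) (ρ : ℝ), 0 < ρ → ‖y‖ ≤ ρ →
    ‖y‖ + ρ ≤ 1 / 2 → |WW (chi δ) u y ρ - WW (chi δ) u 0 ρ| ≤ C * L ^ 2 * ‖y‖ / ρ := by
  set v : ℝ := volume.real (ball (0 : E3) 1) with hv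
  have hv0 : 0 ≤ v := measureReal_nonneg
  refine ⟨2496 * (v + 1), by linarith, ?_⟩
  intro L δ u hL hδ hδ8 h hLip y ρ hρ hyρ hy
  have hpt := fun (x : E3) h3 hx => ErrBd_pt (x := x) hL hδ h hLip h3 hx
  have hE : ∀ x : E3, 3 * δ ≤ ‖x‖ → ‖x‖ ≤ 1 / 2 → |‖Du u x‖ ^ 2 + ind u x| ≤ 2 * L ^ 2 := by
    intro x h3 hx
    rw [abs_of_nonneg (add_nonneg (sq_nonneg _) (DuMeas_ind_nonneg x))]
    have g1 : ‖Du u x‖ ^ 2 ≤ L ^ 2 := pow_le_pow_left₀ (norm_nonneg _) (hpt x h3 hx).1 2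
    have g2 := DuMeas_ind_le_one (u := u) x
    nlinarith
  have hgE : AEStronglyMeasurable (fun x => ‖Du u x‖ ^ 2 + ind u x)
      (volume.restrict {x : E3 | δ < ‖x‖ ∧ ‖x‖ < 1}) :=
    ((DuMeas_Du h).norm.pow 2).add (DuMeas_ind h)
  have hgu : AEStronglyMeasurable (fun x => u x ^ 2)
      (volume.restrict {x : E3 | δ < ‖x‖ ∧ ‖x‖ < 1}) := (DuMeas_u h).pow 2
  have hU : ∀ x : E3, 3 * δ ≤ ‖x‖ → ‖x‖ ≤ 1 / 2 → |u x ^ 2| ≤ L ^ 2 := by
    intro x h3 hx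
    obtain ⟨-, k2, k3⟩ := hpt x h3 hx
    rw [abs_of_nonneg (sq_nonneg _)]
    refine pow_le_pow_left₀ k2 (k3.trans ?_) 2
    nlinarith
  have hU2 : ∀ x : E3, 3 * δ ≤ ‖x‖ → ‖x‖ ≤ 1 / 2 → ‖x‖ ≤ 2 * ρ → |u x ^ 2| ≤ 4 * L ^ 2 * ρ ^ 2 := by
    intro x h3 hx hx2
    obtain ⟨-, k2, k3⟩ := hpt x h3 hx
    rw [abs_of_nonneg (sq_nonneg _)]
    calc u x ^ 2 ≤ (L * (2 * ρ)) ^ 2 := by
          refine pow_le_pow_left₀ k2 (k3.trans ?_) 2
          gcongr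
      _ = 4 * L ^ 2 * ρ ^ 2 := by ring
  have d1 := ErrBd_diff hδ hgE hE hρ hyρ hy (n := 4) (by norm_num) (M' := 2 * L ^ 2) (by positivity)
    (fun x h3 hx _ => hE x h3 hx)
  have d2 := ErrBd_diff hδ hgu hU hρ hyρ hy (n := 3) (by norm_num) (M' := 4 * L ^ 2 * ρ ^ 2)
    (by positivity) hU2
  rw [← hv] at d1 d2
  unfold WW
  set A1 : ℝ := ∫ x, chi δ x * wt (‖x - y‖ ^ 2 / ρ ^ 2) ^ 4 * (‖Du u x‖ ^ 2 + ind u x)
  set A0 : ℝ := ∫ x, chi δ x * wt (‖x - 0‖ ^ 2 / ρ ^ 2) ^ 4 * (‖Du u x‖ ^ 2 + ind u x)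
  set B1 : ℝ := ∫ x, chi δ x * wt (‖x - y‖ ^ 2 / ρ ^ 2) ^ 3 * u x ^ 2
  set B0 : ℝ := ∫ x, chi δ x * wt (‖x - 0‖ ^ 2 / ρ ^ 2) ^ 3 * u x ^ 2
  have e : 1 / ρ ^ 3 * A1 - 8 / ρ ^ 5 * B1 - (1 / ρ ^ 3 * A0 - 8 / ρ ^ 5 * B0) =
      1 / ρ ^ 3 * (A1 - A0) - 8 / ρ ^ 5 * (B1 - B0) := by ring
  rw [e]
  have f1 : |1 / ρ ^ 3 * (A1 - A0)| ≤ 192 * v * L ^ 2 * ‖y‖ / ρ := by
    rw [abs_mul, abs_of_pos (show (0 : ℝ) < 1 / ρ ^ 3 by positivity)]
    refine (mul_le_mul_of_nonneg_left d1 (by positivity)).trans (le_of_eq ?_)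
    push_cast
    field_simp
    ring
  have f2 : |8 / ρ ^ 5 * (B1 - B0)| ≤ 2304 * v * L ^ 2 * ‖y‖ / ρ := by
    rw [abs_mul, abs_of_pos (show (0 : ℝ) < 8 / ρ ^ 5 by positivity)]
    refine (mul_le_mul_of_nonneg_left d2 (by positivity)).trans (le_of_eq ?_)
    push_cast
    field_simp
    ring
  refine (abs_sub _ _).trans ((add_le_add f1 f2).trans ?_)
  rw [← add_div]
  refine div_le_div_of_nonneg_right ?_ hρ.le
  have h3 : 0 ≤ L ^ 2 * ‖y‖ := by positivity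
  nlinarith [mul_nonneg h3 hv0]

end Pool.Agent.H32.Flat
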