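import Pool.Agent.H32.Flat.Nu2

/-!
# Module S1: rescaling

`sc u z s x = u (z + s x) / s`, `s > 0`.  The map `x ↦ z + s x` is a homothety; `gradient (sc u z s) x =
gradient u (z + s x)`, `{0 < sc u z s}` is the preimage of `{0 < u}`, Laplacians scale by `s`.
-/

open Set Metric MeasureTheory Filter Topology InnerProductSpace
open scoped Laplacian Gradient RealInnerProductSpace

namespace Pool.Agent.H32.Flat

variable {O : Set E3} {u : E3 → ℝ} {z : E3} {s : ℝ}

/-- The homothety. -/
noncomputable def Scale_hom (z : E3) (hs : s ≠ 0) : E3 ≃ₜ E3 :=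
  (Homeomorph.smulOfNeZero s hs).trans (Homeomorph.addLeft z)

theorem Scale_hom_apply (z : E3) (hs : s ≠ 0) (x : E3) : Scale_hom z hs x = z + s • x := rfl

theorem Scale_continuous (z : E3) (s : ℝ) : Continuous fun x : E3 => z + s • x := by fun_prop

theorem Scale_fderiv (f : E3 → ℝ) (z : E3) (s : ℝ) (x : E3) :
    fderiv ℝ (fun x => f (z + s • x)) x = s • fderiv ℝ f (z + s • x) := by
  have h1 := fderiv_comp_smul (𝕜 := ℝ) (f := fun y => f (z + y)) (x := x) s
  rw [fderiv_comp_add_left] at h1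
  exact h1

theorem Scale_gradient (f : E3 → ℝ) (z : E3) (hs : s ≠ 0) (x : E3) :
    gradient (fun x => f (z + s • x) / s) x = gradient f (z + s • x) := by
  have h1 : fderiv ℝ (fun x => f (z + s • x) / s) x = fderiv ℝ f (z + s • x) := by
    have h2 : (fun x => f (z + s • x) / s) = s⁻¹ • fun x => f (z + s • x) := by
      funext y
      rw [Pi.smul_apply, smul_eq_mul, div_eq_inv_mul]
    rw [h2, fderiv_const_smul_field, Pi.smul_apply, Scale_fderiv, smul_smul, inv_mul_cancel₀ hs,
      one_smul]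
  unfold gradient
  rw [h1]

theorem Scale_laplacian (f : E3 → ℝ) (z : E3) (hs : s ≠ 0) (x : E3) :
    Δ (fun x => f (z + s • x)) x = s ^ 2 * Δ f (z + s • x) := by
  have hit : ∀ e : E3, iteratedFDeriv ℝ 2 (fun x => f (z + s • x)) x ![e, e] =
      s ^ 2 * iteratedFDeriv ℝ 2 f (z + s • x) ![e, e] := by
    intro e
    set g : E3 ≃L[ℝ] E3 := ContinuousLinearEquiv.smulLeft (Units.mk0 s hs) with hg
    have hgx : ∀ y, g y = s • y := fun y => rfl
    have h1 : (fun x => f (z + s • x)) = (fun y => f (z + y)) ∘ g := by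
      funext y
      rw [Function.comp_apply, hgx]
    have h2 := ContinuousLinearEquiv.iteratedFDerivWithin_comp_right g (fun y => f (z + y))
      (uniqueDiffOn_univ (𝕜 := ℝ)) (x := x) (Set.mem_univ _) 2
    rw [Set.preimage_univ, iteratedFDerivWithin_univ, iteratedFDerivWithin_univ] at h2
    rw [h1, h2, ContinuousMultilinearMap.compContinuousLinearMap_apply,
      iteratedFDeriv_comp_add_left]
    have h3 : (fun i => (g : E3 →L[ℝ] E3) ((![e, e] : Fin 2 → E3) i)) =
        fun i => s • (![e, e] : Fin 2 → E3) i := by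
      funext i
      exact hgx _
    rw [h3, ContinuousMultilinearMap.map_smul_univ (c := fun _ => s)]
    simp [hgx]
  have h4 := laplacian_eq_iteratedFDeriv_stdOrthonormalBasis (fun x => f (z + s • x))
  have h5 := laplacian_eq_iteratedFDeriv_stdOrthonormalBasis f
  rw [h4, h5]
  simp only [hit]
  rw [Finset.mul_sum]

theorem sc_pos (hs : 0 < s) (x : E3) : 0 < sc u z s x ↔ 0 < u (z + s • x) := by
  unfold sc
  exact div_pos_iff_of_pos_right hs

theorem Scale_set (hs : 0 < s) : {y | 0 < sc u z s y} = Scale_hom z hs.ne' ⁻¹' {y | 0 < u y} := by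
  ext y
  exact sc_pos hs y

theorem sc_closure (hs : 0 < s) (x : E3) :
    x ∈ closure {y | 0 < sc u z s y} ↔ z + s • x ∈ closure {y | 0 < u y} := by
  rw [Scale_set hs, ← Homeomorph.preimage_closure]
  rfl

theorem sc_FB (hs : 0 < s) (x : E3) : FB (sc u z s) x ↔ FB u (z + s • x) := by
  unfold FB
  rw [sc_closure hs]
  have h1 : sc u z s x = 0 ↔ u (z + s • x) = 0 := by
    unfold sc
    rw [div_eq_zero_iff]
    exact ⟨fun h => h.resolve_right hs.ne', Or.inl⟩
  rw [h1]

theorem sc_gradient (hs : 0 < s) (x : E3) : gradient (sc u z s) x = gradient u (z + s • x) :=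
  Scale_gradient u z hs.ne' x

theorem Scale_contDiffAt {f : E3 → ℝ} {x : E3} (h : ContDiffAt ℝ 2 f (z + s • x)) :
    ContDiffAt ℝ 2 (fun x => f (z + s • x) / s) x := by
  have h1 : ContDiffAt ℝ 2 (fun x : E3 => z + s • x) x := by fun_prop
  exact (ContDiffAt.comp x h h1).div_const s

theorem Scale_harmonicAt {f : E3 → ℝ} (hs : s ≠ 0) {x : E3} (h : HarmonicAt f (z + s • x)) :
    HarmonicAt (fun x => f (z + s • x) / s) x := by
  refine ⟨Scale_contDiffAt h.1, ?_⟩
  have h1 : ContDiffAt ℝ 2 (fun x => f (z + s • x)) x := by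
    have h2 : ContDiffAt ℝ 2 (fun x : E3 => z + s • x) x := by fun_prop
    exact ContDiffAt.comp x h.1 h2
  have h2 : (fun x => f (z + s • x) / s) = s⁻¹ • fun x => f (z + s • x) := by
    funext y
    rw [Pi.smul_apply, smul_eq_mul, div_eq_inv_mul]
  rw [h2]
  have h3 := laplacian_smul_nhds s⁻¹ h1
  refine h3.trans ?_
  have h4 : ∀ᶠ y in 𝓝 x, Δ f (z + s • y) = 0 :=
    ((Scale_continuous z s).tendsto x).eventually h.2
  filter_upwards [h4] with y hy
  rw [Pi.smul_apply, Scale_laplacian f z hs, hy, mul_zero, smul_zero]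
  rfl

theorem sc_onePhase (h : OnePhase O u) (z : E3) (hs : 0 < s) :
    OnePhase {x | z + s • x ∈ O} (sc u z s) := by
  refine ⟨h.isOpen.preimage (Scale_continuous z s), ?_, ?_, ?_, ?_⟩
  · refine ContinuousOn.div_const ?_ s
    exact h.cont.comp (Scale_continuous z s).continuousOn fun x hx => hx
  · intro x hx
    exact div_nonneg (h.nonneg _ hx) hs.le
  · intro x hx hx0
    exact Scale_harmonicAt hs.ne' (h.harm _ hx ((sc_pos hs x).1 hx0))
  · intro p hp hF
    obtain ⟨V, U, hV, hpV, hVO, hU, h1, h2⟩ := h.bdry _ hp ((sc_FB hs p).1 hF)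
    refine ⟨{x | z + s • x ∈ V}, fun x => U (z + s • x) / s, hV.preimage (Scale_continuous z s),
      hpV, fun x hx => hVO hx, ?_, ?_, ?_⟩
    · intro x hx
      exact (Scale_contDiffAt (hU.contDiffAt (hV.mem_nhds hx))).contDiffWithinAt
    · intro x hx hx0
      change U (z + s • x) / s = u (z + s • x) / s
      rw [h1 _ hx ((sc_pos hs x).1 hx0)]
    · intro x hx hx0
      rw [Scale_gradient U z hs.ne']
      exact h2 _ hx ((sc_FB hs x).1 hx0)

theorem sc_Du (hs : 0 < s) (x : E3) : Du (sc u z s) x = Du u (z + s • x) := by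
  unfold Du
  by_cases h : 0 < u (z + s • x)
  · rw [if_pos h, if_pos ((sc_pos hs x).2 h), sc_gradient hs]
  · rw [if_neg h, if_neg fun h' => h ((sc_pos hs x).1 h')]

theorem sc_ind (hs : 0 < s) (x : E3) : ind (sc u z s) x = ind u (z + s • x) := by
  unfold ind
  by_cases h : 0 < u (z + s • x)
  · rw [if_pos h, if_pos ((sc_pos hs x).2 h)]
  · rw [if_neg h, if_neg fun h' => h ((sc_pos hs x).1 h')]

theorem sc_nu (hs : 0 < s) (x : E3) : nu (sc u z s) x = nu u (z + s • x) := by
  unfold nu
  have h1 : gradient (sc u z s) = gradient u ∘ Scale_hom z hs.ne' := by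
    funext y
    exact sc_gradient hs y
  unfold limUnder
  rw [h1, ← Filter.map_map, Scale_set hs,
    (Scale_hom z hs.ne').isOpenEmbedding.map_nhdsWithin_preimage_eq]
  rfl

theorem sc_TT (hs : 0 < s) (y x : E3) : TT (sc u z s) y x = TT u (z + s • y) (z + s • x) / s := by
  unfold TT
  rw [sc_Du hs]
  have h1 : z + s • x - (z + s • y) = s • (x - y) := by
    rw [smul_sub]
    abel
  rw [h1, real_inner_smul_left]
  unfold sc
  have := hs.ne'
  field_simp

theorem sc_closeAt (hs : 0 < s) (y : E3) (ρ : ℝ) (e : E3) (σ : ℝ) :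
    CloseAt (sc u z s) y ρ e σ ↔ CloseAt u (z + s • y) (s * ρ) e σ := by
  have hsub : ∀ x : E3, z + s • x - (z + s • y) = s • (x - y) := fun x => by
    rw [smul_sub]
    abel
  have hkey : ∀ x : E3, (|sc u z s x - max ⟪x - y, e⟫ 0| ≤ σ * ρ ∧
      (σ * ρ < ⟪x - y, e⟫ → 0 < sc u z s x) ∧ (⟪x - y, e⟫ < -(σ * ρ) → sc u z s x = 0)) ↔
      (|u (z + s • x) - max ⟪z + s • x - (z + s • y), e⟫ 0| ≤ σ * (s * ρ) ∧
      (σ * (s * ρ) < ⟪z + s • x - (z + s • y), e⟫ → 0 < u (z + s • x)) ∧
      (⟪z + s • x - (z + s • y), e⟫ < -(σ * (s * ρ)) → u (z + s • x) = 0)) := by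
    intro x
    rw [hsub, real_inner_smul_left, sc_pos hs]
    set a := ⟪x - y, e⟫
    have h1 : max (s * a) 0 = s * max a 0 := by
      rw [mul_max_of_nonneg _ _ hs.le, mul_zero]
    have h2 : sc u z s x = 0 ↔ u (z + s • x) = 0 := by
      unfold sc
      rw [div_eq_zero_iff]
      exact ⟨fun h => h.resolve_right hs.ne', Or.inl⟩
    have h3 : |u (z + s • x) - s * max a 0| = s * |sc u z s x - max a 0| := by
      have h4 : u (z + s • x) - s * max a 0 = s * (sc u z s x - max a 0) := by
        unfold sc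
        rw [mul_sub, mul_div_cancel₀ _ hs.ne']
      rw [h4, abs_mul, abs_of_pos hs]
    rw [h1, h2, h3]
    have h5 : σ * (s * ρ) = s * (σ * ρ) := by ring
    have h6 : -(s * (σ * ρ)) = s * (-(σ * ρ)) := by ring
    rw [h5, h6, mul_le_mul_iff_right₀ hs, mul_lt_mul_iff_right₀ hs, mul_lt_mul_iff_right₀ hs]
  have hball : ∀ x : E3, x ∈ ball y ρ ↔ z + s • x ∈ ball (z + s • y) (s * ρ) := by
    intro x
    rw [mem_ball, mem_ball, dist_eq_norm, dist_eq_norm, hsub, norm_smul, Real.norm_eq_abs,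
      abs_of_pos hs, mul_lt_mul_iff_right₀ hs]
  constructor
  · intro h x' hx'
    have h1 : z + s • (s⁻¹ • (x' - z)) = x' := by
      rw [smul_smul, mul_inv_cancel₀ hs.ne', one_smul]
      abel
    rw [← h1] at hx' ⊢
    exact (hkey _).1 (h _ ((hball _).2 hx'))
  · intro h x hx
    exact (hkey x).2 (h _ ((hball x).1 hx))

/-- change of variables -/
theorem integral_sc (hs : 0 < s) (A : Set E3) (f : E3 → ℝ) :
    ∫ x in {x | z + s • x ∈ A}, f (z + s • x) = 1 / s ^ 3 * ∫ x in A, f x := by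
  set φ := Scale_hom z hs.ne' with hφ
  have hemb : MeasurableEmbedding φ := φ.measurableEmbedding
  have h1 : Measure.map φ (volume : Measure E3) = ENNReal.ofReal (1 / s ^ 3) • volume := by
    have h2 : (φ : E3 → E3) = (fun x => z + x) ∘ (fun x => s • x) := rfl
    rw [h2, ← Measure.map_map (measurable_const_add z) (measurable_const_smul s),
      Measure.map_addHaar_smul _ hs.ne', Measure.map_smul, map_add_left_eq_self]
    congr 1
    rw [finrank_euclideanSpace_fin, abs_of_pos (by positivity), one_div]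
  have h3 := hemb.setIntegral_map (μ := volume) (g := f) (s := A)
  rw [h1, Measure.restrict_smul, integral_smul_measure, ENNReal.toReal_ofReal (by positivity)] at h3
  rw [smul_eq_mul] at h3
  exact h3.symm

end Pool.Agent.H32.Flat
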