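import Pool.Agent.H32.Flat.Close
import Pool.Agent.H32.Flat.Scale
import Pool.Agent.H32.Flat.ErrBd
import Pool.Agent.H32.Flat.DuMeas

/-!
# Module R1: closeness at free boundary points, all scales below the distance to the hole

Let `σ' = σ/(8(L+2))`, `κ_c, τ_c` from `almostCone_close L σ'`, `τ = min(τ_c, 1/8)`, `κ ≪ κ_c`.
For `FB u y`, `2Kδ ≤ |y| ≤ r₁/2` and `0 < ρ ≤ |y|/32` let `v = sc u y (ρ)`.  Then `AlmostCone L κ_c τ v`
*except* `nondeg`: `ball y (8ρ)` lies in `{3|y|/4 ≤ |x| ≤ 5|y|/4}`, where `chi δ = 1`, all `FB` points satisfy the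
hypotheses of `Dens`, and `LipOn` applies; `bound`: `u ≤ 8Lρ` on `ball y (8ρ)` by `lip_seg` from `y`;
`hom0`, `homF`: `Dens.hom` at scales `4ρ`, `6ρ` (change of variables `integral_sc`, `sc_TT`);
`vol0`: `Dens.vol` at `y, ρ` up to the volume of `closedBall 0 τ`, so `τ` has to be small compared with `κ_c`
(choose `τ` with `8 τ³ ≤ κ_c/2`); `volF`: `Dens.vol` at `y + ρ y'`, scale `ρρ'`.
`nondeg` for all `ρ ≤ |y|/32` by induction over `ρ → 2ρ`: for small `ρ` it holds by `hasDeriv_u`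
(`u (y + tν) ≥ t/2`); `nondeg` at `ρ` ⇒ `AlmostCone` ⇒ `almostCone_close` ⇒ `u (y + (ρ/4) e) ≥ ρ/8`
⇒ `nondeg` at `2ρ`.
`CloseAt u y (ρ/2) e σ` from `almostCone_close`: for `|x - y| ≥ σ'ρ` directly, for `|x - y| < σ'ρ` by
`|u x| ≤ L|x-y|` (`lip_seg`).
-/

open Set Metric MeasureTheory Filter Topology InnerProductSpace
open scoped Laplacian Gradient RealInnerProductSpace

namespace Pool.Agent.H32.Flat

/-- The common hypotheses of the module. -/
structure BallCloseH (L κ K r₁ r₀ δ : ℝ) (u : E3 → ℝ) (y : E3) : Prop where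
  hL : 1 ≤ L
  hK : 8 ≤ K
  hδ : 0 < δ
  hr : r₁ ≤ r₀
  hr₀ : r₀ ≤ 1 / 16
  op : OnePhase {x | δ < ‖x‖ ∧ ‖x‖ < 1} u
  lip : LipOn L δ u
  dens : Dens κ K r₁ r₀ δ u
  fb : FB u y
  y1 : 2 * K * δ ≤ ‖y‖
  y2 : ‖y‖ ≤ r₁ / 2

variable {L κ K r₁ r₀ δ : ℝ} {u : E3 → ℝ} {y : E3}

theorem BallCloseH.y16 (H : BallCloseH L κ K r₁ r₀ δ u y) : 16 * δ ≤ ‖y‖ := by
  have h1 := H.y1
  have h2 := H.hK
  have h3 := H.hδ
  nlinarith

theorem BallCloseH.ypos (H : BallCloseH L κ K r₁ r₀ δ u y) : 0 < ‖y‖ := by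
  have h1 := H.y16
  have h3 := H.hδ
  linarith

theorem BallCloseH.y32 (H : BallCloseH L κ K r₁ r₀ δ u y) : ‖y‖ ≤ 1 / 32 := by
  have h1 := H.y2
  have h2 := H.hr
  have h3 := H.hr₀
  linarith

theorem BallCloseH.uy (H : BallCloseH L κ K r₁ r₀ δ u y) : u y = 0 := H.fb.1

theorem BallClose_norm {ρ : ℝ} (hρ : 0 < ρ) (hρ' : ρ ≤ ‖y‖ / 32) {x : E3} {c : ℝ}
    (hx : ‖x‖ ≤ c) :
    ‖y‖ - c * (‖y‖ / 32) ≤ ‖y + ρ • x‖ ∧ ‖y + ρ • x‖ ≤ ‖y‖ + c * (‖y‖ / 32) := by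
  have hc : 0 ≤ c := le_trans (norm_nonneg _) hx
  have h1 : ‖ρ • x‖ ≤ c * (‖y‖ / 32) := by
    rw [norm_smul, Real.norm_eq_abs, abs_of_pos hρ, mul_comm]
    exact mul_le_mul hx hρ' hρ.le hc
  constructor
  · have h2 : ‖y‖ ≤ ‖y + ρ • x‖ + ‖ρ • x‖ := by
      calc ‖y‖ = ‖(y + ρ • x) - ρ • x‖ := by rw [add_sub_cancel_right]
        _ ≤ _ := norm_sub_le _ _
    linarith
  · have h2 := norm_add_le y (ρ • x)
    linarith

theorem BallCloseH.mem (H : BallCloseH L κ K r₁ r₀ δ u y) {z : E3}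
    (h1 : ‖y‖ / 2 ≤ ‖z‖) (h2 : ‖z‖ ≤ 2 * ‖y‖) : z ∈ {x : E3 | δ < ‖x‖ ∧ ‖x‖ < 1} := by
  have h3 := H.y16
  have h4 := H.y32
  have h5 := H.hδ
  constructor
  · show δ < ‖z‖
    linarith
  · show ‖z‖ < 1
    linarith

theorem BallCloseH.grad (H : BallCloseH L κ K r₁ r₀ δ u y) {z : E3}
    (h1 : ‖y‖ / 2 ≤ ‖z‖) (h2 : ‖z‖ ≤ 2 * ‖y‖) (hz : 0 < u z) :
    ‖gradient u z‖ ≤ L ∧ u z ≤ L * ‖z‖ := by
  have h3 := H.y16
  have h4 := H.y32
  have h5 := H.hδ
  exact H.lip z (by linarith) (by linarith) hz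

/-- Lipschitz bound from the free boundary point -/
theorem BallCloseH.bd (H : BallCloseH L κ K r₁ r₀ δ u y) {ρ : ℝ} (hρ : 0 < ρ)
    (hρ' : ρ ≤ ‖y‖ / 32) {x : E3} (hx : ‖x‖ ≤ 8) : u (y + ρ • x) ≤ L * (ρ * ‖x‖) := by
  have key : ∀ z ∈ segment ℝ (y + ρ • x) y, ‖y‖ / 2 ≤ ‖z‖ ∧ ‖z‖ ≤ 2 * ‖y‖ := by
    intro z hz
    obtain ⟨a, b, ha, hb, hab, rfl⟩ := hz
    have e1 : a • (y + ρ • x) + b • y = y + ρ • (a • x) := by
      have : b = 1 - a := by linarith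
      subst this
      rw [smul_add, sub_smul, one_smul, smul_smul, smul_smul, mul_comm a ρ]
      abel
    have e2 : ‖a • x‖ ≤ 8 := by
      rw [norm_smul, Real.norm_eq_abs, abs_of_nonneg ha]
      have : a ≤ 1 := by linarith
      nlinarith [norm_nonneg x]
    have e3 := BallClose_norm (y := y) hρ hρ' e2
    rw [e1]
    have e4 := norm_nonneg y
    constructor <;> linarith [e3.1, e3.2]
  have h1 := lip_seg H.op (L := L) (x := y + ρ • x) (y := y)
    (fun z hz => H.mem (key z hz).1 (key z hz).2)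
    (fun z hz hu => (H.grad (key z hz).1 (key z hz).2 hu).1) (by linarith [H.hL])
  rw [H.uy, sub_zero, add_sub_cancel_left, norm_smul, Real.norm_eq_abs, abs_of_pos hρ] at h1
  exact le_trans (le_abs_self _) h1

theorem BallClose_TT_int (H : BallCloseH L κ K r₁ r₀ δ u y) {ρ : ℝ} (hρ : 0 < ρ)
    (hρ' : ρ ≤ ‖y‖ / 32) {p : E3} (hp : ‖p - y‖ ≤ ρ) :
    IntegrableOn (fun x => TT u p x ^ 2) (ball p (5 * ρ) \ closedBall 0 (4 * δ)) := by
  have hy0 := H.ypos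
  have hL := H.hL
  have hB : MeasurableSet (ball p (5 * ρ) \ closedBall (0 : E3) (4 * δ)) :=
    measurableSet_ball.diff measurableSet_closedBall
  have geo : ∀ x ∈ ball p (5 * ρ) \ closedBall (0 : E3) (4 * δ),
      ‖y‖ / 2 ≤ ‖x‖ ∧ ‖x‖ ≤ 2 * ‖y‖ ∧ ‖x - p‖ ≤ 5 * ρ := by
    intro x hx
    have h1 : ‖x - p‖ < 5 * ρ := by
      have := hx.1
      rwa [mem_ball, dist_eq_norm] at this
    have h2 : ‖x - y‖ ≤ 6 * ρ := by
      have : x - y = (x - p) + (p - y) := by abel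
      rw [this]
      exact (norm_add_le _ _).trans (by linarith)
    have h3 : ‖y‖ ≤ ‖x‖ + ‖x - y‖ := by
      have : y = x - (x - y) := by abel
      calc ‖y‖ = ‖x - (x - y)‖ := by rw [← this]
        _ ≤ _ := norm_sub_le _ _
    have h4 : ‖x‖ ≤ ‖y‖ + ‖x - y‖ := by
      have : x = y + (x - y) := by abel
      calc ‖x‖ = ‖y + (x - y)‖ := by rw [← this]
        _ ≤ _ := norm_add_le _ _
    refine ⟨by linarith, by linarith, h1.le⟩
  have hsub : ball p (5 * ρ) \ closedBall (0 : E3) (4 * δ) ⊆ {x : E3 | δ < ‖x‖ ∧ ‖x‖ < 1} :=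
    fun x hx => H.mem (geo x hx).1 (geo x hx).2.1
  have hm : AEStronglyMeasurable (fun x => TT u p x ^ 2)
      (volume.restrict (ball p (5 * ρ) \ closedBall (0 : E3) (4 * δ))) := by
    have m1 := (DuMeas_Du H.op).mono_measure (Measure.restrict_mono hsub le_rfl)
    have m2 := (DuMeas_u H.op).mono_measure (Measure.restrict_mono hsub le_rfl)
    have m3 : AEStronglyMeasurable (fun x : E3 => x - p)
      (volume.restrict (ball p (5 * ρ) \ closedBall (0 : E3) (4 * δ))) :=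
      (continuous_id.sub continuous_const).aestronglyMeasurable
    exact ((m3.inner m1).sub m2).pow 2
  refine DuMeas_integrableOn (R := 1) (M := (6 * L) ^ 2) hB ?_ hm ?_
  · intro x hx
    rw [mem_closedBall, dist_zero_right]
    exact (hsub hx).2.le
  · intro x hx
    obtain ⟨g1, g2, g3⟩ := geo x hx
    have hu0 : 0 ≤ u x := H.op.nonneg x (hsub hx)
    have hy32 := H.y32
    have hb1 : ‖Du u x‖ ≤ L :=
      DuMeas_norm_Du_le (by linarith) (fun hu => (H.grad g1 g2 hu).1)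
    have hb2 : u x ≤ L := by
      rcases hu0.eq_or_lt with h0 | h0
      · rw [← h0]; linarith
      · have := (H.grad g1 g2 h0).2
        nlinarith only [hL, g2, hy32, this]
    have hb3 : |TT u p x| ≤ 6 * L := by
      unfold TT
      have i1 : |⟪x - p, Du u x⟫| ≤ ‖x - p‖ * ‖Du u x‖ := abs_real_inner_le_norm _ _
      have i2 : ‖x - p‖ * ‖Du u x‖ ≤ 5 * ρ * L :=
        mul_le_mul g3 hb1 (norm_nonneg _) (by positivity)
      have i3 : |⟪x - p, Du u x⟫ - u x| ≤ |⟪x - p, Du u x⟫| + |u x| := abs_sub _ _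
      have i4 : |u x| ≤ L := by rw [abs_of_nonneg hu0]; exact hb2
      have i5 : 5 * ρ * L ≤ 5 * L := by
        have : ρ ≤ 1 := by linarith
        nlinarith only [hρ', hL, hy32]
      linarith
    rw [Real.norm_eq_abs, abs_pow]
    exact pow_le_pow_left₀ (abs_nonneg _) hb3 2

theorem BallClose_hom (H : BallCloseH L κ K r₁ r₀ δ u y) {ρ τ : ℝ} (hρ : 0 < ρ)
    (hρ' : ρ ≤ ‖y‖ / 32) {y' : E3} (hy' : ‖y'‖ ≤ 1) (hF : FB u (y + ρ • y')) :
    ∫ x in ball 0 4 \ closedBall 0 τ, TT (sc u y ρ) y' x ^ 2 ≤ 3125 * κ := by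
  have hy0 := H.ypos
  set p : E3 := y + ρ • y' with hp
  have hpy : ‖p - y‖ ≤ ρ := by
    rw [hp, add_sub_cancel_left, norm_smul, Real.norm_eq_abs, abs_of_pos hρ]
    nlinarith
  have e0 : (ball (0 : E3) 4 \ closedBall 0 τ) =
      {x : E3 | y + ρ • x ∈ ball y (4 * ρ) \ closedBall y (τ * ρ)} := by
    ext x
    simp only [Set.mem_sdiff, mem_ball, mem_closedBall, mem_ofPred_eq, dist_eq_norm, sub_zero,
      add_sub_cancel_left, norm_smul, Real.norm_eq_abs, abs_of_pos hρ]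
    constructor
    · rintro ⟨h1, h2⟩
      exact ⟨by nlinarith, fun h3 => h2 (by nlinarith)⟩
    · rintro ⟨h1, h2⟩
      exact ⟨by nlinarith, fun h3 => h2 (by nlinarith)⟩
  have e1 : ∫ x in ball 0 4 \ closedBall 0 τ, TT (sc u y ρ) y' x ^ 2 =
      1 / ρ ^ 3 * ∫ x in ball y (4 * ρ) \ closedBall y (τ * ρ), (TT u p x / ρ) ^ 2 := by
    rw [← integral_sc hρ (ball y (4 * ρ) \ closedBall y (τ * ρ)) (fun x => (TT u p x / ρ) ^ 2),
      e0]
    congr 1
    ext x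
    rw [sc_TT hρ]
  have hsub : ball y (4 * ρ) \ closedBall y (τ * ρ) ⊆ ball p (5 * ρ) \ closedBall 0 (4 * δ) := by
    intro x hx
    have h1 : ‖x - y‖ < 4 * ρ := by
      have := hx.1
      rwa [mem_ball, dist_eq_norm] at this
    constructor
    · rw [mem_ball, dist_eq_norm]
      have : x - p = (x - y) - (p - y) := by abel
      rw [this]
      exact lt_of_le_of_lt (norm_sub_le _ _) (by linarith)
    · rw [mem_closedBall, dist_zero_right]
      have h3 : ‖y‖ ≤ ‖x‖ + ‖x - y‖ := by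
        have : y = x - (x - y) := by abel
        calc ‖y‖ = ‖x - (x - y)‖ := by rw [← this]
          _ ≤ _ := norm_sub_le _ _
      have h4 := H.y16
      have h5 := H.hδ
      intro h6
      linarith
  have hI := BallClose_TT_int H hρ hρ' hpy
  have e2 : ∫ x in ball y (4 * ρ) \ closedBall y (τ * ρ), (TT u p x / ρ) ^ 2 ≤
      1 / ρ ^ 2 * ∫ x in ball p (5 * ρ) \ closedBall 0 (4 * δ), TT u p x ^ 2 := by
    rw [← integral_const_mul]
    have e3 : (fun x => (TT u p x / ρ) ^ 2) = fun x => 1 / ρ ^ 2 * TT u p x ^ 2 := by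
      ext x; rw [div_pow]; ring
    rw [e3]
    refine setIntegral_mono_set (hI.const_mul _) ?_ hsub.eventuallyLE
    exact Eventually.of_forall (fun x => by positivity)
  have hnp := BallClose_norm (y := y) hρ hρ' hy'
  have hd := H.dens.hom p hF (by
      have h1 := H.y1
      have h2 := hnp.1
      rw [← hp] at h2
      have h3 : ‖y‖ / 2 ≤ ‖p‖ := by linarith
      linarith) (by
      have h2 := hnp.2
      rw [← hp] at h2
      have h3 := H.y2
      linarith) (5 * ρ) (by linarith) (by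
      have h3 := H.y2
      have h4 := H.hr
      linarith)
  rw [e1]
  have h3 : (0 : ℝ) ≤ 1 / ρ ^ 3 := by positivity
  have h2 : (0 : ℝ) ≤ 1 / ρ ^ 2 := by positivity
  calc 1 / ρ ^ 3 * ∫ x in ball y (4 * ρ) \ closedBall y (τ * ρ), (TT u p x / ρ) ^ 2
      ≤ 1 / ρ ^ 3 * (1 / ρ ^ 2 * (κ * (5 * ρ) ^ 5)) :=
        mul_le_mul_of_nonneg_left (e2.trans (mul_le_mul_of_nonneg_left hd h2)) h3
    _ = 3125 * κ := by field_simp; ring

theorem BallClose_wt_zero {t : ℝ} (ht : 1 ≤ t) : wt t = 0 := by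
  unfold wt
  exact max_eq_right (by linarith)

theorem BallClose_vol (H : BallCloseH L κ K r₁ r₀ δ u y) {ρ ρ' : ℝ} (hρ : 0 < ρ)
    (hρ' : ρ ≤ ‖y‖ / 32) (h0 : 0 < ρ') (h1 : ρ' ≤ 1) {y' : E3} (hy' : ‖y'‖ ≤ 1)
    (hF : FB u (y + ρ • y')) :
    |1 / ρ' ^ 3 * (∫ x in ball y' ρ', wt (‖x - y'‖ ^ 2 / ρ' ^ 2) ^ 4 * ind (sc u y ρ) x) - mm / 2|
      ≤ κ := by
  have hy0 := H.ypos
  set p : E3 := y + ρ • y' with hp
  have hnp := BallClose_norm (y := y) hρ hρ' hy'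
  rw [← hp] at hnp
  have hd := H.dens.vol p hF (by
      have h1 := H.y1
      have h3 : ‖y‖ / 2 ≤ ‖p‖ := by linarith [hnp.1]
      linarith) (by
      have h3 := H.y2
      linarith [hnp.2]) (ρ * ρ') (by positivity) (by
      have h3 := H.y2
      have h4 := H.hr
      have h5 : ρ * ρ' ≤ ρ := by nlinarith
      linarith)
  have e0 : ball y' ρ' = {x : E3 | y + ρ • x ∈ ball p (ρ * ρ')} := by
    ext x
    have e : y + ρ • x - p = ρ • (x - y') := by rw [hp, smul_sub]; abel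
    simp only [mem_ball, mem_ofPred_eq, dist_eq_norm, e, norm_smul, Real.norm_eq_abs, abs_of_pos hρ]
    constructor
    · intro h; nlinarith only [hρ, h]
    · intro h; nlinarith only [hρ, h]
  have e1 : ∫ x in ball y' ρ', wt (‖x - y'‖ ^ 2 / ρ' ^ 2) ^ 4 * ind (sc u y ρ) x =
      1 / ρ ^ 3 * ∫ x in ball p (ρ * ρ'), wt (‖x - p‖ ^ 2 / (ρ * ρ') ^ 2) ^ 4 * ind u x := by
    rw [← integral_sc hρ (ball p (ρ * ρ'))
      (fun x => wt (‖x - p‖ ^ 2 / (ρ * ρ') ^ 2) ^ 4 * ind u x), e0]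
    congr 1
    ext x
    have e : y + ρ • x - p = ρ • (x - y') := by rw [hp, smul_sub]; abel
    rw [sc_ind hρ, e, norm_smul, Real.norm_eq_abs, abs_of_pos hρ]
    congr 3
    field_simp
  have e2 : ∫ x, chi δ x * wt (‖x - p‖ ^ 2 / (ρ * ρ') ^ 2) ^ 4 * ind u x =
      ∫ x in ball p (ρ * ρ'), wt (‖x - p‖ ^ 2 / (ρ * ρ') ^ 2) ^ 4 * ind u x := by
    rw [← setIntegral_eq_integral_of_forall_compl_eq_zero (s := ball p (ρ * ρ'))]
    · refine setIntegral_congr_fun measurableSet_ball ?_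
      intro x hx
      have hx' : ‖x - p‖ < ρ * ρ' := by rwa [mem_ball, dist_eq_norm] at hx
      have h3 : ‖p‖ ≤ ‖x‖ + ‖x - p‖ := by
        have : p = x - (x - p) := by abel
        calc ‖p‖ = ‖x - (x - p)‖ := by rw [← this]
          _ ≤ _ := norm_sub_le _ _
      have h5 : ρ * ρ' ≤ ρ := by nlinarith only [hρ, h1]
      have h6 := H.y16
      have h7 := H.hδ
      have h8 : 4 * δ ≤ ‖x‖ := by linarith [hnp.1]
      simp only
      rw [chi_one H.hδ h8, one_mul]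
    · intro x hx
      have hx' : ρ * ρ' ≤ ‖x - p‖ := by
        rw [mem_ball, dist_eq_norm, not_lt] at hx
        exact hx
      have hpos : 0 < ρ * ρ' := by positivity
      have : 1 ≤ ‖x - p‖ ^ 2 / (ρ * ρ') ^ 2 := by
        rw [le_div_iff₀ (by positivity), one_mul]
        exact pow_le_pow_left₀ hpos.le hx' 2
      rw [BallClose_wt_zero this]
      simp
  unfold VV at hd
  rw [e2] at hd
  rw [e1]
  have e3 : 1 / ρ' ^ 3 * (1 / ρ ^ 3 *
      ∫ x in ball p (ρ * ρ'), wt (‖x - p‖ ^ 2 / (ρ * ρ') ^ 2) ^ 4 * ind u x) =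
      1 / (ρ * ρ') ^ 3 *
      ∫ x in ball p (ρ * ρ'), wt (‖x - p‖ ^ 2 / (ρ * ρ') ^ 2) ^ 4 * ind u x := by
    field_simp
  rw [e3]
  exact hd

theorem BallClose_wt_bd (t : ℝ) (ht : 0 ≤ t) : 0 ≤ wt t ∧ wt t ≤ 1 := by
  unfold wt
  exact ⟨le_max_right _ _, max_le (by linarith) zero_le_one⟩

theorem BallClose_wt_cont : Continuous wt := by
  unfold wt
  exact (continuous_const.sub continuous_id).max continuous_const

theorem BallClose_sc_onePhase (H : BallCloseH L κ K r₁ r₀ δ u y) {ρ : ℝ} (hρ : 0 < ρ)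
    (hρ' : ρ ≤ ‖y‖ / 32) : OnePhase (ball (0 : E3) 8) (sc u y ρ) := by
  refine (sc_onePhase H.op y hρ).mono isOpen_ball ?_
  intro x hx
  have hx' : ‖x‖ ≤ 8 := by
    rw [mem_ball, dist_zero_right] at hx
    exact hx.le
  have h1 := BallClose_norm (y := y) hρ hρ' hx'
  have hy0 := H.ypos
  exact H.mem (by linarith [h1.1]) (by linarith [h1.2])

theorem BallClose_vol0 (H : BallCloseH L κ K r₁ r₀ δ u y) {ρ τ : ℝ} (hρ : 0 < ρ)
    (hρ' : ρ ≤ ‖y‖ / 32) (hτ : 0 < τ) (hτ1 : τ < 1) :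
    |(∫ x in ball 0 4 \ closedBall 0 τ, wt (‖x‖ ^ 2) ^ 4 * ind (sc u y ρ) x) - mm / 2| ≤
      κ + τ * (volume (ball (0 : E3) 1)).toReal := by
  have h1 := BallClose_vol H hρ hρ' one_pos le_rfl (y' := 0) (by simp) (by simpa using H.fb)
  simp only [one_pow, div_one, sub_zero, one_mul] at h1
  set f : E3 → ℝ := fun x => wt (‖x‖ ^ 2) ^ 4 * ind (sc u y ρ) x with hf
  have hop := BallClose_sc_onePhase H hρ hρ'
  have hfb : ∀ x, ‖f x‖ ≤ 1 := by
    intro x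
    have a1 := BallClose_wt_bd (‖x‖ ^ 2) (by positivity)
    have a2 := DuMeas_ind_nonneg (u := sc u y ρ) x
    have a3 := DuMeas_ind_le_one (u := sc u y ρ) x
    have a4 : 0 ≤ wt (‖x‖ ^ 2) ^ 4 := pow_nonneg a1.1 4
    have a5 : wt (‖x‖ ^ 2) ^ 4 ≤ 1 := pow_le_one₀ a1.1 a1.2
    rw [Real.norm_eq_abs, hf, abs_of_nonneg (mul_nonneg a4 a2)]
    nlinarith only [a2, a3, a5]
  have hfi : IntegrableOn f (ball 0 1) := by
    refine DuMeas_integrableOn (R := 1) (M := 1) measurableSet_ball ball_subset_closedBall ?_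
      (fun x _ => hfb x)
    have m1 := (DuMeas_ind hop).mono_measure
      (Measure.restrict_mono (ball_subset_ball (show (1 : ℝ) ≤ 8 by norm_num)) le_rfl)
    have m2 : AEStronglyMeasurable (fun x : E3 => wt (‖x‖ ^ 2) ^ 4)
        (volume.restrict (ball (0 : E3) 1)) :=
      ((BallClose_wt_cont.comp (continuous_norm.pow 2)).pow 4).aestronglyMeasurable
    exact m2.mul m1
  have hsplit : ball (0 : E3) 1 = (ball 0 1 \ closedBall 0 τ) ∪ closedBall 0 τ := by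
    rw [sdiff_union_of_subset]
    exact closedBall_subset_ball hτ1
  have hdisj : Disjoint (ball (0 : E3) 1 \ closedBall 0 τ) (closedBall 0 τ) := disjoint_sdiff_left
  have e1 : ∫ x in ball 0 4 \ closedBall 0 τ, f x = ∫ x in ball 0 1 \ closedBall 0 τ, f x := by
    refine setIntegral_eq_of_subset_of_forall_sdiff_eq_zero
      (measurableSet_ball.diff measurableSet_closedBall)
      (sdiff_subset_sdiff_left (ball_subset_ball (by norm_num))) ?_
    intro x hx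
    have hx1 : 1 ≤ ‖x‖ := by
      by_contra hc
      rw [not_le] at hc
      exact hx.2 ⟨by rwa [mem_ball, dist_zero_right], hx.1.2⟩
    have : 1 ≤ ‖x‖ ^ 2 := one_le_pow₀ hx1
    rw [hf]
    simp only
    rw [BallClose_wt_zero this]
    simp
  have e2 : ∫ x in ball 0 1, f x = (∫ x in ball 0 1 \ closedBall 0 τ, f x) +
      ∫ x in closedBall 0 τ, f x := by
    conv_lhs => rw [hsplit]
    exact setIntegral_union hdisj measurableSet_closedBall (hfi.mono_set sdiff_subset)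
      (hfi.mono_set (closedBall_subset_ball hτ1))
  have e3 : ‖∫ x in closedBall 0 τ, f x‖ ≤ τ * (volume (ball (0 : E3) 1)).toReal := by
    have b1 := norm_setIntegral_le_of_norm_le_const (μ := volume) (s := closedBall (0 : E3) τ)
      (f := f) (C := 1) measure_closedBall_lt_top (fun x _ => hfb x)
    refine b1.trans ?_
    have b2 : volume.real (closedBall (0 : E3) τ) = τ ^ 3 * (volume (ball (0 : E3) 1)).toReal := by
      rw [Measure.real, Measure.addHaar_closedBall volume (0 : E3) hτ.le, ENNReal.toReal_mul,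
        ENNReal.toReal_ofReal (by positivity)]
      simp
    rw [b2, one_mul]
    refine mul_le_mul_of_nonneg_right ?_ ENNReal.toReal_nonneg
    nlinarith [sq_nonneg τ, mul_pos hτ hτ]
  have e4 : (∫ x in ball 0 4 \ closedBall 0 τ, f x) - mm / 2 =
      ((∫ x in ball 0 1, f x) - mm / 2) - ∫ x in closedBall 0 τ, f x := by
    rw [e1, e2]; ring
  rw [e4]
  have e5 := abs_sub ((∫ x in ball 0 1, f x) - mm / 2) (∫ x in closedBall 0 τ, f x)
  have e6 : |(∫ x in ball 0 1, f x) - mm / 2| ≤ κ := h1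
  rw [Real.norm_eq_abs] at e3
  linarith

/-- nondegeneracy at scale `ρ` -/
def BallCloseND (u : E3 → ℝ) (y : E3) (τ ρ : ℝ) : Prop :=
  ∃ x : E3, τ < ‖x‖ ∧ ‖x‖ ≤ 1 ∧ 1 / 1000 ≤ sc u y ρ x

theorem BallClose_cone (H : BallCloseH L κ K r₁ r₀ δ u y) {ρ τ κc : ℝ} (hρ : 0 < ρ)
    (hρ' : ρ ≤ ‖y‖ / 32) (hτ : 0 < τ) (hτ1 : τ < 1) (h1 : 3125 * κ ≤ κc)
    (h2 : κ + τ * (volume (ball (0 : E3) 1)).toReal ≤ κc) (h3 : κ ≤ κc)
    (hn : BallCloseND u y τ ρ) : AlmostCone L κc τ (sc u y ρ) where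
  onePhase := by
    refine (BallClose_sc_onePhase H hρ hρ').mono ?_ ?_
    · exact (isOpen_lt continuous_const continuous_norm).inter
        (isOpen_lt continuous_norm continuous_const)
    · intro x hx
      rw [mem_ball, dist_zero_right]
      exact hx.2
  lip := by
    intro x hx1 hx2 hx
    rw [sc_gradient hρ]
    have h4 := BallClose_norm (y := y) hρ hρ' hx2.le
    have hy0 := H.ypos
    exact (H.grad (by linarith [h4.1]) (by linarith [h4.2]) ((sc_pos hρ x).1 hx)).1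
  bound := by
    intro x hx1 hx2
    unfold sc
    rw [div_le_iff₀ hρ]
    refine (H.bd hρ hρ' hx2.le).trans ?_
    have hL := H.hL
    have : L * (ρ * ‖x‖) ≤ L * (ρ * 8) := by
      apply mul_le_mul_of_nonneg_left _ (by linarith)
      exact mul_le_mul_of_nonneg_left hx2.le hρ.le
    linarith
  hom0 := (BallClose_hom H hρ hρ' (by simp) (by simpa using H.fb)).trans h1
  homF := by
    intro y' _ hy' hF
    exact (BallClose_hom H hρ hρ' hy' ((sc_FB hρ y').1 hF)).trans h1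
  vol0 := (BallClose_vol0 H hρ hρ' hτ hτ1).trans h2
  volF := by
    intro y' hy' hF ρ' hρ0 hρ1 _
    exact (BallClose_vol H hρ hρ' hρ0 hρ1.le hy' ((sc_FB hρ y').1 hF)).trans h3
  nondeg := hn

theorem BallClose_small (H : BallCloseH L κ K r₁ r₀ δ u y) {τ : ℝ} (hτ1 : τ < 1) :
    ∃ t₀ : ℝ, 0 < t₀ ∧ ∀ ρ : ℝ, 0 < ρ → ρ < t₀ → BallCloseND u y τ ρ := by
  have hy0 := H.ypos
  have hyO : y ∈ {x : E3 | δ < ‖x‖ ∧ ‖x‖ < 1} := H.mem (by linarith) (by linarith)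
  have hd := (hasDeriv_u H.op hyO H.fb).Ioi_of_Ici
  have hν := norm_nu_of_FB H.op hyO H.fb
  rw [hasDerivWithinAt_iff_tendsto_slope' (by simp : (0 : ℝ) ∉ Ioi (0 : ℝ))] at hd
  have he := hd.eventually (lt_mem_nhds (show (1 / 2 : ℝ) < 1 by norm_num))
  obtain ⟨t₀, ht0, ht⟩ := (mem_nhdsGT_iff_exists_Ioo_subset).1 he
  refine ⟨t₀, ht0, ?_⟩
  intro ρ hρ hρt
  have h1 := ht ⟨hρ, hρt⟩
  simp only [mem_ofPred_eq, slope_def_field, zero_smul, add_zero, sub_zero, H.uy] at h1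
  refine ⟨nu u y, by rw [hν]; exact hτ1, by rw [hν], ?_⟩
  unfold sc
  linarith


theorem BallClose_step (H : BallCloseH L κ K r₁ r₀ δ u y) {ρ τ κc σ' : ℝ} (hρ : 0 < ρ)
    (hρ' : ρ ≤ ‖y‖ / 32) (hτ : 0 < τ) (hτ1 : τ ≤ 1 / 16) (h1 : 3125 * κ ≤ κc)
    (h2 : κ + τ * (volume (ball (0 : E3) 1)).toReal ≤ κc) (h3 : κ ≤ κc) (hσ' : σ' ≤ 1 / 16)
    (hc : AlmostCone L κc τ (sc u y ρ) →
      ∃ e : E3, ‖e‖ = 1 ∧ ∀ x : E3, σ' ≤ ‖x‖ → ‖x‖ ≤ 1 / 2 →
      |sc u y ρ x - max ⟪x, e⟫ 0| ≤ σ' ∧ (σ' < ⟪x, e⟫ → 0 < sc u y ρ x) ∧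
        (⟪x, e⟫ < -σ' → sc u y ρ x = 0))
    (hn : BallCloseND u y τ ρ) : BallCloseND u y τ (2 * ρ) := by
  obtain ⟨e, he, hx⟩ := hc (BallClose_cone H hρ hρ' hτ (by linarith) h1 h2 h3 hn)
  have n1 : ‖(1 / 4 : ℝ) • e‖ = 1 / 4 := by
    rw [norm_smul, he, mul_one, Real.norm_eq_abs, abs_of_pos (by norm_num)]
  have h4 := (hx ((1 / 4 : ℝ) • e) (by rw [n1]; linarith) (by rw [n1]; norm_num)).1
  have h5 : ⟪(1 / 4 : ℝ) • e, e⟫ = 1 / 4 := by
    rw [real_inner_smul_left, real_inner_self_eq_norm_sq, he]; norm_num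
  rw [h5, max_eq_left (by norm_num)] at h4
  have h6 : 1 / 8 ≤ sc u y ρ ((1 / 4 : ℝ) • e) := by
    have := (abs_le.1 h4).1
    linarith
  refine ⟨(1 / 8 : ℝ) • e, ?_, ?_, ?_⟩
  · rw [norm_smul, he, mul_one, Real.norm_eq_abs, abs_of_pos (by norm_num)]
    linarith
  · rw [norm_smul, he, mul_one, Real.norm_eq_abs, abs_of_pos (by norm_num)]
    norm_num
  · have e1 : sc u y (2 * ρ) ((1 / 8 : ℝ) • e) = sc u y ρ ((1 / 4 : ℝ) • e) / 2 := by
      unfold sc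
      have : (2 * ρ) • (1 / 8 : ℝ) • e = ρ • (1 / 4 : ℝ) • e := by
        rw [smul_smul, smul_smul]; congr 1; ring
      rw [this]
      field_simp
    rw [e1]
    linarith only [hτ, h6]

theorem BallClose_nd (H : BallCloseH L κ K r₁ r₀ δ u y) {τ κc σ' : ℝ}
    (hτ : 0 < τ) (hτ1 : τ ≤ 1 / 16) (h1 : 3125 * κ ≤ κc)
    (h2 : κ + τ * (volume (ball (0 : E3) 1)).toReal ≤ κc) (h3 : κ ≤ κc) (hσ' : σ' ≤ 1 / 16)
    (hc : ∀ v : E3 → ℝ, AlmostCone L κc τ v →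
      ∃ e : E3, ‖e‖ = 1 ∧ ∀ x : E3, σ' ≤ ‖x‖ → ‖x‖ ≤ 1 / 2 →
      |v x - max ⟪x, e⟫ 0| ≤ σ' ∧ (σ' < ⟪x, e⟫ → 0 < v x) ∧
        (⟪x, e⟫ < -σ' → v x = 0)) :
    ∀ ρ : ℝ, 0 < ρ → ρ ≤ ‖y‖ / 32 → BallCloseND u y τ ρ := by
  obtain ⟨t₀, ht0, ht⟩ := BallClose_small H (τ := τ) (by linarith)
  have key : ∀ n : ℕ, ∀ ρ : ℝ, 0 < ρ → ρ ≤ ‖y‖ / 32 → ρ / 2 ^ n < t₀ → BallCloseND u y τ ρ := by
    intro n
    induction n with
    | zero =>
      intro ρ hρ _ h
      exact ht ρ hρ (by simpa using h)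
    | succ n ih =>
      intro ρ hρ hρ' h
      have h4 : BallCloseND u y τ (ρ / 2) := by
        refine ih (ρ / 2) (by linarith) (by linarith) ?_
        rw [div_div, ← pow_succ']
        exact h
      have h5 := BallClose_step H (ρ := ρ / 2) (by linarith) (by linarith) hτ hτ1 h1 h2 h3 hσ'
        (hc _) h4
      have : 2 * (ρ / 2) = ρ := by ring
      rwa [this] at h5
  intro ρ hρ hρ'
  obtain ⟨n, hn⟩ := pow_unbounded_of_one_lt (ρ / t₀) (one_lt_two)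
  refine key n ρ hρ hρ' ?_
  rw [div_lt_iff₀ ht0] at hn
  rw [div_lt_iff₀ (by positivity)]
  linarith

theorem ball_close : ∀ L : ℝ, 1 ≤ L → ∀ σ : ℝ, 0 < σ → ∃ κ₀ : ℝ, 0 < κ₀ ∧
    ∀ (κ K r₁ r₀ δ : ℝ) (u : E3 → ℝ), κ ≤ κ₀ → 8 ≤ K → 0 < δ → r₁ ≤ r₀ → r₀ ≤ 1 / 16 →
    OnePhase {x | δ < ‖x‖ ∧ ‖x‖ < 1} u → LipOn L δ u → Dens κ K r₁ r₀ δ u →
    ∀ y : E3, FB u y → 2 * K * δ ≤ ‖y‖ → ‖y‖ ≤ r₁ / 2 → ∀ ρ : ℝ, 0 < ρ → ρ ≤ ‖y‖ / 64 →
    ∃ e : E3, ‖e‖ = 1 ∧ CloseAt u y ρ e σ := by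
  intro L hL σ hσ
  set σ' : ℝ := min (σ / (8 * (L + 2))) (1 / 16) with hσ'
  have hσ'0 : 0 < σ' := lt_min (by positivity) (by norm_num)
  have hσ'1 : σ' ≤ 1 / 16 := min_le_right _ _
  have hσ'2 : σ' * (8 * (L + 2)) ≤ σ := by
    have h1 : σ' ≤ σ / (8 * (L + 2)) := min_le_left _ _
    rwa [le_div_iff₀ (by positivity)] at h1
  obtain ⟨κc, hκc, τc, hτc, hclose⟩ := almostCone_close L hL σ' hσ'0
  set V : ℝ := (volume (ball (0 : E3) 1)).toReal with hV
  have hV0 : 0 ≤ V := ENNReal.toReal_nonneg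
  set τ : ℝ := min τc (min (1 / 16) (κc / (2 * (V + 1)))) with hτd
  have hτ0 : 0 < τ := lt_min hτc (lt_min (by norm_num) (by positivity))
  have hτ1 : τ ≤ τc := min_le_left _ _
  have hτ2 : τ ≤ 1 / 16 := (min_le_right _ _).trans (min_le_left _ _)
  have hτ3 : τ * V ≤ κc / 2 := by
    have h1 : τ ≤ κc / (2 * (V + 1)) := (min_le_right _ _).trans (min_le_right _ _)
    rw [le_div_iff₀ (by positivity)] at h1
    nlinarith only [hτ0, h1]
  refine ⟨κc / 3200, by positivity, ?_⟩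
  intro κ K r₁ r₀ δ u hκ hK hδ hr hr₀ hop hlip hdens y hF hy1 hy2 ρ hρ hρ'
  have H : BallCloseH L κ K r₁ r₀ δ u y :=
    ⟨hL, hK, hδ, hr, hr₀, hop, hlip, hdens, hF, hy1, hy2⟩
  have k1 : 3125 * κ ≤ κc := by linarith
  have k2 : κ + τ * V ≤ κc := by linarith
  have k3 : κ ≤ κc := by linarith
  have hnd := BallClose_nd H hτ0 hτ2 k1 k2 k3 hσ'1
    (fun v hv => hclose τ v hτ0 hτ1 hv) (2 * ρ) (by linarith) (by linarith)
  obtain ⟨e, he, hx⟩ := hclose τ (sc u y (2 * ρ)) hτ0 hτ1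
    (BallClose_cone H (by linarith) (by linarith) hτ0 (by linarith) k1 k2 k3 hnd)
  refine ⟨e, he, ?_⟩
  intro z hz
  have hz1 : ‖z - y‖ < ρ := by rwa [mem_ball, dist_eq_norm] at hz
  set x : E3 := (1 / (2 * ρ)) • (z - y) with hxd
  have hzx : y + (2 * ρ) • x = z := by
    rw [hxd, smul_smul, mul_one_div_cancel (by positivity), one_smul]; abel
  have hzy : z - y = (2 * ρ) • x := by rw [← hzx]; abel
  have hnx : ‖z - y‖ = 2 * ρ * ‖x‖ := by
    rw [hzy, norm_smul, Real.norm_eq_abs, abs_of_pos (by positivity)]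
  have hin : ⟪z - y, e⟫ = 2 * ρ * ⟪x, e⟫ := by rw [hzy, real_inner_smul_left]
  have hsc : u z = 2 * ρ * sc u y (2 * ρ) x := by
    unfold sc
    rw [hzx]
    field_simp
  have hmax : max ⟪z - y, e⟫ 0 = 2 * ρ * max ⟪x, e⟫ 0 := by
    rw [hin, mul_max_of_nonneg _ _ (by positivity), mul_zero]
  have hx2 : ‖x‖ ≤ 1 / 2 := by
    by_contra hcon
    rw [not_le] at hcon
    nlinarith only [hρ, hz1, hnx, hcon]
  have hL2 : σ' * 8 ≤ σ := by nlinarith only [hL, hσ'0, hσ'2]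
  by_cases hcase : σ' ≤ ‖x‖
  · obtain ⟨a1, a2, a3⟩ := hx x hcase hx2
    refine ⟨?_, ?_, ?_⟩
    · rw [hsc, hmax, ← mul_sub, abs_mul, abs_of_pos (show 0 < 2 * ρ by linarith)]
      have : 2 * ρ * |sc u y (2 * ρ) x - max ⟪x, e⟫ 0| ≤ 2 * ρ * σ' :=
        mul_le_mul_of_nonneg_left a1 (by positivity)
      nlinarith only [hσ'0, hρ, hL2, this]
    · intro h
      rw [hin] at h
      have : σ' < ⟪x, e⟫ := by nlinarith only [hσ'0, hρ, hL2, h]
      rw [hsc]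
      exact mul_pos (by positivity) (a2 this)
    · intro h
      rw [hin] at h
      have : ⟪x, e⟫ < -σ' := by nlinarith only [hσ'0, hρ, hL2, h]
      rw [hsc, a3 this, mul_zero]
  · rw [not_le] at hcase
    have hie : |⟪z - y, e⟫| ≤ ‖z - y‖ := by
      have := abs_real_inner_le_norm (z - y) e
      rwa [he, mul_one] at this
    have hsm : ‖z - y‖ ≤ 2 * ρ * σ' := by
      rw [hnx]
      exact mul_le_mul_of_nonneg_left hcase.le (by positivity)
    have hsm2 : ‖z - y‖ < σ * ρ := by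
      have : ‖z - y‖ < 2 * ρ * σ' := by
        rw [hnx]
        exact mul_lt_mul_of_pos_left hcase (by positivity)
      nlinarith only [hσ'0, hρ, hL2, this]
    refine ⟨?_, ?_, ?_⟩
    · have hb := H.bd (ρ := 2 * ρ) (by linarith) (by linarith) (x := x) (by linarith)
      rw [hzx] at hb
      have hzO : z ∈ {x : E3 | δ < ‖x‖ ∧ ‖x‖ < 1} := by
        rw [← hzx]
        have hnn := BallClose_norm (y := y) (ρ := 2 * ρ) (by linarith) (by linarith)
          (x := x) (c := 8) (by linarith)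
        have hy0 := H.ypos
        exact H.mem (by linarith [hnn.1]) (by linarith [hnn.2])
      have hu0 : 0 ≤ u z := hop.nonneg z hzO
      have hm0 : 0 ≤ max ⟪z - y, e⟫ 0 := le_max_right _ _
      have hm1 : max ⟪z - y, e⟫ 0 ≤ ‖z - y‖ :=
        max_le ((le_abs_self _).trans hie) (norm_nonneg _)
      have hu1 : u z ≤ L * (2 * ρ * σ') := by
        refine hb.trans ?_
        apply mul_le_mul_of_nonneg_left _ (by linarith)
        exact mul_le_mul_of_nonneg_left hcase.le (by positivity)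
      have : |u z - max ⟪z - y, e⟫ 0| ≤ u z + max ⟪z - y, e⟫ 0 := by
        rw [abs_le]; constructor <;> linarith
      have h9 : L * (2 * ρ * σ') + 2 * ρ * σ' ≤ σ * ρ := by
        have : ρ * (σ' * (8 * (L + 2))) ≤ ρ * σ := mul_le_mul_of_nonneg_left hσ'2 hρ.le
        nlinarith only [hsm, hsm2, hm0, hm1, this]
      linarith
    · intro h
      exfalso
      linarith [(abs_le.1 hie).2]
    · intro h
      exfalso
      linarith [(abs_le.1 hie).1]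

end Pool.Agent.H32.Flat
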