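import Pool.Agent.H32.Flat.DivThm

/-!
# Module G0: slabs and half spaces

* `volume_slab`: choose an orthonormal basis with first vector `e`
  (`OrthonormalBasis`/`LinearIsometryEquiv` is measure preserving), the set is contained in a box with
  sides `2c, 2R, 2R`.
* `half_mm`: the slab `⟪x,e⟫ = 0` is null (`volume_slab` with `c = 0`), the symmetry `x ↦ -x` exchanges the
  two halves.
-/

open Set Metric MeasureTheory Filter Topology InnerProductSpace
open scoped Laplacian Gradient RealInnerProductSpace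

namespace Pool.Agent.H32.Flat

theorem Slab_basis {e : E3} (he : ‖e‖ = 1) :
    ∃ b : OrthonormalBasis (Fin 3) ℝ E3, b 0 = e := by
  have hv : Orthonormal ℝ (({0} : Set (Fin 3)).domRestrict fun _ => e) := by
    rw [orthonormal_iff_ite]
    rintro ⟨i, hi⟩ ⟨j, hj⟩
    have hi' : i = 0 := hi
    have hj' : j = 0 := hj
    subst hi'
    subst hj'
    simp [he]
  obtain ⟨b, hb⟩ := hv.exists_orthonormalBasis_extension_of_card_eq (by simp)
  exact ⟨b, hb 0 rfl⟩

/-- A box in coordinates. -/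
theorem Slab_box (r : Fin 3 → ℝ) (_hr : ∀ i, 0 ≤ r i) :
    volume {y : E3 | ∀ i, |y i| ≤ r i} = ∏ i, ENNReal.ofReal (2 * r i) := by
  have h1 : (MeasurableEquiv.toLp 2 (Fin 3 → ℝ)) ⁻¹' {y : E3 | ∀ i, |y i| ≤ r i} =
      Icc (fun i => -r i) r := by
    ext y
    rw [mem_preimage, mem_Icc, Pi.le_def, Pi.le_def]
    constructor
    · intro h
      exact ⟨fun i => (abs_le.1 (h i)).1, fun i => (abs_le.1 (h i)).2⟩
    · intro h i
      exact abs_le.2 ⟨h.1 i, h.2 i⟩
  have h2 : volume ((MeasurableEquiv.toLp 2 (Fin 3 → ℝ)) ⁻¹' {y : E3 | ∀ i, |y i| ≤ r i}) =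
      volume {y : E3 | ∀ i, |y i| ≤ r i} := by
    have hmp : MeasurePreserving (MeasurableEquiv.toLp 2 (Fin 3 → ℝ)) volume volume :=
      PiLp.volume_preserving_toLp (Fin 3)
    exact hmp.measure_preimage_equiv _
  rw [← h2, h1, Real.volume_Icc_pi]
  refine Finset.prod_congr rfl fun i _ => ?_
  congr 1
  ring

theorem Slab_box_real (r : Fin 3 → ℝ) (hr : ∀ i, 0 ≤ r i) :
    volume.real {y : E3 | ∀ i, |y i| ≤ r i} = 8 * r 0 * r 1 * r 2 := by
  unfold Measure.real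
  rw [Slab_box r hr, ENNReal.toReal_prod, Fin.prod_univ_three,
    ENNReal.toReal_ofReal (by linarith [hr 0]), ENNReal.toReal_ofReal (by linarith [hr 1]),
    ENNReal.toReal_ofReal (by linarith [hr 2])]
  ring

theorem volume_slab {e : E3} (he : ‖e‖ = 1) {R c : ℝ} (hR : 0 ≤ R) (hc : 0 ≤ c) :
    volume.real {x : E3 | ‖x‖ ≤ R ∧ |⟪x, e⟫| ≤ c} ≤ 8 * R ^ 2 * c := by
  obtain ⟨b, hb⟩ := Slab_basis he
  have hr : ∀ i, 0 ≤ (![c, R, R] : Fin 3 → ℝ) i := by
    intro i
    fin_cases i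
    · exact hc
    · exact hR
    · exact hR
  have hsub : {x : E3 | ‖x‖ ≤ R ∧ |⟪x, e⟫| ≤ c} ⊆
      b.measurableEquiv ⁻¹' {y : E3 | ∀ i, |y i| ≤ (![c, R, R] : Fin 3 → ℝ) i} := by
    rintro x ⟨hx, hxc⟩ i
    have h1 : (b.measurableEquiv x) i = ⟪b i, x⟫ := b.repr_apply_apply x i
    rw [h1]
    have h2 : |⟪b i, x⟫| ≤ ‖x‖ := by
      have := abs_real_inner_le_norm (b i) x
      rwa [b.norm_eq_one, one_mul] at this
    fin_cases i
    · show |⟪b 0, x⟫| ≤ c
      rw [hb, real_inner_comm]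
      exact hxc
    · exact h2.trans hx
    · exact h2.trans hx
  have hvol : volume (b.measurableEquiv ⁻¹' {y : E3 | ∀ i, |y i| ≤ (![c, R, R] : Fin 3 → ℝ) i}) =
      volume {y : E3 | ∀ i, |y i| ≤ (![c, R, R] : Fin 3 → ℝ) i} :=
    b.measurePreserving_measurableEquiv.measure_preimage_equiv _
  have hfin : volume (b.measurableEquiv ⁻¹'
      {y : E3 | ∀ i, |y i| ≤ (![c, R, R] : Fin 3 → ℝ) i}) ≠ ⊤ := by
    rw [hvol, Slab_box _ hr]
    exact ENNReal.prod_ne_top fun i _ => ENNReal.ofReal_ne_top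
  refine (measureReal_mono hsub hfin).trans ?_
  have h3 : volume.real (b.measurableEquiv ⁻¹'
      {y : E3 | ∀ i, |y i| ≤ (![c, R, R] : Fin 3 → ℝ) i}) =
      volume.real {y : E3 | ∀ i, |y i| ≤ (![c, R, R] : Fin 3 → ℝ) i} := by
    unfold Measure.real
    rw [hvol]
  rw [h3, Slab_box_real _ hr]
  apply le_of_eq
  show 8 * c * R * R = 8 * R ^ 2 * c
  ring

theorem volume_ball_le {y : E3} {R : ℝ} (hR : 0 ≤ R) : volume.real (closedBall y R) ≤ 8 * R ^ 3 := by
  have h1 : volume.real (closedBall y R) = volume.real (closedBall (0 : E3) R) := by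
    unfold Measure.real
    rw [Measure.addHaar_closedBall_center]
  have he : ‖(EuclideanSpace.single 0 1 : E3)‖ = 1 := by simp
  have h2 := volume_slab he hR hR
  rw [h1]
  have h3 : closedBall (0 : E3) R = {x : E3 | ‖x‖ ≤ R ∧ |⟪x, (EuclideanSpace.single 0 1 : E3)⟫| ≤ R} := by
    ext x
    rw [mem_closedBall_zero_iff]
    constructor
    · intro hx
      refine ⟨hx, ?_⟩
      have := abs_real_inner_le_norm x (EuclideanSpace.single 0 1 : E3)
      rw [he, mul_one] at this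
      exact this.trans hx
    · exact fun hx => hx.1
  rw [h3]
  refine h2.trans (le_of_eq ?_)
  ring

theorem Slab_cont : Continuous (fun x : E3 => wt (‖x‖ ^ 2) ^ 4) := by
  unfold wt
  fun_prop

theorem Slab_zero {x : E3} (hx : x ∉ closedBall (0 : E3) 1) : wt (‖x‖ ^ 2) ^ 4 = 0 := by
  rw [mem_closedBall_zero_iff, not_le] at hx
  have h1 : wt (‖x‖ ^ 2) = 0 := by
    unfold wt
    apply max_eq_right
    nlinarith
  rw [h1]
  norm_num

theorem Slab_integrable : Integrable (fun x : E3 => wt (‖x‖ ^ 2) ^ 4) :=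
  Slab_cont.integrable_of_hasCompactSupport
    (HasCompactSupport.intro (isCompact_closedBall 0 1) fun _ hx => Slab_zero hx)

theorem Slab_null {e : E3} (he : ‖e‖ = 1) : volume {x : E3 | ⟪x, e⟫ = 0} = 0 := by
  have h1 : {x : E3 | ⟪x, e⟫ = 0} = ((ℝ ∙ e)ᗮ : Submodule ℝ E3) := by
    ext x
    rw [SetLike.mem_coe, Submodule.mem_orthogonal_singleton_iff_inner_left]
    rfl
  rw [h1]
  apply Measure.addHaar_submodule
  intro h
  have h2 : e ∈ ((ℝ ∙ e)ᗮ : Submodule ℝ E3) := h ▸ Submodule.mem_top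
  rw [Submodule.mem_orthogonal_singleton_iff_inner_left, real_inner_self_eq_norm_sq, he] at h2
  norm_num at h2

theorem half_mm {e : E3} (he : ‖e‖ = 1) :
    ∫ x in {x : E3 | 0 < ⟪x, e⟫}, wt (‖x‖ ^ 2) ^ 4 = mm / 2 := by
  have hP : MeasurableSet {x : E3 | 0 < ⟪x, e⟫} :=
    (isOpen_lt continuous_const (by fun_prop)).measurableSet
  have hN : MeasurableSet {x : E3 | ⟪x, e⟫ < 0} :=
    (isOpen_lt (by fun_prop) continuous_const).measurableSet
  have h1 := integral_add_compl hP Slab_integrable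
  have h2 : ({x : E3 | 0 < ⟪x, e⟫}ᶜ : Set E3) =ᵐ[volume] {x : E3 | ⟪x, e⟫ < 0} := by
    have h3 : ∀ᵐ x : E3, x ∉ {x : E3 | ⟪x, e⟫ = 0} := by
      rw [ae_iff]
      simpa using Slab_null he
    filter_upwards [h3] with x hx
    apply propext
    have hx' : ⟪x, e⟫ ≠ 0 := hx
    show ¬ (0 < ⟪x, e⟫) ↔ ⟪x, e⟫ < 0
    rw [not_lt]
    exact ⟨fun h => lt_of_le_of_ne h hx', le_of_lt⟩
  rw [setIntegral_congr_set h2] at h1
  have h4 : ∫ x in {x : E3 | ⟪x, e⟫ < 0}, wt (‖x‖ ^ 2) ^ 4 =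
      ∫ x in {x : E3 | 0 < ⟪x, e⟫}, wt (‖x‖ ^ 2) ^ 4 := by
    rw [← integral_indicator hN, ← integral_indicator hP, ← integral_neg_eq_self]
    refine integral_congr_ae (Eventually.of_forall fun x => ?_)
    show indicator {x : E3 | ⟪x, e⟫ < 0} (fun x => wt (‖x‖ ^ 2) ^ 4) (-x) =
      indicator {x : E3 | 0 < ⟪x, e⟫} (fun x => wt (‖x‖ ^ 2) ^ 4) x
    by_cases hx : 0 < ⟪x, e⟫
    · have hx' : -x ∈ {x : E3 | ⟪x, e⟫ < 0} := by
        show ⟪-x, e⟫ < 0
        rw [inner_neg_left]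
        linarith
      rw [indicator_of_mem hx', indicator_of_mem (show x ∈ {x : E3 | 0 < ⟪x, e⟫} from hx), norm_neg]
    · have hx' : -x ∉ {x : E3 | ⟪x, e⟫ < 0} := by
        show ¬ (⟪-x, e⟫ < 0)
        rw [inner_neg_left]
        intro h
        exact hx (by linarith)
      rw [indicator_of_notMem hx', indicator_of_notMem (show x ∉ {x : E3 | 0 < ⟪x, e⟫} from hx)]
  rw [h4] at h1
  unfold mm
  linarith

theorem mm_le : mm ≤ 8 := by
  have h1 : mm = ∫ x in closedBall (0 : E3) 1, wt (‖x‖ ^ 2) ^ 4 := by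
    unfold mm
    rw [setIntegral_eq_integral_of_forall_compl_eq_zero fun x hx => Slab_zero hx]
  rw [h1]
  have h2 : ∫ x in closedBall (0 : E3) 1, wt (‖x‖ ^ 2) ^ 4 ≤ ∫ _ in closedBall (0 : E3) 1, (1 : ℝ) := by
    refine setIntegral_mono Slab_integrable.integrableOn
      (integrableOn_const (measure_closedBall_lt_top).ne) fun x => ?_
    have h3 : 0 ≤ wt (‖x‖ ^ 2) := le_max_right _ _
    have h4 : wt (‖x‖ ^ 2) ≤ 1 := max_le (by nlinarith [norm_nonneg x]) zero_le_one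
    exact pow_le_one₀ h3 h4
  refine h2.trans ?_
  rw [setIntegral_const, smul_eq_mul, mul_one]
  have := volume_ball_le (y := 0) (zero_le_one : (0 : ℝ) ≤ 1)
  linarith

end Pool.Agent.H32.Flat
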