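import Pool.Agent.H32.Flat.Ident
import Pool.Agent.H32.Flat.Slab

/-!
# Module G4: the slopes are one and zero

Data: closeness on both sides of the plane `⟪x,e⟫ = 0` with slopes `a, b` (module G3, for `e` and `-e`),
with small parameters `s₁, σ₁`.
* if `a > σ₁` then `u > 0` on `{⟪x,e⟫ ≥ s₁, |x| ≤ 3}`; then by `vol0`, `half_mm`, `volume_slab`:
  `∫_{⟪x,e⟫<0, |x|<1} wt(|x|²)⁴ ind u ≤ κ + 16 s₁ + C τ³`.
* nondegeneracy: at the point `x` of `nondeg` move to `x' = x ± 2 s₁ e` (sign of `⟪x,e⟫`, this increases the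
  norm), `|⟪x',e⟫| ≥ s₁`, `u x' ≥ 1/1000 - 2 L s₁`, so `max a b ≥ 1/4000`.  By symmetry assume it is `a`.
* so `b ≤ σ₁` (otherwise `u > 0` on `{⟪x,e⟫ ≤ -s₁}` too, contradicting the previous volume bound).
* translation identity: `domainVariation` with `X = η e`, `η x = wt (16 ‖x - p‖²)^3`, where `p ⟂ e`,
  `‖p‖ = 1/2` (support in `1/4 ≤ |x| ≤ 3/4`): `∫ (|Du|² + ind u) ∂_e η - 2 ⟪∇η, Du⟫ ⟪Du,e⟫ = 0`; write
  `Du = D_e e + D_P`; the terms with `D_P` are `≤ C L √κ`; on `⟪x,e⟫ ≥ s₁`: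
  `|D_e - a| ≤ |s D_e - u|/s₁ + σ₁`, on `⟪x,e⟫ ≤ -s₁`: `|D_e + b| ≤ …`; strip: volume `≤ C s₁`.
  With `I = -∫_{⟪x,e⟫>0} ∂_e η = ∫_{⟪x,e⟫<0} ∂_e η ≥ c₀ > 0` (universal `c₀`, consider the ball of radius
  `1/32` about `p + e/16`) one gets `|(1 - a²) + b²| I ≤ small`, so `|a - 1| ≤ σ`.
The statement below is for fixed targets `σ`; choose `s₁, σ₁, κ, τ` small in terms of `L, σ`.
-/

open Set Metric MeasureTheory Filter Topology InnerProductSpace
open scoped Laplacian Gradient RealInnerProductSpace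

namespace Pool.Agent.H32.Flat

theorem Consts_isOpen_pos {O : Set E3} {u : E3 → ℝ} (h : OnePhase O u) :
    IsOpen (O ∩ {x | 0 < u x}) :=
  h.cont.isOpen_inter_preimage h.isOpen (isOpen_Ioi (a := (0:ℝ)))

theorem Consts_contOn_grad {O : Set E3} {u : E3 → ℝ} (h : OnePhase O u) :
    ContinuousOn (gradient u) (O ∩ {x | 0 < u x}) := by
  intro x hx
  have hh := (h.harm x hx.1 hx.2).1
  have h1 : ContinuousAt (fderiv ℝ u) x := (hh.fderiv_right (m := 1) (by norm_num)).continuousAt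
  have h2 : ContinuousAt (gradient u) x := by
    unfold gradient
    exact (LinearIsometryEquiv.continuous _).continuousAt.comp h1
  exact h2.continuousWithinAt

theorem Consts_aesm_Du {O : Set E3} {u : E3 → ℝ} (h : OnePhase O u) {S : Set E3}
    (hS : MeasurableSet S) (hSO : S ⊆ O) : AEStronglyMeasurable (Du u) (volume.restrict S) := by
  classical
  have hP := (Consts_isOpen_pos h).measurableSet
  have h1 : AEStronglyMeasurable ((O ∩ {x | 0 < u x}).indicator (gradient u)) volume :=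
    (aestronglyMeasurable_indicator_iff hP).2
      ((Consts_contOn_grad h).aestronglyMeasurable hP)
  refine (h1.mono_measure Measure.restrict_le_self).congr ?_
  filter_upwards [ae_restrict_mem hS] with x hx
  unfold Du
  by_cases hu : 0 < u x
  · rw [if_pos hu, indicator_of_mem (show x ∈ O ∩ {x | 0 < u x} from ⟨hSO hx, hu⟩)]
  · rw [if_neg hu, indicator_of_notMem (fun hx => hu hx.2)]

theorem Consts_aesm_ind {O : Set E3} {u : E3 → ℝ} (h : OnePhase O u) {S : Set E3}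
    (hS : MeasurableSet S) (hSO : S ⊆ O) : AEStronglyMeasurable (ind u) (volume.restrict S) := by
  classical
  have hP := (Consts_isOpen_pos h).measurableSet
  have h1 : AEStronglyMeasurable ((O ∩ {x | 0 < u x}).indicator (fun _ => (1:ℝ)))
      (volume : Measure E3) :=
    (aestronglyMeasurable_const).indicator hP
  refine (h1.mono_measure Measure.restrict_le_self).congr ?_
  filter_upwards [ae_restrict_mem hS] with x hx
  unfold ind
  by_cases hu : 0 < u x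
  · rw [if_pos hu, indicator_of_mem (show x ∈ O ∩ {x | 0 < u x} from ⟨hSO hx, hu⟩)]
  · rw [if_neg hu, indicator_of_notMem (fun hx => hu hx.2)]

theorem Consts_ind_nonneg (u : E3 → ℝ) (x : E3) : 0 ≤ ind u x := by
  unfold ind; split_ifs <;> norm_num

theorem Consts_ind_le_one (u : E3 → ℝ) (x : E3) : ind u x ≤ 1 := by
  unfold ind; split_ifs <;> norm_num

theorem Consts_wt_nonneg (t : ℝ) : 0 ≤ wt t := le_max_right _ _

theorem Consts_wt_le_one {t : ℝ} (ht : 0 ≤ t) : wt t ≤ 1 := by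
  unfold wt; exact max_le (by linarith) zero_le_one

theorem Consts_continuous_wt : Continuous wt := by
  unfold wt; fun_prop

theorem Consts_g_cont : Continuous (fun x : E3 => wt (‖x‖ ^ 2) ^ 4) :=
  (Consts_continuous_wt.comp (by fun_prop : Continuous fun x : E3 => ‖x‖ ^ 2)).pow 4

theorem Consts_g_le (x : E3) : wt (‖x‖ ^ 2) ^ 4 ≤ 1 :=
  pow_le_one₀ (Consts_wt_nonneg _) (Consts_wt_le_one (by positivity))

theorem Consts_g_zero {x : E3} (hx : 1 ≤ ‖x‖) : wt (‖x‖ ^ 2) ^ 4 = 0 := by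
  have : wt (‖x‖ ^ 2) = 0 := by
    unfold wt
    exact max_eq_right (by nlinarith)
  rw [this]; norm_num

theorem Consts_g_int : Integrable (fun x : E3 => wt (‖x‖ ^ 2) ^ 4) := by
  have h := hasCompactSupport_wt (y := (0 : E3)) (ρ := 1) one_pos (n := 4) (by norm_num)
  have he : (fun x : E3 => wt (‖x - 0‖ ^ 2 / 1 ^ 2) ^ 4) = fun x : E3 => wt (‖x‖ ^ 2) ^ 4 := by
    funext x; simp
  rw [he] at h
  exact Consts_g_cont.integrable_of_hasCompactSupport h

theorem Consts_intOn {S : Set E3} {f : E3 → ℝ} {M : ℝ} (hS : MeasurableSet S)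
    (hfin : volume S ≠ ⊤) (hm : AEStronglyMeasurable f (volume.restrict S))
    (hb : ∀ x ∈ S, |f x| ≤ M) : IntegrableOn f S := by
  have : IsFiniteMeasure (volume.restrict S) :=
    ⟨by simpa using lt_top_iff_ne_top.2 hfin⟩
  refine Integrable.of_bound hm M ?_
  filter_upwards [ae_restrict_mem hS] with x hx
  exact hb x hx

theorem Consts_g_ind_intOn {O : Set E3} {u : E3 → ℝ} (h : OnePhase O u) {S : Set E3}
    (hS : MeasurableSet S) (hSO : S ⊆ O) (hfin : volume S ≠ ⊤) :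
    IntegrableOn (fun x => wt (‖x‖ ^ 2) ^ 4 * ind u x) S := by
  refine Consts_intOn (M := 1) hS hfin
    ((Consts_g_cont.aestronglyMeasurable).mul (Consts_aesm_ind h hS hSO)) fun x _ => ?_
  rw [abs_of_nonneg (mul_nonneg (pow_nonneg (Consts_wt_nonneg _) _) (Consts_ind_nonneg u x))]
  exact mul_le_one₀ (Consts_g_le x) (Consts_ind_nonneg u x) (Consts_ind_le_one u x)

/-- the lower bound for the weighted volume on one side. -/
theorem Consts_vol_side {O : Set E3} {u : E3 → ℝ} (h : OnePhase O u) {A : Set E3}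
    (hA : MeasurableSet A) (hAO : A ⊆ O) (hAfin : volume A ≠ ⊤) {τ s : ℝ} (hτ : 0 ≤ τ)
    (hs : 0 ≤ s) (hAc : ∀ x : E3, τ < ‖x‖ → ‖x‖ < 1 → x ∈ A) {e : E3} (he : ‖e‖ = 1)
    (hpos : ∀ x : E3, ‖x‖ ≤ 1 → s ≤ ⟪x, e⟫ → x ∈ A → 0 < u x) :
    mm / 2 - 8 * τ ^ 3 - 8 * s ≤
      ∫ x in A ∩ {x | 0 < ⟪x, e⟫}, wt (‖x‖ ^ 2) ^ 4 * ind u x := by
  classical
  set H : Set E3 := {x | 0 < ⟪x, e⟫} with hH
  set Sl : Set E3 := {x : E3 | ‖x‖ ≤ 1 ∧ |⟪x, e⟫| ≤ s} with hSl
  have hHm : MeasurableSet H := by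
    have : IsOpen H := isOpen_lt continuous_const (by fun_prop : Continuous fun x : E3 => (⟪x, e⟫ : ℝ))
    exact this.measurableSet
  have hSlc : IsClosed Sl :=
    (isClosed_le continuous_norm continuous_const).inter
      (isClosed_le (by fun_prop : Continuous fun x : E3 => (⟪x, e⟫ : ℝ)).abs continuous_const)
  have hSlb : Sl ⊆ closedBall 0 1 := fun x hx => by simpa using hx.1
  have hSlfin : volume Sl ≠ ⊤ :=
    ((measure_mono hSlb).trans_lt measure_closedBall_lt_top).ne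
  have hAH : MeasurableSet (A ∩ H) := hA.inter hHm
  have hi2 : IntegrableOn (fun x => wt (‖x‖ ^ 2) ^ 4 * ind u x) (A ∩ H) :=
    Consts_g_ind_intOn h hAH (inter_subset_left.trans hAO)
      ((measure_mono inter_subset_left).trans_lt (lt_top_iff_ne_top.2 hAfin)).ne
  have h1 : ∫ x, H.indicator (fun x => wt (‖x‖ ^ 2) ^ 4) x = mm / 2 := by
    rw [integral_indicator hHm]; exact half_mm he
  have h2 : ∫ x, (A ∩ H).indicator (fun x => wt (‖x‖ ^ 2) ^ 4 * ind u x) x =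
      ∫ x in A ∩ H, wt (‖x‖ ^ 2) ^ 4 * ind u x := integral_indicator hAH
  have h3 : ∫ x, (closedBall (0 : E3) τ).indicator (fun _ => (1 : ℝ)) x =
      volume.real (closedBall (0 : E3) τ) := by
    rw [integral_indicator measurableSet_closedBall]; simp
  have h4 : ∫ x, Sl.indicator (fun _ => (1 : ℝ)) x = volume.real Sl := by
    rw [integral_indicator hSlc.measurableSet]; simp
  have i1 : Integrable (H.indicator (fun x : E3 => wt (‖x‖ ^ 2) ^ 4)) :=
    Consts_g_int.indicator hHm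
  have i2 : Integrable ((A ∩ H).indicator (fun x => wt (‖x‖ ^ 2) ^ 4 * ind u x)) :=
    (integrable_indicator_iff hAH).2 hi2
  have i3 : Integrable ((closedBall (0 : E3) τ).indicator (fun _ => (1 : ℝ))) :=
    (integrable_indicator_iff measurableSet_closedBall).2
      (integrableOn_const (measure_closedBall_lt_top.ne))
  have i4 : Integrable (Sl.indicator (fun _ => (1 : ℝ))) :=
    (integrable_indicator_iff hSlc.measurableSet).2 (integrableOn_const hSlfin)
  have hle : ∫ x, H.indicator (fun x => wt (‖x‖ ^ 2) ^ 4) x ≤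
      ∫ x, ((A ∩ H).indicator (fun x => wt (‖x‖ ^ 2) ^ 4 * ind u x) x +
        (closedBall (0 : E3) τ).indicator (fun _ => (1 : ℝ)) x +
        Sl.indicator (fun _ => (1 : ℝ)) x) := by
    refine integral_mono i1 ((i2.add i3).add i4) fun x => ?_
    have n2 : 0 ≤ (A ∩ H).indicator (fun x => wt (‖x‖ ^ 2) ^ 4 * ind u x) x :=
      indicator_nonneg (fun x _ => mul_nonneg (pow_nonneg (Consts_wt_nonneg _) _)
        (Consts_ind_nonneg u x)) x
    have n3 : 0 ≤ (closedBall (0 : E3) τ).indicator (fun _ => (1 : ℝ)) x :=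
      indicator_nonneg (fun _ _ => zero_le_one) x
    have n4 : 0 ≤ Sl.indicator (fun _ => (1 : ℝ)) x :=
      indicator_nonneg (fun _ _ => zero_le_one) x
    show H.indicator (fun x : E3 => wt (‖x‖ ^ 2) ^ 4) x ≤ _
    by_cases hxH : x ∈ H
    · rw [indicator_of_mem hxH]
      by_cases hx1 : 1 ≤ ‖x‖
      · rw [Consts_g_zero hx1]; positivity
      · push Not at hx1
        by_cases hxτ : ‖x‖ ≤ τ
        · have : (closedBall (0 : E3) τ).indicator (fun _ => (1 : ℝ)) x = 1 :=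
            indicator_of_mem (by simpa using hxτ) _
          have := Consts_g_le x
          linarith
        · push Not at hxτ
          have hxA := hAc x hxτ hx1
          by_cases hxs : s ≤ ⟪x, e⟫
          · have hu := hpos x hx1.le hxs hxA
            have e2 : (A ∩ H).indicator (fun x => wt (‖x‖ ^ 2) ^ 4 * ind u x) x =
                wt (‖x‖ ^ 2) ^ 4 := by
              rw [indicator_of_mem (show x ∈ A ∩ H from ⟨hxA, hxH⟩)]
              unfold ind
              rw [if_pos hu, mul_one]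
            rw [e2]; linarith only [n3, n4]
          · push Not at hxs
            have hx0 : 0 < ⟪x, e⟫ := hxH
            have : Sl.indicator (fun _ => (1 : ℝ)) x = 1 :=
              indicator_of_mem (show x ∈ Sl from ⟨hx1.le, by rw [abs_of_pos hx0]; exact hxs.le⟩) _
            have := Consts_g_le x
            linarith
    · rw [indicator_of_notMem hxH]; positivity
  have e1 := integral_add (i2.add i3) i4
  have e2 := integral_add i2 i3
  simp only [Pi.add_apply] at e1 e2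
  rw [e1, e2, h1, h2, h3, h4] at hle
  have b3 : volume.real (closedBall (0 : E3) τ) ≤ 8 * τ ^ 3 := volume_ball_le hτ
  have b4 : volume.real Sl ≤ 8 * 1 ^ 2 * s := volume_slab he zero_le_one hs
  linarith only [hle, b3, b4]

theorem Consts_exists_perp (e : E3) : ∃ p : E3, ⟪p, e⟫ = (0 : ℝ) ∧ ‖p‖ = 1 / 2 := by
  have h1 : Module.finrank ℝ (ℝ ∙ e) ≤ 1 := (finrank_span_le_card {e}).trans (by simp)
  have h2 := Submodule.finrank_add_finrank_orthogonal (ℝ ∙ e)
  have h3 : Module.finrank ℝ E3 = 3 := by simp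
  have h4 : (ℝ ∙ e)ᗮ ≠ ⊥ := by
    intro h
    rw [h, finrank_bot] at h2
    omega
  obtain ⟨v, hv, hv0⟩ := Submodule.exists_mem_ne_zero_of_ne_bot h4
  have hv' : (⟪v, e⟫ : ℝ) = 0 := Submodule.mem_orthogonal_singleton_iff_inner_left.1 hv
  have hn : 0 < ‖v‖ := norm_pos_iff.2 hv0
  refine ⟨(1 / 2 / ‖v‖) • v, ?_, ?_⟩
  · rw [inner_smul_left, hv', mul_zero]
  · rw [norm_smul, Real.norm_of_nonneg (by positivity)]
    field_simp

theorem Consts_fderiv_apply {f : E3 → ℝ} (x v : E3) : fderiv ℝ f x v = ⟪gradient f x, v⟫ := by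
  unfold gradient
  rw [toDual_symm_apply]

/-- The weight `96 wt(16|x-p|²)²`. -/
noncomputable def Consts_q (p x : E3) : ℝ := 96 * wt (‖x - p‖ ^ 2 / (1 / 4) ^ 2) ^ 2

theorem Consts_q_nonneg (p x : E3) : 0 ≤ Consts_q p x := by
  unfold Consts_q; positivity

theorem Consts_q_le (p x : E3) : Consts_q p x ≤ 96 := by
  unfold Consts_q
  have : wt (‖x - p‖ ^ 2 / (1 / 4) ^ 2) ^ 2 ≤ 1 :=
    pow_le_one₀ (Consts_wt_nonneg _) (Consts_wt_le_one (by positivity))
  linarith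

theorem Consts_q_zero {p x : E3} (hx : x ∉ ball p (1 / 4)) : Consts_q p x = 0 := by
  unfold Consts_q
  have h1 : 1 / 4 ≤ ‖x - p‖ := by
    rw [mem_ball, dist_eq_norm, not_lt] at hx
    exact hx
  have : wt (‖x - p‖ ^ 2 / (1 / 4) ^ 2) = 0 := by
    unfold wt
    refine max_eq_right ?_
    have : 1 ≤ ‖x - p‖ ^ 2 / (1 / 4) ^ 2 := by
      rw [le_div_iff₀ (by norm_num)]
      nlinarith only [h1]
    linarith only [this]
  rw [this]; norm_num

theorem Consts_q_cont (p : E3) : Continuous (Consts_q p) := by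
  unfold Consts_q
  have h : Continuous fun x : E3 => wt (‖x - p‖ ^ 2 / (1 / 4) ^ 2) :=
    Consts_continuous_wt.comp (by fun_prop)
  fun_prop

/-- The vector field `η e`. -/
noncomputable def Consts_X (p e x : E3) : E3 := wt (‖x - p‖ ^ 2 / (1 / 4) ^ 2) ^ 3 • e

theorem Consts_eta_contDiff (p : E3) :
    ContDiff ℝ 1 (fun x : E3 => wt (‖x - p‖ ^ 2 / (1 / 4) ^ 2) ^ 3) :=
  (contDiff_wt (y := p) (ρ := 1 / 4) 2).of_le (by norm_num)

theorem Consts_eta_grad (p x : E3) :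
    gradient (fun x : E3 => wt (‖x - p‖ ^ 2 / (1 / 4) ^ 2) ^ 3) x = -(Consts_q p x • (x - p)) := by
  have h := gradient_wt (y := p) (x := x) (ρ := 1 / 4) 1
  rw [show (1 + 2 : ℕ) = 3 from rfl, show (1 + 1 : ℕ) = 2 from rfl] at h
  rw [h]
  unfold Consts_q
  rw [← neg_smul]
  congr 1
  push_cast
  ring

theorem Consts_X_contDiff (p e : E3) : ContDiff ℝ 1 (Consts_X p e) :=
  (Consts_eta_contDiff p).smul contDiff_const

theorem Consts_X_supp (p e : E3) : HasCompactSupport (Consts_X p e) :=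
  (hasCompactSupport_wt (y := p) (ρ := 1 / 4) (by norm_num) (n := 3) (by norm_num)).smul_right

theorem Consts_X_tsupport (p e : E3) : tsupport (Consts_X p e) ⊆ closedBall p (1 / 4) := by
  have h1 : Function.support (Consts_X p e) ⊆ ball p (1 / 4) := by
    intro x hx
    refine support_wt_subset (y := p) (ρ := 1 / 4) (by norm_num) (n := 3) (by norm_num) ?_
    intro h0
    apply hx
    unfold Consts_X
    simp only at h0
    rw [h0, zero_smul]
  exact closure_minimal (h1.trans ball_subset_closedBall) isClosed_closedBall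

theorem Consts_X_divg {p e : E3} (hpe : ⟪p, e⟫ = (0 : ℝ)) (x : E3) :
    divg (Consts_X p e) x = -(Consts_q p x * ⟪x, e⟫) := by
  have h1 : DifferentiableAt ℝ (fun x : E3 => wt (‖x - p‖ ^ 2 / (1 / 4) ^ 2) ^ 3) x :=
    ((Consts_eta_contDiff p).differentiable one_ne_zero) x
  have h := divg_smul (f := fun x : E3 => wt (‖x - p‖ ^ 2 / (1 / 4) ^ 2) ^ 3)
    (X := fun _ => e) (x := x) h1 (differentiableAt_const e)
  have h0 : divg (fun _ : E3 => e) x = 0 := by
    unfold divg; simp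
  rw [Consts_eta_grad, h0, mul_zero, add_zero, inner_neg_left, inner_smul_left, inner_sub_left,
    hpe, sub_zero] at h
  exact h

theorem Consts_X_fderiv {p e : E3} (x v : E3) :
    fderiv ℝ (Consts_X p e) x v = (-(Consts_q p x * ⟪x - p, v⟫)) • e := by
  have h1 : DifferentiableAt ℝ (fun x : E3 => wt (‖x - p‖ ^ 2 / (1 / 4) ^ 2) ^ 3) x :=
    ((Consts_eta_contDiff p).differentiable one_ne_zero) x
  have h : HasFDerivAt (Consts_X p e)
      ((fderiv ℝ (fun x : E3 => wt (‖x - p‖ ^ 2 / (1 / 4) ^ 2) ^ 3) x).smulRight e) x :=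
    h1.hasFDerivAt.smul_const e
  rw [h.fderiv, ContinuousLinearMap.smulRight_apply, Consts_fderiv_apply, Consts_eta_grad,
    inner_neg_left, inner_smul_left]
  rfl

theorem Consts_alg {s L d a v xe : ℝ} (hs : 0 < s) (hL : 1 ≤ L) (hd : |d| ≤ L) (ha0 : 0 ≤ a)
    (ha : a ≤ 4 * L) (hx : s ≤ xe) (hu : |v - a * xe| ≤ s * xe) :
    |d ^ 2 - a ^ 2| ≤ 7 * L ^ 2 / s ^ 3 * (xe * d - v) ^ 2 + (1 + 5 * L) * s := by
  have hxe : 0 < xe := hs.trans_le hx
  set w := |xe * d - v| with hw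
  have hw0 : 0 ≤ w := abs_nonneg _
  have h1 : |d - a| ≤ w / s + s := by
    have e1 : xe * (d - a) = (xe * d - v) + (v - a * xe) := by ring
    have e2 : xe * |d - a| ≤ w + s * xe := by
      calc xe * |d - a| = |xe * (d - a)| := by rw [abs_mul, abs_of_pos hxe]
        _ ≤ |xe * d - v| + |v - a * xe| := by rw [e1]; exact abs_add_le _ _
        _ ≤ w + s * xe := by gcongr
    have e3 : |d - a| ≤ (w + s * xe) / xe := by
      rw [le_div_iff₀ hxe]; linarith
    calc |d - a| ≤ (w + s * xe) / xe := e3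
      _ = w / xe + s := by field_simp
      _ ≤ w / s + s := by gcongr
  have h2 : |d ^ 2 - a ^ 2| ≤ 5 * L * |d - a| := by
    have e1 : d ^ 2 - a ^ 2 = (d + a) * (d - a) := by ring
    rw [e1, abs_mul]
    gcongr
    calc |d + a| ≤ |d| + |a| := abs_add_le _ _
      _ ≤ L + 4 * L := by rw [abs_of_nonneg ha0]; gcongr
      _ = 5 * L := by ring
  have h3 : 5 * L * (w / s) ≤ 7 * L ^ 2 / s ^ 3 * w ^ 2 + s := by
    have e1 : 7 * L ^ 2 / s ^ 3 * w ^ 2 + s - 5 * L * (w / s) =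
        (s ^ 4 + 7 * L ^ 2 * w ^ 2 - 5 * L * w * s ^ 2) / s ^ 3 := by
      field_simp
      ring
    have e2 : 0 ≤ s ^ 4 + 7 * L ^ 2 * w ^ 2 - 5 * L * w * s ^ 2 := by
      nlinarith [sq_nonneg (s ^ 2 - 5 / 2 * (L * w)), mul_nonneg (sq_nonneg L) (sq_nonneg w)]
    have e3 : 0 ≤ 7 * L ^ 2 / s ^ 3 * w ^ 2 + s - 5 * L * (w / s) := by
      rw [e1]; positivity
    linarith only [e3]
  have h4 : w ^ 2 = (xe * d - v) ^ 2 := by rw [hw, sq_abs]
  calc |d ^ 2 - a ^ 2| ≤ 5 * L * |d - a| := h2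
    _ ≤ 5 * L * (w / s + s) := by gcongr
    _ = 5 * L * (w / s) + 5 * L * s := by ring
    _ ≤ (7 * L ^ 2 / s ^ 3 * w ^ 2 + s) + 5 * L * s := by gcongr
    _ = 7 * L ^ 2 / s ^ 3 * (xe * d - v) ^ 2 + (1 + 5 * L) * s := by rw [← h4]; ring

theorem Consts_alg2 {s L n : ℝ} (hs : 0 < s) : 2 * L * n ≤ s + L ^ 2 / s * n ^ 2 := by
  have e1 : s + L ^ 2 / s * n ^ 2 - 2 * L * n = (s - L * n) ^ 2 / s := by
    field_simp
    ring
  have : 0 ≤ (s - L * n) ^ 2 / s := by positivity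
  linarith

/-- pointwise estimate of the integrand of the translation identity -/
theorem Consts_pointwise {q s L d a b v xe i n pw : ℝ} (hq0 : 0 ≤ q) (hq : q ≤ 96) (hs : 0 < s)
    (hL : 1 ≤ L) (hd : |d| ≤ L) (ha0 : 0 ≤ a) (ha : a ≤ 4 * L) (hb0 : 0 ≤ b) (hb : b ≤ 4 * L)
    (hi0 : 0 ≤ i) (hi1 : i ≤ 1) (hxe : |xe| ≤ 1 / 4) (hpw : |pw| ≤ n / 4)
    (hua : s ≤ xe → |v - a * xe| ≤ s * xe ∧ i = 1)
    (hub : s ≤ -xe → |v - b * (-xe)| ≤ s * (-xe)) :
    |q * ((d ^ 2 - i - n ^ 2) * xe + 2 * d * pw) -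
      q * (if 0 < xe then (a ^ 2 - 1) * xe else b ^ 2 * xe)| ≤
    24 * ((2 + 17 * L ^ 2) * (if |xe| ≤ s then 1 else 0) + (if xe ≤ 0 then i else 0) +
      (1 + L ^ 2 / s) * n ^ 2 + 7 * L ^ 2 / s ^ 3 * (xe * d - v) ^ 2 + (2 + 5 * L) * s) := by
  have hL0 : 0 < L := by linarith
  have hd2 : d ^ 2 ≤ L ^ 2 := by
    rw [← sq_abs d]; gcongr
  have ha2 : a ^ 2 ≤ 16 * L ^ 2 := by nlinarith only [ha0, ha]
  have hb2 : b ^ 2 ≤ 16 * L ^ 2 := by nlinarith only [hb0, hb]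
  have hd20 : 0 ≤ d ^ 2 := sq_nonneg d
  have ha20 : 0 ≤ a ^ 2 := sq_nonneg a
  have hb20 : 0 ≤ b ^ 2 := sq_nonneg b
  set c : ℝ := if 0 < xe then a ^ 2 - 1 else b ^ 2 with hc
  have hce : (if 0 < xe then (a ^ 2 - 1) * xe else b ^ 2 * xe) = c * xe := by
    rw [hc]; split_ifs <;> rfl
  rw [hce]
  have e1 : q * ((d ^ 2 - i - n ^ 2) * xe + 2 * d * pw) - q * (c * xe) =
      q * ((d ^ 2 - i - c - n ^ 2) * xe + 2 * d * pw) := by ring
  have hn2 : 0 ≤ n ^ 2 := sq_nonneg n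
  have e2 : |(d ^ 2 - i - c - n ^ 2) * xe + 2 * d * pw| ≤
      (|d ^ 2 - i - c| + n ^ 2) * (1 / 4) + 2 * L * (n / 4) := by
    calc |(d ^ 2 - i - c - n ^ 2) * xe + 2 * d * pw|
        ≤ |(d ^ 2 - i - c - n ^ 2) * xe| + |2 * d * pw| := abs_add_le _ _
      _ = |d ^ 2 - i - c - n ^ 2| * |xe| + 2 * |d| * |pw| := by
          rw [abs_mul, abs_mul, abs_mul, abs_two]
      _ ≤ (|d ^ 2 - i - c| + n ^ 2) * (1 / 4) + 2 * L * (n / 4) := by
          have : |d ^ 2 - i - c - n ^ 2| ≤ |d ^ 2 - i - c| + n ^ 2 := by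
            calc |d ^ 2 - i - c - n ^ 2| ≤ |d ^ 2 - i - c| + |n ^ 2| := abs_sub _ _
              _ = _ := by rw [abs_of_nonneg hn2]
          gcongr
  have e3 : |d ^ 2 - i - c| ≤ (2 + 17 * L ^ 2) * (if |xe| ≤ s then 1 else 0) +
      (if xe ≤ 0 then i else 0) + (7 * L ^ 2 / s ^ 3 * (xe * d - v) ^ 2 + (1 + 5 * L) * s) := by
    have hnn : 0 ≤ 7 * L ^ 2 / s ^ 3 * (xe * d - v) ^ 2 + (1 + 5 * L) * s := by positivity
    have hii : 0 ≤ (if xe ≤ 0 then i else 0) := by split_ifs <;> simp [hi0]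
    by_cases h1 : |xe| ≤ s
    · rw [if_pos h1, mul_one]
      have : |d ^ 2 - i - c| ≤ 2 + 17 * L ^ 2 := by
        rw [hc, abs_le]
        split_ifs <;> constructor <;> nlinarith only [hi1, ha2, hi0, hd2, hb2]
      linarith
    · rw [if_neg h1, mul_zero, zero_add]
      push Not at h1
      rcases le_or_gt xe 0 with hx | hx
      · have hxs : s ≤ -xe := by
          rw [abs_of_nonpos hx] at h1; exact h1.le
        have hcb : c = b ^ 2 := by rw [hc, if_neg (not_lt.2 hx)]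
        have hk := Consts_alg (d := -d) hs hL (by rwa [abs_neg]) hb0 hb hxs (hub hxs)
        rw [neg_sq] at hk
        have hk' : (-xe * -d - v) ^ 2 = (xe * d - v) ^ 2 := by ring
        rw [hk'] at hk
        rw [if_pos hx, hcb]
        calc |d ^ 2 - i - b ^ 2| = |(d ^ 2 - b ^ 2) - i| := by ring_nf
          _ ≤ |d ^ 2 - b ^ 2| + |i| := abs_sub _ _
          _ ≤ _ := by rw [abs_of_nonneg hi0]; linarith
      · have hxs : s ≤ xe := by
          rw [abs_of_pos hx] at h1; exact h1.le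
        obtain ⟨hk1, hk2⟩ := hua hxs
        have hcb : c = a ^ 2 - 1 := by rw [hc, if_pos hx]
        have hk := Consts_alg hs hL hd ha0 ha hxs hk1
        rw [if_neg (not_le.2 hx), zero_add, hcb, hk2]
        calc |d ^ 2 - 1 - (a ^ 2 - 1)| = |d ^ 2 - a ^ 2| := by ring_nf
          _ ≤ _ := hk
  have e4 := Consts_alg2 (s := s) (L := L) (n := n) hs
  rw [e1, abs_mul, abs_of_nonneg hq0]
  have e5 : |(d ^ 2 - i - c - n ^ 2) * xe + 2 * d * pw| ≤
      1 / 4 * ((2 + 17 * L ^ 2) * (if |xe| ≤ s then 1 else 0) + (if xe ≤ 0 then i else 0) +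
      (1 + L ^ 2 / s) * n ^ 2 + 7 * L ^ 2 / s ^ 3 * (xe * d - v) ^ 2 + (2 + 5 * L) * s) := by
    nlinarith
  calc q * |(d ^ 2 - i - c - n ^ 2) * xe + 2 * d * pw| ≤ 96 * (1 / 4 *
      ((2 + 17 * L ^ 2) * (if |xe| ≤ s then 1 else 0) + (if xe ≤ 0 then i else 0) +
      (1 + L ^ 2 / s) * n ^ 2 + 7 * L ^ 2 / s ^ 3 * (xe * d - v) ^ 2 + (2 + 5 * L) * s)) := by
        gcongr
    _ = _ := by ring

theorem Consts_norm_Du_le {L κ τ : ℝ} {u : E3 → ℝ} (H : AlmostCone L κ τ u) (hL : 1 ≤ L)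
    {x : E3} (h1 : τ < ‖x‖) (h2 : ‖x‖ < 8) : ‖Du u x‖ ≤ L := by
  unfold Du
  split_ifs with h
  · exact H.lip x h1 h2 h
  · rw [norm_zero]; linarith

theorem Consts_translation {O : Set E3} {u : E3 → ℝ} (h : OnePhase O u) {p e : E3}
    (he : ‖e‖ = 1) (hpe : ⟪p, e⟫ = (0 : ℝ)) (hp : closedBall p (1 / 4) ⊆ O) :
    ∫ x in ball p (1 / 4), Consts_q p x *
      ((⟪Du u x, e⟫ ^ 2 - ind u x - ‖Du u x - ⟪Du u x, e⟫ • e‖ ^ 2) * ⟪x, e⟫ +
        2 * ⟪Du u x, e⟫ * ⟪x - p, Du u x - ⟪Du u x, e⟫ • e⟫) = 0 := by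
  have h1 := domainVariation h (Consts_X_contDiff p e) (Consts_X_supp p e)
    ((Consts_X_tsupport p e).trans hp)
  rw [setIntegral_eq_integral_of_forall_compl_eq_zero
    (fun x hx => by rw [Consts_q_zero hx, zero_mul]), ← h1]
  refine integral_congr_ae (Eventually.of_forall fun x => ?_)
  simp only
  rw [Consts_X_divg hpe, Consts_X_fderiv, inner_smul_right]
  set d : ℝ := ⟪Du u x, e⟫ with hd
  set w : E3 := Du u x - d • e with hw
  have hDu : Du u x = d • e + w := by rw [hw]; abel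
  have hwe : (⟪w, e⟫ : ℝ) = 0 := by
    rw [hw, inner_sub_left, inner_smul_left, real_inner_self_eq_norm_sq, he, ← hd]; simp
  have hwe' : (⟪e, w⟫ : ℝ) = 0 := by rw [real_inner_comm]; exact hwe
  have hn : ‖Du u x‖ ^ 2 = d ^ 2 + ‖w‖ ^ 2 := by
    rw [hDu, ← real_inner_self_eq_norm_sq, inner_add_left, inner_add_right, inner_add_right,
      inner_smul_left, inner_smul_left, inner_smul_right, inner_smul_right, hwe, hwe',
      real_inner_self_eq_norm_sq, real_inner_self_eq_norm_sq, he]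
    simp
    ring
  have hx : (⟪x - p, Du u x⟫ : ℝ) = d * ⟪x, e⟫ + ⟪x - p, w⟫ := by
    rw [hDu, inner_add_right, inner_smul_right, inner_sub_left x p e, hpe, sub_zero]
  rw [hn, hx]
  ring

theorem Consts_J_lower {p e : E3} (he : ‖e‖ = 1) (hpe : ⟪p, e⟫ = (0 : ℝ)) :
    3 / 4 * volume.real (ball (0 : E3) (1 / 32)) ≤
      ∫ x in ball p (1 / 4), Consts_q p x * max (⟪x, e⟫ : ℝ) 0 := by
  have hc : Continuous fun x : E3 => Consts_q p x * max (⟪x, e⟫ : ℝ) 0 :=
    (Consts_q_cont p).mul (by fun_prop)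
  have hi : IntegrableOn (fun x => Consts_q p x * max (⟪x, e⟫ : ℝ) 0) (ball p (1 / 4)) :=
    (hc.continuousOn.integrableOn_compact (isCompact_closedBall p (1 / 4))).mono_set
      ball_subset_closedBall
  set c : E3 := p + (1 / 16 : ℝ) • e with hcdef
  have hcp : ‖c - p‖ = 1 / 16 := by
    rw [hcdef, add_sub_cancel_left, norm_smul, he, mul_one]
    norm_num
  have hx : ∀ x ∈ ball c (1 / 32), ‖x - p‖ ≤ 3 / 32 ∧ 1 / 32 ≤ (⟪x, e⟫ : ℝ) := by
    intro x hx
    have h1 : ‖x - c‖ < 1 / 32 := by simpa [dist_eq_norm] using hx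
    constructor
    · calc ‖x - p‖ = ‖(x - c) + (c - p)‖ := by congr 1; abel
        _ ≤ ‖x - c‖ + ‖c - p‖ := norm_add_le _ _
        _ ≤ 3 / 32 := by rw [hcp]; linarith only [h1]
    · have h2 : (⟪x, e⟫ : ℝ) = ⟪x - c, e⟫ + ⟪c, e⟫ := by rw [← inner_add_left]; congr 1; abel
      have h3 : (⟪c, e⟫ : ℝ) = 1 / 16 := by
        rw [hcdef, inner_add_left, hpe, inner_smul_left, real_inner_self_eq_norm_sq, he]
        norm_num
      have h4 : |(⟪x - c, e⟫ : ℝ)| ≤ 1 / 32 := by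
        calc |(⟪x - c, e⟫ : ℝ)| ≤ ‖x - c‖ * ‖e‖ := abs_real_inner_le_norm _ _
          _ ≤ 1 / 32 := by rw [he, mul_one]; exact h1.le
      have h5 := (abs_le.1 h4).1
      rw [h2, h3]
      linarith only [h5]
  have hsub : ball c (1 / 32) ⊆ ball p (1 / 4) := by
    intro x hx'
    rw [mem_ball, dist_eq_norm]
    linarith only [(hx x hx').1]
  have hvol : volume.real (ball (0 : E3) (1 / 32)) = volume.real (ball c (1 / 32)) := by
    unfold Measure.real
    rw [Measure.addHaar_ball_center volume c (1 / 32)]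
  calc 3 / 4 * volume.real (ball (0 : E3) (1 / 32)) = ∫ x in ball c (1 / 32), (3 / 4 : ℝ) := by
        rw [setIntegral_const, smul_eq_mul, hvol]; ring
    _ ≤ ∫ x in ball c (1 / 32), Consts_q p x * max (⟪x, e⟫ : ℝ) 0 := by
        refine setIntegral_mono_on (integrableOn_const measure_ball_lt_top.ne)
          (hi.mono_set hsub) measurableSet_ball fun x hx' => ?_
        obtain ⟨h1, h2⟩ := hx x hx'
        have h3 : 24 ≤ Consts_q p x := by
          unfold Consts_q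
          have : 1 / 2 ≤ wt (‖x - p‖ ^ 2 / (1 / 4) ^ 2) := by
            unfold wt
            refine le_max_of_le_left ?_
            have : ‖x - p‖ ^ 2 ≤ (3 / 32) ^ 2 := by gcongr
            have h5 : ‖x - p‖ ^ 2 / (1 / 4) ^ 2 ≤ (3 / 32) ^ 2 / (1 / 4) ^ 2 := by gcongr
            have h6 : ((3 : ℝ) / 32) ^ 2 / (1 / 4) ^ 2 ≤ 1 / 2 := by norm_num
            linarith only [h5]
          have : (1 / 2 : ℝ) ^ 2 ≤ wt (‖x - p‖ ^ 2 / (1 / 4) ^ 2) ^ 2 := by gcongr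
          linarith only [this]
        have h4 : 1 / 32 ≤ max (⟪x, e⟫ : ℝ) 0 := le_max_of_le_left h2
        calc (3 / 4 : ℝ) = 24 * (1 / 32) := by norm_num
          _ ≤ Consts_q p x * max (⟪x, e⟫ : ℝ) 0 := by gcongr
    _ ≤ ∫ x in ball p (1 / 4), Consts_q p x * max (⟪x, e⟫ : ℝ) 0 :=
        setIntegral_mono_set hi (Eventually.of_forall fun x =>
          mul_nonneg (Consts_q_nonneg p x) (le_max_right _ _)) (Eventually.of_forall hsub)

theorem Consts_core {L κ τ s a b : ℝ} {u : E3 → ℝ} {e : E3} (hL : 1 ≤ L) (hs : 0 < s)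
    (hs1 : s ≤ 1) (hτ : 0 < τ) (hτs : τ ≤ s) (hτ8 : τ ≤ 1 / 8) (hκ : κ ≤ s ^ 4)
    (he : ‖e‖ = 1) (H : AlmostCone L κ τ u)
    (h1 : ∫ x in ball 0 4 \ closedBall 0 τ, ‖Du u x - ⟪Du u x, e⟫ • e‖ ^ 2 ≤ κ)
    (h2 : ∫ x in ball 0 4 \ closedBall 0 τ, (⟪x, e⟫ * ⟪Du u x, e⟫ - u x) ^ 2 ≤ κ)
    (ha0 : 0 ≤ a) (hb0 : 0 ≤ b) (ha : a ≤ 4 * L) (hb : b ≤ 4 * L)
    (hda : ∀ x : E3, ‖x‖ ≤ 3 → s ≤ ⟪x, e⟫ → |u x - a * ⟪x, e⟫| ≤ s * ⟪x, e⟫)
    (hdb : ∀ x : E3, ‖x‖ ≤ 3 → s ≤ ⟪x, -e⟫ → |u x - b * ⟪x, -e⟫| ≤ s * ⟪x, -e⟫)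
    (has : s < a) :
    |a ^ 2 - 1 - b ^ 2| * (3 / 4 * volume.real (ball (0 : E3) (1 / 32))) ≤
      17000 * L ^ 2 * s := by
  classical
  have hO := H.onePhase
  set O : Set E3 := {x | τ < ‖x‖ ∧ ‖x‖ < 8} with hOdef
  set A : Set E3 := ball 0 4 \ closedBall 0 τ with hAdef
  have hAm : MeasurableSet A := measurableSet_ball.diff measurableSet_closedBall
  have hAO : A ⊆ O := by
    intro x hx
    have h1 : ‖x‖ < 4 := by simpa using hx.1
    have h2 : τ < ‖x‖ := by simpa using hx.2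
    exact ⟨h2, by linarith only [h1]⟩
  have hAfin : volume A ≠ ⊤ :=
    ((measure_mono sdiff_subset).trans_lt measure_ball_lt_top).ne
  obtain ⟨p, hpe, hpn⟩ := Consts_exists_perp e
  set S : Set E3 := ball p (1 / 4) with hSdef
  have hSm : MeasurableSet S := measurableSet_ball
  have hSnorm : ∀ x ∈ closedBall p (1 / 4), 1 / 4 ≤ ‖x‖ ∧ ‖x‖ ≤ 3 / 4 := by
    intro x hx
    have h1 : ‖x - p‖ ≤ 1 / 4 := by simpa [dist_eq_norm] using hx
    have h2 : ‖p‖ ≤ ‖x‖ + ‖x - p‖ := by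
      calc ‖p‖ = ‖x - (x - p)‖ := by congr 1; abel
        _ ≤ _ := norm_sub_le _ _
    have h3 : ‖x‖ ≤ ‖p‖ + ‖x - p‖ := by
      calc ‖x‖ = ‖p + (x - p)‖ := by congr 1; abel
        _ ≤ _ := norm_add_le _ _
    constructor <;> linarith
  have hcBO : closedBall p (1 / 4) ⊆ O := by
    intro x hx
    obtain ⟨h1, h2⟩ := hSnorm x hx
    exact ⟨by linarith only [hτ8, h1], by linarith only [hτ, hτ8, h2]⟩
  have hSA : S ⊆ A := by
    intro x hx
    obtain ⟨h1, h2⟩ := hSnorm x (ball_subset_closedBall hx)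
    refine ⟨by simp; linarith, by simp; linarith only [hτ8, h1]⟩
  have hSO : S ⊆ O := hSA.trans hAO
  have hSfin : volume S ≠ ⊤ := measure_ball_lt_top.ne
  have hSvol : volume.real S ≤ 1 / 8 := by
    calc volume.real S ≤ volume.real (closedBall p (1 / 4)) :=
          measureReal_mono ball_subset_closedBall measure_closedBall_lt_top.ne
      _ ≤ 8 * (1 / 4) ^ 3 := volume_ball_le (by norm_num)
      _ = 1 / 8 := by norm_num
  have hDm : AEStronglyMeasurable (Du u) (volume.restrict A) := Consts_aesm_Du hO hAm hAO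
  have hum : AEStronglyMeasurable u (volume.restrict A) :=
    (hO.cont.mono hAO).aestronglyMeasurable hAm
  have hdm : AEStronglyMeasurable (fun x => (⟪Du u x, e⟫ : ℝ)) (volume.restrict A) :=
    hDm.inner aestronglyMeasurable_const
  have hwm : AEStronglyMeasurable (fun x => Du u x - (⟪Du u x, e⟫ : ℝ) • e)
      (volume.restrict A) := hDm.sub (hdm.smul aestronglyMeasurable_const)
  have hxem : AEStronglyMeasurable (fun x : E3 => (⟪x, e⟫ : ℝ)) (volume.restrict A) :=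
    (by fun_prop : Continuous fun x : E3 => (⟪x, e⟫ : ℝ)).aestronglyMeasurable
  have hDu : ∀ x ∈ A, ‖Du u x‖ ≤ L := fun x hx => Consts_norm_Du_le H hL (hAO hx).1 (hAO hx).2
  have hd : ∀ x ∈ A, |(⟪Du u x, e⟫ : ℝ)| ≤ L := by
    intro x hx
    calc |(⟪Du u x, e⟫ : ℝ)| ≤ ‖Du u x‖ * ‖e‖ := abs_real_inner_le_norm _ _
      _ ≤ L * 1 := by rw [he]; gcongr; exact hDu x hx
      _ = L := mul_one L
  have hw : ∀ x ∈ A, ‖Du u x - (⟪Du u x, e⟫ : ℝ) • e‖ ≤ 2 * L := by
    intro x hx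
    calc ‖Du u x - (⟪Du u x, e⟫ : ℝ) • e‖ ≤ ‖Du u x‖ + ‖(⟪Du u x, e⟫ : ℝ) • e‖ := norm_sub_le _ _
      _ = ‖Du u x‖ + |(⟪Du u x, e⟫ : ℝ)| := by rw [norm_smul, he, mul_one, Real.norm_eq_abs]
      _ ≤ L + L := add_le_add (hDu x hx) (hd x hx)
      _ = 2 * L := by ring
  have hxe : ∀ x : E3, |(⟪x, e⟫ : ℝ)| ≤ ‖x‖ := by
    intro x
    calc |(⟪x, e⟫ : ℝ)| ≤ ‖x‖ * ‖e‖ := abs_real_inner_le_norm _ _
      _ = ‖x‖ := by rw [he, mul_one]
  -- integrability on A
  have hi3 : IntegrableOn (fun x => ‖Du u x - (⟪Du u x, e⟫ : ℝ) • e‖ ^ 2) A := by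
    refine Consts_intOn (M := (2 * L) ^ 2) hAm hAfin (hwm.norm.pow 2) fun x hx => ?_
    rw [abs_of_nonneg (by positivity)]
    gcongr
    exact hw x hx
  have hi4 : IntegrableOn (fun x => (⟪x, e⟫ * ⟪Du u x, e⟫ - u x) ^ 2) A := by
    refine Consts_intOn (M := (4 * L + 8 * L) ^ 2) hAm hAfin (((hxem.mul hdm).sub hum).pow 2)
      fun x hx => ?_
    rw [abs_of_nonneg (by positivity), ← sq_abs]
    gcongr
    have hx4 : ‖x‖ ≤ 4 := by
      have : ‖x‖ < 4 := by simpa using hx.1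
      exact this.le
    calc |(⟪x, e⟫ * ⟪Du u x, e⟫ - u x : ℝ)| ≤ |(⟪x, e⟫ * ⟪Du u x, e⟫ : ℝ)| + |u x| := abs_sub _ _
      _ ≤ 4 * L + 8 * L := by
        rw [abs_mul]
        have hu : |u x| ≤ 8 * L := by
          rw [abs_of_nonneg (hO.nonneg x (hAO hx))]
          exact H.bound x (hAO hx).1 (hAO hx).2
        have := hd x hx
        have := (hxe x).trans hx4
        gcongr
  have hHm : MeasurableSet {x : E3 | (⟪x, e⟫ : ℝ) ≤ 0} :=
    (isClosed_le (by fun_prop : Continuous fun x : E3 => (⟪x, e⟫ : ℝ))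
      continuous_const).measurableSet
  have hSlc : IsClosed {x : E3 | ‖x‖ ≤ 1 ∧ |(⟪x, e⟫ : ℝ)| ≤ s} :=
    (isClosed_le continuous_norm continuous_const).inter
      (isClosed_le (by fun_prop : Continuous fun x : E3 => (⟪x, e⟫ : ℝ)).abs continuous_const)
  set Sl : Set E3 := {x : E3 | ‖x‖ ≤ 1 ∧ |(⟪x, e⟫ : ℝ)| ≤ s} with hSl
  have hSlb : Sl ⊆ closedBall 0 1 := fun x hx => by simpa using hx.1
  have hSlfin : volume Sl ≠ ⊤ :=
    ((measure_mono hSlb).trans_lt measure_closedBall_lt_top).ne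
  -- the five integrals over S
  have j1 : ∫ x in S, Sl.indicator (fun _ => (1 : ℝ)) x ≤ 8 * s := by
    have i4 : Integrable (Sl.indicator (fun _ => (1 : ℝ))) :=
      (integrable_indicator_iff hSlc.measurableSet).2 (integrableOn_const hSlfin)
    calc ∫ x in S, Sl.indicator (fun _ => (1 : ℝ)) x ≤ ∫ x, Sl.indicator (fun _ => (1 : ℝ)) x :=
          setIntegral_le_integral i4
            (Eventually.of_forall fun x => indicator_nonneg (fun _ _ => zero_le_one) x)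
      _ = volume.real Sl := by rw [integral_indicator hSlc.measurableSet]; simp
      _ ≤ 8 * 1 ^ 2 * s := volume_slab he zero_le_one hs.le
      _ = 8 * s := by ring
  have hsideA := Consts_vol_side hO hAm hAO hAfin hτ.le hs.le
    (fun x h1 h2 => ⟨by simp; linarith, by simpa using h1⟩) he
    (fun x h1 h2 _ => by
      have h3 := hda x (by linarith) h2
      have h4 : 0 < (⟪x, e⟫ : ℝ) := hs.trans_le h2
      have h5 := (abs_le.1 h3).1
      nlinarith only [hs, has, h2, h5])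
  have jneg : ∫ x in A ∩ {x | (⟪x, e⟫ : ℝ) ≤ 0}, wt (‖x‖ ^ 2) ^ 4 * ind u x ≤
      κ + 8 * τ ^ 3 + 8 * s := by
    have hv := (abs_le.1 H.vol0).2
    have hsplit : ∫ x in A, wt (‖x‖ ^ 2) ^ 4 * ind u x =
        (∫ x in A ∩ {x | (⟪x, e⟫ : ℝ) ≤ 0}, wt (‖x‖ ^ 2) ^ 4 * ind u x) +
        ∫ x in A ∩ {x | 0 < (⟪x, e⟫ : ℝ)}, wt (‖x‖ ^ 2) ^ 4 * ind u x := by
      rw [← setIntegral_union]
      · congr 2
        ext x
        simp only [mem_union, mem_inter_iff, mem_ofPred_eq]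
        constructor
        · intro hx
          rcases le_or_gt (⟪x, e⟫ : ℝ) 0 with h | h
          · exact Or.inl ⟨hx, h⟩
          · exact Or.inr ⟨hx, h⟩
        · rintro (h | h)
          · exact h.1
          · exact h.1
      · rw [Set.disjoint_left]
        intro x hx hx'
        exact (not_lt.2 (show (⟪x, e⟫ : ℝ) ≤ 0 from hx.2)) (show 0 < (⟪x, e⟫ : ℝ) from hx'.2)
      · exact hAm.inter (isOpen_lt continuous_const
          (by fun_prop : Continuous fun x : E3 => (⟪x, e⟫ : ℝ))).measurableSet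
      · exact (Consts_g_ind_intOn hO hAm hAO hAfin).mono_set inter_subset_left
      · exact (Consts_g_ind_intOn hO hAm hAO hAfin).mono_set inter_subset_left
    rw [hsplit] at hv
    linarith only [hsideA, hv]
  have i2 : IntegrableOn (fun x => if (⟪x, e⟫ : ℝ) ≤ 0 then ind u x else 0) S := by
    have : (fun x => if (⟪x, e⟫ : ℝ) ≤ 0 then ind u x else 0) =
        {x : E3 | (⟪x, e⟫ : ℝ) ≤ 0}.indicator (ind u) := by
      funext x; simp [indicator]
    rw [this]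
    refine IntegrableOn.indicator ?_ hHm
    refine Consts_intOn (M := 1) hSm hSfin (Consts_aesm_ind hO hSm hSO) fun x _ => ?_
    rw [abs_of_nonneg (Consts_ind_nonneg u x)]
    exact Consts_ind_le_one u x
  have j2 : ∫ x in S, (if (⟪x, e⟫ : ℝ) ≤ 0 then ind u x else 0) ≤
      32 * (κ + 8 * τ ^ 3 + 8 * s) := by
    have hgi : IntegrableOn ({x : E3 | (⟪x, e⟫ : ℝ) ≤ 0}.indicator
        (fun x => wt (‖x‖ ^ 2) ^ 4 * ind u x)) A :=
      (Consts_g_ind_intOn hO hAm hAO hAfin).indicator hHm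
    have hgn : ∀ x, 0 ≤ {x : E3 | (⟪x, e⟫ : ℝ) ≤ 0}.indicator
        (fun x => wt (‖x‖ ^ 2) ^ 4 * ind u x) x := fun x =>
      indicator_nonneg (fun x _ => mul_nonneg (pow_nonneg (Consts_wt_nonneg _) _)
        (Consts_ind_nonneg u x)) x
    calc ∫ x in S, (if (⟪x, e⟫ : ℝ) ≤ 0 then ind u x else 0) ≤
        ∫ x in S, 32 * {x : E3 | (⟪x, e⟫ : ℝ) ≤ 0}.indicator
          (fun x => wt (‖x‖ ^ 2) ^ 4 * ind u x) x := by
          refine setIntegral_mono_on i2 ((hgi.mono_set hSA).const_mul 32) hSm fun x hx => ?_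
          by_cases hx0 : (⟪x, e⟫ : ℝ) ≤ 0
          · rw [if_pos hx0, indicator_of_mem (show x ∈ {x : E3 | (⟪x, e⟫ : ℝ) ≤ 0} from hx0)]
            have hn := (hSnorm x (ball_subset_closedBall hx)).2
            have hw1 : 7 / 16 ≤ wt (‖x‖ ^ 2) := by
              unfold wt
              refine le_max_of_le_left ?_
              nlinarith only [hn, norm_nonneg x]
            have hw2 : (7 / 16 : ℝ) ^ 4 ≤ wt (‖x‖ ^ 2) ^ 4 := by gcongr
            have hw3 : 1 ≤ 32 * wt (‖x‖ ^ 2) ^ 4 := by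
              have : (1 : ℝ) ≤ 32 * (7 / 16) ^ 4 := by norm_num
              linarith only [hw2]
            have := Consts_ind_nonneg u x
            nlinarith only [hw2, this]
          · rw [if_neg hx0, indicator_of_notMem (show x ∉ {x : E3 | (⟪x, e⟫ : ℝ) ≤ 0} from hx0)]
            simp
      _ = 32 * ∫ x in S, {x : E3 | (⟪x, e⟫ : ℝ) ≤ 0}.indicator
          (fun x => wt (‖x‖ ^ 2) ^ 4 * ind u x) x := integral_const_mul _ _
      _ ≤ 32 * ∫ x in A, {x : E3 | (⟪x, e⟫ : ℝ) ≤ 0}.indicator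
          (fun x => wt (‖x‖ ^ 2) ^ 4 * ind u x) x := by
          exact mul_le_mul_of_nonneg_left (setIntegral_mono_set hgi (Eventually.of_forall hgn)
            (Eventually.of_forall hSA)) (by norm_num)
      _ = 32 * ∫ x in A ∩ {x | (⟪x, e⟫ : ℝ) ≤ 0}, wt (‖x‖ ^ 2) ^ 4 * ind u x := by
          rw [setIntegral_indicator hHm]
      _ ≤ _ := by gcongr
  have j3 : ∫ x in S, ‖Du u x - (⟪Du u x, e⟫ : ℝ) • e‖ ^ 2 ≤ κ :=
    (setIntegral_mono_set hi3 (Eventually.of_forall fun x => sq_nonneg _)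
      (Eventually.of_forall hSA)).trans h1
  have j4 : ∫ x in S, (⟪x, e⟫ * ⟪Du u x, e⟫ - u x) ^ 2 ≤ κ :=
    (setIntegral_mono_set hi4 (Eventually.of_forall fun x => sq_nonneg _)
      (Eventually.of_forall hSA)).trans h2
  -- the functions
  set F : E3 → ℝ := fun x => Consts_q p x *
      ((⟪Du u x, e⟫ ^ 2 - ind u x - ‖Du u x - ⟪Du u x, e⟫ • e‖ ^ 2) * ⟪x, e⟫ +
        2 * ⟪Du u x, e⟫ * ⟪x - p, Du u x - ⟪Du u x, e⟫ • e⟫) with hF
  set G : E3 → ℝ := fun x => Consts_q p x *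
      (if 0 < (⟪x, e⟫ : ℝ) then (a ^ 2 - 1) * ⟪x, e⟫ else b ^ 2 * ⟪x, e⟫) with hG
  set Bd : E3 → ℝ := fun x => 24 * ((2 + 17 * L ^ 2) * Sl.indicator (fun _ => (1 : ℝ)) x +
      (if (⟪x, e⟫ : ℝ) ≤ 0 then ind u x else 0) +
      (1 + L ^ 2 / s) * ‖Du u x - (⟪Du u x, e⟫ : ℝ) • e‖ ^ 2 +
      7 * L ^ 2 / s ^ 3 * (⟪x, e⟫ * ⟪Du u x, e⟫ - u x) ^ 2 + (2 + 5 * L) * s) with hBd
  have hFint : ∫ x in S, F x = 0 := Consts_translation hO he hpe hcBO
  have hle : ∀ x ∈ S, |F x - G x| ≤ Bd x := by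
    intro x hx
    have hxp : ‖x - p‖ ≤ 1 / 4 := by
      have : ‖x - p‖ < 1 / 4 := by simpa [hSdef, dist_eq_norm] using hx
      exact this.le
    obtain ⟨hn1, hn2⟩ := hSnorm x (ball_subset_closedBall hx)
    have hxe4 : |(⟪x, e⟫ : ℝ)| ≤ 1 / 4 := by
      have : (⟪x, e⟫ : ℝ) = ⟪x - p, e⟫ := by rw [inner_sub_left, hpe, sub_zero]
      rw [this]
      exact (hxe _).trans hxp
    have hpw : |(⟪x - p, Du u x - (⟪Du u x, e⟫ : ℝ) • e⟫ : ℝ)| ≤
        ‖Du u x - (⟪Du u x, e⟫ : ℝ) • e‖ / 4 := by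
      calc _ ≤ ‖x - p‖ * ‖Du u x - (⟪Du u x, e⟫ : ℝ) • e‖ := abs_real_inner_le_norm _ _
        _ ≤ 1 / 4 * ‖Du u x - (⟪Du u x, e⟫ : ℝ) • e‖ := by gcongr
        _ = _ := by ring
    have key := Consts_pointwise (q := Consts_q p x) (s := s) (L := L)
      (d := ⟪Du u x, e⟫) (a := a) (b := b) (v := u x) (xe := ⟪x, e⟫) (i := ind u x)
      (n := ‖Du u x - (⟪Du u x, e⟫ : ℝ) • e‖)
      (pw := ⟪x - p, Du u x - (⟪Du u x, e⟫ : ℝ) • e⟫)
      (Consts_q_nonneg p x) (Consts_q_le p x) hs hL (hd x (hSA hx)) ha0 ha hb0 hb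
      (Consts_ind_nonneg u x) (Consts_ind_le_one u x) hxe4 hpw
      (fun h => by
        have h3 := hda x (by linarith) h
        refine ⟨h3, ?_⟩
        have h4 : 0 < (⟪x, e⟫ : ℝ) := hs.trans_le h
        have h5 := (abs_le.1 h3).1
        have : 0 < u x := by nlinarith only [hs, has, h, h5]
        unfold ind
        rw [if_pos this])
      (fun h => by
        have h3 := hdb x (by linarith) (by rw [inner_neg_right]; exact h)
        rw [inner_neg_right] at h3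
        exact h3)
    have hind : (if |(⟪x, e⟫ : ℝ)| ≤ s then (1 : ℝ) else 0) = Sl.indicator (fun _ => (1 : ℝ)) x := by
      by_cases h : |(⟪x, e⟫ : ℝ)| ≤ s
      · rw [if_pos h, indicator_of_mem (show x ∈ Sl from ⟨by linarith, h⟩)]
      · rw [if_neg h, indicator_of_notMem (fun h' => h h'.2)]
    rw [hind] at key
    exact key
  have hqc := Consts_q_cont p
  have hpwm : AEStronglyMeasurable (fun x => (⟪x - p, Du u x - (⟪Du u x, e⟫ : ℝ) • e⟫ : ℝ))
      (volume.restrict A) :=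
    (by fun_prop : Continuous fun x : E3 => x - p).aestronglyMeasurable.inner hwm
  have hSAr : volume.restrict S ≤ volume.restrict A := Measure.restrict_mono hSA le_rfl
  have hFm : AEStronglyMeasurable F (volume.restrict S) := by
    refine AEStronglyMeasurable.mono_measure ?_ hSAr
    refine hqc.aestronglyMeasurable.mul ?_
    exact ((((hdm.pow 2).sub (Consts_aesm_ind hO hAm hAO)).sub (hwm.norm.pow 2)).mul hxem).add
      ((hdm.const_mul 2).mul hpwm)
  have hGm : AEStronglyMeasurable G (volume.restrict S) := by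
    have : Measurable G := by
      refine hqc.measurable.mul (Measurable.ite ?_ ?_ ?_)
      · exact (isOpen_lt continuous_const
          (by fun_prop : Continuous fun x : E3 => (⟪x, e⟫ : ℝ))).measurableSet
      · exact (by fun_prop : Continuous fun x : E3 => (a ^ 2 - 1) * (⟪x, e⟫ : ℝ)).measurable
      · exact (by fun_prop : Continuous fun x : E3 => b ^ 2 * (⟪x, e⟫ : ℝ)).measurable
    exact this.aestronglyMeasurable
  have k1 : IntegrableOn (Sl.indicator (fun _ => (1 : ℝ))) S :=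
    ((integrable_indicator_iff hSlc.measurableSet).2 (integrableOn_const hSlfin)).integrableOn
  have k3 := hi3.mono_set hSA
  have k4 := hi4.mono_set hSA
  have k5 : IntegrableOn (fun _ : E3 => (2 + 5 * L) * s) S := integrableOn_const hSfin
  have hBi : IntegrableOn Bd S :=
    (((((k1.const_mul (2 + 17 * L ^ 2)).add i2).add (k3.const_mul (1 + L ^ 2 / s))).add
      (k4.const_mul (7 * L ^ 2 / s ^ 3))).add k5).const_mul 24
  have hFGi : IntegrableOn (fun x => F x - G x) S := by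
    refine Integrable.mono' hBi (hFm.sub hGm) ?_
    filter_upwards [ae_restrict_mem hSm] with x hx
    exact hle x hx
  have hGi : IntegrableOn G S := by
    refine Consts_intOn (M := 96 * ((a ^ 2 + 1 + b ^ 2) * (3 / 4))) hSm hSfin hGm fun x hx => ?_
    rw [hG]
    simp only
    rw [abs_mul, abs_of_nonneg (Consts_q_nonneg p x)]
    have hx34 : |(⟪x, e⟫ : ℝ)| ≤ 3 / 4 :=
      (hxe x).trans (hSnorm x (ball_subset_closedBall hx)).2
    refine mul_le_mul (Consts_q_le p x) ?_ (abs_nonneg _) (by norm_num)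
    have hb2 : 0 ≤ b ^ 2 := sq_nonneg b
    have ha2 : 0 ≤ a ^ 2 := sq_nonneg a
    split_ifs
    · rw [abs_mul]
      refine mul_le_mul ?_ hx34 (abs_nonneg _) (by positivity)
      rw [abs_le]; constructor <;> linarith
    · rw [abs_mul]
      refine mul_le_mul ?_ hx34 (abs_nonneg _) (by positivity)
      rw [abs_of_nonneg hb2]; linarith
  have hFi : IntegrableOn F S := by
    have := hFGi.add hGi
    refine this.congr (Eventually.of_forall fun x => ?_)
    simp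
  -- the main inequality
  have m1 : |∫ x in S, G x| ≤ ∫ x in S, Bd x := by
    have e1 : ∫ x in S, (F x - G x) = -∫ x in S, G x := by
      rw [integral_sub hFi hGi, hFint, zero_sub]
    calc |∫ x in S, G x| = |∫ x in S, (F x - G x)| := by rw [e1, abs_neg]
      _ ≤ ∫ x in S, |F x - G x| := abs_integral_le_integral_abs
      _ ≤ ∫ x in S, Bd x := setIntegral_mono_on hFGi.abs hBi hSm hle
  have m2 : ∫ x in S, Bd x ≤ 17000 * L ^ 2 * s := by
    have e1 : ∫ x in S, Bd x = 24 * ((2 + 17 * L ^ 2) * (∫ x in S, Sl.indicator (fun _ => (1 : ℝ)) x) +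
        (∫ x in S, (if (⟪x, e⟫ : ℝ) ≤ 0 then ind u x else 0)) +
        (1 + L ^ 2 / s) * (∫ x in S, ‖Du u x - (⟪Du u x, e⟫ : ℝ) • e‖ ^ 2) +
        7 * L ^ 2 / s ^ 3 * (∫ x in S, (⟪x, e⟫ * ⟪Du u x, e⟫ - u x) ^ 2) +
        volume.real S * ((2 + 5 * L) * s)) := by
      rw [hBd, integral_const_mul]
      congr 1
      have c1 := k1.const_mul (2 + 17 * L ^ 2)
      have c3 := k3.const_mul (1 + L ^ 2 / s)
      have c4 := k4.const_mul (7 * L ^ 2 / s ^ 3)
      have s1 := integral_add (((c1.add i2).add c3).add c4) k5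
      have s2 := integral_add ((c1.add i2).add c3) c4
      have s3 := integral_add (c1.add i2) c3
      have s4 := integral_add c1 i2
      simp only [Pi.add_apply] at s1 s2 s3 s4
      rw [s1, s2, s3, s4, integral_const_mul, integral_const_mul, integral_const_mul,
        setIntegral_const, smul_eq_mul]
    rw [e1]
    have hL2 : 0 < L ^ 2 := by positivity
    have hτ3 : τ ^ 3 ≤ s := by
      calc τ ^ 3 ≤ τ ^ 1 := pow_le_pow_of_le_one hτ.le (by linarith) (by norm_num)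
        _ = τ := pow_one _
        _ ≤ s := hτs
    have hκs : κ ≤ s := hκ.trans (by
      calc s ^ 4 ≤ s ^ 1 := pow_le_pow_of_le_one hs.le hs1 (by norm_num)
        _ = s := pow_one _)
    have t3 : (1 + L ^ 2 / s) * (∫ x in S, ‖Du u x - (⟪Du u x, e⟫ : ℝ) • e‖ ^ 2) ≤
        (1 + L ^ 2) * s := by
      calc _ ≤ (1 + L ^ 2 / s) * s ^ 4 := by
            gcongr
            exact j3.trans hκ
        _ = s ^ 4 + L ^ 2 * s ^ 3 := by field_simp
        _ ≤ s ^ 1 + L ^ 2 * s ^ 1 := by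
            gcongr ?_ + L ^ 2 * ?_
            · exact pow_le_pow_of_le_one hs.le hs1 (by norm_num)
            · exact pow_le_pow_of_le_one hs.le hs1 (by norm_num)
        _ = (1 + L ^ 2) * s := by ring
    have t4 : 7 * L ^ 2 / s ^ 3 * (∫ x in S, (⟪x, e⟫ * ⟪Du u x, e⟫ - u x) ^ 2) ≤
        7 * L ^ 2 * s := by
      calc _ ≤ 7 * L ^ 2 / s ^ 3 * s ^ 4 := by
            gcongr
            exact j4.trans hκ
        _ = 7 * L ^ 2 * s := by field_simp
    have t1 : (2 + 17 * L ^ 2) * (∫ x in S, Sl.indicator (fun _ => (1 : ℝ)) x) ≤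
        (2 + 17 * L ^ 2) * (8 * s) := by gcongr
    have t2 : ∫ x in S, (if (⟪x, e⟫ : ℝ) ≤ 0 then ind u x else 0) ≤ 544 * s := by
      linarith
    have t5 : volume.real S * ((2 + 5 * L) * s) ≤ 1 / 8 * ((2 + 5 * L) * s) := by gcongr
    have hLL : L ≤ L ^ 2 := by nlinarith only [hL]
    have h1L : 1 ≤ L ^ 2 := by nlinarith only [hL]
    have hLs : L * s ≤ L ^ 2 * s := by gcongr
    have h1s : s ≤ L ^ 2 * s := by nlinarith only [hL, hLs]
    nlinarith
  have m3 : ∫ x in S, G x = (a ^ 2 - 1 - b ^ 2) *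
      ∫ x in S, Consts_q p x * max (⟪x, e⟫ : ℝ) 0 := by
    have hq1 : IntegrableOn (fun x => Consts_q p x * max (⟪x, e⟫ : ℝ) 0) S := by
      have hc : Continuous fun x : E3 => Consts_q p x * max (⟪x, e⟫ : ℝ) 0 :=
        hqc.mul (by fun_prop)
      exact (hc.continuousOn.integrableOn_compact (isCompact_closedBall p (1 / 4))).mono_set
        ball_subset_closedBall
    have hq2 : IntegrableOn (fun x => Consts_q p x * (⟪x, e⟫ : ℝ)) S := by
      have hc : Continuous fun x : E3 => Consts_q p x * (⟪x, e⟫ : ℝ) :=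
        hqc.mul (by fun_prop)
      exact (hc.continuousOn.integrableOn_compact (isCompact_closedBall p (1 / 4))).mono_set
        ball_subset_closedBall
    have hz : ∫ x in S, Consts_q p x * (⟪x, e⟫ : ℝ) = 0 := by
      rw [setIntegral_eq_integral_of_forall_compl_eq_zero
        (fun x hx => by rw [Consts_q_zero hx, zero_mul])]
      have h0 := integral_divg (Consts_X_contDiff p e) (Consts_X_supp p e)
      simp_rw [Consts_X_divg hpe] at h0
      rw [integral_neg] at h0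
      linarith
    have e1 : ∀ x, G x = (a ^ 2 - 1 - b ^ 2) * (Consts_q p x * max (⟪x, e⟫ : ℝ) 0) +
        b ^ 2 * (Consts_q p x * (⟪x, e⟫ : ℝ)) := by
      intro x
      rw [hG]
      simp only
      split_ifs with h
      · rw [max_eq_left h.le]; ring
      · rw [max_eq_right (not_lt.1 h)]; ring
    calc ∫ x in S, G x = ∫ x in S, ((a ^ 2 - 1 - b ^ 2) * (Consts_q p x * max (⟪x, e⟫ : ℝ) 0) +
        b ^ 2 * (Consts_q p x * (⟪x, e⟫ : ℝ))) := by
          exact integral_congr_ae (Eventually.of_forall e1)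
      _ = _ := by
          rw [integral_add (hq1.const_mul _) (hq2.const_mul _), integral_const_mul,
            integral_const_mul, hz, mul_zero, add_zero]
  have m4 : 3 / 4 * volume.real (ball (0 : E3) (1 / 32)) ≤
      ∫ x in S, Consts_q p x * max (⟪x, e⟫ : ℝ) 0 := Consts_J_lower he hpe
  calc |a ^ 2 - 1 - b ^ 2| * (3 / 4 * volume.real (ball (0 : E3) (1 / 32)))
      ≤ |a ^ 2 - 1 - b ^ 2| * ∫ x in S, Consts_q p x * max (⟪x, e⟫ : ℝ) 0 := by gcongr
    _ = |∫ x in S, G x| := by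
        have hJ0 : 0 ≤ ∫ x in S, Consts_q p x * max (⟪x, e⟫ : ℝ) 0 :=
          le_trans (by positivity) m4
        rw [m3, abs_mul, abs_of_nonneg hJ0]
    _ ≤ _ := m1.trans m2

theorem Consts_nondeg {L κ τ s a : ℝ} {u : E3 → ℝ} {e x : E3} (hL : 1 ≤ L) (hs : 0 < s)
    (hsL : s ≤ 1 / 10000 / L) (he : ‖e‖ = 1) (H : AlmostCone L κ τ u)
    (hda : ∀ x : E3, ‖x‖ ≤ 3 → s ≤ ⟪x, e⟫ → |u x - a * ⟪x, e⟫| ≤ s * ⟪x, e⟫)
    (has : a ≤ s) (hx1 : τ < ‖x‖) (hx2 : ‖x‖ ≤ 1) (hx3 : 1 / 1000 ≤ u x)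
    (hx4 : 0 ≤ (⟪x, e⟫ : ℝ)) : False := by
  have hL0 : 0 < L := by linarith only [hL]
  have hsL' : s * L ≤ 1 / 10000 := by
    rw [le_div_iff₀ hL0] at hsL; exact hsL
  have hs1 : s ≤ 1 / 10000 := by nlinarith only [hL, hsL']
  set y : E3 := x + (2 * s) • e with hy
  have hseg : ∀ z ∈ segment ℝ x y, τ < ‖z‖ ∧ ‖z‖ ≤ 2 := by
    intro z hz
    rw [segment_eq_image'] at hz
    obtain ⟨θ, hθ, rfl⟩ := hz
    have e1 : x + θ • (y - x) = x + (θ * (2 * s)) • e := by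
      rw [hy, add_sub_cancel_left, smul_smul]
    simp only
    rw [e1]
    have hθ0 : 0 ≤ θ * (2 * s) := mul_nonneg hθ.1 (by linarith)
    have hθ1 : θ * (2 * s) ≤ 2 * s := by nlinarith only [hs, hθ.2]
    constructor
    · have e2 : ‖x + (θ * (2 * s)) • e‖ ^ 2 =
          ‖x‖ ^ 2 + 2 * (θ * (2 * s)) * ⟪x, e⟫ + (θ * (2 * s)) ^ 2 := by
        rw [← real_inner_self_eq_norm_sq, inner_add_left, inner_add_right, inner_add_right,
          inner_smul_left, inner_smul_left, inner_smul_right, inner_smul_right,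
          real_inner_self_eq_norm_sq, real_inner_self_eq_norm_sq, he, real_inner_comm x e]
        simp
        ring
      have e3 : ‖x‖ ^ 2 ≤ ‖x + (θ * (2 * s)) • e‖ ^ 2 := by
        rw [e2]
        have : 0 ≤ 2 * (θ * (2 * s)) * (⟪x, e⟫ : ℝ) := by positivity
        nlinarith only [this]
      have e4 : ‖x‖ ≤ ‖x + (θ * (2 * s)) • e‖ :=
        le_of_sq_le_sq e3 (norm_nonneg _)
      linarith only [hx1, e4]
    · calc ‖x + (θ * (2 * s)) • e‖ ≤ ‖x‖ + ‖(θ * (2 * s)) • e‖ := norm_add_le _ _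
        _ = ‖x‖ + θ * (2 * s) := by rw [norm_smul, he, mul_one, Real.norm_of_nonneg hθ0]
        _ ≤ 2 := by linarith only [hx2, hs1, hθ1]
  have hsO : segment ℝ x y ⊆ {x | τ < ‖x‖ ∧ ‖x‖ < 8} := fun z hz =>
    ⟨(hseg z hz).1, by linarith only [(hseg z hz).2]⟩
  have h1 := lip_seg H.onePhase hsO
    (fun z hz hu => H.lip z (hseg z hz).1 (by linarith [(hseg z hz).2]) hu) hL0.le
  have h2 : ‖x - y‖ = 2 * s := by
    have : x - y = -((2 * s) • e) := by rw [hy]; abel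
    rw [this, norm_neg, norm_smul, he, mul_one, Real.norm_of_nonneg (by linarith)]
  have hye : (⟪y, e⟫ : ℝ) = ⟪x, e⟫ + 2 * s := by
    rw [hy, inner_add_left, inner_smul_left, real_inner_self_eq_norm_sq, he]
    simp
  have hy3 : ‖y‖ ≤ 3 := by linarith only [(hseg y (right_mem_segment ℝ x y)).2]
  have h3 := (abs_le.1 (hda y hy3 (by rw [hye]; linarith))).2
  have hxe : (⟪x, e⟫ : ℝ) ≤ 1 := by
    calc (⟪x, e⟫ : ℝ) ≤ ‖x‖ * ‖e‖ := real_inner_le_norm _ _
      _ ≤ 1 := by rw [he, mul_one]; exact hx2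
  have h4 : u y ≤ 2 * s * (⟪x, e⟫ + 2 * s) := by
    rw [hye] at h3
    nlinarith only [hs, has, hx4, h3]
  have h5 : u y ≤ 4 * s := by nlinarith only [hs, hs1, hxe, h4]
  rw [h2] at h1
  have h6 := (abs_le.1 h1).2
  nlinarith only [hx3, hsL', hs1, h5, h6]

theorem consts : ∀ L : ℝ, 1 ≤ L → ∀ σ : ℝ, 0 < σ → ∃ s₀ : ℝ, 0 < s₀ ∧ ∀ s₁ : ℝ, 0 < s₁ → s₁ ≤ s₀ →
    ∃ κ : ℝ, 0 < κ ∧ ∃ τ₀ : ℝ, 0 < τ₀ ∧
    ∀ (τ : ℝ) (u : E3 → ℝ) (e : E3) (a b : ℝ), 0 < τ → τ ≤ τ₀ → ‖e‖ = 1 → AlmostCone L κ τ u →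
    ∫ x in ball 0 4 \ closedBall 0 τ, ‖Du u x - ⟪Du u x, e⟫ • e‖ ^ 2 ≤ κ →
    ∫ x in ball 0 4 \ closedBall 0 τ, (⟪x, e⟫ * ⟪Du u x, e⟫ - u x) ^ 2 ≤ κ →
    0 ≤ a → 0 ≤ b → a ≤ 4 * L → b ≤ 4 * L →
    (∀ x : E3, ‖x‖ ≤ 3 → s₁ ≤ ⟪x, e⟫ → |u x - a * ⟪x, e⟫| ≤ s₁ * ⟪x, e⟫) →
    (∀ x : E3, ‖x‖ ≤ 3 → s₁ ≤ ⟪x, -e⟫ → |u x - b * ⟪x, -e⟫| ≤ s₁ * ⟪x, -e⟫) →
    (|a - 1| ≤ σ ∧ b ≤ σ) ∨ (|b - 1| ≤ σ ∧ a ≤ σ) := by
  intro L hL σ hσ
  have hL0 : 0 < L := by linarith
  have hV : 0 < volume.real (ball (0 : E3) (1 / 32)) :=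
    ENNReal.toReal_pos (measure_ball_pos _ _ (by norm_num)).ne' measure_ball_lt_top.ne
  set J : ℝ := 3 / 4 * volume.real (ball (0 : E3) (1 / 32)) with hJ
  have hJ0 : 0 < J := by positivity
  have hmm := mm_pos
  refine ⟨min (1 / 10000 / L) (min (mm / 100) (min (σ / 2) (σ * J / (2 * (17000 * L ^ 2))))),
    by positivity, fun s hs hs0 => ?_⟩
  have hs1 : s ≤ 1 / 10000 / L := hs0.trans (min_le_left _ _)
  have hs2 : s ≤ mm / 100 := hs0.trans ((min_le_right _ _).trans (min_le_left _ _))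
  have hs3 : s ≤ σ / 2 :=
    hs0.trans ((min_le_right _ _).trans ((min_le_right _ _).trans (min_le_left _ _)))
  have hs4 : s ≤ σ * J / (2 * (17000 * L ^ 2)) :=
    hs0.trans ((min_le_right _ _).trans ((min_le_right _ _).trans (min_le_right _ _)))
  have hs5 : s ≤ 1 := by
    refine hs1.trans ?_
    rw [div_le_iff₀ hL0]; linarith only [hL]
  have hs6 : 17000 * L ^ 2 * s ≤ σ / 2 * J := by
    rw [le_div_iff₀ (by positivity)] at hs4
    linarith only [hs4]
  refine ⟨s ^ 4, by positivity, min s (1 / 8), by positivity, ?_⟩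
  intro τ u e a b hτ hτ0 he H h1 h2 ha0 hb0 ha hb hda hdb
  have hτs : τ ≤ s := hτ0.trans (min_le_left _ _)
  have hτ8 : τ ≤ 1 / 8 := hτ0.trans (min_le_right _ _)
  have hne : ‖-e‖ = 1 := by rw [norm_neg]; exact he
  have key : ∀ (a b : ℝ) (e : E3), ‖e‖ = 1 →
      ∫ x in ball 0 4 \ closedBall 0 τ, ‖Du u x - ⟪Du u x, e⟫ • e‖ ^ 2 ≤ s ^ 4 →
      ∫ x in ball 0 4 \ closedBall 0 τ, (⟪x, e⟫ * ⟪Du u x, e⟫ - u x) ^ 2 ≤ s ^ 4 →
      0 ≤ a → 0 ≤ b → a ≤ 4 * L → b ≤ 4 * L →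
      (∀ x : E3, ‖x‖ ≤ 3 → s ≤ ⟪x, e⟫ → |u x - a * ⟪x, e⟫| ≤ s * ⟪x, e⟫) →
      (∀ x : E3, ‖x‖ ≤ 3 → s ≤ ⟪x, -e⟫ → |u x - b * ⟪x, -e⟫| ≤ s * ⟪x, -e⟫) →
      s < a → b ≤ s → |a - 1| ≤ σ ∧ b ≤ σ := by
    intro a b e he h1 h2 ha0 hb0 ha hb hda hdb has hbs
    have hc := Consts_core hL hs hs5 hτ hτs hτ8 le_rfl he H h1 h2 ha0 hb0 ha hb
      hda hdb has
    have hc1 : |a ^ 2 - 1 - b ^ 2| ≤ σ / 2 := by
      have : |a ^ 2 - 1 - b ^ 2| * J ≤ σ / 2 * J := hc.trans hs6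
      exact le_of_mul_le_mul_right this hJ0
    have hb2 : b ^ 2 ≤ σ / 2 := by nlinarith only [hs3, hs5, hb0, hbs]
    have hb20 : 0 ≤ b ^ 2 := sq_nonneg b
    obtain ⟨h3, h4⟩ := abs_le.1 hc1
    refine ⟨?_, by linarith only [hs, hs3, hbs]⟩
    have h5 : |a ^ 2 - 1| ≤ σ := by rw [abs_le]; constructor <;> linarith only [hs, hs3, hb20, h3, hb2, h4]
    calc |a - 1| ≤ |a - 1| * |a + 1| := by
          rw [abs_of_nonneg (by linarith only [hs, has] : 0 ≤ a + 1)]
          nlinarith only [ha0, abs_nonneg (a - 1)]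
      _ = |a ^ 2 - 1| := by rw [← abs_mul]; ring_nf
      _ ≤ σ := h5
  rcases le_or_gt a s with has | has
  · rcases le_or_gt b s with hbs | hbs
    · exfalso
      obtain ⟨x, hx1, hx2, hx3⟩ := H.nondeg
      rcases le_total 0 (⟪x, e⟫ : ℝ) with hx | hx
      · exact Consts_nondeg hL hs hs1 he H hda has hx1 hx2 hx3 hx
      · exact Consts_nondeg hL hs hs1 hne H hdb hbs hx1 hx2 hx3
          (by rw [inner_neg_right]; linarith)
    · right
      refine key b a (-e) hne ?_ ?_ hb0 ha0 hb ha hdb ?_ hbs has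
      · simpa only [inner_neg_right, smul_neg, neg_smul, neg_neg] using h1
      · simpa only [inner_neg_right, neg_mul_neg] using h2
      · simpa only [neg_neg] using hda
  · rcases le_or_gt b s with hbs | hbs
    · left
      exact key a b e he h1 h2 ha0 hb0 ha hb hda hdb has hbs
    · exfalso
      have hO := H.onePhase
      have hAm : MeasurableSet (ball (0 : E3) 4 \ closedBall 0 τ) :=
        measurableSet_ball.diff measurableSet_closedBall
      have hAO : ball (0 : E3) 4 \ closedBall 0 τ ⊆ {x | τ < ‖x‖ ∧ ‖x‖ < 8} := by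
        intro x hx
        have h1 : ‖x‖ < 4 := by simpa using hx.1
        have h2 : τ < ‖x‖ := by simpa using hx.2
        exact ⟨h2, by linarith⟩
      have hAfin : volume (ball (0 : E3) 4 \ closedBall 0 τ) ≠ ⊤ :=
        ((measure_mono sdiff_subset).trans_lt measure_ball_lt_top).ne
      have hside : ∀ (a : ℝ) (e : E3), ‖e‖ = 1 → s < a →
          (∀ x : E3, ‖x‖ ≤ 3 → s ≤ ⟪x, e⟫ → |u x - a * ⟪x, e⟫| ≤ s * ⟪x, e⟫) →
          mm / 2 - 8 * τ ^ 3 - 8 * s ≤ ∫ x in (ball (0 : E3) 4 \ closedBall 0 τ) ∩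
            {x | 0 < ⟪x, e⟫}, wt (‖x‖ ^ 2) ^ 4 * ind u x := by
        intro a e he has hda
        exact Consts_vol_side hO hAm hAO hAfin hτ.le hs.le
          (fun x h1 h2 => ⟨by simp; linarith, by simpa using h1⟩) he
          (fun x h1 h2 _ => by
            have h3 := hda x (by linarith) h2
            have h4 : 0 < (⟪x, e⟫ : ℝ) := hs.trans_le h2
            have h5 := (abs_le.1 h3).1
            nlinarith only [hs, has, h2, h5])
      have s1 := hside a e he has hda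
      have s2 := hside b (-e) hne hbs hdb
      have hint := Consts_g_ind_intOn hO hAm hAO hAfin
      have hm1 : MeasurableSet ((ball (0 : E3) 4 \ closedBall 0 τ) ∩
          {x | 0 < (⟪x, -e⟫ : ℝ)}) :=
        hAm.inter (isOpen_lt continuous_const
          (by fun_prop : Continuous fun x : E3 => (⟪x, -e⟫ : ℝ))).measurableSet
      have hun := setIntegral_union (μ := (volume : Measure E3))
        (s := (ball (0 : E3) 4 \ closedBall 0 τ) ∩ {x | 0 < (⟪x, e⟫ : ℝ)})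
        (t := (ball (0 : E3) 4 \ closedBall 0 τ) ∩ {x | 0 < (⟪x, -e⟫ : ℝ)})
        (f := fun x => wt (‖x‖ ^ 2) ^ 4 * ind u x)
        (by
          rw [Set.disjoint_left]
          intro x hx hx'
          have h1 : 0 < (⟪x, e⟫ : ℝ) := hx.2
          have h2 : 0 < (⟪x, -e⟫ : ℝ) := hx'.2
          rw [inner_neg_right] at h2
          linarith) hm1 (hint.mono_set inter_subset_left) (hint.mono_set inter_subset_left)
      have hle := setIntegral_mono_set hint
        (Eventually.of_forall fun x => mul_nonneg (pow_nonneg (Consts_wt_nonneg _) _)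
          (Consts_ind_nonneg u x))
        (Eventually.of_forall (union_subset
          (inter_subset_left : (ball (0 : E3) 4 \ closedBall 0 τ) ∩ {x | 0 < (⟪x, e⟫ : ℝ)} ⊆ _)
          (inter_subset_left : (ball (0 : E3) 4 \ closedBall 0 τ) ∩ {x | 0 < (⟪x, -e⟫ : ℝ)} ⊆ _)))
      have hv := (abs_le.1 H.vol0).2
      have hτ3 : τ ^ 3 ≤ s := by
        calc τ ^ 3 ≤ τ ^ 1 := pow_le_pow_of_le_one hτ.le (by linarith) (by norm_num)
          _ = τ := pow_one _
          _ ≤ s := hτs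
      have hs4' : s ^ 4 ≤ s := by
        calc s ^ 4 ≤ s ^ 1 := pow_le_pow_of_le_one hs.le hs5 (by norm_num)
          _ = s := pow_one _
      have hfin : (∫ x in (ball (0 : E3) 4 \ closedBall 0 τ) ∩
            {x | 0 < ⟪x, e⟫}, wt (‖x‖ ^ 2) ^ 4 * ind u x) +
          (∫ x in (ball (0 : E3) 4 \ closedBall 0 τ) ∩
            {x | 0 < ⟪x, -e⟫}, wt (‖x‖ ^ 2) ^ 4 * ind u x) ≤
          ∫ x in ball (0 : E3) 4 \ closedBall 0 τ, wt (‖x‖ ^ 2) ^ 4 * ind u x := by
        rw [← hun]; exact hle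
      linarith

end Pool.Agent.H32.Flat
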