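import Pool.Agent.H32.Flat.Nu2
import Pool.Agent.H32.Flat.DuMeas

/-!
# Module G3: almost one-dimensional and almost homogeneous implies almost linear on each side

Let `Q = {x : ‖x‖ < 4, s₁ / 2 < ⟪x,e⟫}` (convex, contained in `{τ < |x| < 8}` if `τ ≤ s₁/2`), and
`g x = u x ^ 2 / ⟪x,e⟫ ^ 2`, a `C¹` function on `Q` (`sq_contDiffOn`, `sq_gradient`) with
`∇g = 2 (u/s) ((Du - ⟪Du,e⟫e)/s + (s ⟪Du,e⟫ - u) e/s²)`, `s = ⟪x,e⟫`.  So
`∫_Q |∇g| ≤ C(L,s₁) √κ` (Cauchy-Schwarz), and `g` is Lipschitz on `Q` with constant `Λ(L,s₁)`.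
For `x, x' ∈ Q' = {‖x‖ ≤ 3, s₁ ≤ ⟪x,e⟫}` and `r ≤ s₁/2`: averaging over `w ∈ ball 0 r`,
`|g x - g x'| ≤ 2Λr + C r⁻³ ‖x-x'‖ ∫_Q |∇g|`; choose first `r`, then `κ`.  Put `a = √(g(2e)) = u(2e)/2 ≤ 4L`;
`|u x/s - a|² ≤ |g x - a²|` as both are nonnegative.
-/

open Set Metric MeasureTheory Filter Topology InnerProductSpace
open scoped Laplacian Gradient RealInnerProductSpace

namespace Pool.Agent.H32.Flat

/-- the convex set `Q` -/
def NearLin_Q (e : E3) (s₁ : ℝ) : Set E3 := {x | ‖x‖ < 4 ∧ s₁ / 2 < ⟪x, e⟫}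

/-- the function `g` -/
noncomputable def NearLin_g (u : E3 → ℝ) (e x : E3) : ℝ := u x ^ 2 / ⟪x, e⟫ ^ 2

/-- its gradient -/
noncomputable def NearLin_G (u : E3 → ℝ) (e x : E3) : E3 :=
  (2 * u x / ⟪x, e⟫ ^ 2) • (Du u x - ⟪Du u x, e⟫ • e) +
    (2 * u x / ⟪x, e⟫ ^ 3 * (⟪x, e⟫ * ⟪Du u x, e⟫ - u x)) • e

theorem NearLin_convex (e : E3) (s₁ : ℝ) : Convex ℝ (NearLin_Q e s₁) := by
  have h1 : Convex ℝ {x : E3 | ‖x‖ < 4} := by
    have := convex_ball (0 : E3) 4
    simpa [ball, dist_zero_right] using this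
  have h2 : Convex ℝ {x : E3 | s₁ / 2 < ⟪x, e⟫} := by
    intro x hx y hy a b ha hb hab
    change s₁ / 2 < ⟪a • x + b • y, e⟫
    change s₁ / 2 < ⟪x, e⟫ at hx
    change s₁ / 2 < ⟪y, e⟫ at hy
    rw [inner_add_left, inner_smul_left, inner_smul_left]
    simp only [conj_trivial]
    rcases eq_or_lt_of_le ha with rfl | ha'
    · have : b = 1 := by linarith
      subst this; simpa using hy
    · nlinarith [mul_pos ha' (sub_pos.2 hx), mul_nonneg hb (sub_pos.2 hy).le,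
        congrArg (fun z => z * (s₁ / 2)) hab]
  exact h1.inter h2

theorem NearLin_inner_le {e : E3} (he : ‖e‖ = 1) (x : E3) : |⟪x, e⟫| ≤ ‖x‖ := by
  have := abs_real_inner_le_norm x e
  rwa [he, mul_one] at this

theorem NearLin_Q_sub {e : E3} (he : ‖e‖ = 1) {s₁ τ : ℝ} (hτ : τ ≤ s₁ / 2) {x : E3}
    (hx : x ∈ NearLin_Q e s₁) : τ < ‖x‖ ∧ ‖x‖ < 4 := by
  refine ⟨?_, hx.1⟩
  have := (le_abs_self _).trans (NearLin_inner_le he x)
  have := hx.2
  linarith

theorem NearLin_hasGradientAt {O : Set E3} {u : E3 → ℝ} {e : E3} (h : OnePhase O u) {x : E3}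
    (hx : x ∈ O) (hs : 0 < ⟪x, e⟫) : HasGradientAt (NearLin_g u e) (NearLin_G u e x) x := by
  have h1 := (sq_gradient h hx).hasFDerivAt
  have h2 : HasFDerivAt (fun y : E3 => ⟪y, e⟫) (innerSL ℝ e) x := by
    have := (innerSL ℝ e).hasFDerivAt (x := x)
    refine this.congr_of_eventuallyEq (Eventually.of_forall fun y => ?_)
    simp [real_inner_comm]
  have h4 : HasFDerivAt (fun y : E3 => (⟪y, e⟫ ^ 2)⁻¹)
      ((-(2 * ⟪x, e⟫) / (⟪x, e⟫ ^ 2) ^ 2) • innerSL ℝ e) x := by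
    have h5 := (hasDerivAt_pow 2 (⟪x, e⟫ : ℝ)).fun_inv (by positivity)
    have h6 := h5.comp_hasFDerivAt x h2
    refine h6.congr_fderiv ?_
    simp
  have h3 := h1.mul h4
  rw [hasGradientAt_iff_hasFDerivAt]
  refine (h3.congr_of_eventuallyEq (Eventually.of_forall fun y => ?_)).congr_fderiv ?_
  · simp [NearLin_g, div_eq_mul_inv]
  ext v
  simp only [NearLin_G, _root_.smul_apply, _root_.sub_apply,
    toDual_apply_apply, map_add, map_smul, map_sub, _root_.add_apply, smul_eq_mul,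
    innerSL_apply_apply]
  field_simp
  ring

theorem NearLin_core {g : E3 → ℝ} {G : E3 → E3} {Q : Set E3} {Λ I η r : ℝ} {x x' : E3}
    (hQc : Convex ℝ Q)
    (hg : ∀ y ∈ Q, HasGradientAt g (G y) y) (hΛ : ∀ y ∈ Q, ‖G y‖ ≤ Λ)
    (hI : IntegrableOn (fun y => ‖G y‖) Q) (hI' : ∫ y in Q, ‖G y‖ ≤ I) (hη : 0 < η) (hr : 0 < r)
    (hx : ∀ t ∈ Icc (-η) (1 + η), ∀ w ∈ ball (0 : E3) r, x + t • (x' - x) + w ∈ Q) :
    |g x' - g x| ≤ 2 * Λ * r + ‖x' - x‖ * I / volume.real (ball (0 : E3) r) := by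
  set v : E3 := x' - x with hv
  have hΛ0 : 0 ≤ Λ := by
    have := hx 0 ⟨by linarith, by linarith⟩ 0 (mem_ball_self hr)
    exact (norm_nonneg _).trans (hΛ _ this)
  have hV : 0 < volume.real (ball (0 : E3) r) := by
    rw [measureReal_def]
    exact ENNReal.toReal_pos (measure_ball_pos _ _ hr).ne' measure_ball_lt_top.ne
  have : IsFiniteMeasure (volume.restrict (ball (0 : E3) r)) :=
    ⟨by rw [Measure.restrict_apply_univ]; exact measure_ball_lt_top⟩
  -- measurability and boundedness of the slices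
  have hcont : ∀ t ∈ Icc (-η) (1 + η), ContinuousOn (fun w : E3 => g (x + t • v + w)) (ball 0 r) := by
    intro t ht w hw
    have h1 : ContinuousAt g (x + t • v + w) := (hg _ (hx t ht w hw)).continuousAt
    exact (ContinuousAt.comp (f := fun w : E3 => x + t • v + w) h1
      (by fun_prop)).continuousWithinAt
  have hmeas : ∀ t ∈ Icc (-η) (1 + η), AEStronglyMeasurable (fun w : E3 => g (x + t • v + w))
      (volume.restrict (ball 0 r)) := fun t ht =>
    (hcont t ht).aestronglyMeasurable measurableSet_ball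
  have hlip : ∀ t ∈ Icc (-η) (1 + η), ∀ w ∈ ball (0 : E3) r,
      |g (x + t • v + w) - g (x + t • v)| ≤ Λ * r := by
    intro t ht w hw
    have h0 : x + t • v ∈ Q := by simpa using hx t ht 0 (mem_ball_self hr)
    have := hQc.norm_image_sub_le_of_norm_hasFDerivWithin_le (f := g)
      (f' := fun y => toDual ℝ E3 (G y)) (C := Λ)
      (fun y hy => (hg y hy).hasFDerivAt.hasFDerivWithinAt)
      (fun y hy => by simpa using hΛ y hy) h0 (hx t ht w hw)
    rw [add_sub_cancel_left, Real.norm_eq_abs] at this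
    refine this.trans (mul_le_mul_of_nonneg_left ?_ hΛ0)
    simpa using (mem_ball_zero_iff.1 hw).le
  have hint : ∀ t ∈ Icc (-η) (1 + η), Integrable (fun w : E3 => g (x + t • v + w))
      (volume.restrict (ball 0 r)) := by
    intro t ht
    refine Integrable.of_bound (hmeas t ht) (|g (x + t • v)| + Λ * r) ?_
    filter_upwards [ae_restrict_mem measurableSet_ball] with w hw
    have := hlip t ht w hw
    rw [Real.norm_eq_abs]
    have h2 := abs_add_le (g (x + t • v + w) - g (x + t • v)) (g (x + t • v))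
    rw [sub_add_cancel] at h2
    linarith
  have hder : ∀ t ∈ Icc (-η) (1 + η), ∀ w ∈ ball (0 : E3) r,
      HasDerivAt (fun t => g (x + t • v + w)) ⟪G (x + t • v + w), v⟫ t := by
    intro t ht w hw
    have h1 := (hg _ (hx t ht w hw)).hasFDerivAt
    have h2 : HasDerivAt (fun t : ℝ => x + t • v + w) v t := by
      have := ((hasDerivAt_id t).smul_const v).const_add x |>.add_const w
      simpa using this
    have h3 := h1.comp_hasDerivAt t h2
    have h4 : (toDual ℝ E3 (G (x + t • v + w))) v = ⟪G (x + t • v + w), v⟫ := by simp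
    rw [← h4]
    exact h3
  have hmeas' : ∀ t ∈ Icc (-η) (1 + η), AEStronglyMeasurable
      (fun w : E3 => (⟪G (x + t • v + w), v⟫ : ℝ)) (volume.restrict (ball 0 r)) := by
    intro t ht
    have h1 : Measurable (fun w : E3 => fderiv ℝ g (x + t • v + w) v) :=
      (measurable_fderiv_apply_const ℝ g v).comp (by fun_prop)
    refine h1.aestronglyMeasurable.congr ?_
    filter_upwards [ae_restrict_mem measurableSet_ball] with w hw
    rw [(hg _ (hx t ht w hw)).hasFDerivAt.fderiv]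
    simp
  have hderiv : ∀ t ∈ Icc (0 : ℝ) 1, HasDerivAt
      (fun t => ∫ w in ball (0 : E3) r, g (x + t • v + w))
      (∫ w in ball (0 : E3) r, (⟪G (x + t • v + w), v⟫ : ℝ)) t := by
    intro t ht
    have hnhds : Icc (-η) (1 + η) ∈ 𝓝 t := Icc_mem_nhds (by linarith [ht.1]) (by linarith [ht.2])
    refine (hasDerivAt_integral_of_dominated_loc_of_deriv_le
      (F := fun t w => g (x + t • v + w)) (F' := fun t w => (⟪G (x + t • v + w), v⟫ : ℝ)) hnhds ?_
      (hint t ?_) (hmeas' t ?_) (bound := fun _ => Λ * ‖v‖) ?_ (integrable_const _) ?_).2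
    · filter_upwards [hnhds] with s hs using hmeas s hs
    · exact mem_of_mem_nhds hnhds
    · exact mem_of_mem_nhds hnhds
    · filter_upwards [ae_restrict_mem measurableSet_ball] with w hw
      intro s hs
      rw [Real.norm_eq_abs]
      exact (abs_real_inner_le_norm _ _).trans
        (mul_le_mul_of_nonneg_right (hΛ _ (hx s hs w hw)) (norm_nonneg _))
    · filter_upwards [ae_restrict_mem measurableSet_ball] with w hw
      intro s hs
      exact hder s hs w hw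
  have hbound : ∀ t ∈ Icc (0 : ℝ) 1,
      ‖∫ w in ball (0 : E3) r, (⟪G (x + t • v + w), v⟫ : ℝ)‖ ≤ ‖v‖ * I := by
    intro t ht
    have ht' : t ∈ Icc (-η) (1 + η) := ⟨by linarith [ht.1], by linarith [ht.2]⟩
    have hsub : ball (x + t • v) r ⊆ Q := by
      intro y hy
      have := hx t ht' (y - (x + t • v)) (by simpa [dist_eq_norm] using hy)
      simpa using this
    have h1 : ∫ w in ball (0 : E3) r, ‖G (x + t • v + w)‖ = ∫ y in ball (x + t • v) r, ‖G y‖ := by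
      have h2 := (measurePreserving_add_left (volume : Measure E3) (x + t • v)).setIntegral_preimage_emb
        (measurableEmbedding_addLeft (x + t • v)) (fun y => ‖G y‖) (ball (x + t • v) r)
      rw [← h2]
      congr 2
      ext w
      simp [dist_eq_norm]
    have h3 : IntegrableOn (fun w => ‖G (x + t • v + w)‖) (ball (0 : E3) r) := by
      have h2 := (measurePreserving_add_left (volume : Measure E3) (x + t • v)).integrableOn_comp_preimage
        (measurableEmbedding_addLeft (x + t • v)) (f := fun y => ‖G y‖) (s := ball (x + t • v) r)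
      have h4 := h2.2 (hI.mono_set hsub)
      have h5 : (fun w => (x + t • v) + w) ⁻¹' ball (x + t • v) r = ball (0 : E3) r := by
        ext w; simp [dist_eq_norm]
      rw [h5] at h4
      exact h4
    calc ‖∫ w in ball (0 : E3) r, (⟪G (x + t • v + w), v⟫ : ℝ)‖
        ≤ ∫ w in ball (0 : E3) r, ‖G (x + t • v + w)‖ * ‖v‖ := by
          refine norm_integral_le_of_norm_le (h3.mul_const _) (Eventually.of_forall fun w => ?_)
          rw [Real.norm_eq_abs]
          exact abs_real_inner_le_norm _ _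
      _ = (∫ y in ball (x + t • v) r, ‖G y‖) * ‖v‖ := by
          rw [integral_mul_const, h1]
      _ ≤ (∫ y in Q, ‖G y‖) * ‖v‖ := by
          refine mul_le_mul_of_nonneg_right ?_ (norm_nonneg _)
          exact setIntegral_mono_set hI (Eventually.of_forall fun y => norm_nonneg _)
            (LE.le.eventuallyLE hsub)
      _ ≤ ‖v‖ * I := by
          rw [mul_comm]
          exact mul_le_mul_of_nonneg_left hI' (norm_nonneg _)
  have hmv := norm_image_sub_le_of_norm_deriv_le_segment_01'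
    (f := fun t => ∫ w in ball (0 : E3) r, g (x + t • v + w))
    (fun t ht => (hderiv t ht).hasDerivWithinAt)
    (fun t ht => hbound t ⟨ht.1, ht.2.le⟩)
  have hav : ∀ t ∈ Icc (0 : ℝ) 1, |(∫ w in ball (0 : E3) r, g (x + t • v + w)) -
      volume.real (ball (0 : E3) r) * g (x + t • v)| ≤ volume.real (ball (0 : E3) r) * (Λ * r) := by
    intro t ht
    have ht' : t ∈ Icc (-η) (1 + η) := ⟨by linarith [ht.1], by linarith [ht.2]⟩
    have h1 : volume.real (ball (0 : E3) r) * g (x + t • v) =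
        ∫ w in ball (0 : E3) r, g (x + t • v) := by
      rw [setIntegral_const, smul_eq_mul]
    rw [h1, ← integral_sub (hint t ht') (integrable_const _), ← Real.norm_eq_abs]
    refine (norm_setIntegral_le_of_norm_le_const measure_ball_lt_top
      (C := Λ * r) (fun w hw => by rw [Real.norm_eq_abs]; exact hlip t ht' w hw)).trans ?_
    rw [mul_comm]
  have h0 := hav 0 ⟨le_rfl, zero_le_one⟩
  have h1 := hav 1 ⟨zero_le_one, le_rfl⟩
  simp only [zero_smul, add_zero, one_smul] at h0 h1 hmv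
  rw [Real.norm_eq_abs] at hmv
  have hx'eq : x + v = x' := by rw [hv]; abel
  rw [hx'eq] at h1 hmv
  rw [← sub_le_iff_le_add', le_div_iff₀ hV]
  rw [abs_le] at h0 h1 hmv
  have key : |g x' - g x| * volume.real (ball (0 : E3) r) ≤
      ‖v‖ * I + 2 * (volume.real (ball (0 : E3) r) * (Λ * r)) := by
    rw [← abs_of_pos hV, ← abs_mul, abs_of_pos hV, abs_le]
    constructor <;> nlinarith
  nlinarith


theorem NearLin_measurable_gradient (g : E3 → ℝ) : Measurable (gradient g) :=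
  (toDual ℝ E3).symm.continuous.measurable.comp (measurable_fderiv ℝ g)

/-- pointwise bound of the gradient of `g` -/
theorem NearLin_norm_G_le {u : E3 → ℝ} {e x : E3} (he : ‖e‖ = 1) {L s₁ : ℝ} (hL : 1 ≤ L)
    (hs₁ : 0 < s₁) (hs₁' : s₁ ≤ 1 / 4) (hs : s₁ / 2 < ⟪x, e⟫) (hu0 : 0 ≤ u x) (hu : u x ≤ 8 * L) :
    ‖NearLin_G u e x‖ ≤ 128 * L / s₁ ^ 3 *
      (‖Du u x - ⟪Du u x, e⟫ • e‖ + |⟪x, e⟫ * ⟪Du u x, e⟫ - u x|) := by
  have hpos : 0 < (⟪x, e⟫ : ℝ) := by linarith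
  have h2 : 2 * u x / ⟪x, e⟫ ^ 2 ≤ 128 * L / s₁ ^ 3 := by
    rw [div_le_div_iff₀ (by positivity) (by positivity)]
    have h3 : s₁ ^ 2 / 4 ≤ ⟪x, e⟫ ^ 2 := by nlinarith
    have h4 : s₁ ^ 3 ≤ s₁ ^ 2 := by nlinarith [sq_nonneg s₁]
    calc 2 * u x * s₁ ^ 3 ≤ 2 * (8 * L) * s₁ ^ 2 := by
          apply mul_le_mul (by linarith) h4 (by positivity) (by positivity)
      _ ≤ 128 * L * (s₁ ^ 2 / 4) := by nlinarith [mul_nonneg (by linarith : 0 ≤ L) (sq_nonneg s₁)]
      _ ≤ 128 * L * ⟪x, e⟫ ^ 2 := mul_le_mul_of_nonneg_left h3 (by positivity)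
  have h3 : 2 * u x / ⟪x, e⟫ ^ 3 ≤ 128 * L / s₁ ^ 3 := by
    rw [div_le_div_iff₀ (by positivity) (by positivity)]
    have h3 : (s₁ / 2) ^ 3 ≤ ⟪x, e⟫ ^ 3 := pow_le_pow_left₀ (by positivity) hs.le 3
    calc 2 * u x * s₁ ^ 3 ≤ 2 * (8 * L) * s₁ ^ 3 := by
          apply mul_le_mul (by linarith) le_rfl (by positivity) (by positivity)
      _ = 128 * L * (s₁ / 2) ^ 3 := by ring
      _ ≤ 128 * L * ⟪x, e⟫ ^ 3 := mul_le_mul_of_nonneg_left h3 (by positivity)
  unfold NearLin_G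
  refine (norm_add_le _ _).trans ?_
  rw [norm_smul, norm_smul, he, mul_one, Real.norm_eq_abs, Real.norm_eq_abs, abs_mul, mul_add,
    abs_of_nonneg (by positivity : 0 ≤ 2 * u x / ⟪x, e⟫ ^ 2),
    abs_of_nonneg (by positivity : 0 ≤ 2 * u x / ⟪x, e⟫ ^ 3)]
  exact add_le_add (mul_le_mul_of_nonneg_right h2 (norm_nonneg _))
    (mul_le_mul_of_nonneg_right h3 (abs_nonneg _))

theorem near_linear : ∀ L : ℝ, 1 ≤ L → ∀ s₁ : ℝ, 0 < s₁ → s₁ ≤ 1 / 4 → ∀ σ : ℝ, 0 < σ →
    ∃ κ : ℝ, 0 < κ ∧ ∀ (τ : ℝ) (u : E3 → ℝ) (e : E3), 0 < τ → τ ≤ s₁ / 2 → ‖e‖ = 1 →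
    OnePhase {x | τ < ‖x‖ ∧ ‖x‖ < 8} u →
    (∀ x : E3, τ < ‖x‖ → ‖x‖ < 8 → 0 < u x → ‖gradient u x‖ ≤ L) →
    (∀ x : E3, τ < ‖x‖ → ‖x‖ < 8 → u x ≤ 8 * L) →
    ∫ x in ball 0 4 \ closedBall 0 τ, ‖Du u x - ⟪Du u x, e⟫ • e‖ ^ 2 ≤ κ →
    ∫ x in ball 0 4 \ closedBall 0 τ, (⟪x, e⟫ * ⟪Du u x, e⟫ - u x) ^ 2 ≤ κ →
    ∃ a : ℝ, 0 ≤ a ∧ a ≤ 4 * L ∧
      ∀ x : E3, ‖x‖ ≤ 3 → s₁ ≤ ⟪x, e⟫ → |u x - a * ⟪x, e⟫| ≤ σ * ⟪x, e⟫ := by
  intro L hL s₁ hs₁ hs₁' σ hσ
  obtain ⟨C, hC⟩ : ∃ C : ℝ, C = 128 * L / s₁ ^ 3 := ⟨_, rfl⟩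
  have hC0 : 0 < C := by rw [hC]; positivity
  obtain ⟨Λ, hΛ⟩ : ∃ Λ : ℝ, Λ = 14 * C * L := ⟨_, rfl⟩
  have hΛ0 : 0 < Λ := by rw [hΛ]; positivity
  obtain ⟨r, hr⟩ : ∃ r : ℝ, r = min (s₁ / 4) (σ ^ 2 / (4 * Λ)) := ⟨_, rfl⟩
  have hr0 : 0 < r := by rw [hr]; positivity
  have hr1 : r ≤ s₁ / 4 := by rw [hr]; exact min_le_left _ _
  have hr2 : 2 * Λ * r ≤ σ ^ 2 / 2 := by
    have : r ≤ σ ^ 2 / (4 * Λ) := by rw [hr]; exact min_le_right _ _
    rw [le_div_iff₀ (by positivity)] at this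
    linarith
  obtain ⟨V, hV⟩ : ∃ V : ℝ, V = volume.real (ball (0 : E3) r) := ⟨_, rfl⟩
  have hV0 : 0 < V := by
    rw [hV, measureReal_def]
    exact ENNReal.toReal_pos (measure_ball_pos _ _ hr0).ne' measure_ball_lt_top.ne
  obtain ⟨V4, hV4⟩ : ∃ V : ℝ, V = volume.real (ball (0 : E3) 4) := ⟨_, rfl⟩
  have hV40 : 0 ≤ V4 := by rw [hV4]; positivity
  obtain ⟨θ, hθ⟩ : ∃ θ : ℝ, θ = σ ^ 2 * V / (12 * C * (V4 + 1)) := ⟨_, rfl⟩
  have hθ0 : 0 < θ := by rw [hθ]; positivity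
  have hθ1 : 5 * (C * θ * (V4 + 1)) / V ≤ σ ^ 2 / 2 := by
    rw [div_le_iff₀ hV0, hθ]
    have : 5 * (C * (σ ^ 2 * V / (12 * C * (V4 + 1))) * (V4 + 1)) = 5 / 12 * (σ ^ 2 * V) := by
      field_simp
    rw [this]
    nlinarith [mul_pos (pow_pos hσ 2) hV0]
  refine ⟨θ ^ 2, by positivity, ?_⟩
  intro τ u e hτ hτ' he hO hgrad hub hI1 hI2
  set O : Set E3 := {x | τ < ‖x‖ ∧ ‖x‖ < 8} with hOdef
  set S : Set E3 := ball 0 4 \ closedBall 0 τ with hS
  have hSm : MeasurableSet S := measurableSet_ball.diff measurableSet_closedBall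
  have hSO : S ⊆ O := by
    intro x hx
    have h1 : ‖x‖ < 4 := by simpa using hx.1
    have h2 : τ < ‖x‖ := by simpa using hx.2
    exact ⟨h2, by linarith⟩
  have hQS : NearLin_Q e s₁ ⊆ S := by
    intro x hx
    have := NearLin_Q_sub he hτ' hx
    exact ⟨by simpa using this.2, by simpa using this.1⟩
  have hQm : MeasurableSet (NearLin_Q e s₁) := by
    apply IsOpen.measurableSet
    have hce : Continuous fun x : E3 => (⟪x, e⟫ : ℝ) := by fun_prop
    exact (isOpen_lt continuous_norm continuous_const).inter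
      (isOpen_lt continuous_const hce)
  have hu0 : ∀ x ∈ S, 0 ≤ u x := fun x hx => hO.nonneg x (hSO hx)
  have hu8 : ∀ x ∈ S, u x ≤ 8 * L := fun x hx => hub x (hSO hx).1 (hSO hx).2
  have hDu : ∀ x ∈ S, ‖Du u x‖ ≤ L := fun x hx =>
    DuMeas_norm_Du_le (by linarith) (hgrad x (hSO hx).1 (hSO hx).2)
  have hDe : ∀ x ∈ S, |⟪Du u x, e⟫| ≤ L := fun x hx =>
    (NearLin_inner_le he _).trans (hDu x hx)
  have hDP : ∀ x ∈ S, ‖Du u x - ⟪Du u x, e⟫ • e‖ ≤ 2 * L := by
    intro x hx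
    refine (norm_sub_le _ _).trans ?_
    rw [norm_smul, he, mul_one, Real.norm_eq_abs]
    linarith [hDu x hx, hDe x hx]
  have hT : ∀ x ∈ S, |⟪x, e⟫ * ⟪Du u x, e⟫ - u x| ≤ 12 * L := by
    intro x hx
    have h1 : |⟪x, e⟫ * ⟪Du u x, e⟫| ≤ 4 * L := by
      rw [abs_mul]
      have h4 : ‖x‖ < 4 := by simpa using hx.1
      exact mul_le_mul ((NearLin_inner_le he x).trans h4.le) (hDe x hx) (abs_nonneg _) (by norm_num)
    have h2 := abs_sub (⟪x, e⟫ * ⟪Du u x, e⟫) (u x)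
    rw [abs_of_nonneg (hu0 x hx)] at h2
    linarith [hu8 x hx]
  have hmDu : AEStronglyMeasurable (Du u) (volume.restrict S) :=
    (DuMeas_Du hO).mono_measure (Measure.restrict_mono hSO le_rfl)
  have hmu : AEStronglyMeasurable u (volume.restrict S) :=
    (DuMeas_u hO).mono_measure (Measure.restrict_mono hSO le_rfl)
  have hmDe : AEStronglyMeasurable (fun x => (⟪Du u x, e⟫ : ℝ)) (volume.restrict S) :=
    hmDu.inner aestronglyMeasurable_const
  have hi1 : IntegrableOn (fun x => ‖Du u x - ⟪Du u x, e⟫ • e‖ ^ 2) S := by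
    refine DuMeas_integrableOn (R := 4) (M := (2 * L) ^ 2) hSm ?_ ?_ ?_
    · exact fun x hx => ball_subset_closedBall hx.1
    · exact (hmDu.sub (hmDe.smul aestronglyMeasurable_const)).norm.pow 2
    · intro x hx
      rw [norm_pow, norm_norm]
      exact pow_le_pow_left₀ (norm_nonneg _) (hDP x hx) 2
  have hi2 : IntegrableOn (fun x => (⟪x, e⟫ * ⟪Du u x, e⟫ - u x) ^ 2) S := by
    refine DuMeas_integrableOn (R := 4) (M := (12 * L) ^ 2) hSm ?_ ?_ ?_
    · exact fun x hx => ball_subset_closedBall hx.1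
    · have hce : Continuous fun x : E3 => (⟪x, e⟫ : ℝ) := by fun_prop
      exact ((hce.aestronglyMeasurable.mul hmDe).sub hmu).pow 2
    · intro x hx
      rw [norm_pow, Real.norm_eq_abs]
      exact pow_le_pow_left₀ (abs_nonneg _) (hT x hx) 2
  have hG : ∀ x ∈ NearLin_Q e s₁, HasGradientAt (NearLin_g u e) (NearLin_G u e x) x :=
    fun x hx => NearLin_hasGradientAt hO (hSO (hQS hx)) (by linarith [hx.2])
  have hGb : ∀ x ∈ NearLin_Q e s₁, ‖NearLin_G u e x‖ ≤ C *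
      (‖Du u x - ⟪Du u x, e⟫ • e‖ + |⟪x, e⟫ * ⟪Du u x, e⟫ - u x|) := fun x hx => by
    rw [hC]
    exact NearLin_norm_G_le he hL hs₁ hs₁' hx.2 (hu0 x (hQS hx)) (hu8 x (hQS hx))
  have hGΛ : ∀ x ∈ NearLin_Q e s₁, ‖NearLin_G u e x‖ ≤ Λ := fun x hx => by
    refine (hGb x hx).trans ?_
    rw [hΛ]
    have := hDP x (hQS hx)
    have := hT x (hQS hx)
    nlinarith
  have hGm : AEStronglyMeasurable (NearLin_G u e) (volume.restrict (NearLin_Q e s₁)) := by
    refine (NearLin_measurable_gradient (NearLin_g u e)).aestronglyMeasurable.congr ?_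
    filter_upwards [ae_restrict_mem hQm] with x hx
    exact (hG x hx).gradient
  have hGi : IntegrableOn (fun x => ‖NearLin_G u e x‖) (NearLin_Q e s₁) := by
    refine DuMeas_integrableOn (R := 4) (M := Λ) hQm ?_ hGm.norm ?_
    · exact fun x hx => ball_subset_closedBall (hQS hx).1
    · intro x hx
      rw [norm_norm]
      exact hGΛ x hx
  have hGI : ∫ x in NearLin_Q e s₁, ‖NearLin_G u e x‖ ≤ C * θ * (V4 + 1) := by
    have h1 : ∀ x ∈ NearLin_Q e s₁, ‖NearLin_G u e x‖ ≤ C * θ +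
        C / (2 * θ) * (‖Du u x - ⟪Du u x, e⟫ • e‖ ^ 2 + (⟪x, e⟫ * ⟪Du u x, e⟫ - u x) ^ 2) := by
      intro x hx
      refine (hGb x hx).trans ?_
      have key : ∀ p : ℝ, p ≤ θ / 2 + p ^ 2 / (2 * θ) := by
        intro p
        have : θ / 2 + p ^ 2 / (2 * θ) - p = (θ - p) ^ 2 / (2 * θ) := by field_simp; ring
        have h2 : 0 ≤ (θ - p) ^ 2 / (2 * θ) := by positivity
        linarith
      have h2 := key ‖Du u x - ⟪Du u x, e⟫ • e‖
      have h3 := key |⟪x, e⟫ * ⟪Du u x, e⟫ - u x|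
      rw [sq_abs] at h3
      calc C * (‖Du u x - ⟪Du u x, e⟫ • e‖ + |⟪x, e⟫ * ⟪Du u x, e⟫ - u x|)
          ≤ C * ((θ / 2 + ‖Du u x - ⟪Du u x, e⟫ • e‖ ^ 2 / (2 * θ)) +
            (θ / 2 + (⟪x, e⟫ * ⟪Du u x, e⟫ - u x) ^ 2 / (2 * θ))) :=
            mul_le_mul_of_nonneg_left (add_le_add h2 h3) hC0.le
        _ = _ := by field_simp; ring
    have hj1 := hi1.mono_set hQS
    have hj2 := hi2.mono_set hQS
    have hQfin : volume (NearLin_Q e s₁) < ⊤ :=
      lt_of_le_of_lt (measure_mono fun x hx => (hQS hx).1) measure_ball_lt_top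
    have hconst : IntegrableOn (fun _ : E3 => C * θ) (NearLin_Q e s₁) :=
      integrableOn_const hQfin.ne
    have hsum : IntegrableOn (fun x => C / (2 * θ) * (‖Du u x - ⟪Du u x, e⟫ • e‖ ^ 2 +
        (⟪x, e⟫ * ⟪Du u x, e⟫ - u x) ^ 2)) (NearLin_Q e s₁) := (hj1.add hj2).const_mul _
    calc ∫ x in NearLin_Q e s₁, ‖NearLin_G u e x‖
        ≤ ∫ x in NearLin_Q e s₁, (C * θ + C / (2 * θ) * (‖Du u x - ⟪Du u x, e⟫ • e‖ ^ 2 +
          (⟪x, e⟫ * ⟪Du u x, e⟫ - u x) ^ 2)) :=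
          setIntegral_mono_on hGi (hconst.add hsum) hQm h1
      _ = volume.real (NearLin_Q e s₁) * (C * θ) + C / (2 * θ) *
          ((∫ x in NearLin_Q e s₁, ‖Du u x - ⟪Du u x, e⟫ • e‖ ^ 2) +
            ∫ x in NearLin_Q e s₁, (⟪x, e⟫ * ⟪Du u x, e⟫ - u x) ^ 2) := by
          rw [integral_add hconst hsum, setIntegral_const, smul_eq_mul, integral_const_mul,
            integral_add hj1 hj2]
      _ ≤ V4 * (C * θ) + C / (2 * θ) * (θ ^ 2 + θ ^ 2) := by
          have hv : volume.real (NearLin_Q e s₁) ≤ V4 := by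
            rw [hV4]
            exact measureReal_mono (fun x hx => (hQS hx).1) measure_ball_lt_top.ne
          have k1 : (∫ x in NearLin_Q e s₁, ‖Du u x - ⟪Du u x, e⟫ • e‖ ^ 2) ≤ θ ^ 2 :=
            (setIntegral_mono_set hi1 (Eventually.of_forall fun x => by positivity)
              (LE.le.eventuallyLE hQS)).trans hI1
          have k2 : (∫ x in NearLin_Q e s₁, (⟪x, e⟫ * ⟪Du u x, e⟫ - u x) ^ 2) ≤ θ ^ 2 :=
            (setIntegral_mono_set hi2 (Eventually.of_forall fun x => by positivity)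
              (LE.le.eventuallyLE hQS)).trans hI2
          exact add_le_add (mul_le_mul_of_nonneg_right hv (by positivity))
            (mul_le_mul_of_nonneg_left (add_le_add k1 k2) (by positivity))
      _ = C * θ * (V4 + 1) := by field_simp; ring
  -- the base point
  have hee : (⟪e, e⟫ : ℝ) = 1 := by rw [real_inner_self_eq_norm_sq, he]; norm_num
  have h2e : (⟪(2 : ℝ) • e, e⟫ : ℝ) = 2 := by rw [real_inner_smul_left, hee]; norm_num
  have h2n : ‖(2 : ℝ) • e‖ = 2 := by rw [norm_smul, he]; norm_num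
  have hmain : ∀ x : E3, ‖x‖ ≤ 3 → s₁ ≤ ⟪x, e⟫ →
      |NearLin_g u e x - NearLin_g u e ((2 : ℝ) • e)| ≤ σ ^ 2 := by
    intro x hx3 hxs
    have hxs3 : (⟪x, e⟫ : ℝ) ≤ 3 := (le_abs_self _).trans ((NearLin_inner_le he x).trans hx3)
    have := NearLin_core (g := NearLin_g u e) (G := NearLin_G u e) (Q := NearLin_Q e s₁)
      (Λ := Λ) (I := C * θ * (V4 + 1)) (η := s₁ / 24) (r := r) (x := (2 : ℝ) • e) (x' := x)
      (NearLin_convex e s₁) hG hGΛ hGi hGI (by positivity) hr0 (by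
        intro t ht w hw
        have hwn : ‖w‖ < r := by simpa using hw
        have hwe : |⟪w, e⟫| < r := lt_of_le_of_lt (NearLin_inner_le he w) hwn
        have hwe' := (abs_lt.1 hwe).1
        constructor
        · have h1 : ‖(2 : ℝ) • e + t • (x - (2 : ℝ) • e) + w‖ ≤
              |1 - t| * 2 + |t| * 3 + r := by
            have h2 : (2 : ℝ) • e + t • (x - (2 : ℝ) • e) + w =
              (1 - t) • ((2 : ℝ) • e) + t • x + w := by
              rw [smul_sub, sub_smul, one_smul]; abel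
            rw [h2]
            refine (norm_add₃_le).trans ?_
            rw [norm_smul (1 - t), norm_smul t, h2n, Real.norm_eq_abs, Real.norm_eq_abs]
            have := mul_le_mul_of_nonneg_left hx3 (abs_nonneg t)
            linarith
          have h3 : |1 - t| * 2 + |t| * 3 ≤ 3 + 5 * (s₁ / 24) := by
            rcases abs_cases (1 - t) with ⟨h, h'⟩ | ⟨h, h'⟩ <;>
            rcases abs_cases t with ⟨k, k'⟩ | ⟨k, k'⟩ <;> rw [h, k] <;> linarith [ht.1, ht.2]
          show ‖(2 : ℝ) • e + t • (x - (2 : ℝ) • e) + w‖ < 4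
          linarith
        · show s₁ / 2 < ⟪(2 : ℝ) • e + t • (x - (2 : ℝ) • e) + w, e⟫
          have h1 : (⟪(2 : ℝ) • e + t • (x - (2 : ℝ) • e) + w, e⟫ : ℝ) =
              2 + t * (⟪x, e⟫ - 2) + ⟪w, e⟫ := by
            rw [inner_add_left, inner_add_left, real_inner_smul_left _ _ t, inner_sub_left, h2e]
          rw [h1]
          rcases le_total (⟪x, e⟫ : ℝ) 2 with h | h
          · have : (1 + s₁ / 24) * (⟪x, e⟫ - 2) ≤ t * (⟪x, e⟫ - 2) :=
              mul_le_mul_of_nonpos_right ht.2 (by linarith)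
            nlinarith
          · have : (-(s₁ / 24)) * (⟪x, e⟫ - 2) ≤ t * (⟪x, e⟫ - 2) :=
              mul_le_mul_of_nonneg_right ht.1 (by linarith)
            nlinarith)
    refine this.trans ?_
    rw [← hV]
    have h5 : ‖x - (2 : ℝ) • e‖ ≤ 5 := by
      refine (norm_sub_le _ _).trans ?_
      rw [h2n]; linarith
    have h6 : ‖x - (2 : ℝ) • e‖ * (C * θ * (V4 + 1)) / V ≤ 5 * (C * θ * (V4 + 1)) / V := by
      apply div_le_div_of_nonneg_right _ hV0.le
      exact mul_le_mul_of_nonneg_right h5 (by positivity)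
    linarith
  have h2S : (2 : ℝ) • e ∈ S := by
    refine ⟨by simp [norm_smul, he]; norm_num, ?_⟩
    simp only [mem_closedBall, dist_zero_right, not_le]
    rw [h2n]; linarith
  refine ⟨u ((2 : ℝ) • e) / 2, by linarith [hu0 _ h2S], by linarith [hu8 _ h2S], ?_⟩
  intro x hx3 hxs
  have hs0 : 0 < (⟪x, e⟫ : ℝ) := by linarith
  have hxS : x ∈ S := hQS ⟨by linarith, by linarith⟩
  have h1 := hmain x hx3 hxs
  have h2 : NearLin_g u e ((2 : ℝ) • e) = (u ((2 : ℝ) • e) / 2) ^ 2 := by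
    unfold NearLin_g; rw [h2e]; ring
  have h3 : NearLin_g u e x = (u x / ⟪x, e⟫) ^ 2 := by
    unfold NearLin_g; rw [div_pow]
  rw [h2, h3] at h1
  set p : ℝ := u x / ⟪x, e⟫ with hp
  set a : ℝ := u ((2 : ℝ) • e) / 2 with ha
  have hp0 : 0 ≤ p := div_nonneg (hu0 x hxS) hs0.le
  have ha0 : 0 ≤ a := by rw [ha]; linarith [hu0 _ h2S]
  have h4 : |p - a| ≤ σ := by
    have h5 : |p - a| ^ 2 ≤ σ ^ 2 := by
      calc |p - a| ^ 2 = |p - a| * |p - a| := sq _
        _ ≤ |p - a| * |p + a| := by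
          apply mul_le_mul_of_nonneg_left _ (abs_nonneg _)
          rw [abs_of_nonneg (add_nonneg hp0 ha0), abs_le]
          constructor <;> linarith
        _ = |p ^ 2 - a ^ 2| := by rw [← abs_mul]; congr 1; ring
        _ ≤ σ ^ 2 := h1
    exact abs_le_of_sq_le_sq' h5 hσ.le |>.2 |> fun h => h
  have h5 : u x - a * ⟪x, e⟫ = (p - a) * ⟪x, e⟫ := by rw [hp]; field_simp
  rw [h5, abs_mul, abs_of_pos hs0]
  exact mul_le_mul_of_nonneg_right h4 hs0.le

end Pool.Agent.H32.Flat
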