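import Pool.Agent.H32.Flat.OneDim
import Pool.Agent.H32.Flat.NearLin
import Pool.Agent.H32.Flat.Consts

/-!
# Module G5: almost conical solutions are close to a half-plane solution

Combine `exists_dir`, `near_linear` (for `e` and `-e`) and `consts`; after replacing `e` by `-e` we have
`a ≈ 1`, `b ≈ 0`.  For `|⟪x,e⟫| < s₁` and `|x| ≥ σ` move to `x' = x ± 2 s₁ e` (sign of `⟪x,e⟫`; the segment
stays in `{τ < |x| < 8}`) and use the Lipschitz bound (`lip_seg`).  This gives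
`|u x - max ⟪x,e⟫ 0| ≤ σ'` for `σ' ≤ |x| ≤ 1`, any prescribed `σ'`.
Flatness: `⟪x,e⟫ > σ'` gives `u x > 0`.  Let `Z = {‖x‖ < 3/4, ⟪x,e⟫ < -σ/2}` (convex).  If `y ∈ Z` is `FB`,
then `volF` at `y` with `ρ = σ/8` gives `∫_{ball y ρ} wt⁴ ind u ≥ (mm/2 - κ) ρ³`, so `{u > 0}` has volume
`≥ (mm/2-κ)ρ³` in `{⟪x,e⟫ < 0, |x| ≤ 7/8}` where `wt(|x|²)⁴ ≥ (15/64)⁴`; but
`∫_{⟪x,e⟫<0} wt(|x|²)⁴ ind u ≤ κ + Cσ'` by `vol0` and `half_mm` (as `u > 0` on `⟪x,e⟫ > σ'`): contradiction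
for `κ, σ' ≪ σ³`.  So `Z` has no `FB` points and `pos_or_zero_of_preconnected` gives `u = 0` on `Z`
(`u > 0` contradicts the volume bound again).
-/

open Set Metric MeasureTheory Filter Topology InnerProductSpace
open scoped Laplacian Gradient RealInnerProductSpace

namespace Pool.Agent.H32.Flat

theorem Close_mono {L κ κ' τ : ℝ} {u : E3 → ℝ} (hA : AlmostCone L κ τ u) (h : κ ≤ κ') :
    AlmostCone L κ' τ u where
  onePhase := hA.onePhase
  lip := hA.lip
  bound := hA.bound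
  hom0 := hA.hom0.trans h
  homF := fun y h1 h2 h3 => (hA.homF y h1 h2 h3).trans h
  vol0 := hA.vol0.trans h
  volF := fun y h1 h2 ρ h3 h4 h5 => (hA.volF y h1 h2 ρ h3 h4 h5).trans h
  nondeg := hA.nondeg

theorem Close_wt_nonneg (t : ℝ) : 0 ≤ wt t := le_max_right _ _

theorem Close_wt_le_one {t : ℝ} (ht : 0 ≤ t) : wt t ≤ 1 := max_le (by linarith) zero_le_one

theorem Close_wt_continuous : Continuous wt := by
  unfold wt; fun_prop

theorem Close_W_continuous : Continuous fun x : E3 => wt (‖x‖ ^ 2) ^ 4 :=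
  (Close_wt_continuous.comp (by fun_prop)).pow 4

theorem Close_W_zero {x : E3} (hx : 1 ≤ ‖x‖) : wt (‖x‖ ^ 2) ^ 4 = 0 := by
  have : wt (‖x‖ ^ 2) = 0 := by
    unfold wt
    exact max_eq_right (by nlinarith)
  rw [this]; norm_num

theorem Close_W_nonneg (x : E3) : 0 ≤ wt (‖x‖ ^ 2) ^ 4 := pow_nonneg (Close_wt_nonneg _) 4

theorem Close_W_le_one (x : E3) : wt (‖x‖ ^ 2) ^ 4 ≤ 1 :=
  pow_le_one₀ (Close_wt_nonneg _) (Close_wt_le_one (sq_nonneg _))

theorem Close_W_lower {x : E3} (hx : ‖x‖ ≤ 7 / 8) : (15 / 64 : ℝ) ^ 4 ≤ wt (‖x‖ ^ 2) ^ 4 := by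
  apply pow_le_pow_left₀ (by norm_num)
  unfold wt
  refine le_trans ?_ (le_max_left _ _)
  nlinarith [norm_nonneg x]

theorem Close_W_integrable : Integrable fun x : E3 => wt (‖x‖ ^ 2) ^ 4 := by
  apply Close_W_continuous.integrable_of_hasCompactSupport
  apply HasCompactSupport.of_support_subset_isCompact (isCompact_closedBall (0 : E3) 1)
  intro x hx
  by_contra h
  apply hx
  apply Close_W_zero
  simp only [mem_closedBall, dist_zero_right, not_le] at h
  exact h.le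

/-- the mass of the positive phase on the negative side is small -/
theorem Close_neg_mass {L κ τ s₁ : ℝ} {u : E3 → ℝ} {e : E3} (hA : AlmostCone L κ τ u)
    (he : ‖e‖ = 1) (hτ : 0 < τ) (hs₁ : 0 < s₁)
    (hpos : ∀ x : E3, τ < ‖x‖ → ‖x‖ ≤ 1 → s₁ ≤ ⟪x, e⟫ → 0 < u x) :
    ∫ x in (ball 0 4 \ closedBall 0 τ) ∩ {x | (⟪x, e⟫ : ℝ) ≤ 0}, wt (‖x‖ ^ 2) ^ 4 * ind u x ≤
      κ + 8 * s₁ + 8 * τ ^ 3 := by
  set S : Set E3 := ball 0 4 \ closedBall 0 τ with hS
  have hSm : MeasurableSet S := measurableSet_ball.diff measurableSet_closedBall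
  have hSO : S ⊆ {x | τ < ‖x‖ ∧ ‖x‖ < 8} := by
    intro x hx
    have h1 : ‖x‖ < 4 := by simpa using hx.1
    have h2 : τ < ‖x‖ := by simpa using hx.2
    exact ⟨h2, by linarith⟩
  have hce : Continuous fun x : E3 => (⟪x, e⟫ : ℝ) := by fun_prop
  have hNm : MeasurableSet {x : E3 | (⟪x, e⟫ : ℝ) ≤ 0} :=
    (isClosed_le hce continuous_const).measurableSet
  have hPm : MeasurableSet {x : E3 | 0 < (⟪x, e⟫ : ℝ)} :=
    (isOpen_lt continuous_const hce).measurableSet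
  have hTm : MeasurableSet {x : E3 | s₁ ≤ (⟪x, e⟫ : ℝ)} :=
    (isClosed_le continuous_const hce).measurableSet
  have hint : IntegrableOn (fun x => wt (‖x‖ ^ 2) ^ 4 * ind u x) S := by
    refine DuMeas_integrableOn (R := 4) (M := 1) hSm (fun x hx => ball_subset_closedBall hx.1) ?_ ?_
    · exact Close_W_continuous.aestronglyMeasurable.mul
        ((DuMeas_ind hA.onePhase).mono_measure (Measure.restrict_mono hSO le_rfl))
    · intro x _
      rw [norm_mul, Real.norm_eq_abs, Real.norm_eq_abs, abs_of_nonneg (Close_W_nonneg x),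
        abs_of_nonneg (DuMeas_ind_nonneg x)]
      calc wt (‖x‖ ^ 2) ^ 4 * ind u x ≤ 1 * 1 :=
            mul_le_mul (Close_W_le_one x) (DuMeas_ind_le_one x) (DuMeas_ind_nonneg x) zero_le_one
        _ = 1 := one_mul 1
  -- split
  have hsplit : ∫ x in S, wt (‖x‖ ^ 2) ^ 4 * ind u x =
      (∫ x in S ∩ {x | (⟪x, e⟫ : ℝ) ≤ 0}, wt (‖x‖ ^ 2) ^ 4 * ind u x) +
      ∫ x in S \ {x | (⟪x, e⟫ : ℝ) ≤ 0}, wt (‖x‖ ^ 2) ^ 4 * ind u x :=
    (integral_inter_add_sdiff hNm hint).symm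
  have h1 : ∫ x in S ∩ {x : E3 | s₁ ≤ (⟪x, e⟫ : ℝ)}, wt (‖x‖ ^ 2) ^ 4 ≤
      ∫ x in S \ {x | (⟪x, e⟫ : ℝ) ≤ 0}, wt (‖x‖ ^ 2) ^ 4 * ind u x := by
    have hsub : S ∩ {x : E3 | s₁ ≤ (⟪x, e⟫ : ℝ)} ⊆ S \ {x | (⟪x, e⟫ : ℝ) ≤ 0} := by
      intro x hx
      refine ⟨hx.1, fun h => ?_⟩
      have h2 : s₁ ≤ (⟪x, e⟫ : ℝ) := hx.2
      have h3 : (⟪x, e⟫ : ℝ) ≤ 0 := h
      linarith
    calc ∫ x in S ∩ {x : E3 | s₁ ≤ (⟪x, e⟫ : ℝ)}, wt (‖x‖ ^ 2) ^ 4
        = ∫ x in S ∩ {x : E3 | s₁ ≤ (⟪x, e⟫ : ℝ)}, wt (‖x‖ ^ 2) ^ 4 * ind u x := by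
          apply setIntegral_congr_fun (hSm.inter hTm)
          intro x hx
          show wt (‖x‖ ^ 2) ^ 4 = wt (‖x‖ ^ 2) ^ 4 * ind u x
          by_cases h : ‖x‖ ≤ 1
          · have := hpos x (hSO hx.1).1 h hx.2
            simp [ind, this]
          · rw [Close_W_zero (not_le.1 h).le, zero_mul]
      _ ≤ ∫ x in S \ {x | (⟪x, e⟫ : ℝ) ≤ 0}, wt (‖x‖ ^ 2) ^ 4 * ind u x :=
          setIntegral_mono_set (hint.mono_set sdiff_subset)
            (Eventually.of_forall fun x => mul_nonneg (Close_W_nonneg x) (DuMeas_ind_nonneg x))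
            (LE.le.eventuallyLE hsub)
  have h2 : mm / 2 ≤ (∫ x in S ∩ {x : E3 | s₁ ≤ (⟪x, e⟫ : ℝ)}, wt (‖x‖ ^ 2) ^ 4) +
      (8 * s₁ + 8 * τ ^ 3) := by
    rw [← half_mm he]
    set T : Set E3 := S ∩ {x : E3 | s₁ ≤ (⟪x, e⟫ : ℝ)} with hT
    set P : Set E3 := {x : E3 | 0 < (⟪x, e⟫ : ℝ)} with hP
    have hTP : T ⊆ P := by
      intro x hx
      have h2 : s₁ ≤ (⟪x, e⟫ : ℝ) := hx.2
      exact lt_of_lt_of_le hs₁ h2
    have hTmm : MeasurableSet T := hSm.inter hTm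
    have h3 := integral_inter_add_sdiff (s := P) (t := T) hTmm
      (Close_W_integrable.integrableOn (s := P))
    rw [inter_eq_self_of_subset_right hTP] at h3
    rw [← h3]
    gcongr
    set A : Set E3 := {x : E3 | ‖x‖ ≤ 1 ∧ |(⟪x, e⟫ : ℝ)| ≤ s₁} ∪ closedBall 0 τ with hA'
    have hslab_m : MeasurableSet {x : E3 | ‖x‖ ≤ 1 ∧ |(⟪x, e⟫ : ℝ)| ≤ s₁} :=
      ((isClosed_le continuous_norm continuous_const).inter
        (isClosed_le hce.abs continuous_const)).measurableSet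
    have hAm : MeasurableSet A := hslab_m.union measurableSet_closedBall
    have hslab_fin : volume {x : E3 | ‖x‖ ≤ 1 ∧ |(⟪x, e⟫ : ℝ)| ≤ s₁} ≠ ⊤ := by
      refine (lt_of_le_of_lt (measure_mono (t := closedBall 0 1) fun x hx => ?_)
        measure_closedBall_lt_top).ne
      simpa using hx.1
    have hAfin : volume A ≠ ⊤ := by
      refine (measure_union_lt_top (lt_top_iff_ne_top.2 hslab_fin) measure_closedBall_lt_top).ne
    have h4 : ∫ x in P \ T, wt (‖x‖ ^ 2) ^ 4 = ∫ x in (P \ T) ∩ A, wt (‖x‖ ^ 2) ^ 4 := by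
      apply setIntegral_eq_of_subset_of_forall_sdiff_eq_zero (hPm.diff hTmm) inter_subset_left
      intro x hx
      have hxP : 0 < (⟪x, e⟫ : ℝ) := hx.1.1
      have hxT : x ∉ T := hx.1.2
      have hxA : x ∉ A := fun h => hx.2 ⟨hx.1, h⟩
      by_contra hne
      have hx1 : ‖x‖ < 1 := by
        by_contra h
        exact hne (Close_W_zero (not_lt.1 h))
      apply hxT
      have hxτ : τ < ‖x‖ := by
        by_contra h
        exact hxA (Or.inr (by simpa using h))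
      refine ⟨⟨by simp only [mem_ball, dist_zero_right]; linarith,
        by simpa using hxτ⟩, ?_⟩
      show s₁ ≤ (⟪x, e⟫ : ℝ)
      by_contra h
      exact hxA (Or.inl ⟨hx1.le, by rw [abs_of_pos hxP]; exact (not_le.1 h).le⟩)
    rw [h4]
    have h5 : volume.real A ≤ 8 * s₁ + 8 * τ ^ 3 := by
      refine (measureReal_union_le _ _).trans ?_
      have k1 := volume_slab he (R := 1) (c := s₁) zero_le_one hs₁.le
      have k2 := volume_ball_le (y := 0) (R := τ) hτ.le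
      linarith
    calc ∫ x in (P \ T) ∩ A, wt (‖x‖ ^ 2) ^ 4
        ≤ ∫ _x in (P \ T) ∩ A, (1 : ℝ) := by
          have hfin : volume ((P \ T) ∩ A) ≠ ⊤ := ne_top_of_le_ne_top hAfin
            (measure_mono inter_subset_right)
          exact setIntegral_mono_on Close_W_integrable.integrableOn (integrableOn_const hfin)
            ((hPm.diff hTmm).inter hAm) fun x _ => Close_W_le_one x
      _ = volume.real ((P \ T) ∩ A) := by simp
      _ ≤ volume.real A := measureReal_mono inter_subset_right hAfin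
      _ ≤ _ := h5
  have h3 := (abs_le.1 hA.vol0).2
  linarith only [hsplit, h1, h2, h3]


theorem Close_core {L σ κ τ s₁ a b : ℝ} {u : E3 → ℝ} {e : E3} (hL : 1 ≤ L) (hσ : 0 < σ)
    (hσ1 : σ ≤ 1 / 100) (he : ‖e‖ = 1) (hτ : 0 < τ) (hA : AlmostCone L κ τ u) (hs₁ : 0 < s₁)
    (hs2 : (2 * L + 7) * s₁ ≤ σ / 2) (ha : |a - 1| ≤ σ / 4) (hb0 : 0 ≤ b) (hb : b ≤ σ / 4)
    (hplus : ∀ x : E3, ‖x‖ ≤ 3 → s₁ ≤ ⟪x, e⟫ → |u x - a * ⟪x, e⟫| ≤ s₁ * ⟪x, e⟫)
    (hminus : ∀ x : E3, ‖x‖ ≤ 3 → s₁ ≤ ⟪x, -e⟫ → |u x - b * ⟪x, -e⟫| ≤ s₁ * ⟪x, -e⟫)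
    (hτσ : τ ≤ σ / 8) (hκ : κ ≤ mm / 4)
    (hE : κ + 8 * s₁ + 8 * τ ^ 3 < (15 / 64) ^ 4 * (mm / 4) * (σ / 8) ^ 3)
    (hE2 : κ + 8 * s₁ + 8 * τ ^ 3 < (15 / 64) ^ 4 * volume.real (ball (0 : E3) (1 / 8))) :
    ∀ x : E3, σ ≤ ‖x‖ → ‖x‖ ≤ 1 / 2 →
      |u x - max ⟪x, e⟫ 0| ≤ σ ∧ (σ < ⟪x, e⟫ → 0 < u x) ∧ (⟪x, e⟫ < -σ → u x = 0) := by
  set O : Set E3 := {x | τ < ‖x‖ ∧ ‖x‖ < 8} with hOdef
  have hO : OnePhase O u := hA.onePhase
  have hs1σ : s₁ ≤ σ / 18 := by nlinarith only [hL, hs₁, hs2]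
  have ha' := abs_le.1 ha
  have hin : ∀ x : E3, |(⟪x, e⟫ : ℝ)| ≤ ‖x‖ := fun x => by
    have := abs_real_inner_le_norm x e
    rwa [he, mul_one] at this
  have hpos : ∀ x : E3, ‖x‖ ≤ 3 → s₁ ≤ ⟪x, e⟫ → 0 < u x := by
    intro x hx hxs
    have := (abs_le.1 (hplus x hx hxs)).1
    have h1 : 0 < (a - s₁) * ⟪x, e⟫ := by
      apply mul_pos _ (by linarith only [hs₁, hxs])
      linarith only [hσ1, hs1σ, ha']
    nlinarith only [this, h1]
  have hmass := Close_neg_mass hA he hτ hs₁ (fun x _ hx1 hxs => hpos x (by linarith only [hx1]) hxs)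
  have hmm : 0 < mm := mm_pos
  set S : Set E3 := ball 0 4 \ closedBall 0 τ with hS
  have hSm : MeasurableSet S := measurableSet_ball.diff measurableSet_closedBall
  have hSO : S ⊆ O := by
    intro x hx
    have h1 : ‖x‖ < 4 := by simpa using hx.1
    have h2 : τ < ‖x‖ := by simpa using hx.2
    exact ⟨h2, by linarith only [h1]⟩
  have hint : IntegrableOn (fun x => wt (‖x‖ ^ 2) ^ 4 * ind u x)
      (S ∩ {x | (⟪x, e⟫ : ℝ) ≤ 0}) := by
    have hce : Continuous fun x : E3 => (⟪x, e⟫ : ℝ) := by fun_prop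
    refine DuMeas_integrableOn (R := 4) (M := 1)
      (hSm.inter (isClosed_le hce continuous_const).measurableSet)
      (fun x hx => ball_subset_closedBall hx.1.1) ?_ ?_
    · exact Close_W_continuous.aestronglyMeasurable.mul
        ((DuMeas_ind hO).mono_measure (Measure.restrict_mono (inter_subset_left.trans hSO) le_rfl))
    · intro x _
      rw [norm_mul, Real.norm_eq_abs, Real.norm_eq_abs, abs_of_nonneg (Close_W_nonneg x),
        abs_of_nonneg (DuMeas_ind_nonneg x)]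
      calc wt (‖x‖ ^ 2) ^ 4 * ind u x ≤ 1 * 1 :=
            mul_le_mul (Close_W_le_one x) (DuMeas_ind_le_one x) (DuMeas_ind_nonneg x) zero_le_one
        _ = 1 := one_mul 1
  -- lower bounds on small balls
  have hball : ∀ B : Set E3, MeasurableSet B → B ⊆ S ∩ {x | (⟪x, e⟫ : ℝ) ≤ 0} →
      (∀ x ∈ B, ‖x‖ ≤ 7 / 8) → (15 / 64 : ℝ) ^ 4 * ∫ x in B, ind u x ≤ κ + 8 * s₁ + 8 * τ ^ 3 := by
    intro B hBm hBs hB7
    refine le_trans ?_ hmass
    have hiB : IntegrableOn (ind u) B := by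
      refine DuMeas_integrableOn (R := 4) (M := 1) hBm
        (fun x hx => ball_subset_closedBall (hBs hx).1.1) ?_ ?_
      · exact (DuMeas_ind hO).mono_measure
          (Measure.restrict_mono (hBs.trans (inter_subset_left.trans hSO)) le_rfl)
      · intro x _
        rw [Real.norm_eq_abs, abs_of_nonneg (DuMeas_ind_nonneg x)]
        exact DuMeas_ind_le_one x
    rw [← integral_const_mul]
    calc ∫ x in B, (15 / 64 : ℝ) ^ 4 * ind u x
        ≤ ∫ x in B, wt (‖x‖ ^ 2) ^ 4 * ind u x :=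
          setIntegral_mono_on (hiB.const_mul _) (hint.mono_set hBs) hBm fun x hx =>
            mul_le_mul_of_nonneg_right (Close_W_lower (hB7 x hx)) (DuMeas_ind_nonneg x)
      _ ≤ _ := setIntegral_mono_set hint
          (Eventually.of_forall fun x => mul_nonneg (Close_W_nonneg x) (DuMeas_ind_nonneg x))
          (LE.le.eventuallyLE hBs)
  -- no free boundary points in Z
  set Z : Set E3 := {x | ‖x‖ < 3 / 4 ∧ (⟪x, e⟫ : ℝ) < -(σ / 2)} with hZ
  have hZn : ∀ x ∈ Z, σ / 2 < ‖x‖ := by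
    intro x hx
    have h1 := (abs_le.1 (hin x)).1
    have h2 : (⟪x, e⟫ : ℝ) < -(σ / 2) := hx.2
    linarith only [h1, h2]
  have hZO : Z ⊆ O := fun x hx => ⟨by have := hZn x hx; linarith only [hs₁, hτσ, hs1σ, this], by
    have : ‖x‖ < 3 / 4 := hx.1
    linarith only [this]⟩
  have hZF : ∀ y ∈ Z, ¬ FB u y := by
    intro y hy hF
    have hyn : ‖y‖ < 3 / 4 := hy.1
    have hye : (⟪y, e⟫ : ℝ) < -(σ / 2) := hy.2
    have hyσ := hZn y hy
    have hv := hA.volF y (by linarith only [hyn]) hF (σ / 8) (by positivity) (by linarith only [hσ1]) (by linarith only [hs₁, hτσ, hs1σ, hyσ])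
    have hBS : ball y (σ / 8) ⊆ S ∩ {x | (⟪x, e⟫ : ℝ) ≤ 0} := by
      intro x hx
      have hxy : ‖x - y‖ < σ / 8 := by simpa [dist_eq_norm] using hx
      have h1 : ‖x‖ ≤ ‖y‖ + ‖x - y‖ := by
        have := norm_add_le y (x - y); rwa [add_sub_cancel] at this
      have h2 : ‖y‖ ≤ ‖x‖ + ‖x - y‖ := by
        have := norm_sub_le x (x - y); rwa [sub_sub_cancel] at this
      have h3 : (⟪x, e⟫ : ℝ) = ⟪y, e⟫ + ⟪x - y, e⟫ := by rw [← inner_add_left, add_sub_cancel]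
      have h4 := (abs_le.1 (hin (x - y))).2
      refine ⟨⟨by simp only [mem_ball, dist_zero_right]; linarith only [hσ1, hyn, hxy, h1],
        by simp only [mem_closedBall, dist_zero_right, not_le]; linarith only [hs₁, hτσ, hs1σ, hyσ, hxy, h2]⟩, ?_⟩
      show (⟪x, e⟫ : ℝ) ≤ 0
      rw [h3]; linarith only [hs₁, hs1σ, hye, hxy, h4]
    have hB7 : ∀ x ∈ ball y (σ / 8), ‖x‖ ≤ 7 / 8 := by
      intro x hx
      have hxy : ‖x - y‖ < σ / 8 := by simpa [dist_eq_norm] using hx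
      have h1 : ‖x‖ ≤ ‖y‖ + ‖x - y‖ := by
        have := norm_add_le y (x - y); rwa [add_sub_cancel] at this
      linarith only [hσ1, hs₁, hyn, hxy, h1]
    have h5 := hball _ measurableSet_ball hBS hB7
    have hiB : IntegrableOn (ind u) (ball y (σ / 8)) := by
      refine DuMeas_integrableOn (R := 4) (M := 1) measurableSet_ball
        (fun x hx => ball_subset_closedBall (hBS hx).1.1) ?_ ?_
      · exact (DuMeas_ind hO).mono_measure
          (Measure.restrict_mono (hBS.trans (inter_subset_left.trans hSO)) le_rfl)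
      · intro x _
        rw [Real.norm_eq_abs, abs_of_nonneg (DuMeas_ind_nonneg x)]
        exact DuMeas_ind_le_one x
    have hwtc : Continuous fun x : E3 => wt (‖x - y‖ ^ 2 / (σ / 8) ^ 2) ^ 4 :=
      (Close_wt_continuous.comp (by fun_prop)).pow 4
    have h6 : ∫ x in ball y (σ / 8), wt (‖x - y‖ ^ 2 / (σ / 8) ^ 2) ^ 4 * ind u x ≤
        ∫ x in ball y (σ / 8), ind u x := by
      refine integral_mono_of_nonneg (Eventually.of_forall fun x =>
        mul_nonneg (pow_nonneg (Close_wt_nonneg _) 4) (DuMeas_ind_nonneg x)) hiB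
        (Eventually.of_forall fun x => ?_)
      show wt (‖x - y‖ ^ 2 / (σ / 8) ^ 2) ^ 4 * ind u x ≤ ind u x
      exact mul_le_of_le_one_left (DuMeas_ind_nonneg x)
        (pow_le_one₀ (Close_wt_nonneg _) (Close_wt_le_one (by positivity)))
    have h7 : mm / 4 * (σ / 8) ^ 3 ≤ ∫ x in ball y (σ / 8), ind u x := by
      refine le_trans ?_ h6
      have h8 := (abs_le.1 hv).1
      rw [neg_le_sub_iff_le_add, div_mul_eq_mul_div, one_mul] at h8
      have h9 : mm / 4 ≤ (∫ x in ball y (σ / 8), wt (‖x - y‖ ^ 2 / (σ / 8) ^ 2) ^ 4 * ind u x) /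
          (σ / 8) ^ 3 := by linarith only [hκ, h8]
      rwa [le_div_iff₀ (by positivity)] at h9
    have h10 : (15 / 64 : ℝ) ^ 4 * (mm / 4) * (σ / 8) ^ 3 ≤
        (15 / 64 : ℝ) ^ 4 * ∫ x in ball y (σ / 8), ind u x := by
      rw [mul_assoc]
      exact mul_le_mul_of_nonneg_left h7 (by positivity)
    linarith only [hE, h5, h7]
  have hZc : Convex ℝ Z := by
    have h1 : Convex ℝ {x : E3 | ‖x‖ < 3 / 4} := by
      have := convex_ball (0 : E3) (3 / 4)
      simpa [ball, dist_zero_right] using this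
    have h2 : Convex ℝ {x : E3 | (⟪x, e⟫ : ℝ) < -(σ / 2)} := by
      have hlin : IsLinearMap ℝ (fun x : E3 => (⟪x, e⟫ : ℝ)) :=
        ⟨fun x y => inner_add_left _ _ _, fun c x => by simp [real_inner_smul_left]⟩
      exact convex_halfSpace_lt hlin _
    exact h1.inter h2
  have hZ0 : ∀ x ∈ Z, u x = 0 := by
    rcases pos_or_zero_of_preconnected hO hZc.isPreconnected hZO hZF with h | h
    · exfalso
      have hBZ : ball (-((1 / 2 : ℝ) • e)) (1 / 8) ⊆ Z := by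
        intro x hx
        have hxy : ‖x - (-((1 / 2 : ℝ) • e))‖ < 1 / 8 := by simpa [dist_eq_norm] using hx
        have hn : ‖(-((1 / 2 : ℝ) • e))‖ = 1 / 2 := by
          rw [norm_neg, norm_smul, he]; norm_num
        have h1 : ‖x‖ ≤ ‖(-((1 / 2 : ℝ) • e))‖ + ‖x - (-((1 / 2 : ℝ) • e))‖ := by
          have := norm_add_le (-((1 / 2 : ℝ) • e)) (x - (-((1 / 2 : ℝ) • e)))
          rwa [add_sub_cancel] at this
        have h3 : (⟪x, e⟫ : ℝ) = ⟪-((1 / 2 : ℝ) • e), e⟫ + ⟪x - (-((1 / 2 : ℝ) • e)), e⟫ := by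
          rw [← inner_add_left, add_sub_cancel]
        have h4 := (abs_le.1 (hin (x - (-((1 / 2 : ℝ) • e))))).2
        have h5 : (⟪-((1 / 2 : ℝ) • e), e⟫ : ℝ) = -(1 / 2) := by
          rw [inner_neg_left, real_inner_smul_left, real_inner_self_eq_norm_sq, he]; norm_num
        refine ⟨?_, ?_⟩
        · show ‖x‖ < 3 / 4
          rw [hn] at h1; linarith only [hs₁, hs1σ, hxy, h1]
        · show (⟪x, e⟫ : ℝ) < -(σ / 2)
          rw [h3, h5]; linarith only [hσ1, hxy, h4]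
      have hBS : ball (-((1 / 2 : ℝ) • e)) (1 / 8) ⊆ S ∩ {x | (⟪x, e⟫ : ℝ) ≤ 0} := by
        intro x hx
        have hxZ := hBZ hx
        have h1 : ‖x‖ < 3 / 4 := hxZ.1
        have h2 : (⟪x, e⟫ : ℝ) < -(σ / 2) := hxZ.2
        have h3 := hZn x hxZ
        refine ⟨⟨by simp only [mem_ball, dist_zero_right]; linarith only [h1],
          by simp only [mem_closedBall, dist_zero_right, not_le]; linarith only [hs₁, hτσ, hs1σ, h3]⟩, ?_⟩
        show (⟪x, e⟫ : ℝ) ≤ 0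
        linarith only [hs₁, hs1σ, h2]
      have h5 := hball _ measurableSet_ball hBS (fun x hx => by
        have : ‖x‖ < 3 / 4 := (hBZ hx).1
        linarith only [this])
      have h6 : ∫ x in ball (-((1 / 2 : ℝ) • e)) (1 / 8), ind u x =
          volume.real (ball (0 : E3) (1 / 8)) := by
        have h7 : ∫ x in ball (-((1 / 2 : ℝ) • e)) (1 / 8), ind u x =
            ∫ _x in ball (-((1 / 2 : ℝ) • e)) (1 / 8), (1 : ℝ) := by
          apply setIntegral_congr_fun measurableSet_ball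
          intro x hx
          simp [ind, h x (hBZ hx)]
        rw [h7, setIntegral_const, smul_eq_mul, mul_one, measureReal_def, measureReal_def]
        congr 1
        exact Measure.addHaar_ball_center _ _ _
      rw [h6] at h5
      linarith only [hE2, h5]
    · exact h
  intro x hxσ hx2
  refine ⟨?_, ?_, ?_⟩
  · -- closeness
    rcases le_total s₁ (⟪x, e⟫ : ℝ) with h | h
    · rw [max_eq_left (by linarith only [hs₁, h])]
      have h1 := hplus x (by linarith only [hx2]) h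
      have h2 : (⟪x, e⟫ : ℝ) ≤ 1 / 2 := ((abs_le.1 (hin x)).2).trans hx2
      have h3 : |(a - 1) * ⟪x, e⟫| ≤ σ / 4 * (1 / 2) := by
        rw [abs_mul, abs_of_nonneg (by linarith only [hs₁, h] : 0 ≤ (⟪x, e⟫ : ℝ))]
        exact mul_le_mul ha h2 (by linarith only [hs₁, h]) (by linarith)
      have h4 : u x - ⟪x, e⟫ = (u x - a * ⟪x, e⟫) + (a - 1) * ⟪x, e⟫ := by ring
      rw [h4]
      refine (abs_add_le _ _).trans ?_
      have h5 : s₁ * ⟪x, e⟫ ≤ s₁ * (1 / 2) := mul_le_mul_of_nonneg_left h2 hs₁.le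
      linarith only [hs₁, hs1σ, h1, h3, h5]
    rcases le_total (⟪x, e⟫ : ℝ) (-s₁) with h' | h'
    · rw [max_eq_right (by linarith only [hs₁, h']), sub_zero]
      have h0 : (⟪x, -e⟫ : ℝ) = -⟪x, e⟫ := inner_neg_right _ _
      have h1 := hminus x (by linarith) (by rw [h0]; linarith only [h'])
      rw [h0] at h1
      have h2 : -(⟪x, e⟫ : ℝ) ≤ 1 / 2 := by linarith [(abs_le.1 (hin x)).1]
      have h3 := (abs_le.1 h1).2
      have hux : 0 ≤ u x := hO.nonneg x ⟨by linarith, by linarith⟩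
      rw [abs_of_nonneg hux]
      have h5 : b * -⟪x, e⟫ ≤ σ / 4 * (1 / 2) := mul_le_mul hb h2 (by linarith only [hs₁, h']) (by linarith)
      have h6 : s₁ * -⟪x, e⟫ ≤ s₁ * (1 / 2) := mul_le_mul_of_nonneg_left h2 hs₁.le
      linarith only [hs₁, hs1σ, h3, h5, h6]
    · -- in the strip
      have hux : 0 ≤ u x := hO.nonneg x ⟨by linarith, by linarith⟩
      have hmax : 0 ≤ max (⟪x, e⟫ : ℝ) 0 ∧ max (⟪x, e⟫ : ℝ) 0 ≤ s₁ :=
        ⟨le_max_right _ _, max_le h hs₁.le⟩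
      have key : u x ≤ (2 * L + 6) * s₁ := by
        -- move to x'
        have hseg : ∀ ε : ℝ, (ε = 1 ∨ ε = -1) → 0 ≤ ε * ⟪x, e⟫ →
            |u x - u (x + (ε * (2 * s₁)) • e)| ≤ L * (2 * s₁) := by
          intro ε hε hεx
          have hεabs : |ε| = 1 := by rcases hε with rfl | rfl <;> norm_num
          have hsO : segment ℝ x (x + (ε * (2 * s₁)) • e) ⊆ O := by
            intro z hz
            rw [segment_eq_image'] at hz
            obtain ⟨t, ht, rfl⟩ := hz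
            have hz2 : x + t • (x + (ε * (2 * s₁)) • e - x) = x + (ε * (t * (2 * s₁))) • e := by
              rw [add_sub_cancel_left, smul_smul]; congr 2; ring
            show x + t • (x + (ε * (2 * s₁)) • e - x) ∈ O
            rw [hz2]
            have ht0 : 0 ≤ t * (2 * s₁) := mul_nonneg ht.1 (by linarith)
            have hsq : ‖x‖ ^ 2 ≤ ‖x + (ε * (t * (2 * s₁))) • e‖ ^ 2 := by
              rw [norm_add_sq_real, real_inner_smul_right]
              have : 0 ≤ ε * (t * (2 * s₁)) * ⟪x, e⟫ := by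
                have := mul_nonneg ht0 hεx
                linarith
              nlinarith only [this]
            have hge : ‖x‖ ≤ ‖x + (ε * (t * (2 * s₁))) • e‖ :=
              le_of_sq_le_sq hsq (norm_nonneg _)
            refine ⟨by linarith, ?_⟩
            have h1 := norm_add_le x ((ε * (t * (2 * s₁))) • e)
            rw [norm_smul (ε * (t * (2 * s₁))), he, mul_one, Real.norm_eq_abs, abs_mul, hεabs,
              one_mul, abs_of_nonneg ht0] at h1
            have h2 : t * (2 * s₁) ≤ 1 * (2 * s₁) := mul_le_mul_of_nonneg_right ht.2 (by linarith)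
            linarith
          have h1 := lip_seg hO hsO (fun z hz hu => hA.lip z (hsO hz).1 (hsO hz).2 hu)
            (by linarith)
          refine h1.trans (le_of_eq ?_)
          rw [sub_add_cancel_left, norm_neg, norm_smul, he, mul_one, Real.norm_eq_abs, abs_mul,
            hεabs, one_mul, abs_of_pos (by linarith)]
        have hee : (⟪e, e⟫ : ℝ) = 1 := by rw [real_inner_self_eq_norm_sq, he]; norm_num
        rcases le_total 0 (⟪x, e⟫ : ℝ) with h0 | h0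
        · have h1 := hseg 1 (Or.inl rfl) (by linarith)
          rw [one_mul] at h1
          have hin' : (⟪x + (2 * s₁) • e, e⟫ : ℝ) = ⟪x, e⟫ + 2 * s₁ := by
            rw [inner_add_left, real_inner_smul_left, hee, mul_one]
          have hn : ‖x + (2 * s₁) • e‖ ≤ 3 := by
            refine (norm_add_le _ _).trans ?_
            rw [norm_smul, he, mul_one, Real.norm_eq_abs, abs_of_pos (by linarith)]
            linarith
          have h2 := hplus _ hn (by rw [hin']; linarith)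
          rw [hin'] at h2
          have h3 := (abs_le.1 h2).2
          have h4 := (abs_le.1 h1).2
          have h5 : (a + s₁) * (⟪x, e⟫ + 2 * s₁) ≤ 2 * (3 * s₁) :=
            mul_le_mul (by linarith) (by linarith) (by linarith) (by norm_num)
          rw [add_mul] at h5
          linarith
        · have h1 := hseg (-1) (Or.inr rfl) (by linarith)
          have hin' : (⟪x + (-1 * (2 * s₁)) • e, -e⟫ : ℝ) = -⟪x, e⟫ + 2 * s₁ := by
            rw [inner_neg_right, inner_add_left, real_inner_smul_left, hee, mul_one]; ring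
          have hn : ‖x + (-1 * (2 * s₁)) • e‖ ≤ 3 := by
            refine (norm_add_le _ _).trans ?_
            rw [norm_smul, he, mul_one, Real.norm_eq_abs, abs_mul, abs_neg, abs_one, one_mul,
              abs_of_pos (by linarith)]
            linarith
          have h2 := hminus _ hn (by rw [hin']; linarith)
          rw [hin'] at h2
          have h3 := (abs_le.1 h2).2
          have h4 := (abs_le.1 h1).2
          have h5 : (b + s₁) * (-⟪x, e⟫ + 2 * s₁) ≤ 2 * (3 * s₁) :=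
            mul_le_mul (by linarith) (by linarith) (by linarith) (by norm_num)
          rw [add_mul] at h5
          linarith
      rw [abs_le]
      have hL' : (2 * L + 6) * s₁ ≤ σ := by linarith
      constructor
      · linarith
      · linarith
  · intro h
    exact hpos x (by linarith) (by linarith)
  · intro h
    exact hZ0 x ⟨by linarith, by linarith⟩

theorem almostCone_close : ∀ L : ℝ, 1 ≤ L → ∀ σ : ℝ, 0 < σ → ∃ κ : ℝ, 0 < κ ∧ ∃ τ₀ : ℝ, 0 < τ₀ ∧
    ∀ (τ : ℝ) (u : E3 → ℝ), 0 < τ → τ ≤ τ₀ → AlmostCone L κ τ u →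
    ∃ e : E3, ‖e‖ = 1 ∧ ∀ x : E3, σ ≤ ‖x‖ → ‖x‖ ≤ 1 / 2 →
      |u x - max ⟪x, e⟫ 0| ≤ σ ∧ (σ < ⟪x, e⟫ → 0 < u x) ∧ (⟪x, e⟫ < -σ → u x = 0) := by
  intro L hL σ' hσ'
  obtain ⟨σ, hσdef⟩ : ∃ σ : ℝ, σ = min σ' (1 / 100) := ⟨_, rfl⟩
  have hσ : 0 < σ := by rw [hσdef]; positivity
  have hσσ' : σ ≤ σ' := by rw [hσdef]; exact min_le_left _ _
  have hσ1 : σ ≤ 1 / 100 := by rw [hσdef]; exact min_le_right _ _
  have hmm : 0 < mm := mm_pos
  have hv0 : 0 < volume.real (ball (0 : E3) (1 / 8)) := by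
    rw [measureReal_def]
    exact ENNReal.toReal_pos (measure_ball_pos _ _ (by norm_num)).ne' measure_ball_lt_top.ne
  obtain ⟨E, hEdef⟩ : ∃ E : ℝ, E = min ((15 / 64 : ℝ) ^ 4 * (mm / 4) * (σ / 8) ^ 3)
    ((15 / 64 : ℝ) ^ 4 * volume.real (ball (0 : E3) (1 / 8))) := ⟨_, rfl⟩
  have hE0 : 0 < E := by rw [hEdef]; positivity
  have hE1 : E ≤ (15 / 64 : ℝ) ^ 4 * (mm / 4) * (σ / 8) ^ 3 := by rw [hEdef]; exact min_le_left _ _
  have hE2 : E ≤ (15 / 64 : ℝ) ^ 4 * volume.real (ball (0 : E3) (1 / 8)) := by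
    rw [hEdef]; exact min_le_right _ _
  obtain ⟨C, hC, κ₀, hκ₀, τ₀, hτ₀, hdir⟩ := exists_dir
  obtain ⟨s₀, hs₀, hcon⟩ := consts L hL (σ / 4) (by positivity)
  obtain ⟨s₁, hs₁def⟩ : ∃ s : ℝ, s = min (min s₀ (1 / 4)) (min (E / 32) (σ / 2 / (2 * L + 7))) :=
    ⟨_, rfl⟩
  have hs₁ : 0 < s₁ := by rw [hs₁def]; positivity
  have hs₁0 : s₁ ≤ s₀ := by rw [hs₁def]; exact (min_le_left _ _).trans (min_le_left _ _)
  have hs₁4 : s₁ ≤ 1 / 4 := by rw [hs₁def]; exact (min_le_left _ _).trans (min_le_right _ _)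
  have hs₁E : s₁ ≤ E / 32 := by rw [hs₁def]; exact (min_le_right _ _).trans (min_le_left _ _)
  have hs₁σ : (2 * L + 7) * s₁ ≤ σ / 2 := by
    have : s₁ ≤ σ / 2 / (2 * L + 7) := by
      rw [hs₁def]; exact (min_le_right _ _).trans (min_le_right _ _)
    rw [le_div_iff₀ (by linarith only [hL])] at this
    linarith only [this]
  obtain ⟨κ₁, hκ₁, τ₁, hτ₁, hcon'⟩ := hcon s₁ hs₁ hs₁0
  obtain ⟨κ₂, hκ₂, hnl⟩ := near_linear L hL s₁ hs₁ hs₁4 s₁ hs₁
  obtain ⟨κ, hκdef⟩ : ∃ κ : ℝ, κ = min (min κ₀ (κ₁ / C)) (min (κ₂ / C) (min (mm / 4) (E / 4))) :=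
    ⟨_, rfl⟩
  have hC0 : 0 < C := by linarith only [hC]
  have hκ : 0 < κ := by rw [hκdef]; positivity
  have hκ0 : κ ≤ κ₀ := by rw [hκdef]; exact (min_le_left _ _).trans (min_le_left _ _)
  have hκ1 : C * κ ≤ κ₁ := by
    have : κ ≤ κ₁ / C := by rw [hκdef]; exact (min_le_left _ _).trans (min_le_right _ _)
    rw [le_div_iff₀ hC0] at this; linarith only [this]
  have hκ2 : C * κ ≤ κ₂ := by
    have : κ ≤ κ₂ / C := by rw [hκdef]; exact (min_le_right _ _).trans (min_le_left _ _)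
    rw [le_div_iff₀ hC0] at this; linarith only [this]
  have hκm : κ ≤ mm / 4 := by
    rw [hκdef]; exact (min_le_right _ _).trans ((min_le_right _ _).trans (min_le_left _ _))
  have hκE : κ ≤ E / 4 := by
    rw [hκdef]; exact (min_le_right _ _).trans ((min_le_right _ _).trans (min_le_right _ _))
  have hκκ₁ : κ ≤ κ₁ := by nlinarith only [hC, hκ, hκ1]
  refine ⟨κ, hκ, min (min τ₀ τ₁) (min (s₁ / 2) (min (σ / 8) (min 1 (E / 32)))), by positivity, ?_⟩
  intro τ u hτ hτle hA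
  have ht0 : τ ≤ τ₀ := hτle.trans ((min_le_left _ _).trans (min_le_left _ _))
  have ht1 : τ ≤ τ₁ := hτle.trans ((min_le_left _ _).trans (min_le_right _ _))
  have hts : τ ≤ s₁ / 2 := hτle.trans ((min_le_right _ _).trans (min_le_left _ _))
  have htσ : τ ≤ σ / 8 :=
    hτle.trans ((min_le_right _ _).trans ((min_le_right _ _).trans (min_le_left _ _)))
  have ht11 : τ ≤ 1 := hτle.trans ((min_le_right _ _).trans ((min_le_right _ _).trans
    ((min_le_right _ _).trans (min_le_left _ _))))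
  have htE : τ ≤ E / 32 := hτle.trans ((min_le_right _ _).trans ((min_le_right _ _).trans
    ((min_le_right _ _).trans (min_le_right _ _))))
  have hτ3 : 8 * τ ^ 3 ≤ E / 4 := by
    have : τ ^ 3 ≤ τ := by
      calc τ ^ 3 = τ * τ ^ 2 := by ring
        _ ≤ τ * 1 := mul_le_mul_of_nonneg_left (pow_le_one₀ hτ.le ht11) hτ.le
        _ = τ := mul_one τ
    linarith only [hs₁E, hτ, hts, this]
  have hsum : κ + 8 * s₁ + 8 * τ ^ 3 < E := by linarith only [hs₁E, hκE, hτ, hts, hτ3]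
  obtain ⟨e, he, hP, hT⟩ := hdir L κ τ u hL hτ ht0 hκ0 hA
  have heneg : ‖-e‖ = 1 := by rw [norm_neg, he]
  have hP' : ∫ x in ball 0 4 \ closedBall 0 τ, ‖Du u x - ⟪Du u x, -e⟫ • (-e)‖ ^ 2 ≤ C * κ := by
    simpa only [inner_neg_right, smul_neg, neg_smul, neg_neg] using hP
  have hT' : ∫ x in ball 0 4 \ closedBall 0 τ, (⟪x, -e⟫ * ⟪Du u x, -e⟫ - u x) ^ 2 ≤ C * κ := by
    simpa only [inner_neg_right, neg_mul_neg] using hT
  obtain ⟨a, ha0, ha4, hplus⟩ := hnl τ u e hτ hts he hA.onePhase hA.lip hA.bound (hP.trans hκ2)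
    (hT.trans hκ2)
  obtain ⟨b, hb0, hb4, hminus⟩ := hnl τ u (-e) hτ hts heneg hA.onePhase hA.lip hA.bound
    (hP'.trans hκ2) (hT'.trans hκ2)
  have hfin : ∀ e' : E3, ‖e'‖ = 1 → (∀ x : E3, σ ≤ ‖x‖ → ‖x‖ ≤ 1 / 2 →
      |u x - max ⟪x, e'⟫ 0| ≤ σ ∧ (σ < ⟪x, e'⟫ → 0 < u x) ∧ (⟪x, e'⟫ < -σ → u x = 0)) →
      ∃ e : E3, ‖e‖ = 1 ∧ ∀ x : E3, σ' ≤ ‖x‖ → ‖x‖ ≤ 1 / 2 →
      |u x - max ⟪x, e⟫ 0| ≤ σ' ∧ (σ' < ⟪x, e⟫ → 0 < u x) ∧ (⟪x, e⟫ < -σ' → u x = 0) := by
    intro e' he' h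
    refine ⟨e', he', fun x hx hx2 => ?_⟩
    obtain ⟨k1, k2, k3⟩ := h x (hσσ'.trans hx) hx2
    exact ⟨k1.trans hσσ', fun hh => k2 (lt_of_le_of_lt hσσ' hh),
      fun hh => k3 (lt_of_lt_of_le hh (neg_le_neg hσσ'))⟩
  rcases hcon' τ u e a b hτ ht1 he (Close_mono hA hκκ₁) (hP.trans hκ1) (hT.trans hκ1) ha0 hb0 ha4
    hb4 hplus hminus with ⟨h1, h2⟩ | ⟨h1, h2⟩
  · exact hfin e he (Close_core hL hσ hσ1 he hτ hA hs₁ hs₁σ h1 hb0 h2 hplus hminus htσ hκm
      (by linarith only [hE1, hs₁E, hκE, hτ, hts, hτ3]) (by linarith only [hE2, hs₁E, hκE, hτ, hts, hτ3]))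
  · refine hfin (-e) heneg (Close_core hL hσ hσ1 heneg hτ hA hs₁ hs₁σ h1 ha0 h2 hminus ?_ htσ hκm
      (by linarith only [hE1, hs₁E, hκE, hτ, hts, hτ3]) (by linarith only [hE2, hs₁E, hκE, hτ, hts, hτ3]))
    rw [neg_neg]; exact hplus

end Pool.Agent.H32.Flat
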