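import Pool.Agent.H32.Flat.MeanVal

/-!
# Module H3: Laplacians of the fields built from a harmonic function

`f` is harmonic at `x`, hence smooth near `x` (`harmonic_contDiffAt`).
* `⟪∇f, ξ⟫` is harmonic (derivatives commute; `Δ` commutes with constant directional derivatives).
* `P y = ‖y-z‖² ⟪∇f y, e⟫ - 2 ⟪y-z, e⟫ ⟪y-z, ∇f y⟫ - ⟪y-z, e⟫ f y` is harmonic:
  `Δ(|y|² f_e) = 6 f_e + 4 y·∇f_e`, `Δ(y·∇f) = 0`, `Δ(y_e (y·∇f)) = 2 ∂_e (y·∇f) = 2 f_e + 2 y·∇f_e`,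
  `Δ (y_e f) = 2 f_e`.
* `Δ |∇f - e|² = 2 |D²f|²`; `Δ f² = 2 |∇f|²`; product rule; powers of the norm.
Suggestion: write `y = Σ y_i b_i` and use partial derivatives `∂_i g = fun y => fderiv ℝ g y (b i)`.
-/

open Set Metric MeasureTheory Filter Topology InnerProductSpace
open scoped Laplacian Gradient RealInnerProductSpace

namespace Pool.Agent.H32.Flat

/-- basis vector -/
noncomputable abbrev Jac_b (i : Fin 3) : E3 := EuclideanSpace.single i 1

/-- directional derivative as a function -/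
noncomputable def Jac_pd {F : Type*} [NormedAddCommGroup F] [NormedSpace ℝ F] (v : E3)
    (f : E3 → F) : E3 → F := fun y => fderiv ℝ f y v

section pd

variable {F : Type*} [NormedAddCommGroup F] [NormedSpace ℝ F] {f g : E3 → F} {x : E3} {v w : E3}

theorem Jac_pd_congr (h : f =ᶠ[𝓝 x] g) : Jac_pd v f =ᶠ[𝓝 x] Jac_pd v g := by
  filter_upwards [h.fderiv (𝕜 := ℝ)] with y hy
  simp only [Jac_pd, hy]

theorem Jac_contDiffAt_pd {n : ℕ} (h : ContDiffAt ℝ (n + 1 : ℕ) f x) :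
    ContDiffAt ℝ n (Jac_pd v f) x := by
  have h1 : ContDiffAt ℝ n (fderiv ℝ f) x := h.fderiv_right (by norm_cast)
  exact h1.clm_apply contDiffAt_const

theorem Jac_pd_pd (h : ContDiffAt ℝ 2 f x) :
    Jac_pd v (Jac_pd w f) x = fderiv ℝ (fderiv ℝ f) x v w := by
  have h1 : DifferentiableAt ℝ (fderiv ℝ f) x :=
    (h.fderiv_right (m := 1) (by norm_num)).differentiableAt (by norm_num)
  have h2 : HasFDerivAt (Jac_pd w f) ((fderiv ℝ (fderiv ℝ f) x).flip w) x := by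
    have := h1.hasFDerivAt.clm_apply (hasFDerivAt_const w x)
    simpa using! this
  change fderiv ℝ (Jac_pd w f) x v = _
  rw [h2.fderiv]
  rfl

theorem Jac_pd_comm (h : ContDiffAt ℝ 2 f x) :
    Jac_pd v (Jac_pd w f) x = Jac_pd w (Jac_pd v f) x := by
  rw [Jac_pd_pd h, Jac_pd_pd h]
  exact (h.isSymmSndFDerivAt (by simp)) v w

theorem Jac_pd_comm_ev (h : ContDiffAt ℝ 2 f x) :
    Jac_pd v (Jac_pd w f) =ᶠ[𝓝 x] Jac_pd w (Jac_pd v f) := by
  filter_upwards [h.eventually (by simp)] with y hy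
  exact Jac_pd_comm hy

theorem Jac_laplacian (h : ContDiffAt ℝ 2 f x) :
    Δ f x = ∑ i : Fin 3, Jac_pd (Jac_b i) (Jac_pd (Jac_b i) f) x := by
  rw [laplacian_eq_iteratedFDeriv_orthonormalBasis f (EuclideanSpace.basisFun (Fin 3) ℝ)]
  refine Finset.sum_congr rfl fun i _ => ?_
  rw [Jac_pd_pd h, iteratedFDeriv_two_apply]
  simp

theorem Jac_pd_add (hf : DifferentiableAt ℝ f x) (hg : DifferentiableAt ℝ g x) :
    Jac_pd v (fun y => f y + g y) x = Jac_pd v f x + Jac_pd v g x := by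
  simp only [Jac_pd]
  have := fderiv_fun_add hf hg
  rw [this]; rfl

theorem Jac_pd_sub (hf : DifferentiableAt ℝ f x) (hg : DifferentiableAt ℝ g x) :
    Jac_pd v (fun y => f y - g y) x = Jac_pd v f x - Jac_pd v g x := by
  simp only [Jac_pd]
  have := fderiv_fun_sub hf hg
  rw [this]; rfl

theorem Jac_pd_sum {ι : Type*} {s : Finset ι} {A : ι → E3 → F}
    (hA : ∀ i ∈ s, DifferentiableAt ℝ (A i) x) :
    Jac_pd v (fun y => ∑ i ∈ s, A i y) x = ∑ i ∈ s, Jac_pd v (A i) x := by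
  simp only [Jac_pd]
  rw [fderiv_fun_sum hA]
  simp

theorem Jac_pd_mul {f g : E3 → ℝ} (hf : DifferentiableAt ℝ f x) (hg : DifferentiableAt ℝ g x) :
    Jac_pd v (fun y => f y * g y) x = f x * Jac_pd v g x + g x * Jac_pd v f x := by
  simp only [Jac_pd]
  rw [fderiv_fun_mul hf hg]
  simp

theorem Jac_pd_const_mul {g : E3 → ℝ} (c : ℝ) (hg : DifferentiableAt ℝ g x) :
    Jac_pd v (fun y => c * g y) x = c * Jac_pd v g x := by
  simp only [Jac_pd]
  rw [fderiv_const_mul hg]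
  simp

theorem Jac_laplacian_pd (h : ContDiffAt ℝ 3 f x) : Δ (Jac_pd v f) x = Jac_pd v (Δ f) x := by
  have h3 : ContDiffAt ℝ ((2 : ℕ) + 1 : ℕ) f x := by exact_mod_cast h
  have h2 : ContDiffAt ℝ 2 f x := h.of_le (by norm_num)
  have h2' : ∀ w, ContDiffAt ℝ 2 (Jac_pd w f) x := fun w => by
    have := Jac_contDiffAt_pd (v := w) h3
    exact_mod_cast this
  have h1' : ∀ w w', DifferentiableAt ℝ (Jac_pd w (Jac_pd w' f)) x := fun w w' => by
    have h4 : ContDiffAt ℝ ((1 : ℕ) + 1 : ℕ) (Jac_pd w' f) x := by exact_mod_cast h2' w'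
    have := Jac_contDiffAt_pd (v := w) h4
    exact this.differentiableAt (by norm_num)
  rw [Jac_laplacian (h2' v)]
  have hΔ : Δ f =ᶠ[𝓝 x] fun y => ∑ i : Fin 3, Jac_pd (Jac_b i) (Jac_pd (Jac_b i) f) y := by
    filter_upwards [h2.eventually (by simp)] with y hy
    exact Jac_laplacian hy
  rw [(Jac_pd_congr hΔ).eq_of_nhds, Jac_pd_sum (fun i _ => h1' _ _)]
  refine Finset.sum_congr rfl fun i _ => ?_
  rw [(Jac_pd_congr (v := Jac_b i) (Jac_pd_comm_ev (v := Jac_b i) (w := v) h2)).eq_of_nhds]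
  exact Jac_pd_comm (h2' _)

end pd

/-! ### products -/

theorem Jac_sum_pd_mul {f g : E3 → ℝ} {x : E3} :
    ∑ i : Fin 3, Jac_pd (Jac_b i) f x * Jac_pd (Jac_b i) g x = ⟪gradient f x, gradient g x⟫ := by
  rw [← (EuclideanSpace.basisFun (Fin 3) ℝ).sum_inner_mul_inner]
  refine Finset.sum_congr rfl fun i _ => ?_
  rw [inner_gradient_left, real_inner_comm, inner_gradient_left]
  simp [Jac_pd]

/-- squared Hilbert-Schmidt norm of the Hessian -/
noncomputable def hessSq (f : E3 → ℝ) (x : E3) : ℝ :=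
  ∑ i : Fin 3, ‖fderiv ℝ (gradient f) x (EuclideanSpace.single i 1)‖ ^ 2

theorem laplacian_mul' {f g : E3 → ℝ} {x : E3} (hf : ContDiffAt ℝ 2 f x)
    (hg : ContDiffAt ℝ 2 g x) :
    Δ (fun y => f y * g y) x = f x * Δ g x + 2 * ⟪gradient f x, gradient g x⟫ + g x * Δ f x := by
  rw [Jac_laplacian (hf.mul hg), Jac_laplacian hf, Jac_laplacian hg, ← Jac_sum_pd_mul]
  have hd : ∀ {k : E3 → ℝ} (_ : ContDiffAt ℝ 2 k x) (v : E3), DifferentiableAt ℝ (Jac_pd v k) x := by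
    intro k hk v
    have h4 : ContDiffAt ℝ ((1 : ℕ) + 1 : ℕ) k x := by exact_mod_cast hk
    exact (Jac_contDiffAt_pd (v := v) h4).differentiableAt (by norm_num)
  have hfd := hf.differentiableAt (by norm_num)
  have hgd := hg.differentiableAt (by norm_num)
  have key : ∀ i : Fin 3, Jac_pd (Jac_b i) (Jac_pd (Jac_b i) (fun y => f y * g y)) x =
      f x * Jac_pd (Jac_b i) (Jac_pd (Jac_b i) g) x +
        2 * (Jac_pd (Jac_b i) f x * Jac_pd (Jac_b i) g x) +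
        g x * Jac_pd (Jac_b i) (Jac_pd (Jac_b i) f) x := by
    intro i
    have h1 : Jac_pd (Jac_b i) (fun y => f y * g y) =ᶠ[𝓝 x]
        fun y => f y * Jac_pd (Jac_b i) g y + g y * Jac_pd (Jac_b i) f y := by
      filter_upwards [hf.eventually (by simp), hg.eventually (by simp)] with y hy1 hy2
      exact Jac_pd_mul (hy1.differentiableAt (by norm_num)) (hy2.differentiableAt (by norm_num))
    rw [(Jac_pd_congr h1).eq_of_nhds,
      Jac_pd_add (hfd.fun_mul (hd hg _)) (hgd.fun_mul (hd hf _)),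
      Jac_pd_mul hfd (hd hg _), Jac_pd_mul hgd (hd hf _)]
    ring
  rw [Finset.sum_congr rfl fun i _ => key i, Finset.sum_add_distrib, Finset.sum_add_distrib,
    Finset.mul_sum, Finset.mul_sum, Finset.mul_sum]

theorem Jac_harm_contDiffAt {f : E3 → ℝ} {x : E3} (hf : HarmonicAt f x) (n : ℕ) :
    ContDiffAt ℝ n f x := harmonic_contDiffAt hf n

theorem Jac_harmonicAt_pd {f : E3 → ℝ} {x : E3} (hf : HarmonicAt f x) (ξ : E3) :
    HarmonicAt (Jac_pd ξ f) x := by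
  constructor
  · have h := Jac_contDiffAt_pd (v := ξ) (harmonic_contDiffAt hf ((2 : ℕ) + 1 : ℕ))
    exact_mod_cast h
  · have h0 : Δ f =ᶠ[𝓝 x] fun _ => (0 : ℝ) := hf.2
    filter_upwards [hf.eventually, h0.eventually_nhds] with y hy hy0
    have h3 : ContDiffAt ℝ 3 f y := by exact_mod_cast harmonic_contDiffAt hy 3
    rw [Jac_laplacian_pd h3, (Jac_pd_congr hy0).eq_of_nhds]
    simp [Jac_pd]

theorem Jac_inner_gradient {f : E3 → ℝ} (ξ : E3) :
    (fun y => ⟪gradient f y, ξ⟫) = Jac_pd ξ f := by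
  funext y
  rw [inner_gradient_left]
  rfl

theorem harmonicAt_inner_gradient {f : E3 → ℝ} {x : E3} (hf : HarmonicAt f x) (ξ : E3) :
    HarmonicAt (fun y => ⟪gradient f y, ξ⟫) x := by
  rw [Jac_inner_gradient]
  exact Jac_harmonicAt_pd hf ξ

theorem Jac_laplacian_sum {ι : Type*} (s : Finset ι) (A : ι → E3 → ℝ) {x : E3}
    (h : ∀ i ∈ s, ContDiffAt ℝ 2 (A i) x) :
    Δ (fun y => ∑ i ∈ s, A i y) x = ∑ i ∈ s, Δ (A i) x := by
  classical
  induction s using Finset.induction_on with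
  | empty => simp
  | insert a s ha ih =>
    have h1 : ContDiffAt ℝ 2 (A a) x := h a (Finset.mem_insert_self _ _)
    have h2 : ∀ i ∈ s, ContDiffAt ℝ 2 (A i) x := fun i hi => h i (Finset.mem_insert_of_mem hi)
    have h3 : ContDiffAt ℝ 2 (fun y => ∑ i ∈ s, A i y) x := ContDiffAt.sum h2
    rw [Finset.sum_insert ha, ← ih h2, ← h1.laplacian_add h3]
    have h4 : (fun y => ∑ i ∈ insert a s, A i y) = A a + fun y => ∑ i ∈ s, A i y := by
      funext y
      rw [Finset.sum_insert ha]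
      rfl
    rw [h4]

/-! ### affine functions and the squared distance -/

theorem Jac_aff_hasFDerivAt (z v x : E3) :
    HasFDerivAt (fun y : E3 => ⟪y - z, v⟫) (innerSL ℝ v) x := by
  have h : (fun y : E3 => ⟪y - z, v⟫) = fun y => innerSL ℝ v y - ⟪v, z⟫ := by
    funext y
    rw [inner_sub_left, real_inner_comm v y, real_inner_comm v z]
    rfl
  rw [h]
  exact (innerSL ℝ v).hasFDerivAt.sub_const _

theorem Jac_aff_pd (z v w : E3) : Jac_pd w (fun y : E3 => ⟪y - z, v⟫) = fun _ => ⟪w, v⟫ := by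
  funext x
  simp only [Jac_pd]
  rw [(Jac_aff_hasFDerivAt z v x).fderiv, innerSL_apply_apply, real_inner_comm]

theorem Jac_aff_contDiffAt (z v x : E3) {n : WithTop ℕ∞} :
    ContDiffAt ℝ n (fun y : E3 => ⟪y - z, v⟫) x :=
  (contDiffAt_id.sub contDiffAt_const).inner ℝ contDiffAt_const

theorem Jac_pd_const (c : ℝ) (w : E3) : Jac_pd w (fun _ : E3 => c) = fun _ => 0 := by
  funext x
  simp [Jac_pd]

theorem Jac_aff_laplacian (z v x : E3) : Δ (fun y : E3 => ⟪y - z, v⟫) x = 0 := by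
  rw [Jac_laplacian (Jac_aff_contDiffAt z v x)]
  simp only [Jac_aff_pd, Jac_pd_const, Finset.sum_const_zero]

theorem Jac_inner_grad {f : E3 → ℝ} {x w : E3} : ⟪w, gradient f x⟫ = Jac_pd w f x := by
  rw [real_inner_comm, inner_gradient_left]
  rfl

theorem Jac_grad_ext {f : E3 → ℝ} {x w : E3} (h : ∀ v, Jac_pd v f x = ⟪v, w⟫) :
    gradient f x = w := by
  apply ext_inner_left ℝ
  intro v
  rw [Jac_inner_grad, h]

theorem Jac_aff_gradient (z v x : E3) : gradient (fun y : E3 => ⟪y - z, v⟫) x = v := by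
  apply Jac_grad_ext
  intro w
  rw [Jac_aff_pd]

theorem Jac_sq_pd (z w : E3) :
    Jac_pd w (fun y : E3 => ‖y - z‖ ^ 2) = fun y => ⟪y - z, (2 : ℝ) • w⟫ := by
  funext x
  have h := (hasStrictFDerivAt_norm_sq (x - z)).hasFDerivAt.comp x ((hasFDerivAt_id x).sub_const z)
  have h2 : fderiv ℝ (fun y : E3 => ‖y - z‖ ^ 2) x = _ := h.fderiv
  simp only [Jac_pd]
  rw [h2]
  simp [inner_smul_right, inner_sub_left]

theorem Jac_sq_contDiffAt (z x : E3) {n : WithTop ℕ∞} :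
    ContDiffAt ℝ n (fun y : E3 => ‖y - z‖ ^ 2) x :=
  (contDiffAt_id.sub contDiffAt_const).norm_sq ℝ

theorem Jac_sq_laplacian (z x : E3) : Δ (fun y : E3 => ‖y - z‖ ^ 2) x = 6 := by
  rw [Jac_laplacian (Jac_sq_contDiffAt z x)]
  simp only [Jac_sq_pd, Jac_aff_pd]
  simp [inner_smul_right]
  norm_num

theorem Jac_sq_gradient (z x : E3) :
    gradient (fun y : E3 => ‖y - z‖ ^ 2) x = (2 : ℝ) • (x - z) := by
  apply Jac_grad_ext
  intro w
  rw [Jac_sq_pd]
  simp only [inner_smul_right]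
  rw [real_inner_comm]

/-! ### the radial derivative -/

theorem Jac_inner_eq_sum {f : E3 → ℝ} {z y : E3} :
    ⟪y - z, gradient f y⟫ = ∑ i : Fin 3, ⟪y - z, Jac_b i⟫ * Jac_pd (Jac_b i) f y := by
  rw [← (EuclideanSpace.basisFun (Fin 3) ℝ).sum_inner_mul_inner]
  refine Finset.sum_congr rfl fun i _ => ?_
  rw [Jac_inner_grad]
  simp

theorem Jac_pd_smul_add {f : E3 → ℝ} {x v w : E3} (a : ℝ) :
    Jac_pd (a • v + w) f x = a * Jac_pd v f x + Jac_pd w f x := by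
  simp [Jac_pd]

theorem Jac_pd_smul {f : E3 → ℝ} {x v : E3} (a : ℝ) :
    Jac_pd (a • v) f x = a * Jac_pd v f x := by
  simp [Jac_pd]

theorem Jac_pd_eq_sum {f : E3 → ℝ} {x v : E3} :
    Jac_pd v f x = ∑ i : Fin 3, ⟪v, Jac_b i⟫ * Jac_pd (Jac_b i) f x := by
  rw [← Jac_inner_grad, ← (EuclideanSpace.basisFun (Fin 3) ℝ).sum_inner_mul_inner]
  refine Finset.sum_congr rfl fun i _ => ?_
  rw [Jac_inner_grad]
  simp

theorem Jac_rad_contDiffAt {f : E3 → ℝ} {x : E3} (z : E3) (hf : HarmonicAt f x) (n : ℕ) :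
    ContDiffAt ℝ n (fun y => ⟪y - z, gradient f y⟫) x := by
  have h : (fun y => ⟪y - z, gradient f y⟫) =
      fun y => ∑ i : Fin 3, ⟪y - z, Jac_b i⟫ * Jac_pd (Jac_b i) f y := by
    funext y
    exact Jac_inner_eq_sum
  rw [h]
  exact ContDiffAt.sum fun i _ => (Jac_aff_contDiffAt z _ x).mul
    (Jac_contDiffAt_pd (harmonic_contDiffAt hf _))

theorem Jac_rad_laplacian {f : E3 → ℝ} {x : E3} (z : E3) (hf : HarmonicAt f x) :
    Δ (fun y => ⟪y - z, gradient f y⟫) x = 0 := by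
  have h : (fun y => ⟪y - z, gradient f y⟫) =
      fun y => ∑ i : Fin 3, ⟪y - z, Jac_b i⟫ * Jac_pd (Jac_b i) f y := by
    funext y
    exact Jac_inner_eq_sum
  have hpd : ∀ v, ContDiffAt ℝ 2 (Jac_pd v f) x := fun v => (Jac_harmonicAt_pd hf v).1
  rw [h, Jac_laplacian_sum _ _ fun i _ => (Jac_aff_contDiffAt z _ x).mul (hpd _)]
  have h1 : ∀ i : Fin 3, Δ (fun y => ⟪y - z, Jac_b i⟫ * Jac_pd (Jac_b i) f y) x =
      2 * Jac_pd (Jac_b i) (Jac_pd (Jac_b i) f) x := by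
    intro i
    rw [laplacian_mul' (Jac_aff_contDiffAt z _ x) (hpd _), Jac_aff_laplacian,
      Jac_aff_gradient, (Jac_harmonicAt_pd hf _).2.eq_of_nhds, Jac_inner_grad]
    simp
  rw [Finset.sum_congr rfl fun i _ => h1 i, ← Finset.mul_sum, ← Jac_laplacian hf.1,
    hf.2.eq_of_nhds]
  simp

theorem Jac_rad_pd {f : E3 → ℝ} {x : E3} (z e : E3) (hf : HarmonicAt f x) :
    Jac_pd e (fun y => ⟪y - z, gradient f y⟫) x =
      Jac_pd e f x + Jac_pd (x - z) (Jac_pd e f) x := by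
  have h : (fun y => ⟪y - z, gradient f y⟫) =
      fun y => ∑ i : Fin 3, ⟪y - z, Jac_b i⟫ * Jac_pd (Jac_b i) f y := by
    funext y
    exact Jac_inner_eq_sum
  have hpd : ∀ v, DifferentiableAt ℝ (Jac_pd v f) x := fun v =>
    (Jac_harmonicAt_pd hf v).1.differentiableAt (by norm_num)
  have haff : ∀ i, DifferentiableAt ℝ (fun y : E3 => ⟪y - z, Jac_b i⟫) x := fun i =>
    (Jac_aff_hasFDerivAt z _ x).differentiableAt
  rw [h, Jac_pd_sum fun i _ => (haff i).fun_mul (hpd _)]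
  have h1 : ∀ i : Fin 3, Jac_pd e (fun y => ⟪y - z, Jac_b i⟫ * Jac_pd (Jac_b i) f y) x =
      ⟪x - z, Jac_b i⟫ * Jac_pd (Jac_b i) (Jac_pd e f) x + ⟪e, Jac_b i⟫ * Jac_pd (Jac_b i) f x := by
    intro i
    rw [Jac_pd_mul (haff i) (hpd _), Jac_aff_pd, Jac_pd_comm hf.1]
    ring
  rw [Finset.sum_congr rfl fun i _ => h1 i, Finset.sum_add_distrib, ← Jac_pd_eq_sum,
    ← Jac_pd_eq_sum, add_comm]

/-- the conformal field -/
noncomputable def Jac_P (f : E3 → ℝ) (z e : E3) : E3 → ℝ := fun y =>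
  ‖y - z‖ ^ 2 * ⟪gradient f y, e⟫ - 2 * ⟪y - z, e⟫ * ⟪y - z, gradient f y⟫ - ⟪y - z, e⟫ * f y

theorem Jac_conf {f : E3 → ℝ} {x : E3} (hf : HarmonicAt f x) (z e : E3) :
    ContDiffAt ℝ 2 (Jac_P f z e) x ∧ Δ (Jac_P f z e) x = 0 := by
  have hfun : Jac_P f z e =
      ((fun y => ‖y - z‖ ^ 2 * Jac_pd e f y) -
        (fun y => ⟪y - z, (2 : ℝ) • e⟫ * ⟪y - z, gradient f y⟫)) -
      (fun y => ⟪y - z, e⟫ * f y) := by
    funext y
    simp only [Jac_P, Pi.sub_apply, inner_smul_right, inner_gradient_left]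
    rfl
  have hpe := Jac_harmonicAt_pd hf e
  have hM : ContDiffAt ℝ 2 (fun y => ⟪y - z, gradient f y⟫) x := by
    exact_mod_cast Jac_rad_contDiffAt z hf 2
  have c1 : ContDiffAt ℝ 2 (fun y : E3 => ‖y - z‖ ^ 2 * Jac_pd e f y) x :=
    (Jac_sq_contDiffAt z x).mul hpe.1
  have c2 : ContDiffAt ℝ 2 (fun y => ⟪y - z, (2 : ℝ) • e⟫ * ⟪y - z, gradient f y⟫) x :=
    (Jac_aff_contDiffAt z _ x).mul hM
  have c3 : ContDiffAt ℝ 2 (fun y => ⟪y - z, e⟫ * f y) x :=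
    (Jac_aff_contDiffAt z _ x).mul hf.1
  have c12 : ContDiffAt ℝ 2 ((fun y => ‖y - z‖ ^ 2 * Jac_pd e f y) -
      (fun y => ⟪y - z, (2 : ℝ) • e⟫ * ⟪y - z, gradient f y⟫)) x := c1.sub c2
  rw [hfun]
  refine ⟨c12.sub c3, ?_⟩
  rw [c12.laplacian_sub c3, c1.laplacian_sub c2,
    laplacian_mul' (Jac_sq_contDiffAt z x) hpe.1,
    laplacian_mul' (Jac_aff_contDiffAt z _ x) hM,
    laplacian_mul' (Jac_aff_contDiffAt z _ x) hf.1,
    Jac_sq_laplacian, Jac_aff_laplacian, Jac_aff_laplacian, Jac_rad_laplacian z hf,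
    hpe.2.eq_of_nhds, hf.2.eq_of_nhds,
    Jac_sq_gradient, Jac_aff_gradient, Jac_aff_gradient]
  have hrad := Jac_rad_pd z e hf
  simp only [Jac_inner_grad] at hrad
  simp only [Jac_inner_grad, Jac_pd_smul, hrad, Pi.zero_apply]
  ring

theorem harmonicAt_conf {f : E3 → ℝ} {x : E3} (hf : HarmonicAt f x) (z e : E3) :
    HarmonicAt (fun y => ‖y - z‖ ^ 2 * ⟪gradient f y, e⟫ -
      2 * ⟪y - z, e⟫ * ⟪y - z, gradient f y⟫ - ⟪y - z, e⟫ * f y) x := by
  refine ⟨(Jac_conf hf z e).1, ?_⟩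
  have h : ∀ᶠ y in 𝓝 x, Δ (Jac_P f z e) y = 0 := by
    filter_upwards [hf.eventually] with y hy
    exact (Jac_conf hy z e).2
  exact h

/-! ### the gradient field -/

theorem Jac_grad_coord (f : E3 → ℝ) (y : E3) (i : Fin 3) :
    (gradient f y) i = Jac_pd (Jac_b i) f y := by
  rw [← Jac_inner_grad]
  simp only [Jac_b, EuclideanSpace.inner_single_left, map_one, one_mul]

theorem Jac_grad_contDiffAt {f : E3 → ℝ} {x : E3} (hf : HarmonicAt f x) (n : ℕ) :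
    ContDiffAt ℝ n (gradient f) x := by
  rw [contDiffAt_euclidean]
  intro i
  simp only [Jac_grad_coord]
  exact Jac_contDiffAt_pd (harmonic_contDiffAt hf _)

theorem Jac_grad_differentiableAt {f : E3 → ℝ} {x : E3} (hf : HarmonicAt f x) :
    DifferentiableAt ℝ (gradient f) x :=
  (Jac_grad_contDiffAt hf 1).differentiableAt (by norm_num)

theorem Jac_fderiv_grad_coord {f : E3 → ℝ} {x : E3} (hf : HarmonicAt f x) (v : E3) (i : Fin 3) :
    (fderiv ℝ (gradient f) x v) i = Jac_pd v (Jac_pd (Jac_b i) f) x := by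
  have h1 := (Jac_grad_differentiableAt hf).hasFDerivAt
  have h2 : HasFDerivAt (Jac_pd (Jac_b i) f)
      ((EuclideanSpace.proj i : E3 →L[ℝ] ℝ).comp (fderiv ℝ (gradient f) x)) x := by
    have h3 := (EuclideanSpace.proj i : E3 →L[ℝ] ℝ).hasFDerivAt.comp x h1
    have h4 : (Jac_pd (Jac_b i) f) = (EuclideanSpace.proj i : E3 →L[ℝ] ℝ) ∘ gradient f := by
      funext y
      rw [← Jac_grad_coord]
      rfl
    rw [h4]
    exact h3
  change _ = fderiv ℝ (Jac_pd (Jac_b i) f) x v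
  rw [h2.fderiv]
  rfl

theorem Jac_hessSq_eq {f : E3 → ℝ} {x : E3} (hf : HarmonicAt f x) :
    hessSq f x = ∑ i : Fin 3, ∑ j : Fin 3, (Jac_pd (Jac_b i) (Jac_pd (Jac_b j) f) x) ^ 2 := by
  unfold hessSq
  refine Finset.sum_congr rfl fun i _ => ?_
  rw [EuclideanSpace.norm_sq_eq]
  refine Finset.sum_congr rfl fun j _ => ?_
  rw [Real.norm_eq_abs, sq_abs, Jac_fderiv_grad_coord hf]

theorem Jac_norm_fderiv_grad_le {f : E3 → ℝ} {x : E3} (v : E3) :
    ‖fderiv ℝ (gradient f) x v‖ ≤ Real.sqrt (hessSq f x) * ‖v‖ := by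
  set T := fderiv ℝ (gradient f) x
  have hv : v = ∑ i : Fin 3, v i • Jac_b i := by
    ext j
    simp [Fin.sum_univ_three]
    fin_cases j <;> simp
  have h1 : ‖T v‖ ≤ ∑ i : Fin 3, |v i| * ‖T (Jac_b i)‖ := by
    conv_lhs => rw [hv]
    rw [map_sum]
    refine (norm_sum_le _ _).trans (le_of_eq ?_)
    refine Finset.sum_congr rfl fun i _ => ?_
    rw [map_smul, norm_smul, Real.norm_eq_abs]
  have h2 : (∑ i : Fin 3, |v i| * ‖T (Jac_b i)‖) ^ 2 ≤ ‖v‖ ^ 2 * hessSq f x := by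
    refine (Finset.sum_mul_sq_le_sq_mul_sq _ _ _).trans (le_of_eq ?_)
    congr 1
    rw [EuclideanSpace.norm_sq_eq]
    simp
  have h3 : 0 ≤ hessSq f x := Finset.sum_nonneg fun i _ => by positivity
  have h4 : 0 ≤ ∑ i : Fin 3, |v i| * ‖T (Jac_b i)‖ := Finset.sum_nonneg fun i _ => by positivity
  refine h1.trans (abs_le_of_sq_le_sq' ?_ (by positivity)).2
  rw [mul_pow, Real.sq_sqrt h3]
  linarith

theorem laplacian_norm_gradient_sub_sq {f : E3 → ℝ} {x : E3} (hf : HarmonicAt f x) (e : E3) :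
    Δ (fun y => ‖gradient f y - e‖ ^ 2) x = 2 * hessSq f x := by
  have hfun : (fun y => ‖gradient f y - e‖ ^ 2) = fun y =>
      ∑ i : Fin 3, (Jac_pd (Jac_b i) f y - e i) * (Jac_pd (Jac_b i) f y - e i) := by
    funext y
    rw [EuclideanSpace.norm_sq_eq]
    refine Finset.sum_congr rfl fun i _ => ?_
    rw [Real.norm_eq_abs, sq_abs, PiLp.sub_apply, Jac_grad_coord, sq]
  have hH : ∀ i : Fin 3, HarmonicAt (fun y => Jac_pd (Jac_b i) f y - e i) x := fun i =>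
    (Jac_harmonicAt_pd hf (Jac_b i)).sub (harmonicAt_const (e i))
  rw [hfun, Jac_laplacian_sum _ _ fun i _ => (hH i).1.mul (hH i).1, Jac_hessSq_eq hf]
  have h1 : ∀ j : Fin 3, Δ (fun y => (Jac_pd (Jac_b j) f y - e j) *
      (Jac_pd (Jac_b j) f y - e j)) x =
      2 * ∑ i : Fin 3, (Jac_pd (Jac_b i) (Jac_pd (Jac_b j) f) x) ^ 2 := by
    intro j
    rw [laplacian_mul' (hH j).1 (hH j).1, (hH j).2.eq_of_nhds, ← Jac_sum_pd_mul]
    simp only [Pi.zero_apply, mul_zero, zero_add, add_zero]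
    congr 1
    refine Finset.sum_congr rfl fun i _ => ?_
    rw [sq]
    have h2 : Jac_pd (Jac_b i) (fun y => Jac_pd (Jac_b j) f y - e j) x =
        Jac_pd (Jac_b i) (Jac_pd (Jac_b j) f) x := by
      rw [Jac_pd_sub ((Jac_harmonicAt_pd hf _).1.differentiableAt (by norm_num))
        (differentiableAt_const _), Jac_pd_const]
      simp
    rw [h2]
  rw [Finset.sum_congr rfl fun j _ => h1 j, ← Finset.mul_sum, Finset.sum_comm]

theorem gradient_norm_gradient_sub_sq_le {f : E3 → ℝ} {x : E3} (hf : HarmonicAt f x) (e : E3) :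
    ‖gradient (fun y => ‖gradient f y - e‖ ^ 2) x‖ ≤
      2 * Real.sqrt (hessSq f x) * ‖gradient f x - e‖ := by
  have h1 := ((Jac_grad_differentiableAt hf).hasFDerivAt.sub_const e).norm_sq
  set G := gradient (fun y => ‖gradient f y - e‖ ^ 2) x with hG
  have h2 : ∀ v, ⟪G, v⟫ = 2 * ⟪gradient f x - e, fderiv ℝ (gradient f) x v⟫ := by
    intro v
    rw [hG, inner_gradient_left, h1.fderiv]
    simp [inner_sub_left]
  have h3 : ‖G‖ * ‖G‖ ≤ (2 * Real.sqrt (hessSq f x) * ‖gradient f x - e‖) * ‖G‖ := by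
    rw [← real_inner_self_eq_norm_mul_norm, h2]
    calc 2 * ⟪gradient f x - e, fderiv ℝ (gradient f) x G⟫
        ≤ 2 * (‖gradient f x - e‖ * ‖fderiv ℝ (gradient f) x G‖) := by
          gcongr
          exact real_inner_le_norm _ _
      _ ≤ 2 * (‖gradient f x - e‖ * (Real.sqrt (hessSq f x) * ‖G‖)) := by
          gcongr
          exact Jac_norm_fderiv_grad_le G
      _ = _ := by ring
  rcases (norm_nonneg G).eq_or_lt with h0 | h0
  · rw [← h0]; positivity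
  · exact le_of_mul_le_mul_right h3 h0

theorem gradient_inner_gradient_le {f : E3 → ℝ} {x : E3} (hf : HarmonicAt f x) (e : E3) :
    ‖gradient (fun y => ⟪gradient f y, e⟫) x‖ ≤ Real.sqrt (hessSq f x) * ‖e‖ := by
  have h1 := (Jac_grad_differentiableAt hf).hasFDerivAt.inner ℝ (hasFDerivAt_const e x)
  set G := gradient (fun y => ⟪gradient f y, e⟫) x with hG
  have h2 : ∀ v, ⟪G, v⟫ = ⟪fderiv ℝ (gradient f) x v, e⟫ := by
    intro v
    rw [hG, inner_gradient_left, h1.fderiv]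
    simp
  have h3 : ‖G‖ * ‖G‖ ≤ (Real.sqrt (hessSq f x) * ‖e‖) * ‖G‖ := by
    rw [← real_inner_self_eq_norm_mul_norm, h2]
    calc ⟪fderiv ℝ (gradient f) x G, e⟫
        ≤ ‖fderiv ℝ (gradient f) x G‖ * ‖e‖ := real_inner_le_norm _ _
      _ ≤ (Real.sqrt (hessSq f x) * ‖G‖) * ‖e‖ := by
          gcongr
          exact Jac_norm_fderiv_grad_le G
      _ = _ := by ring
  rcases (norm_nonneg G).eq_or_lt with h0 | h0
  · rw [← h0]; positivity
  · exact le_of_mul_le_mul_right h3 h0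

theorem laplacian_sq' {f : E3 → ℝ} {x : E3} (hf : HarmonicAt f x) :
    Δ (fun y => f y ^ 2) x = 2 * ‖gradient f x‖ ^ 2 := by
  have h : (fun y => f y ^ 2) = fun y => f y * f y := by
    funext y; ring
  rw [h, laplacian_mul' hf.1 hf.1, hf.2.eq_of_nhds, real_inner_self_eq_norm_sq]
  simp

/-! ### powers of the norm -/

theorem contDiffAt_norm_rpow {x : E3} (hx : x ≠ 0) (p : ℝ) (n : ℕ) :
    ContDiffAt ℝ n (fun y : E3 => ‖y‖ ^ p) x :=
  (contDiffAt_norm ℝ hx).rpow_const_of_ne (norm_ne_zero_iff.mpr hx)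

theorem Jac_norm_rpow_hasFDerivAt {x : E3} (hx : x ≠ 0) (p : ℝ) :
    HasFDerivAt (fun y : E3 => ‖y‖ ^ p) ((p * ‖x‖ ^ (p - 2)) • innerSL ℝ x) x := by
  have hx0 : 0 < ‖x‖ := norm_pos_iff.mpr hx
  have hfun : (fun y : E3 => ‖y‖ ^ p) = fun y : E3 => (‖y‖ ^ 2) ^ (p / 2) := by
    funext y
    rw [← Real.rpow_natCast, ← Real.rpow_mul (norm_nonneg _)]
    congr 1
    push_cast
    ring
  have h1 := (hasStrictFDerivAt_norm_sq x).hasFDerivAt.rpow_const (p := p / 2)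
    (Or.inl (by positivity))
  rw [hfun]
  convert! h1 using 1
  ext v
  have h2 : (‖x‖ ^ 2) ^ (p / 2 - 1) = ‖x‖ ^ (p - 2) := by
    rw [← Real.rpow_natCast, ← Real.rpow_mul (norm_nonneg _)]
    congr 1
    push_cast
    ring
  simp [h2]
  ring

theorem Jac_norm_rpow_pd {x : E3} (hx : x ≠ 0) (p : ℝ) (v : E3) :
    Jac_pd v (fun y : E3 => ‖y‖ ^ p) x = p * (‖x‖ ^ (p - 2) * ⟪x, v⟫) := by
  simp only [Jac_pd]
  rw [(Jac_norm_rpow_hasFDerivAt hx p).fderiv]
  simp [mul_assoc]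

theorem gradient_norm_rpow {x : E3} (hx : x ≠ 0) (p : ℝ) :
    gradient (fun y : E3 => ‖y‖ ^ p) x = (p * ‖x‖ ^ (p - 2)) • x := by
  apply Jac_grad_ext
  intro v
  rw [Jac_norm_rpow_pd hx, inner_smul_right, real_inner_comm, mul_assoc]

theorem laplacian_norm_rpow {x : E3} (hx : x ≠ 0) (p : ℝ) :
    Δ (fun y : E3 => ‖y‖ ^ p) x = p * (p + 1) * ‖x‖ ^ (p - 2) := by
  have hx0 : 0 < ‖x‖ := norm_pos_iff.mpr hx
  have h2 : ContDiffAt ℝ 2 (fun y : E3 => ‖y‖ ^ p) x := by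
    exact_mod_cast contDiffAt_norm_rpow hx p 2
  rw [Jac_laplacian h2]
  have key : ∀ i : Fin 3, Jac_pd (Jac_b i) (Jac_pd (Jac_b i) (fun y : E3 => ‖y‖ ^ p)) x =
      p * ‖x‖ ^ (p - 2) + p * (p - 2) * ‖x‖ ^ (p - 4) * (x i) ^ 2 := by
    intro i
    have h3 : Jac_pd (Jac_b i) (fun y : E3 => ‖y‖ ^ p) =ᶠ[𝓝 x]
        fun y => p * (‖y‖ ^ (p - 2) * ⟪y - 0, Jac_b i⟫) := by
      filter_upwards [isOpen_ne.mem_nhds hx] with y hy
      rw [Jac_norm_rpow_pd hy, sub_zero]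
    have h4 : DifferentiableAt ℝ (fun y : E3 => ‖y‖ ^ (p - 2)) x :=
      (Jac_norm_rpow_hasFDerivAt hx _).differentiableAt
    have h5 : DifferentiableAt ℝ (fun y : E3 => ⟪y - 0, Jac_b i⟫) x :=
      (Jac_aff_hasFDerivAt 0 _ x).differentiableAt
    rw [(Jac_pd_congr h3).eq_of_nhds, Jac_pd_const_mul _ (h4.fun_mul h5), Jac_pd_mul h4 h5,
      Jac_aff_pd, Jac_norm_rpow_pd hx]
    have h6 : p - 2 - 2 = p - 4 := by ring
    have h9 : ⟪x, Jac_b i⟫ = x i := by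
      simp only [Jac_b, EuclideanSpace.inner_single_right, one_mul]
      simp
    have h10 : ⟪Jac_b i, Jac_b i⟫ = (1 : ℝ) := by simp
    rw [h6, sub_zero, h9, h10]
    ring
  rw [Finset.sum_congr rfl fun i _ => key i, Finset.sum_add_distrib]
  have h7 : ∑ i : Fin 3, (x i) ^ 2 = ‖x‖ ^ 2 := by
    rw [EuclideanSpace.norm_sq_eq]
    refine Finset.sum_congr rfl fun i _ => ?_
    rw [Real.norm_eq_abs, sq_abs]
  have h8 : ‖x‖ ^ (p - 4) * ‖x‖ ^ 2 = ‖x‖ ^ (p - 2) := by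
    rw [← Real.rpow_natCast, ← Real.rpow_add hx0]
    congr 1
    push_cast
    ring
  have h11 : ∑ i : Fin 3, p * (p - 2) * ‖x‖ ^ (p - 4) * (x i) ^ 2 =
      p * (p - 2) * ‖x‖ ^ (p - 2) := by
    rw [← Finset.mul_sum, h7, mul_assoc _ (‖x‖ ^ (p - 4)), h8]
  rw [h11]
  simp
  ring

end Pool.Agent.H32.Flat
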