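import Pool.Agent.H32.Flat.MP
import Pool.Agent.H32.Flat.Jac

/-!
# Module R4: the decay barrier

`K = {a ≤ ‖x‖ ≤ b}`, `W = {a < ‖x‖ < b}`, and on `closure {0<u}`
`G₁ = ⟪nu,e⟫ - 8 ‖nu - e‖²`, `G₂ = ‖x‖^(-1/2) G₁ - (1/40) ‖x‖^(-3/2) u`,
`G = 1.1 η G₁ + (√a/45) G₂`.  Here `‖nu - e‖ ≤ 1/50`, so `0.97 ≤ G₁ ≤ 1.02`, `G₂ ≥ 0.94 ‖x‖^(-1/2)`.
-/

open Set Metric MeasureTheory Filter Topology InnerProductSpace
open scoped Laplacian Gradient RealInnerProductSpace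

namespace Pool.Agent.H32.Flat

/-- first barrier -/
noncomputable def Decay_G1 (u : E3 → ℝ) (e : E3) (x : E3) : ℝ :=
  ⟪nu u x, e⟫ - 8 * ‖nu u x - e‖ ^ 2

/-- second barrier -/
noncomputable def Decay_G2 (u : E3 → ℝ) (e : E3) (x : E3) : ℝ :=
  ‖x‖ ^ (-(1 / 2) : ℝ) * Decay_G1 u e x - 1 / 40 * (‖x‖ ^ (-(3 / 2) : ℝ) * u x)

theorem Decay_G1_bounds {v e : E3} (he : ‖e‖ = 1) (hv : ‖v - e‖ ≤ 1 / 50) :
    97 / 100 ≤ ⟪v, e⟫ - 8 * ‖v - e‖ ^ 2 ∧ ⟪v, e⟫ - 8 * ‖v - e‖ ^ 2 ≤ 51 / 50 := by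
  have h1 : ⟪v, e⟫ = 1 + ⟪v - e, e⟫ := by
    rw [inner_sub_left, real_inner_self_eq_norm_sq, he]; ring
  have h2 : |⟪v - e, e⟫| ≤ 1 / 50 := by
    have := abs_real_inner_le_norm (v - e) e
    rw [he, mul_one] at this
    linarith
  have h3 := abs_le.1 h2
  have h4 : 0 ≤ ‖v - e‖ := norm_nonneg _
  constructor
  · nlinarith [h3.1]
  · nlinarith [h3.2]

theorem Decay_gradient_contDiffAt {f : E3 → ℝ} {x : E3} (hf : HarmonicAt f x) :
    ContDiffAt ℝ 2 (gradient f) x := by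
  have h := harmonic_contDiffAt hf 3
  have h1 : ContDiffAt ℝ 2 (fderiv ℝ f) x := h.fderiv_right (by norm_num)
  exact (InnerProductSpace.toDual ℝ E3).symm.contDiff.contDiffAt.comp x h1

theorem Decay_normsq_contDiffAt {f : E3 → ℝ} {x : E3} (hf : HarmonicAt f x) (e : E3) :
    ContDiffAt ℝ 2 (fun y => ‖gradient f y - e‖ ^ 2) x := by
  have h := Decay_gradient_contDiffAt hf
  exact (h.sub contDiffAt_const).norm_sq ℝ

theorem Decay_G1_eventually {O : Set E3} {u : E3 → ℝ} (h : OnePhase O u) (e : E3) {x : E3}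
    (hx : x ∈ O) (hu : 0 < u x) :
    Decay_G1 u e =ᶠ[𝓝 x] fun y => ⟪gradient u y, e⟫ - 8 * ‖gradient u y - e‖ ^ 2 := by
  have h1 : ∀ᶠ y in 𝓝 x, y ∈ O := h.isOpen.mem_nhds hx
  have h2 : ∀ᶠ y in 𝓝 x, 0 < u y :=
    (h.cont.continuousAt (h.isOpen.mem_nhds hx)).eventually (lt_mem_nhds hu)
  filter_upwards [h1, h2] with y hy1 hy2
  simp only [Decay_G1, nu_of_pos h hy1 hy2]

/-- the first barrier with the plain gradient -/
noncomputable def Decay_F1 (f : E3 → ℝ) (e : E3) (y : E3) : ℝ :=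
  ⟪gradient f y, e⟫ - 8 * ‖gradient f y - e‖ ^ 2

theorem Decay_lap {f : E3 → ℝ} {x : E3} (hf : HarmonicAt f x) (e : E3) :
    Δ (Decay_F1 f e) x = -16 * hessSq f x := by
  have h1 := harmonicAt_inner_gradient hf e
  have h2 := Decay_normsq_contDiffAt hf e
  have h3 : ContDiffAt ℝ 2 ((8 : ℝ) • fun y : E3 => ‖gradient f y - e‖ ^ 2) x :=
    ContDiffAt.const_smul (8 : ℝ) h2
  have h4 : Decay_F1 f e =
      (fun y : E3 => ⟪gradient f y, e⟫) - ((8 : ℝ) • fun y : E3 => ‖gradient f y - e‖ ^ 2) := by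
    funext y; simp [Decay_F1]
  rw [h4, ContDiffAt.laplacian_sub h1.1 h3, laplacian_smul _ h2,
    laplacian_norm_gradient_sub_sq hf e, h1.2.eq_of_nhds]
  simp
  ring

theorem Decay_grad {f : E3 → ℝ} {x : E3} (hf : HarmonicAt f x) {e : E3} (he : ‖e‖ = 1)
    (hn : ‖gradient f x - e‖ ≤ 1 / 50) :
    ‖gradient (Decay_F1 f e) x‖ ≤ 132 / 100 * Real.sqrt (hessSq f x) := by
  have h1 := harmonicAt_inner_gradient hf e
  have h2 := Decay_normsq_contDiffAt hf e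
  have d1 : DifferentiableAt ℝ (fun y => ⟪gradient f y, e⟫) x := h1.1.differentiableAt (by norm_num)
  have d2 : DifferentiableAt ℝ (fun y => ‖gradient f y - e‖ ^ 2) x :=
    h2.differentiableAt (by norm_num)
  have h4 : gradient (Decay_F1 f e) x =
      gradient (fun y => ⟪gradient f y, e⟫) x -
        (8 : ℝ) • gradient (fun y => ‖gradient f y - e‖ ^ 2) x := by
    have e1 : fderiv ℝ (Decay_F1 f e) x =
        fderiv ℝ (fun y => ⟪gradient f y, e⟫) x -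
          (8 : ℝ) • fderiv ℝ (fun y => ‖gradient f y - e‖ ^ 2) x := by
      have := (d1.hasFDerivAt.sub (d2.hasFDerivAt.const_mul 8)).fderiv
      exact this
    unfold gradient at e1 ⊢
    rw [e1, map_sub, map_smul]
  have b1 := gradient_inner_gradient_le hf e
  have b2 := gradient_norm_gradient_sub_sq_le hf e
  rw [he, mul_one] at b1
  have hs : 0 ≤ Real.sqrt (hessSq f x) := Real.sqrt_nonneg _
  rw [h4]
  refine (norm_sub_le _ _).trans ?_
  rw [norm_smul, Real.norm_eq_abs, abs_of_pos (by norm_num : (0:ℝ) < 8)]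
  have : 2 * Real.sqrt (hessSq f x) * ‖gradient f x - e‖ ≤
      2 * Real.sqrt (hessSq f x) * (1 / 50) := by
    apply mul_le_mul_of_nonneg_left hn (by positivity)
  nlinarith

/-- the second barrier with the plain gradient -/
noncomputable def Decay_F2 (f : E3 → ℝ) (e : E3) (y : E3) : ℝ :=
  ‖y‖ ^ (-(1 / 2) : ℝ) * Decay_F1 f e y - 1 / 40 * (‖y‖ ^ (-(3 / 2) : ℝ) * f y)

theorem Decay_F1_contDiffAt {f : E3 → ℝ} {x : E3} (hf : HarmonicAt f x) (e : E3) :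
    ContDiffAt ℝ 2 (Decay_F1 f e) x :=
  (harmonicAt_inner_gradient hf e).1.sub ((Decay_normsq_contDiffAt hf e).const_smul (8 : ℝ))

theorem Decay_lap2 {f : E3 → ℝ} {x : E3} (hf : HarmonicAt f x) (hx : x ≠ 0) {e : E3}
    (he : ‖e‖ = 1) (hn : ‖gradient f x - e‖ ≤ 1 / 50) (hpos : 0 ≤ f x) :
    ContDiffAt ℝ 2 (Decay_F2 f e) x ∧ Δ (Decay_F2 f e) x < 0 := by
  have c1 := Decay_F1_contDiffAt hf e
  have r1 : ContDiffAt ℝ 2 (fun y : E3 => ‖y‖ ^ (-(1 / 2) : ℝ)) x :=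
    contDiffAt_norm_rpow hx _ 2
  have r2 : ContDiffAt ℝ 2 (fun y : E3 => ‖y‖ ^ (-(3 / 2) : ℝ)) x :=
    contDiffAt_norm_rpow hx _ 2
  have m1 : ContDiffAt ℝ 2 (fun y : E3 => ‖y‖ ^ (-(1 / 2) : ℝ) * Decay_F1 f e y) x := r1.mul c1
  have m2 : ContDiffAt ℝ 2 (fun y : E3 => ‖y‖ ^ (-(3 / 2) : ℝ) * f y) x := r2.mul hf.1
  have m3 : ContDiffAt ℝ 2 ((1 / 40 : ℝ) • fun y : E3 => ‖y‖ ^ (-(3 / 2) : ℝ) * f y) x :=
    ContDiffAt.const_smul (1 / 40 : ℝ) m2
  have heq : Decay_F2 f e = (fun y : E3 => ‖y‖ ^ (-(1 / 2) : ℝ) * Decay_F1 f e y) -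
      ((1 / 40 : ℝ) • fun y : E3 => ‖y‖ ^ (-(3 / 2) : ℝ) * f y) := by
    funext y; simp [Decay_F2]
  refine ⟨by rw [heq]; exact m1.sub m3, ?_⟩
  rw [heq, ContDiffAt.laplacian_sub m1 m3, laplacian_smul _ m2, laplacian_mul' r1 c1,
    laplacian_mul' r2 hf.1, laplacian_norm_rpow hx, laplacian_norm_rpow hx, Decay_lap hf e,
    hf.2.eq_of_nhds, gradient_norm_rpow hx, gradient_norm_rpow hx]
  have hr : 0 < ‖x‖ := norm_pos_iff.2 hx
  set r := ‖x‖ with hrdef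
  set q := r ^ (-(5 / 2) : ℝ) with hq
  have hq0 : 0 < q := Real.rpow_pos_of_pos hr _
  have e1 : r ^ (-(1 / 2) : ℝ) = q * r ^ 2 := by
    rw [hq, ← Real.rpow_natCast r 2, ← Real.rpow_add hr]; norm_num
  have e2 : r ^ (-(1 / 2) - 2 : ℝ) = q := by rw [hq]; norm_num
  have e3 : r ^ (-(3 / 2) : ℝ) = q * r := by
    have : r ^ (-(3 / 2) : ℝ) = r ^ (-(5 / 2) : ℝ) * r ^ (1 : ℝ) := by
      rw [← Real.rpow_add hr]; norm_num
    rw [this, Real.rpow_one]
  have e4 : r ^ (-(3 / 2) - 2 : ℝ) = q * r⁻¹ := by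
    rw [hq, ← Real.rpow_neg_one r, ← Real.rpow_add hr]; norm_num
  rw [e1, e2, e3, e4]
  simp only [inner_smul_left, conj_trivial]
  set d := Real.sqrt (hessSq f x) with hd
  have hd0 : 0 ≤ d := Real.sqrt_nonneg _
  have hh0 : 0 ≤ hessSq f x := Finset.sum_nonneg fun i _ => by positivity
  have hd2 : hessSq f x = d ^ 2 := (Real.sq_sqrt hh0).symm
  rw [hd2]
  have b1 : ⟪x, gradient (Decay_F1 f e) x⟫ ≥ -(r * (132 / 100 * d)) := by
    have h1 := abs_real_inner_le_norm x (gradient (Decay_F1 f e) x)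
    have h2 : ‖x‖ * ‖gradient (Decay_F1 f e) x‖ ≤ r * (132 / 100 * d) :=
      mul_le_mul_of_nonneg_left (Decay_grad hf he hn) hr.le
    have h3 := (abs_le.1 (h1.trans h2)).1
    exact h3
  have b2 : ⟪x, gradient f x⟫ ≤ r * (51 / 50) := by
    have h1 : ‖gradient f x‖ ≤ 51 / 50 := by
      have : ‖gradient f x‖ ≤ ‖gradient f x - e‖ + ‖e‖ := by
        simpa using norm_add_le (gradient f x - e) e
      rw [he] at this; linarith
    exact (real_inner_le_norm _ _).trans (mul_le_mul_of_nonneg_left h1 hr.le)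
  have b3 : 97 / 100 ≤ Decay_F1 f e x := (Decay_G1_bounds he hn).1
  set I1 := ⟪x, gradient (Decay_F1 f e) x⟫
  set I2 := ⟪x, gradient f x⟫
  set F := Decay_F1 f e x
  have key : q * r ^ 2 * (-16 * d ^ 2) + 2 * (-(1 / 2) * q * I1) + F * (-(1 / 2) * (-(1 / 2) + 1) * q) -
      (1 / 40 : ℝ) * (q * r * 0 + 2 * (-(3 / 2) * (q * r⁻¹) * I2) +
        f x * (-(3 / 2) * (-(3 / 2) + 1) * (q * r⁻¹))) < 0 := by
    have f1 : q * r ^ 2 * (-16 * d ^ 2) + 2 * (-(1 / 2) * q * I1) +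
        F * (-(1 / 2) * (-(1 / 2) + 1) * q) ≤
        q * (-16 * (r * d) ^ 2 + 132 / 100 * (r * d) - 97 / 400) := by
      nlinarith [mul_le_mul_of_nonneg_left b1.le hq0.le, mul_le_mul_of_nonneg_left b3 hq0.le]
    have f2 : (1 / 40 : ℝ) * (2 * ((3 / 2) * (q * r⁻¹) * I2)) ≤ q * (153 / 2000) := by
      have : r⁻¹ * I2 ≤ 51 / 50 := by
        rw [inv_mul_le_iff₀ hr]; exact b2
      nlinarith [mul_le_mul_of_nonneg_left this hq0.le]
    have f3 : 0 ≤ (1 / 40 : ℝ) * (f x * ((3 / 4) * (q * r⁻¹))) := by positivity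
    have f4 : -16 * (r * d) ^ 2 + 132 / 100 * (r * d) - 97 / 400 + 153 / 2000 < 0 := by
      nlinarith [sq_nonneg (r * d - 132 / 3200)]
    nlinarith [mul_neg_of_pos_of_neg hq0 f4]
  exact key

theorem Decay_G2_eventually {O : Set E3} {u : E3 → ℝ} (h : OnePhase O u) (e : E3) {x : E3}
    (hx : x ∈ O) (hu : 0 < u x) : Decay_G2 u e =ᶠ[𝓝 x] Decay_F2 u e := by
  filter_upwards [Decay_G1_eventually h e hx hu] with y hy
  simp only [Decay_G2, Decay_F2, hy, Decay_F1]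

/-- The Robin condition for the first barrier. -/
theorem Decay_G1_robin {O : Set E3} {u : E3 → ℝ} (h : OnePhase O u) {e : E3} (he : ‖e‖ = 1)
    {p : E3} (hp : p ∈ O) (hF : FB u p) {lam : ℝ}
    (hl : HasDerivWithinAt (fun t : ℝ => nu u (p + t • nu u p)) (lam • nu u p) (Ici 0) 0) :
    HasDerivWithinAt (fun t : ℝ => Decay_G1 u e (p + t • nu u p)) (lam * Decay_G1 u e p)
      (Ici 0) 0 := by
  have hn := norm_nu_of_FB h hp hF
  have h1 : HasDerivWithinAt (fun t : ℝ => ⟪nu u (p + t • nu u p), e⟫) ⟪lam • nu u p, e⟫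
      (Ici 0) 0 := by
    have := hl.inner ℝ (hasDerivWithinAt_const (0 : ℝ) (Ici 0) e)
    simpa using this
  have h2 : HasDerivWithinAt (fun t : ℝ => ‖nu u (p + t • nu u p) - e‖ ^ 2)
      (2 * ⟪nu u p - e, lam • nu u p⟫) (Ici 0) 0 := by
    have := (hl.sub_const e).norm_sq
    simpa using this
  have h3 := h1.sub (h2.const_mul 8)
  refine (h3.congr_deriv ?_)
  have hnn : ⟪nu u p, nu u p⟫ = 1 := by rw [real_inner_self_eq_norm_sq, hn]; norm_num
  have hee : ⟪e, e⟫ = 1 := by rw [real_inner_self_eq_norm_sq, he]; norm_num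
  have h4 : ‖nu u p - e‖ ^ 2 = 2 - 2 * ⟪nu u p, e⟫ := by
    rw [← real_inner_self_eq_norm_sq, inner_sub_left, inner_sub_right, inner_sub_right, hnn, hee,
      real_inner_comm]
    ring
  simp only [Decay_G1, inner_smul_left, inner_smul_right, inner_sub_left, h4, hnn,
    conj_trivial, real_inner_comm (nu u p) e]
  ring

theorem Decay_rpow_line {p ν : E3} (hp : p ≠ 0) (s : ℝ) :
    HasDerivWithinAt (fun t : ℝ => ‖p + t • ν‖ ^ s) (s * ‖p‖ ^ (s - 2) * ⟪p, ν⟫) (Ici 0) 0 := by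
  have h0 : DifferentiableAt ℝ (fun y : E3 => ‖y‖ ^ s) p :=
    (contDiffAt_norm_rpow hp s 1).differentiableAt (by norm_num)
  have h1 : HasFDerivAt (fun y : E3 => ‖y‖ ^ s)
      (InnerProductSpace.toDual ℝ E3 ((s * ‖p‖ ^ (s - 2)) • p)) (p + (0 : ℝ) • ν) := by
    have := h0.hasGradientAt.hasFDerivAt
    rw [gradient_norm_rpow hp s] at this
    simpa using this
  have h2 : HasDerivAt (fun t : ℝ => p + t • ν) ν 0 := by
    have := (hasDerivAt_id (0 : ℝ)).smul_const ν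
    simpa using this.const_add p
  have h3 := h1.comp_hasDerivAt (0 : ℝ) h2
  refine (h3.hasDerivWithinAt).congr_deriv ?_
  simp [InnerProductSpace.toDual_apply_apply]

/-- The (strict) Robin condition for the second barrier. -/
theorem Decay_G2_robin {O : Set E3} {u : E3 → ℝ} (h : OnePhase O u) {e : E3} (he : ‖e‖ = 1)
    {p : E3} (hp : p ∈ O) (hF : FB u p) (hp0 : p ≠ 0) (hpn : |⟪p, nu u p⟫| ≤ ‖p‖ / 25)
    (hG : 0 < Decay_G1 u e p) {lam : ℝ}
    (hl : HasDerivWithinAt (fun t : ℝ => nu u (p + t • nu u p)) (lam • nu u p) (Ici 0) 0) :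
    ∃ d : ℝ, HasDerivWithinAt (fun t : ℝ => Decay_G2 u e (p + t • nu u p)) d (Ici 0) 0 ∧
      d < lam * Decay_G2 u e p := by
  have hn := norm_nu_of_FB h hp hF
  have h1 := Decay_G1_robin h he hp hF hl
  have h2 := hasDeriv_u h hp hF
  have h3 := Decay_rpow_line (ν := nu u p) hp0 (-(1 / 2))
  have h4 := Decay_rpow_line (ν := nu u p) hp0 (-(3 / 2))
  have h5 := (h3.mul h1).sub ((h4.mul h2).const_mul (1 / 40))
  refine ⟨_, h5, ?_⟩
  have hu0 : u p = 0 := hF.1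
  have hG1 : Decay_G1 u e p ≤ 1 := by
    have : ⟪nu u p, e⟫ ≤ 1 := by
      have := real_inner_le_norm (nu u p) e
      rwa [hn, he, mul_one] at this
    have h6 : 0 ≤ ‖nu u p - e‖ ^ 2 := by positivity
    simp only [Decay_G1]; linarith
  simp only [zero_smul, add_zero, hu0, mul_zero, Decay_G2, sub_zero]
  have hr : 0 < ‖p‖ := norm_pos_iff.2 hp0
  set r := ‖p‖ with hrdef
  set q := r ^ (-(5 / 2) : ℝ) with hq
  have hq0 : 0 < q := Real.rpow_pos_of_pos hr _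
  have e2 : r ^ (-(1 / 2) - 2 : ℝ) = q := by rw [hq]; norm_num
  have e3 : r ^ (-(3 / 2) : ℝ) = q * r := by
    have : r ^ (-(3 / 2) : ℝ) = r ^ (-(5 / 2) : ℝ) * r ^ (1 : ℝ) := by
      rw [← Real.rpow_add hr]; norm_num
    rw [this, Real.rpow_one]
  rw [e2, e3]
  have h6 := abs_le.1 hpn
  have h7 : -(1 / 2) * (⟪p, nu u p⟫ * Decay_G1 u e p) ≤ r / 50 := by
    have h8 : |⟪p, nu u p⟫ * Decay_G1 u e p| ≤ r / 25 * 1 := by
      rw [abs_mul, abs_of_pos hG]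
      exact mul_le_mul hpn hG1 hG.le (by positivity)
    have := (abs_le.1 h8).1
    linarith
  have h9 := mul_le_mul_of_nonneg_left h7 hq0.le
  have h10 : 0 < q * r := by positivity
  nlinarith

theorem decay {O : Set E3} {u : E3 → ℝ} (h : OnePhase O u) {a b : ℝ} (ha : 0 < a) (hab : a < b)
    (hO : {x : E3 | a ≤ ‖x‖ ∧ ‖x‖ ≤ b} ⊆ O) {e : E3} (he : ‖e‖ = 1)
    (hnu : ∀ x ∈ closure {x | 0 < u x}, a ≤ ‖x‖ → ‖x‖ ≤ b → ‖nu u x - e‖ ≤ 1 / 50)
    (hu : ∀ x : E3, a ≤ ‖x‖ → ‖x‖ ≤ b → 0 < u x → u x ≤ 1.05 * ‖x‖)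
    (hF : ∀ p : E3, a ≤ ‖p‖ → ‖p‖ ≤ b → FB u p → |⟪p, nu u p⟫| ≤ ‖p‖ / 25)
    {η : ℝ} (hη : 0 ≤ η)
    (hout : ∀ x ∈ closure {x | 0 < u x}, ‖x‖ = b → ‖nu u x - e‖ ≤ η) :
    ∀ x ∈ closure {x | 0 < u x}, a ≤ ‖x‖ → ‖x‖ ≤ b → ∀ ξ : E3, ‖ξ‖ = 1 → ⟪ξ, e⟫ = 0 →
      ⟪nu u x, ξ⟫ ≤ 2 * η + 1 / 40 * Real.sqrt (a / ‖x‖) := by
  intro x₀ hx₀ hax₀ hxb₀ ξ hξ hξe
  set K : Set E3 := {x | a ≤ ‖x‖ ∧ ‖x‖ ≤ b} with hK
  set W : Set E3 := {x | a < ‖x‖ ∧ ‖x‖ < b} with hW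
  have hKc : IsCompact K := by
    refine (isCompact_closedBall (0 : E3) b).of_isClosed_subset ?_ ?_
    · exact (isClosed_le continuous_const continuous_norm).inter
        (isClosed_le continuous_norm continuous_const)
    · intro x hx; simpa using hx.2
  have hWo : IsOpen W :=
    (isOpen_lt continuous_const continuous_norm).inter
      (isOpen_lt continuous_norm continuous_const)
  have hWK : W ⊆ K := fun x hx => ⟨hx.1.le, hx.2.le⟩
  have hne : ∀ x : E3, a ≤ ‖x‖ → x ≠ 0 := fun x hx => norm_pos_iff.1 (ha.trans_le hx)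
  have hsa : 0 < Real.sqrt a := Real.sqrt_pos.2 ha
  -- bounds for the barriers
  have hu0 : ∀ x ∈ K, 0 ≤ u x := fun x hx => h.nonneg x (hO hx)
  have hub : ∀ x ∈ K, u x ≤ 1.05 * ‖x‖ := by
    intro x hx
    rcases (hu0 x hx).lt_or_eq with h1 | h1
    · exact hu x hx.1 hx.2 h1
    · rw [← h1]; positivity
  have hG1b : ∀ x ∈ K, x ∈ closure {x | 0 < u x} →
      97 / 100 ≤ Decay_G1 u e x ∧ Decay_G1 u e x ≤ 51 / 50 := fun x hx hc =>
    Decay_G1_bounds he (hnu x hc hx.1 hx.2)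
  have hpow : ∀ x ∈ K, ‖x‖ ^ (-(3 / 2) : ℝ) * ‖x‖ = ‖x‖ ^ (-(1 / 2) : ℝ) := by
    intro x hx
    have hr : 0 < ‖x‖ := ha.trans_le hx.1
    nth_rewrite 2 [← Real.rpow_one ‖x‖]
    rw [← Real.rpow_add hr]; norm_num
  have hG2b : ∀ x ∈ K, x ∈ closure {x | 0 < u x} →
      94 / 100 * ‖x‖ ^ (-(1 / 2) : ℝ) ≤ Decay_G2 u e x ∧
        Decay_G2 u e x ≤ 51 / 50 * ‖x‖ ^ (-(1 / 2) : ℝ) := by
    intro x hx hc
    have hr : 0 < ‖x‖ := ha.trans_le hx.1
    have hP : 0 < ‖x‖ ^ (-(1 / 2) : ℝ) := Real.rpow_pos_of_pos hr _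
    have hQ : 0 < ‖x‖ ^ (-(3 / 2) : ℝ) := Real.rpow_pos_of_pos hr _
    have hb := hG1b x hx hc
    have h1 : ‖x‖ ^ (-(3 / 2) : ℝ) * u x ≤ 1.05 * ‖x‖ ^ (-(1 / 2) : ℝ) := by
      have := mul_le_mul_of_nonneg_left (hub x hx) hQ.le
      rw [← hpow x hx]; linarith
    have h2 : 0 ≤ ‖x‖ ^ (-(3 / 2) : ℝ) * u x := mul_nonneg hQ.le (hu0 x hx)
    have h3 := mul_le_mul_of_nonneg_left hb.1 hP.le
    have h4 := mul_le_mul_of_nonneg_left hb.2 hP.le
    simp only [Decay_G2]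
    constructor <;> nlinarith
  set G : E3 → ℝ := fun x => 11 / 10 * η * Decay_G1 u e x + Real.sqrt a / 45 * Decay_G2 u e x
    with hG
  have hnuc : ContinuousOn (nu u) (K ∩ closure {x | 0 < u x}) :=
    (nu_continuousOn h).mono (inter_subset_inter_left _ hO)
  have hG1c : ContinuousOn (Decay_G1 u e) (K ∩ closure {x | 0 < u x}) := by
    unfold Decay_G1
    exact (hnuc.inner continuousOn_const).sub
      (continuousOn_const.mul ((hnuc.sub continuousOn_const).norm.pow 2))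
  have hrc : ∀ s : ℝ, ContinuousOn (fun x : E3 => ‖x‖ ^ s) (K ∩ closure {x | 0 < u x}) := by
    intro s
    refine continuous_norm.continuousOn.rpow_const ?_
    intro x hx
    exact Or.inl (norm_ne_zero_iff.2 (hne x hx.1.1))
  have hG2c : ContinuousOn (Decay_G2 u e) (K ∩ closure {x | 0 < u x}) := by
    unfold Decay_G2
    exact ((hrc _).mul hG1c).sub (continuousOn_const.mul ((hrc _).mul
      (h.cont.mono (inter_subset_left.trans hO))))
  have hres : ⟪nu u x₀, ξ⟫ ≤ G x₀ := by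
    refine robinPrinciple h hKc hO hWo hWK ξ ?_ ?_ ?_ ?_ ?_ x₀ ⟨hax₀, hxb₀⟩ hx₀
    · exact (continuousOn_const.mul hG1c).add (continuousOn_const.mul hG2c)
    · intro x hx hux
      have hxO : x ∈ O := hO (hWK hx)
      have hH : HarmonicAt u x := h.harm x hxO hux
      have hcl : x ∈ closure {x | 0 < u x} := subset_closure hux
      have hn : ‖gradient u x - e‖ ≤ 1 / 50 := by
        rw [← nu_of_pos h hxO hux]; exact hnu x hcl hx.1.le hx.2.le
      have hx0 : x ≠ 0 := hne x hx.1.le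
      obtain ⟨c2, l2⟩ := Decay_lap2 hH hx0 he hn hux.le
      have c1 := Decay_F1_contDiffAt hH e
      have l1 := Decay_lap hH e
      have hh0 : 0 ≤ hessSq u x := Finset.sum_nonneg fun i _ => by positivity
      have hev : G =ᶠ[𝓝 x] ((11 / 10 * η) • Decay_F1 u e + (Real.sqrt a / 45) • Decay_F2 u e) := by
        filter_upwards [Decay_G1_eventually h e hxO hux, Decay_G2_eventually h e hxO hux]
          with y hy1 hy2
        simp only [hG, hy1, hy2, Pi.add_apply, Pi.smul_apply, smul_eq_mul, Decay_F1]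
      have d1 : ContDiffAt ℝ 2 ((11 / 10 * η) • Decay_F1 u e) x :=
        ContDiffAt.const_smul (11 / 10 * η) c1
      have d2 : ContDiffAt ℝ 2 ((Real.sqrt a / 45) • Decay_F2 u e) x :=
        ContDiffAt.const_smul (Real.sqrt a / 45) c2
      refine ⟨(d1.add d2).congr_of_eventuallyEq hev, ?_⟩
      rw [(laplacian_congr_nhds hev).eq_of_nhds, ContDiffAt.laplacian_add d1 d2,
        laplacian_smul _ c1, laplacian_smul _ c2, l1]
      simp only [smul_eq_mul]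
      have t1 : 11 / 10 * η * (-16 * hessSq u x) ≤ 0 := by
        have : 0 ≤ η * hessSq u x := mul_nonneg hη hh0
        nlinarith
      have t2 : Real.sqrt a / 45 * Δ (Decay_F2 u e) x < 0 :=
        mul_neg_of_pos_of_neg (by positivity) l2
      linarith
    · intro x hx hc
      have h1 := (hG1b x hx hc).1
      have h2 := (hG2b x hx hc).1
      have hP : 0 < ‖x‖ ^ (-(1 / 2) : ℝ) := Real.rpow_pos_of_pos (ha.trans_le hx.1) _
      have h3 : 0 < Decay_G2 u e x := lt_of_lt_of_le (by positivity) h2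
      have h4 : 0 ≤ 11 / 10 * η * Decay_G1 u e x := by
        have : 0 ≤ Decay_G1 u e x := by linarith
        positivity
      simp only [hG]
      have : 0 < Real.sqrt a / 45 * Decay_G2 u e x := by positivity
      linarith
    · intro p hp hFp lam hl
      have hpO : p ∈ O := hO (hWK hp)
      have hp0 : p ≠ 0 := hne p hp.1.le
      have hpos : 0 < Decay_G1 u e p := lt_of_lt_of_le (by norm_num)
        (hG1b p (hWK hp) hFp.2).1
      obtain ⟨d, hd1, hd2⟩ := Decay_G2_robin h he hpO hFp hp0 (hF p hp.1.le hp.2.le hFp) hpos hl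
      have h1 := Decay_G1_robin h he hpO hFp hl
      refine ⟨_, (h1.const_mul (11 / 10 * η)).add (hd1.const_mul (Real.sqrt a / 45)), ?_⟩
      have : Real.sqrt a / 45 * d < Real.sqrt a / 45 * (lam * Decay_G2 u e p) :=
        mul_lt_mul_of_pos_left hd2 (by positivity)
      simp only [hG]
      linarith
    · intro x hx hc
      have hxK : x ∈ K := hx.1
      have h1 := (hG1b x hxK hc).1
      have h2 := (hG2b x hxK hc).1
      have hP : 0 < ‖x‖ ^ (-(1 / 2) : ℝ) := Real.rpow_pos_of_pos (ha.trans_le hxK.1) _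
      have hG2pos : 0 < Decay_G2 u e x := lt_of_lt_of_le (by positivity) h2
      have hin : ⟪nu u x, ξ⟫ ≤ ‖nu u x - e‖ := by
        have h3 : ⟪nu u x, ξ⟫ = ⟪nu u x - e, ξ⟫ := by
          rw [inner_sub_left, real_inner_comm ξ e, hξe, sub_zero]
        rw [h3]
        have := real_inner_le_norm (nu u x - e) ξ
        rwa [hξ, mul_one] at this
      have hbd : ‖x‖ = a ∨ ‖x‖ = b := by
        by_contra hcon
        push Not at hcon
        exact hx.2 ⟨lt_of_le_of_ne hxK.1 (Ne.symm hcon.1), lt_of_le_of_ne hxK.2 hcon.2⟩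
      simp only [hG]
      rcases hbd with hxa | hxb
      · have h5 : ⟪nu u x, ξ⟫ ≤ 1 / 50 := hin.trans (hnu x hc hxK.1 hxK.2)
        have h6 : Real.sqrt a * ‖x‖ ^ (-(1 / 2) : ℝ) = 1 := by
          rw [hxa, Real.sqrt_eq_rpow, ← Real.rpow_add ha]; norm_num
        have h7 : Real.sqrt a / 45 * (94 / 100 * ‖x‖ ^ (-(1 / 2) : ℝ)) ≤
            Real.sqrt a / 45 * Decay_G2 u e x := mul_le_mul_of_nonneg_left h2 (by positivity)
        have h8 : 0 ≤ 11 / 10 * η * Decay_G1 u e x := by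
          have : 0 ≤ Decay_G1 u e x := by linarith
          positivity
        nlinarith
      · have h5 : ⟪nu u x, ξ⟫ ≤ η := hin.trans (hout x hc hxb)
        have h6 : 11 / 10 * η * (97 / 100) ≤ 11 / 10 * η * Decay_G1 u e x :=
          mul_le_mul_of_nonneg_left h1 (by positivity)
        have h7 : 0 < Real.sqrt a / 45 * Decay_G2 u e x := by positivity
        nlinarith
  have hx₀K : x₀ ∈ K := ⟨hax₀, hxb₀⟩
  have hr : 0 < ‖x₀‖ := ha.trans_le hax₀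
  have h1 := (hG1b x₀ hx₀K hx₀).2
  have h2 := (hG2b x₀ hx₀K hx₀).2
  have h3 : Real.sqrt (a / ‖x₀‖) = Real.sqrt a * ‖x₀‖ ^ (-(1 / 2) : ℝ) := by
    rw [Real.sqrt_div ha.le, Real.sqrt_eq_rpow ‖x₀‖, Real.rpow_neg hr.le, div_eq_mul_inv]
  have h4 : 11 / 10 * η * Decay_G1 u e x₀ ≤ 11 / 10 * η * (51 / 50) :=
    mul_le_mul_of_nonneg_left h1 (by positivity)
  have h5 : Real.sqrt a / 45 * Decay_G2 u e x₀ ≤
      Real.sqrt a / 45 * (51 / 50 * ‖x₀‖ ^ (-(1 / 2) : ℝ)) :=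
    mul_le_mul_of_nonneg_left h2 (by positivity)
  have h6 : 0 ≤ Real.sqrt a * ‖x₀‖ ^ (-(1 / 2) : ℝ) := by positivity
  rw [h3]
  refine hres.trans ?_
  simp only [hG]
  nlinarith

end Pool.Agent.H32.Flat
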