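import Mathlib

/-!
# One-phase free boundaries around a small ball (MP_4bb143_an): definitions

`E3` is Euclidean three-space, the third coordinate `x_3` of the problem is `x 2`.
-/

open Set Metric MeasureTheory Filter Topology InnerProductSpace
open scoped Laplacian Gradient RealInnerProductSpace

namespace Pool.Agent.H32.Flat

/-- Euclidean three-space. -/
abbrev E3 := EuclideanSpace ℝ (Fin 3)

/-- The third unit vector. -/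
noncomputable def e3 : E3 := EuclideanSpace.single 2 1

/-- `p` is a free boundary point of `u`: a zero of `u` that is a limit of points where `u > 0`. -/
def FB (u : E3 → ℝ) (p : E3) : Prop := u p = 0 ∧ p ∈ closure {x | 0 < u x}

/-- `u` is a classical one-phase solution on the open set `O` (the function `u` may be anything
outside `O`): `u ≥ 0` is continuous, harmonic where positive, and near every free boundary point
`p ∈ O` it agrees on the positive side with a `C²` function `U` whose gradient has length one on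
the free boundary. -/
structure OnePhase (O : Set E3) (u : E3 → ℝ) : Prop where
  isOpen : IsOpen O
  cont : ContinuousOn u O
  nonneg : ∀ x ∈ O, 0 ≤ u x
  harm : ∀ x ∈ O, 0 < u x → HarmonicAt u x
  bdry : ∀ p ∈ O, FB u p → ∃ (V : Set E3) (U : E3 → ℝ), IsOpen V ∧ p ∈ V ∧ V ⊆ O ∧
    ContDiffOn ℝ 2 U V ∧ (∀ x ∈ V, 0 < u x → U x = u x) ∧
    (∀ x ∈ V, FB u x → ‖gradient U x‖ = 1)

/-- The gradient of `u`, extended to the free boundary by its limit from the positive side. -/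
noncomputable def nu (u : E3 → ℝ) (x : E3) : E3 :=
  limUnder (𝓝[{y | 0 < u y}] x) (gradient u)

open Classical in
/-- The gradient of `u` on the positive phase, `0` elsewhere. -/
noncomputable def Du (u : E3 → ℝ) (x : E3) : E3 := if 0 < u x then gradient u x else 0

open Classical in
/-- The indicator of the positive phase. -/
noncomputable def ind (u : E3 → ℝ) (x : E3) : ℝ := if 0 < u x then 1 else 0

/-- The divergence of a vector field. -/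
noncomputable def divg (X : E3 → E3) (x : E3) : ℝ :=
  ∑ i : Fin 3, (fderiv ℝ X x (EuclideanSpace.single i 1)) i

/-- The weight `w(t) = (1 - t)₊`. -/
noncomputable def wt (t : ℝ) : ℝ := max (1 - t) 0

/-- The normalising constant `m = ∫ w(|x|²)⁴`. -/
noncomputable def mm : ℝ := ∫ x : E3, wt (‖x‖ ^ 2) ^ 4

/-- A cut-off that vanishes for `‖x‖ ≤ 3δ` and is one for `‖x‖ ≥ 4δ`. -/
noncomputable def chi (δ : ℝ) (x : E3) : ℝ := Real.smoothTransition ((‖x‖ ^ 2 / δ ^ 2 - 9) / 7)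

/-- The volume term. -/
noncomputable def VV (χ : E3 → ℝ) (u : E3 → ℝ) (y : E3) (ρ : ℝ) : ℝ :=
  1 / ρ ^ 3 * ∫ x, χ x * wt (‖x - y‖ ^ 2 / ρ ^ 2) ^ 4 * ind u x

/-- The Weiss functional with radial weight and cut-off `χ`. -/
noncomputable def WW (χ : E3 → ℝ) (u : E3 → ℝ) (y : E3) (ρ : ℝ) : ℝ :=
  1 / ρ ^ 3 * (∫ x, χ x * wt (‖x - y‖ ^ 2 / ρ ^ 2) ^ 4 * (‖Du u x‖ ^ 2 + ind u x)) -
    8 / ρ ^ 5 * ∫ x, χ x * wt (‖x - y‖ ^ 2 / ρ ^ 2) ^ 3 * u x ^ 2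

/-- The height term. -/
noncomputable def HH (χ : E3 → ℝ) (u : E3 → ℝ) (y : E3) (ρ : ℝ) : ℝ :=
  4 / ρ ^ 5 * ∫ x, χ x * wt (‖x - y‖ ^ 2 / ρ ^ 2) ^ 3 * u x ^ 2

/-- The deviation of `u` from being homogeneous of degree one about `y`. -/
noncomputable def TT (u : E3 → ℝ) (y : E3) (x : E3) : ℝ := ⟪x - y, Du u x⟫ - u x

/-- Error terms caused by the cut-off. -/
noncomputable def Err1 (χ : E3 → ℝ) (u : E3 → ℝ) (y : E3) (ρ : ℝ) : ℝ :=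
  ∫ x, wt (‖x - y‖ ^ 2 / ρ ^ 2) ^ 4 * ((‖Du u x‖ ^ 2 + ind u x) * ⟪x - y, gradient χ x⟫ -
    2 * ⟪gradient χ x, Du u x⟫ * ⟪x - y, Du u x⟫)

noncomputable def Err2 (χ : E3 → ℝ) (u : E3 → ℝ) (y : E3) (ρ : ℝ) : ℝ :=
  ∫ x, wt (‖x - y‖ ^ 2 / ρ ^ 2) ^ 4 * (u x * ⟪gradient χ x, Du u x⟫)

noncomputable def Err3 (χ : E3 → ℝ) (u : E3 → ℝ) (y : E3) (ρ : ℝ) : ℝ :=
  ∫ x, wt (‖x - y‖ ^ 2 / ρ ^ 2) ^ 3 * (u x ^ 2 * ⟪x - y, gradient χ x⟫)

/-- `u` is `σρ`-close on `ball y ρ` to the half-plane solution through `y` in direction `e`. -/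
def CloseAt (u : E3 → ℝ) (y : E3) (ρ : ℝ) (e : E3) (σ : ℝ) : Prop :=
  ∀ x ∈ ball y ρ, |u x - max ⟪x - y, e⟫ 0| ≤ σ * ρ ∧ (σ * ρ < ⟪x - y, e⟫ → 0 < u x) ∧
    (⟪x - y, e⟫ < -(σ * ρ) → u x = 0)

/-- The situation of the problem after the topological step. -/
structure Setup (δ ε : ℝ) (u : E3 → ℝ) : Prop where
  onePhase : OnePhase {x | δ < ‖x‖ ∧ ‖x‖ < 1} u
  meets : ∀ s, δ < s → s < 1 → ∃ y : E3, ‖y‖ = s ∧ FB u y
  up : ∀ x : E3, δ < ‖x‖ → ‖x‖ < 1 → ε < x 2 → 0 < u x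
  down : ∀ x : E3, δ < ‖x‖ → ‖x‖ < 1 → x 2 < -ε → u x = 0

/-- Density information at the free boundary points of the region `Kδ ≤ |y| ≤ r₁`, at all
scales `ρ ≤ r₀`. -/
structure Dens (κ K r₁ r₀ δ : ℝ) (u : E3 → ℝ) : Prop where
  vol : ∀ y : E3, FB u y → K * δ ≤ ‖y‖ → ‖y‖ ≤ r₁ → ∀ ρ, 0 < ρ → ρ ≤ r₀ →
    |VV (chi δ) u y ρ - mm / 2| ≤ κ
  hom : ∀ y : E3, FB u y → K * δ ≤ ‖y‖ → ‖y‖ ≤ r₁ → ∀ ρ, 0 < ρ → ρ ≤ r₀ →
    ∫ x in ball y ρ \ closedBall 0 (4 * δ), TT u y x ^ 2 ≤ κ * ρ ^ 5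

/-- The rescaling `x ↦ u (z + s x) / s`. -/
noncomputable def sc (u : E3 → ℝ) (z : E3) (s : ℝ) (x : E3) : ℝ := u (z + s • x) / s

/-- Almost conical solutions on the annulus `τ < |x| < 8`. -/
structure AlmostCone (L κ τ : ℝ) (u : E3 → ℝ) : Prop where
  onePhase : OnePhase {x | τ < ‖x‖ ∧ ‖x‖ < 8} u
  lip : ∀ x : E3, τ < ‖x‖ → ‖x‖ < 8 → 0 < u x → ‖gradient u x‖ ≤ L
  bound : ∀ x : E3, τ < ‖x‖ → ‖x‖ < 8 → u x ≤ 8 * L
  hom0 : ∫ x in ball 0 4 \ closedBall 0 τ, TT u 0 x ^ 2 ≤ κ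
  homF : ∀ y : E3, τ < ‖y‖ → ‖y‖ ≤ 1 → FB u y →
    ∫ x in ball 0 4 \ closedBall 0 τ, TT u y x ^ 2 ≤ κ
  vol0 : |(∫ x in ball 0 4 \ closedBall 0 τ, wt (‖x‖ ^ 2) ^ 4 * ind u x) - mm / 2| ≤ κ
  volF : ∀ y : E3, ‖y‖ ≤ 1 → FB u y → ∀ ρ, 0 < ρ → ρ < 1 → τ + ρ < ‖y‖ →
    |1 / ρ ^ 3 * (∫ x in ball y ρ, wt (‖x - y‖ ^ 2 / ρ ^ 2) ^ 4 * ind u x) - mm / 2| ≤ κ
  nondeg : ∃ x : E3, τ < ‖x‖ ∧ ‖x‖ ≤ 1 ∧ 1 / 1000 ≤ u x

end Pool.Agent.H32.Flat
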