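import Pool.Agent.H32.Flat.Weiss

/-!
# Module F2: the density at a free boundary point is one half

By `local_struct` at `y`: `u = max U 0` near `y`, `U y = 0`, `∇U y = ν`, `|ν| = 1`, `U` is `C²`.
Substituting `x = y + ρ ξ`: `VV = ∫ wt(|ξ|²)⁴ 1_{U(y+ρξ)>0} dξ → ∫_{⟪ξ,ν⟫>0} wt(|ξ|²)⁴ dξ = mm/2`
(dominated convergence off the null set `⟪ξ,ν⟫ = 0`, symmetry `ξ ↦ -ξ`).  By `weiss_split` (here
`χ = 1` near `y`, so `Err2 = 0` for small `ρ`), `WW - VV = 8/ρ⁵ ∫ χ w³ u TT`, with `|u| ≤ 2ρ` and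
`|TT| ≤ o(1) ρ` on `ball y ρ`: `TT u y x = ⟪x-y,∇U x⟫ - U x` where `U x > 0`, which is
`⟪x-y,∇U x - ∇U y⟫ - (U x - ⟪∇U y, x-y⟫) = o(ρ)`.  (`WW` may be replaced by its definition directly.)
-/

open Set Metric MeasureTheory Filter Topology InnerProductSpace
open scoped Laplacian Gradient RealInnerProductSpace

namespace Pool.Agent.H32.Flat

variable {O : Set E3} {u : E3 → ℝ}

theorem WeissLim_cont_wt (n : ℕ) : Continuous (fun ξ : E3 => wt (‖ξ‖ ^ 2) ^ n) := by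
  unfold wt
  fun_prop

theorem WeissLim_wt_nonneg (t : ℝ) : 0 ≤ wt t := le_max_right _ _

theorem WeissLim_wt_le {t : ℝ} (ht : 0 ≤ t) : wt t ≤ 1 := by
  unfold wt
  exact max_le (by linarith) zero_le_one

theorem WeissLim_wt_zero {t : ℝ} (ht : 1 ≤ t) : wt t = 0 := by
  unfold wt
  exact max_eq_right (by linarith)

theorem WeissLim_wt_out {ξ : E3} (hξ : ξ ∉ ball (0 : E3) 1) : wt (‖ξ‖ ^ 2) = 0 := by
  apply WeissLim_wt_zero
  rw [mem_ball_zero_iff, not_lt] at hξ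
  nlinarith [norm_nonneg ξ]

theorem WeissLim_integrable {n : ℕ} (hn : n ≠ 0) : Integrable (fun ξ : E3 => wt (‖ξ‖ ^ 2) ^ n) := by
  apply (WeissLim_cont_wt n).integrable_of_hasCompactSupport
  apply HasCompactSupport.of_support_subset_isCompact (isCompact_closedBall (0 : E3) 1)
  intro ξ hξ
  by_contra hc
  apply hξ
  show wt (‖ξ‖ ^ 2) ^ n = 0
  rw [WeissLim_wt_out (fun h => hc (ball_subset_closedBall h)), zero_pow hn]

theorem WeissLim_null {ν : E3} (hν : ν ≠ 0) : volume {ξ : E3 | ⟪ξ, ν⟫ = 0} = 0 := by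
  have h1 : {ξ : E3 | ⟪ξ, ν⟫ = 0} = ((ℝ ∙ ν)ᗮ : Submodule ℝ E3) := by
    ext ξ
    rw [SetLike.mem_coe, Submodule.mem_orthogonal_singleton_iff_inner_left]
    rfl
  rw [h1]
  apply Measure.addHaar_submodule
  intro htop
  have h2 : ν ∈ ((ℝ ∙ ν)ᗮ : Submodule ℝ E3) := by
    rw [htop]
    exact Submodule.mem_top
  rw [Submodule.mem_orthogonal_singleton_iff_inner_left, inner_self_eq_zero] at h2
  exact hν h2

theorem WeissLim_meas_half (ν : E3) : MeasurableSet {ξ : E3 | 0 < ⟪ξ, ν⟫} :=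
  (isOpen_lt continuous_const (by fun_prop)).measurableSet

theorem WeissLim_half {ν : E3} (hν : ν ≠ 0) :
    ∫ ξ : E3, {ξ : E3 | 0 < ⟪ξ, ν⟫}.indicator (fun ξ => wt (‖ξ‖ ^ 2) ^ 4) ξ = mm / 2 := by
  set f : E3 → ℝ := {ξ : E3 | 0 < ⟪ξ, ν⟫}.indicator (fun ξ => wt (‖ξ‖ ^ 2) ^ 4) with hf
  have hint : Integrable f := (WeissLim_integrable (n := 4) (by norm_num)).indicator
    (WeissLim_meas_half ν)
  have hint' : Integrable (fun ξ => f (-ξ)) := hint.comp_neg
  have h1 : ∫ ξ, f (-ξ) = ∫ ξ, f ξ := integral_neg_eq_self f volume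
  have h2 : ∫ ξ, (f ξ + f (-ξ)) = mm := by
    unfold mm
    apply integral_congr_ae
    have h3 : ∀ᵐ ξ : E3, ξ ∉ {ξ : E3 | ⟪ξ, ν⟫ = 0} :=
      (measure_eq_zero_iff_ae_notMem).1 (WeissLim_null hν)
    filter_upwards [h3] with ξ hξ
    have h4 : ⟪ξ, ν⟫ ≠ 0 := hξ
    rcases lt_or_gt_of_ne h4 with h5 | h5
    · have h6 : f ξ = 0 := by
        rw [hf, indicator_of_notMem]
        simp only [mem_ofPred_eq, not_lt]
        exact h5.le
      have h7 : f (-ξ) = wt (‖ξ‖ ^ 2) ^ 4 := by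
        rw [hf, indicator_of_mem]
        · rw [norm_neg]
        · simp only [mem_ofPred_eq, inner_neg_left]
          linarith
      rw [h6, h7, zero_add]
    · have h6 : f ξ = wt (‖ξ‖ ^ 2) ^ 4 := by
        rw [hf, indicator_of_mem]
        exact h5
      have h7 : f (-ξ) = 0 := by
        rw [hf, indicator_of_notMem]
        simp only [mem_ofPred_eq, inner_neg_left, not_lt]
        linarith
      rw [h6, h7, add_zero]
  rw [integral_add hint hint', h1] at h2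
  linarith

theorem WeissLim_subst (F : E3 → ℝ) (y : E3) {ρ : ℝ} (hρ : 0 < ρ) :
    1 / ρ ^ 3 * ∫ x, F x = ∫ ξ, F (y + ρ • ξ) := by
  have h1 := Measure.integral_comp_smul (volume : Measure E3) (fun x => F (y + x)) ρ
  rw [h1, integral_add_left_eq_self (μ := (volume : Measure E3)) F y, finrank_euclideanSpace_fin,
    abs_of_pos (by positivity), smul_eq_mul, one_div]

/-- local description of the positive phase -/
theorem WeissLim_U (h : OnePhase O u) {y : E3} (hy : y ∈ O) (hF : FB u y) :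
    ∃ r > 0, ∃ U : E3 → ℝ, ball y r ⊆ O ∧ ContDiffOn ℝ 2 U (ball y r) ∧
      (∀ x ∈ ball y r, u x = max (U x) 0) ∧
      (∀ x ∈ ball y r, (0 < u x ↔ 0 < U x)) ∧
      (∀ x ∈ ball y r, 0 < U x → Du u x = gradient U x) ∧
      U y = 0 ∧ ‖gradient U y‖ = 1 := by
  obtain ⟨r, hr, U, hO, hU, h1, h2, h3⟩ := local_struct h hy hF
  have hiff : ∀ x ∈ ball y r, (0 < u x ↔ 0 < U x) := by
    intro x hx
    rw [h1 x hx]
    constructor
    · intro h4
      rcases lt_max_iff.1 h4 with h5 | h5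
      · exact h5
      · exact absurd h5 (lt_irrefl _)
    · intro h4
      exact lt_max_of_lt_left h4
  have hyb : y ∈ ball y r := mem_ball_self hr
  have hUle : U y ≤ 0 := by
    by_contra hc
    push Not at hc
    have := (hiff y hyb).2 hc
    rw [hF.1] at this
    exact lt_irrefl _ this
  have hcont : ContinuousAt U y := hU.continuousOn.continuousAt (isOpen_ball.mem_nhds hyb)
  have hUge : 0 ≤ U y := by
    by_contra hc
    push Not at hc
    have h4 : ∀ᶠ x in 𝓝 y, U x < 0 := hcont.eventually (Iio_mem_nhds hc)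
    have h5 : ∀ᶠ x in 𝓝 y, x ∈ ball y r := isOpen_ball.mem_nhds hyb
    have h6 := mem_closure_iff_frequently.1 hF.2
    obtain ⟨x, hx1, hx2, hx3⟩ := (h6.and_eventually (h4.and h5)).exists
    have := (hiff x hx3).1 hx1
    linarith
  have hU0 : U y = 0 := le_antisymm hUle hUge
  refine ⟨r, hr, U, hO, hU, h1, hiff, ?_, hU0, (h3 y hyb hU0).2⟩
  intro x hx hpos
  have hux := (hiff x hx).2 hpos
  have h4 := (h2 x hx hpos.le).2
  unfold Du
  rw [if_pos hux, ← h4, nu_of_pos h (hO hx) hux]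

theorem WeissLim_VV (h : OnePhase O u) {χ : E3 → ℝ} {y : E3} (hy : y ∈ O)
    (hF : FB u y) (h1 : ∀ᶠ x in 𝓝 y, χ x = 1) :
    Tendsto (fun ρ => VV χ u y ρ) (𝓝[>] 0) (𝓝 (mm / 2)) := by
  obtain ⟨r, hr, U, hO, hU, hmax, hiff, hDu, hU0, hnorm⟩ := WeissLim_U h hy hF
  obtain ⟨s, hs, hχs⟩ := Metric.eventually_nhds_iff.1 h1
  set ν := gradient U y with hν
  have hν0 : ν ≠ 0 := by
    intro hc
    rw [hc, norm_zero] at hnorm
    exact zero_ne_one hnorm
  rw [← WeissLim_half hν0]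
  have hyb : y ∈ ball y r := mem_ball_self hr
  have hdiff : DifferentiableAt ℝ U y :=
    ((hU.contDiffAt (isOpen_ball.mem_nhds hyb)).differentiableAt (by norm_num))
  have hgrad : HasGradientAt U ν y := hdiff.hasGradientAt
  have hder : ∀ ξ : E3, HasDerivAt (fun t : ℝ => U (y + t • ξ)) ⟪ξ, ν⟫ 0 := by
    intro ξ
    have h2 : HasFDerivAt U (toDual ℝ E3 ν) (y + (0 : ℝ) • ξ) := by
      rw [zero_smul, add_zero]
      exact hgrad.hasFDerivAt
    have h3 : HasDerivAt (fun t : ℝ => y + t • ξ) ξ 0 := by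
      have := ((hasDerivAt_id (0 : ℝ)).smul_const ξ).const_add y
      simpa using this
    have h4 := h2.comp_hasDerivAt (0 : ℝ) h3
    have h5 : (toDual ℝ E3 ν) ξ = ⟪ξ, ν⟫ := by
      rw [toDual_apply_apply, real_inner_comm]
    rw [h5] at h4
    exact h4
  -- sign of `U (y + t ξ)` for small `t > 0`
  have hsign : ∀ ξ : E3, ⟪ξ, ν⟫ ≠ 0 → ∀ᶠ t in 𝓝[>] (0 : ℝ), (0 < U (y + t • ξ) ↔ 0 < ⟪ξ, ν⟫) := by
    intro ξ hξ
    have h2 := (hder ξ).tendsto_slope
    have h2' : Tendsto (slope (fun t : ℝ => U (y + t • ξ)) 0) (𝓝[>] 0) (𝓝 ⟪ξ, ν⟫) :=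
      h2.mono_left (nhdsWithin_mono _ (fun t ht => (ne_of_gt ht)))
    have h3 : ∀ t : ℝ, slope (fun t : ℝ => U (y + t • ξ)) 0 t = t⁻¹ * U (y + t • ξ) := by
      intro t
      rw [slope_def_field, zero_smul, add_zero, hU0, sub_zero, sub_zero]
      ring
    rcases lt_or_gt_of_ne hξ with h5 | h5
    · have h6 := h2'.eventually (Iio_mem_nhds h5)
      filter_upwards [h6, self_mem_nhdsWithin] with t ht1 ht2
      have ht2' : 0 < t := ht2
      have ht1' : slope (fun t : ℝ => U (y + t • ξ)) 0 t < 0 := ht1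
      rw [h3] at ht1'
      constructor
      · intro h7
        have : 0 < t⁻¹ * U (y + t • ξ) := by positivity
        linarith
      · intro h7
        linarith
    · have h6 := h2'.eventually (Ioi_mem_nhds h5)
      filter_upwards [h6, self_mem_nhdsWithin] with t ht1 ht2
      have ht2' : 0 < t := ht2
      have ht1' : 0 < slope (fun t : ℝ => U (y + t • ξ)) 0 t := ht1
      rw [h3] at ht1'
      constructor
      · intro _
        exact h5
      · intro _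
        exact (mul_pos_iff_of_pos_left (inv_pos.2 ht2')).1 ht1'
  -- the integrand after the substitution
  have hsmall : ∀ᶠ ρ in 𝓝[>] (0 : ℝ), 0 < ρ ∧ ρ < r ∧ ρ < s := by
    filter_upwards [self_mem_nhdsWithin, Ioo_mem_nhdsGT hr, Ioo_mem_nhdsGT hs] with ρ h2 h3 h4
    exact ⟨h2, h3.2, h4.2⟩
  have hmem : ∀ ρ : ℝ, 0 < ρ → ∀ R : ℝ, ρ < R → ∀ ξ ∈ ball (0 : E3) 1, y + ρ • ξ ∈ ball y R := by
    intro ρ hρ R hR ξ hξ
    rw [mem_ball_iff_norm, add_sub_cancel_left, norm_smul, Real.norm_eq_abs, abs_of_pos hρ]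
    rw [mem_ball_zero_iff] at hξ
    nlinarith [norm_nonneg ξ]
  have hwt : ∀ ρ : ℝ, 0 < ρ → ∀ ξ : E3, wt (‖y + ρ • ξ - y‖ ^ 2 / ρ ^ 2) = wt (‖ξ‖ ^ 2) := by
    intro ρ hρ ξ
    rw [add_sub_cancel_left, norm_smul, Real.norm_eq_abs, abs_of_pos hρ, mul_pow,
      mul_div_cancel_left₀ _ (by positivity)]
  have hVV : ∀ᶠ ρ in 𝓝[>] (0 : ℝ), VV χ u y ρ =
      ∫ ξ : E3, {ξ : E3 | ξ ∈ ball (0 : E3) 1 ∧ 0 < U (y + ρ • ξ)}.indicator
        (fun ξ => wt (‖ξ‖ ^ 2) ^ 4) ξ := by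
    filter_upwards [hsmall] with ρ ⟨hρ, hρr, hρs⟩
    unfold VV
    rw [WeissLim_subst _ y hρ]
    congr 1
    ext ξ
    rw [hwt ρ hρ ξ]
    by_cases hξ : ξ ∈ ball (0 : E3) 1
    · have h2 : χ (y + ρ • ξ) = 1 := hχs (hmem ρ hρ s hρs ξ hξ)
      have h3 := hiff _ (hmem ρ hρ r hρr ξ hξ)
      rw [h2, one_mul]
      unfold ind
      by_cases h4 : 0 < U (y + ρ • ξ)
      · rw [if_pos (h3.2 h4), mul_one, indicator_of_mem]
        exact ⟨hξ, h4⟩
      · rw [if_neg (fun h5 => h4 (h3.1 h5)), mul_zero, indicator_of_notMem]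
        exact fun h5 => h4 h5.2
    · rw [WeissLim_wt_out hξ, indicator_of_notMem]
      · ring
      · exact fun h5 => hξ h5.1
  refine Tendsto.congr' (hVV.mono fun ρ h2 => h2.symm) ?_
  apply tendsto_integral_filter_of_dominated_convergence (fun ξ : E3 => wt (‖ξ‖ ^ 2) ^ 4)
  · filter_upwards [hsmall] with ρ ⟨hρ, hρr, hρs⟩
    apply AEStronglyMeasurable.indicator (WeissLim_cont_wt 4).aestronglyMeasurable
    have h2 : IsOpen {ξ : E3 | ξ ∈ ball (0 : E3) 1 ∧ 0 < U (y + ρ • ξ)} := by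
      have h3 : ContinuousOn (fun ξ : E3 => U (y + ρ • ξ)) (ball (0 : E3) 1) := by
        apply hU.continuousOn.comp (by fun_prop)
        intro ξ hξ
        exact hmem ρ hρ r hρr ξ hξ
      exact h3.isOpen_inter_preimage isOpen_ball isOpen_Ioi
    exact h2.measurableSet
  · refine Eventually.of_forall fun ρ => Eventually.of_forall fun ξ => ?_
    have h2 : 0 ≤ wt (‖ξ‖ ^ 2) ^ 4 := pow_nonneg (WeissLim_wt_nonneg _) 4
    rw [Real.norm_eq_abs, abs_of_nonneg (indicator_nonneg (fun _ _ =>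
      pow_nonneg (WeissLim_wt_nonneg _) 4) ξ)]
    exact indicator_le_self' (fun _ _ => pow_nonneg (WeissLim_wt_nonneg _) 4) ξ
  · exact WeissLim_integrable (by norm_num)
  · have h3 : ∀ᵐ ξ : E3, ξ ∉ {ξ : E3 | ⟪ξ, ν⟫ = 0} :=
      (measure_eq_zero_iff_ae_notMem).1 (WeissLim_null hν0)
    filter_upwards [h3] with ξ hξ
    have hξ' : ⟪ξ, ν⟫ ≠ 0 := hξ
    refine tendsto_const_nhds.congr' ?_
    filter_upwards [hsign ξ hξ'] with ρ hρ
    by_cases hb : ξ ∈ ball (0 : E3) 1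
    · by_cases h5 : 0 < ⟪ξ, ν⟫
      · rw [indicator_of_mem (show ξ ∈ {ξ : E3 | 0 < ⟪ξ, ν⟫} from h5), indicator_of_mem]
        exact ⟨hb, hρ.2 h5⟩
      · rw [indicator_of_notMem (show ξ ∉ {ξ : E3 | 0 < ⟪ξ, ν⟫} from h5), indicator_of_notMem]
        exact fun h6 => h5 (hρ.1 h6.2)
    · rw [indicator_of_notMem (show ξ ∉ {ξ : E3 | ξ ∈ ball (0 : E3) 1 ∧ 0 < U (y + ρ • ξ)} from
        fun h6 => hb h6.1)]
      by_cases h5 : 0 < ⟪ξ, ν⟫
      · rw [indicator_of_mem (show ξ ∈ {ξ : E3 | 0 < ⟪ξ, ν⟫} from h5), WeissLim_wt_out hb]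
        norm_num
      · rw [indicator_of_notMem (show ξ ∉ {ξ : E3 | 0 < ⟪ξ, ν⟫} from h5)]

/-- `u` and `TT` near a free boundary point -/
theorem WeissLim_bound (h : OnePhase O u) {y : E3} (hy : y ∈ O) (hF : FB u y) {ε : ℝ}
    (hε : 0 < ε) : ∀ᶠ x in 𝓝 y, |u x| ≤ 2 * ‖x - y‖ ∧ |TT u y x| ≤ ε * ‖x - y‖ := by
  obtain ⟨r, hr, U, hO, hU, hmax, hiff, hDu, hU0, hnorm⟩ := WeissLim_U h hy hF
  set ν := gradient U y with hν
  have hyb : y ∈ ball y r := mem_ball_self hr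
  have hCD : ContDiffAt ℝ 2 U y := hU.contDiffAt (isOpen_ball.mem_nhds hyb)
  have hdiff : DifferentiableAt ℝ U y := hCD.differentiableAt (by norm_num)
  have hgrad : HasGradientAt U ν y := hdiff.hasGradientAt
  have hlit := hasGradientAt_iff_isLittleO.1 hgrad
  have hgc : ContinuousAt (gradient U) y := by
    have h2 : ContinuousAt (fderiv ℝ U) y := by
      have h3 : ContDiffAt ℝ 1 (fderiv ℝ U) y := hCD.fderiv_right (by norm_num)
      exact h3.continuousAt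
    exact ((toDual ℝ E3).symm.continuous.continuousAt).comp h2
  set δ := min 1 (ε / 2) with hδ
  have hδ0 : 0 < δ := lt_min one_pos (by positivity)
  have h3 : ∀ᶠ x in 𝓝 y, ‖U x - U y - ⟪ν, x - y⟫‖ ≤ δ * ‖x - y‖ := by
    have := hlit.bound hδ0
    exact this
  have h4 : ∀ᶠ x in 𝓝 y, ‖gradient U x - ν‖ ≤ δ := by
    have h5 : Tendsto (fun x => ‖gradient U x - ν‖) (𝓝 y) (𝓝 0) := by
      have := (hgc.tendsto.sub_const ν).norm
      rw [← hν, sub_self, norm_zero] at this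
      exact this
    exact (h5.eventually (Iio_mem_nhds hδ0)).mono fun x hx => le_of_lt hx
  have h5 : ∀ᶠ x in 𝓝 y, x ∈ ball y r := isOpen_ball.mem_nhds hyb
  filter_upwards [h3, h4, h5] with x hx3 hx4 hx5
  rw [hU0, sub_zero, Real.norm_eq_abs] at hx3
  have hn := norm_nonneg (x - y)
  have hinner : |⟪ν, x - y⟫| ≤ ‖x - y‖ := by
    have := abs_real_inner_le_norm ν (x - y)
    rw [hnorm, one_mul] at this
    exact this
  have hδ1 : δ ≤ 1 := min_le_left _ _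
  have hδ2 : δ ≤ ε / 2 := min_le_right _ _
  have hUabs : |U x| ≤ 2 * ‖x - y‖ := by
    have h6 : |U x| ≤ |U x - ⟪ν, x - y⟫| + |⟪ν, x - y⟫| := by
      have := abs_add_le (U x - ⟪ν, x - y⟫) ⟪ν, x - y⟫
      rwa [sub_add_cancel] at this
    nlinarith
  by_cases hpos : 0 < U x
  · have h6 : u x = U x := by
      rw [hmax x hx5]
      exact max_eq_left hpos.le
    refine ⟨by rw [h6]; exact hUabs, ?_⟩
    unfold TT
    rw [hDu x hx5 hpos, h6]
    have h7 : ⟪x - y, gradient U x⟫ - U x = ⟪x - y, gradient U x - ν⟫ - (U x - ⟪ν, x - y⟫) := by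
      rw [inner_sub_right, real_inner_comm (x - y) ν]
      ring
    rw [h7]
    have h8 : |⟪x - y, gradient U x - ν⟫| ≤ ‖x - y‖ * δ :=
      (abs_real_inner_le_norm _ _).trans (mul_le_mul_of_nonneg_left hx4 hn)
    have h9 := abs_sub (⟪x - y, gradient U x - ν⟫) (U x - ⟪ν, x - y⟫)
    nlinarith
  · have h6 : u x = 0 := by
      rw [hmax x hx5]
      exact max_eq_right (not_lt.1 hpos)
    refine ⟨by rw [h6, abs_zero]; positivity, ?_⟩
    unfold TT Du
    rw [h6, if_neg (lt_irrefl _), inner_zero_right, sub_zero, abs_zero]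
    positivity

theorem weiss_limit (h : OnePhase O u) {χ : E3 → ℝ} (hχ : ContDiff ℝ 1 χ) {y : E3} (hy : y ∈ O)
    (hF : FB u y) (h1 : ∀ᶠ x in 𝓝 y, χ x = 1) :
    Tendsto (fun ρ => WW χ u y ρ) (𝓝[>] 0) (𝓝 (mm / 2)) := by
  obtain ⟨s, hs, hχs⟩ := Metric.eventually_nhds_iff.1 h1
  obtain ⟨r, hr, hrO⟩ := Metric.isOpen_iff.1 h.isOpen y hy
  have hsmall : ∀ᶠ ρ in 𝓝[>] (0 : ℝ), 0 < ρ ∧ ρ < r ∧ ρ < s := by
    filter_upwards [self_mem_nhdsWithin, Ioo_mem_nhdsGT hr, Ioo_mem_nhdsGT hs] with ρ h2 h3 h4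
    exact ⟨h2, h3.2, h4.2⟩
  have hout : ∀ ρ : ℝ, 0 < ρ → ∀ x : E3, x ∉ ball y ρ → wt (‖x - y‖ ^ 2 / ρ ^ 2) = 0 := by
    intro ρ hρ x hx
    apply WeissLim_wt_zero
    rw [mem_ball_iff_norm, not_lt] at hx
    rw [one_le_div (by positivity)]
    exact pow_le_pow_left₀ hρ.le hx 2
  have hErr : ∀ᶠ ρ in 𝓝[>] (0 : ℝ), Err2 χ u y ρ = 0 := by
    filter_upwards [hsmall] with ρ ⟨hρ, hρr, hρs⟩
    unfold Err2
    rw [show (fun x => wt (‖x - y‖ ^ 2 / ρ ^ 2) ^ 4 * (u x * ⟪gradient χ x, Du u x⟫)) =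
      fun _ => 0 from ?_, integral_zero]
    ext x
    by_cases hx : x ∈ ball y ρ
    · have h2 : χ =ᶠ[𝓝 x] fun _ => (1 : ℝ) := by
        filter_upwards [isOpen_ball.mem_nhds hx] with z hz
        exact hχs (lt_trans (mem_ball.1 hz) hρs)
      have h3 : gradient χ x = 0 := by
        unfold gradient
        rw [h2.fderiv_eq]
        simp
      rw [h3, inner_zero_left, mul_zero, mul_zero]
    · rw [hout ρ hρ x hx]
      ring
  have hsplit : ∀ᶠ ρ in 𝓝[>] (0 : ℝ), VV χ u y ρ +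
      8 / ρ ^ 5 * (∫ x, χ x * wt (‖x - y‖ ^ 2 / ρ ^ 2) ^ 3 * (u x * TT u y x)) = WW χ u y ρ := by
    filter_upwards [hsmall, hErr] with ρ ⟨hρ, hρr, hρs⟩ hE
    have h2 : closedBall y ρ ∩ tsupport χ ⊆ O :=
      inter_subset_left.trans ((closedBall_subset_ball hρr).trans hrO)
    rw [weiss_split h hχ hρ h2, hE, zero_div, sub_zero]
  refine Tendsto.congr' hsplit ?_
  rw [← add_zero (mm / 2)]
  refine (WeissLim_VV h hy hF h1).add ?_
  set c : ℝ := (volume : Measure E3).real (ball (0 : E3) 1) with hc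
  have hc0 : 0 ≤ c := measureReal_nonneg
  rw [Metric.tendsto_nhds]
  intro ε hε
  set η : ℝ := ε / (16 * c + 16) with hη
  have hη0 : 0 < η := by positivity
  obtain ⟨t, ht, hbd⟩ := Metric.eventually_nhds_iff.1 (WeissLim_bound h hy hF hη0)
  filter_upwards [hsmall, Ioo_mem_nhdsGT ht] with ρ ⟨hρ, hρr, hρs⟩ hρt
  rw [dist_zero_right, norm_mul]
  have h2 : ‖∫ x, χ x * wt (‖x - y‖ ^ 2 / ρ ^ 2) ^ 3 * (u x * TT u y x)‖ ≤
      (2 * ρ * (η * ρ)) * (ρ ^ 3 * c) := by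
    rw [← setIntegral_eq_integral_of_forall_compl_eq_zero (s := ball y ρ)]
    · have h3 : (volume : Measure E3).real (ball y ρ) = ρ ^ 3 * c := by
        rw [measureReal_def, Measure.addHaar_ball _ _ hρ.le, finrank_euclideanSpace_fin,
          ENNReal.toReal_mul, ENNReal.toReal_ofReal (by positivity), hc, measureReal_def]
      rw [← h3]
      apply norm_setIntegral_le_of_norm_le_const measure_ball_lt_top
      intro x hx
      have hx' : ‖x - y‖ < ρ := mem_ball_iff_norm.1 hx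
      have h4 := hbd (lt_trans (mem_ball.1 hx) hρt.2)
      have h5 : χ x = 1 := hχs (lt_trans (mem_ball.1 hx) hρs)
      rw [h5, one_mul, norm_mul, norm_mul, norm_pow, Real.norm_eq_abs, Real.norm_eq_abs,
        Real.norm_eq_abs, abs_of_nonneg (WeissLim_wt_nonneg _)]
      have h6 : wt (‖x - y‖ ^ 2 / ρ ^ 2) ^ 3 ≤ 1 :=
        pow_le_one₀ (WeissLim_wt_nonneg _) (WeissLim_wt_le (by positivity))
      have h7 : |u x| ≤ 2 * ρ := h4.1.trans (by linarith)
      have h8 : |TT u y x| ≤ η * ρ := h4.2.trans (by nlinarith)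
      calc wt (‖x - y‖ ^ 2 / ρ ^ 2) ^ 3 * (|u x| * |TT u y x|)
          ≤ 1 * (|u x| * |TT u y x|) := by
            apply mul_le_mul_of_nonneg_right h6
            positivity
        _ = |u x| * |TT u y x| := one_mul _
        _ ≤ (2 * ρ) * (η * ρ) := by
            apply mul_le_mul h7 h8 (abs_nonneg _)
            positivity
    · intro x hx
      rw [hout ρ hρ x hx]
      ring
  have h9 : ‖8 / ρ ^ 5‖ = 8 / ρ ^ 5 := by
    rw [Real.norm_eq_abs, abs_of_pos (by positivity)]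
  rw [h9]
  calc 8 / ρ ^ 5 * ‖∫ x, χ x * wt (‖x - y‖ ^ 2 / ρ ^ 2) ^ 3 * (u x * TT u y x)‖
      ≤ 8 / ρ ^ 5 * ((2 * ρ * (η * ρ)) * (ρ ^ 3 * c)) := by
        apply mul_le_mul_of_nonneg_left h2
        positivity
    _ = 16 * c * η := by
        field_simp
        ring
    _ < ε := by
        rw [hη]
        have h10 : 0 < 16 * c + 16 := by positivity
        rw [← mul_div_assoc, div_lt_iff₀ h10]
        nlinarith

end Pool.Agent.H32.Flat
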