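import Pool.Agent.H32.Flat.WeissUp
import Pool.Agent.H32.Flat.WeissLim

/-!
# Module F4: density information (assembly)

Let `κ' ≪ κ`.  `r₀'` from `weiss_upper κ'`, `r₁ ≤ κ' r₀'` small, `K` large, `δ₀, ε₀` small.
For `y` with `FB u y`, `Kδ ≤ |y| ≤ r₁` (so `K ≥ 8`) and `0 < ρ ≤ r₀'`:
* `WW' ≥ -(error)`, where the error is `0` for `ρ ≤ |y| - 4δ` (`err_zero`), in particular for
  `ρ ≤ |y|/2`, and at most `C(|y|+δ)δ²/ρ⁴ + C(|y|+δ)δ⁴/ρ⁶` for `ρ ≥ |y|/2`; its integral over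
  `(|y|/2, ∞)` is `≤ C (δ/|y|)² ≤ C/K²`.
* lower bound: `WW(y,0+) = mm/2` (`weiss_limit`), so `WW(y,ρ) ≥ mm/2 - C/K²`.
* upper bound: `WW(y,ρ) ≤ WW(y,r₀') + C/K² ≤ WW(0,r₀') + C|y|/r₀' + C/K² ≤ mm/2 + κ' + C r₁/r₀' + C/K²`.
* hence `∫_0^{r₀'} 16 ρ⁻⁶ ∫ χ w³ TT² dρ ≤ C κ'` and, for `ρ ≤ r₀ := r₀'/2`, integrating over
  `[√2 ρ, 2ρ]` (there `w ≥ 1/2` on `ball y ρ`): `∫_{ball y ρ} χ TT² ≤ C κ' ρ⁵`; `χ = 1` off `closedBall 0 4δ`.
  (In Lean: `WW(2ρ) - WW(ρ√2) ≥ (infimum of the derivative) * length`, via monotonicity of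
  `WW(r) - c r`-type functions, i.e. `image_sub_le_...`/`Convex.norm_image_sub_le` or
  `intervalIntegral`; no integral over `(0,r₀')` is needed.)
* `VV = WW - 8ρ⁻⁵∫χ w³ u TT + Err2/ρ³` (`weiss_split`): `u ≤ Lρ` on `ball y ρ` if `ρ ≤ |y|/2` (segments,
  `lip_seg`), `u ≤ L(|y|+ρ) ≤ 3Lρ` on `supp χ ∩ ball y ρ` if `ρ ≥ |y|/2`; Cauchy-Schwarz; on the part
  `3δ ≤ |x| ≤ 4δ` use the crude bound `|TT| ≤ C L (|y| + δ)` (volume `C δ³`, only if `ρ ≥ |y|/2`).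
-/

open Set Metric MeasureTheory Filter Topology InnerProductSpace
open scoped Laplacian Gradient RealInnerProductSpace

namespace Pool.Agent.H32.Flat

variable {u : E3 → ℝ} {δ : ℝ}

theorem DensPf_supp (hδ : 0 < δ) {y : E3} {R : ℝ} (hR : ‖y‖ + R < 1) :
    closedBall y R ∩ tsupport (chi δ) ⊆ {x | δ < ‖x‖ ∧ ‖x‖ < 1} := by
  rintro x ⟨hx1, hx2⟩
  have h3 : 3 * δ ≤ ‖x‖ := chi_tsupport hδ hx2
  rw [mem_closedBall, dist_eq_norm] at hx1
  refine ⟨by linarith, ?_⟩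
  have : x = (x - y) + y := by abel
  rw [this]
  refine (norm_add_le _ _).trans_lt ?_
  linarith

theorem DensPf_Du_meas {O : Set E3} (h : OnePhase O u) :
    AEStronglyMeasurable (Du u) (volume.restrict O) := by
  have hP : IsOpen (O ∩ u ⁻¹' Ioi 0) := h.cont.isOpen_inter_preimage h.isOpen isOpen_Ioi
  have hc : ContinuousOn (gradient u) (O ∩ u ⁻¹' Ioi 0) := by
    rintro x ⟨hxO, hx⟩
    have h0 := h.harm x hxO hx
    have h1 : ContinuousAt (fderiv ℝ u) x :=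
      (h0.1.fderiv_right (m := 1) (by norm_num)).continuousAt
    exact ((toDual ℝ E3).symm.continuous.continuousAt.comp h1).continuousWithinAt
  have h1 : AEStronglyMeasurable ((O ∩ u ⁻¹' Ioi 0).indicator (gradient u)) volume :=
    (aestronglyMeasurable_indicator_iff hP.measurableSet).2
      (hc.aestronglyMeasurable hP.measurableSet)
  refine h1.restrict.congr ?_
  filter_upwards [ae_restrict_mem h.isOpen.measurableSet] with x hx
  by_cases hux : 0 < u x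
  · rw [indicator_of_mem (show x ∈ O ∩ u ⁻¹' Ioi 0 from ⟨hx, hux⟩), Du, if_pos hux]
  · rw [indicator_of_notMem (fun hh => hux hh.2), Du, if_neg hux]

theorem DensPf_TT_meas {O : Set E3} (h : OnePhase O u) (y : E3) :
    AEStronglyMeasurable (TT u y) (volume.restrict O) := by
  have h1 : AEStronglyMeasurable (fun x : E3 => x - y) (volume.restrict O) :=
    (continuous_id.sub continuous_const).aestronglyMeasurable
  have h2 : AEStronglyMeasurable u (volume.restrict O) :=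
    h.cont.aestronglyMeasurable h.isOpen.measurableSet
  exact (h1.inner (DensPf_Du_meas h)).sub h2

/-- the region where the integrands live -/
def DensPf_A (δ : ℝ) (y : E3) (ρ : ℝ) : Set E3 := ball y ρ ∩ {x | 3 * δ < ‖x‖}

theorem DensPf_A_open (δ : ℝ) (y : E3) (ρ : ℝ) : IsOpen (DensPf_A δ y ρ) :=
  isOpen_ball.inter (isOpen_lt continuous_const continuous_norm)

theorem DensPf_A_norm {y : E3} {ρ : ℝ} (h : ‖y‖ + ρ ≤ 1 / 2) {x : E3}
    (hx : x ∈ DensPf_A δ y ρ) : 3 * δ < ‖x‖ ∧ ‖x‖ ≤ ‖y‖ + ρ ∧ ‖x‖ ≤ 1 / 2 := by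
  obtain ⟨hx1, hx2⟩ := hx
  rw [mem_ball, dist_eq_norm] at hx1
  have : ‖x‖ ≤ ‖y‖ + ρ := by
    have h1 : x = (x - y) + y := by abel
    rw [h1]
    refine (norm_add_le _ _).trans ?_
    linarith
  exact ⟨hx2, this, this.trans h⟩

theorem DensPf_A_sub (hδ : 0 < δ) {y : E3} {ρ : ℝ} (h : ‖y‖ + ρ ≤ 1 / 2) :
    DensPf_A δ y ρ ⊆ {x | δ < ‖x‖ ∧ ‖x‖ < 1} := by
  intro x hx
  obtain ⟨h1, h2, h3⟩ := DensPf_A_norm h hx
  exact ⟨by linarith, by linarith⟩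

theorem DensPf_wt_nonneg (t : ℝ) : 0 ≤ wt t := le_max_right _ _

theorem DensPf_wt_le_one {t : ℝ} (ht : 0 ≤ t) : wt t ≤ 1 := max_le (by linarith) zero_le_one

theorem DensPf_zero (hδ : 0 < δ) {y : E3} {ρ : ℝ} (hρ : 0 < ρ) {x : E3}
    (hx : x ∉ DensPf_A δ y ρ) : chi δ x * wt (‖x - y‖ ^ 2 / ρ ^ 2) ^ 3 = 0 := by
  by_cases h1 : x ∈ ball y ρ
  · have h2 : ‖x‖ ≤ 3 * δ := by
      by_contra hcon
      exact hx ⟨h1, not_le.1 hcon⟩
    rw [chi_zero hδ h2, zero_mul]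
  · rw [mem_ball, dist_eq_norm, not_lt] at h1
    have h2 : wt (‖x - y‖ ^ 2 / ρ ^ 2) = 0 := by
      rw [wt, max_eq_right]
      have : 1 ≤ ‖x - y‖ ^ 2 / ρ ^ 2 := by
        rw [le_div_iff₀ (by positivity), one_mul]
        exact pow_le_pow_left₀ hρ.le h1 2
      linarith
    rw [h2]
    simp

theorem DensPf_wt_cont (y : E3) (ρ : ℝ) : Continuous (fun x : E3 => wt (‖x - y‖ ^ 2 / ρ ^ 2)) := by
  unfold wt
  fun_prop

theorem DensPf_integrable {O : Set E3} (hδ : 0 < δ) {y : E3} {ρ : ℝ} (hρ : 0 < ρ)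
    (hA : DensPf_A δ y ρ ⊆ O) {G : E3 → ℝ} (hG : AEStronglyMeasurable G (volume.restrict O))
    {M : ℝ} (hM : ∀ x ∈ DensPf_A δ y ρ, |G x| ≤ M) :
    Integrable (fun x => chi δ x * wt (‖x - y‖ ^ 2 / ρ ^ 2) ^ 3 * G x) := by
  have hcont : Continuous (fun x : E3 => chi δ x * wt (‖x - y‖ ^ 2 / ρ ^ 2) ^ 3) :=
    (chi_contDiff δ).continuous.mul ((DensPf_wt_cont y ρ).pow 3)
  have hmeas : AEStronglyMeasurable (fun x => chi δ x * wt (‖x - y‖ ^ 2 / ρ ^ 2) ^ 3 * G x)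
      (volume.restrict (DensPf_A δ y ρ)) :=
    hcont.aestronglyMeasurable.mul (hG.mono_measure (Measure.restrict_mono hA le_rfl))
  have hfin : volume (DensPf_A δ y ρ) < ⊤ :=
    lt_of_le_of_lt (measure_mono inter_subset_left) measure_ball_lt_top
  have hint : IntegrableOn (fun x => chi δ x * wt (‖x - y‖ ^ 2 / ρ ^ 2) ^ 3 * G x)
      (DensPf_A δ y ρ) := by
    refine ⟨hmeas, HasFiniteIntegral.restrict_of_bounded (C := M) hfin ?_⟩
    filter_upwards [ae_restrict_mem (DensPf_A_open δ y ρ).measurableSet] with x hx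
    rw [Real.norm_eq_abs, abs_mul]
    have h1 : |chi δ x * wt (‖x - y‖ ^ 2 / ρ ^ 2) ^ 3| ≤ 1 := by
      have h2 := chi_nonneg δ x
      have h3 := DensPf_wt_nonneg (‖x - y‖ ^ 2 / ρ ^ 2)
      have h4 : wt (‖x - y‖ ^ 2 / ρ ^ 2) ≤ 1 := DensPf_wt_le_one (by positivity)
      rw [abs_of_nonneg (mul_nonneg h2.1 (pow_nonneg h3 3))]
      exact mul_le_one₀ h2.2 (pow_nonneg h3 3) (pow_le_one₀ h3 h4)
    have h5 := hM x hx
    have h6 := abs_nonneg (G x)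
    calc _ ≤ 1 * |G x| := mul_le_mul_of_nonneg_right h1 h6
      _ ≤ M := by rw [one_mul]; exact h5
  refine hint.integrable_of_forall_notMem_eq_zero (fun x hx => ?_)
  rw [DensPf_zero hδ hρ hx, zero_mul]

theorem DensPf_Du_bd {L : ℝ} (hL : 0 ≤ L) (hLip : LipOn L δ u) {x : E3} (h1 : 2 * δ ≤ ‖x‖)
    (h2 : ‖x‖ ≤ 1 / 2) : ‖Du u x‖ ≤ L := by
  by_cases hu : 0 < u x
  · rw [Du, if_pos hu]
    exact (hLip x h1 h2 hu).1
  · rw [Du, if_neg hu, norm_zero]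
    exact hL

theorem DensPf_u_bd {L : ℝ} (hL : 0 ≤ L) (h : OnePhase {x | δ < ‖x‖ ∧ ‖x‖ < 1} u)
    (hδ : 0 < δ) (hLip : LipOn L δ u) {x : E3} (h1 : 2 * δ ≤ ‖x‖)
    (h2 : ‖x‖ ≤ 1 / 2) : |u x| ≤ L * ‖x‖ := by
  have h0 : 0 ≤ u x := h.nonneg x ⟨by linarith, by linarith⟩
  rw [abs_of_nonneg h0]
  rcases h0.lt_or_eq with hu | hu
  · exact (hLip x h1 h2 hu).2
  · rw [← hu]
    positivity

theorem DensPf_TT_bd {L : ℝ} (hL : 0 ≤ L) (h : OnePhase {x | δ < ‖x‖ ∧ ‖x‖ < 1} u)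
    (hδ : 0 < δ) (hLip : LipOn L δ u) {y : E3} {ρ : ℝ} (hyρ : ‖y‖ + ρ ≤ 1 / 2) {x : E3}
    (hx : x ∈ DensPf_A δ y ρ) : |TT u y x| ≤ L := by
  obtain ⟨h1, h2, h3⟩ := DensPf_A_norm hyρ hx
  have h4 := DensPf_Du_bd hL hLip (by linarith : 2 * δ ≤ ‖x‖) h3
  have h5 := DensPf_u_bd hL h hδ hLip (by linarith : 2 * δ ≤ ‖x‖) h3
  have h6 : ‖x - y‖ ≤ 1 / 2 := by
    have := hx.1
    rw [mem_ball, dist_eq_norm] at this
    have := norm_nonneg y
    linarith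
  have h7 : |⟪x - y, Du u x⟫| ≤ ‖x - y‖ * ‖Du u x‖ := abs_real_inner_le_norm _ _
  have h8 : ‖x - y‖ * ‖Du u x‖ ≤ 1 / 2 * L :=
    mul_le_mul h6 h4 (norm_nonneg _) (by norm_num)
  have h9 : L * ‖x‖ ≤ L * (1 / 2) := mul_le_mul_of_nonneg_left h3 hL
  unfold TT
  have := abs_sub (⟪x - y, Du u x⟫) (u x)
  linarith

theorem DensPf_int1 {L : ℝ} (hL : 0 ≤ L) (h : OnePhase {x | δ < ‖x‖ ∧ ‖x‖ < 1} u)
    (hδ : 0 < δ) (hLip : LipOn L δ u) {y : E3} {ρ : ℝ} (hρ : 0 < ρ) (hyρ : ‖y‖ + ρ ≤ 1 / 2) :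
    Integrable (fun x => chi δ x * wt (‖x - y‖ ^ 2 / ρ ^ 2) ^ 3 * TT u y x ^ 2) := by
  refine DensPf_integrable hδ hρ (DensPf_A_sub hδ hyρ) ((DensPf_TT_meas h y).pow 2) (M := L ^ 2)
    (fun x hx => ?_)
  rw [abs_pow]
  exact pow_le_pow_left₀ (abs_nonneg _) (DensPf_TT_bd hL h hδ hLip hyρ hx) 2

theorem DensPf_int2 {L : ℝ} (hL : 0 ≤ L) (h : OnePhase {x | δ < ‖x‖ ∧ ‖x‖ < 1} u)
    (hδ : 0 < δ) (hLip : LipOn L δ u) {y : E3} {ρ : ℝ} (hρ : 0 < ρ) (hyρ : ‖y‖ + ρ ≤ 1 / 2) :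
    Integrable (fun x => chi δ x * wt (‖x - y‖ ^ 2 / ρ ^ 2) ^ 3 * (u x * TT u y x)) := by
  have h2 : AEStronglyMeasurable u (volume.restrict {x : E3 | δ < ‖x‖ ∧ ‖x‖ < 1}) :=
    h.cont.aestronglyMeasurable h.isOpen.measurableSet
  refine DensPf_integrable hδ hρ (DensPf_A_sub hδ hyρ) (h2.mul (DensPf_TT_meas h y))
    (M := (L * (1 / 2)) * L) (fun x hx => ?_)
  obtain ⟨h1, h2, h3⟩ := DensPf_A_norm hyρ hx
  rw [abs_mul]
  refine mul_le_mul ?_ (DensPf_TT_bd hL h hδ hLip hyρ hx) (abs_nonneg _) (by positivity)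
  exact (DensPf_u_bd hL h hδ hLip (by linarith) h3).trans (mul_le_mul_of_nonneg_left h3 hL)

/-- derivative of the Weiss functional from below -/
theorem DensPf_err {C L : ℝ} (hC : 1 ≤ C) (hL : 1 ≤ L)
    (hErr : ∀ (L δ : ℝ) (u : E3 → ℝ), 1 ≤ L → 0 < δ → δ ≤ 1 / 8 →
      OnePhase {x | δ < ‖x‖ ∧ ‖x‖ < 1} u → LipOn L δ u → ∀ (y : E3) (ρ : ℝ), 0 < ρ →
      ‖y‖ + ρ ≤ 1 / 2 → |Err1 (chi δ) u y ρ| ≤ C * L ^ 2 * (‖y‖ + δ) * δ ^ 2 ∧
        |Err2 (chi δ) u y ρ| ≤ C * L ^ 2 * δ ^ 3 ∧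
        |Err3 (chi δ) u y ρ| ≤ C * L ^ 2 * (‖y‖ + δ) * δ ^ 4)
    (h : OnePhase {x | δ < ‖x‖ ∧ ‖x‖ < 1} u) (hδ : 0 < δ) (hδ8 : δ ≤ 1 / 8)
    (hLip : LipOn L δ u) {y : E3} (hy : 8 * δ ≤ ‖y‖) {r : ℝ} (hr : 0 < r)
    (hyr : ‖y‖ + r ≤ 1 / 2) :
    -(2 * (50 * C * L ^ 2 * δ ^ 2) * r / (r ^ 2 + ‖y‖ ^ 2) ^ 2) ≤
      (Err1 (chi δ) u y r + 2 * Err2 (chi δ) u y r) / r ^ 4 - 8 * Err3 (chi δ) u y r / r ^ 6 := by
  have hC0 : 0 < C := by linarith
  have hL0 : 0 < L := by linarith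
  by_cases hcase : r ≤ ‖y‖ - 4 * δ
  · obtain ⟨h1, h2, h3⟩ := err_zero hδ u hr hcase
    rw [h1, h2, h3]
    have : 0 ≤ 2 * (50 * C * L ^ 2 * δ ^ 2) * r / (r ^ 2 + ‖y‖ ^ 2) ^ 2 := by positivity
    simp only [mul_zero, add_zero, zero_div, sub_zero]
    linarith
  · push Not at hcase
    have hyr2 : ‖y‖ ≤ 2 * r := by linarith
    have hδr : δ ≤ r / 4 := by linarith
    obtain ⟨h1, h2, h3⟩ := hErr L δ u hL hδ hδ8 h hLip y r hr hyr
    set B : ℝ := C * L ^ 2 with hB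
    have hB0 : 0 < B := by positivity
    have hy0 := norm_nonneg y
    have g1 : |Err1 (chi δ) u y r| ≤ B * (9 / 4 * r) * δ ^ 2 := by
      refine h1.trans ?_
      have : ‖y‖ + δ ≤ 9 / 4 * r := by linarith
      gcongr
    have g2 : |Err2 (chi δ) u y r| ≤ B * (r / 4) * δ ^ 2 := by
      refine h2.trans ?_
      have : B * δ ^ 3 = B * δ * δ ^ 2 := by ring
      rw [this]
      gcongr
    have g3 : |Err3 (chi δ) u y r| ≤ B * (9 / 4 * r) * (r / 4) ^ 2 * δ ^ 2 := by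
      refine h3.trans ?_
      have h4 : ‖y‖ + δ ≤ 9 / 4 * r := by linarith
      have : B * (‖y‖ + δ) * δ ^ 4 = B * (‖y‖ + δ) * δ ^ 2 * δ ^ 2 := by ring
      rw [this]
      gcongr
    have e1 := (abs_le.1 g1).1
    have e2 := (abs_le.1 g2).1
    have e3 := (abs_le.1 g3).2
    have hden : (r ^ 2 + ‖y‖ ^ 2) ^ 2 ≤ 25 * r ^ 4 := by
      have : r ^ 2 + ‖y‖ ^ 2 ≤ 5 * r ^ 2 := by nlinarith
      calc (r ^ 2 + ‖y‖ ^ 2) ^ 2 ≤ (5 * r ^ 2) ^ 2 := pow_le_pow_left₀ (by positivity) this 2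
        _ = 25 * r ^ 4 := by ring
    have hmain : 4 * B * δ ^ 2 / r ^ 3 ≤
        2 * (50 * C * L ^ 2 * δ ^ 2) * r / (r ^ 2 + ‖y‖ ^ 2) ^ 2 := by
      have h5 : 2 * (50 * C * L ^ 2 * δ ^ 2) * r / (25 * r ^ 4) ≤
          2 * (50 * C * L ^ 2 * δ ^ 2) * r / (r ^ 2 + ‖y‖ ^ 2) ^ 2 := by
        apply div_le_div_of_nonneg_left (by positivity) (by positivity) hden
      refine le_trans (le_of_eq ?_) h5
      rw [hB]
      field_simp
      ring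
    have hlow : -(4 * B * δ ^ 2 / r ^ 3) ≤ (Err1 (chi δ) u y r + 2 * Err2 (chi δ) u y r) / r ^ 4 -
        8 * Err3 (chi δ) u y r / r ^ 6 := by
      have h6 : -(B * (9 / 4 * r) * δ ^ 2 + 2 * (B * (r / 4) * δ ^ 2)) / r ^ 4 ≤
          (Err1 (chi δ) u y r + 2 * Err2 (chi δ) u y r) / r ^ 4 := by
        apply div_le_div_of_nonneg_right _ (by positivity)
        linarith
      have h7 : 8 * Err3 (chi δ) u y r / r ^ 6 ≤
          8 * (B * (9 / 4 * r) * (r / 4) ^ 2 * δ ^ 2) / r ^ 6 := by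
        apply div_le_div_of_nonneg_right _ (by positivity)
        linarith
      have h8 : -(4 * B * δ ^ 2 / r ^ 3) ≤
          -(B * (9 / 4 * r) * δ ^ 2 + 2 * (B * (r / 4) * δ ^ 2)) / r ^ 4 -
            8 * (B * (9 / 4 * r) * (r / 4) ^ 2 * δ ^ 2) / r ^ 6 := by
        have : -(B * (9 / 4 * r) * δ ^ 2 + 2 * (B * (r / 4) * δ ^ 2)) / r ^ 4 -
            8 * (B * (9 / 4 * r) * (r / 4) ^ 2 * δ ^ 2) / r ^ 6 = -(31 / 8 * (B * δ ^ 2 / r ^ 3)) := by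
          field_simp
          ring
        rw [this, neg_le_neg_iff]
        have h9 : 0 ≤ B * δ ^ 2 / r ^ 3 := by positivity
        have h10 : 4 * B * δ ^ 2 / r ^ 3 = 4 * (B * δ ^ 2 / r ^ 3) := by ring
        rw [h10]
        linarith
      linarith
    linarith

/-- almost monotonicity with gain -/
theorem DensPf_mono {C L : ℝ} (hC : 1 ≤ C) (hL : 1 ≤ L)
    (hErr : ∀ (L δ : ℝ) (u : E3 → ℝ), 1 ≤ L → 0 < δ → δ ≤ 1 / 8 →
      OnePhase {x | δ < ‖x‖ ∧ ‖x‖ < 1} u → LipOn L δ u → ∀ (y : E3) (ρ : ℝ), 0 < ρ →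
      ‖y‖ + ρ ≤ 1 / 2 → |Err1 (chi δ) u y ρ| ≤ C * L ^ 2 * (‖y‖ + δ) * δ ^ 2 ∧
        |Err2 (chi δ) u y ρ| ≤ C * L ^ 2 * δ ^ 3 ∧
        |Err3 (chi δ) u y ρ| ≤ C * L ^ 2 * (‖y‖ + δ) * δ ^ 4)
    (h : OnePhase {x | δ < ‖x‖ ∧ ‖x‖ < 1} u) (hδ : 0 < δ) (hδ8 : δ ≤ 1 / 8)
    (hLip : LipOn L δ u) {K : ℝ} (hK : 8 ≤ K) {y : E3} (hy : K * δ ≤ ‖y‖) {a b c : ℝ}
    (ha : 0 < a) (hab : a ≤ b) (hyb : ‖y‖ + b ≤ 1 / 2)
    (hc : ∀ r, a ≤ r → r ≤ b →
      c ≤ 16 / r ^ 6 * (∫ x, chi δ x * wt (‖x - y‖ ^ 2 / r ^ 2) ^ 3 * TT u y x ^ 2)) :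
    c * (b - a) ≤ WW (chi δ) u y b - WW (chi δ) u y a + 50 * C * L ^ 2 / K ^ 2 := by
  have hC0 : 0 < C := by linarith
  have hL0 : 0 < L := by linarith
  have hy8 : 8 * δ ≤ ‖y‖ := by nlinarith
  have hy0 : 0 < ‖y‖ := by linarith
  set A : ℝ := 50 * C * L ^ 2 * δ ^ 2 with hA
  have hA0 : 0 < A := by positivity
  have hderiv : ∀ r, a ≤ r → r ≤ b → HasDerivAt
      (fun r => WW (chi δ) u y r - A / (r ^ 2 + ‖y‖ ^ 2) - c * r)
      (((16 / r ^ 6 * (∫ x, chi δ x * wt (‖x - y‖ ^ 2 / r ^ 2) ^ 3 * TT u y x ^ 2) +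
        (Err1 (chi δ) u y r + 2 * Err2 (chi δ) u y r) / r ^ 4 - 8 * Err3 (chi δ) u y r / r ^ 6) +
        2 * A * r / (r ^ 2 + ‖y‖ ^ 2) ^ 2) - c) r := by
    intro r h1 h2
    have hr : 0 < r := by linarith
    have hW := weiss_deriv h (chi_contDiff δ) (y := y) (ρ := r) (R := r + 1 / 4) hr (by linarith)
      (DensPf_supp hδ (by linarith))
    have hpos : 0 < r ^ 2 + ‖y‖ ^ 2 := by positivity
    have hq : HasDerivAt (fun r : ℝ => r ^ 2 + ‖y‖ ^ 2) (2 * r) r := by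
      have := (hasDerivAt_pow 2 r).add_const (‖y‖ ^ 2)
      simpa using this
    have hq2 : HasDerivAt (fun r : ℝ => A / (r ^ 2 + ‖y‖ ^ 2))
        (-(2 * A * r / (r ^ 2 + ‖y‖ ^ 2) ^ 2)) r := by
      have := (hasDerivAt_const r A).div hq hpos.ne'
      refine this.congr_deriv ?_
      field_simp
      ring
    have hl : HasDerivAt (fun r : ℝ => c * r) c r := by
      simpa using (hasDerivAt_id r).const_mul c
    have := (hW.sub hq2).sub hl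
    refine this.congr_deriv ?_
    ring
  have hmono : MonotoneOn (fun r => WW (chi δ) u y r - A / (r ^ 2 + ‖y‖ ^ 2) - c * r)
      (Icc a b) := by
    apply monotoneOn_of_deriv_nonneg (convex_Icc a b)
    · intro r hr
      exact (hderiv r hr.1 hr.2).continuousAt.continuousWithinAt
    · intro r hr
      rw [interior_Icc] at hr
      exact (hderiv r hr.1.le hr.2.le).differentiableAt.differentiableWithinAt
    · intro r hr
      rw [interior_Icc] at hr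
      rw [(hderiv r hr.1.le hr.2.le).deriv]
      have h1 := hc r hr.1.le hr.2.le
      have h2 := DensPf_err hC hL hErr h hδ hδ8 hLip hy8 (ha.trans hr.1)
        (by linarith [hr.2] : ‖y‖ + r ≤ 1 / 2)
      rw [← hA] at h2
      linarith
  have hfin := hmono (left_mem_Icc.2 hab) (right_mem_Icc.2 hab) hab
  simp only at hfin
  have hb : 0 ≤ A / (b ^ 2 + ‖y‖ ^ 2) := by positivity
  have ha' : A / (a ^ 2 + ‖y‖ ^ 2) ≤ 50 * C * L ^ 2 / K ^ 2 := by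
    have h1 : A / (a ^ 2 + ‖y‖ ^ 2) ≤ A / (K * δ) ^ 2 := by
      apply div_le_div_of_nonneg_left hA0.le (by positivity)
      have := pow_le_pow_left₀ (by positivity) hy 2
      nlinarith [sq_nonneg a]
    refine h1.trans (le_of_eq ?_)
    rw [hA]
    field_simp
  have : c * (b - a) = c * b - c * a := by ring
  rw [this]
  linarith

theorem DensPf_wt_ge {x y : E3} {ρ r : ℝ} (hρ : 0 < ρ) (hr : 3 * ρ / 2 ≤ r)
    (hx : x ∈ ball y ρ) : 1 / 2 ≤ wt (‖x - y‖ ^ 2 / r ^ 2) := by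
  rw [mem_ball, dist_eq_norm] at hx
  refine le_trans ?_ (le_max_left _ _)
  have hr0 : 0 < r := by linarith
  have h1 : ‖x - y‖ ^ 2 / r ^ 2 ≤ 4 / 9 := by
    rw [div_le_iff₀ (by positivity)]
    have h2 : ‖x - y‖ ^ 2 ≤ ρ ^ 2 := pow_le_pow_left₀ (norm_nonneg _) hx.le 2
    have h3 : (3 * ρ / 2) ^ 2 ≤ r ^ 2 := pow_le_pow_left₀ (by positivity) hr 2
    nlinarith
  linarith

/-- comparison of the homogeneity integrals -/
theorem DensPf_cmp1 {L : ℝ} (hL : 0 ≤ L) (h : OnePhase {x | δ < ‖x‖ ∧ ‖x‖ < 1} u)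
    (hδ : 0 < δ) (hLip : LipOn L δ u) {y : E3} {ρ r : ℝ} (hρ : 0 < ρ) (hr : 3 * ρ / 2 ≤ r)
    (hyr : ‖y‖ + r ≤ 1 / 2) :
    ∫ x in ball y ρ \ closedBall 0 (4 * δ), TT u y x ^ 2 ≤
      8 * ∫ x, chi δ x * wt (‖x - y‖ ^ 2 / r ^ 2) ^ 3 * TT u y x ^ 2 := by
  have hr0 : 0 < r := by linarith
  rw [← integral_indicator (measurableSet_ball.diff isClosed_closedBall.measurableSet),
    ← integral_const_mul]
  refine integral_mono_of_nonneg (Eventually.of_forall fun x => ?_)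
    ((DensPf_int1 hL h hδ hLip hr0 hyr).const_mul 8) (Eventually.of_forall fun x => ?_)
  · exact indicator_nonneg (fun x _ => sq_nonneg _) x
  · simp only
    by_cases hx : x ∈ ball y ρ \ closedBall 0 (4 * δ)
    · rw [indicator_of_mem hx]
      have h1 := DensPf_wt_ge hρ hr hx.1
      have h2 : chi δ x = 1 := by
        apply chi_one hδ
        have := hx.2
        rw [mem_closedBall, dist_zero_right, not_le] at this
        exact this.le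
      have h3 : (1 / 2) ^ 3 ≤ wt (‖x - y‖ ^ 2 / r ^ 2) ^ 3 := pow_le_pow_left₀ (by norm_num) h1 3
      rw [h2, one_mul]
      have h4 := sq_nonneg (TT u y x)
      nlinarith
    · rw [indicator_of_notMem hx]
      have h2 := (chi_nonneg δ x).1
      have h3 := DensPf_wt_nonneg (‖x - y‖ ^ 2 / r ^ 2)
      positivity

theorem DensPf_cmp2 {L : ℝ} (hL : 0 ≤ L) (h : OnePhase {x | δ < ‖x‖ ∧ ‖x‖ < 1} u)
    (hδ : 0 < δ) (hLip : LipOn L δ u) {y : E3} {ρ r : ℝ} (hρ : 0 < ρ) (hr : 3 * ρ / 2 ≤ r)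
    (hyr : ‖y‖ + r ≤ 1 / 2) :
    ∫ x, chi δ x * wt (‖x - y‖ ^ 2 / ρ ^ 2) ^ 3 * TT u y x ^ 2 ≤
      8 * ∫ x, chi δ x * wt (‖x - y‖ ^ 2 / r ^ 2) ^ 3 * TT u y x ^ 2 := by
  have hr0 : 0 < r := by linarith
  rw [← integral_const_mul]
  refine integral_mono_of_nonneg (Eventually.of_forall fun x => ?_)
    ((DensPf_int1 hL h hδ hLip hr0 hyr).const_mul 8) (Eventually.of_forall fun x => ?_)
  · have h2 := (chi_nonneg δ x).1
    have h3 := DensPf_wt_nonneg (‖x - y‖ ^ 2 / ρ ^ 2)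
    simp only [Pi.zero_apply]
    positivity
  · simp only
    have h2 := (chi_nonneg δ x).1
    have h3 := DensPf_wt_nonneg (‖x - y‖ ^ 2 / r ^ 2)
    have h4 := sq_nonneg (TT u y x)
    by_cases hx : x ∈ ball y ρ
    · have h1 := DensPf_wt_ge hρ hr hx
      have h5 : wt (‖x - y‖ ^ 2 / ρ ^ 2) ^ 3 ≤ 1 :=
        pow_le_one₀ (DensPf_wt_nonneg _) (DensPf_wt_le_one (by positivity))
      have h6 : (1 / 2) ^ 3 ≤ wt (‖x - y‖ ^ 2 / r ^ 2) ^ 3 := pow_le_pow_left₀ (by norm_num) h1 3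
      have h7 : wt (‖x - y‖ ^ 2 / ρ ^ 2) ^ 3 ≤ 8 * wt (‖x - y‖ ^ 2 / r ^ 2) ^ 3 := by linarith
      have h8 : chi δ x * wt (‖x - y‖ ^ 2 / ρ ^ 2) ^ 3 * TT u y x ^ 2 =
        (chi δ x * TT u y x ^ 2) * wt (‖x - y‖ ^ 2 / ρ ^ 2) ^ 3 := by ring
      have h9 : 8 * (chi δ x * wt (‖x - y‖ ^ 2 / r ^ 2) ^ 3 * TT u y x ^ 2) =
        (chi δ x * TT u y x ^ 2) * (8 * wt (‖x - y‖ ^ 2 / r ^ 2) ^ 3) := by ring
      rw [h8, h9]
      exact mul_le_mul_of_nonneg_left h7 (mul_nonneg h2 h4)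
    · rw [mem_ball, dist_eq_norm, not_lt] at hx
      have h5 : wt (‖x - y‖ ^ 2 / ρ ^ 2) = 0 := by
        rw [wt, max_eq_right]
        have : 1 ≤ ‖x - y‖ ^ 2 / ρ ^ 2 := by
          rw [le_div_iff₀ (by positivity), one_mul]
          exact pow_le_pow_left₀ hρ.le hx 2
        linarith
      rw [h5]
      have : chi δ x * (0 : ℝ) ^ 3 * TT u y x ^ 2 = 0 := by simp
      rw [this]
      positivity

/-- `u ≤ 3Lρ` on the support -/
theorem DensPf_u3 {L : ℝ} (hL : 1 ≤ L) (h : OnePhase {x | δ < ‖x‖ ∧ ‖x‖ < 1} u)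
    (hδ : 0 < δ) (hLip : LipOn L δ u) {y : E3} (hy : 8 * δ ≤ ‖y‖) (hF : FB u y) {ρ : ℝ}
    (hρ : 0 < ρ) (hyρ : ‖y‖ + ρ ≤ 1 / 2) {x : E3} (hx : x ∈ DensPf_A δ y ρ) :
    |u x| ≤ 3 * L * ρ := by
  have hL0 : 0 ≤ L := by linarith
  obtain ⟨h1, h2, h3⟩ := DensPf_A_norm hyρ hx
  by_cases hcase : ρ ≤ ‖y‖ / 2
  · have hseg : ∀ z ∈ segment ℝ x y, 2 * δ ≤ ‖z‖ ∧ ‖z‖ ≤ 1 / 2 := by
      intro z hz
      have hzb : z ∈ ball y ρ := (convex_ball y ρ).segment_subset hx.1 (mem_ball_self hρ) hz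
      rw [mem_ball, dist_eq_norm] at hzb
      constructor
      · have h4 : ‖y‖ ≤ ‖z - y‖ + ‖z‖ := by
          have : y = -(z - y) + z := by abel
          calc ‖y‖ = ‖-(z - y) + z‖ := by rw [← this]
            _ ≤ ‖-(z - y)‖ + ‖z‖ := norm_add_le _ _
            _ = ‖z - y‖ + ‖z‖ := by rw [norm_neg]
        linarith
      · have : z = (z - y) + y := by abel
        rw [this]
        refine (norm_add_le _ _).trans ?_
        linarith
    have h4 := lip_seg h (L := L) (x := x) (y := y)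
      (fun z hz => ⟨by linarith [(hseg z hz).1], by linarith [(hseg z hz).2]⟩)
      (fun z hz hz0 => (hLip z (hseg z hz).1 (hseg z hz).2 hz0).1) hL0
    rw [hF.1, sub_zero] at h4
    have h5 := hx.1
    rw [mem_ball, dist_eq_norm] at h5
    have h6 : L * ‖x - y‖ ≤ L * ρ := mul_le_mul_of_nonneg_left h5.le hL0
    nlinarith
  · push Not at hcase
    have h4 := DensPf_u_bd hL0 h hδ hLip (by linarith : 2 * δ ≤ ‖x‖) h3
    have h5 : L * ‖x‖ ≤ L * (3 * ρ) := mul_le_mul_of_nonneg_left (by linarith) hL0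
    linarith

theorem DensPf_cross {L : ℝ} (hL : 1 ≤ L) (h : OnePhase {x | δ < ‖x‖ ∧ ‖x‖ < 1} u)
    (hδ : 0 < δ) (hLip : LipOn L δ u) {y : E3} (hy : 8 * δ ≤ ‖y‖) (hF : FB u y) {ρ : ℝ}
    (hρ : 0 < ρ) (hyρ : ‖y‖ + ρ ≤ 1 / 2) {θ : ℝ} (hθ : 0 < θ) :
    |∫ x, chi δ x * wt (‖x - y‖ ^ 2 / ρ ^ 2) ^ 3 * (u x * TT u y x)| ≤
      36 * L ^ 2 * θ * ρ ^ 5 +
      1 / (2 * θ) * ∫ x, chi δ x * wt (‖x - y‖ ^ 2 / ρ ^ 2) ^ 3 * TT u y x ^ 2 := by
  have hL0 : 0 ≤ L := by linarith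
  have hI1 := DensPf_int1 hL0 h hδ hLip hρ hyρ
  have hI2 := DensPf_int2 hL0 h hδ hLip hρ hyρ
  have hI3 : Integrable ((closedBall y ρ).indicator (fun _ : E3 => θ / 2 * (9 * L ^ 2 * ρ ^ 2))) := by
    rw [integrable_indicator_iff isClosed_closedBall.measurableSet]
    exact integrableOn_const (measure_closedBall_lt_top).ne
  have hval : ∫ x, (closedBall y ρ).indicator (fun _ : E3 => θ / 2 * (9 * L ^ 2 * ρ ^ 2)) x ≤
      36 * L ^ 2 * θ * ρ ^ 5 := by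
    rw [integral_indicator isClosed_closedBall.measurableSet, setIntegral_const, smul_eq_mul]
    have h1 := volume_ball_le (y := y) hρ.le
    have h2 : 0 ≤ θ / 2 * (9 * L ^ 2 * ρ ^ 2) := by positivity
    calc volume.real (closedBall y ρ) * (θ / 2 * (9 * L ^ 2 * ρ ^ 2))
        ≤ 8 * ρ ^ 3 * (θ / 2 * (9 * L ^ 2 * ρ ^ 2)) := mul_le_mul_of_nonneg_right h1 h2
      _ = 36 * L ^ 2 * θ * ρ ^ 5 := by ring
  calc |∫ x, chi δ x * wt (‖x - y‖ ^ 2 / ρ ^ 2) ^ 3 * (u x * TT u y x)|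
      ≤ ∫ x, |chi δ x * wt (‖x - y‖ ^ 2 / ρ ^ 2) ^ 3 * (u x * TT u y x)| :=
        abs_integral_le_integral_abs
    _ ≤ ∫ x, ((closedBall y ρ).indicator (fun _ : E3 => θ / 2 * (9 * L ^ 2 * ρ ^ 2)) x +
          1 / (2 * θ) * (chi δ x * wt (‖x - y‖ ^ 2 / ρ ^ 2) ^ 3 * TT u y x ^ 2)) := by
        refine integral_mono hI2.abs (hI3.add (hI1.const_mul _)) (fun x => ?_)
        simp only
        by_cases hx : x ∈ DensPf_A δ y ρ
        · have hxb : x ∈ closedBall y ρ := ball_subset_closedBall hx.1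
          rw [indicator_of_mem hxb]
          have h2 := chi_nonneg δ x
          have h3 := DensPf_wt_nonneg (‖x - y‖ ^ 2 / ρ ^ 2)
          have h4 : wt (‖x - y‖ ^ 2 / ρ ^ 2) ≤ 1 := DensPf_wt_le_one (by positivity)
          set m : ℝ := chi δ x * wt (‖x - y‖ ^ 2 / ρ ^ 2) ^ 3 with hm
          have hm0 : 0 ≤ m := mul_nonneg h2.1 (pow_nonneg h3 3)
          have hm1 : m ≤ 1 := mul_le_one₀ h2.2 (pow_nonneg h3 3) (pow_le_one₀ h3 h4)
          have hu := DensPf_u3 hL h hδ hLip hy hF hρ hyρ hx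
          have hu2 : u x ^ 2 ≤ 9 * L ^ 2 * ρ ^ 2 := by
            have := pow_le_pow_left₀ (abs_nonneg _) hu 2
            rw [sq_abs] at this
            nlinarith
          rw [abs_mul, abs_of_nonneg hm0]
          have hy1 : |u x * TT u y x| ≤ θ / 2 * u x ^ 2 + 1 / (2 * θ) * TT u y x ^ 2 := by
            have h5 : 1 / (2 * θ) * TT u y x ^ 2 = (TT u y x) ^ 2 / (2 * θ) := by ring
            rw [h5, abs_le]
            constructor
            · have : 0 ≤ (θ * u x + TT u y x) ^ 2 / (2 * θ) := by positivity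
              have h6 : (θ * u x + TT u y x) ^ 2 / (2 * θ) =
                θ / 2 * u x ^ 2 + u x * TT u y x + TT u y x ^ 2 / (2 * θ) := by
                field_simp
                ring
              linarith
            · have : 0 ≤ (θ * u x - TT u y x) ^ 2 / (2 * θ) := by positivity
              have h6 : (θ * u x - TT u y x) ^ 2 / (2 * θ) =
                θ / 2 * u x ^ 2 - u x * TT u y x + TT u y x ^ 2 / (2 * θ) := by
                field_simp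
                ring
              linarith
          calc m * |u x * TT u y x| ≤ m * (θ / 2 * u x ^ 2 + 1 / (2 * θ) * TT u y x ^ 2) :=
                mul_le_mul_of_nonneg_left hy1 hm0
            _ = m * (θ / 2 * u x ^ 2) + 1 / (2 * θ) * (m * TT u y x ^ 2) := by ring
            _ ≤ θ / 2 * (9 * L ^ 2 * ρ ^ 2) + 1 / (2 * θ) * (m * TT u y x ^ 2) := by
                have h7 : m * (θ / 2 * u x ^ 2) ≤ 1 * (θ / 2 * (9 * L ^ 2 * ρ ^ 2)) := by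
                  apply mul_le_mul hm1 _ (by positivity) zero_le_one
                  exact mul_le_mul_of_nonneg_left hu2 (by positivity)
                linarith
        · rw [DensPf_zero hδ hρ hx]
          simp only [zero_mul, abs_zero, mul_zero, add_zero]
          exact indicator_nonneg (fun _ _ => by positivity) x
    _ = (∫ x, (closedBall y ρ).indicator (fun _ : E3 => θ / 2 * (9 * L ^ 2 * ρ ^ 2)) x) +
          1 / (2 * θ) * ∫ x, chi δ x * wt (‖x - y‖ ^ 2 / ρ ^ 2) ^ 3 * TT u y x ^ 2 := by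
        rw [integral_add hI3 (hI1.const_mul _), integral_const_mul]
    _ ≤ _ := by linarith

/-- all conclusions at one point, with explicit constants -/
theorem DensPf_point {C CB L : ℝ} (hC : 1 ≤ C) (hCB : 1 ≤ CB) (hL : 1 ≤ L)
    (hErr : ∀ (L δ : ℝ) (u : E3 → ℝ), 1 ≤ L → 0 < δ → δ ≤ 1 / 8 →
      OnePhase {x | δ < ‖x‖ ∧ ‖x‖ < 1} u → LipOn L δ u → ∀ (y : E3) (ρ : ℝ), 0 < ρ →
      ‖y‖ + ρ ≤ 1 / 2 → |Err1 (chi δ) u y ρ| ≤ C * L ^ 2 * (‖y‖ + δ) * δ ^ 2 ∧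
        |Err2 (chi δ) u y ρ| ≤ C * L ^ 2 * δ ^ 3 ∧
        |Err3 (chi δ) u y ρ| ≤ C * L ^ 2 * (‖y‖ + δ) * δ ^ 4)
    (hB : ∀ (L δ : ℝ) (u : E3 → ℝ), 1 ≤ L → 0 < δ → δ ≤ 1 / 8 →
      OnePhase {x | δ < ‖x‖ ∧ ‖x‖ < 1} u → LipOn L δ u → ∀ (y : E3) (ρ : ℝ), 0 < ρ → ‖y‖ ≤ ρ →
      ‖y‖ + ρ ≤ 1 / 2 → |WW (chi δ) u y ρ - WW (chi δ) u 0 ρ| ≤ CB * L ^ 2 * ‖y‖ / ρ)
    (h : OnePhase {x | δ < ‖x‖ ∧ ‖x‖ < 1} u) (hδ : 0 < δ) (hδ8 : δ ≤ 1 / 8)
    (hLip : LipOn L δ u) {K : ℝ} (hK : 8 ≤ K) {y : E3} (hy : K * δ ≤ ‖y‖) (hF : FB u y)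
    {R m κ : ℝ} (hR : 0 < R) (hR16 : R ≤ 1 / 16) (hκ : 0 < κ) (hm : 0 < m)
    (hm1 : m ≤ κ / 64) (hm2 : m ≤ κ ^ 2 / (1179648 * L ^ 2))
    (hyR : ‖y‖ ≤ R / 2) (hyR2 : CB * L ^ 2 * ‖y‖ / R ≤ m / 8) (hKm : 50 * C * L ^ 2 / K ^ 2 ≤ m / 8)
    (hup : WW (chi δ) u 0 R ≤ mm / 2 + m / 8) {ρ : ℝ} (hρ : 0 < ρ) (hρR : ρ ≤ R / 2) :
    |VV (chi δ) u y ρ - mm / 2| ≤ κ ∧
      ∫ x in ball y ρ \ closedBall 0 (4 * δ), TT u y x ^ 2 ≤ κ * ρ ^ 5 := by
  have hC0 : 0 < C := by linarith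
  have hL0 : 0 < L := by linarith
  have hy8 : 8 * δ ≤ ‖y‖ := by nlinarith
  have hy0 : 0 < ‖y‖ := by linarith
  have hyO : y ∈ {x : E3 | δ < ‖x‖ ∧ ‖x‖ < 1} := ⟨by linarith, by linarith⟩
  -- lower bound
  have hlow : ∀ r, 0 < r → r ≤ R → mm / 2 - m / 8 ≤ WW (chi δ) u y r := by
    intro r hr hrR
    have hlim := weiss_limit h (chi_contDiff δ) hyO hF (by
      have : IsOpen {x : E3 | 4 * δ < ‖x‖} := isOpen_lt continuous_const continuous_norm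
      filter_upwards [this.mem_nhds (show 4 * δ < ‖y‖ by linarith)] with x hx
      exact chi_one hδ (le_of_lt hx))
    have : mm / 2 ≤ WW (chi δ) u y r + m / 8 := by
      refine le_of_tendsto hlim ?_
      filter_upwards [Ioo_mem_nhdsGT hr] with s hs
      have := DensPf_mono hC hL hErr h hδ hδ8 hLip hK hy (a := s) (b := r) (c := 0) hs.1 hs.2.le
        (by linarith) (fun t h1 h2 => by
          have : 0 ≤ ∫ x, chi δ x * wt (‖x - y‖ ^ 2 / t ^ 2) ^ 3 * TT u y x ^ 2 := by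
            apply integral_nonneg
            intro x
            have h3 := (chi_nonneg δ x).1
            have h4 := DensPf_wt_nonneg (‖x - y‖ ^ 2 / t ^ 2)
            simp only [Pi.zero_apply]
            positivity
          have ht : 0 < t := by linarith [hs.1]
          positivity)
      rw [zero_mul] at this
      linarith
    linarith
  -- upper bound
  have hupp : ∀ r, 0 < r → r ≤ R → WW (chi δ) u y r ≤ mm / 2 + 3 * m / 8 := by
    intro r hr hrR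
    have h1 := DensPf_mono hC hL hErr h hδ hδ8 hLip hK hy (a := r) (b := R) (c := 0) hr hrR
        (by linarith) (fun t h1 h2 => by
          have : 0 ≤ ∫ x, chi δ x * wt (‖x - y‖ ^ 2 / t ^ 2) ^ 3 * TT u y x ^ 2 := by
            apply integral_nonneg
            intro x
            have h3 := (chi_nonneg δ x).1
            have h4 := DensPf_wt_nonneg (‖x - y‖ ^ 2 / t ^ 2)
            simp only [Pi.zero_apply]
            positivity
          have ht : 0 < t := by linarith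
          positivity)
    rw [zero_mul] at h1
    have h2 := (abs_le.1 (hB L δ u hL hδ hδ8 h hLip y R hR (by linarith) (by linarith))).2
    linarith
  -- gain
  have hgain : ∀ J : ℝ, (∀ r, 3 * ρ / 2 ≤ r → r ≤ 2 * ρ →
      J ≤ 8 * ∫ x, chi δ x * wt (‖x - y‖ ^ 2 / r ^ 2) ^ 3 * TT u y x ^ 2) →
      J ≤ 64 * m * ρ ^ 5 := by
    intro J hJ
    by_cases hJ0 : J ≤ 0
    · have : 0 ≤ 64 * m * ρ ^ 5 := by positivity
      linarith
    · push Not at hJ0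
      have h1 := DensPf_mono hC hL hErr h hδ hδ8 hLip hK hy (a := 3 * ρ / 2) (b := 2 * ρ)
        (c := J / (32 * ρ ^ 6)) (by linarith) (by linarith) (by linarith) (fun r h1 h2 => by
          have h3 := hJ r h1 h2
          have hr : 0 < r := by linarith
          have h4 : 16 / (2 * ρ) ^ 6 * (J / 8) ≤ 16 / r ^ 6 *
              (∫ x, chi δ x * wt (‖x - y‖ ^ 2 / r ^ 2) ^ 3 * TT u y x ^ 2) := by
            apply mul_le_mul
            · apply div_le_div_of_nonneg_left (by norm_num) (by positivity)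
              exact pow_le_pow_left₀ hr.le h2 6
            · linarith
            · positivity
            · positivity
          refine le_trans (le_of_eq ?_) h4
          field_simp
          ring)
      have h2 := hlow (3 * ρ / 2) (by linarith) (by linarith)
      have h3 := hupp (2 * ρ) (by linarith) (by linarith)
      have h4 : J / (32 * ρ ^ 6) * (2 * ρ - 3 * ρ / 2) = J / (64 * ρ ^ 5) := by
        field_simp
        ring
      rw [h4] at h1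
      have h5 : J / (64 * ρ ^ 5) ≤ m := by linarith
      rw [div_le_iff₀ (by positivity)] at h5
      linarith
  have hρ5 : 0 < ρ ^ 5 := by positivity
  refine ⟨?_, ?_⟩
  · -- volume
    set J : ℝ := ∫ x, chi δ x * wt (‖x - y‖ ^ 2 / ρ ^ 2) ^ 3 * TT u y x ^ 2 with hJ
    have hJle : J ≤ 64 * m * ρ ^ 5 := hgain J (fun r h1 h2 =>
      DensPf_cmp2 hL0.le h hδ hLip hρ h1 (by linarith))
    set θ : ℝ := κ / (1152 * L ^ 2) with hθ
    have hθ0 : 0 < θ := by positivity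
    have hcross := DensPf_cross hL h hδ hLip hy8 hF hρ (by linarith : ‖y‖ + ρ ≤ 1 / 2) hθ0
    rw [← hJ] at hcross
    have hsplit := weiss_split h (chi_contDiff δ) (y := y) hρ (DensPf_supp hδ (by linarith))
    set I : ℝ := ∫ x, chi δ x * wt (‖x - y‖ ^ 2 / ρ ^ 2) ^ 3 * (u x * TT u y x) with hI
    have h1 : |8 / ρ ^ 5 * I| ≤ κ / 2 := by
      rw [abs_mul, abs_of_pos (by positivity : 0 < 8 / ρ ^ 5)]
      have h2 : |I| ≤ 36 * L ^ 2 * θ * ρ ^ 5 + 1 / (2 * θ) * (64 * m * ρ ^ 5) := by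
        refine hcross.trans ?_
        have : 1 / (2 * θ) * J ≤ 1 / (2 * θ) * (64 * m * ρ ^ 5) :=
          mul_le_mul_of_nonneg_left hJle (by positivity)
        linarith
      have h3 : 8 / ρ ^ 5 * |I| ≤ 8 / ρ ^ 5 * (36 * L ^ 2 * θ * ρ ^ 5 +
        1 / (2 * θ) * (64 * m * ρ ^ 5)) := mul_le_mul_of_nonneg_left h2 (by positivity)
      refine h3.trans ?_
      have h4 : 8 / ρ ^ 5 * (36 * L ^ 2 * θ * ρ ^ 5 + 1 / (2 * θ) * (64 * m * ρ ^ 5)) =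
          288 * L ^ 2 * θ + 256 * m / θ := by
        field_simp
        ring
      rw [h4]
      have h5 : 288 * L ^ 2 * θ = κ / 4 := by
        rw [hθ]
        field_simp
        ring
      have h6 : 256 * m / θ ≤ κ / 4 := by
        rw [div_le_iff₀ hθ0]
        have h7 : κ / 4 * θ = 256 * (κ ^ 2 / (1179648 * L ^ 2)) := by
          rw [hθ]
          field_simp
          ring
        rw [h7]
        linarith
      linarith
    have h2 : |Err2 (chi δ) u y ρ / ρ ^ 3| ≤ κ / 8 := by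
      by_cases hcase : ρ ≤ ‖y‖ - 4 * δ
      · rw [(err_zero hδ u hρ hcase).2.1]
        simp only [zero_div, abs_zero]
        positivity
      · push Not at hcase
        have h3 := (hErr L δ u hL hδ hδ8 h hLip y ρ hρ (by linarith)).2.1
        rw [abs_div, abs_of_pos (by positivity : 0 < ρ ^ 3), div_le_iff₀ (by positivity)]
        have hyρ : ‖y‖ ≤ 2 * ρ := by linarith
        have hKδ : K * δ ≤ 2 * ρ := hy.trans hyρ
        have hKpos : 0 < K := by linarith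
        have h4 : δ ^ 3 ≤ ρ ^ 3 / K ^ 2 := by
          rw [le_div_iff₀ (by positivity)]
          have h5 : K ^ 2 * δ ^ 2 ≤ 4 * ρ ^ 2 := by
            have := pow_le_pow_left₀ (by positivity) hKδ 2
            nlinarith
          have h6 : δ ≤ ρ / 4 := by nlinarith
          calc δ ^ 3 * K ^ 2 = (K ^ 2 * δ ^ 2) * δ := by ring
            _ ≤ (4 * ρ ^ 2) * (ρ / 4) := mul_le_mul h5 h6 hδ.le (by positivity)
            _ = ρ ^ 3 := by ring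
        have h5 : C * L ^ 2 * δ ^ 3 ≤ (C * L ^ 2 / K ^ 2) * ρ ^ 3 := by
          have : (C * L ^ 2 / K ^ 2) * ρ ^ 3 = C * L ^ 2 * (ρ ^ 3 / K ^ 2) := by ring
          rw [this]
          exact mul_le_mul_of_nonneg_left h4 (by positivity)
        have h6 : C * L ^ 2 / K ^ 2 ≤ κ / 8 := by
          have h7 : 50 * C * L ^ 2 / K ^ 2 = 50 * (C * L ^ 2 / K ^ 2) := by ring
          rw [h7] at hKm
          have h8 : 0 ≤ C * L ^ 2 / K ^ 2 := by positivity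
          linarith
        have h7 : (C * L ^ 2 / K ^ 2) * ρ ^ 3 ≤ κ / 8 * ρ ^ 3 :=
          mul_le_mul_of_nonneg_right h6 (by positivity)
        linarith
    have h3 := hlow ρ hρ (by linarith)
    have h4 := hupp ρ hρ (by linarith)
    have h5 := abs_le.1 h1
    have h6 := abs_le.1 h2
    rw [abs_le]
    constructor <;> linarith [h5.1, h5.2, h6.1, h6.2]
  · have h1 := hgain _ (fun r h1 h2 => DensPf_cmp1 hL0.le h hδ hLip hρ h1 (by linarith))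
    refine h1.trans ?_
    have : 64 * m ≤ κ := by linarith
    exact mul_le_mul_of_nonneg_right this hρ5.le

theorem dens : ∀ L : ℝ, 1 ≤ L → ∀ κ : ℝ, 0 < κ → ∃ K : ℝ, 8 ≤ K ∧ ∃ r₁ : ℝ, 0 < r₁ ∧ ∃ r₀ : ℝ,
    r₁ ≤ r₀ ∧ r₀ ≤ 1 / 16 ∧ ∃ ε₀ : ℝ, 0 < ε₀ ∧ ∃ δ₀ : ℝ, 0 < δ₀ ∧
    ∀ (δ ε : ℝ) (u : E3 → ℝ), 0 < δ → δ ≤ δ₀ → ε ≤ ε₀ → Setup δ ε u → LipOn L δ u →
    Dens κ K r₁ r₀ δ u := by
  intro L hL κ hκ
  obtain ⟨C, hC, hErr⟩ := err_bound
  obtain ⟨CB, hCB, hB⟩ := basept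
  have hL0 : 0 < L := by linarith
  have hC0 : 0 < C := by linarith
  have hCB0 : 0 < CB := by linarith
  set m : ℝ := min (κ / 64) (κ ^ 2 / (1179648 * L ^ 2)) with hm
  have hm0 : 0 < m := by rw [hm]; positivity
  obtain ⟨R, hR, hR16, ε₀, hε₀, δ₀, hδ₀, hup⟩ := weiss_upper L hL (m / 8) (by positivity)
  set K : ℝ := max 8 (400 * C * L ^ 2 / m) with hK
  have hK8 : 8 ≤ K := le_max_left _ _
  have hK2 : 400 * C * L ^ 2 / m ≤ K := le_max_right _ _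
  have hKm : 50 * C * L ^ 2 / K ^ 2 ≤ m / 8 := by
    rw [div_le_iff₀ hm0] at hK2
    rw [div_le_iff₀ (by positivity)]
    nlinarith [mul_pos hm0 (by linarith : 0 < K)]
  set r₁ : ℝ := R * min (1 / 2) (m / (8 * CB * L ^ 2)) with hr₁
  have hr₁0 : 0 < r₁ := by rw [hr₁]; positivity
  have hr₁a : r₁ ≤ R / 2 := by
    have : min (1 / 2) (m / (8 * CB * L ^ 2)) ≤ 1 / 2 := min_le_left _ _
    rw [hr₁]
    nlinarith
  have hr₁b : r₁ ≤ R * (m / (8 * CB * L ^ 2)) := by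
    have : min (1 / 2) (m / (8 * CB * L ^ 2)) ≤ m / (8 * CB * L ^ 2) := min_le_right _ _
    rw [hr₁]
    exact mul_le_mul_of_nonneg_left this hR.le
  refine ⟨K, hK8, r₁, hr₁0, R / 2, hr₁a, by linarith, ε₀, hε₀, min δ₀ (1 / 8),
    lt_min hδ₀ (by norm_num), ?_⟩
  intro δ ε u hδ hδ' hε hS hLip
  have hδ1 : δ ≤ δ₀ := hδ'.trans (min_le_left _ _)
  have hδ8 : δ ≤ 1 / 8 := hδ'.trans (min_le_right _ _)
  have hW := hup δ ε u hδ hδ1 hε hS hLip
  have key : ∀ y : E3, FB u y → K * δ ≤ ‖y‖ → ‖y‖ ≤ r₁ → ∀ ρ, 0 < ρ → ρ ≤ R / 2 →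
      |VV (chi δ) u y ρ - mm / 2| ≤ κ ∧
      ∫ x in ball y ρ \ closedBall 0 (4 * δ), TT u y x ^ 2 ≤ κ * ρ ^ 5 := by
    intro y hF hy1 hy2 ρ hρ hρR
    refine DensPf_point hC hCB hL hErr hB hS.onePhase hδ hδ8 hLip hK8 hy1 hF hR hR16 hκ hm0
      (min_le_left _ _) (min_le_right _ _) (hy2.trans hr₁a) ?_ hKm hW hρ hρR
    have h1 : ‖y‖ ≤ R * (m / (8 * CB * L ^ 2)) := hy2.trans hr₁b
    rw [div_le_iff₀ hR]
    calc CB * L ^ 2 * ‖y‖ ≤ CB * L ^ 2 * (R * (m / (8 * CB * L ^ 2))) :=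
          mul_le_mul_of_nonneg_left h1 (by positivity)
      _ = m / 8 * R := by
          field_simp
  exact ⟨fun y hF hy1 hy2 ρ hρ hρR => (key y hF hy1 hy2 ρ hρ hρR).1,
    fun y hF hy1 hy2 ρ hρ hρR => (key y hF hy1 hy2 ρ hρ hρR).2⟩

end Pool.Agent.H32.Flat
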