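import Pool.Agent.H32.Flat.Defs

/-!
# Module E1: divergence theorem for compactly supported `C¹` fields; weights

* `integral_divg`: each summand `∫ ∂_i X_i = 0`
  (`integral_fderiv_eq_zero`-type lemma in Mathlib: e.g.
  `MeasureTheory.integral_mul_fderiv_eq_neg_fderiv_mul_of_integrable`, or
  `integral_bilinear_hasLineDerivAt_right_eq_neg_left_of_integrable` with the constant function 1).
* the weight `x ↦ wt (‖x - y‖²/ρ²) ^ n` is `C^{n-1}` and its gradient is
  `-(2 n/ρ²) wt^{n-1} (x - y)`.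
-/

open Set Metric MeasureTheory Filter Topology InnerProductSpace
open scoped Laplacian Gradient RealInnerProductSpace

namespace Pool.Agent.H32.Flat

theorem DivThm_fderiv_apply {X : E3 → E3} {x v : E3} (hX : DifferentiableAt ℝ X x) (i : Fin 3) :
    (fderiv ℝ X x v) i = fderiv ℝ (fun y => X y i) x v := by
  have h1 : HasFDerivAt (fun y => X y i)
      ((EuclideanSpace.proj i : E3 →L[ℝ] ℝ).comp (fderiv ℝ X x)) x :=
    (EuclideanSpace.proj i : E3 →L[ℝ] ℝ).hasFDerivAt.comp x hX.hasFDerivAt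
  rw [h1.fderiv]
  rfl

theorem DivThm_integral_fderiv {f : E3 → ℝ} (hf : ContDiff ℝ 1 f) (hc : HasCompactSupport f)
    (v : E3) : ∫ x, fderiv ℝ f x v = 0 := by
  have h1 : Continuous fun x => fderiv ℝ f x v :=
    (hf.continuous_fderiv one_ne_zero).clm_apply continuous_const
  have h2 : HasCompactSupport fun x => fderiv ℝ f x v := by
    have h3 := hc.fderiv ℝ
    exact h3.comp_left (g := fun L : E3 →L[ℝ] ℝ => L v) rfl
  have h := integral_mul_fderiv_eq_neg_fderiv_mul_of_integrable (μ := (volume : Measure E3))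
    (f := fun _ : E3 => (1 : ℝ)) (g := f) (v := v) (by simp)
    (by simpa using h1.integrable_of_hasCompactSupport h2)
    (by simpa using hf.continuous.integrable_of_hasCompactSupport hc)
    (fun x _ => differentiableAt_const _)
    (fun x _ => (hf.differentiable one_ne_zero).differentiableAt)
  simpa using h

theorem integral_divg {X : E3 → E3} (hX : ContDiff ℝ 1 X) (hc : HasCompactSupport X) :
    ∫ x, divg X x = 0 := by
  have hXi : ∀ i : Fin 3, ContDiff ℝ 1 fun x => X x i := fun i =>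
    (EuclideanSpace.proj i : E3 →L[ℝ] ℝ).contDiff.comp hX
  have hci : ∀ i : Fin 3, HasCompactSupport fun x => X x i := fun i =>
    hc.comp_left (g := fun y : E3 => y i) rfl
  have h1 : ∀ i : Fin 3, ∀ x, (fderiv ℝ X x (EuclideanSpace.single i 1)) i =
      fderiv ℝ (fun y => X y i) x (EuclideanSpace.single i 1) := fun i x =>
    DivThm_fderiv_apply (hX.differentiable one_ne_zero).differentiableAt i
  unfold divg
  simp only [h1]
  rw [integral_finsetSum]
  · exact Finset.sum_eq_zero fun i _ => DivThm_integral_fderiv (hXi i) (hci i) _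
  · intro i _
    have h2 : Continuous fun x => fderiv ℝ (fun y => X y i) x (EuclideanSpace.single i 1) :=
      ((hXi i).continuous_fderiv one_ne_zero).clm_apply continuous_const
    refine h2.integrable_of_hasCompactSupport ?_
    exact ((hci i).fderiv ℝ).comp_left
      (g := fun L : E3 →L[ℝ] ℝ => L (EuclideanSpace.single i 1)) rfl

theorem DivThm_sum (a b : E3) : ∑ i : Fin 3, a i * b i = ⟪a, b⟫ := by
  rw [PiLp.inner_apply]
  refine Finset.sum_congr rfl fun i _ => ?_
  simp [mul_comm]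

theorem DivThm_fderiv_single {f : E3 → ℝ} {x : E3} (hf : DifferentiableAt ℝ f x) (i : Fin 3) :
    fderiv ℝ f x (EuclideanSpace.single i 1) = gradient f x i := by
  have h1 : ⟪gradient f x, EuclideanSpace.single i (1 : ℝ)⟫ =
      fderiv ℝ f x (EuclideanSpace.single i 1) := by
    unfold gradient
    exact toDual_symm_apply
  have h2 : ⟪gradient f x, EuclideanSpace.single i (1 : ℝ)⟫ = gradient f x i := by
    rw [EuclideanSpace.inner_single_right]
    simp
  exact h1.symm.trans h2

theorem divg_smul {f : E3 → ℝ} {X : E3 → E3} {x : E3} (hf : DifferentiableAt ℝ f x)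
    (hX : DifferentiableAt ℝ X x) :
    divg (fun y => f y • X y) x = ⟪gradient f x, X x⟫ + f x * divg X x := by
  unfold divg
  have h1 : fderiv ℝ (fun y => f y • X y) x = f x • fderiv ℝ X x + (fderiv ℝ f x).smulRight (X x) :=
    (hf.hasFDerivAt.fun_smul hX.hasFDerivAt).fderiv
  rw [h1, ← DivThm_sum, Finset.mul_sum, ← Finset.sum_add_distrib]
  refine Finset.sum_congr rfl fun i _ => ?_
  rw [add_apply, smul_apply, ContinuousLinearMap.smulRight_apply, PiLp.add_apply, PiLp.smul_apply,
    PiLp.smul_apply, DivThm_fderiv_single hf, smul_eq_mul, smul_eq_mul]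
  ring

theorem divg_sub_const (y x : E3) : divg (fun x => x - y) x = 3 := by
  unfold divg
  have h1 : fderiv ℝ (fun x : E3 => x - y) x = ContinuousLinearMap.id ℝ E3 := by
    rw [fderiv_sub_const, fderiv_fun_id]
  rw [h1]
  simp

theorem divg_gradient {f : E3 → ℝ} {x : E3} (hf : ContDiffAt ℝ 2 f x) :
    divg (gradient f) x = Δ f x := by
  have h0 : DifferentiableAt ℝ (fderiv ℝ f) x :=
    (hf.fderiv_right (m := 1) (by norm_num)).differentiableAt one_ne_zero
  have h1 : HasFDerivAt (gradient f)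
      (((toDual ℝ E3).symm.toContinuousLinearEquiv.toContinuousLinearMap).comp
        (fderiv ℝ (fderiv ℝ f) x)) x :=
    ((toDual ℝ E3).symm.toContinuousLinearEquiv.toContinuousLinearMap).hasFDerivAt.comp x
      h0.hasFDerivAt
  unfold divg
  rw [h1.fderiv, InnerProductSpace.laplacian_eq_iteratedFDeriv_orthonormalBasis f
    (EuclideanSpace.basisFun (Fin 3) ℝ)]
  refine Finset.sum_congr rfl fun i _ => ?_
  rw [iteratedFDeriv_two_apply]
  simp only [Matrix.cons_val_zero, Matrix.cons_val_one, EuclideanSpace.basisFun_apply]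
  have h2 : ∀ L : E3 →L[ℝ] ℝ, ((toDual ℝ E3).symm L) i = L (EuclideanSpace.single i 1) := by
    intro L
    have h3 : ⟪(toDual ℝ E3).symm L, EuclideanSpace.single i (1 : ℝ)⟫ =
      L (EuclideanSpace.single i 1) := toDual_symm_apply
    have h4 : ⟪(toDual ℝ E3).symm L, EuclideanSpace.single i (1 : ℝ)⟫ =
        ((toDual ℝ E3).symm L) i := by
      rw [EuclideanSpace.inner_single_right]
      simp
    exact h4.symm.trans h3
  exact h2 _

theorem support_wt_subset {y : E3} {ρ : ℝ} (hρ : 0 < ρ) {n : ℕ} (hn : n ≠ 0) :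
    Function.support (fun x : E3 => wt (‖x - y‖ ^ 2 / ρ ^ 2) ^ n) ⊆ ball y ρ := by
  intro x hx
  rw [Function.mem_support] at hx
  have h1 : wt (‖x - y‖ ^ 2 / ρ ^ 2) ≠ 0 := fun h => hx (by rw [h, zero_pow hn])
  have h2 : ‖x - y‖ ^ 2 / ρ ^ 2 < 1 := by
    by_contra h
    push Not at h
    apply h1
    unfold wt
    exact max_eq_right (by linarith)
  rw [div_lt_one (by positivity)] at h2
  rw [mem_ball, dist_eq_norm]
  exact lt_of_pow_lt_pow_left₀ 2 hρ.le h2

theorem hasCompactSupport_wt {y : E3} {ρ : ℝ} (hρ : 0 < ρ) {n : ℕ} (hn : n ≠ 0) :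
    HasCompactSupport (fun x : E3 => wt (‖x - y‖ ^ 2 / ρ ^ 2) ^ n) := by
  refine HasCompactSupport.of_support_subset_isCompact (isCompact_closedBall y ρ) ?_
  exact (support_wt_subset hρ hn).trans ball_subset_closedBall

theorem DivThm_hasDerivAt (n : ℕ) (t : ℝ) :
    HasDerivAt (fun s : ℝ => wt s ^ (n + 2)) (-((n + 2 : ℕ) : ℝ) * wt t ^ (n + 1)) t := by
  have key : ∀ s : ℝ, wt s ^ (n + 2) = wt s ^ (n + 1) * (1 - s) := by
    intro s
    rw [pow_succ]
    unfold wt
    rcases le_total 0 (1 - s) with h | h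
    · rw [max_eq_left h]
    · rw [max_eq_right h, zero_pow (Nat.succ_ne_zero n), zero_mul, zero_mul]
  rcases lt_trichotomy t 1 with h | h | h
  · have h1 : (fun s : ℝ => wt s ^ (n + 2)) =ᶠ[𝓝 t] fun s => (1 - s) ^ (n + 2) := by
      filter_upwards [Iio_mem_nhds h] with s hs
      unfold wt
      rw [max_eq_left (by linarith [mem_Iio.1 hs])]
    have h2 : HasDerivAt (fun s : ℝ => (1 - s) ^ (n + 2))
        (((n + 2 : ℕ) : ℝ) * (1 - t) ^ (n + 1) * -1) t := by
      have h3 : HasDerivAt (fun s : ℝ => 1 - s) (-1) t := by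
        simpa using (hasDerivAt_id t).const_sub 1
      exact h3.fun_pow (n + 2)
    have h3 : wt t = 1 - t := by
      unfold wt
      exact max_eq_left (by linarith)
    rw [h3]
    refine (h2.congr_of_eventuallyEq h1).congr_deriv ?_
    ring
  · subst h
    have h3 : wt 1 = 0 := by
      unfold wt
      simp
    rw [h3, zero_pow (Nat.succ_ne_zero n), mul_zero]
    rw [hasDerivAt_iff_isLittleO]
    simp only [h3, zero_pow (Nat.succ_ne_zero (n + 1)), sub_zero, smul_zero]
    rw [Asymptotics.isLittleO_iff]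
    intro c hc
    have hcont : Continuous fun s : ℝ => wt s ^ (n + 1) := by
      unfold wt
      fun_prop
    have h4 : Tendsto (fun s : ℝ => wt s ^ (n + 1)) (𝓝 1) (𝓝 0) := by
      have := hcont.tendsto 1
      rwa [h3, zero_pow (Nat.succ_ne_zero n)] at this
    filter_upwards [(h4.eventually (gt_mem_nhds hc))] with s hs
    rw [key s, norm_mul]
    have h5 : ‖(1 : ℝ) - s‖ = ‖s - 1‖ := norm_sub_rev _ _
    rw [h5]
    refine mul_le_mul_of_nonneg_right ?_ (norm_nonneg _)
    have h6 : 0 ≤ wt s ^ (n + 1) := by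
      unfold wt
      positivity
    rw [Real.norm_of_nonneg h6]
    exact hs.le
  · have h1 : (fun s : ℝ => wt s ^ (n + 2)) =ᶠ[𝓝 t] fun _ => 0 := by
      filter_upwards [Ioi_mem_nhds h] with s hs
      unfold wt
      rw [max_eq_right (by linarith [mem_Ioi.1 hs]), zero_pow (by omega)]
    have h3 : wt t = 0 := by
      unfold wt
      exact max_eq_right (by linarith)
    rw [h3, zero_pow (Nat.succ_ne_zero n), mul_zero]
    exact (hasDerivAt_const t 0).congr_of_eventuallyEq h1

theorem DivThm_contDiff (n : ℕ) : ContDiff ℝ n fun s : ℝ => wt s ^ (n + 1) := by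
  induction n with
  | zero =>
    rw [Nat.cast_zero, contDiff_zero]
    unfold wt
    fun_prop
  | succ n ih =>
    have h : ContDiff ℝ ((n : WithTop ℕ∞) + 1) fun s : ℝ => wt s ^ (n + 1 + 1) := by
      rw [contDiff_succ_iff_deriv]
      refine ⟨fun t => (DivThm_hasDerivAt n t).differentiableAt, by simp, ?_⟩
      have h1 : deriv (fun s : ℝ => wt s ^ (n + 1 + 1)) =
          fun t => -((n + 2 : ℕ) : ℝ) * wt t ^ (n + 1) := by
        funext t
        exact (DivThm_hasDerivAt n t).deriv
      rw [h1]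
      exact contDiff_const.mul ih
    exact_mod_cast h

theorem contDiff_wt {y : E3} {ρ : ℝ} (n : ℕ) :
    ContDiff ℝ n (fun x : E3 => wt (‖x - y‖ ^ 2 / ρ ^ 2) ^ (n + 1)) := by
  have h1 : ContDiff ℝ n fun x : E3 => ‖x - y‖ ^ 2 / ρ ^ 2 :=
    ((contDiff_norm_sq ℝ).comp (contDiff_id.sub contDiff_const)).div_const _
  exact (DivThm_contDiff n).comp h1

theorem gradient_wt {y x : E3} {ρ : ℝ} (n : ℕ) :
    gradient (fun x : E3 => wt (‖x - y‖ ^ 2 / ρ ^ 2) ^ (n + 2)) x =
      (-(2 * (n + 2) / ρ ^ 2) * wt (‖x - y‖ ^ 2 / ρ ^ 2) ^ (n + 1)) • (x - y) := by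
  have h1 : HasFDerivAt (fun x : E3 => ‖x - y‖ ^ 2) (2 • (innerSL ℝ (x - y))) x := by
    have h2 : HasFDerivAt (fun x : E3 => x - y) (ContinuousLinearMap.id ℝ E3) x :=
      (hasFDerivAt_id x).sub_const y
    have h3 := (hasStrictFDerivAt_norm_sq (x - y)).hasFDerivAt.comp x h2
    exact h3
  have h2 : HasFDerivAt (fun x : E3 => ‖x - y‖ ^ 2 / ρ ^ 2)
      ((ρ ^ 2)⁻¹ • (2 • (innerSL ℝ (x - y)))) x := by
    have h3 := h1.mul_const ((ρ ^ 2)⁻¹)
    simpa [div_eq_mul_inv] using h3
  have h3 := (DivThm_hasDerivAt n (‖x - y‖ ^ 2 / ρ ^ 2)).comp_hasFDerivAt x h2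
  refine HasGradientAt.gradient ?_
  rw [hasGradientAt_iff_hasFDerivAt]
  refine h3.congr_fderiv ?_
  ext v
  simp only [smul_apply, innerSL_apply_apply, toDual_apply_apply, smul_eq_mul, nsmul_eq_mul,
    real_inner_smul_left]
  push_cast
  ring

theorem mm_pos : 0 < mm := by
  unfold mm
  have hc : Continuous fun x : E3 => wt (‖x‖ ^ 2) ^ 4 := by
    unfold wt
    fun_prop
  have hs : HasCompactSupport fun x : E3 => wt (‖x‖ ^ 2) ^ 4 := by
    have h := hasCompactSupport_wt (y := 0) (ρ := 1) one_pos (n := 4) (by norm_num)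
    simpa using h
  rw [integral_pos_iff_support_of_nonneg]
  · have h1 : IsOpen (Function.support fun x : E3 => wt (‖x‖ ^ 2) ^ 4) := hc.isOpen_support
    refine h1.measure_pos volume ⟨0, ?_⟩
    rw [Function.mem_support]
    unfold wt
    norm_num
  · intro x
    show 0 ≤ wt (‖x‖ ^ 2) ^ 4
    unfold wt
    positivity
  · exact hc.integrable_of_hasCompactSupport hs

end Pool.Agent.H32.Flat
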