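import Pool.Agent.H32.Flat.Nu2

/-!
# Module R6: graph extraction and extension

On `K = {a ≤ ‖x‖ ≤ b} ⊆ O`: `‖nu - e3‖ ≤ 1/1000` on `closure{0<u}`, flat with constant `1/1000`.
If `16 a > b` the conclusion is void (`4a ≤ ‖x‖ ≤ b/4` has no solutions): take `g = 0`.  Otherwise:
for `z ∈ ℝ²` with `2a ≤ |z| ≤ b/2` the vertical segment `{(z,t) : |t| ≤ |z|/10}` lies in `K`, `u = 0` at the
bottom, `u > 0` at the top, and `u` is strictly increasing in `t` where positive (`⟪nu,e3⟫ > 0`), so there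
is a unique `t = g₀(z)` with `u(z,t) = 0` for `t ≤ g₀ z`, `u > 0` for `t > g₀ z` (on the segment);
`FB u (z,t) ↔ t = g₀ z` (at an `FB` point `U` of `local_struct` is increasing in `t`, so there are positive
points just above it).  `|g₀ z| ≤ (1/999)|z|`.  `g₀` is `C¹` near such `z` (implicit function theorem for `U`),
with `∇g₀ = -(ν₁,ν₂)/ν₃`, so `|∇g₀| ≤ 1/999`.
Extension: `g = χ g₀`, `χ` a radial `C¹` cut-off, `χ = 1` on `3a ≤ |z| ≤ b/3`, `χ = 0` outside
`2a < |z| < b/2`, with slope `≤ 1.5/a` on `[2a,3a]` and `≤ 9/b` on `[b/3,b/2]` (cubic `3t²-2t³`):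
`|∇g| ≤ 1/999 + max (1.5/a · 3a, 9/b · b/2)/999 ≤ 5.5/999 < 1/100`.
For `x` with `4a ≤ ‖x‖ ≤ b/4`: `FB u x` or `x 2 = g(x 0, x 1)` both force `|x 2| ≤ ‖x‖/100`, so
`3a ≤ |(x 0,x 1)| ≤ b/3`, and the two are equivalent.
-/

open Set Metric MeasureTheory Filter Topology InnerProductSpace
open scoped Laplacian Gradient RealInnerProductSpace

namespace Pool.Agent.H32.Flat

/-! ### Vertical lines -/

/-- The point with horizontal part `z` and height `t`. -/
private noncomputable def gpE (z : EuclideanSpace ℝ (Fin 2)) (t : ℝ) : E3 := !₂[z 0, z 1, t]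

/-- The horizontal part of a vector. -/
private noncomputable def gpH (v : E3) : EuclideanSpace ℝ (Fin 2) := !₂[v 0, v 1]

private lemma gpE_0 (z : EuclideanSpace ℝ (Fin 2)) (t : ℝ) : gpE z t 0 = z 0 := rfl

private lemma gpE_1 (z : EuclideanSpace ℝ (Fin 2)) (t : ℝ) : gpE z t 1 = z 1 := rfl

private lemma gpE_2 (z : EuclideanSpace ℝ (Fin 2)) (t : ℝ) : gpE z t 2 = t := rfl

private lemma gpE_self (x : E3) : gpE (gpH x) (x 2) = x := by
  ext i
  fin_cases i <;> rfl

private lemma gp_inner_e3 (x : E3) : ⟪x, e3⟫ = x 2 := by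
  unfold e3
  rw [EuclideanSpace.inner_single_right]
  simp

private lemma gpE_norm_sq (z : EuclideanSpace ℝ (Fin 2)) (t : ℝ) :
    ‖gpE z t‖ ^ 2 = ‖z‖ ^ 2 + t ^ 2 := by
  rw [EuclideanSpace.norm_sq_eq, EuclideanSpace.norm_sq_eq, Fin.sum_univ_three, Fin.sum_univ_two,
    gpE_0, gpE_1, gpE_2]
  simp

private lemma gp_norm_sq (x : E3) : ‖x‖ ^ 2 = ‖gpH x‖ ^ 2 + (x 2) ^ 2 := by
  conv_lhs => rw [← gpE_self x]
  rw [gpE_norm_sq]

private lemma gpE_le (z : EuclideanSpace ℝ (Fin 2)) (t : ℝ) : ‖gpE z t‖ ≤ ‖z‖ + |t| := by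
  apply abs_le_of_sq_le_sq' _ (by positivity) |>.2
  rw [gpE_norm_sq, add_sq, sq_abs]
  nlinarith [norm_nonneg z, abs_nonneg t, mul_nonneg (norm_nonneg z) (abs_nonneg t)]

private lemma gpE_ge (z : EuclideanSpace ℝ (Fin 2)) (t : ℝ) : ‖z‖ ≤ ‖gpE z t‖ := by
  apply abs_le_of_sq_le_sq' _ (by positivity) |>.2
  rw [gpE_norm_sq]
  nlinarith [sq_nonneg t]

private lemma gpE_sub (z z' : EuclideanSpace ℝ (Fin 2)) (t t' : ℝ) :
    gpE z t - gpE z' t' = gpE (z - z') (t - t') := by
  ext i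
  fin_cases i <;> rfl

private lemma gpE_inner (z : EuclideanSpace ℝ (Fin 2)) (t : ℝ) (v : E3) :
    ⟪v, gpE z t⟫ = ⟪gpH v, z⟫ + v 2 * t := by
  rw [PiLp.inner_apply, PiLp.inner_apply, Fin.sum_univ_three, Fin.sum_univ_two, gpE_0, gpE_1, gpE_2]
  simp only [gpH]
  simp
  ring

private lemma gpE_cont : Continuous fun p : EuclideanSpace ℝ (Fin 2) × ℝ => gpE p.1 p.2 := by
  rw [Metric.continuous_iff]
  intro p ε hε
  refine ⟨ε / 2, by positivity, fun p' hp' => ?_⟩
  rw [dist_eq_norm, gpE_sub]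
  have h1 := gpE_le (p'.1 - p.1) (p'.2 - p.2)
  have h2 : ‖p'.1 - p.1‖ ≤ dist p' p := by
    rw [← dist_eq_norm]; exact le_max_left _ _
  have h3 : |p'.2 - p.2| ≤ dist p' p := by
    rw [← Real.dist_eq]; exact le_max_right _ _
  linarith

private lemma gpH_le (v : E3) : ‖gpH v‖ ≤ ‖v‖ := by
  apply abs_le_of_sq_le_sq' _ (by positivity) |>.2
  rw [gp_norm_sq v]
  nlinarith [sq_nonneg (v 2)]

private lemma gp_e3_norm : ‖e3‖ = 1 := by
  unfold e3
  simp

private lemma gpH_e3 (v : E3) : gpH (v - e3) = gpH v := by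
  ext i
  fin_cases i <;> simp [gpH, e3]

/-- Vectors close to `e3`. -/
private lemma gp_near {v : E3} (h : ‖v - e3‖ ≤ 1 / 1000) :
    999 / 1000 ≤ v 2 ∧ ‖gpH v‖ ≤ 1 / 1000 := by
  constructor
  · have h1 : ⟪v - e3, e3⟫ = v 2 - 1 := by
      rw [gp_inner_e3]
      simp [e3]
    have h2 := abs_real_inner_le_norm (v - e3) e3
    rw [h1, gp_e3_norm, mul_one] at h2
    have h3 := (abs_le.1 (h2.trans h)).1
    linarith
  · rw [← gpH_e3 v]
    exact (gpH_le _).trans h

/-- The hypotheses. -/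
private structure GpD (O : Set E3) (u : E3 → ℝ) (a b : ℝ) : Prop where
  h : OnePhase O u
  ha : 0 < a
  hab : 16 * a ≤ b
  hO : {x : E3 | a ≤ ‖x‖ ∧ ‖x‖ ≤ b} ⊆ O
  hnu : ∀ x ∈ closure {x | 0 < u x}, a ≤ ‖x‖ → ‖x‖ ≤ b → ‖nu u x - e3‖ ≤ 1 / 1000
  hflat : ∀ x : E3, a ≤ ‖x‖ → ‖x‖ ≤ b → (1 / 1000 * ‖x‖ < ⟪x, e3⟫ → 0 < u x) ∧
      (⟪x, e3⟫ < -(1 / 1000 * ‖x‖) → u x = 0)

/-- The open annulus in the plane. -/
private def gpS (a b : ℝ) : Set (EuclideanSpace ℝ (Fin 2)) := {z | a < ‖z‖ ∧ ‖z‖ < 9 / 10 * b}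

private lemma gpS_open (a b : ℝ) : IsOpen (gpS a b) :=
  (isOpen_lt continuous_const continuous_norm).inter (isOpen_lt continuous_norm continuous_const)

section

variable {O : Set E3} {u : E3 → ℝ} {a b : ℝ}

private lemma gp_memK (H : GpD O u a b) {z : EuclideanSpace ℝ (Fin 2)} (hz : z ∈ gpS a b) {t : ℝ}
    (ht : |t| ≤ ‖z‖ / 10) : a < ‖gpE z t‖ ∧ ‖gpE z t‖ < b := by
  obtain ⟨h1, h2⟩ := hz
  have h3 := gpE_ge z t
  have h4 : ‖gpE z t‖ ≤ 11 / 10 * ‖z‖ := by
    have := gpE_le z t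
    linarith
  have := H.ha
  have := H.hab
  constructor
  · linarith
  · linarith

private lemma gp_memO (H : GpD O u a b) {z : EuclideanSpace ℝ (Fin 2)} (hz : z ∈ gpS a b) {t : ℝ}
    (ht : |t| ≤ ‖z‖ / 10) : gpE z t ∈ O := by
  obtain ⟨h1, h2⟩ := gp_memK H hz ht
  exact H.hO ⟨h1.le, h2.le⟩

private lemma gp_zero (H : GpD O u a b) {z : EuclideanSpace ℝ (Fin 2)} (hz : z ∈ gpS a b) {t : ℝ}
    (ht : |t| ≤ ‖z‖ / 10) (ht' : t < -(‖z‖ / 999)) : u (gpE z t) = 0 := by
  obtain ⟨h1, h2⟩ := gp_memK H hz ht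
  refine (H.hflat _ h1.le h2.le).2 ?_
  rw [gp_inner_e3, gpE_2]
  have h3 := gpE_le z t
  have h4 : |t| = -t := abs_of_nonpos (by linarith [norm_nonneg z])
  rw [h4] at h3
  linarith

private lemma gp_pos (H : GpD O u a b) {z : EuclideanSpace ℝ (Fin 2)} (hz : z ∈ gpS a b) {t : ℝ}
    (ht : |t| ≤ ‖z‖ / 10) (ht' : ‖z‖ / 999 < t) : 0 < u (gpE z t) := by
  obtain ⟨h1, h2⟩ := gp_memK H hz ht
  refine (H.hflat _ h1.le h2.le).1 ?_
  rw [gp_inner_e3, gpE_2]
  have h3 := gpE_le z t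
  have h4 : |t| = t := abs_of_nonneg (by linarith [norm_nonneg z])
  rw [h4] at h3
  linarith

private lemma gp_line (z : EuclideanSpace ℝ (Fin 2)) : Continuous fun t : ℝ => gpE z t :=
  gpE_cont.comp (continuous_const.prodMk continuous_id)

private lemma gp_contOn (H : GpD O u a b) {z : EuclideanSpace ℝ (Fin 2)} (hz : z ∈ gpS a b) :
    ContinuousOn (fun t : ℝ => u (gpE z t)) (Icc (-(‖z‖ / 10)) (‖z‖ / 10)) := by
  refine H.h.cont.comp (gp_line z).continuousOn ?_
  intro t ht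
  exact gp_memO H hz (abs_le.2 ht)

private lemma gpE_hasDerivAt (z : EuclideanSpace ℝ (Fin 2)) (t : ℝ) :
    HasDerivAt (fun t : ℝ => gpE z t) e3 t := by
  have h1 : (fun t : ℝ => gpE z t) = fun t : ℝ => gpE z 0 + t • e3 := by
    funext t
    ext i
    fin_cases i <;> simp [gpE, e3]
  rw [h1]
  have h2 : HasDerivAt (fun t : ℝ => t • e3) ((1 : ℝ) • e3) t := (hasDerivAt_id t).smul_const e3
  rw [one_smul] at h2
  exact h2.const_add _

private lemma gp_hasDerivAt (H : GpD O u a b) {z : EuclideanSpace ℝ (Fin 2)} (hz : z ∈ gpS a b)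
    {t : ℝ} (ht : |t| ≤ ‖z‖ / 10) (hu : 0 < u (gpE z t)) :
    ∃ d : ℝ, 0 < d ∧ HasDerivAt (fun t : ℝ => u (gpE z t)) d t := by
  have hO := gp_memO H hz ht
  have hd : DifferentiableAt ℝ u (gpE z t) := (H.h.harm _ hO hu).1.differentiableAt (by norm_num)
  have hg := hd.hasGradientAt
  rw [hasGradientAt_iff_hasFDerivAt] at hg
  have h1 := hg.comp_hasDerivAt t (gpE_hasDerivAt z t)
  refine ⟨_, ?_, h1⟩
  rw [toDual_apply_apply, gp_inner_e3]
  obtain ⟨h2, h3⟩ := gp_memK H hz ht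
  have h4 := H.hnu _ (subset_closure hu) h2.le h3.le
  rw [nu_of_pos H.h hO hu] at h4
  have := (gp_near h4).1
  linarith

/-- Positivity propagates upwards. -/
private lemma gp_mono (H : GpD O u a b) {z : EuclideanSpace ℝ (Fin 2)} (hz : z ∈ gpS a b)
    {t t' : ℝ} (ht : |t| ≤ ‖z‖ / 10) (ht' : |t'| ≤ ‖z‖ / 10) (htt : t ≤ t')
    (hu : 0 < u (gpE z t)) : 0 < u (gpE z t') := by
  rcases (H.h.nonneg _ (gp_memO H hz ht')).lt_or_eq with h0 | h0
  · exact h0
  exfalso
  have hcont : ContinuousOn (fun t : ℝ => u (gpE z t)) (Icc t t') :=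
    (gp_contOn H hz).mono (Icc_subset_Icc (abs_le.1 ht).1 (abs_le.1 ht').2)
  set T : Set ℝ := {s | s ∈ Icc t t' ∧ u (gpE z s) = 0} with hT
  have hTc : IsCompact T := by
    have h1 : T = Icc t t' ∩ (fun s : ℝ => u (gpE z s)) ⁻¹' {0} := by
      ext s; simp [hT]
    rw [h1]
    exact isCompact_Icc.of_isClosed_subset (hcont.preimage_isClosed_of_isClosed isClosed_Icc
      isClosed_singleton) inter_subset_left
  have hTne : T.Nonempty := ⟨t', ⟨htt, le_rfl⟩, h0.symm⟩
  have hs := hTc.sInf_mem hTne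
  set s := sInf T with hsdef
  have hlt : ∀ r, t ≤ r → r < s → 0 < u (gpE z r) := by
    intro r hr hrs
    have hr' : r ≤ t' := hrs.le.trans hs.1.2
    have habs : |r| ≤ ‖z‖ / 10 := abs_le.2 ⟨(abs_le.1 ht).1.trans hr, hr'.trans (abs_le.1 ht').2⟩
    rcases (H.h.nonneg _ (gp_memO H hz habs)).lt_or_eq with h1 | h1
    · exact h1
    · exact absurd (csInf_le hTc.bddBelow ⟨⟨hr, hr'⟩, h1.symm⟩) (not_le.2 hrs)
  have hts : t < s := by
    rcases hs.1.1.lt_or_eq with h1 | h1
    · exact h1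
    · exfalso
      have h2 := hs.2
      rw [← h1] at h2
      linarith
  have hmono : StrictMonoOn (fun t : ℝ => u (gpE z t)) (Icc t s) := by
    refine strictMonoOn_of_deriv_pos (convex_Icc t s)
      (hcont.mono (Icc_subset_Icc le_rfl hs.1.2)) ?_
    intro r hr
    rw [interior_Icc] at hr
    have habs : |r| ≤ ‖z‖ / 10 := abs_le.2 ⟨(abs_le.1 ht).1.trans hr.1.le,
      (hr.2.le.trans hs.1.2).trans (abs_le.1 ht').2⟩
    obtain ⟨d, hd, hd'⟩ := gp_hasDerivAt H hz habs (hlt r hr.1.le hr.2)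
    rw [hd'.deriv]
    exact hd
  have h1 := hmono ⟨le_rfl, hts.le⟩ ⟨hts.le, le_rfl⟩ hts
  have h2 := hs.2
  simp only at h1
  linarith

/-- The height of the free boundary over `z`. -/
private noncomputable def gpG (u : E3 → ℝ) (z : EuclideanSpace ℝ (Fin 2)) : ℝ :=
  sSup {t | |t| ≤ ‖z‖ / 10 ∧ u (gpE z t) = 0}

private lemma gp_spec (H : GpD O u a b) {z : EuclideanSpace ℝ (Fin 2)} (hz : z ∈ gpS a b) :
    |gpG u z| ≤ ‖z‖ / 999 ∧ u (gpE z (gpG u z)) = 0 ∧
      (∀ t, |t| ≤ ‖z‖ / 10 → gpG u z < t → 0 < u (gpE z t)) ∧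
      (∀ t, |t| ≤ ‖z‖ / 10 → t ≤ gpG u z → u (gpE z t) = 0) := by
  have hz0 : 0 < ‖z‖ := H.ha.trans hz.1
  set T : Set ℝ := {t | |t| ≤ ‖z‖ / 10 ∧ u (gpE z t) = 0} with hT
  have hTc : IsCompact T := by
    have h1 : T = Icc (-(‖z‖ / 10)) (‖z‖ / 10) ∩ (fun s : ℝ => u (gpE z s)) ⁻¹' {0} := by
      ext s
      simp [hT, abs_le]
    rw [h1]
    exact isCompact_Icc.of_isClosed_subset ((gp_contOn H hz).preimage_isClosed_of_isClosed
      isClosed_Icc isClosed_singleton) inter_subset_left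
  have hTne : T.Nonempty := ⟨-(‖z‖ / 10), by rw [abs_neg, abs_of_nonneg (by positivity)],
    gp_zero H hz (by rw [abs_neg, abs_of_nonneg (by positivity)]) (by linarith)⟩
  have hs : gpG u z ∈ T := hTc.sSup_mem hTne
  have h3 : ∀ t, |t| ≤ ‖z‖ / 10 → gpG u z < t → 0 < u (gpE z t) := by
    intro t ht hlt
    rcases (H.h.nonneg _ (gp_memO H hz ht)).lt_or_eq with h1 | h1
    · exact h1
    · exact absurd (le_csSup hTc.bddAbove ⟨ht, h1.symm⟩) (not_le.2 hlt)
  have h4 : ∀ t, |t| ≤ ‖z‖ / 10 → t ≤ gpG u z → u (gpE z t) = 0 := by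
    intro t ht hle
    rcases (H.h.nonneg _ (gp_memO H hz ht)).lt_or_eq with h1 | h1
    · have := gp_mono H hz ht hs.1 hle h1
      rw [hs.2] at this
      exact absurd this (lt_irrefl _)
    · exact h1.symm
  refine ⟨?_, hs.2, h3, h4⟩
  rw [abs_le]
  constructor
  · by_contra hcon
    push Not at hcon
    have hlow := (abs_le.1 hs.1).1
    have ht : |(gpG u z - ‖z‖ / 999) / 2| ≤ ‖z‖ / 10 := by
      rw [abs_le]
      constructor <;> linarith
    have h5 := h3 _ ht (by linarith)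
    have h6 := gp_zero H hz ht (by linarith)
    linarith
  · by_contra hcon
    push Not at hcon
    have h5 := gp_pos H hz hs.1 hcon
    rw [hs.2] at h5
    exact lt_irrefl _ h5

/-- At a free boundary point the function is positive just above. -/
private lemma gp_above (H : GpD O u a b) {z : EuclideanSpace ℝ (Fin 2)} (hz : z ∈ gpS a b)
    {t : ℝ} (ht : |t| ≤ ‖z‖ / 10) (hF : FB u (gpE z t)) :
    ∀ᶠ s in 𝓝[>] t, 0 < u (gpE z s) := by
  have hO := gp_memO H hz ht
  obtain ⟨r, hr, U, hrO, hU, h1, h2, h3⟩ := local_struct H.h hO hF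
  set p := gpE z t with hp
  have hpb : p ∈ ball p r := mem_ball_self hr
  have hUc : ContinuousAt U p := (hU.continuousOn.continuousAt (ball_mem_nhds p hr))
  have hU0 : U p = 0 := by
    have h4 := h1 p hpb
    rw [hF.1] at h4
    have h5 : U p ≤ 0 := by
      rw [h4]
      exact le_max_left _ _
    rcases h5.lt_or_eq with h6 | h6
    · exfalso
      have h7 : ∀ᶠ x in 𝓝 p, U x < 0 := hUc.eventually (gt_mem_nhds h6)
      have h8 : ∀ᶠ x in 𝓝 p, ¬ 0 < u x := by
        filter_upwards [h7, ball_mem_nhds p hr] with x hx hxb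
        rw [h1 x hxb, max_eq_right hx.le]
        exact lt_irrefl _
      have h9 := mem_closure_iff_frequently.1 hF.2
      exact h9 h8
    · exact h6
  have hUd : DifferentiableAt ℝ U p :=
    (hU.contDiffAt (ball_mem_nhds p hr)).differentiableAt (by norm_num)
  have hg := hUd.hasGradientAt
  rw [← (h2 p hpb hU0.ge).2, hasGradientAt_iff_hasFDerivAt] at hg
  have hd := hg.comp_hasDerivAt t (gpE_hasDerivAt z t)
  rw [toDual_apply_apply, gp_inner_e3] at hd
  obtain ⟨k1, k2⟩ := gp_memK H hz ht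
  have hnu := (gp_near (H.hnu _ hF.2 k1.le k2.le)).1
  have hslope := (hasDerivAt_iff_tendsto_slope.1 hd).mono_left
    (nhdsWithin_mono t (fun s (hs : t < s) => (ne_of_gt hs : s ≠ t)))
  have hpos : ∀ᶠ s in 𝓝[>] t, 0 < slope (U ∘ fun t : ℝ => gpE z t) t s :=
    hslope.eventually (lt_mem_nhds (by linarith))
  have hball : ∀ᶠ s in 𝓝[>] t, gpE z s ∈ ball p r :=
    (((gp_line z).continuousAt (x := t)).eventually (ball_mem_nhds p hr)).filter_mono
      nhdsWithin_le_nhds
  filter_upwards [hpos, hball, self_mem_nhdsWithin] with s hs hsb hts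
  have hts' : t < s := hts
  rw [slope_def_field] at hs
  simp only [Function.comp] at hs
  rw [← hp, hU0, sub_zero] at hs
  have h10 : 0 < U (gpE z s) := by
    have := mul_pos hs (sub_pos.2 hts')
    rwa [div_mul_cancel₀ _ (sub_pos.2 hts').ne'] at this
  rw [h1 _ hsb]
  exact lt_max_of_lt_left h10

private lemma gp_FB_iff (H : GpD O u a b) {z : EuclideanSpace ℝ (Fin 2)} (hz : z ∈ gpS a b)
    {t : ℝ} (ht : |t| ≤ ‖z‖ / 10) : FB u (gpE z t) ↔ t = gpG u z := by
  obtain ⟨h1, h2, h3, h4⟩ := gp_spec H hz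
  have hz0 : 0 < ‖z‖ := H.ha.trans hz.1
  constructor
  · intro hF
    rcases lt_trichotomy t (gpG u z) with hlt | heq | hgt
    · exfalso
      have h5 := gp_above H hz ht hF
      have h6 : ∀ᶠ s in 𝓝[>] t, s < gpG u z :=
        (gt_mem_nhds hlt : ∀ᶠ s in 𝓝 t, s < gpG u z).filter_mono nhdsWithin_le_nhds
      obtain ⟨s, hs1, hs2, hs3⟩ := (h5.and (h6.and self_mem_nhdsWithin)).exists
      have hs4 : t < s := hs3
      have h7 : |s| ≤ ‖z‖ / 10 := by
        rw [abs_le] at ht h1 ⊢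
        constructor
        · linarith
        · linarith
      rw [h4 s h7 hs2.le] at hs1
      exact lt_irrefl _ hs1
    · exact heq
    · exfalso
      have h5 := h3 t ht hgt
      rw [hF.1] at h5
      exact lt_irrefl _ h5
  · rintro rfl
    refine ⟨h2, ?_⟩
    have h5 : Tendsto (fun s : ℝ => gpE z s) (𝓝[>] (gpG u z)) (𝓝 (gpE z (gpG u z))) :=
      ((gp_line z).tendsto _).mono_left nhdsWithin_le_nhds
    refine mem_closure_of_tendsto h5 ?_
    have h6 : gpG u z < ‖z‖ / 10 := by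
      have := (abs_le.1 h1).2
      linarith
    have h7 : ∀ᶠ s in 𝓝[>] (gpG u z), s < ‖z‖ / 10 :=
      (gt_mem_nhds h6 : ∀ᶠ s in 𝓝 (gpG u z), s < ‖z‖ / 10).filter_mono nhdsWithin_le_nhds
    filter_upwards [h7, self_mem_nhdsWithin] with s hs1 hs2
    have hs3 : gpG u z < s := hs2
    refine h3 s ?_ hs3
    rw [abs_le] at h1 ⊢
    constructor <;> linarith

private lemma gp_continuousAt (H : GpD O u a b) {z : EuclideanSpace ℝ (Fin 2)}
    (hz : z ∈ gpS a b) : ContinuousAt (gpG u) z := by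
  obtain ⟨h1, h2, h3, h4⟩ := gp_spec H hz
  have hz0 : 0 < ‖z‖ := H.ha.trans hz.1
  have hS : ∀ᶠ y in 𝓝 z, y ∈ gpS a b := (gpS_open a b).mem_nhds hz
  have hin : ∀ t : ℝ, |t| < ‖z‖ / 10 → ∀ᶠ y in 𝓝 z, |t| < ‖y‖ / 10 := by
    intro t ht
    have : Continuous fun y : EuclideanSpace ℝ (Fin 2) => ‖y‖ / 10 := continuous_norm.div_const _
    exact this.continuousAt.eventually (lt_mem_nhds ht)
  have hvert : ∀ t : ℝ, ContinuousAt (fun y : EuclideanSpace ℝ (Fin 2) => gpE y t) z := fun t =>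
    (gpE_cont.comp (continuous_id.prodMk continuous_const)).continuousAt
  refine tendsto_order.2 ⟨fun c hc => ?_, fun c hc => ?_⟩
  · -- lower bound
    have hm : max c (-(‖z‖ / 20)) < gpG u z := by
      refine max_lt hc ?_
      have := (abs_le.1 h1).1
      linarith
    obtain ⟨t, ht1, ht2⟩ := exists_between hm
    have htabs : |t| < ‖z‖ / 10 := by
      have k1 := (max_lt_iff.1 ht1).2
      have k2 := (abs_le.1 h1).2
      rw [abs_lt]
      constructor <;> linarith
    have hnF : ¬ FB u (gpE z t) := by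
      rw [gp_FB_iff H hz htabs.le]
      exact ht2.ne
    have hu0 := h4 t htabs.le ht2.le
    have hncl : gpE z t ∉ closure {x | 0 < u x} := fun hcl => hnF ⟨hu0, hcl⟩
    have hev : ∀ᶠ x in 𝓝 (gpE z t), x ∉ closure {x | 0 < u x} :=
      isClosed_closure.isOpen_compl.mem_nhds hncl
    filter_upwards [(hvert t).eventually hev, hin t htabs, hS] with y hy1 hy2 hy3
    have hc' : c < t := (max_lt_iff.1 ht1).1
    by_contra hcon
    push Not at hcon
    have := (gp_spec H hy3).2.2.1 t hy2.le (lt_of_le_of_lt hcon hc')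
    exact hy1 (subset_closure this)
  · -- upper bound
    have hm : gpG u z < min c (‖z‖ / 20) := by
      refine lt_min hc ?_
      have := (abs_le.1 h1).2
      linarith
    obtain ⟨t, ht1, ht2⟩ := exists_between hm
    have htabs : |t| < ‖z‖ / 10 := by
      have k1 := (lt_min_iff.1 ht2).2
      have k2 := (abs_le.1 h1).1
      rw [abs_lt]
      constructor <;> linarith
    have hpos := h3 t htabs.le ht1
    have hO := gp_memO H hz htabs.le
    have huc : ContinuousAt u (gpE z t) := H.h.cont.continuousAt (H.h.isOpen.mem_nhds hO)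
    have hev : ∀ᶠ x in 𝓝 (gpE z t), 0 < u x := huc.eventually (lt_mem_nhds hpos)
    filter_upwards [(hvert t).eventually hev, hin t htabs, hS] with y hy1 hy2 hy3
    have hc' : t < c := (lt_min_iff.1 ht2).1
    by_contra hcon
    push Not at hcon
    have := (gp_spec H hy3).2.2.2 t hy2.le (hc'.le.trans hcon)
    rw [this] at hy1
    exact lt_irrefl _ hy1

/-- The derivative of the graph. -/
private noncomputable def gpL (v : E3) : EuclideanSpace ℝ (Fin 2) →L[ℝ] ℝ :=
  (-(1 / v 2)) • innerSL ℝ (gpH v)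

private lemma gpL_apply (v : E3) (w : EuclideanSpace ℝ (Fin 2)) :
    gpL v w = -(⟪gpH v, w⟫ / v 2) := by
  unfold gpL
  change -(1 / v 2) * ⟪gpH v, w⟫ = _
  ring

private lemma gpL_norm {v : E3} (h : ‖v - e3‖ ≤ 1 / 1000) : ‖gpL v‖ ≤ 1 / 999 := by
  obtain ⟨h1, h2⟩ := gp_near h
  refine ContinuousLinearMap.opNorm_le_bound _ (by norm_num) fun w => ?_
  rw [gpL_apply, norm_neg, norm_div, Real.norm_eq_abs, Real.norm_eq_abs,
    abs_of_pos (by linarith : 0 < v 2), div_le_iff₀ (by linarith)]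
  have h3 := abs_real_inner_le_norm (gpH v) w
  have h4 : ‖gpH v‖ * ‖w‖ ≤ 1 / 1000 * ‖w‖ := mul_le_mul_of_nonneg_right h2 (norm_nonneg _)
  have h5 : 1 / 999 * ‖w‖ * (999 / 1000) ≤ 1 / 999 * ‖w‖ * v 2 :=
    mul_le_mul_of_nonneg_left h1 (by positivity)
  linarith

private lemma gp_FB (H : GpD O u a b) {z : EuclideanSpace ℝ (Fin 2)} (hz : z ∈ gpS a b) :
    |gpG u z| ≤ ‖z‖ / 10 ∧ FB u (gpE z (gpG u z)) := by
  have hz0 : 0 < ‖z‖ := H.ha.trans hz.1
  have h1 : |gpG u z| ≤ ‖z‖ / 10 := (gp_spec H hz).1.trans (by linarith)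
  exact ⟨h1, (gp_FB_iff H hz h1).2 rfl⟩

private lemma gp_hasFDerivAt (H : GpD O u a b) {z : EuclideanSpace ℝ (Fin 2)}
    (hz : z ∈ gpS a b) :
    HasFDerivAt (gpG u) (gpL (nu u (gpE z (gpG u z)))) z := by
  obtain ⟨hab, hF⟩ := gp_FB H hz
  have hO := gp_memO H hz hab
  obtain ⟨r, hr, U, hrO, hU, h1, h2, h3⟩ := local_struct H.h hO hF
  set p := gpE z (gpG u z) with hp
  set v := nu u p with hv
  have hpb : p ∈ ball p r := mem_ball_self hr
  have hU0 : ∀ x ∈ ball p r, FB u x → U x = 0 := by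
    intro x hx hFx
    have hUc : ContinuousAt U x := hU.continuousOn.continuousAt (isOpen_ball.mem_nhds hx)
    have h4 := h1 x hx
    rw [hFx.1] at h4
    have h5 : U x ≤ 0 := by
      rw [h4]
      exact le_max_left _ _
    rcases h5.lt_or_eq with h6 | h6
    · exfalso
      have h7 : ∀ᶠ y in 𝓝 x, U y < 0 := hUc.eventually (gt_mem_nhds h6)
      have h8 : ∀ᶠ y in 𝓝 x, ¬ 0 < u y := by
        filter_upwards [h7, isOpen_ball.mem_nhds hx] with y hy hyb
        rw [h1 y hyb, max_eq_right hy.le]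
        exact lt_irrefl _
      exact (mem_closure_iff_frequently.1 hFx.2) h8
    · exact h6
  have hUp : U p = 0 := hU0 p hpb hF
  have hUd : DifferentiableAt ℝ U p :=
    (hU.contDiffAt (ball_mem_nhds p hr)).differentiableAt (by norm_num)
  have hg := hUd.hasGradientAt
  rw [← (h2 p hpb hUp.ge).2, hasGradientAt_iff_hasFDerivAt, ← hv] at hg
  obtain ⟨k1, k2⟩ := gp_memK H hz hab
  have hnear : ‖v - e3‖ ≤ 1 / 1000 := H.hnu _ hF.2 k1.le k2.le
  obtain ⟨hv2, hvH⟩ := gp_near hnear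
  have hLn := gpL_norm hnear
  have hcont := gp_continuousAt H hz
  have hcurve : ContinuousAt (fun y => gpE y (gpG u y)) z :=
    gpE_cont.continuousAt.comp (continuousAt_id.prodMk hcont)
  rw [hasFDerivAt_iff_isLittleO, Asymptotics.isLittleO_iff]
  intro c hc
  have hg' := hasFDerivAt_iff_isLittleO.1 hg
  rw [Asymptotics.isLittleO_iff] at hg'
  set ε := min (1 / 4) (c / 8) with hε
  have hε0 : 0 < ε := by positivity
  have hε1 : ε ≤ 1 / 4 := min_le_left _ _
  have hε2 : ε ≤ c / 8 := min_le_right _ _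
  have hev := hcurve.eventually (hg' hε0)
  have hball : ∀ᶠ y in 𝓝 z, gpE y (gpG u y) ∈ ball p r := hcurve.eventually (ball_mem_nhds p hr)
  filter_upwards [hev, hball, (gpS_open a b).mem_nhds hz] with y hy1 hy2 hy3
  rw [hU0 _ hy2 (gp_FB H hy3).2, hUp, hp, gpE_sub, toDual_apply_apply, gpE_inner, sub_zero,
    zero_sub, norm_neg] at hy1
  set w := y - z with hw
  set τ := gpG u y - gpG u z with hτ
  have hE := gpE_le w τ
  have hv20 : (0 : ℝ) < v 2 := by linarith
  -- the inequality for `τ`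
  have hmain : |τ - gpL v w| ≤ 2 * ε * (‖w‖ + |τ|) := by
    have h5 : τ - gpL v w = (⟪gpH v, w⟫ + v 2 * τ) / v 2 := by
      rw [gpL_apply]
      field_simp
      ring
    rw [h5, abs_div, abs_of_pos hv20, div_le_iff₀ hv20]
    rw [Real.norm_eq_abs] at hy1
    calc |⟪gpH v, w⟫ + v 2 * τ| ≤ ε * ‖gpE w τ‖ := hy1
      _ ≤ ε * (‖w‖ + |τ|) := mul_le_mul_of_nonneg_left hE hε0.le
      _ ≤ 2 * ε * (‖w‖ + |τ|) * v 2 := by
        have h6 : 0 ≤ ε * (‖w‖ + |τ|) := by positivity
        nlinarith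
  have hLw : |gpL v w| ≤ ‖w‖ := by
    have := (gpL v).le_opNorm w
    rw [Real.norm_eq_abs] at this
    nlinarith [norm_nonneg w]
  have hτ' : |τ| ≤ |τ - gpL v w| + |gpL v w| := by
    have := abs_add_le (τ - gpL v w) (gpL v w)
    rwa [sub_add_cancel] at this
  rw [Real.norm_eq_abs]
  have h7 : |τ - gpL v w| ≤ 2 * ε * (2 * ‖w‖ + |τ - gpL v w|) :=
    hmain.trans (mul_le_mul_of_nonneg_left (by linarith) (by positivity))
  have h8 : 2 * ε * |τ - gpL v w| ≤ 1 / 2 * |τ - gpL v w| :=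
    mul_le_mul_of_nonneg_right (by linarith) (abs_nonneg _)
  have h9 : |τ - gpL v w| ≤ 8 * ε * ‖w‖ := by nlinarith
  calc |τ - gpL v w| ≤ 8 * ε * ‖w‖ := h9
    _ ≤ c * ‖w‖ := mul_le_mul_of_nonneg_right (by linarith) (norm_nonneg _)

private lemma gp_contDiffOn (H : GpD O u a b) : ContDiffOn ℝ 1 (gpG u) (gpS a b) := by
  have h1 : (1 : WithTop ℕ∞) = 0 + 1 := by norm_num
  rw [h1, contDiffOn_succ_iff_fderiv_of_isOpen (gpS_open a b)]
  refine ⟨fun z hz => (gp_hasFDerivAt H hz).differentiableAt.differentiableWithinAt,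
    fun h => absurd h (by simp), ?_⟩
  rw [contDiffOn_zero]
  have h2 : ContinuousOn (fun z => gpL (nu u (gpE z (gpG u z)))) (gpS a b) := by
    have hnu : ContinuousOn (fun z => nu u (gpE z (gpG u z))) (gpS a b) := by
      refine (nu_continuousOn H.h).comp ?_ ?_
      · intro z hz
        exact (gpE_cont.continuousAt.comp (continuousAt_id.prodMk
          (gp_continuousAt H hz))).continuousWithinAt
      · intro z hz
        obtain ⟨h3, h4⟩ := gp_FB H hz
        exact ⟨gp_memO H hz h3, h4.2⟩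
    have hc1 : ContinuousOn (fun z => -(1 / (nu u (gpE z (gpG u z))) 2)) (gpS a b) := by
      refine ContinuousOn.neg (ContinuousOn.div continuousOn_const ?_ ?_)
      · exact (EuclideanSpace.proj (2 : Fin 3) : E3 →L[ℝ] ℝ).continuous.comp_continuousOn hnu
      · intro z hz
        obtain ⟨h3, h4⟩ := gp_FB H hz
        obtain ⟨k1, k2⟩ := gp_memK H hz h3
        have := (gp_near (H.hnu _ h4.2 k1.le k2.le)).1
        linarith
    have hH : Continuous (gpH : E3 → EuclideanSpace ℝ (Fin 2)) := by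
      rw [Metric.continuous_iff]
      intro x ε hε
      refine ⟨ε, hε, fun y hy => ?_⟩
      have h5 : gpH y - gpH x = gpH (y - x) := by
        ext i
        fin_cases i <;> rfl
      rw [dist_eq_norm, h5]
      rw [dist_eq_norm] at hy
      exact (gpH_le _).trans_lt hy
    have hc2 : ContinuousOn (fun z => (innerSL ℝ (gpH (nu u (gpE z (gpG u z)))) :
        EuclideanSpace ℝ (Fin 2) →L[ℝ] ℝ)) (gpS a b) :=
      (innerSL ℝ).continuous.comp_continuousOn (hH.comp_continuousOn hnu)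
    exact hc1.smul hc2
  exact h2.congr fun z hz => (gp_hasFDerivAt H hz).fderiv

end

/-! ### The cut-off -/

private noncomputable def gpq (t : ℝ) : ℝ := (max t 0) ^ 2

private lemma gpq_hasDerivAt (t : ℝ) : HasDerivAt gpq (2 * max t 0) t := by
  rcases lt_trichotomy t 0 with h | h | h
  · have h1 : gpq =ᶠ[𝓝 t] fun _ => 0 := by
      filter_upwards [gt_mem_nhds h] with x hx
      simp [gpq, max_eq_right (le_of_lt hx)]
    rw [max_eq_right h.le, mul_zero]
    exact (hasDerivAt_const t (0 : ℝ)).congr_of_eventuallyEq h1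
  · subst h
    rw [max_self, mul_zero, hasDerivAt_iff_isLittleO, Asymptotics.isLittleO_iff]
    intro c hc
    filter_upwards [Metric.ball_mem_nhds (0 : ℝ) hc] with x hx
    rw [mem_ball, dist_zero_right, Real.norm_eq_abs] at hx
    simp only [gpq, max_self, smul_zero, sub_zero, Real.norm_eq_abs]
    have h1 : |max x 0| ≤ |x| := by
      rcases le_total x 0 with h | h
      · rw [max_eq_right h]; simp
      · rw [max_eq_left h]
    rw [zero_pow (by norm_num), sub_zero, abs_pow]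
    calc |max x 0| ^ 2 ≤ |x| ^ 2 := pow_le_pow_left₀ (abs_nonneg _) h1 2
      _ = |x| * |x| := sq _
      _ ≤ c * |x| := mul_le_mul_of_nonneg_right hx.le (abs_nonneg _)
  · have h1 : gpq =ᶠ[𝓝 t] fun x => x ^ 2 := by
      filter_upwards [lt_mem_nhds h] with x hx
      simp [gpq, max_eq_left (le_of_lt hx)]
    rw [max_eq_left h.le]
    have h2 := hasDerivAt_pow 2 t
    norm_num at h2
    exact h2.congr_of_eventuallyEq h1

/-- The one-dimensional step. -/
private noncomputable def gps (t : ℝ) : ℝ := 2 * gpq t - 4 * gpq (t - 1 / 2) + 2 * gpq (t - 1)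

private noncomputable def gps' (t : ℝ) : ℝ :=
  4 * max t 0 - 8 * max (t - 1 / 2) 0 + 4 * max (t - 1) 0

private lemma gps_hasDerivAt (t : ℝ) : HasDerivAt gps (gps' t) t := by
  have h1 := (gpq_hasDerivAt t).const_mul 2
  have h2 := ((gpq_hasDerivAt (t - 1 / 2)).comp_sub_const t (1 / 2)).const_mul 4
  have h3 := ((gpq_hasDerivAt (t - 1)).comp_sub_const t 1).const_mul 2
  have h4 := (h1.sub h2).add h3
  refine h4.congr_deriv ?_
  unfold gps'
  ring

private lemma gps_zero {t : ℝ} (h : t ≤ 0) : gps t = 0 ∧ gps' t = 0 := by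
  unfold gps gps' gpq
  rw [max_eq_right h, max_eq_right (by linarith), max_eq_right (by linarith)]
  norm_num

private lemma gps_one {t : ℝ} (h : 1 ≤ t) : gps t = 1 ∧ gps' t = 0 := by
  unfold gps gps' gpq
  rw [max_eq_left (by linarith), max_eq_left (by linarith), max_eq_left (by linarith)]
  constructor <;> ring

private lemma gps_bound (t : ℝ) : 0 ≤ gps t ∧ gps t ≤ 1 ∧ 0 ≤ gps' t ∧ gps' t ≤ 2 := by
  rcases le_total t 0 with h | h
  · obtain ⟨h1, h2⟩ := gps_zero h
    rw [h1, h2]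
    norm_num
  rcases le_total 1 t with h' | h'
  · obtain ⟨h1, h2⟩ := gps_one h'
    rw [h1, h2]
    norm_num
  unfold gps gps' gpq
  rw [max_eq_left h, max_eq_right (by linarith : t - 1 ≤ 0)]
  rcases le_total t (1 / 2) with h2 | h2
  · rw [max_eq_right (by linarith)]
    refine ⟨by nlinarith, by nlinarith, by linarith, by linarith⟩
  · rw [max_eq_left (by linarith)]
    refine ⟨by nlinarith, by nlinarith, by linarith, by linarith⟩

private lemma gps_contDiff : ContDiff ℝ 1 gps := by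
  rw [contDiff_one_iff_deriv]
  refine ⟨fun t => (gps_hasDerivAt t).differentiableAt, ?_⟩
  have h1 : deriv gps = gps' := by
    funext t
    exact (gps_hasDerivAt t).deriv
  rw [h1]
  unfold gps'
  fun_prop

/-- The radial profile. -/
private noncomputable def gpr (a b t : ℝ) : ℝ := gps (t / a - 2) * gps (3 - 6 * t / b)

private noncomputable def gpr' (a b t : ℝ) : ℝ :=
  gps' (t / a - 2) * (1 / a) * gps (3 - 6 * t / b) +
    gps (t / a - 2) * (gps' (3 - 6 * t / b) * (-(6 / b)))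

private lemma gpr_hasDerivAt (a b t : ℝ) : HasDerivAt (gpr a b) (gpr' a b t) t := by
  have h1 : HasDerivAt (fun t : ℝ => t / a - 2) (1 / a) t :=
    ((hasDerivAt_id t).div_const a).sub_const 2
  have h2 : HasDerivAt (fun t : ℝ => 3 - 6 * t / b) (-(6 / b)) t := by
    have h3 : HasDerivAt (fun t : ℝ => 6 * t / b) (6 * 1 / b) t :=
      ((hasDerivAt_id t).const_mul 6).div_const b
    rw [mul_one] at h3
    exact h3.const_sub 3
  exact ((gps_hasDerivAt _).comp t h1).mul ((gps_hasDerivAt _).comp t h2)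

private lemma gpr_contDiff (a b : ℝ) : ContDiff ℝ 1 (gpr a b) := by
  unfold gpr
  refine (gps_contDiff.comp ?_).mul (gps_contDiff.comp ?_)
  · fun_prop
  · fun_prop

private lemma gpr_bound {a b t : ℝ} (ha : 0 < a) (hab : 16 * a ≤ b) (ht : 0 ≤ t) :
    0 ≤ gpr a b t ∧ gpr a b t ≤ 1 ∧ |gpr' a b t| * t ≤ 6 := by
  have hb : 0 < b := by linarith
  obtain ⟨h1, h2, h3, h4⟩ := gps_bound (t / a - 2)
  obtain ⟨k1, k2, k3, k4⟩ := gps_bound (3 - 6 * t / b)
  refine ⟨mul_nonneg h1 k1, mul_le_one₀ h2 k1 k2, ?_⟩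
  rcases le_total t (3 * a) with h | h
  · have h5 : 1 ≤ 3 - 6 * t / b := by
      have : 6 * t / b ≤ 2 := by
        rw [div_le_iff₀ hb]
        linarith
      linarith
    unfold gpr'
    rw [(gps_one h5).1, (gps_one h5).2, zero_mul, mul_zero, add_zero, mul_one,
      abs_of_nonneg (by positivity)]
    calc gps' (t / a - 2) * (1 / a) * t ≤ 2 * (1 / a) * (3 * a) := by
          apply mul_le_mul (mul_le_mul_of_nonneg_right h4 (by positivity)) h ht (by positivity)
      _ = 6 := by field_simp; norm_num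
  · have h5 : 1 ≤ t / a - 2 := by
      have : 3 ≤ t / a := by
        rw [le_div_iff₀ ha]
        linarith
      linarith
    unfold gpr'
    rw [(gps_one h5).1, (gps_one h5).2, zero_mul, zero_mul, zero_add, one_mul, abs_mul, abs_neg,
      abs_of_nonneg k3, abs_of_nonneg (by positivity)]
    rcases le_total t (b / 2) with h6 | h6
    · calc gps' (3 - 6 * t / b) * (6 / b) * t ≤ 2 * (6 / b) * (b / 2) := by
            apply mul_le_mul (mul_le_mul_of_nonneg_right k4 (by positivity)) h6 ht (by positivity)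
        _ = 6 := by field_simp
    · have h7 : 3 - 6 * t / b ≤ 0 := by
        have : 3 ≤ 6 * t / b := by
          rw [le_div_iff₀ hb]
          linarith
        linarith
      rw [(gps_zero h7).2]
      norm_num

private lemma gpr_zero {a b t : ℝ} (ha : 0 < a) (hb : 0 < b) (h : t ≤ 2 * a ∨ b / 2 ≤ t) :
    gpr a b t = 0 := by
  unfold gpr
  rcases h with h | h
  · have h1 : t / a - 2 ≤ 0 := by
      have : t / a ≤ 2 := by
        rw [div_le_iff₀ ha]
        linarith
      linarith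
    rw [(gps_zero h1).1, zero_mul]
  · have h1 : 3 - 6 * t / b ≤ 0 := by
      have : 3 ≤ 6 * t / b := by
        rw [le_div_iff₀ hb]
        linarith
      linarith
    rw [(gps_zero h1).1, mul_zero]

private lemma gpr_one {a b t : ℝ} (ha : 0 < a) (hb : 0 < b) (h : 3 * a ≤ t) (h' : t ≤ b / 3) :
    gpr a b t = 1 := by
  unfold gpr
  have h1 : 1 ≤ t / a - 2 := by
    have : 3 ≤ t / a := by
      rw [le_div_iff₀ ha]
      linarith
    linarith
  have h2 : 1 ≤ 3 - 6 * t / b := by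
    have : 6 * t / b ≤ 2 := by
      rw [div_le_iff₀ hb]
      linarith
    linarith
  rw [(gps_one h1).1, (gps_one h2).1, one_mul]

theorem graph_of_regular {O : Set E3} {u : E3 → ℝ} (h : OnePhase O u) {a b : ℝ} (ha : 0 < a)
    (hO : {x : E3 | a ≤ ‖x‖ ∧ ‖x‖ ≤ b} ⊆ O)
    (hnu : ∀ x ∈ closure {x | 0 < u x}, a ≤ ‖x‖ → ‖x‖ ≤ b → ‖nu u x - e3‖ ≤ 1 / 1000)
    (hflat : ∀ x : E3, a ≤ ‖x‖ → ‖x‖ ≤ b → (1 / 1000 * ‖x‖ < ⟪x, e3⟫ → 0 < u x) ∧
      (⟪x, e3⟫ < -(1 / 1000 * ‖x‖) → u x = 0)) :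
    ∃ g : EuclideanSpace ℝ (Fin 2) → ℝ, ContDiff ℝ 1 g ∧ (∀ z, ‖fderiv ℝ g z‖ ≤ 1 / 100) ∧
      ∀ x : E3, 4 * a ≤ ‖x‖ → ‖x‖ ≤ b / 4 → (FB u x ↔ x 2 = g !₂[x 0, x 1]) := by
  rcases lt_or_ge b (16 * a) with hab | hab
  · refine ⟨fun _ => 0, contDiff_const, fun z => ?_, fun x h1 h2 => ?_⟩
    · rw [fderiv_fun_const]
      simp
    · exfalso
      linarith
  have H : GpD O u a b := ⟨h, ha, hab, hO, hnu, hflat⟩
  have hb : 0 < b := by linarith
  set g : EuclideanSpace ℝ (Fin 2) → ℝ := fun z => gpr a b ‖z‖ * gpG u z with hg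
  -- outside the support
  have hout : ∀ z : EuclideanSpace ℝ (Fin 2), z ∉ gpS a b → g =ᶠ[𝓝 z] fun _ => 0 := by
    intro z hz
    have h1 : ‖z‖ < 2 * a ∨ b / 2 < ‖z‖ := by
      by_contra hcon
      push Not at hcon
      exact hz ⟨by linarith [hcon.1], by linarith [hcon.2]⟩
    rcases h1 with h1 | h1
    · filter_upwards [continuous_norm.continuousAt.eventually (gt_mem_nhds h1)] with y hy
      simp only [hg]
      rw [gpr_zero ha hb (Or.inl (le_of_lt hy)), zero_mul]
    · filter_upwards [continuous_norm.continuousAt.eventually (lt_mem_nhds h1)] with y hy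
      simp only [hg]
      rw [gpr_zero ha hb (Or.inr (le_of_lt hy)), zero_mul]
  refine ⟨g, ?_, ?_, ?_⟩
  · rw [contDiff_iff_contDiffAt]
    intro z
    by_cases hz : z ∈ gpS a b
    · have hz0 : z ≠ 0 := by
        rintro rfl
        have := hz.1
        rw [norm_zero] at this
        linarith
      have h1 : ContDiffAt ℝ 1 (fun z : EuclideanSpace ℝ (Fin 2) => gpr a b ‖z‖) z :=
        (gpr_contDiff a b).contDiffAt.comp z (contDiffAt_norm ℝ hz0)
      exact h1.mul ((gp_contDiffOn H).contDiffAt ((gpS_open a b).mem_nhds hz))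
    · exact contDiffAt_const.congr_of_eventuallyEq (hout z hz)
  · intro z
    by_cases hz : z ∈ gpS a b
    · have hz0 : z ≠ 0 := by
        rintro rfl
        have := hz.1
        rw [norm_zero] at this
        linarith
      have hzn : 0 < ‖z‖ := norm_pos_iff.2 hz0
      have hnd : DifferentiableAt ℝ (fun z : EuclideanSpace ℝ (Fin 2) => ‖z‖) z :=
        (contDiffAt_norm (n := 1) ℝ hz0).differentiableAt (by norm_num)
      have h1 : HasFDerivAt (fun z : EuclideanSpace ℝ (Fin 2) => gpr a b ‖z‖)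
          (gpr' a b ‖z‖ • fderiv ℝ (fun z : EuclideanSpace ℝ (Fin 2) => ‖z‖) z) z :=
        (gpr_hasDerivAt a b ‖z‖).comp_hasFDerivAt z hnd.hasFDerivAt
      have h2 := h1.mul (gp_hasFDerivAt H hz)
      have h3 : HasFDerivAt g _ z := h2
      rw [h3.fderiv]
      obtain ⟨k1, k2, k3⟩ := gpr_bound ha hab hzn.le
      obtain ⟨m1, m2⟩ := gp_FB H hz
      obtain ⟨n1, n2⟩ := gp_memK H hz m1
      have h4 := gpL_norm (H.hnu _ m2.2 n1.le n2.le)
      have h5 := (gp_spec H hz).1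
      have h6 : ‖fderiv ℝ (fun z : EuclideanSpace ℝ (Fin 2) => ‖z‖) z‖ ≤ 1 := by
        have := norm_fderiv_le_of_lipschitz ℝ (x₀ := z)
          (lipschitzWith_one_norm (E := EuclideanSpace ℝ (Fin 2)))
        simpa using this
      have h7 : ‖gpr a b ‖z‖ • gpL (nu u (gpE z (gpG u z)))‖ ≤ 1 / 999 := by
        rw [norm_smul, Real.norm_eq_abs, abs_of_nonneg k1]
        calc gpr a b ‖z‖ * ‖gpL (nu u (gpE z (gpG u z)))‖ ≤ 1 * (1 / 999) :=
              mul_le_mul k2 h4 (norm_nonneg _) (by norm_num)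
          _ = 1 / 999 := one_mul _
      have h8 : ‖gpG u z • (gpr' a b ‖z‖ •
          fderiv ℝ (fun z : EuclideanSpace ℝ (Fin 2) => ‖z‖) z)‖ ≤ 6 / 999 := by
        rw [norm_smul, norm_smul, Real.norm_eq_abs, Real.norm_eq_abs]
        calc |gpG u z| * (|gpr' a b ‖z‖| *
              ‖fderiv ℝ (fun z : EuclideanSpace ℝ (Fin 2) => ‖z‖) z‖)
            ≤ ‖z‖ / 999 * (|gpr' a b ‖z‖| * 1) :=
              mul_le_mul h5 (mul_le_mul_of_nonneg_left h6 (abs_nonneg _)) (by positivity)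
                (by positivity)
          _ = |gpr' a b ‖z‖| * ‖z‖ / 999 := by ring
          _ ≤ 6 / 999 := by
              apply div_le_div_of_nonneg_right k3 (by norm_num)
      refine (norm_add_le _ _).trans ?_
      calc _ ≤ 1 / 999 + (6 / 999 : ℝ) := add_le_add h7 h8
        _ ≤ 1 / 100 := by norm_num
    · rw [(hout z hz).fderiv_eq, fderiv_fun_const]
      simp
  · intro x hx1 hx2
    have hxz : (!₂[x 0, x 1] : EuclideanSpace ℝ (Fin 2)) = gpH x := rfl
    rw [hxz]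
    have hnx := gp_norm_sq x
    have hx0 : 0 < ‖x‖ := by linarith
    -- if the height is small, everything is in the good region
    have key : |x 2| ≤ ‖x‖ / 100 → gpH x ∈ gpS a b ∧ |x 2| ≤ ‖gpH x‖ / 10 ∧
        g (gpH x) = gpG u (gpH x) := by
      intro h1
      have h2 : 99 / 100 * ‖x‖ ≤ ‖gpH x‖ := by
        have h3 : (x 2) ^ 2 ≤ (‖x‖ / 100) ^ 2 := sq_le_sq' (abs_le.1 h1).1 (abs_le.1 h1).2
        apply abs_le_of_sq_le_sq' _ (norm_nonneg _) |>.2
        nlinarith
      have h3 : ‖gpH x‖ ≤ ‖x‖ := gpH_le x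
      refine ⟨⟨by linarith, by linarith⟩, by linarith, ?_⟩
      simp only [hg]
      rw [gpr_one ha hb (by linarith) (by linarith), one_mul]
    constructor
    · intro hF
      have h1 : |x 2| ≤ ‖x‖ / 100 := by
        rw [abs_le]
        constructor
        · by_contra hcon
          push Not at hcon
          have hev : ∀ᶠ y in 𝓝 x, ¬ 0 < u y := by
            have c1 : ∀ᶠ y : E3 in 𝓝 x, a < ‖y‖ :=
              continuous_norm.continuousAt.eventually (lt_mem_nhds (by linarith))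
            have c2 : ∀ᶠ y : E3 in 𝓝 x, ‖y‖ < b :=
              continuous_norm.continuousAt.eventually (gt_mem_nhds (by linarith))
            have c3 : ∀ᶠ y : E3 in 𝓝 x, y 2 + ‖y‖ / 100 < 0 := by
              have c4 : Continuous fun y : E3 => y 2 + ‖y‖ / 100 :=
                ((EuclideanSpace.proj (2 : Fin 3) : E3 →L[ℝ] ℝ).continuous).add
                  (continuous_norm.div_const _)
              exact c4.continuousAt.eventually (gt_mem_nhds (by linarith))
            filter_upwards [c1, c2, c3] with y h1 h2 h3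
            have h4 := (hflat y h1.le h2.le).2 (by
              rw [gp_inner_e3]
              linarith)
            rw [h4]
            exact lt_irrefl _
          exact (mem_closure_iff_frequently.1 hF.2) hev
        · by_contra hcon
          push Not at hcon
          have h4 := (hflat x (by linarith) (by linarith)).1 (by
            rw [gp_inner_e3]
            linarith)
          rw [hF.1] at h4
          exact lt_irrefl _ h4
      obtain ⟨h2, h3, h4⟩ := key h1
      rw [h4]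
      rw [← gp_FB_iff H h2 h3, gpE_self]
      exact hF
    · intro hx
      have h1 : |g (gpH x)| ≤ ‖gpH x‖ / 999 := by
        by_cases hz : gpH x ∈ gpS a b
        · obtain ⟨k1, k2, k3⟩ := gpr_bound ha hab (norm_nonneg (gpH x))
          simp only [hg]
          rw [abs_mul, abs_of_nonneg k1]
          calc gpr a b ‖gpH x‖ * |gpG u (gpH x)| ≤ 1 * (‖gpH x‖ / 999) :=
                mul_le_mul k2 (gp_spec H hz).1 (abs_nonneg _) (by norm_num)
            _ = ‖gpH x‖ / 999 := one_mul _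
        · rw [(hout _ hz).self_of_nhds, abs_zero]
          positivity
      have h2 : |x 2| ≤ ‖x‖ / 100 := by
        rw [hx]
        have := gpH_le x
        linarith
      obtain ⟨h3, h4, h5⟩ := key h2
      rw [h5] at hx
      rw [← gp_FB_iff H h3 h4, gpE_self] at hx
      exact hx

end Pool.Agent.H32.Flat
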