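import Pool.Agent.H32.Flat.NL
import Pool.Agent.H32.Flat.Scale

/-!
# Module N4: induction over scales for the normals

`P(ρ)`, for `0 < ρ ≤ R₀/64`: for all `y, p` with `FB`, `|y - y₀| < R₀/2 - 16ρ`, `|p - y| < ρ`:
`‖nu p - nu y‖ ≤ 1/8`.
* base: `nu u` is uniformly continuous on the compact set `closedBall y₀ (3R₀/4) ∩ closure {0<u}`
  (`nu_continuousOn`), so `P(ρ)` holds for all small `ρ`.
* touching: let `FB u p`, `CloseAt u y ρ' e σ`, `ball p ρ ⊆ ball y ρ'`, `c = p + (ρ/2)e`, `d` the distance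
  from `c` to `{u = 0}` (in the closed ball; `d ≤ ρ/2` as `u p = 0`), `y''` a nearest zero.  By `touch`
  `nu u y'' = (c - y'')/d`; as `u y'' = 0`: `⟪y''-y,e⟫ ≤ σρ'`, as `FB u p`: `⟪p-y,e⟫ ≥ -σρ'`; so
  `⟪nu y'',e⟫ ≥ 1 - 4σρ'/ρ`, `|y''-p| ≤ ρ`.  (`d > 0` if `4σρ' < ρ`.)
* step `P(ρ) → P(2ρ)`, `2ρ ≤ R₀/64`: given `y`, take `e` with `CloseAt u y (16ρ) e σ`; for `FB` points
  `p ∈ ball y (8ρ)`: `P(ρ)` at `p` and touching in `ball p ρ` give `‖nu p - e‖ ≤ 1/8 + √(128σ)`, hence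
  `⟪nu p,e⟫ ≥ 3/4`; `nl` (rescaled, `sc u y (8ρ)`, with `η = 1/16`, `CloseAt u y (8ρ) e (2σ)`) gives
  `‖nu x - e‖ ≤ 1/16` for `x ∈ closure{0<u}`, `|x-y| ≤ 2ρ`.  Hence `P(2ρ)`.
  (every `ρ ≤ R₀/64` is `2^k ρ'` with `ρ'` in the base range.)
* conclusion: at `y, ρ, e` of the statement: for `FB` `p ∈ ball y (ρ/4)` use `P(ρ/16)` and touching in
  `ball p (ρ/16)`; then `nl` for `sc u y (ρ/4)` with `CloseAt u y (ρ/4) e (4σ)`.
-/

open Set Metric MeasureTheory Filter Topology InnerProductSpace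
open scoped Laplacian Gradient RealInnerProductSpace

namespace Pool.Agent.H32.Flat

theorem ScaleInd_closeAt_mono {u : E3 → ℝ} {y : E3} {ρ ρ' : ℝ} {e : E3} {σ σ' : ℝ}
    (hρ : ρ' ≤ ρ) (h : CloseAt u y ρ e σ) (hσ : σ * ρ ≤ σ' * ρ') : CloseAt u y ρ' e σ' := by
  intro x hx
  obtain ⟨h1, h2, h3⟩ := h x (ball_subset_ball hρ hx)
  exact ⟨h1.trans hσ, fun h4 => h2 (lt_of_le_of_lt hσ h4), fun h4 => h3 (lt_of_lt_of_le h4
    (neg_le_neg hσ))⟩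

/-- at free boundary points of a ball where `u` is close to a half-plane solution -/
theorem ScaleInd_FB_ge {u : E3 → ℝ} {y : E3} {ρ : ℝ} {e : E3} {σ : ℝ}
    (h : CloseAt u y ρ e σ) {p : E3} (hp : p ∈ closure {x | 0 < u x}) (hpb : p ∈ ball y ρ) :
    -(σ * ρ) ≤ ⟪p - y, e⟫ := by
  by_contra hcon
  push Not at hcon
  have hopen : IsOpen (ball y ρ ∩ {x : E3 | ⟪x - y, e⟫ < -(σ * ρ)}) :=
    isOpen_ball.inter (isOpen_lt (by fun_prop) continuous_const)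
  obtain ⟨x, ⟨hx1, hx2⟩, hx3⟩ := mem_closure_iff.1 hp _ hopen ⟨hpb, hcon⟩
  have h0 := (h x hx1).2.2 hx2
  have h1 : 0 < u x := hx3
  rw [h0] at h1
  exact lt_irrefl _ h1

/-- the touching lemma: near every free boundary point there is one with normal close to `e` -/
theorem ScaleInd_touch {O : Set E3} {u : E3 → ℝ} (h : OnePhase O u) {y p e : E3} {r σ : ℝ}
    (hr : 0 < r) (hσ : σ ≤ 1 / 16384) (he : ‖e‖ = 1) (hO : ball y (16 * r) ⊆ O)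
    (hcl : CloseAt u y (16 * r) e σ) (hF : FB u p) (hp : ball p r ⊆ ball y (16 * r)) :
    ∃ q : E3, FB u q ∧ ‖q - p‖ < r ∧ ‖nu u q - e‖ ≤ 1 / 8 := by
  set c : E3 := p + (r / 4) • e with hc
  have hcp : dist p c = r / 4 := by
    rw [hc, dist_eq_norm]
    have : p - (p + (r / 4) • e) = -((r / 4) • e) := by abel
    rw [this, norm_neg, norm_smul, he, mul_one, Real.norm_of_nonneg (by linarith)]
  have hsub : closedBall c (r / 4) ⊆ ball p r := by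
    intro x hx
    rw [mem_closedBall] at hx
    rw [mem_ball]
    calc dist x p ≤ dist x c + dist c p := dist_triangle _ _ _
      _ ≤ r / 4 + r / 4 := add_le_add hx (by rw [dist_comm, hcp])
      _ < r := by linarith
  have hsubO : closedBall c (r / 4) ⊆ O := fun x hx => hO (hp (hsub hx))
  have hpb : p ∈ ball y (16 * r) := hp (mem_ball_self hr)
  set Z : Set E3 := closedBall c (r / 4) ∩ {x | u x = 0} with hZ
  have hZc : IsCompact Z := by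
    have hcont : ContinuousOn u (closedBall c (r / 4)) := h.cont.mono hsubO
    have hclosed : IsClosed Z := by
      have := hcont.preimage_isClosed_of_isClosed isClosed_closedBall
        (isClosed_singleton (x := (0 : ℝ)))
      exact this
    exact (isCompact_closedBall c (r / 4)).of_isClosed_subset hclosed inter_subset_left
  have hpZ : p ∈ Z := ⟨by rw [mem_closedBall, hcp], hF.1⟩
  obtain ⟨q, hqZ, hqmin⟩ := hZc.exists_isMinOn ⟨p, hpZ⟩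
    (f := fun x => dist x c) (by fun_prop)
  have hqmin' : ∀ x ∈ Z, dist q c ≤ dist x c := fun x hx => hqmin hx
  have hq4 : dist q c ≤ r / 4 := mem_closedBall.1 hqZ.1
  have hq0 : u q = 0 := hqZ.2
  have hqp : q ∈ ball p r := hsub hqZ.1
  have hqb : q ∈ ball y (16 * r) := hp hqp
  have hge := ScaleInd_FB_ge hcl hF.2 hpb
  have hle : ⟪q - y, e⟫ ≤ σ * (16 * r) := by
    by_contra hcon
    push Not at hcon
    have h1 := (hcl q hqb).2.1 hcon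
    rw [hq0] at h1
    exact lt_irrefl _ h1
  have hee : ⟪e, e⟫ = (1 : ℝ) := by rw [real_inner_self_eq_norm_sq, he]; norm_num
  have hcy : ⟪c - y, e⟫ = ⟪p - y, e⟫ + r / 4 := by
    rw [hc]
    have : p + (r / 4) • e - y = (p - y) + (r / 4) • e := by abel
    rw [this, inner_add_left, real_inner_smul_left, hee, mul_one]
  have hcq : ⟪c - q, e⟫ = ⟪c - y, e⟫ - ⟪q - y, e⟫ := by
    rw [← inner_sub_left]
    congr 1
    abel
  have hσr : σ * (16 * r) ≤ r / 1024 := by nlinarith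
  have hcq' : r / 4 - 2 * (σ * (16 * r)) ≤ ⟪c - q, e⟫ := by
    rw [hcq, hcy]; linarith
  have hd : 0 < dist q c := by
    rw [dist_pos]
    intro hqc
    rw [← hqc, sub_self, inner_zero_left] at hcq'
    linarith
  obtain ⟨hFq, hnu⟩ := touch h hd (hsubO hqZ.1) (fun x hx => by
    have hx' : x ∈ closedBall c (r / 4) := ball_subset_closedBall (ball_subset_ball hq4 hx)
    have hx0 := h.nonneg x (hsubO hx')
    rcases hx0.lt_or_eq with h1 | h1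
    · exact h1
    · exfalso
      have := hqmin' x ⟨hx', h1.symm⟩
      rw [mem_ball] at hx
      linarith) rfl hq0
  refine ⟨q, hFq, by rw [← dist_eq_norm]; exact hqp, ?_⟩
  have hqO : q ∈ O := hsubO hqZ.1
  have hn1 : ‖nu u q‖ = 1 := norm_nu_of_FB h hqO hFq
  have hin : 1 - 128 * σ ≤ ⟪nu u q, e⟫ := by
    rw [hnu, real_inner_smul_left]
    have hpos : 0 < ⟪c - q, e⟫ := by linarith
    have h1 : (1 / (r / 4)) * ⟪c - q, e⟫ ≤ 1 / dist q c * ⟪c - q, e⟫ :=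
      mul_le_mul_of_nonneg_right (one_div_le_one_div_of_le hd hq4) hpos.le
    refine le_trans ?_ h1
    have h2 : (1 / (r / 4)) * (r / 4 - 2 * (σ * (16 * r))) ≤ (1 / (r / 4)) * ⟪c - q, e⟫ :=
      mul_le_mul_of_nonneg_left hcq' (by positivity)
    refine le_trans (le_of_eq ?_) h2
    field_simp
    ring
  have hsq : ‖nu u q - e‖ ^ 2 ≤ (1 / 8) ^ 2 := by
    rw [norm_sub_sq_real, hn1, he]
    nlinarith
  exact le_of_sq_le_sq hsq (by norm_num)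

theorem ScaleInd_inner_ge {a e : E3} (ha : ‖a‖ = 1) (he : ‖e‖ = 1) (h : ‖a - e‖ ≤ 1 / 4) :
    3 / 4 ≤ ⟪a, e⟫ := by
  have h1 : ‖a - e‖ ^ 2 ≤ (1 / 4) ^ 2 := by
    have := norm_nonneg (a - e)
    nlinarith
  rw [norm_sub_sq_real, ha, he] at h1
  linarith

/-- `nl` in a ball `ball y s`, `s` arbitrary -/
theorem ScaleInd_nl {L η σ : ℝ}
    (hN : ∀ (u : E3 → ℝ) (e : E3), ‖e‖ = 1 →
      OnePhase (ball 0 1) u → (∀ x ∈ ball (0 : E3) 1, 0 < u x → ‖gradient u x‖ ≤ L) →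
      CloseAt u 0 1 e σ → (∀ p ∈ ball (0 : E3) 1, FB u p → 3 / 4 ≤ ⟪nu u p, e⟫) →
      ∀ x ∈ closure {x | 0 < u x}, ‖x‖ ≤ 1 / 4 → ‖nu u x - e‖ ≤ η)
    {O : Set E3} {u : E3 → ℝ} (h : OnePhase O u) {y e : E3} {s : ℝ} (hs : 0 < s)
    (hO : ball y s ⊆ O) (he : ‖e‖ = 1) (hL : ∀ x ∈ O, 0 < u x → ‖gradient u x‖ ≤ L)
    (hcl : CloseAt u y s e σ) (hF : ∀ p ∈ ball y s, FB u p → 3 / 4 ≤ ⟪nu u p, e⟫) :
    ∀ x ∈ closure {x | 0 < u x}, ‖x - y‖ ≤ s / 4 → ‖nu u x - e‖ ≤ η := by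
  have hmem : ∀ x : E3, x ∈ ball (0 : E3) 1 → y + s • x ∈ ball y s := by
    intro x hx
    rw [mem_ball_zero_iff] at hx
    rw [mem_ball, dist_eq_norm, add_sub_cancel_left, norm_smul, Real.norm_of_nonneg hs.le]
    nlinarith
  have h1 : OnePhase (ball 0 1) (sc u y s) :=
    (sc_onePhase h y hs).mono isOpen_ball (fun x hx => hO (hmem x hx))
  have h2 := hN (sc u y s) e he h1 (fun x hx hux => by
      rw [sc_gradient hs]
      exact hL _ (hO (hmem x hx)) ((sc_pos hs x).1 hux))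
    ((sc_closeAt hs 0 1 e σ).2 (by rw [smul_zero, add_zero, mul_one]; exact hcl))
    (fun p hp hFp => by
      rw [sc_nu hs]
      exact hF _ (hmem p hp) ((sc_FB hs p).1 hFp))
  intro x hx hxy
  have hx' : y + s • (s⁻¹ • (x - y)) = x := by
    rw [smul_smul, mul_inv_cancel₀ hs.ne', one_smul, add_sub_cancel]
  have h3 := h2 (s⁻¹ • (x - y)) ((sc_closure hs _).2 (by rw [hx']; exact hx)) (by
    rw [norm_smul, Real.norm_of_nonneg (inv_nonneg.2 hs.le), inv_mul_le_iff₀ hs]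
    linarith)
  rw [sc_nu hs, hx'] at h3
  exact h3

/-- the statement `P(ρ)` of the induction -/
def ScaleInd_P (u : E3 → ℝ) (y₀ : E3) (R₀ ρ : ℝ) : Prop :=
  ∀ y p : E3, FB u y → FB u p → ‖y - y₀‖ < R₀ / 2 - 16 * ρ → ‖p - y‖ < ρ →
    ‖nu u p - nu u y‖ ≤ 1 / 8

theorem ScaleInd_base {u : E3 → ℝ} {y₀ : E3} {R₀ : ℝ} (hR : 0 < R₀)
    (h : OnePhase (ball y₀ R₀) u) : ∃ δ : ℝ, 0 < δ ∧ ∀ ρ : ℝ, ρ ≤ R₀ / 64 → ρ < δ →
      ScaleInd_P u y₀ R₀ ρ := by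
  set K : Set E3 := closedBall y₀ (3 * R₀ / 4) ∩ closure {x | 0 < u x} with hK
  have hKc : IsCompact K := (isCompact_closedBall _ _).inter_right isClosed_closure
  have hcont : ContinuousOn (nu u) K := (nu_continuousOn h).mono (by
    rintro x ⟨hx1, hx2⟩
    exact ⟨closedBall_subset_ball (by linarith) hx1, hx2⟩)
  have hunif := hKc.uniformContinuousOn_of_continuous hcont
  rw [Metric.uniformContinuousOn_iff] at hunif
  obtain ⟨δ, hδ, hδ'⟩ := hunif (1 / 8) (by norm_num)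
  refine ⟨δ, hδ, ?_⟩
  intro ρ hρ1 hρ2 y p hy hp hyy hpy
  have hρ0 : 0 < ρ := lt_of_le_of_lt (norm_nonneg _) hpy
  have hyK : y ∈ K := by
    refine ⟨?_, hy.2⟩
    rw [mem_closedBall, dist_eq_norm]
    linarith
  have hpK : p ∈ K := by
    refine ⟨?_, hp.2⟩
    rw [mem_closedBall, dist_eq_norm]
    have : p - y₀ = (p - y) + (y - y₀) := by abel
    rw [this]
    refine (norm_add_le _ _).trans ?_
    linarith
  have := hδ' p hpK y hyK (by rw [dist_eq_norm]; linarith)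
  rw [dist_eq_norm] at this
  exact this.le

/-- normals of all free boundary points of `ball y s` are close to `e` -/
theorem ScaleInd_inner {u : E3 → ℝ} {y₀ : E3} {R₀ : ℝ} (h : OnePhase (ball y₀ R₀) u) {ρ σ : ℝ}
    (hρ : 0 < ρ) (hP : ScaleInd_P u y₀ R₀ ρ) {y e p : E3} (he : ‖e‖ = 1) (hσ : σ ≤ 1 / 16384)
    (hO : ball y (16 * ρ) ⊆ ball y₀ R₀) (hcl : CloseAt u y (16 * ρ) e σ)
    (hp : ‖p - y‖ ≤ 15 * ρ) (hpy : ‖p - y₀‖ < R₀ / 2 - 16 * ρ) (hF : FB u p) :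
    3 / 4 ≤ ⟪nu u p, e⟫ := by
  have hsub : ball p ρ ⊆ ball y (16 * ρ) := by
    intro x hx
    rw [mem_ball, dist_eq_norm] at hx ⊢
    have : x - y = (x - p) + (p - y) := by abel
    rw [this]
    refine (norm_add_le _ _).trans_lt ?_
    linarith
  obtain ⟨q, hFq, hqp, hq⟩ := ScaleInd_touch h hρ hσ he hO hcl hF hsub
  have h1 := hP p q hF hFq hpy hqp
  have hpO : p ∈ ball y₀ R₀ := hO (hsub (mem_ball_self hρ))
  refine ScaleInd_inner_ge (norm_nu_of_FB h hpO hF) he ?_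
  have : nu u p - e = -(nu u q - nu u p) + (nu u q - e) := by abel
  rw [this]
  refine (norm_add_le _ _).trans ?_
  rw [norm_neg]
  linarith

theorem ScaleInd_step {L σ : ℝ}
    (hN : ∀ (u : E3 → ℝ) (e : E3), ‖e‖ = 1 →
      OnePhase (ball 0 1) u → (∀ x ∈ ball (0 : E3) 1, 0 < u x → ‖gradient u x‖ ≤ L) →
      CloseAt u 0 1 e (2 * σ) → (∀ p ∈ ball (0 : E3) 1, FB u p → 3 / 4 ≤ ⟪nu u p, e⟫) →
      ∀ x ∈ closure {x | 0 < u x}, ‖x‖ ≤ 1 / 4 → ‖nu u x - e‖ ≤ 1 / 16)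
    {u : E3 → ℝ} {y₀ : E3} {R₀ : ℝ} (hR : 0 < R₀) (h : OnePhase (ball y₀ R₀) u)
    (hL : ∀ x ∈ ball y₀ R₀, 0 < u x → ‖gradient u x‖ ≤ L) (hσ0 : 0 ≤ σ)
    (hσ : σ ≤ 1 / 16384)
    (hcl : ∀ y ∈ ball y₀ (R₀ / 2), FB u y → ∀ ρ : ℝ, 0 < ρ → ρ ≤ R₀ / 4 →
      ∃ e : E3, ‖e‖ = 1 ∧ CloseAt u y ρ e σ) {ρ : ℝ} (hρ : 0 < ρ) (hρ' : 2 * ρ ≤ R₀ / 64)
    (hP : ScaleInd_P u y₀ R₀ ρ) : ScaleInd_P u y₀ R₀ (2 * ρ) := by
  intro y p hy hp hyy hpy
  obtain ⟨e, he, hcle⟩ := hcl y (by rw [mem_ball, dist_eq_norm]; linarith) hy (16 * ρ)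
    (by linarith) (by linarith)
  have hO : ball y (16 * ρ) ⊆ ball y₀ R₀ := by
    intro x hx
    rw [mem_ball, dist_eq_norm] at hx ⊢
    have : x - y₀ = (x - y) + (y - y₀) := by abel
    rw [this]
    refine (norm_add_le _ _).trans_lt ?_
    linarith
  have hO8 : ball y (8 * ρ) ⊆ ball y₀ R₀ := (ball_subset_ball (by linarith)).trans hO
  have key := ScaleInd_nl hN h (y := y) (e := e) (s := 8 * ρ) (by linarith) hO8 he hL
    (ScaleInd_closeAt_mono (by linarith) hcle (by nlinarith))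
    (fun q hq hFq => by
      rw [mem_ball, dist_eq_norm] at hq
      refine ScaleInd_inner h hρ hP he hσ hO hcle (by linarith) ?_ hFq
      have : q - y₀ = (q - y) + (y - y₀) := by abel
      rw [this]
      refine (norm_add_le _ _).trans_lt ?_
      linarith)
  have h1 := key p hp.2 (by linarith)
  have h2 := key y hy.2 (by rw [sub_self, norm_zero]; linarith)
  have : nu u p - nu u y = (nu u p - e) - (nu u y - e) := by abel
  rw [this]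
  refine (norm_sub_le _ _).trans ?_
  linarith

theorem ScaleInd_all {L σ : ℝ}
    (hN : ∀ (u : E3 → ℝ) (e : E3), ‖e‖ = 1 →
      OnePhase (ball 0 1) u → (∀ x ∈ ball (0 : E3) 1, 0 < u x → ‖gradient u x‖ ≤ L) →
      CloseAt u 0 1 e (2 * σ) → (∀ p ∈ ball (0 : E3) 1, FB u p → 3 / 4 ≤ ⟪nu u p, e⟫) →
      ∀ x ∈ closure {x | 0 < u x}, ‖x‖ ≤ 1 / 4 → ‖nu u x - e‖ ≤ 1 / 16)
    {u : E3 → ℝ} {y₀ : E3} {R₀ : ℝ} (hR : 0 < R₀) (h : OnePhase (ball y₀ R₀) u)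
    (hL : ∀ x ∈ ball y₀ R₀, 0 < u x → ‖gradient u x‖ ≤ L) (hσ0 : 0 ≤ σ)
    (hσ : σ ≤ 1 / 16384)
    (hcl : ∀ y ∈ ball y₀ (R₀ / 2), FB u y → ∀ ρ : ℝ, 0 < ρ → ρ ≤ R₀ / 4 →
      ∃ e : E3, ‖e‖ = 1 ∧ CloseAt u y ρ e σ) :
    ∀ ρ : ℝ, 0 < ρ → ρ ≤ R₀ / 64 → ScaleInd_P u y₀ R₀ ρ := by
  obtain ⟨δ, hδ, hbase⟩ := ScaleInd_base hR h
  have key : ∀ k : ℕ, ∀ ρ : ℝ, 0 < ρ → ρ ≤ R₀ / 64 → ρ < 2 ^ k * δ → ScaleInd_P u y₀ R₀ ρ := by
    intro k
    induction k with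
    | zero =>
      intro ρ _ hρ1 hρ2
      exact hbase ρ hρ1 (by simpa using hρ2)
    | succ k ih =>
      intro ρ hρ0 hρ1 hρ2
      have h1 := ih (ρ / 2) (by linarith) (by linarith) (by rw [pow_succ] at hρ2; linarith)
      have h2 := ScaleInd_step hN hR h hL hσ0 hσ hcl (ρ := ρ / 2) (by linarith)
        (by linarith) h1
      have h3 : 2 * (ρ / 2) = ρ := by ring
      rw [h3] at h2
      exact h2
  intro ρ hρ0 hρ1
  obtain ⟨k, hk⟩ := pow_unbounded_of_one_lt (ρ / δ) (by norm_num : (1 : ℝ) < 2)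
  exact key k ρ hρ0 hρ1 (by rwa [div_lt_iff₀ hδ] at hk)

theorem scale_induction : ∀ L : ℝ, 1 ≤ L → ∀ η : ℝ, 0 < η → ∃ σ : ℝ, 0 < σ ∧
    ∀ (u : E3 → ℝ) (y₀ : E3) (R₀ : ℝ), 0 < R₀ → OnePhase (ball y₀ R₀) u →
    (∀ x ∈ ball y₀ R₀, 0 < u x → ‖gradient u x‖ ≤ L) →
    (∀ y ∈ ball y₀ (R₀ / 2), FB u y → ∀ ρ : ℝ, 0 < ρ → ρ ≤ R₀ / 4 →
      ∃ e : E3, ‖e‖ = 1 ∧ CloseAt u y ρ e σ) →
    ∀ y ∈ ball y₀ (R₀ / 8), FB u y → ∀ ρ : ℝ, 0 < ρ → ρ ≤ R₀ / 8 → ∀ e : E3, ‖e‖ = 1 →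
    CloseAt u y ρ e σ → ∀ x ∈ closure {x | 0 < u x}, ‖x - y‖ ≤ ρ / 16 → ‖nu u x - e‖ ≤ η := by
  intro L hL η hη
  obtain ⟨σ₁, hσ₁, hN₁⟩ := nl L hL (1 / 16) (by norm_num)
  obtain ⟨σ₂, hσ₂, hN₂⟩ := nl L hL η hη
  refine ⟨min (1 / 16384) (min (σ₁ / 2) (σ₂ / 4)), by positivity, ?_⟩
  set σ : ℝ := min (1 / 16384) (min (σ₁ / 2) (σ₂ / 4)) with hσdef
  have hσ0 : 0 < σ := by rw [hσdef]; positivity
  have hσa : σ ≤ 1 / 16384 := min_le_left _ _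
  have hσb : 2 * σ ≤ σ₁ := by
    have : σ ≤ σ₁ / 2 := (min_le_right _ _).trans (min_le_left _ _)
    linarith
  have hσc : 4 * σ ≤ σ₂ := by
    have : σ ≤ σ₂ / 4 := (min_le_right _ _).trans (min_le_right _ _)
    linarith
  intro u y₀ R₀ hR h hLu hcl y hy hFy ρ hρ hρ' e he hcle x hx hxy
  have hN₁' : ∀ (u : E3 → ℝ) (e : E3), ‖e‖ = 1 →
      OnePhase (ball 0 1) u → (∀ x ∈ ball (0 : E3) 1, 0 < u x → ‖gradient u x‖ ≤ L) →
      CloseAt u 0 1 e (2 * σ) → (∀ p ∈ ball (0 : E3) 1, FB u p → 3 / 4 ≤ ⟪nu u p, e⟫) →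
      ∀ x ∈ closure {x | 0 < u x}, ‖x‖ ≤ 1 / 4 → ‖nu u x - e‖ ≤ 1 / 16 :=
    fun u e h1 h2 h3 h4 h5 => hN₁ u e h1 h2 h3
      (ScaleInd_closeAt_mono le_rfl h4 (by linarith)) h5
  have hN₂' : ∀ (u : E3 → ℝ) (e : E3), ‖e‖ = 1 →
      OnePhase (ball 0 1) u → (∀ x ∈ ball (0 : E3) 1, 0 < u x → ‖gradient u x‖ ≤ L) →
      CloseAt u 0 1 e (4 * σ) → (∀ p ∈ ball (0 : E3) 1, FB u p → 3 / 4 ≤ ⟪nu u p, e⟫) →
      ∀ x ∈ closure {x | 0 < u x}, ‖x‖ ≤ 1 / 4 → ‖nu u x - e‖ ≤ η :=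
    fun u e h1 h2 h3 h4 h5 => hN₂ u e h1 h2 h3
      (ScaleInd_closeAt_mono le_rfl h4 (by linarith)) h5
  have hP := ScaleInd_all hN₁' hR h hLu hσ0.le hσa hcl (ρ / 16) (by linarith) (by linarith)
  rw [mem_ball, dist_eq_norm] at hy
  have h16 : 16 * (ρ / 16) = ρ := by ring
  have hO : ball y ρ ⊆ ball y₀ R₀ := by
    intro x hx
    rw [mem_ball, dist_eq_norm] at hx ⊢
    have : x - y₀ = (x - y) + (y - y₀) := by abel
    rw [this]
    refine (norm_add_le _ _).trans_lt ?_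
    linarith
  refine ScaleInd_nl hN₂' h (y := y) (e := e) (s := ρ / 4) (by linarith)
    ((ball_subset_ball (by linarith)).trans hO) he hLu
    (ScaleInd_closeAt_mono (by linarith) hcle (by linarith)) ?_ x hx (by linarith)
  intro q hq hFq
  rw [mem_ball, dist_eq_norm] at hq
  refine ScaleInd_inner h (by linarith : 0 < ρ / 16) hP he hσa (by rw [h16]; exact hO)
    (by rw [h16]; exact hcle) (by linarith) ?_ hFq
  have : q - y₀ = (q - y) + (y - y₀) := by abel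
  rw [this]
  refine (norm_add_le _ _).trans_lt ?_
  linarith

end Pool.Agent.H32.Flat
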