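import Pool.Agent.H32.Flat.AnnClose
import Pool.Agent.H32.Flat.ScaleInd
import Pool.Agent.H32.Flat.DensPf

/-!
# Module R3: regularity at all scales (assembly)

`Reg η a b u`: at every scale `s ∈ [a,b]` the gradient is within `η` of one unit vector on
`s/2 ≤ |x| ≤ 2s` and `u` is flat and close to the half-plane solution there.

Proof of `reg_of_setup`: given `η`, `σ_N` from `scale_induction L (η/2)`, `σ ≪ σ_N, η`;
`κ` from `ball_close L σ_N` and `ann_close L σ`; `K, r₁, r₀, ε₀, δ₀` from `dens L κ`.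
For `s ∈ [a,b]`, `a = K'δ`, `b = r = r₁/256`: `e` from `ann_close` at scale `8s` (so `8σs ≤ |x| ≤ 4s`).
For `x ∈ closure{0<u}`, `s/2 ≤ |x| ≤ 2s`:
* if `⟪x,e⟫ ≥ c s` (`c = 1/200000`): `ball x (cs/2) ⊆ {⟪·,e⟫ > 8σs}`: `grad_bound` for `u - ⟪·,e⟫`.
* if `⟪x,e⟫ < c s`: on the segment from `x` down to `x - 2cs e` there is an `FB` point `y`
  (`exists_FB_segment`, or `x` itself if `u x = 0`), `|x - y| ≤ 2cs`.  For `ρ = |y|/1024`:
  `CloseAt u y ρ e (C σ)`, as `|⟪y,e⟫| ≤ 8σs`.  Apply `scale_induction` with `y₀ = y`, `R₀ = |y|/32`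
  (`ball_close` gives its hypothesis: `FB` points `y'` of `ball y (R₀/2)` have norm `≥ |y|/2`, so
  `R₀/4 = |y|/128 ≤ |y'|/64`), `|x - y| ≤ 2cs ≤ ρ/16`.
Outer direction: at `s = b`: `{x_3 > ε} ⊆ {0<u}`, `{⟪x,e⟫ < -8σs} ⊆ {u = 0}` give, testing
`x = s (e3 - e)/‖e3 - e‖`, `‖e3 - e‖ ≤ 16 σ + 2 ε/s`; take `ε₀ ≪ r`.
-/

open Set Metric MeasureTheory Filter Topology InnerProductSpace
open scoped Laplacian Gradient RealInnerProductSpace

namespace Pool.Agent.H32.Flat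

structure Reg (η a b : ℝ) (u : E3 → ℝ) : Prop where
  onePhase : OnePhase {x | a / 4 < ‖x‖ ∧ ‖x‖ < 4 * b} u
  dir : ∀ s : ℝ, a ≤ s → s ≤ b → ∃ e : E3, ‖e‖ = 1 ∧
    (∀ x ∈ closure {x | 0 < u x}, s / 2 ≤ ‖x‖ → ‖x‖ ≤ 2 * s → ‖nu u x - e‖ ≤ η) ∧
    (∀ x : E3, s / 2 ≤ ‖x‖ → ‖x‖ ≤ 2 * s → |u x - max ⟪x, e⟫ 0| ≤ η * s ∧
      (η * s < ⟪x, e⟫ → 0 < u x) ∧ (⟪x, e⟫ < -(η * s) → u x = 0))

/-- `u` is `T`-close to the half-plane solution at `x` -/
def RegPf_Flat (u : E3 → ℝ) (e : E3) (T : ℝ) (x : E3) : Prop :=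
  |u x - max ⟪x, e⟫ 0| ≤ T ∧ (T < ⟪x, e⟫ → 0 < u x) ∧ (⟪x, e⟫ < -T → u x = 0)

theorem RegPf_harmonic_inner (e x : E3) : HarmonicAt (fun y : E3 => ⟪y, e⟫) x := by
  have hf : (fun y : E3 => ⟪y, e⟫) = (innerSL ℝ e : E3 →L[ℝ] ℝ) := by
    funext y
    rw [innerSL_apply_apply, real_inner_comm]
  rw [hf]
  refine ⟨(innerSL ℝ e : E3 →L[ℝ] ℝ).contDiff.contDiffAt, Filter.Eventually.of_forall fun y => ?_⟩
  rw [laplacian_eq_iteratedFDeriv_stdOrthonormalBasis]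
  simp only [Pi.zero_apply]
  refine Finset.sum_eq_zero fun i _ => ?_
  rw [iteratedFDeriv_two_apply]
  have h1 : fderiv ℝ (innerSL ℝ e : E3 →L[ℝ] ℝ) = fun _ => (innerSL ℝ e : E3 →L[ℝ] ℝ) := by
    funext z
    exact (innerSL ℝ e : E3 →L[ℝ] ℝ).fderiv
  rw [h1]
  simp

theorem RegPf_gradient_sub {u : E3 → ℝ} {x : E3} (hu : DifferentiableAt ℝ u x) (e : E3) :
    gradient (fun y => u y - ⟪y, e⟫) x = gradient u x - e := by
  have h1 : HasGradientAt u (gradient u x) x := hu.hasGradientAt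
  have h2 : HasGradientAt (fun y : E3 => ⟪y, e⟫) e x := by
    rw [hasGradientAt_iff_hasFDerivAt]
    have hf : (fun y : E3 => ⟪y, e⟫) = (innerSL ℝ e : E3 →L[ℝ] ℝ) := by
      funext y
      rw [innerSL_apply_apply, real_inner_comm]
    rw [hf]
    have : (InnerProductSpace.toDual ℝ E3) e = (innerSL ℝ e : E3 →L[ℝ] ℝ) := by
      ext y
      simp [InnerProductSpace.toDual_apply_apply]
    rw [this]
    exact (innerSL ℝ e : E3 →L[ℝ] ℝ).hasFDerivAt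
  rw [hasGradientAt_iff_hasFDerivAt] at h1 h2
  have h3 := h1.sub h2
  rw [← map_sub] at h3
  exact (hasGradientAt_iff_hasFDerivAt.2 h3).gradient

/-- a free boundary point in the flat region is almost on the plane -/
theorem RegPf_FB {u : E3 → ℝ} {e y : E3} {T : ℝ} (hF : FB u y)
    (h : ∀ᶠ x in 𝓝 y, RegPf_Flat u e T x) : |⟪y, e⟫| ≤ T := by
  obtain ⟨hy0, hcl⟩ := hF
  have hy := h.self_of_nhds
  have hup : ⟪y, e⟫ ≤ T := by
    have := hy.1
    rw [hy0, zero_sub, abs_neg] at this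
    exact (le_max_left _ _).trans ((le_abs_self _).trans this)
  have hlo : -T ≤ ⟪y, e⟫ := by
    by_contra hcon
    have hcon' : ⟪y, e⟫ < -T := not_le.1 hcon
    have c1 : ∀ᶠ x in 𝓝 y, ⟪x, e⟫ < -T :=
      (continuous_id.inner continuous_const).continuousAt.eventually_lt
        continuousAt_const hcon'
    have hev : ∀ᶠ x in 𝓝 y, u x = 0 := by
      filter_upwards [c1, h] with x hx1 hx2
      exact hx2.2.2 hx1
    obtain ⟨x, hx1, hx2⟩ := (mem_closure_iff_frequently.1 hcl |>.and_eventually hev).exists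
    have hx3 : 0 < u x := hx1
    linarith
  exact abs_le.2 ⟨hlo, hup⟩

theorem RegPf_closeAt {u : E3 → ℝ} {e y : E3} {T ρ σ : ℝ} (hy : |⟪y, e⟫| ≤ T)
    (h : ∀ x ∈ ball y ρ, RegPf_Flat u e T x) (hT : 2 * T ≤ σ * ρ) :
    CloseAt u y ρ e σ := by
  intro x hx
  obtain ⟨h1, h2, h3⟩ := h x hx
  obtain ⟨hy1, hy2⟩ := abs_le.1 hy
  have h4 : ⟪x - y, e⟫ = ⟪x, e⟫ - ⟪y, e⟫ := inner_sub_left _ _ _
  refine ⟨?_, fun h5 => h2 (by linarith), fun h5 => h3 (by linarith)⟩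
  have h6 : |max ⟪x, e⟫ 0 - max ⟪x - y, e⟫ 0| ≤ T := by
    refine (abs_max_sub_max_le_abs _ _ _).trans ?_
    rw [h4]
    have : ⟪x, e⟫ - (⟪x, e⟫ - ⟪y, e⟫) = ⟪y, e⟫ := by ring
    rw [this]
    exact hy
  calc |u x - max ⟪x - y, e⟫ 0| = |(u x - max ⟪x, e⟫ 0) + (max ⟪x, e⟫ 0 - max ⟪x - y, e⟫ 0)| := by
        congr 1; ring
    _ ≤ |u x - max ⟪x, e⟫ 0| + |max ⟪x, e⟫ 0 - max ⟪x - y, e⟫ 0| := abs_add_le _ _
    _ ≤ σ * ρ := by linarith

/-- gradient closeness away from the plane -/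
theorem RegPf_far {u : E3 → ℝ} {O : Set E3} (h : OnePhase O u) {C : ℝ}
    (hC : ∀ (f : E3 → ℝ) (z : E3) (R M : ℝ), 0 < R →
      (∀ x ∈ ball z R, HarmonicAt f x) → (∀ x ∈ ball z R, |f x| ≤ M) →
      ‖gradient f z‖ ≤ C * M / R) {e x : E3} {T R : ℝ} (hR : 0 < R)
    (hO : ball x R ⊆ O) (hfl : ∀ y ∈ ball x R, RegPf_Flat u e T y) (he : ‖e‖ = 1) (hT : 0 ≤ T)
    (hx : R + T ≤ ⟪x, e⟫) : ‖nu u x - e‖ ≤ C * T / R := by
  have hin : ∀ y ∈ ball x R, T < ⟪y, e⟫ := by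
    intro y hy
    have h1 : ⟪y, e⟫ = ⟪x, e⟫ - ⟪x - y, e⟫ := by rw [inner_sub_left]; ring
    have h2 : ⟪x - y, e⟫ ≤ ‖x - y‖ * ‖e‖ := real_inner_le_norm _ _
    rw [he, mul_one] at h2
    have h3 : ‖x - y‖ < R := by
      rw [mem_ball, dist_eq_norm] at hy
      rw [norm_sub_rev]
      exact hy
    linarith
  have hpos : ∀ y ∈ ball x R, 0 < u y := fun y hy => (hfl y hy).2.1 (hin y hy)
  have hxx : x ∈ ball x R := mem_ball_self hR
  have hh : ∀ y ∈ ball x R, HarmonicAt (fun y => u y - ⟪y, e⟫) y := fun y hy =>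
    (h.harm y (hO hy) (hpos y hy)).sub (RegPf_harmonic_inner e y)
  have hb : ∀ y ∈ ball x R, |(fun y => u y - ⟪y, e⟫) y| ≤ T := by
    intro y hy
    have h1 := (hfl y hy).1
    have h2 : max ⟪y, e⟫ 0 = ⟪y, e⟫ := max_eq_left (hT.trans (hin y hy).le)
    rw [h2] at h1
    exact h1
  have h1 := hC _ x R T hR hh hb
  have hd : DifferentiableAt ℝ u x :=
    (h.harm x (hO hxx) (hpos x hxx)).1.differentiableAt (by norm_num)
  rw [RegPf_gradient_sub hd] at h1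
  rw [nu_of_pos h (hO hxx) (hpos x hxx)]
  exact h1

/-- the outer direction -/
theorem RegPf_outer {u : E3 → ℝ} {e : E3} {s T ε : ℝ} (hs : 0 < s) (he : ‖e‖ = 1)
    (hfl : ∀ x : E3, ‖x‖ = s → RegPf_Flat u e T x) (hT : 0 ≤ T)
    (hup : ∀ x : E3, ‖x‖ = s → ε < x 2 → 0 < u x) :
    ‖e - e3‖ ≤ 2 * max ε T / s := by
  have he3 : ‖e3‖ = 1 := by simp [e3]
  set v : E3 := e3 - e with hv
  have hev : ‖e - e3‖ = ‖v‖ := by rw [hv, norm_sub_rev]
  rw [hev]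
  by_cases hv0 : ‖v‖ = 0
  · rw [hv0]
    have : 0 ≤ max ε T := le_max_of_le_right hT
    positivity
  have hvp : 0 < ‖v‖ := lt_of_le_of_ne (norm_nonneg _) (Ne.symm hv0)
  by_contra hcon
  have hcon' : 2 * max ε T / s < ‖v‖ := not_le.1 hcon
  rw [div_lt_iff₀ hs] at hcon'
  set x : E3 := (s / ‖v‖) • v with hx
  have hxn : ‖x‖ = s := by
    rw [hx, norm_smul, Real.norm_of_nonneg (by positivity)]
    field_simp
  have hvv : ‖v‖ ^ 2 = 2 - 2 * ⟪e, e3⟫ := by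
    rw [hv, norm_sub_sq_real, he, he3, real_inner_comm]; ring
  have hve : ⟪v, e⟫ = -(‖v‖ ^ 2 / 2) := by
    rw [hvv, hv, inner_sub_left, real_inner_self_eq_norm_sq, he, real_inner_comm]; ring
  have hve3 : ⟪v, e3⟫ = ‖v‖ ^ 2 / 2 := by
    rw [hvv, hv, inner_sub_left, real_inner_self_eq_norm_sq, he3]; ring
  have hxe : ⟪x, e⟫ = -(s * ‖v‖ / 2) := by
    rw [hx, inner_smul_left, hve]
    simp only [conj_trivial]
    field_simp
  have hxe3 : ⟪x, e3⟫ = s * ‖v‖ / 2 := by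
    rw [hx, inner_smul_left, hve3]
    simp only [conj_trivial]
    field_simp
  have hx2 : x 2 = ⟪x, e3⟫ := by
    rw [e3, EuclideanSpace.inner_single_right]
    simp
  have h1 : ε < x 2 := by
    rw [hx2, hxe3]
    have := le_max_left ε T
    linarith
  have h2 := hup x hxn h1
  have h3 := (hfl x hxn).2.2 (by
    rw [hxe]
    have := le_max_right ε T
    linarith)
  linarith

theorem RegPf_norm_le {x y : E3} {d : ℝ} (h : ‖x - y‖ ≤ d) : ‖y‖ - d ≤ ‖x‖ ∧ ‖x‖ ≤ ‖y‖ + d := by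
  have h1 := abs_norm_sub_norm_le x y
  obtain ⟨h2, h3⟩ := abs_le.1 (h1.trans h)
  constructor <;> linarith

/-- one scale -/
theorem RegPf_scale {L η σN σ C K r₁ δ s : ℝ} {u : E3 → ℝ} {e : E3}
    (hη : 0 < η) (hC1 : 1 ≤ C)
    (hC : ∀ (f : E3 → ℝ) (z : E3) (R M : ℝ), 0 < R →
      (∀ x ∈ ball z R, HarmonicAt f x) → (∀ x ∈ ball z R, |f x| ≤ M) →
      ‖gradient f z‖ ≤ C * M / R)
    (hN : ∀ (u : E3 → ℝ) (y₀ : E3) (R₀ : ℝ), 0 < R₀ → OnePhase (ball y₀ R₀) u →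
      (∀ x ∈ ball y₀ R₀, 0 < u x → ‖gradient u x‖ ≤ L) →
      (∀ y ∈ ball y₀ (R₀ / 2), FB u y → ∀ ρ : ℝ, 0 < ρ → ρ ≤ R₀ / 4 →
        ∃ e : E3, ‖e‖ = 1 ∧ CloseAt u y ρ e σN) →
      ∀ y ∈ ball y₀ (R₀ / 8), FB u y → ∀ ρ : ℝ, 0 < ρ → ρ ≤ R₀ / 8 → ∀ e : E3, ‖e‖ = 1 →
      CloseAt u y ρ e σN → ∀ x ∈ closure {x | 0 < u x}, ‖x - y‖ ≤ ρ / 16 → ‖nu u x - e‖ ≤ η)
    (hB : ∀ y : E3, FB u y → 2 * K * δ ≤ ‖y‖ → ‖y‖ ≤ r₁ / 2 → ∀ ρ : ℝ, 0 < ρ → ρ ≤ ‖y‖ / 64 →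
      ∃ e : E3, ‖e‖ = 1 ∧ CloseAt u y ρ e σN)
    (hop : OnePhase {x | δ < ‖x‖ ∧ ‖x‖ < 1} u) (hlip : LipOn L δ u)
    (hδ : 0 < δ) (hK : 8 ≤ K) (hr₁ : r₁ ≤ 1 / 16) (hs1 : 16 * K * δ ≤ s) (hs2 : s ≤ r₁ / 128)
    (hσ0 : 0 < σ) (hσN : 0 < σN) (hσ1 : σ ≤ 1 / 3200000) (hσ2 : 3200000 * (C * σ) ≤ η)
    (hσ3 : σ ≤ σN / 65536) (he : ‖e‖ = 1)
    (hfl : ∀ x : E3, σ * (8 * s) ≤ ‖x‖ → ‖x‖ ≤ 8 * s / 2 →
      |u x - max ⟪x, e⟫ 0| ≤ σ * (8 * s) ∧ (σ * (8 * s) < ⟪x, e⟫ → 0 < u x) ∧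
      (⟪x, e⟫ < -(σ * (8 * s)) → u x = 0)) :
    ∀ x ∈ closure {x | 0 < u x}, s / 2 ≤ ‖x‖ → ‖x‖ ≤ 2 * s → ‖nu u x - e‖ ≤ η := by
  have hKδ : 8 * δ ≤ K * δ := mul_le_mul_of_nonneg_right hK hδ.le
  have hs : 0 < s := by nlinarith
  have hδs : 128 * δ ≤ s := by linarith
  have hs3 : s ≤ 1 / 2048 := by linarith
  set T : ℝ := σ * (8 * s) with hT
  have hT0 : 0 ≤ T := by positivity
  have hTs : T ≤ s / 400000 := by rw [hT]; nlinarith
  have hflat : ∀ x : E3, s / 5 ≤ ‖x‖ → ‖x‖ ≤ 4 * s → RegPf_Flat u e T x := fun x h1 h2 =>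
    hfl x (by linarith) (by linarith)
  have hO : ∀ x : E3, s / 5 ≤ ‖x‖ → ‖x‖ ≤ 4 * s → x ∈ {x : E3 | δ < ‖x‖ ∧ ‖x‖ < 1} :=
    fun x h1 h2 => ⟨by linarith, by linarith⟩
  intro x hx hx1 hx2
  by_cases hcase : s / 200000 ≤ ⟪x, e⟫
  · have hball : ∀ y ∈ ball x (s / 400000), s / 5 ≤ ‖y‖ ∧ ‖y‖ ≤ 4 * s := by
      intro y hy
      rw [mem_ball, dist_eq_norm] at hy
      obtain ⟨h1, h2⟩ := RegPf_norm_le hy.le
      constructor <;> linarith
    have h1 := RegPf_far hop hC (e := e) (x := x) (T := T) (R := s / 400000) (by positivity)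
      (fun y hy => hO y (hball y hy).1 (hball y hy).2)
      (fun y hy => hflat y (hball y hy).1 (hball y hy).2) he hT0 (by linarith)
    refine h1.trans ?_
    rw [div_le_iff₀ (by positivity), hT]
    nlinarith
  · have hcase' : ⟪x, e⟫ < s / 200000 := not_le.1 hcase
    have hxO := hO x (by linarith) (by linarith)
    -- the free boundary point
    obtain ⟨y, hyF, hyx⟩ : ∃ y : E3, FB u y ∧ ‖x - y‖ ≤ s / 100000 := by
      by_cases hux : u x = 0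
      · exact ⟨x, ⟨hux, hx⟩, by rw [sub_self, norm_zero]; positivity⟩
      · have hpos : 0 < u x := lt_of_le_of_ne (hop.nonneg x hxO) (Ne.symm hux)
        set x' : E3 := x - (s / 100000) • e with hx'
        have hd : dist x x' = s / 100000 := by
          rw [dist_eq_norm, hx', sub_sub_cancel, norm_smul, he, mul_one,
            Real.norm_of_nonneg (by positivity)]
        have hseg : ∀ z ∈ segment ℝ x x', ‖x - z‖ ≤ s / 100000 := by
          intro z hz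
          have h1 := segment_subset_closedBall_left x x' hz
          rw [mem_closedBall, dist_comm, dist_eq_norm, hd] at h1
          exact h1
        have hseg2 : ∀ z ∈ segment ℝ x x', s / 5 ≤ ‖z‖ ∧ ‖z‖ ≤ 4 * s := by
          intro z hz
          have h0 := hseg z hz
          rw [norm_sub_rev] at h0
          obtain ⟨h1, h2⟩ := RegPf_norm_le h0
          constructor <;> linarith
        have hx'm : x' ∈ segment ℝ x x' := right_mem_segment ℝ x x'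
        have hux' : u x' = 0 := by
          refine (hflat x' (hseg2 x' hx'm).1 (hseg2 x' hx'm).2).2.2 ?_
          rw [hx', inner_sub_left, inner_smul_left, real_inner_self_eq_norm_sq, he]
          simp only [conj_trivial]
          linarith
        obtain ⟨y, hy1, hy2⟩ := exists_FB_segment hop
          (fun z hz => hO z (hseg2 z hz).1 (hseg2 z hz).2) hpos hux'
        exact ⟨y, hy2, hseg y hy1⟩
    have hyx' : ‖y - x‖ ≤ s / 100000 := by rw [norm_sub_rev]; exact hyx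
    obtain ⟨hy1, hy2⟩ := RegPf_norm_le hyx'
    have hyn1 : s / 4 ≤ ‖y‖ := by linarith
    have hyn2 : ‖y‖ ≤ 3 * s := by linarith
    have hyp : 0 < ‖y‖ := by linarith
    have hyT : |⟪y, e⟫| ≤ T := by
      refine RegPf_FB hyF ?_
      have c1 : ∀ᶠ z in 𝓝 y, s / 5 < ‖z‖ :=
        continuousAt_const.eventually_lt continuous_norm.continuousAt (by linarith)
      have c2 : ∀ᶠ z in 𝓝 y, ‖z‖ < 4 * s :=
        continuous_norm.continuousAt.eventually_lt continuousAt_const (by linarith)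
      filter_upwards [c1, c2] with z h1 h2
      exact hflat z h1.le h2.le
    have hbig : ∀ z ∈ ball y (‖y‖ / 32), s / 5 ≤ ‖z‖ ∧ ‖z‖ ≤ 4 * s := by
      intro z hz
      rw [mem_ball, dist_eq_norm] at hz
      obtain ⟨h1, h2⟩ := RegPf_norm_le hz.le
      constructor <;> linarith
    have hclose : CloseAt u y (‖y‖ / 1024) e σN := by
      refine RegPf_closeAt hyT (fun z hz => ?_) ?_ 
      · have hz' : z ∈ ball y (‖y‖ / 32) := ball_subset_ball (by linarith) hz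
        exact hflat z (hbig z hz').1 (hbig z hz').2
      · rw [hT]
        have h1 : σN * (s / 4096) ≤ σN * (‖y‖ / 1024) :=
          mul_le_mul_of_nonneg_left (by linarith) hσN.le
        have h2 : 2 * (σ * (8 * s)) ≤ σN * (s / 4096) := by nlinarith
        linarith
    refine hN u y (‖y‖ / 32) (by positivity) (hop.mono isOpen_ball fun z hz =>
      hO z (hbig z hz).1 (hbig z hz).2) ?_ ?_ y (mem_ball_self (by positivity)) hyF (‖y‖ / 1024)
      (by positivity) (by linarith) e he hclose x hx (by linarith)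
    · intro z hz hzp
      obtain ⟨h1, h2⟩ := hbig z hz
      exact (hlip z (by linarith) (by linarith) hzp).1
    · intro y' hy' hF' ρ hρ0 hρ
      rw [mem_ball, dist_eq_norm] at hy'
      obtain ⟨h1, h2⟩ := RegPf_norm_le hy'.le
      refine hB y' hF' (by linarith) (by linarith) ρ hρ0 (by linarith)

theorem reg_of_setup : ∀ L : ℝ, 1 ≤ L → ∀ η : ℝ, 0 < η → ∃ K : ℝ, 8 ≤ K ∧ ∃ r : ℝ, 0 < r ∧
    r ≤ 1 / 16 ∧ ∃ ε₀ : ℝ, 0 < ε₀ ∧ ∃ δ₀ : ℝ, 0 < δ₀ ∧ K * δ₀ ≤ r ∧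
    ∀ (δ ε : ℝ) (u : E3 → ℝ), 0 < δ → δ ≤ δ₀ → ε ≤ ε₀ → Setup δ ε u → LipOn L δ u →
    Reg η (K * δ) r u ∧ ∀ x ∈ closure {x | 0 < u x}, ‖x‖ = r → ‖nu u x - e3‖ ≤ η := by
  intro L hL η hη
  obtain ⟨C, hC1, hC⟩ := grad_bound
  obtain ⟨σN, hσN, hN⟩ := scale_induction L hL (η / 2) (by positivity)
  obtain ⟨κb, hκb, hB⟩ := ball_close L hL σN hσN
  obtain ⟨σ, hσ0, hσ1, hσ2, hσ3, hσ4⟩ : ∃ σ : ℝ, 0 < σ ∧ σ ≤ 1 / 3200000 ∧
      3200000 * (C * σ) ≤ η / 2 ∧ σ ≤ σN / 65536 ∧ 16 * σ ≤ η / 2 := by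
    refine ⟨min (min (1 / 3200000) (η / (6400000 * C))) (min (σN / 65536) (η / 32)), ?_, ?_, ?_,
      ?_, ?_⟩
    · positivity
    · exact (min_le_left _ _).trans (min_le_left _ _)
    · have h1 : min (min (1 / 3200000) (η / (6400000 * C))) (min (σN / 65536) (η / 32)) ≤
          η / (6400000 * C) := (min_le_left _ _).trans (min_le_right _ _)
      calc 3200000 * (C * min (min (1 / 3200000) (η / (6400000 * C))) (min (σN / 65536) (η / 32)))
          ≤ 3200000 * (C * (η / (6400000 * C))) := by gcongr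
        _ = η / 2 := by field_simp; norm_num
    · exact (min_le_right _ _).trans (min_le_left _ _)
    · have : min (min (1 / 3200000) (η / (6400000 * C))) (min (σN / 65536) (η / 32)) ≤ η / 32 :=
        (min_le_right _ _).trans (min_le_right _ _)
      linarith
  obtain ⟨κa, hκa, M, hM1, hA⟩ := ann_close L hL σ hσ0
  obtain ⟨K, hK, r₁, hr₁, r₀, hr10, hr0, ε₀, hε₀, δ₀, hδ₀, hD⟩ :=
    dens L hL (min κa κb) (lt_min hκa hκb)
  have hKp : 0 < K := by linarith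
  set K' : ℝ := 16 * M * K with hK'
  have hMK : K ≤ M * K := by nlinarith
  have hK'p : 0 < K' := by positivity
  refine ⟨K', by linarith, r₁ / 256, by positivity, by linarith,
    min ε₀ (η * (r₁ / 256) / 4), by positivity, min δ₀ (r₁ / 256 / K'), by positivity, ?_, ?_⟩
  · calc K' * min δ₀ (r₁ / 256 / K') ≤ K' * (r₁ / 256 / K') := by
          gcongr
          exact min_le_right _ _
      _ = r₁ / 256 := by field_simp
  intro δ ε u hδ hδ1 hε hset hlip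
  have hdens := hD δ ε u hδ (hδ1.trans (min_le_left _ _)) (hε.trans (min_le_left _ _)) hset hlip
  have hball := hB (min κa κb) K r₁ r₀ δ u (min_le_right _ _) hK hδ hr10 hr0 hset.onePhase hlip
    hdens
  have hann := hA (min κa κb) K r₁ r₀ δ ε u (min_le_left _ _) hK hδ hr10 hr0 hset hlip hdens
  have hKδ : K * δ ≤ M * K * δ := mul_le_mul_of_nonneg_right hMK hδ.le
  have h8 : 8 * δ ≤ K * δ := mul_le_mul_of_nonneg_right hK hδ.le
  have hK'δ : K' * δ = 16 * (M * K * δ) := by rw [hK']; ring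
  have key : ∀ s : ℝ, K' * δ ≤ s → s ≤ r₁ / 256 → ∃ e : E3, ‖e‖ = 1 ∧
      (∀ x ∈ closure {x | 0 < u x}, s / 2 ≤ ‖x‖ → ‖x‖ ≤ 2 * s → ‖nu u x - e‖ ≤ η / 2) ∧
      (∀ x : E3, s / 2 ≤ ‖x‖ → ‖x‖ ≤ 2 * s → RegPf_Flat u e (σ * (8 * s)) x) := by
    intro s hs1 hs2
    have hs : 0 < s := lt_of_lt_of_le (by positivity) hs1
    obtain ⟨e, he, hfl⟩ := hann (8 * s) (by nlinarith) (by linarith)
    refine ⟨e, he, ?_, ?_⟩
    · exact RegPf_scale (by positivity) hC1 hC hN hball hset.onePhase hlip hδ hK (by linarith)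
        (by linarith) (by linarith) hσ0 hσN hσ1 hσ2 hσ3 he hfl
    · intro x h1 h2
      exact hfl x (by nlinarith) (by linarith)
  refine ⟨⟨?_, ?_⟩, ?_⟩
  · refine hset.onePhase.mono ?_ ?_
    · exact (isOpen_lt continuous_const continuous_norm).inter
        (isOpen_lt continuous_norm continuous_const)
    · rintro x ⟨h1, h2⟩
      exact ⟨by linarith, by linarith⟩
  · intro s hs1 hs2
    have hs : 0 < s := lt_of_lt_of_le (by positivity) hs1
    obtain ⟨e, he, h1, h2⟩ := key s hs1 hs2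
    have hT : σ * (8 * s) ≤ η * s := by nlinarith
    refine ⟨e, he, fun x hx h3 h4 => (h1 x hx h3 h4).trans (by linarith), fun x h3 h4 => ?_⟩
    obtain ⟨h5, h6, h7⟩ := h2 x h3 h4
    exact ⟨h5.trans hT, fun h8 => h6 (by linarith), fun h8 => h7 (by linarith)⟩
  · intro x hx hxr
    have hrp : 0 < r₁ / 256 := by positivity
    have hKr : K' * δ ≤ r₁ / 256 := by
      have h1 : δ ≤ r₁ / 256 / K' := hδ1.trans (min_le_right _ _)
      rw [le_div_iff₀ hK'p] at h1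
      linarith
    obtain ⟨e, he, h1, h2⟩ := key (r₁ / 256) hKr le_rfl
    have h3 := RegPf_outer (u := u) (e := e) (ε := ε) hrp he
      (fun z hz => h2 z (by linarith) (by linarith)) (by positivity)
      (fun z hz hz2 => hset.up z (by rw [hz]; linarith) (by rw [hz]; linarith) hz2)
    have h4 : 2 * max ε (σ * (8 * (r₁ / 256))) / (r₁ / 256) ≤ η / 2 := by
      rw [div_le_iff₀ hrp]
      have h5 : max ε (σ * (8 * (r₁ / 256))) ≤ η * (r₁ / 256) / 4 := by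
        refine max_le (hε.trans (min_le_right _ _)) ?_
        nlinarith
      linarith
    have h5 := h1 x hx (by linarith) (by linarith)
    calc ‖nu u x - e3‖ = ‖(nu u x - e) + (e - e3)‖ := by congr 1; abel
      _ ≤ ‖nu u x - e‖ + ‖e - e3‖ := norm_add_le _ _
      _ ≤ η := by linarith

end Pool.Agent.H32.Flat
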