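import Pool.Agent.H32.Flat.Decay
import Pool.Agent.H32.Flat.RegPf

/-!
# Module R5: no accumulation of rotation

Let `M = M(η₀)` large, `η₁ ≪ η₀`, and `S = {s ∈ [a,b] : ∀ x ∈ closure{0<u}, s ≤ ‖x‖ ≤ b → ‖nu u x - e3‖ ≤ η₀}`
(run the argument with `η₀/4` in place of `η₀`).  `b ∈ S` by hypothesis.
Claim: `s ∈ S → s' := max (s/2) a ∈ S`; then `a ∈ S` by induction (`max (b/2^n) a ∈ S` for all `n`).
Every sphere `‖x‖ = r`, `r ∈ [a,b]`, contains points with `u > 0` (flatness in `Reg.dir`: `x = r e`).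
(1) For `x ∈ closure{0<u}`, `s' ≤ ‖x‖ ≤ s`: with the direction `e` of `Reg.dir` at `s` and a point of
    `{0<u}` of norm `s`: `‖nu x - e3‖ ≤ 2η₁ + η₀ ≤ 1/50`.
(2) `decay` on `s' ≤ ‖x‖ ≤ b` with `e = e3`, `η = η₁`; its hypotheses `hu`, `hF` follow from `Reg`:
    `u x ≤ ⟪x,e⟫ + η₁ r`, and for `FB` `p`: `|⟪p,e⟫| ≤ η₁ r`, `‖nu p - e‖ ≤ η₁` (`Reg.dir` at `r = ‖p‖`).
    So for `‖x‖ = M s'` (if `≤ b`; otherwise take `‖x‖ = b` and `hout`): all horizontal components are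
    `≤ 2η₁ + 1/(40 √M) ≤ η₀/4`.  With `|‖nu‖ - 1| ≤ η₁` and `⟪nu,e3⟫ > 0`: `‖nu x - e3‖ ≤ η₀/2`.
(3) between `s'` and `M s'` (or `b`) there are at most `log₂ M + 1` dyadic steps; consecutive directions
    differ by `≤ 2η₁` (common points of `{0<u}`), so `‖nu x - e3‖ ≤ η₀/2 + C(M)η₁ ≤ η₀` for
    `s' ≤ ‖x‖ ≤ min (M s') b`.  Hence `s' ∈ S`.
(If `s' = b` nothing is to prove; `decay` needs `a < b`.)
The flatness with respect to `e3`: `|⟪x,e⟫ - ⟪x,e3⟫| ≤ ‖x‖ ‖e - e3‖ ≤ ‖x‖ (η₀/4 + η₁)`.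
-/

open Set Metric MeasureTheory Filter Topology InnerProductSpace
open scoped Laplacian Gradient RealInnerProductSpace

namespace Pool.Agent.H32.Flat

theorem Rotate_norm_e3 : ‖e3‖ = 1 := by
  simp [e3]

/-- a vector with small horizontal part, norm close to one, positive vertical part is near `e3` -/
theorem Rotate_near (v : E3) {η h : ℝ} (hn : |‖v‖ - 1| ≤ η) (hpos : 0 ≤ ⟪v, e3⟫)
    (hh : ∀ ξ : E3, ‖ξ‖ = 1 → ⟪ξ, e3⟫ = 0 → ⟪v, ξ⟫ ≤ h) (hh0 : 0 ≤ h) :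
    ‖v - e3‖ ≤ η + 2 * h := by
  set c : ℝ := ⟪v, e3⟫ with hc
  set w : E3 := v - c • e3 with hw
  have he : ‖e3‖ = 1 := Rotate_norm_e3
  have hwe : ⟪w, e3⟫ = 0 := by
    rw [hw, inner_sub_left, inner_smul_left, real_inner_self_eq_norm_sq, he]
    simp [hc]
  have hwn : ‖w‖ ≤ h := by
    by_cases h0 : w = 0
    · rw [h0, norm_zero]; exact hh0
    · have hw0 : 0 < ‖w‖ := norm_pos_iff.2 h0
      have h1 := hh ((1 / ‖w‖) • w) (by
        rw [norm_smul, Real.norm_of_nonneg (by positivity)]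
        field_simp) (by rw [inner_smul_left, hwe]; simp)
      have h2 : ⟪v, (1 / ‖w‖) • w⟫ = ‖w‖ := by
        have hv : v = w + c • e3 := by rw [hw]; abel
        rw [inner_smul_right]
        have h3 : ⟪v, w⟫ = ‖w‖ ^ 2 := by
          conv_lhs => rw [hv]
          rw [inner_add_left, inner_smul_left, real_inner_comm, real_inner_self_eq_norm_sq,
            real_inner_comm w e3, hwe]
          simp
        rw [h3]
        field_simp
      rw [h2] at h1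
      exact h1
  have hv : v - e3 = w + (c - 1) • e3 := by
    rw [hw, sub_smul, one_smul]; abel
  have h1 : ‖v‖ ≤ ‖w‖ + c := by
    have : v = w + c • e3 := by rw [hw]; abel
    calc ‖v‖ = ‖w + c • e3‖ := by rw [← this]
      _ ≤ ‖w‖ + ‖c • e3‖ := norm_add_le _ _
      _ = ‖w‖ + c := by rw [norm_smul, he, mul_one, Real.norm_of_nonneg hpos]
  have h2 : c ≤ ‖v‖ := by
    calc c ≤ ‖v‖ * ‖e3‖ := real_inner_le_norm v e3
      _ = ‖v‖ := by rw [he, mul_one]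
  obtain ⟨h3, h4⟩ := abs_le.1 hn
  have h5 : |c - 1| ≤ η + h := by
    rw [abs_le]
    constructor
    · linarith
    · linarith
  calc ‖v - e3‖ = ‖w + (c - 1) • e3‖ := by rw [hv]
    _ ≤ ‖w‖ + ‖(c - 1) • e3‖ := norm_add_le _ _
    _ = ‖w‖ + |c - 1| := by rw [norm_smul, he, mul_one, Real.norm_eq_abs]
    _ ≤ η + 2 * h := by linarith

/-- the directions of `Reg` -/
def Rotate_Dir (η a b : ℝ) (u : E3 → ℝ) (e : ℝ → E3) : Prop :=
  ∀ s : ℝ, a ≤ s → s ≤ b → ‖e s‖ = 1 ∧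
    (∀ x ∈ closure {x | 0 < u x}, s / 2 ≤ ‖x‖ → ‖x‖ ≤ 2 * s → ‖nu u x - e s‖ ≤ η) ∧
    (∀ x : E3, s / 2 ≤ ‖x‖ → ‖x‖ ≤ 2 * s → |u x - max ⟪x, e s⟫ 0| ≤ η * s ∧
      (η * s < ⟪x, e s⟫ → 0 < u x) ∧ (⟪x, e s⟫ < -(η * s) → u x = 0))

theorem Rotate_dir_exists {η a b : ℝ} {u : E3 → ℝ} (h : Reg η a b u) :
    ∃ e : ℝ → E3, Rotate_Dir η a b u e := by
  have := h.dir
  choose! e he using this
  exact ⟨e, fun s h1 h2 => he s h1 h2⟩

/-- the point `s • e s` -/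
theorem Rotate_top {η a b : ℝ} {u : E3 → ℝ} {e : ℝ → E3} (h : Rotate_Dir η a b u e)
    (ha : 0 < a) (hη : η < 1) {s : ℝ} (h1 : a ≤ s) (h2 : s ≤ b) :
    s • e s ∈ closure {x | 0 < u x} ∧ ‖s • e s‖ = s ∧ ‖nu u (s • e s) - e s‖ ≤ η := by
  obtain ⟨he, hn, hf⟩ := h s h1 h2
  have hs : 0 < s := lt_of_lt_of_le ha h1
  have hns : ‖s • e s‖ = s := by rw [norm_smul, he, mul_one, Real.norm_of_nonneg hs.le]
  have hpos : 0 < u (s • e s) := by
    refine (hf (s • e s) (by rw [hns]; linarith) (by rw [hns]; linarith)).2.1 ?_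
    rw [inner_smul_left, real_inner_self_eq_norm_sq, he]
    simp only [conj_trivial]
    nlinarith
  have hcl : s • e s ∈ closure {x | 0 < u x} := subset_closure hpos
  exact ⟨hcl, hns, hn _ hcl (by rw [hns]; linarith) (by rw [hns]; linarith)⟩

theorem Rotate_step {η a b : ℝ} {u : E3 → ℝ} {e : ℝ → E3} (h : Rotate_Dir η a b u e)
    (ha : 0 < a) (hη : η < 1) {r t : ℝ} (h1 : a ≤ r) (h2 : r ≤ t) (h3 : t ≤ 2 * r) (h4 : t ≤ b) :
    ‖e r - e t‖ ≤ 2 * η := by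
  have hr : 0 < r := lt_of_lt_of_le ha h1
  obtain ⟨hcl, hns, hn⟩ := Rotate_top h ha hη (h1.trans h2) h4
  have h5 := (h r h1 (h2.trans h4)).2.1 _ hcl (by rw [hns]; linarith) (by rw [hns]; linarith)
  calc ‖e r - e t‖ = ‖(nu u (t • e t) - e t) - (nu u (t • e t) - e r)‖ := by congr 1; abel
    _ ≤ ‖nu u (t • e t) - e t‖ + ‖nu u (t • e t) - e r‖ := norm_sub_le _ _
    _ ≤ 2 * η := by linarith

theorem Rotate_chain {η a b : ℝ} {u : E3 → ℝ} {e : ℝ → E3} (h : Rotate_Dir η a b u e)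
    (ha : 0 < a) (hη0 : 0 ≤ η) (hη : η < 1) (k : ℕ) : ∀ r t : ℝ, a ≤ r → r ≤ t → t ≤ 2 ^ k * r →
    t ≤ b → ‖e r - e t‖ ≤ 2 * k * η := by
  induction k with
  | zero =>
    intro r t h1 h2 h3 h4
    have : r = t := by
      rw [pow_zero, one_mul] at h3
      exact le_antisymm h2 h3
    subst this
    simp
  | succ k ih =>
    intro r t h1 h2 h3 h4
    have hr : 0 < r := lt_of_lt_of_le ha h1
    set r' := min (2 * r) t with hr'
    have h5 : r ≤ r' := le_min (by linarith) h2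
    have h6 : r' ≤ 2 * r := min_le_left _ _
    have h7 : r' ≤ t := min_le_right _ _
    have h8 : t ≤ 2 ^ k * r' := by
      rcases min_choice (2 * r) t with hc | hc
      · rw [hr', hc]
        calc t ≤ 2 ^ (k + 1) * r := h3
          _ = 2 ^ k * (2 * r) := by ring
      · rw [hr', hc]
        have ht : 0 < t := lt_of_lt_of_le hr h2
        have : (1 : ℝ) ≤ 2 ^ k := one_le_pow₀ (by norm_num)
        nlinarith
    have h9 := Rotate_step h ha hη h1 h5 h6 (h7.trans h4)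
    have h10 := ih r' t (h1.trans h5) h7 h8 h4
    calc ‖e r - e t‖ = ‖(e r - e r') + (e r' - e t)‖ := by congr 1; abel
      _ ≤ ‖e r - e r'‖ + ‖e r' - e t‖ := norm_add_le _ _
      _ ≤ 2 * η + 2 * k * η := by linarith
      _ = 2 * (k + 1 : ℕ) * η := by push_cast; ring

theorem Rotate_FB {η a b : ℝ} {u : E3 → ℝ} {e : ℝ → E3} (h : Rotate_Dir η a b u e)
    (ha : 0 < a) {p : E3} (h1 : a ≤ ‖p‖) (h2 : ‖p‖ ≤ b) (hF : FB u p) :
    |⟪p, nu u p⟫| ≤ 2 * η * ‖p‖ := by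
  obtain ⟨hp0, hcl⟩ := hF
  obtain ⟨he, hn, hf⟩ := h ‖p‖ h1 h2
  have hs : 0 < ‖p‖ := lt_of_lt_of_le ha h1
  have hnp := hn p hcl (by linarith) (by linarith)
  have hfp := hf p (by linarith) (by linarith)
  have hup : ⟪p, e ‖p‖⟫ ≤ η * ‖p‖ := by
    have := hfp.1
    rw [hp0, zero_sub, abs_neg] at this
    exact (le_max_left _ _).trans ((le_abs_self _).trans this)
  have hlo : -(η * ‖p‖) ≤ ⟪p, e ‖p‖⟫ := by
    by_contra hcon
    push_neg at hcon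
    have hev : ∀ᶠ x in 𝓝 p, u x = 0 := by
      have c1 : ∀ᶠ x in 𝓝 p, ⟪x, e ‖p‖⟫ < -(η * ‖p‖) :=
        (continuous_id.inner continuous_const).continuousAt.eventually_lt
          continuousAt_const hcon
      have c2 : ∀ᶠ x in 𝓝 p, ‖p‖ / 2 < ‖x‖ :=
        continuousAt_const.eventually_lt continuous_norm.continuousAt (by linarith)
      have c3 : ∀ᶠ x in 𝓝 p, ‖x‖ < 2 * ‖p‖ :=
        continuous_norm.continuousAt.eventually_lt continuousAt_const (by linarith)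
      filter_upwards [c1, c2, c3] with x hx1 hx2 hx3
      exact (hf x hx2.le hx3.le).2.2 hx1
    obtain ⟨x, hx1, hx2⟩ := (mem_closure_iff_frequently.1 hcl |>.and_eventually hev).exists
    simp only [mem_setOf_eq] at hx1
    linarith
  have h3 : ⟪p, nu u p⟫ = ⟪p, e ‖p‖⟫ + ⟪p, nu u p - e ‖p‖⟫ := by
    rw [← inner_add_right]; congr 1; abel
  have h4 : |⟪p, nu u p - e ‖p‖⟫| ≤ ‖p‖ * η :=
    (abs_real_inner_le_norm _ _).trans (mul_le_mul_of_nonneg_left hnp hs.le)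
  obtain ⟨h5, h6⟩ := abs_le.1 h4
  rw [h3, abs_le]
  constructor <;> nlinarith

/-- the induction step -/
theorem Rotate_ind {η θ a b : ℝ} {u : E3 → ℝ} {e : ℝ → E3} {n : ℕ}
    (hreg : Reg η a b u) (h : Rotate_Dir η a b u e) (ha : 0 < a) (hη0 : 0 ≤ η)
    (hθ : θ ≤ 1 / 100) (hη1 : η ≤ 1 / 200) (hM : 1 / (20 * 2 ^ n) ≤ θ / 2)
    (hη : (7 + 4 * n) * η ≤ θ / 2)
    (hout : ∀ x ∈ closure {x | 0 < u x}, ‖x‖ = b → ‖nu u x - e3‖ ≤ η)
    {s : ℝ} (has : a ≤ s) (hsb : s ≤ b)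
    (hP : ∀ x ∈ closure {x | 0 < u x}, s ≤ ‖x‖ → ‖x‖ ≤ b → ‖nu u x - e3‖ ≤ θ) :
    ∀ x ∈ closure {x | 0 < u x}, max (s / 2) a ≤ ‖x‖ → ‖x‖ ≤ b → ‖nu u x - e3‖ ≤ θ := by
  set s' := max (s / 2) a with hs'
  have hs : 0 < s := lt_of_lt_of_le ha has
  have hsa : a ≤ s' := le_max_right _ _
  have hs2 : s / 2 ≤ s' := le_max_left _ _
  have hss : s' ≤ s := max_le (by linarith) has
  have hs'0 : 0 < s' := lt_of_lt_of_le ha hsa
  have hs'b : s' ≤ b := hss.trans hsb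
  have hη' : η < 1 := by linarith
  -- step 1
  have hone : ∀ x ∈ closure {x | 0 < u x}, s' ≤ ‖x‖ → ‖x‖ ≤ b → ‖nu u x - e3‖ ≤ 1 / 50 := by
    intro x hx h1 h2
    by_cases hxs : s ≤ ‖x‖
    · exact (hP x hx hxs h2).trans (by linarith)
    · push_neg at hxs
      obtain ⟨hcl, hns, hn⟩ := Rotate_top h ha hη' has hsb
      have h3 := hP _ hcl (by rw [hns]) (by rw [hns]; exact hsb)
      have h4 := (h s has hsb).2.1 x hx (by linarith) (by linarith)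
      calc ‖nu u x - e3‖ = ‖(nu u x - e s) + ((nu u (s • e s) - e3) - (nu u (s • e s) - e s))‖ := by
            congr 1; abel
        _ ≤ ‖nu u x - e s‖ + ‖(nu u (s • e s) - e3) - (nu u (s • e s) - e s)‖ := norm_add_le _ _
        _ ≤ ‖nu u x - e s‖ + (‖nu u (s • e s) - e3‖ + ‖nu u (s • e s) - e s‖) := by
            gcongr
            exact norm_sub_le _ _
        _ ≤ 1 / 50 := by linarith
  rcases eq_or_lt_of_le hs'b with hEq | hlt
  · intro x hx h1 h2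
    have : ‖x‖ = b := le_antisymm h2 (by rw [← hEq]; exact h1)
    have h3 : 0 ≤ (n : ℝ) * η := by positivity
    have := hout x hx this
    nlinarith only [hη0, hη, this]
  -- step 2
  have hdec := decay hreg.onePhase hs'0 hlt (e := e3) (η := η) (by
      rintro x ⟨h1, h2⟩
      exact ⟨by linarith, by linarith⟩) Rotate_norm_e3 hone (by
      intro x h1 h2 hpos
      obtain ⟨he, hn, hf⟩ := h ‖x‖ (hsa.trans h1) h2
      have hx0 : 0 < ‖x‖ := lt_of_lt_of_le hs'0 h1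
      have h3 := (abs_le.1 (hf x (by linarith) (by linarith)).1).2
      have h4 : max ⟪x, e ‖x‖⟫ 0 ≤ ‖x‖ := by
        refine max_le ?_ hx0.le
        calc ⟪x, e ‖x‖⟫ ≤ ‖x‖ * ‖e ‖x‖‖ := real_inner_le_norm _ _
          _ = ‖x‖ := by rw [he, mul_one]
      nlinarith only [hη1, hs2, hss, h1, h3, h4]) (by
      intro p h1 h2 hF
      have := Rotate_FB h ha (hsa.trans h1) h2 hF
      have hp0 : 0 < ‖p‖ := lt_of_lt_of_le hs'0 h1
      nlinarith only [hη1, hs2, hss, h1, this]) hη0 hout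
  have htwo : ∀ x ∈ closure {x | 0 < u x}, 4 ^ n * s' ≤ ‖x‖ → ‖x‖ ≤ b →
      ‖nu u x - e3‖ ≤ 5 * η + θ / 2 := by
    intro x hx h1 h2
    have hp : (1 : ℝ) ≤ 4 ^ n := one_le_pow₀ (by norm_num)
    have h1' : s' ≤ ‖x‖ := le_trans (by nlinarith only [ha, hsa, hp]) h1
    have hx0 : 0 < ‖x‖ := lt_of_lt_of_le hs'0 h1'
    obtain ⟨he, hn, hf⟩ := h ‖x‖ (hsa.trans h1') h2
    have h3 := hn x hx (by linarith) (by linarith)
    have hnorm : |‖nu u x‖ - 1| ≤ η := by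
      rw [← he]
      exact (abs_norm_sub_norm_le _ _).trans h3
    have hpos : 0 ≤ ⟪nu u x, e3⟫ := by
      have h4 := hone x hx h1' h2
      have h5 : ⟪nu u x, e3⟫ = 1 + ⟪nu u x - e3, e3⟫ := by
        rw [inner_sub_left, real_inner_self_eq_norm_sq, Rotate_norm_e3]; ring
      have h6 : |⟪nu u x - e3, e3⟫| ≤ 1 / 50 := by
        calc |⟪nu u x - e3, e3⟫| ≤ ‖nu u x - e3‖ * ‖e3‖ := abs_real_inner_le_norm _ _
          _ ≤ 1 / 50 := by rw [Rotate_norm_e3, mul_one]; exact h4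
      have := (abs_le.1 h6).1
      linarith
    have hsq : Real.sqrt (s' / ‖x‖) ≤ 1 / 2 ^ n := by
      rw [Real.sqrt_le_left (by positivity), div_le_iff₀ hx0]
      have h7 : (1 / 2 ^ n : ℝ) ^ 2 * 4 ^ n = 1 := by
        rw [div_pow, one_pow, ← pow_mul, mul_comm n 2, pow_mul]
        norm_num
      calc s' = (1 / 2 ^ n : ℝ) ^ 2 * (4 ^ n * s') := by rw [← mul_assoc, h7, one_mul]
        _ ≤ (1 / 2 ^ n : ℝ) ^ 2 * ‖x‖ := by gcongr
    have hh := Rotate_near (nu u x) hnorm hpos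
      (h := 2 * η + 1 / 40 * (1 / 2 ^ n)) (fun ξ hξ1 hξ2 => by
        refine (hdec x hx h1' h2 ξ hξ1 hξ2).trans ?_
        gcongr) (by positivity)
    have h8 : 2 * (1 / 40 * (1 / 2 ^ n : ℝ)) = 1 / (20 * 2 ^ n) := by
      field_simp
      norm_num
    linarith
  -- step 3
  intro x hx h1 h2
  have hx0 : 0 < ‖x‖ := lt_of_lt_of_le hs'0 h1
  have hnη : 0 ≤ (n : ℝ) * η := by positivity
  by_cases hbig : 4 ^ n * s' ≤ ‖x‖
  · have := htwo x hx hbig h2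
    nlinarith only [hη0, hη, this]
  push_neg at hbig
  set t := min (4 ^ n * s') b with ht
  have ht1 : ‖x‖ ≤ t := le_min hbig.le h2
  have ht2 : t ≤ b := min_le_right _ _
  have ht3 : t ≤ 2 ^ (2 * n) * ‖x‖ := by
    calc t ≤ 4 ^ n * s' := min_le_left _ _
      _ ≤ 4 ^ n * ‖x‖ := by gcongr
      _ = 2 ^ (2 * n) * ‖x‖ := by rw [pow_mul]; norm_num
  have hch := Rotate_chain h ha hη0 hη' (2 * n) ‖x‖ t (hsa.trans h1) ht1 ht3 ht2
  obtain ⟨hcl, hns, hn⟩ := Rotate_top h ha hη' ((hsa.trans h1).trans ht1) ht2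
  have h5 : ‖nu u (t • e t) - e3‖ ≤ 5 * η + θ / 2 := by
    rcases min_choice (4 ^ n * s') b with hc | hc
    · exact htwo _ hcl (by rw [hns, ht, hc]) (by rw [hns]; exact ht2)
    · have h6 := hout _ hcl (by rw [hns, ht, hc])
      nlinarith only [hη0, hη, h6]
  have h7 := (h ‖x‖ (hsa.trans h1) h2).2.1 x hx (by linarith) (by linarith)
  calc ‖nu u x - e3‖ = ‖(nu u x - e ‖x‖) + ((e ‖x‖ - e t) +
        ((nu u (t • e t) - e3) - (nu u (t • e t) - e t)))‖ := by congr 1; abel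
    _ ≤ ‖nu u x - e ‖x‖‖ + (‖e ‖x‖ - e t‖ +
        (‖nu u (t • e t) - e3‖ + ‖nu u (t • e t) - e t‖)) := by
        refine (norm_add_le _ _).trans ?_
        gcongr
        refine (norm_add_le _ _).trans ?_
        gcongr
        exact norm_sub_le _ _
    _ ≤ η + (2 * (2 * n : ℕ) * η + ((5 * η + θ / 2) + η)) := by gcongr
    _ ≤ θ := by push_cast; nlinarith only [hη]

theorem rotation_control : ∀ η₀ : ℝ, 0 < η₀ → η₀ ≤ 1 / 100 → ∃ η₁ : ℝ, 0 < η₁ ∧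
    ∀ (a b : ℝ) (u : E3 → ℝ), 0 < a → a ≤ b → Reg η₁ a b u →
    (∀ x ∈ closure {x | 0 < u x}, ‖x‖ = b → ‖nu u x - e3‖ ≤ η₁) →
    (∀ x ∈ closure {x | 0 < u x}, a ≤ ‖x‖ → ‖x‖ ≤ b → ‖nu u x - e3‖ ≤ η₀) ∧
    (∀ x : E3, a ≤ ‖x‖ → ‖x‖ ≤ b → (η₀ * ‖x‖ < ⟪x, e3⟫ → 0 < u x) ∧
      (⟪x, e3⟫ < -(η₀ * ‖x‖) → u x = 0)) := by
  intro η₀ h0 h01
  set θ : ℝ := η₀ / 4 with hθ
  have hθ0 : 0 < θ := by positivity
  obtain ⟨n, hn⟩ : ∃ n : ℕ, 1 / (10 * θ) < 2 ^ n := pow_unbounded_of_one_lt _ (by norm_num)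
  have hM : 1 / (20 * 2 ^ n) ≤ θ / 2 := by
    rw [div_lt_iff₀ (by positivity)] at hn
    rw [div_le_iff₀ (by positivity)]
    nlinarith
  refine ⟨θ / (2 * (7 + 4 * n)), by positivity, ?_⟩
  set η : ℝ := θ / (2 * (7 + 4 * n)) with hη
  have hη0 : 0 < η := by positivity
  have hηθ : (7 + 4 * n) * η = θ / 2 := by
    rw [hη]
    field_simp
  have hn0 : (0 : ℝ) ≤ n := Nat.cast_nonneg n
  have hη14 : 14 * η ≤ θ := by nlinarith
  intro a b u ha hab hreg hout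
  obtain ⟨e, he⟩ := Rotate_dir_exists hreg
  have hb : 0 < b := lt_of_lt_of_le ha hab
  have hseq : ∀ k : ℕ, ∀ x ∈ closure {x | 0 < u x}, max (b / 2 ^ k) a ≤ ‖x‖ → ‖x‖ ≤ b →
      ‖nu u x - e3‖ ≤ θ := by
    intro k
    induction k with
    | zero =>
      intro x hx h1 h2
      have h3 : b ≤ ‖x‖ := by
        have := (le_max_left (b / 2 ^ 0) a).trans h1
        simpa using this
      exact (hout x hx (le_antisymm h2 h3)).trans (by linarith)
    | succ k ih =>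
      have hsb : max (b / 2 ^ k) a ≤ b := by
        refine max_le ?_ hab
        exact div_le_self hb.le (one_le_pow₀ (by norm_num))
      have := Rotate_ind hreg he ha hη0.le (by linarith : θ ≤ 1 / 100) (by linarith) hM hηθ.le hout
        (le_max_right _ _) hsb ih
      intro x hx h1 h2
      refine this x hx (le_trans ?_ h1) h2
      refine max_le ?_ (le_max_right _ _)
      rcases max_choice (b / 2 ^ k) a with hc | hc
      · rw [hc]
        refine le_trans (le_of_eq ?_) (le_max_left _ _)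
        rw [pow_succ]; field_simp
      · rw [hc]
        exact le_trans (by linarith) (le_max_right _ _)
  have hmain : ∀ x ∈ closure {x | 0 < u x}, a ≤ ‖x‖ → ‖x‖ ≤ b → ‖nu u x - e3‖ ≤ θ := by
    obtain ⟨k, hk⟩ : ∃ k : ℕ, b / a < 2 ^ k := pow_unbounded_of_one_lt _ (by norm_num)
    intro x hx h1 h2
    refine hseq k x hx (max_le ?_ h1) h2
    rw [div_le_iff₀ (by positivity)]
    rw [div_lt_iff₀ ha] at hk
    nlinarith only [ha, hab, hk, h1]
  refine ⟨fun x hx h1 h2 => (hmain x hx h1 h2).trans (by linarith), ?_⟩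
  intro x h1 h2
  have hx0 : 0 < ‖x‖ := lt_of_lt_of_le ha h1
  obtain ⟨hcl, hns, hnn⟩ := Rotate_top he ha (by linarith) h1 h2
  have h3 := hmain _ hcl (by rw [hns]; exact h1) (by rw [hns]; exact h2)
  have h4 : ‖e ‖x‖ - e3‖ ≤ θ + η := by
    calc ‖e ‖x‖ - e3‖ = ‖(nu u (‖x‖ • e ‖x‖) - e3) - (nu u (‖x‖ • e ‖x‖) - e ‖x‖)‖ := by
          congr 1; abel
      _ ≤ ‖nu u (‖x‖ • e ‖x‖) - e3‖ + ‖nu u (‖x‖ • e ‖x‖) - e ‖x‖‖ := norm_sub_le _ _
      _ ≤ θ + η := by linarith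
  have h5 : |⟪x, e ‖x‖ - e3⟫| ≤ ‖x‖ * (θ + η) :=
    (abs_real_inner_le_norm _ _).trans (mul_le_mul_of_nonneg_left h4 hx0.le)
  obtain ⟨h6, h7⟩ := abs_le.1 h5
  rw [inner_sub_right] at h6 h7
  obtain ⟨-, h8, h9⟩ := (he ‖x‖ h1 h2).2.2 x (by linarith) (by linarith)
  constructor
  · intro h10
    apply h8
    nlinarith only [hθ, hη0, hη14, ha, h1, h6, h10]
  · intro h10
    apply h9
    nlinarith only [hθ, hη0, hη14, ha, h1, h7, h10]

end Pool.Agent.H32.Flat
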