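import Pool.Agent.H32.Flat.Meets
import Pool.Agent.H32.Flat.Rotate
import Pool.Agent.H32.Flat.GraphPf

/-!
# The final assembly for MP_4bb143_an
-/

open Set Metric MeasureTheory Filter Topology InnerProductSpace
open scoped Laplacian Gradient RealInnerProductSpace

namespace Pool.Agent.H32.Flat

theorem setup_graph : ∃ δ₀ > (0 : ℝ), ∃ ε > (0 : ℝ), ∃ C > (0 : ℝ), ∀ (δ : ℝ) (u : E3 → ℝ),
    0 < δ → δ ≤ δ₀ → Setup δ ε u →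
    ∃ g : EuclideanSpace ℝ (Fin 2) → ℝ, ContDiff ℝ 1 g ∧ (∀ z, ‖fderiv ℝ g z‖ ≤ 1 / 100) ∧
      ∀ x : E3, C * δ < ‖x‖ → ‖x‖ < 1 / C → (FB u x ↔ x 2 = g !₂[x 0, x 1]) := by
  obtain ⟨L, hL1, hL⟩ := lip_bound
  obtain ⟨η₁, hη₁, hrot⟩ := rotation_control (1 / 1000) (by norm_num) (by norm_num)
  obtain ⟨K, hK, r, hr, hr16, ε₀, hε₀, δ₀, hδ₀, hKδ, hreg⟩ := reg_of_setup L hL1 η₁ hη₁
  refine ⟨min δ₀ (1 / 8), lt_min hδ₀ (by norm_num), ε₀, hε₀, max (4 * K) (4 / r), ?_, ?_⟩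
  · exact lt_max_of_lt_left (by linarith)
  intro δ u hδ hδle hset
  have hδ1 : δ ≤ δ₀ := hδle.trans (min_le_left _ _)
  have hδ2 : δ ≤ 1 / 8 := hδle.trans (min_le_right _ _)
  have hlip : LipOn L δ u := fun x h1 h2 h3 => hL δ ε₀ u hδ hδ2 hset x h1 h2 h3
  obtain ⟨hR, hout⟩ := hreg δ ε₀ u hδ hδ1 le_rfl hset hlip
  have hKpos : 0 < K * δ := by positivity
  have hab : K * δ ≤ r := (mul_le_mul_of_nonneg_left hδ1 (by linarith)).trans hKδ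
  obtain ⟨hnu, hflat⟩ := hrot (K * δ) r u hKpos hab hR hout
  have hO : {x : E3 | K * δ ≤ ‖x‖ ∧ ‖x‖ ≤ r} ⊆ {x | K * δ / 4 < ‖x‖ ∧ ‖x‖ < 4 * r} := by
    rintro x ⟨h1, h2⟩
    exact ⟨by linarith, by linarith⟩
  obtain ⟨g, hg1, hg2, hg3⟩ := graph_of_regular hR.onePhase hKpos hO hnu hflat
  refine ⟨g, hg1, hg2, fun x hx1 hx2 => hg3 x ?_ ?_⟩
  · have : 4 * K * δ ≤ max (4 * K) (4 / r) * δ :=
      mul_le_mul_of_nonneg_right (le_max_left _ _) hδ.le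
    linarith
  · have h1 : 4 / r ≤ max (4 * K) (4 / r) := le_max_right _ _
    have h2 : 1 / max (4 * K) (4 / r) ≤ 1 / (4 / r) :=
      one_div_le_one_div_of_le (by positivity) h1
    have h3 : 1 / (4 / r) = r / 4 := by field_simp
    linarith

/-- the answer to Q1 -/
theorem main : ∃ δ₀ > (0 : ℝ), ∃ ε > (0 : ℝ), ∃ C > (0 : ℝ), ∀ (δ : ℝ), 0 < δ → δ ≤ δ₀ →
    ∀ (Ω : Set E3) (u : E3 → ℝ),
    (Ω = {x | δ < ‖x‖ ∧ ‖x‖ < 1} ∨ Ω = {x | δ ≤ ‖x‖ ∧ ‖x‖ < 1}) →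
    IsClassical Ω u → ContractibleSpace (posPhase Ω u) → ContractibleSpace (zeroPhase Ω u) →
    (∀ x ∈ Ω, ε < x 2 → x ∈ posPhase Ω u) → (∀ x ∈ Ω, x 2 < -ε → x ∈ zeroPhase Ω u) →
    ∃ g : EuclideanSpace ℝ (Fin 2) → ℝ, ContDiff ℝ 1 g ∧ (∀ z, ‖fderiv ℝ g z‖ ≤ 1 / 100) ∧
      freeBdry Ω u ∩ {x | C * δ < ‖x‖ ∧ ‖x‖ < 1 / C} =
        {x | (C * δ < ‖x‖ ∧ ‖x‖ < 1 / C) ∧ x 2 = g !₂[x 0, x 1]} := by
  obtain ⟨δ₀, hδ₀, ε, hε, C, hC, H⟩ := setup_graph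
  refine ⟨min δ₀ (1 / 2), lt_min hδ₀ (by norm_num), ε, hε, max C 1, lt_max_of_lt_left hC, ?_⟩
  intro δ hδ hδle Ω u hΩ hcl hp hz hup hdown
  have hδ1 : δ ≤ δ₀ := hδle.trans (min_le_left _ _)
  have hδ2 : δ ≤ 1 / 2 := hδle.trans (min_le_right _ _)
  have hset : Setup δ ε u := setup_of_classical hδ (by linarith) hΩ hcl hp hz
    (fun x hx hx2 => (hup x hx hx2).2) (fun x hx hx2 => (hdown x hx hx2).2)
  obtain ⟨g, hg1, hg2, hg3⟩ := H δ u hδ hδ1 hset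
  refine ⟨g, hg1, hg2, ?_⟩
  have key : ∀ x : E3, max C 1 * δ < ‖x‖ → ‖x‖ < 1 / max C 1 →
      (x ∈ freeBdry Ω u ↔ x 2 = g !₂[x 0, x 1]) := by
    intro x h1 h2
    have hC1 : C * δ ≤ max C 1 * δ := mul_le_mul_of_nonneg_right (le_max_left _ _) hδ.le
    have hC2 : 1 * δ ≤ max C 1 * δ := mul_le_mul_of_nonneg_right (le_max_right _ _) hδ.le
    have hC3 : 1 / max C 1 ≤ 1 / C := one_div_le_one_div_of_le hC (le_max_left _ _)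
    have hC4 : 1 / max C 1 ≤ 1 / 1 := one_div_le_one_div_of_le one_pos (le_max_right _ _)
    rw [← FB_iff_mem_freeBdry hδ hΩ hcl (by linarith) (by linarith)]
    exact hg3 x (by linarith) (by linarith)
  ext x
  simp only [mem_inter_iff, mem_setOf_eq]
  constructor
  · rintro ⟨hx, h1, h2⟩
    exact ⟨⟨h1, h2⟩, (key x h1 h2).1 hx⟩
  · rintro ⟨⟨h1, h2⟩, hx⟩
    exact ⟨(key x h1 h2).2 hx, h1, h2⟩

end Pool.Agent.H32.Flat
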