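import Pool.Agent.H32.Flat.MeanVal

/-!
# Module H2: Harnack inequality and gradient estimate

From `mean_value` (all constants universal; `R` arbitrary by scaling):
* `harnack`: for `x, y ∈ closedBall z (R/2)`... chain: for `x` with `ball x (4s) ⊆ ball z R` and
  `‖x - y‖ ≤ s`:  `f x ≤ C s⁻³ ∫_{B_s(x)} f ≤ C s⁻³ ∫_{B_{2s}(y)} f ≤ C' f y`, using that the weight
  `wt(‖·‖²)^4` is `≤ 1`, supported in the unit ball and `≥ (3/4)^4` on the ball of radius `1/2`.
  Then a fixed number of steps.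
* `grad_bound`: differentiate `mm * f z = ∫ wt(‖y‖²)^4 f(z + r y) dy` in `z`, move the derivative to
  the weight, bound by `C M / r`.
-/

open Set Metric MeasureTheory Filter Topology InnerProductSpace
open scoped Laplacian Gradient RealInnerProductSpace

namespace Pool.Agent.H32.Flat

theorem Harnack_wt_nonneg (t : ℝ) : 0 ≤ wt t := le_max_right _ _

theorem Harnack_wt_le_one {t : ℝ} (ht : 0 ≤ t) : wt t ≤ 1 := by
  unfold wt
  exact max_le (by linarith) zero_le_one

theorem Harnack_wt_eq_zero {v : E3} (hv : 1 < ‖v‖) : wt (‖v‖ ^ 2) = 0 := by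
  unfold wt
  apply max_eq_right
  nlinarith

theorem Harnack_cont : Continuous (fun v : E3 => wt (‖v‖ ^ 2) ^ 4) := by
  unfold wt
  fun_prop

theorem Harnack_integrable {f : E3 → ℝ} {U : Set E3} (hf : ContinuousOn f U) {p : E3} {r : ℝ}
    (hr : 0 < r) (hp : closedBall p r ⊆ U) :
    Integrable (fun v : E3 => wt (‖v‖ ^ 2) ^ 4 * f (p + r • v)) := by
  have h1 : ContinuousOn (fun v : E3 => wt (‖v‖ ^ 2) ^ 4 * f (p + r • v)) (closedBall 0 1) := by
    refine Harnack_cont.continuousOn.mul (hf.comp (by fun_prop) ?_)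
    intro v hv
    apply hp
    rw [mem_closedBall, dist_eq_norm] at hv ⊢
    rw [add_sub_cancel_left, norm_smul, Real.norm_of_nonneg hr.le]
    rw [sub_zero] at hv
    nlinarith [norm_nonneg v]
  have h2 : IntegrableOn (fun v : E3 => wt (‖v‖ ^ 2) ^ 4 * f (p + r • v)) (closedBall 0 1) :=
    h1.integrableOn_compact (isCompact_closedBall _ _)
  rwa [integrableOn_iff_integrable_of_support_subset] at h2
  intro v hv
  by_contra hv'
  rw [mem_closedBall, dist_zero_right, not_le] at hv'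
  apply hv
  simp [Harnack_wt_eq_zero hv']

theorem Harnack_step {f : E3 → ℝ} {z x y : E3} {R s : ℝ} (hs : 0 < s)
    (hf : ∀ w ∈ ball z R, HarmonicAt f w) (h0 : ∀ w ∈ ball z R, 0 ≤ f w)
    (hx : ball x (8 * s) ⊆ ball z R) (hy : ball y (8 * s) ⊆ ball z R) (hxy : ‖x - y‖ ≤ s) :
    f x ≤ 64 * (256 / 81) * f y := by
  have hcf : ContinuousOn f (ball z R) := fun w hw => (hf w hw).1.continuousAt.continuousWithinAt
  have e1 := mean_value (r := s) (fun w hw => hf w (hx hw)) hs (by linarith)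
  have e2 := mean_value (r := 4 * s) (fun w hw => hf w (hy hw)) (by linarith) (by linarith)
  -- substitution `v = s⁻¹ • (y - x) + 4 v'`
  have e3 : ∫ v : E3, wt (‖v‖ ^ 2) ^ 4 * f (x + s • v) =
      64 * ∫ v : E3, wt (‖s⁻¹ • (y - x) + (4 : ℝ) • v‖ ^ 2) ^ 4 * f (y + (4 * s) • v) := by
    have h1 := integral_add_left_eq_self (μ := (volume : Measure E3))
      (fun v : E3 => wt (‖v‖ ^ 2) ^ 4 * f (x + s • v)) (s⁻¹ • (y - x))
    have h2 := Measure.integral_comp_smul (μ := (volume : Measure E3))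
      (fun v : E3 => wt (‖s⁻¹ • (y - x) + v‖ ^ 2) ^ 4 * f (x + s • (s⁻¹ • (y - x) + v))) (4 : ℝ)
    rw [← h1]
    have h3 : (Module.finrank ℝ E3) = 3 := by simp
    rw [h3] at h2
    have h4 : (fun v : E3 => wt (‖s⁻¹ • (y - x) + (4 : ℝ) • v‖ ^ 2) ^ 4 *
        f (x + s • (s⁻¹ • (y - x) + (4 : ℝ) • v))) =
        fun v : E3 => wt (‖s⁻¹ • (y - x) + (4 : ℝ) • v‖ ^ 2) ^ 4 * f (y + (4 * s) • v) := by
      funext v
      congr 2
      rw [smul_add, smul_smul, mul_inv_cancel₀ hs.ne', one_smul, smul_smul, mul_comm s 4]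
      abel
    rw [h4] at h2
    rw [h2, smul_eq_mul, abs_of_pos (by positivity)]
    ring
  have e4 : ∫ v : E3, wt (‖s⁻¹ • (y - x) + (4 : ℝ) • v‖ ^ 2) ^ 4 * f (y + (4 * s) • v) ≤
      ∫ v : E3, (256 / 81) * (wt (‖v‖ ^ 2) ^ 4 * f (y + (4 * s) • v)) := by
    have hfy : ∀ v : E3, ‖v‖ ≤ 1 → 0 ≤ f (y + (4 * s) • v) := by
      intro v hv
      apply h0 _ (hy _)
      rw [mem_ball, dist_eq_norm, add_sub_cancel_left, norm_smul,
        Real.norm_of_nonneg (by linarith)]
      nlinarith [norm_nonneg v]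
    have hkey : ∀ v : E3, 1 / 2 < ‖v‖ → wt (‖s⁻¹ • (y - x) + (4 : ℝ) • v‖ ^ 2) = 0 := by
      intro v hv
      apply Harnack_wt_eq_zero
      have h1 : ‖(4 : ℝ) • v‖ ≤ ‖s⁻¹ • (y - x) + (4 : ℝ) • v‖ + ‖s⁻¹ • (y - x)‖ := by
        have := norm_sub_le (s⁻¹ • (y - x) + (4 : ℝ) • v) (s⁻¹ • (y - x))
        simpa using this
      have h2 : ‖s⁻¹ • (y - x)‖ ≤ 1 := by
        rw [norm_smul, norm_sub_rev, Real.norm_of_nonneg (by positivity)]
        rw [inv_mul_le_iff₀ hs]
        simpa using hxy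
      have h3 : ‖(4 : ℝ) • v‖ = 4 * ‖v‖ := by
        rw [norm_smul]; norm_num
      linarith
    apply integral_mono_of_nonneg
    · refine Eventually.of_forall fun v => ?_
      show 0 ≤ _
      rcases le_or_gt ‖v‖ (1 / 2) with hv | hv
      · exact mul_nonneg (pow_nonneg (Harnack_wt_nonneg _) _) (hfy v (by linarith))
      · simp [hkey v hv]
    · refine (Harnack_integrable hcf (by linarith : 0 < 4 * s) ?_).const_mul _
      exact (closedBall_subset_ball (by linarith)).trans hy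
    · refine Eventually.of_forall fun v => ?_
      show _ ≤ (256 / 81) * (wt (‖v‖ ^ 2) ^ 4 * f (y + (4 * s) • v))
      rcases le_or_gt ‖v‖ (1 / 2) with hv | hv
      · have h1 : wt (‖s⁻¹ • (y - x) + (4 : ℝ) • v‖ ^ 2) ^ 4 ≤ 1 :=
          pow_le_one₀ (Harnack_wt_nonneg _) (Harnack_wt_le_one (by positivity))
        have h2 : (3 / 4 : ℝ) ≤ wt (‖v‖ ^ 2) := by
          unfold wt
          apply le_max_of_le_left
          nlinarith [norm_nonneg v]
        have h3 : (3 / 4 : ℝ) ^ 4 ≤ wt (‖v‖ ^ 2) ^ 4 := by gcongr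
        have h4 := hfy v (by linarith)
        rw [← mul_assoc]
        apply mul_le_mul_of_nonneg_right _ h4
        norm_num at h3 ⊢
        linarith
      · simp only [hkey v hv]
        rcases le_or_gt ‖v‖ 1 with hv1 | hv1
        · have h4 := hfy v hv1
          have := pow_nonneg (Harnack_wt_nonneg (‖v‖ ^ 2)) 4
          simp only [ne_eq, OfNat.ofNat_ne_zero, not_false_eq_true, zero_pow, zero_mul]
          positivity
        · simp [Harnack_wt_eq_zero hv1]
  rw [e3] at e1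
  rw [integral_const_mul, e2] at e4
  have hm := mm_pos
  have : mm * f x ≤ mm * (64 * (256 / 81) * f y) := by
    rw [← e1]
    nlinarith
  exact le_of_mul_le_mul_left this hm

theorem harnack : ∃ C : ℝ, 1 ≤ C ∧ ∀ (f : E3 → ℝ) (z : E3) (R : ℝ), 0 < R →
    (∀ x ∈ ball z R, HarmonicAt f x) → (∀ x ∈ ball z R, 0 ≤ f x) →
    ∀ x ∈ closedBall z (R / 2), ∀ y ∈ closedBall z (R / 2), f x ≤ C * f y := by
  refine ⟨(64 * (256 / 81)) ^ 16, by norm_num, ?_⟩
  intro f z R hR hf h0 x hx y hy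
  set p : ℕ → E3 := fun i => AffineMap.lineMap x y ((i : ℝ) / 16) with hp
  have hpm : ∀ i : ℕ, i ≤ 16 → p i ∈ closedBall z (R / 2) := by
    intro i hi
    apply (convex_closedBall z (R / 2)).lineMap_mem hx hy
    have : (i : ℝ) ≤ 16 := by exact_mod_cast hi
    constructor
    · positivity
    · rw [div_le_one (by norm_num)]; exact this
  have hsub : ∀ w ∈ closedBall z (R / 2), ball w (8 * (R / 16)) ⊆ ball z R := by
    intro w hw
    apply ball_subset_ball'
    rw [mem_closedBall] at hw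
    linarith
  have hxy : ‖x - y‖ ≤ R := by
    rw [mem_closedBall] at hx hy
    rw [← dist_eq_norm]
    have := dist_triangle_right x y z
    linarith
  have hstep : ∀ i : ℕ, i + 1 ≤ 16 → f (p i) ≤ 64 * (256 / 81) * f (p (i + 1)) := by
    intro i hi
    apply Harnack_step (by linarith : 0 < R / 16) hf h0 (hsub _ (hpm i (by omega)))
      (hsub _ (hpm (i + 1) hi))
    have : p i - p (i + 1) = (1 / 16 : ℝ) • (x - y) := by
      simp only [hp, AffineMap.lineMap_apply, vsub_eq_sub, vadd_eq_add]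
      push_cast
      module
    rw [this, norm_smul, Real.norm_of_nonneg (by norm_num)]
    linarith
  have hall : ∀ i : ℕ, i ≤ 16 → f x ≤ (64 * (256 / 81)) ^ i * f (p i) := by
    intro i
    induction i with
    | zero => intro _; simp [hp]
    | succ i ih =>
      intro hi
      have h1 := ih (by omega)
      have h2 := hstep i hi
      calc f x ≤ (64 * (256 / 81)) ^ i * f (p i) := h1
        _ ≤ (64 * (256 / 81)) ^ i * (64 * (256 / 81) * f (p (i + 1))) := by gcongr
        _ = (64 * (256 / 81)) ^ (i + 1) * f (p (i + 1)) := by ring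
  have h16 := hall 16 le_rfl
  have : p 16 = y := by simp [hp]
  rwa [this] at h16

theorem Harnack_lip {v w : E3} (h : ‖v - w‖ ≤ 1) :
    |wt (‖v‖ ^ 2) ^ 4 - wt (‖w‖ ^ 2) ^ 4| ≤ 16 * ‖v - w‖ := by
  by_cases hvw : 1 < ‖v‖ ∧ 1 < ‖w‖
  · rw [Harnack_wt_eq_zero hvw.1, Harnack_wt_eq_zero hvw.2]
    simp
  have hn1 := norm_le_norm_add_norm_sub' v w
  have hn2 := norm_le_norm_add_norm_sub' w v
  rw [norm_sub_rev w v] at hn2
  have hvw' : ‖v‖ ≤ 2 ∧ ‖w‖ ≤ 2 := by
    rcases le_or_gt ‖v‖ 1 with hv | hv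
    · constructor <;> linarith
    · have hw : ‖w‖ ≤ 1 := by
        by_contra hw
        exact hvw ⟨hv, not_le.1 hw⟩
      constructor <;> linarith
  obtain ⟨hv2, hw2⟩ := hvw'
  have h1 : |‖v‖ - ‖w‖| ≤ ‖v - w‖ := abs_norm_sub_norm_le v w
  have h2 : |wt (‖v‖ ^ 2) - wt (‖w‖ ^ 2)| ≤ |‖v‖ ^ 2 - ‖w‖ ^ 2| := by
    unfold wt
    refine (abs_max_sub_max_le_abs _ _ _).trans (le_of_eq ?_)
    rw [← abs_neg]
    congr 1
    ring
  have h3 : |‖v‖ ^ 2 - ‖w‖ ^ 2| ≤ 4 * ‖v - w‖ := by
    have : ‖v‖ ^ 2 - ‖w‖ ^ 2 = (‖v‖ - ‖w‖) * (‖v‖ + ‖w‖) := by ring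
    rw [this, abs_mul, abs_of_nonneg (by positivity : 0 ≤ ‖v‖ + ‖w‖)]
    nlinarith [abs_nonneg (‖v‖ - ‖w‖), norm_nonneg (v - w), norm_nonneg v, norm_nonneg w]
  set a := wt (‖v‖ ^ 2) with ha
  set b := wt (‖w‖ ^ 2) with hb
  have ha0 : 0 ≤ a := Harnack_wt_nonneg _
  have hb0 : 0 ≤ b := Harnack_wt_nonneg _
  have ha1 : a ≤ 1 := Harnack_wt_le_one (by positivity)
  have hb1 : b ≤ 1 := Harnack_wt_le_one (by positivity)
  have h4 : a ^ 4 - b ^ 4 = (a - b) * (a ^ 3 + a ^ 2 * b + a * b ^ 2 + b ^ 3) := by ring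
  have h5 : a ^ 3 + a ^ 2 * b + a * b ^ 2 + b ^ 3 ≤ 4 := by
    have i1 : a ^ 3 ≤ 1 := pow_le_one₀ ha0 ha1
    have i2 : a ^ 2 ≤ 1 := pow_le_one₀ ha0 ha1
    have i3 : b ^ 2 ≤ 1 := pow_le_one₀ hb0 hb1
    have i4 : b ^ 3 ≤ 1 := pow_le_one₀ hb0 hb1
    have i5 : a ^ 2 * b ≤ 1 := mul_le_one₀ i2 hb0 hb1
    have i6 : a * b ^ 2 ≤ 1 := mul_le_one₀ ha1 (by positivity) i3
    linarith
  rw [h4, abs_mul, abs_of_nonneg (by positivity : 0 ≤ a ^ 3 + a ^ 2 * b + a * b ^ 2 + b ^ 3)]
  nlinarith [abs_nonneg (a - b), norm_nonneg (v - w)]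

theorem grad_bound : ∃ C : ℝ, 1 ≤ C ∧ ∀ (f : E3 → ℝ) (z : E3) (R M : ℝ), 0 < R →
    (∀ x ∈ ball z R, HarmonicAt f x) → (∀ x ∈ ball z R, |f x| ≤ M) →
    ‖gradient f z‖ ≤ C * M / R := by
  set K : ℝ := 64 * volume.real (closedBall (0 : E3) 2) / mm with hK
  have hm := mm_pos
  have hK0 : 0 ≤ K := by positivity
  refine ⟨max 1 K, le_max_left _ _, ?_⟩
  intro f z R M hR hf hM
  have hz : z ∈ ball z R := mem_ball_self hR
  have hM0 : 0 ≤ M := (abs_nonneg _).trans (hM z hz)
  have hcf : ContinuousOn f (ball z R) := fun w hw => (hf w hw).1.continuousAt.continuousWithinAt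
  have hdf : DifferentiableAt ℝ f z := (hf z hz).1.differentiableAt (by norm_num)
  have hg : ‖gradient f z‖ = ‖fderiv ℝ f z‖ := by
    unfold gradient
    exact LinearIsometryEquiv.norm_map _ _
  rw [hg]
  have hmain : ∀ w ∈ ball z (R / 4), ‖f w - f z‖ ≤ K * M / R * ‖w - z‖ := by
    intro w hw
    rw [mem_ball, dist_eq_norm] at hw
    set r : ℝ := R / 4 with hr
    have hr0 : 0 < r := by positivity
    set τ : E3 := r⁻¹ • (w - z) with hτ
    have hτ1 : ‖τ‖ = ‖w - z‖ / r := by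
      rw [hτ, norm_smul, Real.norm_of_nonneg (by positivity)]
      field_simp
    have hτ2 : ‖τ‖ ≤ 1 := by
      rw [hτ1, div_le_one hr0]
      linarith
    have hwz : w = z + r • τ := by
      rw [hτ, smul_smul, mul_inv_cancel₀ hr0.ne', one_smul]
      abel
    have e1 := mean_value (r := r) hf hr0 (by linarith)
    have hwb : ball w (R / 2) ⊆ ball z R := by
      apply ball_subset_ball'
      rw [dist_eq_norm]
      linarith
    have e2 := mean_value (r := r) (fun x hx => hf x (hwb hx)) hr0 (by linarith)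
    have i1 := Harnack_integrable hcf hr0
      (closedBall_subset_ball (by linarith) : closedBall z r ⊆ ball z R)
    have i2 := Harnack_integrable hcf hr0
      ((closedBall_subset_ball (by linarith) : closedBall w r ⊆ ball w (R / 2)).trans hwb)
    have e3 := integral_sub_right_eq_self (μ := (volume : Measure E3))
      (fun v : E3 => wt (‖v‖ ^ 2) ^ 4 * f (w + r • v)) τ
    have i3 := i2.comp_sub_right τ
    have hsub : ∀ v : E3, w + r • (v - τ) = z + r • v := by
      intro v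
      rw [hwz, smul_sub]
      abel
    simp only [hsub] at e3 i3
    have e4 : mm * (f w - f z) =
        ∫ v : E3, (wt (‖v - τ‖ ^ 2) ^ 4 * f (z + r • v) - wt (‖v‖ ^ 2) ^ 4 * f (z + r • v)) := by
      rw [integral_sub i3 i1, e3, e1, e2]
      ring
    have hb : ∀ v : E3, ‖wt (‖v - τ‖ ^ 2) ^ 4 * f (z + r • v) -
        wt (‖v‖ ^ 2) ^ 4 * f (z + r • v)‖ ≤
        (closedBall (0 : E3) 2).indicator (fun _ => 16 * ‖τ‖ * M) v := by
      intro v
      by_cases hv : v ∈ closedBall (0 : E3) 2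
      · rw [indicator_of_mem hv]
        rw [mem_closedBall, dist_zero_right] at hv
        have hfv : |f (z + r • v)| ≤ M := by
          apply hM
          rw [mem_ball, dist_eq_norm, add_sub_cancel_left, norm_smul,
            Real.norm_of_nonneg hr0.le]
          nlinarith [norm_nonneg v]
        have hl : |wt (‖v - τ‖ ^ 2) ^ 4 - wt (‖v‖ ^ 2) ^ 4| ≤ 16 * ‖τ‖ := by
          have := Harnack_lip (v := v - τ) (w := v) (by simpa using hτ2)
          simpa using this
        rw [← sub_mul, norm_mul, Real.norm_eq_abs, Real.norm_eq_abs]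
        exact mul_le_mul hl hfv (abs_nonneg _) (by positivity)
      · rw [indicator_of_notMem hv]
        rw [mem_closedBall, dist_zero_right, not_le] at hv
        have h1 : 1 < ‖v - τ‖ := by
          have := norm_le_norm_add_norm_sub' v τ
          have h2 := norm_sub_norm_le v τ
          linarith
        rw [Harnack_wt_eq_zero h1, Harnack_wt_eq_zero (by linarith : 1 < ‖v‖)]
        simp
    have hint : ∫ v : E3, (closedBall (0 : E3) 2).indicator (fun _ => 16 * ‖τ‖ * M) v =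
        volume.real (closedBall (0 : E3) 2) * (16 * ‖τ‖ * M) := by
      rw [integral_indicator measurableSet_closedBall, setIntegral_const, smul_eq_mul]
    have hfin : volume (closedBall (0 : E3) 2) ≠ ⊤ := measure_closedBall_lt_top.ne
    have e5 : ‖mm * (f w - f z)‖ ≤ volume.real (closedBall (0 : E3) 2) * (16 * ‖τ‖ * M) := by
      rw [e4, ← hint]
      apply norm_integral_le_of_norm_le _ (Eventually.of_forall hb)
      rw [integrable_indicator_iff measurableSet_closedBall]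
      exact integrableOn_const hfin
    rw [norm_mul, Real.norm_of_nonneg hm.le] at e5
    have e6 : ‖f w - f z‖ ≤ volume.real (closedBall (0 : E3) 2) * (16 * ‖τ‖ * M) / mm := by
      rw [le_div_iff₀ hm]
      linarith
    refine e6.trans (le_of_eq ?_)
    rw [hτ1, hK, hr]
    field_simp
    ring
  have h1 : ‖fderiv ℝ f z‖ ≤ K * M / R := by
    refine hdf.hasFDerivAt.le_of_lip' (by positivity) ?_
    filter_upwards [ball_mem_nhds z (by positivity : 0 < R / 4)] with w hw
    exact hmain w hw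
  refine h1.trans ?_
  gcongr
  exact le_max_right _ _

end Pool.Agent.H32.Flat
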