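import Pool.Agent.H32.Flat.Defs

/-!
# Module H4: the weak minimum principle (elementary)

Proof: if `w` is negative somewhere, take `ε > 0` small so that `w + ε (R² - |x|²)`-type
perturbation: let `v x = w x - ε * ‖x‖²`; for small `ε` its minimum over the compact `K` is
attained at a point `x₀ ∈ A` (at points of `K \ A`, `w ≥ 0`).  At an interior minimum of the `C²`
function `v` all second derivatives `iteratedFDeriv ℝ 2 v x₀ ![b i, b i] ≥ 0`, so `Δ v x₀ ≥ 0`, but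
`Δ v x₀ = Δ w x₀ - 6 ε < 0`.
-/

open Set Metric MeasureTheory Filter Topology InnerProductSpace
open scoped Laplacian Gradient RealInnerProductSpace

namespace Pool.Agent.H32.Flat

/-- The second directional derivative. -/
theorem MinPr_dd {f : E3 → ℝ} {x : E3} (hf : ContDiffAt ℝ 2 f x) (v : E3) :
    deriv (deriv (fun t : ℝ => f (x + t • v))) 0 = iteratedFDeriv ℝ 2 f x ![v, v] := by
  have hline : ∀ t : ℝ, HasDerivAt (fun t : ℝ => x + t • v) v t := by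
    intro t
    have h := ((hasDerivAt_id t).smul_const v).const_add x
    simpa using h
  have hx0 : x + (0 : ℝ) • v = x := by rw [zero_smul, add_zero]
  have hev : ∀ᶠ y in 𝓝 x, ContDiffAt ℝ 2 f y := hf.eventually (by simp)
  have hcont : Tendsto (fun t : ℝ => x + t • v) (𝓝 0) (𝓝 x) := by
    have h : Tendsto (fun t : ℝ => x + t • v) (𝓝 0) (𝓝 (x + (0 : ℝ) • v)) :=
      (hline 0).continuousAt
    rwa [hx0] at h
  have h1 : deriv (fun t : ℝ => f (x + t • v)) =ᶠ[𝓝 0] fun t => fderiv ℝ f (x + t • v) v := by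
    filter_upwards [hcont.eventually hev] with t ht
    have h2 : HasFDerivAt f (fderiv ℝ f (x + t • v)) (x + t • v) :=
      (ht.differentiableAt (by simp)).hasFDerivAt
    exact (h2.comp_hasDerivAt t (hline t)).deriv
  rw [h1.deriv_eq, iteratedFDeriv_two_apply]
  have h3 : ContDiffAt ℝ 1 (fderiv ℝ f) x := hf.fderiv_right (by norm_num)
  have h4 : HasFDerivAt (fderiv ℝ f) (fderiv ℝ (fderiv ℝ f) x) (x + (0 : ℝ) • v) := by
    rw [hx0]
    exact (h3.differentiableAt (by simp)).hasFDerivAt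
  have h5 : HasDerivAt (fun t : ℝ => fderiv ℝ f (x + t • v)) (fderiv ℝ (fderiv ℝ f) x v) 0 :=
    h4.comp_hasDerivAt 0 (hline 0)
  have h6 := h5.clm_apply (hasDerivAt_const (0 : ℝ) v)
  rw [map_zero, add_zero] at h6
  exact h6.deriv

/-- second derivative test, in one variable -/
theorem MinPr_dd_nonneg {g : ℝ → ℝ} (hc : ContinuousAt g 0) (h : IsLocalMin g 0) :
    0 ≤ deriv (deriv g) 0 := by
  by_contra hlt
  rw [not_le] at hlt
  have hmax : IsLocalMax g 0 := isLocalMax_of_deriv_deriv_neg hlt h.deriv_eq_zero hc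
  have h1 : g =ᶠ[𝓝 0] fun _ => g 0 := by
    filter_upwards [h, hmax] with t h2 h3
    exact le_antisymm h3 h2
  have h2 : deriv g =ᶠ[𝓝 0] deriv fun _ => g 0 := h1.deriv
  rw [h2.deriv_eq] at hlt
  simp at hlt

/-- second derivative test: the Laplacian is nonnegative at a local minimum -/
theorem laplacian_nonneg_of_isLocalMin {f : E3 → ℝ} {x : E3} (hf : ContDiffAt ℝ 2 f x)
    (hx : IsLocalMin f x) : 0 ≤ Δ f x := by
  rw [laplacian_eq_iteratedFDeriv_stdOrthonormalBasis]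
  refine Finset.sum_nonneg fun i _ => ?_
  rw [← MinPr_dd hf]
  have hx0 : ∀ v : E3, x + (0 : ℝ) • v = x := fun v => by rw [zero_smul, add_zero]
  have hcont : ∀ v : E3, Tendsto (fun t : ℝ => x + t • v) (𝓝 0) (𝓝 x) := by
    intro v
    have h : Continuous (fun t : ℝ => x + t • v) := by fun_prop
    have h' := h.tendsto 0
    rwa [hx0] at h'
  apply MinPr_dd_nonneg
  · have h := hf.continuousAt.tendsto.comp (hcont (stdOrthonormalBasis ℝ E3 i))
    show Tendsto (fun t : ℝ => f (x + t • stdOrthonormalBasis ℝ E3 i)) (𝓝 0)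
      (𝓝 (f (x + (0 : ℝ) • stdOrthonormalBasis ℝ E3 i)))
    rw [hx0]
    exact h
  · have h := (hcont (stdOrthonormalBasis ℝ E3 i)).eventually hx
    show ∀ᶠ t in 𝓝 (0 : ℝ), f (x + (0 : ℝ) • _) ≤ f (x + t • _)
    rw [hx0]
    exact h

theorem MinPr_contDiff : ContDiff ℝ 2 (fun y : E3 => ‖y‖ ^ 2) := contDiff_norm_sq ℝ

theorem laplacian_norm_sq (x : E3) : Δ (fun y : E3 => ‖y‖ ^ 2) x = 6 := by
  rw [laplacian_eq_iteratedFDeriv_orthonormalBasis _ (EuclideanSpace.basisFun (Fin 3) ℝ)]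
  have h1 : ∀ i : Fin 3, iteratedFDeriv ℝ 2 (fun y : E3 => ‖y‖ ^ 2) x
      ![EuclideanSpace.basisFun (Fin 3) ℝ i, EuclideanSpace.basisFun (Fin 3) ℝ i] = 2 := by
    intro i
    rw [← MinPr_dd MinPr_contDiff.contDiffAt]
    have h2 : ‖EuclideanSpace.basisFun (Fin 3) ℝ i‖ = 1 :=
      (EuclideanSpace.basisFun (Fin 3) ℝ).norm_eq_one i
    generalize EuclideanSpace.basisFun (Fin 3) ℝ i = v at h2 ⊢
    have h3 : (fun t : ℝ => ‖x + t • v‖ ^ 2) = fun t => ‖x‖ ^ 2 + 2 * ⟪x, v⟫ * t + t ^ 2 := by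
      funext t
      rw [norm_add_sq_real, norm_smul, h2, inner_smul_right, mul_one, Real.norm_eq_abs, sq_abs]
      ring
    rw [h3]
    have h4 : deriv (fun t : ℝ => ‖x‖ ^ 2 + 2 * ⟪x, v⟫ * t + t ^ 2) =
        fun t => 2 * ⟪x, v⟫ + 2 * t := by
      funext t
      have h5 : HasDerivAt (fun t : ℝ => ‖x‖ ^ 2 + 2 * ⟪x, v⟫ * t + t ^ 2)
          (2 * ⟪x, v⟫ * 1 + (2 : ℕ) * t ^ (2 - 1)) t :=
        (((hasDerivAt_id t).const_mul (2 * ⟪x, v⟫)).const_add (‖x‖ ^ 2)).add (hasDerivAt_pow 2 t)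
      rw [h5.deriv]
      norm_num
    rw [h4]
    have h6 : HasDerivAt (fun t : ℝ => 2 * ⟪x, v⟫ + 2 * t) (2 * 1) 0 :=
      ((hasDerivAt_id (0 : ℝ)).const_mul 2).const_add _
    rw [h6.deriv, mul_one]
  show ∑ i : Fin 3, iteratedFDeriv ℝ 2 (fun y : E3 => ‖y‖ ^ 2) x
      ![EuclideanSpace.basisFun (Fin 3) ℝ i, EuclideanSpace.basisFun (Fin 3) ℝ i] = 6
  rw [Finset.sum_congr rfl fun i _ => h1 i]
  norm_num

/-- weak minimum principle -/
theorem weakMin {K A : Set E3} (hK : IsCompact K) (hA : IsOpen A) (hAK : A ⊆ K) {w : E3 → ℝ}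
    (hw : ContinuousOn w K) (hw2 : ∀ x ∈ A, ContDiffAt ℝ 2 w x ∧ Δ w x ≤ 0)
    (hb : ∀ x ∈ K \ A, 0 ≤ w x) : ∀ x ∈ K, 0 ≤ w x := by
  intro x₁ hx₁
  by_contra hlt
  rw [not_le] at hlt
  obtain ⟨R, hR⟩ := hK.isBounded.exists_norm_le
  have hR2 : ∀ x ∈ K, ‖x‖ ^ 2 ≤ R ^ 2 := fun x hx =>
    pow_le_pow_left₀ (norm_nonneg _) (hR x hx) 2
  set ε : ℝ := -w x₁ / (2 * (R ^ 2 + 1)) with hε
  have hpos : 0 < R ^ 2 + 1 := by positivity
  have hε0 : 0 < ε := by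
    rw [hε]
    exact div_pos (by linarith) (by linarith)
  have hεR : ε * R ^ 2 ≤ -w x₁ / 2 := by
    have h1 : ε * (R ^ 2 + 1) = -w x₁ / 2 := by
      rw [hε]
      field_simp
    nlinarith
  have hcv : ContinuousOn (fun x : E3 => w x - ε * ‖x‖ ^ 2) K :=
    hw.sub (by fun_prop)
  obtain ⟨x₀, hx₀, hmin⟩ := hK.exists_isMinOn ⟨x₁, hx₁⟩ hcv
  have hmin' : ∀ y ∈ K, w x₀ - ε * ‖x₀‖ ^ 2 ≤ w y - ε * ‖y‖ ^ 2 := fun y hy => hmin hy
  have hx₀A : x₀ ∈ A := by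
    by_contra hnA
    have h1 := hb x₀ ⟨hx₀, hnA⟩
    have h2 := hmin' x₁ hx₁
    have h3 := hR2 x₀ hx₀
    have h4 : ε * ‖x₀‖ ^ 2 ≤ ε * R ^ 2 := mul_le_mul_of_nonneg_left h3 hε0.le
    have h5 : 0 ≤ ε * ‖x₁‖ ^ 2 := by positivity
    linarith
  have hloc : IsLocalMin (w - ε • fun y : E3 => ‖y‖ ^ 2) x₀ := by
    filter_upwards [hA.mem_nhds hx₀A] with y hy
    exact hmin' y (hAK hy)
  obtain ⟨hc, hΔ⟩ := hw2 x₀ hx₀A
  have hcn : ContDiffAt ℝ 2 (fun y : E3 => ‖y‖ ^ 2) x₀ := MinPr_contDiff.contDiffAt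
  have hcs : ContDiffAt ℝ 2 (ε • fun y : E3 => ‖y‖ ^ 2) x₀ := hcn.const_smul ε
  have h1 : 0 ≤ Δ (w - ε • fun y : E3 => ‖y‖ ^ 2) x₀ :=
    laplacian_nonneg_of_isLocalMin (hc.sub hcs) hloc
  rw [hc.laplacian_sub hcs, laplacian_smul ε hcn, laplacian_norm_sq, smul_eq_mul] at h1
  linarith

end Pool.Agent.H32.Flat
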