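import Pool.Agent.H32.Flat.Local

/-!
# Module C2: further facts on `FB` and `nu`

* `exists_FB_segment`: `u x > 0`, `u y = 0`, segment in `O`: the first zero `x + t (y-x)`
  (`t = sInf {t ∈ [0,1] | u (x + t(y-x)) = 0}`) is a zero and a limit of positive points.
* `pos_or_zero_of_preconnected`: a preconnected subset of `O` without `FB` points: `{0 < u}` is open
  in `O`, and so is `{u = 0}` in a set without `FB` points.
* `touch`: interior touching ball: `y` is a limit of the points `y + t (c - y)`; with `U` from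
  `local_struct` at `y`: `U (y + t ξ) > 0` for small `t > 0` for all `ξ` with `⟪ξ, c - y⟫ > 0`
  (these points are in the ball), so `⟪∇U y, ξ⟫ ≥ 0` for all these `ξ`; with `‖∇U y‖ = 1` this
  gives `∇U y = (c - y)/d`.
* `grad_near_one`: compactness; otherwise there are `x_k ∈ K`, `0 < u x_k → 0`, `x_k → x ∈ K`,
  then `FB u x` and `gradient u x_k = nu u x_k → nu u x`, of norm one (`nu_continuousOn`).
* `grad_bdd`: `nu u` is continuous on the compact set `K ∩ closure {0 < u}`.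
* `lip_seg`: `t ↦ u (x + t (y - x))` is continuous on `[0,1]`; on the open set where it is positive
  its derivative is at most `L‖y - x‖` in absolute value; split at the first/last zero.
* `sq_grad`: where `u > 0` clear; near `FB` points `u² = (max U 0)²` which is `C¹` with gradient
  `2 max(U,0) ∇U`; at interior points of the zero set everything vanishes.
-/

open Set Metric MeasureTheory Filter Topology InnerProductSpace
open scoped Laplacian Gradient RealInnerProductSpace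

namespace Pool.Agent.H32.Flat

variable {O : Set E3} {u : E3 → ℝ}

/-- The first zero on a segment. -/
lemma Nu2_first (h : OnePhase O u) {x y : E3} (hs : segment ℝ x y ⊆ O)
    (hx : 0 < u x) (hy : u y = 0) : ∃ b ∈ Ioc (0 : ℝ) 1, u (AffineMap.lineMap x y b) = 0 ∧
      ∀ t ∈ Ico (0 : ℝ) b, 0 < u (AffineMap.lineMap x y t) := by
  have hseg : ∀ t ∈ Icc (0 : ℝ) 1, AffineMap.lineMap x y t ∈ segment ℝ x y := by
    intro t ht
    rw [segment_eq_image_lineMap]
    exact ⟨t, ht, rfl⟩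
  have hc : ContinuousOn (fun t : ℝ => u (AffineMap.lineMap x y t)) (Icc 0 1) := by
    refine h.cont.comp ?_ fun t ht => hs (hseg t ht)
    exact (AffineMap.lineMap_continuous (R := ℝ) (p := x) (q := y)).continuousOn
  have hcl := hc.preimage_isClosed_of_isClosed isClosed_Icc (isClosed_singleton (x := (0 : ℝ)))
  have hco : IsCompact (Icc (0 : ℝ) 1 ∩ (fun t : ℝ => u (AffineMap.lineMap x y t)) ⁻¹' {0}) :=
    isCompact_Icc.of_isClosed_subset hcl inter_subset_left
  obtain ⟨b, ⟨hb1, hb2⟩, hb3⟩ := hco.exists_isLeast ⟨1, ⟨by norm_num, le_rfl⟩, by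
    simp only [mem_preimage, AffineMap.lineMap_apply_one, mem_singleton_iff]
    exact hy⟩
  have hb0 : 0 < b := by
    rcases hb1.1.lt_or_eq with h0 | h0
    · exact h0
    · exfalso
      rw [← h0] at hb2
      simp only [mem_preimage, AffineMap.lineMap_apply_zero, mem_singleton_iff] at hb2
      exact hx.ne' hb2
  refine ⟨b, ⟨hb0, hb1.2⟩, hb2, fun t ht => ?_⟩
  have ht1 : t ∈ Icc (0 : ℝ) 1 := ⟨ht.1, ht.2.le.trans hb1.2⟩
  rcases (h.nonneg _ (hs (hseg t ht1))).lt_or_eq with h0 | h0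
  · exact h0
  · exact absurd (hb3 ⟨ht1, h0.symm⟩) (not_le.2 ht.2)

theorem exists_FB_segment (h : OnePhase O u) {x y : E3} (hs : segment ℝ x y ⊆ O)
    (hx : 0 < u x) (hy : u y = 0) : ∃ p ∈ segment ℝ x y, FB u p := by
  obtain ⟨b, hb, h0, hpos⟩ := Nu2_first h hs hx hy
  refine ⟨AffineMap.lineMap x y b, ?_, h0, ?_⟩
  · rw [segment_eq_image_lineMap]
    exact ⟨b, ⟨hb.1.le, hb.2⟩, rfl⟩
  · refine map_mem_closure (AffineMap.lineMap_continuous (R := ℝ) (p := x) (q := y))
      (s := Ico 0 b) ?_ hpos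
    rw [closure_Ico hb.1.ne]
    exact ⟨hb.1.le, le_rfl⟩

/-- Points of `O` which are neither positive nor free boundary points. -/
lemma Nu2_notMem (h : OnePhase O u) {x : E3} (hx : x ∈ O) (h0 : ¬ 0 < u x) (hF : ¬ FB u x) :
    x ∉ closure {x | 0 < u x} := fun hc =>
  hF ⟨le_antisymm (not_lt.1 h0) (h.nonneg x hx), hc⟩

theorem pos_or_zero_of_preconnected (h : OnePhase O u) {S : Set E3} (hS : IsPreconnected S)
    (hSO : S ⊆ O) (hF : ∀ x ∈ S, ¬ FB u x) : (∀ x ∈ S, 0 < u x) ∨ (∀ x ∈ S, u x = 0) := by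
  have hP : IsOpen (O ∩ u ⁻¹' (Ioi 0)) := h.cont.isOpen_inter_preimage h.isOpen isOpen_Ioi
  have hQ : IsOpen (O ∩ (closure {x | 0 < u x})ᶜ) := h.isOpen.inter isClosed_closure.isOpen_compl
  have hd : Disjoint (O ∩ u ⁻¹' (Ioi 0)) (O ∩ (closure {x | 0 < u x})ᶜ) := by
    rw [Set.disjoint_left]
    rintro x ⟨-, h1⟩ ⟨-, h2⟩
    exact h2 (subset_closure h1)
  have hcov : S ⊆ (O ∩ u ⁻¹' (Ioi 0)) ∪ (O ∩ (closure {x | 0 < u x})ᶜ) := by
    intro x hx
    by_cases h2 : 0 < u x
    · exact Or.inl ⟨hSO hx, h2⟩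
    · exact Or.inr ⟨hSO hx, Nu2_notMem h (hSO hx) h2 (hF x hx)⟩
  rcases hS.subset_or_subset hP hQ hd hcov with h1 | h1
  · exact Or.inl fun x hx => (h1 hx).2
  · refine Or.inr fun x hx => le_antisymm (not_lt.1 fun h2 => ?_) (h.nonneg x (hSO hx))
    exact (h1 hx).2 (subset_closure h2)

theorem touch (h : OnePhase O u) {c y : E3} {d : ℝ} (hd : 0 < d) (hy : y ∈ O)
    (hball : ∀ x ∈ ball c d, 0 < u x) (hyd : dist y c = d) (hy0 : u y = 0) :
    FB u y ∧ nu u y = (1 / d) • (c - y) := by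
  have hF : FB u y := by
    refine ⟨hy0, closure_mono (s := ball c d) (fun x hx => hball x hx) ?_⟩
    rw [closure_ball c hd.ne', mem_closedBall]
    exact hyd.le
  refine ⟨hF, ?_⟩
  obtain ⟨r, hr, U, hO, hU, hmax, hnu, hzero⟩ := local_struct h hy hF
  have hyr : y ∈ ball y r := mem_ball_self hr
  have hUd : DifferentiableAt ℝ U y :=
    ((hU y hyr).contDiffAt (isOpen_ball.mem_nhds hyr)).differentiableAt (by norm_num)
  have hU0 : U y = 0 := by
    have h1 := hmax y hyr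
    rw [hy0] at h1
    refine le_antisymm (by have := le_max_left (U y) 0; linarith) (not_lt.1 fun h2 => ?_)
    have h3 : ∀ᶠ x in 𝓝 y, x ∈ ball y r ∧ U x < 0 :=
      (isOpen_ball.eventually_mem hyr).and
        (hUd.continuousAt.eventually_lt continuousAt_const h2)
    obtain ⟨x, hx1, hx2⟩ := mem_closure_iff_frequently.1 hF.2 |>.and_eventually h3 |>.exists
    have h4 := hmax x hx2.1
    rw [max_eq_right hx2.2.le] at h4
    have h5 : 0 < u x := hx1
    linarith
  obtain ⟨-, hn⟩ := hnu y hyr hU0.ge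
  obtain ⟨-, hg⟩ := hzero y hyr hU0
  rw [hn]
  obtain ⟨g, hgd⟩ : ∃ g, g = gradient U y := ⟨_, rfl⟩
  rw [← hgd] at hg ⊢
  -- directions into the ball
  have key : ∀ ξ : E3, 0 < ⟪ξ, c - y⟫ → 0 ≤ ⟪g, ξ⟫ := by
    intro ξ hξ
    have hder : HasDerivAt (fun t : ℝ => U (y + t • ξ)) ⟪g, ξ⟫ 0 := by
      have h1 : HasDerivAt (fun t : ℝ => y + t • ξ) ξ 0 := by
        simpa using ((hasDerivAt_id (0 : ℝ)).smul_const ξ).const_add y
      have h2 : HasFDerivAt U (innerSL ℝ g) (y + (0 : ℝ) • ξ) := by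
        rw [zero_smul, add_zero, hgd]
        exact hUd.hasGradientAt.hasFDerivAt
      exact h2.comp_hasDerivAt (0 : ℝ) h1
    have hpos : ∀ᶠ t in 𝓝[>] (0 : ℝ), 0 < U (y + t • ξ) := by
      have e1 : ∀ᶠ t in 𝓝[>] (0 : ℝ), t * ‖ξ‖ ^ 2 < 2 * ⟪ξ, c - y⟫ := by
        have : Tendsto (fun t : ℝ => t * ‖ξ‖ ^ 2) (𝓝 0) (𝓝 (0 * ‖ξ‖ ^ 2)) :=
          tendsto_id.mul_const _
        rw [zero_mul] at this
        exact (this.eventually_lt_const (by linarith)).filter_mono nhdsWithin_le_nhds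
      have e2 : ∀ᶠ t in 𝓝[>] (0 : ℝ), y + t • ξ ∈ ball y r := by
        have : Tendsto (fun t : ℝ => y + t • ξ) (𝓝 0) (𝓝 (y + (0 : ℝ) • ξ)) :=
          (tendsto_id.smul_const ξ).const_add y
        rw [zero_smul, add_zero] at this
        exact (this.eventually (isOpen_ball.eventually_mem hyr)).filter_mono nhdsWithin_le_nhds
      filter_upwards [e1, e2, self_mem_nhdsWithin] with t h1 h2 h3
      have h3' : (0 : ℝ) < t := h3
      have h4 : y + t • ξ ∈ ball c d := by
        rw [mem_ball, dist_eq_norm]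
        have h5 : ‖y + t • ξ - c‖ ^ 2 < d ^ 2 := by
          have h6 : y + t • ξ - c = t • ξ - (c - y) := by abel
          have h7 : ‖c - y‖ = d := by rw [← dist_eq_norm, dist_comm, hyd]
          rw [h6, norm_sub_sq_real, h7, norm_smul, mul_pow, Real.norm_eq_abs, sq_abs,
            real_inner_smul_left]
          nlinarith
        exact lt_of_pow_lt_pow_left₀ 2 hd.le h5
      have h5 := hball _ h4
      rw [hmax _ h2] at h5
      rcases lt_max_iff.1 h5 with h6 | h6
      · exact h6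
      · exact absurd h6 (lt_irrefl _)
    have hslope := (hasDerivAt_iff_tendsto_slope_zero.1 hder).mono_left
      (nhdsWithin_mono (0 : ℝ) (fun t (ht : t ∈ Ioi (0 : ℝ)) => (ne_of_gt ht : t ≠ 0)))
    refine ge_of_tendsto hslope ?_
    filter_upwards [hpos, self_mem_nhdsWithin] with t h1 h2
    have h2' : (0 : ℝ) < t := h2
    simp only [zero_add, zero_smul, add_zero, hU0, sub_zero, smul_eq_mul]
    positivity
  obtain ⟨n, hnd⟩ : ∃ n, n = (1 / d) • (c - y) := ⟨_, rfl⟩
  have hn1 : ‖n‖ = 1 := by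
    rw [hnd, norm_smul, Real.norm_eq_abs, abs_of_pos (by positivity), ← dist_eq_norm, dist_comm,
      hyd]
    field_simp
  have hcy : c - y = d • n := by
    rw [hnd, smul_smul, mul_one_div, div_self hd.ne', one_smul]
  have hnn : ⟪n, n⟫ = (1 : ℝ) := by rw [real_inner_self_eq_norm_sq, hn1, one_pow]
  rw [← hnd]
  obtain ⟨w, hw⟩ : ∃ w, w = g - ⟪g, n⟫ • n := ⟨_, rfl⟩
  have hwn : ⟪w, n⟫ = 0 := by
    rw [hw, inner_sub_left, real_inner_smul_left, hnn]
    ring
  have hgw : ⟪g, w⟫ = ‖w‖ ^ 2 := by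
    have : g = w + ⟪g, n⟫ • n := by rw [hw]; abel
    conv_lhs => rw [this]
    rw [inner_add_left, real_inner_smul_left, real_inner_comm w n, hwn, real_inner_self_eq_norm_sq]
    ring
  have hw0 : w = 0 := by
    by_contra hne
    have hwp : 0 < ‖w‖ ^ 2 := by positivity
    have h1 : ∀ ε : ℝ, 0 < ε → ‖w‖ ^ 2 ≤ ε * ⟪g, n⟫ := by
      intro ε hε
      have h2 := key (ε • n - w) (by
        rw [hcy, real_inner_smul_right, inner_sub_left, real_inner_smul_left, hnn, hwn]
        have := mul_pos hd hε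
        linarith)
      rw [inner_sub_right, real_inner_smul_right, hgw] at h2
      linarith
    have h3 : |⟪g, n⟫| ≤ 1 := by
      have := abs_real_inner_le_norm g n
      rwa [hg, hn1, one_mul] at this
    have h4 := h1 (‖w‖ ^ 2 / 2) (by positivity)
    have h5 := (abs_le.1 h3).2
    nlinarith
  have hga : g = ⟪g, n⟫ • n := by
    have : g = w + ⟪g, n⟫ • n := by rw [hw]; abel
    rwa [hw0, zero_add] at this
  have h1 : 0 ≤ ⟪g, n⟫ := key n (by
    rw [hcy, real_inner_smul_right, hnn]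
    linarith)
  have h2 : ⟪g, n⟫ = (1 : ℝ) := by
    have h3 : ‖g‖ = |⟪g, n⟫| := by
      conv_lhs => rw [hga]
      rw [norm_smul, hn1, mul_one, Real.norm_eq_abs]
    rw [hg, abs_of_nonneg h1] at h3
    exact h3.symm
  rw [hga, h2, one_smul]

lemma Nu2_compact {K : Set E3} (hK : IsCompact K) : IsCompact (K ∩ closure {x | 0 < u x}) :=
  hK.inter_right isClosed_closure

lemma Nu2_cont (h : OnePhase O u) {K : Set E3} (hKO : K ⊆ O) :
    ContinuousOn (nu u) (K ∩ closure {x | 0 < u x}) :=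
  (nu_continuousOn h).mono (inter_subset_inter_left _ hKO)

theorem grad_near_one (h : OnePhase O u) {K : Set E3} (hK : IsCompact K) (hKO : K ⊆ O)
    {ε : ℝ} (hε : 0 < ε) :
    ∃ s > 0, ∀ x ∈ K, 0 < u x → u x < s → |‖gradient u x‖ ^ 2 - 1| < ε := by
  have hf : ContinuousOn (fun x => |‖nu u x‖ ^ 2 - 1|) (K ∩ closure {x | 0 < u x}) :=
    (((Nu2_cont h hKO).norm.pow 2).sub continuousOn_const).abs
  have hcl := hf.preimage_isClosed_of_isClosed (Nu2_compact (u := u) hK).isClosed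
    (isClosed_Ici (a := ε))
  obtain ⟨Z, hZ⟩ : ∃ Z, Z = (K ∩ closure {x | 0 < u x}) ∩
    (fun x => |‖nu u x‖ ^ 2 - 1|) ⁻¹' Ici ε := ⟨_, rfl⟩
  rw [← hZ] at hcl
  have hZc : IsCompact Z := (Nu2_compact (u := u) hK).of_isClosed_subset hcl (by
    rw [hZ]; exact inter_subset_left)
  have hZK : ∀ x ∈ Z, x ∈ K := fun x hx => by rw [hZ] at hx; exact hx.1.1
  have hpos : ∀ x ∈ Z, 0 < u x := by
    intro x hx
    have hxO := hKO (hZK x hx)
    rcases (h.nonneg x hxO).lt_or_eq with h0 | h0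
    · exact h0
    · exfalso
      rw [hZ] at hx
      have h1 := norm_nu_of_FB h hxO ⟨h0.symm, hx.1.2⟩
      have h2 : ε ≤ |‖nu u x‖ ^ 2 - 1| := hx.2
      rw [h1] at h2
      norm_num at h2
      linarith
  have hs : ∃ s > 0, ∀ x ∈ Z, s ≤ u x := by
    rcases Z.eq_empty_or_nonempty with h0 | h0
    · exact ⟨1, one_pos, fun x hx => by rw [h0] at hx; exact absurd hx (notMem_empty x)⟩
    · obtain ⟨x, hx, hmin⟩ := hZc.exists_isMinOn h0 (h.cont.mono fun x hx => hKO (hZK x hx))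
      exact ⟨u x, hpos x hx, fun y hy => hmin hy⟩
  obtain ⟨s, hs0, hs⟩ := hs
  refine ⟨s, hs0, fun x hx hx0 hxs => ?_⟩
  by_contra hcon
  have hxZ : x ∈ Z := by
    rw [hZ]
    refine ⟨⟨hx, subset_closure hx0⟩, ?_⟩
    change ε ≤ |‖nu u x‖ ^ 2 - 1|
    rw [nu_of_pos h (hKO hx) hx0]
    exact not_lt.1 hcon
  exact absurd (hs x hxZ) (not_le.2 hxs)

theorem grad_bdd (h : OnePhase O u) {K : Set E3} (hK : IsCompact K) (hKO : K ⊆ O) :
    ∃ M : ℝ, 0 ≤ M ∧ ∀ x ∈ K, 0 < u x → ‖gradient u x‖ ≤ M := by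
  obtain ⟨C, hC⟩ := (Nu2_compact (u := u) hK).exists_bound_of_continuousOn (Nu2_cont h hKO)
  refine ⟨max C 0, le_max_right _ _, fun x hx hx0 => ?_⟩
  have h1 := hC x ⟨hx, subset_closure hx0⟩
  rw [nu_of_pos h (hKO hx) hx0] at h1
  exact h1.trans (le_max_left _ _)

lemma Nu2_hasGradientAt (h : OnePhase O u) {x : E3} (hx : x ∈ O) (hu : 0 < u x) :
    HasGradientAt u (gradient u x) x :=
  ((h.harm x hx hu).1.differentiableAt (by norm_num)).hasGradientAt

lemma Nu2_lip_aux (h : OnePhase O u) {L : ℝ} {x y : E3} (hs : segment ℝ x y ⊆ O)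
    (hL : ∀ z ∈ segment ℝ x y, 0 < u z → ‖gradient u z‖ ≤ L) {b : ℝ} (hb : b ∈ Ioc (0 : ℝ) 1)
    (hpos : ∀ t ∈ Ico (0 : ℝ) b, 0 < u (AffineMap.lineMap x y t)) :
    |u x - u (AffineMap.lineMap x y b)| ≤ L * ‖x - y‖ * b := by
  have hseg : ∀ t ∈ Icc (0 : ℝ) 1, AffineMap.lineMap x y t ∈ segment ℝ x y := by
    intro t ht
    rw [segment_eq_image_lineMap]
    exact ⟨t, ht, rfl⟩
  have hc : ContinuousOn (fun t : ℝ => u (AffineMap.lineMap x y t)) (Icc 0 b) := by
    refine h.cont.comp ?_ fun t ht => hs (hseg t ⟨ht.1, ht.2.trans hb.2⟩)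
    exact (AffineMap.lineMap_continuous (R := ℝ) (p := x) (q := y)).continuousOn
  have hd : ∀ t ∈ Ioo (0 : ℝ) b, HasDerivAt (fun t : ℝ => u (AffineMap.lineMap x y t))
      ⟪gradient u (AffineMap.lineMap x y t), y - x⟫ t := by
    intro t ht
    have h1 := Nu2_hasGradientAt h (hs (hseg t ⟨ht.1.le, ht.2.le.trans hb.2⟩))
      (hpos t ⟨ht.1.le, ht.2⟩)
    have h2 : HasDerivAt (fun t : ℝ => (AffineMap.lineMap x y t : E3)) (y - x) t :=
      AffineMap.hasDerivAt_lineMap
    exact h1.hasFDerivAt.comp_hasDerivAt t h2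
  obtain ⟨t, ht, hteq⟩ := exists_hasDerivAt_eq_slope _ _ hb.1 hc hd
  have h3 := hL _ (hseg t ⟨ht.1.le, ht.2.le.trans hb.2⟩) (hpos t ⟨ht.1.le, ht.2⟩)
  have h4 := abs_real_inner_le_norm (gradient u (AffineMap.lineMap x y t)) (y - x)
  rw [hteq] at h4
  simp only [AffineMap.lineMap_apply_zero, sub_zero] at h4
  rw [abs_div, abs_of_pos hb.1, div_le_iff₀ hb.1, norm_sub_rev y x] at h4
  rw [abs_sub_comm]
  refine h4.trans ?_
  exact mul_le_mul_of_nonneg_right (mul_le_mul_of_nonneg_right h3 (norm_nonneg _)) hb.1.le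

lemma Nu2_lip_one (h : OnePhase O u) {L : ℝ} {x y : E3} (hs : segment ℝ x y ⊆ O)
    (hL : ∀ z ∈ segment ℝ x y, 0 < u z → ‖gradient u z‖ ≤ L) (hL0 : 0 ≤ L) :
    u x - u y ≤ L * ‖x - y‖ := by
  have hM : 0 ≤ L * ‖x - y‖ := mul_nonneg hL0 (norm_nonneg _)
  have hxO : x ∈ O := hs (left_mem_segment ℝ x y)
  have hyO : y ∈ O := hs (right_mem_segment ℝ x y)
  rcases (h.nonneg x hxO).lt_or_eq with hx | hx
  swap
  · have := h.nonneg y hyO
    linarith
  by_cases hz : ∃ t ∈ Icc (0 : ℝ) 1, u (AffineMap.lineMap x y t) = 0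
  · obtain ⟨t, ht, h0⟩ := hz
    have hsub : segment ℝ x (AffineMap.lineMap x y t) ⊆ segment ℝ x y := by
      refine (convex_segment x y).segment_subset (left_mem_segment ℝ x y) ?_
      rw [segment_eq_image_lineMap]
      exact ⟨t, ht, rfl⟩
    obtain ⟨b, hb, h0', hpos⟩ := Nu2_first h (hsub.trans hs) hx h0
    have h1 := Nu2_lip_aux h (hsub.trans hs) (fun z hz => hL z (hsub hz)) hb hpos
    rw [h0', sub_zero] at h1
    have h2 : ‖x - AffineMap.lineMap x y t‖ ≤ ‖x - y‖ := by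
      have e : x - AffineMap.lineMap x y t = t • (x - y) := by
        rw [AffineMap.lineMap_apply_module]
        module
      rw [e, norm_smul, Real.norm_eq_abs, abs_of_nonneg ht.1]
      exact mul_le_of_le_one_left (norm_nonneg _) ht.2
    have h3 : L * ‖x - AffineMap.lineMap x y t‖ * b ≤ L * ‖x - y‖ * 1 :=
      mul_le_mul (mul_le_mul_of_nonneg_left h2 hL0) hb.2 hb.1.le hM
    have h4 := le_abs_self (u x)
    have h5 := h.nonneg y hyO
    linarith
  · push Not at hz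
    have hpos : ∀ t ∈ Ico (0 : ℝ) 1, 0 < u (AffineMap.lineMap x y t) := by
      intro t ht
      have hmem : AffineMap.lineMap x y t ∈ segment ℝ x y := by
        rw [segment_eq_image_lineMap]
        exact ⟨t, ⟨ht.1, ht.2.le⟩, rfl⟩
      exact lt_of_le_of_ne (h.nonneg _ (hs hmem)) (hz t ⟨ht.1, ht.2.le⟩).symm
    have h1 := Nu2_lip_aux h hs hL ⟨zero_lt_one, le_rfl⟩ hpos
    rw [AffineMap.lineMap_apply_one, mul_one] at h1
    exact (le_abs_self _).trans h1

theorem lip_seg (h : OnePhase O u) {L : ℝ} {x y : E3} (hs : segment ℝ x y ⊆ O)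
    (hL : ∀ z ∈ segment ℝ x y, 0 < u z → ‖gradient u z‖ ≤ L) (hL0 : 0 ≤ L) :
    |u x - u y| ≤ L * ‖x - y‖ := by
  have h1 := Nu2_lip_one h hs hL hL0
  have h2 := Nu2_lip_one h (x := y) (y := x) (by rw [segment_symm]; exact hs)
    (by rw [segment_symm]; exact hL) hL0
  rw [norm_sub_rev] at h2
  rw [abs_le]
  constructor <;> linarith

/-- The square of the positive part. -/
lemma Nu2_sqpos_deriv (s : ℝ) : HasDerivAt (fun s : ℝ => (max s 0) ^ 2) (2 * max s 0) s := by
  rcases lt_trichotomy s 0 with hs | hs | hs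
  · have h1 : (fun s : ℝ => (max s 0) ^ 2) =ᶠ[𝓝 s] fun _ => 0 := by
      filter_upwards [eventually_lt_nhds hs] with t ht
      rw [max_eq_right ht.le]
      norm_num
    rw [max_eq_right hs.le, mul_zero]
    exact (hasDerivAt_const s (0 : ℝ)).congr_of_eventuallyEq h1
  · subst hs
    rw [max_self, mul_zero, hasDerivAt_iff_isLittleO_nhds_zero]
    simp only [zero_add, max_self, ne_eq, OfNat.ofNat_ne_zero, not_false_eq_true, zero_pow,
      sub_zero, smul_zero]
    refine Asymptotics.IsBigO.trans_isLittleO (g := fun t : ℝ => t ^ 2) ?_ ?_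
    · refine Asymptotics.IsBigO.of_bound 1 (Eventually.of_forall fun t => ?_)
      rw [one_mul, Real.norm_eq_abs, Real.norm_eq_abs, abs_of_nonneg (sq_nonneg _),
        abs_of_nonneg (sq_nonneg _)]
      rcases max_cases t 0 with ⟨h1, -⟩ | ⟨h1, -⟩
      · rw [h1]
      · rw [h1]
        nlinarith [sq_nonneg t]
    · exact Asymptotics.isLittleO_pow_id one_lt_two
  · have h1 : (fun s : ℝ => (max s 0) ^ 2) =ᶠ[𝓝 s] fun s => s ^ 2 := by
      filter_upwards [eventually_gt_nhds hs] with t ht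
      rw [max_eq_left ht.le]
    rw [max_eq_left hs.le]
    have h2 := hasDerivAt_pow 2 s
    norm_num at h2
    exact h2.congr_of_eventuallyEq h1

lemma Nu2_sqpos_contDiff : ContDiff ℝ 1 (fun s : ℝ => (max s 0) ^ 2) := by
  rw [contDiff_one_iff_deriv]
  refine ⟨fun s => (Nu2_sqpos_deriv s).differentiableAt, ?_⟩
  have : deriv (fun s : ℝ => (max s 0) ^ 2) = fun s => 2 * max s 0 :=
    funext fun s => (Nu2_sqpos_deriv s).deriv
  rw [this]
  fun_prop

lemma Nu2_sq_zero (h : OnePhase O u) {x : E3} (hx : x ∈ O) (h0 : ¬ 0 < u x) (hF : ¬ FB u x) :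
    (fun x => u x ^ 2) =ᶠ[𝓝 x] fun _ => 0 := by
  have h1 : ∀ᶠ y in 𝓝 x, y ∈ O ∧ y ∈ (closure {x | 0 < u x})ᶜ :=
    (h.isOpen.eventually_mem hx).and
      (isClosed_closure.isOpen_compl.eventually_mem (Nu2_notMem h hx h0 hF))
  filter_upwards [h1] with y hy
  have h2 : ¬ 0 < u y := fun h3 => hy.2 (subset_closure h3)
  rw [le_antisymm (not_lt.1 h2) (h.nonneg y hy.1)]
  norm_num

theorem sq_contDiffOn (h : OnePhase O u) : ContDiffOn ℝ 1 (fun x => u x ^ 2) O := by
  intro x hx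
  refine ContDiffAt.contDiffWithinAt ?_
  by_cases h0 : 0 < u x
  · exact ((h.harm x hx h0).1.of_le (by norm_num)).pow 2
  by_cases hF : FB u x
  · obtain ⟨r, hr, U, hO, hU, hmax, -, -⟩ := local_struct h hx hF
    have hxr : x ∈ ball x r := mem_ball_self hr
    have h1 : ContDiffAt ℝ 1 U x :=
      ((hU x hxr).contDiffAt (isOpen_ball.mem_nhds hxr)).of_le (by norm_num)
    have h2 : ContDiffAt ℝ 1 (fun y => (max (U y) 0) ^ 2) x :=
      Nu2_sqpos_contDiff.contDiffAt.comp x h1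
    refine h2.congr_of_eventuallyEq ?_
    filter_upwards [isOpen_ball.eventually_mem hxr] with y hy
    rw [hmax y hy]
  · exact contDiffAt_const.congr_of_eventuallyEq (Nu2_sq_zero h hx h0 hF)

theorem sq_gradient (h : OnePhase O u) {x : E3} (hx : x ∈ O) :
    HasGradientAt (fun x => u x ^ 2) ((2 * u x) • Du u x) x := by
  by_cases h0 : 0 < u x
  · have h1 := Nu2_hasGradientAt h hx h0
    have h3 := h1.hasFDerivAt.pow 2
    have e : (2 • u x ^ (2 - 1)) • (InnerProductSpace.toDual ℝ E3) (gradient u x)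
        = (InnerProductSpace.toDual ℝ E3) ((2 * u x) • gradient u x) := by
      rw [map_smul]
      norm_num
    rw [hasGradientAt_iff_hasFDerivAt]
    unfold Du
    rw [if_pos h0, ← e]
    exact h3
  have hux : u x = 0 := le_antisymm (not_lt.1 h0) (h.nonneg x hx)
  rw [hux, mul_zero, zero_smul]
  rw [hasGradientAt_iff_hasFDerivAt, map_zero]
  by_cases hF : FB u x
  · obtain ⟨r, hr, U, hO, hU, hmax, -, -⟩ := local_struct h hx hF
    have hxr : x ∈ ball x r := mem_ball_self hr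
    have h1 : DifferentiableAt ℝ U x :=
      ((hU x hxr).contDiffAt (isOpen_ball.mem_nhds hxr)).differentiableAt (by norm_num)
    have h2 := (Nu2_sqpos_deriv (U x)).hasFDerivAt.comp x h1.hasFDerivAt
    have h3 : max (U x) 0 = 0 := by rw [← hmax x hxr, hux]
    have h4 : HasFDerivAt (fun y => (max (U y) 0) ^ 2) (0 : E3 →L[ℝ] ℝ) x := by
      have h5 := h2
      rw [h3, mul_zero] at h5
      have e : (ContinuousLinearMap.toSpanSingleton ℝ (0 : ℝ)) ∘SL (fderiv ℝ U x) = 0 := by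
        ext v
        simp
      rw [e] at h5
      exact h5
    refine h4.congr_of_eventuallyEq ?_
    filter_upwards [isOpen_ball.eventually_mem hxr] with y hy
    rw [hmax y hy]
  · exact (hasFDerivAt_const (0 : ℝ) x).congr_of_eventuallyEq (Nu2_sq_zero h hx h0 hF)

end Pool.Agent.H32.Flat
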