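import Pool.Agent.H32.Flat.Harnack
import Pool.Agent.H32.Flat.Nu2
import Pool.Agent.H32.Flat.MinPr
import Pool.Agent.H32.Flat.Jac

/-!
# Module D1: the value at the centre of a touching ball

`u ≥ A := u c / C_H` on `closedBall c (d/2)` by `harnack`.  On the closed annulus
`d/2 ≤ |x - c| ≤ d` compare with the harmonic function `b x = A (d/|x-c| - 1)` by `weakMin`
(`Δ (‖x - c‖⁻¹) = 0` for `x ≠ c`, see `laplacian_norm_rpow`).  So `u ≥ b`.  At the touching point `y`, by `touch`,
`nu u y = (c - y)/d`, and `u (y + t ν)` has right derivative `1` at `0` (`hasDeriv_u`), `b (y + tν)`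
has derivative `A / d`.  Hence `A/d ≤ 1`.
-/

open Set Metric MeasureTheory Filter Topology InnerProductSpace
open scoped Laplacian Gradient RealInnerProductSpace

namespace Pool.Agent.H32.Flat

theorem HopfTouch_shift (f : E3 → ℝ) (c x : E3) :
    Δ (fun y => f (y - c)) x = Δ f (x - c) := by
  rw [laplacian_eq_iteratedFDeriv_stdOrthonormalBasis,
    laplacian_eq_iteratedFDeriv_stdOrthonormalBasis]
  simp only [iteratedFDeriv_comp_sub]

theorem HopfTouch_harm {c x : E3} (hx : x ≠ c) (A d : ℝ) :
    HarmonicAt (fun y : E3 => A * (d * ‖y - c‖ ^ (-1 : ℝ) - 1)) x := by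
  have h1 : HarmonicAt (fun y : E3 => ‖y - c‖ ^ (-1 : ℝ)) x := by
    refine ⟨?_, ?_⟩
    · have h2 : ContDiffAt ℝ 2 (fun y : E3 => ‖y‖ ^ (-1 : ℝ)) (x - c) :=
        contDiffAt_norm_rpow (sub_ne_zero.2 hx) (-1) 2
      have h3 : ContDiffAt ℝ 2 (fun y : E3 => y - c) x := contDiffAt_id.sub contDiffAt_const
      exact h2.comp x h3
    · filter_upwards [isOpen_ne.mem_nhds hx] with y hy
      rw [HopfTouch_shift (fun y : E3 => ‖y‖ ^ (-1 : ℝ)) c y,
        laplacian_norm_rpow (sub_ne_zero.2 hy)]
      simp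
  have h4 : HarmonicAt ((A * d) • (fun y : E3 => ‖y - c‖ ^ (-1 : ℝ)) - fun _ : E3 => A) x :=
    h1.const_smul.sub (harmonicAt_const A)
  have h5 : (fun y : E3 => A * (d * ‖y - c‖ ^ (-1 : ℝ) - 1)) =
      (A * d) • (fun y : E3 => ‖y - c‖ ^ (-1 : ℝ)) - fun _ : E3 => A := by
    funext y
    simp only [Pi.sub_apply, Pi.smul_apply, smul_eq_mul]
    ring
  rw [h5]
  exact h4

theorem hopf_touch : ∃ C : ℝ, 1 ≤ C ∧ ∀ (O : Set E3) (u : E3 → ℝ), OnePhase O u →
    ∀ (c : E3) (d : ℝ), 0 < d → closedBall c d ⊆ O → (∀ x ∈ ball c d, 0 < u x) →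
    (∃ y, dist y c = d ∧ u y = 0) → u c ≤ C * d := by
  obtain ⟨C, hC1, hC⟩ := harnack
  refine ⟨C, hC1, ?_⟩
  rintro O u h c d hd hcO hpos ⟨y, hyd, hy0⟩
  have hC0 : 0 < C := lt_of_lt_of_le one_pos hC1
  obtain ⟨A, hA⟩ : ∃ A, A = u c / C := ⟨_, rfl⟩
  have hyO : y ∈ O := hcO (by rw [mem_closedBall, hyd])
  have huc : 0 < u c := hpos c (mem_ball_self hd)
  have hApos : 0 < A := by
    rw [hA]
    positivity
  -- lower bound on the inner sphere
  have hin : ∀ x ∈ closedBall c (d / 2), A ≤ u x := by
    intro x hx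
    have h1 := hC u c d hd (fun x hx => h.harm x (hcO (ball_subset_closedBall hx)) (hpos x hx))
      (fun x hx => (hpos x hx).le) c (mem_closedBall_self (by positivity)) x hx
    rw [hA, div_le_iff₀ hC0]
    linarith
  obtain ⟨b, hb⟩ : ∃ b : E3 → ℝ, ∀ x, b x = A * (d * ‖x - c‖ ^ (-1 : ℝ) - 1) :=
    ⟨_, fun _ => rfl⟩
  have hb' : ∀ x, b x = A * (d / ‖x - c‖ - 1) := by
    intro x
    rw [hb, Real.rpow_neg_one, div_eq_mul_inv]
  -- comparison
  have hcmp : ∀ x, d / 2 ≤ dist x c → dist x c ≤ d → b x ≤ u x := by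
    have hK : IsCompact ({x : E3 | d / 2 ≤ dist x c} ∩ closedBall c d) := by
      rw [inter_comm]
      exact (isCompact_closedBall c d).inter_right (isClosed_le continuous_const (by fun_prop))
    have hAo : IsOpen ({x : E3 | d / 2 < dist x c} ∩ ball c d) :=
      (isOpen_lt continuous_const (by fun_prop)).inter isOpen_ball
    have hw := weakMin hK hAo (inter_subset_inter (fun x hx => le_of_lt (b := dist x c) hx)
      ball_subset_closedBall) (w := fun x => u x - b x) ?_ ?_ ?_
    · intro x hx1 hx2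
      have := hw x ⟨hx1, hx2⟩
      linarith
    · refine ContinuousOn.sub (h.cont.mono (inter_subset_right.trans hcO)) ?_
      intro x hx
      have hxc : x ≠ c := by
        rintro rfl
        have h1 : d / 2 ≤ dist x x := hx.1
        rw [dist_self] at h1
        linarith
      have h2 := (HopfTouch_harm hxc A d).1.continuousAt
      have h3 : b = fun y : E3 => A * (d * ‖y - c‖ ^ (-1 : ℝ) - 1) := funext hb
      rw [h3]
      exact h2.continuousWithinAt
    · intro x hx
      have hxc : x ≠ c := by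
        rintro rfl
        have h1 : d / 2 < dist x x := hx.1
        rw [dist_self] at h1
        linarith
      have h3 : b = fun y : E3 => A * (d * ‖y - c‖ ^ (-1 : ℝ) - 1) := funext hb
      have h4 : HarmonicAt b x := by
        rw [h3]
        exact HopfTouch_harm hxc A d
      have h5 : HarmonicAt (u - b) x :=
        (h.harm x (hcO (ball_subset_closedBall hx.2)) (hpos x hx.2)).sub h4
      exact ⟨h5.1, le_of_eq h5.2.self_of_nhds⟩
    · intro x hx
      obtain ⟨⟨hx1, hx2⟩, hx3⟩ := hx
      have hx1' : d / 2 ≤ dist x c := hx1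
      rw [mem_closedBall] at hx2
      by_cases hlt : d / 2 < dist x c
      · have h6 : dist x c = d := by
          refine le_antisymm hx2 ?_
          by_contra hcon
          exact hx3 ⟨hlt, mem_ball.2 (not_le.1 hcon)⟩
        have h7 : b x = 0 := by
          rw [hb', ← dist_eq_norm, h6, div_self hd.ne']
          ring
        rw [h7, sub_zero]
        exact h.nonneg x (hcO (by rw [mem_closedBall, h6]))
      · have h6 : dist x c = d / 2 := le_antisymm (not_lt.1 hlt) hx1'
        have h7 : b x = A := by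
          rw [hb', ← dist_eq_norm, h6]
          field_simp
          ring
        rw [h7]
        have h8 := hin x (by rw [mem_closedBall, h6])
        linarith
  -- the touching point
  obtain ⟨hF, hnu⟩ := touch h hd hyO hpos hyd hy0
  have hder := (hasDeriv_u h hyO hF).mono Ioi_subset_Ici_self
  rw [hasDerivWithinAt_iff_tendsto_slope' (by simp)] at hder
  have hge : ∀ᶠ t in 𝓝[>] (0 : ℝ), A / d ≤ slope (fun t : ℝ => u (y + t • nu u y)) 0 t := by
    have h1 : Ioo (0 : ℝ) (d / 2) ∈ 𝓝[>] (0 : ℝ) := Ioo_mem_nhdsGT (by positivity)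
    filter_upwards [h1] with t ht
    have hdt : 0 < d - t := by linarith [ht.2]
    have h2 : ‖y + t • nu u y - c‖ = d - t := by
      have h3 : y + t • nu u y - c = (1 - t / d) • (y - c) := by
        rw [hnu, smul_smul, sub_smul, one_smul, smul_sub, smul_sub]
        have h4 : t * (1 / d) = t / d := by ring
        rw [h4]
        abel
      have h5 : 0 ≤ 1 - t / d := by
        rw [sub_nonneg, div_le_one hd]
        linarith
      rw [h3, norm_smul, Real.norm_of_nonneg h5, ← dist_eq_norm, hyd]
      field_simp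
    have h6 := hcmp (y + t • nu u y) (by rw [dist_eq_norm, h2]; linarith [ht.2])
      (by rw [dist_eq_norm, h2]; linarith [ht.1])
    rw [hb', h2] at h6
    rw [slope_def_field, zero_smul, add_zero, hy0, sub_zero, sub_zero, le_div_iff₀ ht.1]
    refine le_trans ?_ h6
    have h7 : A * (d / (d - t) - 1) - A / d * t = A * t * t / (d * (d - t)) := by
      field_simp
      ring
    have h8 : 0 ≤ A * t * t / (d * (d - t)) := by
      have := ht.1
      positivity
    linarith
  have h9 : A / d ≤ 1 := ge_of_tendsto hder hge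
  rw [div_le_one hd, hA, div_le_iff₀ hC0] at h9
  linarith

end Pool.Agent.H32.Flat
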