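import Pool.Agent.H32.Flat.DivThm
import Pool.Agent.H32.Flat.Nu2

/-!
# Module E2: the three integral identities

Let `Φ : ℝ → ℝ` be smooth, nondecreasing, `0` on `(-∞, 1/2]`, `1` on `[1, ∞)`
(`Real.smoothTransition`), `Φ_s(t) = Φ(t/s)`, `s > 0`.  On `O` the function `Φ_s ∘ u` is `C^∞`
(it vanishes near `{u = 0}`, `u` is smooth on `{0 < u}`), and `1_{u>0} = lim_{s→0} Φ_s(u)` pointwise.
All gradients are bounded on the compact support (`grad_bdd`).

* `sqIdentity`: `u²` is `C¹` on `O` (`sq_contDiffOn`, `sq_gradient`), so apply `integral_divg` to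
  `u² Y` (extended by zero outside `O`).
* `energyIdentity`: `integral_divg` for `Φ_s(u) u φ ∇u` gives
  `∫ Φ_s(u) φ |∇u|² + ∫ Φ_s(u) u ⟪∇u,∇φ⟫ + ∫ (1/s) Φ'(u/s) u φ |∇u|² = 0`; the last integrand is
  bounded (`(u/s) Φ'(u/s)` is bounded) and tends to `0` pointwise.  Let `s → 0`.
* `layer_bound`: `(1/s) ∫ Φ'(u/s) |∇u|² φ = - ∫ Φ_s(u) ⟪∇u, ∇φ⟫` (field `Φ_s(u) φ ∇u`), bounded as `s → 0`.
  As `|∇u|² ≥ 1/2` on `supp φ ∩ {0 < u < s}` for small `s` (`grad_near_one`), also
  `(1/s) ∫ Φ'(u/s) φ` is bounded (for `φ ≥ 0`).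
* `domainVariation`: on `{0 < u}`:
  `div (|∇u|² X - 2 ⟪X,∇u⟫ ∇u) = |∇u|² div X - 2 ⟪∇u, DX ∇u⟫`.  Apply `integral_divg` to
  `Φ_s(u) (|∇u|² X - 2 ⟪X,∇u⟫∇u)` and to `Φ_s(u) X` and add:
  `∫ Φ_s(u) [(|∇u|² + 1) div X - 2⟪∇u, DX ∇u⟫] = (1/s) ∫ Φ'(u/s) (|∇u|² - 1) ⟪X,∇u⟫`,
  and the right side tends to `0` by `grad_near_one` and the layer bound.
-/

open Set Metric MeasureTheory Filter Topology InnerProductSpace
open scoped Laplacian Gradient RealInnerProductSpace

namespace Pool.Agent.H32.Flat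

variable {O : Set E3} {u : E3 → ℝ}

/-- the cut-off: `0` for `t ≤ 1/2`, `1` for `1 ≤ t` -/
noncomputable def Ident_Phi (t : ℝ) : ℝ := Real.smoothTransition (2 * t - 1)

theorem Ident_Phi_contDiff {n : ℕ∞} : ContDiff ℝ n Ident_Phi := by
  unfold Ident_Phi
  exact Real.smoothTransition.contDiff.comp (by fun_prop)

theorem Ident_Phi_zero {t : ℝ} (ht : t ≤ 1 / 2) : Ident_Phi t = 0 :=
  Real.smoothTransition.zero_of_nonpos (by linarith)

theorem Ident_Phi_one {t : ℝ} (ht : 1 ≤ t) : Ident_Phi t = 1 :=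
  Real.smoothTransition.one_of_one_le (by linarith)

theorem Ident_Phi_nonneg (t : ℝ) : 0 ≤ Ident_Phi t := Real.smoothTransition.nonneg _

theorem Ident_Phi_le_one (t : ℝ) : Ident_Phi t ≤ 1 := Real.smoothTransition.le_one _

theorem Ident_Phi_abs_le (t : ℝ) : |Ident_Phi t| ≤ 1 := by
  rw [abs_of_nonneg (Ident_Phi_nonneg t)]; exact Ident_Phi_le_one t

theorem Ident_Phi_mono : Monotone Ident_Phi := fun a b hab =>
  Real.smoothTransition.monotone (by linarith)

theorem Ident_Phi_continuous : Continuous Ident_Phi :=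
  (Ident_Phi_contDiff (n := 0)).continuous

theorem Ident_dPhi_continuous : Continuous (deriv Ident_Phi) :=
  (Ident_Phi_contDiff (n := 1)).continuous_deriv le_rfl

theorem Ident_dPhi_nonneg (t : ℝ) : 0 ≤ deriv Ident_Phi t := Ident_Phi_mono.deriv_nonneg

theorem Ident_dPhi_zero {t : ℝ} (ht : t < 1 / 2) : deriv Ident_Phi t = 0 := by
  have h : Ident_Phi =ᶠ[𝓝 t] fun _ => (0 : ℝ) := by
    filter_upwards [Iio_mem_nhds ht] with y hy
    exact Ident_Phi_zero (le_of_lt hy)
  rw [h.deriv_eq]; simp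

theorem Ident_dPhi_zero' {t : ℝ} (ht : 1 < t) : deriv Ident_Phi t = 0 := by
  have h : Ident_Phi =ᶠ[𝓝 t] fun _ => (1 : ℝ) := by
    filter_upwards [Ioi_mem_nhds ht] with y hy
    exact Ident_Phi_one (le_of_lt hy)
  rw [h.deriv_eq]; simp

theorem Ident_dPhi_bdd : ∃ C : ℝ, 0 ≤ C ∧ ∀ t, deriv Ident_Phi t ≤ C := by
  obtain ⟨C, hC⟩ := (isCompact_Icc (a := (0 : ℝ)) (b := 1)).bddAbove_image
    (Ident_dPhi_continuous.continuousOn)
  have hC' : ∀ t ∈ Icc (0 : ℝ) 1, deriv Ident_Phi t ≤ C := fun t ht => hC ⟨t, ht, rfl⟩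
  refine ⟨max C 0, le_max_right _ _, fun t => ?_⟩
  by_cases h1 : t < 1 / 2
  · rw [Ident_dPhi_zero h1]; exact le_max_right _ _
  · by_cases h2 : 1 < t
    · rw [Ident_dPhi_zero' h2]; exact le_max_right _ _
    · exact (hC' t ⟨by linarith, by linarith⟩).trans (le_max_left _ _)

theorem Ident_grad {f : E3 → ℝ} {x : E3} (hf : ContDiffAt ℝ 2 f x) :
    ContDiffAt ℝ 1 (gradient f) x := by
  have h1 : ContDiffAt ℝ 1 (fderiv ℝ f) x := hf.fderiv_right (by norm_num)
  exact (InnerProductSpace.toDual ℝ E3).symm.contDiff.contDiffAt.comp x h1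

theorem Ident_grad' {f : E3 → ℝ} {x v w : E3} (hf : ContDiffAt ℝ 2 f x) :
    ⟪fderiv ℝ (gradient f) x v, w⟫ = fderiv ℝ (fderiv ℝ f) x v w := by
  have h1 : ContDiffAt ℝ 1 (fderiv ℝ f) x := hf.fderiv_right (by norm_num)
  have h2 : DifferentiableAt ℝ (fderiv ℝ f) x := h1.differentiableAt (by norm_num)
  have h3 : fderiv ℝ (gradient f) x =
      ((InnerProductSpace.toDual ℝ E3).symm.toContinuousLinearEquiv.toContinuousLinearMap).comp
        (fderiv ℝ (fderiv ℝ f) x) := by
    have := (((InnerProductSpace.toDual ℝ E3).symm.toContinuousLinearEquiv.toContinuousLinearMap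
      ).hasFDerivAt (x := fderiv ℝ f x)).comp x h2.hasFDerivAt
    exact this.fderiv
  rw [h3]
  show ⟪(InnerProductSpace.toDual ℝ E3).symm (fderiv ℝ (fderiv ℝ f) x v), w⟫ = _
  rw [InnerProductSpace.toDual_symm_apply]

theorem Ident_symm {f : E3 → ℝ} {x v w : E3} (hf : ContDiffAt ℝ 2 f x) :
    ⟪fderiv ℝ (gradient f) x v, w⟫ = ⟪v, fderiv ℝ (gradient f) x w⟫ := by
  rw [Ident_grad' hf, real_inner_comm, Ident_grad' hf]
  exact (hf.isSymmSndFDerivAt (by simp)) v w

theorem Ident_divg_congr {X Y : E3 → E3} {x : E3} (h : X =ᶠ[𝓝 x] Y) : divg X x = divg Y x := by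
  unfold divg; rw [h.fderiv_eq]

theorem Ident_divg_zero {X : E3 → E3} {x : E3} (h : X =ᶠ[𝓝 x] fun _ => 0) : divg X x = 0 := by
  rw [Ident_divg_congr h]; unfold divg; simp

theorem Ident_divg_add {X Y : E3 → E3} {x : E3} (hX : DifferentiableAt ℝ X x)
    (hY : DifferentiableAt ℝ Y x) : divg (fun y => X y + Y y) x = divg X x + divg Y x := by
  unfold divg
  rw [← Finset.sum_add_distrib]
  refine Finset.sum_congr rfl fun i _ => ?_
  rw [show (fun y => X y + Y y) = X + Y from rfl, fderiv_add hX hY]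
  simp

theorem Ident_divg_sub {X Y : E3 → E3} {x : E3} (hX : DifferentiableAt ℝ X x)
    (hY : DifferentiableAt ℝ Y x) : divg (fun y => X y - Y y) x = divg X x - divg Y x := by
  unfold divg
  rw [← Finset.sum_sub_distrib]
  refine Finset.sum_congr rfl fun i _ => ?_
  rw [show (fun y => X y - Y y) = X - Y from rfl, fderiv_sub hX hY]
  simp

theorem Ident_divg_continuousAt {X : E3 → E3} {x : E3} (hX : ContDiffAt ℝ 1 X x) :
    ContinuousAt (divg X) x := by
  have h1 : ContinuousAt (fderiv ℝ X) x := (hX.fderiv_right (m := 0) (by norm_num)).continuousAt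
  unfold divg
  apply tendsto_finsetSum
  intro i _
  have h2 : ContinuousAt (fun y => fderiv ℝ X y (EuclideanSpace.single i 1)) x :=
    h1.clm_apply continuousAt_const
  exact ((EuclideanSpace.proj i : E3 →L[ℝ] ℝ).continuous.tendsto _).comp h2

theorem Ident_divg_continuous {X : E3 → E3} (hX : ContDiff ℝ 1 X) : Continuous (divg X) :=
  continuous_iff_continuousAt.2 fun _ => Ident_divg_continuousAt hX.contDiffAt


theorem Ident_gradient_continuousAt {f : E3 → ℝ} {x : E3} (hf : ContDiffAt ℝ 1 f x) :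
    ContinuousAt (gradient f) x := by
  have h1 : ContinuousAt (fderiv ℝ f) x := (hf.fderiv_right (m := 0) (by norm_num)).continuousAt
  exact (InnerProductSpace.toDual ℝ E3).symm.continuous.continuousAt.comp h1

theorem Ident_cda (h : OnePhase O u) {x : E3} (hx : x ∈ O) (hu : 0 < u x) :
    ContDiffAt ℝ 2 u x := (h.harm x hx hu).1

theorem Ident_cont_at (h : OnePhase O u) {x : E3} (hx : x ∈ O) : ContinuousAt u x :=
  (h.cont x hx).continuousAt (h.isOpen.mem_nhds hx)

/-- a product `ψ (u/s) g` is continuous -/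
theorem Ident_cont (h : OnePhase O u) {K : Set E3} (hK : IsCompact K) (hKO : K ⊆ O) {g : E3 → ℝ}
    (hg0 : ∀ x ∉ K, g x = 0) (hg : ∀ x ∈ O, 0 < u x → ContinuousAt g x) {ψ : ℝ → ℝ}
    (hψ : Continuous ψ) (hψ0 : ∀ t < 1 / 2, ψ t = 0) {s : ℝ} (hs : 0 < s) :
    Continuous (fun x => ψ (u x / s) * g x) := by
  rw [continuous_iff_continuousAt]
  intro x
  by_cases hx : x ∈ K
  · have hxO := hKO hx
    have hc := Ident_cont_at h hxO
    rcases (h.nonneg x hxO).lt_or_eq with hu | hu
    · exact (hψ.continuousAt.comp (hc.div_const s)).mul (hg x hxO hu)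
    · have h1 : ∀ᶠ y in 𝓝 x, u y / s < 1 / 2 := by
        have : ContinuousAt (fun y => u y / s) x := hc.div_const s
        refine this.eventually (Iio_mem_nhds ?_)
        show u x / s < 1 / 2
        rw [← hu]; norm_num
      have h2 : (fun x => ψ (u x / s) * g x) =ᶠ[𝓝 x] fun _ => 0 := by
        filter_upwards [h1] with y hy
        rw [hψ0 _ hy, zero_mul]
      exact continuousAt_const.congr h2.symm
  · have h2 : (fun x => ψ (u x / s) * g x) =ᶠ[𝓝 x] fun _ => 0 := by
      filter_upwards [hK.isClosed.isOpen_compl.mem_nhds hx] with y hy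
      rw [hg0 y hy, mul_zero]
    exact continuousAt_const.congr h2.symm

theorem Ident_cs {K : Set E3} (hK : IsCompact K) {g : E3 → ℝ}
    (hg0 : ∀ x ∉ K, g x = 0) (ψ : E3 → ℝ) : HasCompactSupport (fun x => ψ x * g x) :=
  HasCompactSupport.intro hK fun x hx => by rw [hg0 x hx, mul_zero]

theorem Ident_int (h : OnePhase O u) {K : Set E3} (hK : IsCompact K) (hKO : K ⊆ O) {g : E3 → ℝ}
    (hg0 : ∀ x ∉ K, g x = 0) (hg : ∀ x ∈ O, 0 < u x → ContinuousAt g x) {ψ : ℝ → ℝ}
    (hψ : Continuous ψ) (hψ0 : ∀ t < 1 / 2, ψ t = 0) {s : ℝ} (hs : 0 < s) :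
    Integrable (fun x => ψ (u x / s) * g x) :=
  (Ident_cont h hK hKO hg0 hg hψ hψ0 hs).integrable_of_hasCompactSupport
    (Ident_cs hK hg0 _)

theorem Ident_pos (k : ℕ) : (0 : ℝ) < 1 / ((k : ℝ) + 1) := by positivity

/-- the cut-offs tend to the indicator -/
theorem Ident_lim {t : ℝ} (ht : 0 ≤ t) :
    Tendsto (fun k : ℕ => Ident_Phi (t / (1 / ((k : ℝ) + 1)))) atTop
      (𝓝 (if 0 < t then 1 else 0)) := by
  by_cases h0 : 0 < t
  · rw [if_pos h0]
    obtain ⟨N, hN⟩ := exists_nat_gt (1 / t)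
    refine tendsto_const_nhds.congr' ?_
    filter_upwards [eventually_ge_atTop N] with k hk
    symm
    apply Ident_Phi_one
    have h1 : (N : ℝ) ≤ k := by exact_mod_cast hk
    have h2 : 1 / t < (k : ℝ) + 1 := by linarith
    rw [div_lt_iff₀ h0] at h2
    rw [div_div_eq_mul_div, div_one]
    linarith
  · rw [if_neg h0]
    have : t = 0 := le_antisymm (not_lt.1 h0) ht
    subst this
    simp only [zero_div]
    rw [Ident_Phi_zero (by norm_num)]
    exact tendsto_const_nhds

/-- `t Φ'(t)` tends to zero along the sequence -/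
theorem Ident_lim' {t : ℝ} (ht : 0 ≤ t) :
    Tendsto (fun k : ℕ => (t / (1 / ((k : ℝ) + 1))) * deriv Ident_Phi (t / (1 / ((k : ℝ) + 1))))
      atTop (𝓝 0) := by
  by_cases h0 : 0 < t
  · obtain ⟨N, hN⟩ := exists_nat_gt (1 / t)
    refine tendsto_const_nhds.congr' ?_
    filter_upwards [eventually_ge_atTop N] with k hk
    symm
    rw [Ident_dPhi_zero', mul_zero]
    have h1 : (N : ℝ) ≤ k := by exact_mod_cast hk
    have h2 : 1 / t < (k : ℝ) + 1 := by linarith
    rw [div_lt_iff₀ h0] at h2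
    rw [div_div_eq_mul_div, div_one]
    linarith
  · have : t = 0 := le_antisymm (not_lt.1 h0) ht
    subst this
    simp only [zero_div, zero_mul]
    exact tendsto_const_nhds

theorem Ident_tendsto (h : OnePhase O u) {K : Set E3} (hK : IsCompact K) (hKO : K ⊆ O)
    {g : E3 → ℝ} (hg0 : ∀ x ∉ K, g x = 0) (hg : ∀ x ∈ O, 0 < u x → ContinuousAt g x)
    {B : ℝ} (hB : ∀ x ∈ K, 0 < u x → |g x| ≤ B) :
    Integrable (fun x => ind u x * g x) ∧
    Tendsto (fun k : ℕ => ∫ x, Ident_Phi (u x / (1 / ((k : ℝ) + 1))) * g x) atTop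
      (𝓝 (∫ x, ind u x * g x)) := by
  have hB' : ∀ x ∈ K, 0 < u x → |g x| ≤ max B 0 := fun x hx hu => (hB x hx hu).trans (le_max_left _ _)
  have hB0 : 0 ≤ max B 0 := le_max_right _ _
  have hbint : Integrable (K.indicator (fun _ => max B 0) : E3 → ℝ) :=
    (integrable_indicator_iff hK.measurableSet).2
      (integrableOn_const (hs := hK.measure_lt_top.ne))
  have hlim : ∀ x, Tendsto (fun k : ℕ => Ident_Phi (u x / (1 / ((k : ℝ) + 1))) * g x) atTop
      (𝓝 (ind u x * g x)) := by
    intro x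
    by_cases hx : x ∈ K
    · exact (Ident_lim (h.nonneg x (hKO hx))).mul_const _
    · simp only [hg0 x hx, mul_zero]
      exact tendsto_const_nhds
  have hc : ∀ k : ℕ, Continuous (fun x => Ident_Phi (u x / (1 / ((k : ℝ) + 1))) * g x) := fun k =>
    Ident_cont h hK hKO hg0 hg Ident_Phi_continuous (fun t ht => Ident_Phi_zero ht.le) (Ident_pos k)
  have hm : AEStronglyMeasurable (fun x => ind u x * g x) (volume : Measure E3) :=
    aestronglyMeasurable_of_tendsto_ae atTop (fun k => (hc k).aestronglyMeasurable)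
      (Eventually.of_forall hlim)
  constructor
  · refine hbint.mono' hm (Eventually.of_forall fun x => ?_)
    by_cases hx : x ∈ K
    · rw [indicator_of_mem hx]
      unfold ind
      split_ifs with hu
      · rw [one_mul]; exact hB' x hx hu
      · simp only [zero_mul, norm_zero]; exact hB0
    · rw [indicator_of_notMem hx, hg0 x hx, mul_zero, norm_zero]
  · refine tendsto_integral_of_dominated_convergence (K.indicator (fun _ => max B 0))
      (fun k => (hc k).aestronglyMeasurable) hbint (fun k => Eventually.of_forall fun x => ?_)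
      (Eventually.of_forall hlim)
    by_cases hx : x ∈ K
    · rw [indicator_of_mem hx]
      rcases (h.nonneg x (hKO hx)).lt_or_eq with hu | hu
      · rw [Real.norm_eq_abs, abs_mul]
        calc _ ≤ 1 * |g x| := mul_le_mul_of_nonneg_right (Ident_Phi_abs_le _) (abs_nonneg _)
          _ ≤ _ := by rw [one_mul]; exact hB' x hx hu
      · rw [← hu, zero_div, Ident_Phi_zero (by norm_num), zero_mul, norm_zero]; exact hB0
    · rw [indicator_of_notMem hx, hg0 x hx, mul_zero, norm_zero]

/-- the cut field -/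
theorem Ident_cut (h : OnePhase O u) {K : Set E3} (hK : IsCompact K) (hKO : K ⊆ O)
    {G : E3 → E3} (hG0 : ∀ x ∉ K, G x = 0) (hG : ∀ x ∈ O, 0 < u x → ContDiffAt ℝ 1 G x) {s : ℝ}
    (hs : 0 < s) : ContDiff ℝ 1 (fun x => Ident_Phi (u x / s) • G x) := by
  rw [contDiff_iff_contDiffAt]
  intro x
  by_cases hx : x ∈ K
  · have hxO := hKO hx
    have hc := Ident_cont_at h hxO
    rcases (h.nonneg x hxO).lt_or_eq with hu | hu
    · have h1 : ContDiffAt ℝ 1 (fun y => u y / s) x :=
        ((Ident_cda h hxO hu).of_le (by norm_num)).div_const s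
      have h2 : ContDiffAt ℝ 1 (fun y => Ident_Phi (u y / s)) x :=
        (Ident_Phi_contDiff (n := 1)).contDiffAt.comp x h1
      exact h2.smul (hG x hxO hu)
    · have h1 : ∀ᶠ y in 𝓝 x, u y / s < 1 / 2 := by
        have : ContinuousAt (fun y => u y / s) x := hc.div_const s
        refine this.eventually (Iio_mem_nhds ?_)
        show u x / s < 1 / 2
        rw [← hu]; norm_num
      have h2 : (fun x => Ident_Phi (u x / s) • G x) =ᶠ[𝓝 x] fun _ => 0 := by
        filter_upwards [h1] with y hy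
        rw [Ident_Phi_zero hy.le, zero_smul]
      exact contDiffAt_const.congr_of_eventuallyEq h2
  · have h2 : (fun x => Ident_Phi (u x / s) • G x) =ᶠ[𝓝 x] fun _ => 0 := by
      filter_upwards [hK.isClosed.isOpen_compl.mem_nhds hx] with y hy
      rw [hG0 y hy, smul_zero]
    exact contDiffAt_const.congr_of_eventuallyEq h2

theorem Ident_cut_divg (h : OnePhase O u) {K : Set E3} (hK : IsCompact K) (hKO : K ⊆ O)
    {G : E3 → E3} (hG0 : ∀ x ∉ K, G x = 0) (hG : ∀ x ∈ O, 0 < u x → ContDiffAt ℝ 1 G x) {s : ℝ}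
    (hs : 0 < s) (x : E3) : divg (fun x => Ident_Phi (u x / s) • G x) x =
      Ident_Phi (u x / s) * divg G x + deriv Ident_Phi (u x / s) * (1 / s * ⟪Du u x, G x⟫) := by
  by_cases hx : x ∈ K
  · have hxO := hKO hx
    have hc := Ident_cont_at h hxO
    rcases (h.nonneg x hxO).lt_or_eq with hu | hu
    · have h1 : DifferentiableAt ℝ u x := (Ident_cda h hxO hu).differentiableAt (by norm_num)
      have h2 : HasFDerivAt (fun y => Ident_Phi (u y / s))
          (deriv Ident_Phi (u x / s) • ((1 / s) • fderiv ℝ u x)) x := by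
        have h3 : HasFDerivAt (fun y => u y / s) ((1 / s) • fderiv ℝ u x) x := by
          have := h1.hasFDerivAt.const_smul (1 / s)
          refine this.congr_of_eventuallyEq (Eventually.of_forall fun y => ?_)
          simp [div_eq_inv_mul]
        have h4 : HasDerivAt Ident_Phi (deriv Ident_Phi (u x / s)) (u x / s) :=
          ((Ident_Phi_contDiff (n := 1)).differentiable (by norm_num)).differentiableAt.hasDerivAt
        have h7 := HasDerivAt.comp_hasFDerivAt x h4 h3
        exact h7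
      have h5 : DifferentiableAt ℝ G x := (hG x hxO hu).differentiableAt (by norm_num)
      rw [divg_smul h2.differentiableAt h5, inner_gradient_left, h2.fderiv]
      have h6 : Du u x = gradient u x := by unfold Du; rw [if_pos hu]
      rw [h6, inner_gradient_left]
      simp only [_root_.smul_apply, smul_eq_mul]
      ring
    · have h1 : ∀ᶠ y in 𝓝 x, u y / s < 1 / 2 := by
        have : ContinuousAt (fun y => u y / s) x := hc.div_const s
        refine this.eventually (Iio_mem_nhds ?_)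
        show u x / s < 1 / 2
        rw [← hu]; norm_num
      have h2 : (fun x => Ident_Phi (u x / s) • G x) =ᶠ[𝓝 x] fun _ => 0 := by
        filter_upwards [h1] with y hy
        rw [Ident_Phi_zero hy.le, zero_smul]
      rw [Ident_divg_zero h2, ← hu, zero_div, Ident_Phi_zero (by norm_num),
        Ident_dPhi_zero (by norm_num)]
      ring
  · have h1 : G =ᶠ[𝓝 x] fun _ => 0 := by
      filter_upwards [hK.isClosed.isOpen_compl.mem_nhds hx] with y hy
      exact hG0 y hy
    have h2 : (fun x => Ident_Phi (u x / s) • G x) =ᶠ[𝓝 x] fun _ => 0 := by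
      filter_upwards [h1] with y hy
      rw [hy, smul_zero]
    rw [Ident_divg_zero h2, Ident_divg_zero h1, hG0 x hx, inner_zero_right]
    ring

theorem Ident_Du_cont (h : OnePhase O u) {x : E3} (hx : x ∈ O) (hu : 0 < u x) :
    ContinuousAt (Du u) x := by
  have h1 : ContinuousAt (gradient u) x :=
    Ident_gradient_continuousAt ((Ident_cda h hx hu).of_le (by norm_num))
  refine h1.congr ?_
  filter_upwards [(Ident_cont_at h hx).eventually (Ioi_mem_nhds hu)] with y hy
  unfold Du
  rw [if_pos hy]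

theorem Ident_cut_int (h : OnePhase O u) {K : Set E3} (hK : IsCompact K) (hKO : K ⊆ O)
    {G : E3 → E3} (hG0 : ∀ x ∉ K, G x = 0) (hG : ∀ x ∈ O, 0 < u x → ContDiffAt ℝ 1 G x) {s : ℝ}
    (hs : 0 < s) : (∫ x, Ident_Phi (u x / s) * divg G x) +
      ∫ x, deriv Ident_Phi (u x / s) * (1 / s * ⟪Du u x, G x⟫) = 0 := by
  have hDu : ∀ x ∈ O, 0 < u x → ContinuousAt (Du u) x := fun x hx hu => Ident_Du_cont h hx hu
  have hGn : ∀ x ∉ K, divg G x = 0 := by
    intro x hx
    apply Ident_divg_zero
    filter_upwards [hK.isClosed.isOpen_compl.mem_nhds hx] with y hy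
    exact hG0 y hy
  have i1 := Ident_int h hK hKO (g := divg G) hGn
    (fun x hx hu => Ident_divg_continuousAt (hG x hx hu)) Ident_Phi_continuous
    (fun t ht => Ident_Phi_zero ht.le) hs
  have i2 := Ident_int h hK hKO (g := fun x => 1 / s * ⟪Du u x, G x⟫)
    (fun x hx => by rw [hG0 x hx, inner_zero_right, mul_zero])
    (fun x hx hu => continuousAt_const.mul ((hDu x hx hu).inner (hG x hx hu).continuousAt))
    Ident_dPhi_continuous (fun t ht => Ident_dPhi_zero ht) hs
  rw [← integral_add i1 i2]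
  have h1 := integral_divg (Ident_cut h hK hKO hG0 hG hs)
    (HasCompactSupport.intro hK fun x hx => by rw [hG0 x hx, smul_zero])
  rw [← h1]
  congr 1
  ext x
  rw [Ident_cut_divg h hK hKO hG0 hG hs x]


theorem sqIdentity (h : OnePhase O u) {Y : E3 → E3} (hY : ContDiff ℝ 1 Y)
    (hc : HasCompactSupport Y) (hs : tsupport Y ⊆ O) :
    ∫ x, u x ^ 2 * divg Y x = -2 * ∫ x, u x * ⟪Du u x, Y x⟫ := by
  have hK : IsCompact (tsupport Y) := hc
  have hY0 : ∀ x ∉ tsupport Y, Y =ᶠ[𝓝 x] fun _ => 0 := fun x hx =>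
    notMem_tsupport_iff_eventuallyEq.1 hx
  have hX : ContDiff ℝ 1 (fun x => u x ^ 2 • Y x) := by
    rw [contDiff_iff_contDiffAt]
    intro x
    by_cases hx : x ∈ O
    · exact ((sq_contDiffOn h).contDiffAt (h.isOpen.mem_nhds hx)).smul hY.contDiffAt
    · have : (fun x => u x ^ 2 • Y x) =ᶠ[𝓝 x] fun _ => 0 := by
        filter_upwards [hY0 x (fun h' => hx (hs h'))] with y hy
        rw [hy, smul_zero]
      exact contDiffAt_const.congr_of_eventuallyEq this
  have hdiv : ∀ x, divg (fun x => u x ^ 2 • Y x) x =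
      u x ^ 2 * divg Y x + 2 * (u x * ⟪Du u x, Y x⟫) := by
    intro x
    by_cases hx : x ∈ O
    · have h1 := sq_gradient h hx
      rw [divg_smul h1.differentiableAt (hY.differentiable (by norm_num)).differentiableAt,
        h1.gradient, inner_smul_left]
      simp only [conj_trivial]
      ring
    · have h0 := hY0 x (fun h' => hx (hs h'))
      have : (fun x => u x ^ 2 • Y x) =ᶠ[𝓝 x] fun _ => 0 := by
        filter_upwards [h0] with y hy
        rw [hy, smul_zero]
      rw [Ident_divg_zero this, Ident_divg_zero h0, h0.eq_of_nhds, inner_zero_right]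
      ring
  have hd0 : ∀ x ∉ tsupport Y, divg Y x = 0 := fun x hx => Ident_divg_zero (hY0 x hx)
  have i1 : Integrable (fun x => u x ^ 2 * divg Y x) := by
    refine Continuous.integrable_of_hasCompactSupport ?_
      (HasCompactSupport.intro hK fun x hx => by rw [hd0 x hx, mul_zero])
    rw [continuous_iff_continuousAt]
    intro x
    by_cases hx : x ∈ O
    · exact ((Ident_cont_at h hx).pow 2).mul (Ident_divg_continuous hY).continuousAt
    · have : (fun x => u x ^ 2 * divg Y x) =ᶠ[𝓝 x] fun _ => 0 := by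
        filter_upwards [(isClosed_tsupport Y).isOpen_compl.mem_nhds (fun h' => hx (hs h'))] with y hy
        rw [hd0 y hy, mul_zero]
      exact continuousAt_const.congr this.symm
  have hXc : HasCompactSupport (fun x => u x ^ 2 • Y x) :=
    HasCompactSupport.intro hK fun x hx => by rw [(hY0 x hx).eq_of_nhds, smul_zero]
  have i2 : Integrable (divg (fun x => u x ^ 2 • Y x)) := by
    refine (Ident_divg_continuous hX).integrable_of_hasCompactSupport
      (HasCompactSupport.intro hK fun x hx => ?_)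
    apply Ident_divg_zero
    filter_upwards [hY0 x hx] with y hy
    rw [hy, smul_zero]
  have h3 := integral_divg hX hXc
  have h4 : ∫ x, (u x ^ 2 * divg Y x - divg (fun x => u x ^ 2 • Y x) x) =
      ∫ x, u x ^ 2 * divg Y x := by
    rw [integral_sub i1 i2, h3, sub_zero]
  rw [← h4, ← integral_const_mul]
  congr 1
  ext x
  rw [hdiv x]
  ring

theorem energyIdentity (h : OnePhase O u) {φ : E3 → ℝ} (hφ : ContDiff ℝ 1 φ)
    (hc : HasCompactSupport φ) (hs : tsupport φ ⊆ O) :
    ∫ x, φ x * ‖Du u x‖ ^ 2 = - ∫ x, u x * ⟪Du u x, gradient φ x⟫ := by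
  have hK : IsCompact (tsupport φ) := hc
  have hφ0 : ∀ x ∉ tsupport φ, φ =ᶠ[𝓝 x] fun _ => 0 := fun x hx =>
    notMem_tsupport_iff_eventuallyEq.1 hx
  have hφ1 : ∀ x ∉ tsupport φ, φ x = 0 := fun x hx => (hφ0 x hx).eq_of_nhds
  have hφg : ∀ x ∉ tsupport φ, gradient φ x = 0 := fun x hx => by
    rw [(hφ0 x hx).gradient_eq]; simp
  obtain ⟨M, hM0, hM⟩ := grad_bdd h hK hs
  have hgc : ∀ x ∈ O, 0 < u x → ContinuousAt (gradient u) x := fun x hx hu =>
    Ident_gradient_continuousAt ((Ident_cda h hx hu).of_le (by norm_num))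
  have hφgc : ∀ x, ContinuousAt (gradient φ) x := fun x =>
    Ident_gradient_continuousAt hφ.contDiffAt
  have huc : ∀ x ∈ O, ContinuousAt u x := fun x hx => Ident_cont_at h hx
  have hφc : Continuous φ := hφ.continuous
  -- bounds
  obtain ⟨B0, hB0⟩ := hK.bddAbove_image (f := fun x => |φ x|) hφc.abs.continuousOn
  have hB0' : ∀ x ∈ tsupport φ, |φ x| ≤ B0 := fun x hx => hB0 ⟨x, hx, rfl⟩
  obtain ⟨B1, hB1⟩ := hK.bddAbove_image (f := fun x => |u x|)
    (fun x hx => ((huc x (hs hx)).abs).continuousWithinAt)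
  have hB1' : ∀ x ∈ tsupport φ, |u x| ≤ B1 := fun x hx => hB1 ⟨x, hx, rfl⟩
  obtain ⟨B2, hB2⟩ := hK.bddAbove_image (f := fun x => ‖gradient φ x‖)
    (fun x hx => ((hφgc x).norm).continuousWithinAt)
  have hB2' : ∀ x ∈ tsupport φ, ‖gradient φ x‖ ≤ B2 := fun x hx => hB2 ⟨x, hx, rfl⟩
  -- the field
  have hG0 : ∀ x ∉ tsupport φ, (u x * φ x) • gradient u x = 0 := fun x hx => by
    rw [hφ1 x hx, mul_zero, zero_smul]
  have hG : ∀ x ∈ O, 0 < u x → ContDiffAt ℝ 1 (fun x => (u x * φ x) • gradient u x) x :=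
    fun x hx hu => (((Ident_cda h hx hu).of_le (by norm_num)).mul hφ.contDiffAt).smul
      (Ident_grad (Ident_cda h hx hu))
  have hdiv : ∀ x ∈ O, 0 < u x → divg (fun x => (u x * φ x) • gradient u x) x =
      φ x * ‖gradient u x‖ ^ 2 + u x * ⟪gradient u x, gradient φ x⟫ := by
    intro x hx hu
    have h1 := Ident_cda h hx hu
    have h2 : DifferentiableAt ℝ u x := h1.differentiableAt (by norm_num)
    have h3 : DifferentiableAt ℝ φ x := (hφ.differentiable (by norm_num)).differentiableAt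
    have h4 : Δ u x = 0 := (h.harm x hx hu).2.eq_of_nhds
    rw [divg_smul (f := fun x => u x * φ x) (h2.mul h3)
      ((Ident_grad h1).differentiableAt (by norm_num)),
      divg_gradient h1, h4, inner_gradient_left]
    have h5 : fderiv ℝ (fun x => u x * φ x) x = u x • fderiv ℝ φ x + φ x • fderiv ℝ u x :=
      fderiv_mul h2 h3
    rw [h5]
    simp only [_root_.add_apply, _root_.smul_apply, smul_eq_mul, mul_zero, add_zero]
    rw [← inner_gradient_left (𝕜 := ℝ), ← inner_gradient_left (𝕜 := ℝ), real_inner_self_eq_norm_sq,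
      real_inner_comm]
    ring
  have hin : ∀ x, ⟪Du u x, (u x * φ x) • gradient u x⟫ = u x * (φ x * ‖Du u x‖ ^ 2) := by
    intro x
    unfold Du
    split_ifs with hu
    · rw [inner_smul_right, real_inner_self_eq_norm_sq]; ring
    · simp
  have hGd0 : ∀ x ∉ tsupport φ, divg (fun x => (u x * φ x) • gradient u x) x = 0 := by
    intro x hx
    apply Ident_divg_zero
    filter_upwards [hφ0 x hx] with y hy
    rw [hy, mul_zero, zero_smul]
  -- limits
  have L1 := (Ident_tendsto h hK hs (g := divg (fun x => (u x * φ x) • gradient u x)) hGd0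
    (fun x hx hu => Ident_divg_continuousAt (hG x hx hu)) (B := B0 * M ^ 2 + B1 * (M * B2))
    (fun x hx hu => by
      rw [hdiv x (hs hx) hu]
      refine (abs_add_le _ _).trans (add_le_add ?_ ?_)
      · rw [abs_mul, abs_of_nonneg (sq_nonneg ‖gradient u x‖)]
        exact mul_le_mul (hB0' x hx) (pow_le_pow_left₀ (norm_nonneg _) (hM x hx hu) 2)
          (by positivity) ((abs_nonneg _).trans (hB0' x hx))
      · rw [abs_mul]
        refine mul_le_mul (hB1' x hx) ?_ (abs_nonneg _) ((abs_nonneg _).trans (hB1' x hx))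
        exact (abs_real_inner_le_norm _ _).trans (mul_le_mul (hM x hx hu) (hB2' x hx)
          (norm_nonneg _) hM0))).2
  have L2 : Tendsto (fun k : ℕ => ∫ x, deriv Ident_Phi (u x / (1 / ((k : ℝ) + 1))) *
      (1 / (1 / ((k : ℝ) + 1)) * ⟪Du u x, (u x * φ x) • gradient u x⟫)) atTop (𝓝 0) := by
    obtain ⟨C, hC0, hC⟩ := Ident_dPhi_bdd
    have hbint : Integrable ((tsupport φ).indicator (fun _ => C * (B0 * M ^ 2)) : E3 → ℝ) :=
      (integrable_indicator_iff hK.measurableSet).2
        (integrableOn_const (hs := hK.measure_lt_top.ne))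
    have hc : ∀ k : ℕ, Continuous (fun x => deriv Ident_Phi (u x / (1 / ((k : ℝ) + 1))) *
      (1 / (1 / ((k : ℝ) + 1)) * ⟪Du u x, (u x * φ x) • gradient u x⟫)) := fun k =>
      Ident_cont h hK hs
        (g := fun x => 1 / (1 / ((k : ℝ) + 1)) * ⟪Du u x, (u x * φ x) • gradient u x⟫)
        (fun x hx => by rw [hin, hφ1 x hx]; ring)
        (fun x hx hu => continuousAt_const.mul ((Ident_Du_cont h hx hu).inner
          (hG x hx hu).continuousAt)) Ident_dPhi_continuous (fun t ht => Ident_dPhi_zero ht)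
        (Ident_pos k)
    have heq : ∀ (k : ℕ) (x : E3), deriv Ident_Phi (u x / (1 / ((k : ℝ) + 1))) *
        (1 / (1 / ((k : ℝ) + 1)) * ⟪Du u x, (u x * φ x) • gradient u x⟫) =
        ((u x / (1 / ((k : ℝ) + 1))) * deriv Ident_Phi (u x / (1 / ((k : ℝ) + 1)))) *
          (φ x * ‖Du u x‖ ^ 2) := by
      intro k x
      rw [hin]
      ring
    rw [← integral_zero E3 ℝ]
    refine tendsto_integral_of_dominated_convergence
      ((tsupport φ).indicator (fun _ => C * (B0 * M ^ 2)))
      (fun k => (hc k).aestronglyMeasurable) hbint (fun k => Eventually.of_forall fun x => ?_)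
      (Eventually.of_forall fun x => ?_)
    · rw [heq]
      by_cases hx : x ∈ tsupport φ
      · rw [indicator_of_mem hx, Real.norm_eq_abs, abs_mul]
        have hB00 : 0 ≤ B0 := (abs_nonneg _).trans (hB0' x hx)
        refine mul_le_mul ?_ ?_ (abs_nonneg _) hC0
        · set t := u x / (1 / ((k : ℝ) + 1)) with ht
          have ht0 : 0 ≤ t := div_nonneg (h.nonneg x (hs hx)) (Ident_pos k).le
          rw [abs_of_nonneg (mul_nonneg ht0 (Ident_dPhi_nonneg t))]
          by_cases h1 : 1 < t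
          · rw [Ident_dPhi_zero' h1, mul_zero]; exact hC0
          · calc t * deriv Ident_Phi t ≤ 1 * deriv Ident_Phi t :=
                mul_le_mul_of_nonneg_right (not_lt.1 h1) (Ident_dPhi_nonneg t)
              _ ≤ C := by rw [one_mul]; exact hC t
        · rw [abs_mul, abs_of_nonneg (sq_nonneg ‖Du u x‖)]
          refine mul_le_mul (hB0' x hx) ?_ (by positivity) hB00
          refine pow_le_pow_left₀ (norm_nonneg _) ?_ 2
          unfold Du
          split_ifs with hu
          · exact hM x hx hu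
          · rw [norm_zero]; exact hM0
      · rw [indicator_of_notMem hx, hφ1 x hx, zero_mul, mul_zero, norm_zero]
    · simp only [heq]
      by_cases hx : x ∈ tsupport φ
      · have := (Ident_lim' (h.nonneg x (hs hx))).mul_const (φ x * ‖Du u x‖ ^ 2)
        rwa [zero_mul] at this
      · rw [hφ1 x hx]
        simp
  have hz : ∫ x, ind u x * divg (fun x => (u x * φ x) • gradient u x) x = 0 := by
    have h1 := L1.add L2
    rw [add_zero] at h1
    refine tendsto_nhds_unique h1 ?_
    refine tendsto_const_nhds.congr fun k => ?_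
    exact (Ident_cut_int h hK hs hG0 hG (Ident_pos k)).symm
  -- splitting
  have J1 : Integrable (fun x => φ x * ‖Du u x‖ ^ 2) := by
    have h1 := (Ident_tendsto h hK hs (g := fun x => φ x * ‖gradient u x‖ ^ 2)
      (fun x hx => by rw [hφ1 x hx, zero_mul])
      (fun x hx hu => hφc.continuousAt.mul ((hgc x hx hu).norm.pow 2)) (B := B0 * M ^ 2)
      (fun x hx hu => by
        rw [abs_mul, abs_of_nonneg (sq_nonneg ‖gradient u x‖)]
        exact mul_le_mul (hB0' x hx) (pow_le_pow_left₀ (norm_nonneg _) (hM x hx hu) 2)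
          (by positivity) ((abs_nonneg _).trans (hB0' x hx)))).1
    refine h1.congr (Eventually.of_forall fun x => ?_)
    by_cases hu : 0 < u x <;> simp [ind, Du, hu]
  have J2 : Integrable (fun x => u x * ⟪Du u x, gradient φ x⟫) := by
    have h1 := (Ident_tendsto h hK hs (g := fun x => u x * ⟪gradient u x, gradient φ x⟫)
      (fun x hx => by rw [hφg x hx, inner_zero_right, mul_zero])
      (fun x hx hu => (huc x hx).mul ((hgc x hx hu).inner (hφgc x)))
      (B := B1 * (M * B2))
      (fun x hx hu => by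
        rw [abs_mul]
        refine mul_le_mul (hB1' x hx) ?_ (abs_nonneg _) ((abs_nonneg _).trans (hB1' x hx))
        exact (abs_real_inner_le_norm _ _).trans (mul_le_mul (hM x hx hu) (hB2' x hx)
          (norm_nonneg _) hM0))).1
    refine h1.congr (Eventually.of_forall fun x => ?_)
    by_cases hu : 0 < u x <;> simp [ind, Du, hu]
  have hsum : (∫ x, φ x * ‖Du u x‖ ^ 2) + ∫ x, u x * ⟪Du u x, gradient φ x⟫ = 0 := by
    rw [← integral_add J1 J2, ← hz]
    congr 1
    ext x
    by_cases hx : x ∈ tsupport φ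
    · by_cases hu : 0 < u x
      · rw [hdiv x (hs hx) hu]
        unfold ind Du
        rw [if_pos hu, if_pos hu]
        ring
      · unfold ind Du
        rw [if_neg hu, if_neg hu]
        simp
    · rw [hGd0 x hx, hφ1 x hx, hφg x hx, inner_zero_right]
      ring
  linarith


theorem domainVariation (h : OnePhase O u) {X : E3 → E3} (hX : ContDiff ℝ 1 X)
    (hc : HasCompactSupport X) (hs : tsupport X ⊆ O) :
    ∫ x, ((‖Du u x‖ ^ 2 + ind u x) * divg X x - 2 * ⟪Du u x, fderiv ℝ X x (Du u x)⟫) = 0 := by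
  have hK : IsCompact (tsupport X) := hc
  have hX0 : ∀ x ∉ tsupport X, X =ᶠ[𝓝 x] fun _ => 0 := fun x hx =>
    notMem_tsupport_iff_eventuallyEq.1 hx
  have hX1 : ∀ x ∉ tsupport X, X x = 0 := fun x hx => (hX0 x hx).eq_of_nhds
  have hgc : ∀ x ∈ O, 0 < u x → ContinuousAt (gradient u) x := fun x hx hu =>
    Ident_gradient_continuousAt ((Ident_cda h hx hu).of_le (by norm_num))
  have huc : ∀ x ∈ O, ContinuousAt u x := fun x hx => Ident_cont_at h hx
  -- the field
  let G : E3 → E3 := fun x => ‖gradient u x‖ ^ 2 • X x - (2 * ⟪X x, gradient u x⟫) • gradient u x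
    + X x
  have hG0 : ∀ x ∉ tsupport X, G x = 0 := fun x hx => by
    simp only [G, hX1 x hx, smul_zero, inner_zero_left, mul_zero, zero_smul, sub_zero, add_zero]
  have hG : ∀ x ∈ O, 0 < u x → ContDiffAt ℝ 1 G x := by
    intro x hx hu
    have h1 := Ident_grad (Ident_cda h hx hu)
    have hXx : ContDiffAt ℝ 1 X x := hX.contDiffAt
    exact ((h1.norm_sq (𝕜 := ℝ)).smul hXx |>.sub
      ((contDiffAt_const.mul (hXx.inner ℝ h1)).smul h1)).add hXx
  have hdiv : ∀ x ∈ O, 0 < u x → divg G x = (‖gradient u x‖ ^ 2 + 1) * divg X x -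
      2 * ⟪gradient u x, fderiv ℝ X x (gradient u x)⟫ := by
    intro x hx hu
    have h0 := Ident_cda h hx hu
    have h1 := Ident_grad h0
    have hXx : ContDiffAt ℝ 1 X x := hX.contDiffAt
    have h4 : Δ u x = 0 := (h.harm x hx hu).2.eq_of_nhds
    have d1 : DifferentiableAt ℝ (gradient u) x := h1.differentiableAt (by norm_num)
    have d2 : DifferentiableAt ℝ X x := hXx.differentiableAt (by norm_num)
    have d3 : DifferentiableAt ℝ (fun x => ‖gradient u x‖ ^ 2) x :=
      (h1.norm_sq (𝕜 := ℝ)).differentiableAt (by norm_num)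
    have d4 : DifferentiableAt ℝ (fun x => 2 * ⟪X x, gradient u x⟫) x :=
      (contDiffAt_const.mul (hXx.inner ℝ h1)).differentiableAt (by norm_num)
    have e1 : divg G x = divg (fun x => ‖gradient u x‖ ^ 2 • X x) x -
        divg (fun x => (2 * ⟪X x, gradient u x⟫) • gradient u x) x + divg X x := by
      have d5 : DifferentiableAt ℝ (fun x => ‖gradient u x‖ ^ 2 • X x) x := d3.smul d2
      have d6 : DifferentiableAt ℝ (fun x => (2 * ⟪X x, gradient u x⟫) • gradient u x) x :=
        d4.smul d1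
      have d7 : DifferentiableAt ℝ (fun x => ‖gradient u x‖ ^ 2 • X x -
        (2 * ⟪X x, gradient u x⟫) • gradient u x) x := d5.sub d6
      have e2 := Ident_divg_add d7 d2
      rw [Ident_divg_sub d5 d6] at e2
      exact e2
    have f3 : fderiv ℝ (fun x => ‖gradient u x‖ ^ 2) x (X x) =
        2 * ⟪gradient u x, fderiv ℝ (gradient u) x (X x)⟫ := by
      have : (fun x => ‖gradient u x‖ ^ 2) = fun x => ⟪gradient u x, gradient u x⟫ := by
        ext y; rw [real_inner_self_eq_norm_sq]
      rw [this, fderiv_inner_apply ℝ d1 d1, real_inner_comm (gradient u x)]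
      ring
    have f4 : fderiv ℝ (fun x => 2 * ⟪X x, gradient u x⟫) x (gradient u x) =
        2 * (⟪X x, fderiv ℝ (gradient u) x (gradient u x)⟫ +
          ⟪fderiv ℝ X x (gradient u x), gradient u x⟫) := by
      rw [← fderiv_inner_apply ℝ d2 d1, fderiv_const_mul (d2.inner ℝ d1)]
      rfl
    rw [e1, divg_smul d3 d2, divg_smul d4 d1, divg_gradient h0, h4, inner_gradient_left,
      inner_gradient_left, f3, f4, real_inner_comm (gradient u x) (fderiv ℝ X x (gradient u x)),
      real_inner_comm (fderiv ℝ (gradient u) x (X x)) (gradient u x), Ident_symm h0]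
    ring
  have hin : ∀ x, ⟪Du u x, G x⟫ = (1 - ‖Du u x‖ ^ 2) * ⟪X x, Du u x⟫ := by
    intro x
    by_cases hu : 0 < u x
    · simp only [Du, if_pos hu, G]
      rw [inner_add_right, inner_sub_right, inner_smul_right, inner_smul_right,
        real_inner_self_eq_norm_sq, real_inner_comm]
      ring
    · simp only [Du, if_neg hu, inner_zero_left, inner_zero_right, mul_zero]
  have hGd0 : ∀ x ∉ tsupport X, divg G x = 0 := by
    intro x hx
    apply Ident_divg_zero
    filter_upwards [hX0 x hx] with y hy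
    simp only [G, hy, smul_zero, inner_zero_left, mul_zero, zero_smul, sub_zero, add_zero]
  obtain ⟨M, hM0, hM⟩ := grad_bdd h hK hs
  obtain ⟨B0, hB0⟩ := hK.bddAbove_image (f := fun x => ‖X x‖) hX.continuous.norm.continuousOn
  have hB0' : ∀ x ∈ tsupport X, ‖X x‖ ≤ max B0 0 := fun x hx =>
    (hB0 ⟨x, hx, rfl⟩).trans (le_max_left _ _)
  obtain ⟨B1, hB1⟩ := hK.bddAbove_image (f := fun x => |divg X x|)
    (Ident_divg_continuous hX).abs.continuousOn
  have hB1' : ∀ x ∈ tsupport X, |divg X x| ≤ B1 := fun x hx => hB1 ⟨x, hx, rfl⟩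
  have hfc : Continuous (fderiv ℝ X) := hX.continuous_fderiv (by norm_num)
  obtain ⟨B2, hB2⟩ := hK.bddAbove_image (f := fun x => ‖fderiv ℝ X x‖) hfc.norm.continuousOn
  have hB2' : ∀ x ∈ tsupport X, ‖fderiv ℝ X x‖ ≤ max B2 0 := fun x hx =>
    (hB2 ⟨x, hx, rfl⟩).trans (le_max_left _ _)
  have hB20 : 0 ≤ max B2 0 := le_max_right _ _
  have hB00 : 0 ≤ max B0 0 := le_max_right _ _
  -- first limit
  have L1 := (Ident_tendsto h hK hs (g := divg G) hGd0
    (fun x hx hu => Ident_divg_continuousAt (hG x hx hu))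
    (B := (M ^ 2 + 1) * B1 + 2 * (M * (max B2 0 * M)))
    (fun x hx hu => by
      have hMx := hM x hx hu
      rw [hdiv x (hs hx) hu]
      refine (abs_sub _ _).trans (add_le_add ?_ ?_)
      · rw [abs_mul, abs_of_nonneg (by positivity : 0 ≤ ‖gradient u x‖ ^ 2 + 1)]
        refine mul_le_mul ?_ (hB1' x hx) (abs_nonneg _) (by positivity)
        have := pow_le_pow_left₀ (norm_nonneg _) hMx 2
        linarith
      · rw [abs_mul, abs_of_pos (by norm_num : (0 : ℝ) < 2)]
        refine mul_le_mul_of_nonneg_left ?_ (by norm_num)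
        refine (abs_real_inner_le_norm _ _).trans (mul_le_mul hMx ?_ (norm_nonneg _) hM0)
        exact (ContinuousLinearMap.le_opNorm _ _).trans
          (mul_le_mul (hB2' x hx) hMx (norm_nonneg _) hB20))).2
  -- cut-off function
  obtain ⟨K', hK', hKK', hK'O⟩ := exists_compact_between hK h.isOpen hs
  obtain ⟨φ, hφ, hφ0, hφ1, hφn⟩ : ∃ φ : E3 → ℝ, ContDiff ℝ 1 φ ∧ (∀ x ∉ K', φ x = 0) ∧
      (∀ x ∈ tsupport X, φ x = 1) ∧ ∀ x, 0 ≤ φ x := by
    obtain ⟨f, hf0, hf1, hf⟩ := exists_contMDiffMap_zero_one_of_isClosed (n := 1)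
      (modelWithCornersSelf ℝ E3) (s := (interior K')ᶜ) (t := tsupport X)
      isOpen_interior.isClosed_compl (isClosed_tsupport X)
      (Set.disjoint_left.2 fun x hx hx' => hx (hKK' hx'))
    refine ⟨f, f.contMDiff.contDiff, fun x hx => ?_, fun x hx => hf1 hx, fun x => (hf x).1⟩
    exact hf0 (fun h' => hx (interior_subset h'))
  obtain ⟨M', hM'0, hM'⟩ := grad_bdd h hK' hK'O
  have hφ00 : ∀ x ∉ K', φ =ᶠ[𝓝 x] fun _ => 0 := fun x hx => by
    filter_upwards [hK'.isClosed.isOpen_compl.mem_nhds hx] with y hy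
    exact hφ0 y hy
  have hφgc : Continuous (gradient φ) := continuous_iff_continuousAt.2 fun x =>
    Ident_gradient_continuousAt hφ.contDiffAt
  obtain ⟨B3, hB3⟩ := hK'.bddAbove_image (f := fun x => ‖gradient φ x‖) hφgc.norm.continuousOn
  have hB3' : ∀ x ∈ K', ‖gradient φ x‖ ≤ B3 := fun x hx => hB3 ⟨x, hx, rfl⟩
  let F : E3 → E3 := fun x => φ x • gradient u x
  have hF0 : ∀ x ∉ K', F x = 0 := fun x hx => by simp only [F, hφ0 x hx, zero_smul]
  have hF : ∀ x ∈ O, 0 < u x → ContDiffAt ℝ 1 F x := fun x hx hu =>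
    hφ.contDiffAt.smul (Ident_grad (Ident_cda h hx hu))
  have hFd0 : ∀ x ∉ K', divg F x = 0 := by
    intro x hx
    apply Ident_divg_zero
    filter_upwards [hφ00 x hx] with y hy
    simp only [F, hy, zero_smul]
  have hFdiv : ∀ x ∈ O, 0 < u x → divg F x = ⟪gradient φ x, gradient u x⟫ := by
    intro x hx hu
    have h0 := Ident_cda h hx hu
    have h4 : Δ u x = 0 := (h.harm x hx hu).2.eq_of_nhds
    have := divg_smul (f := φ) (X := gradient u) (x := x)
      ((hφ.differentiable (by norm_num)).differentiableAt)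
      ((Ident_grad h0).differentiableAt (by norm_num))
    rw [divg_gradient h0, h4, mul_zero, add_zero] at this
    exact this
  have hFin : ∀ x, ⟪Du u x, F x⟫ = φ x * ‖Du u x‖ ^ 2 := by
    intro x
    by_cases hu : 0 < u x
    · simp only [Du, if_pos hu, F]
      rw [inner_smul_right, real_inner_self_eq_norm_sq]
    · simp only [Du, if_neg hu, inner_zero_left, norm_zero]
      ring
  have L3 := (Ident_tendsto h hK' hK'O (g := divg F) hFd0
    (fun x hx hu => Ident_divg_continuousAt (hF x hx hu)) (B := B3 * M')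
    (fun x hx hu => by
      rw [hFdiv x (hK'O hx) hu]
      exact (abs_real_inner_le_norm _ _).trans (mul_le_mul (hB3' x hx) (hM' x hx hu)
        (norm_nonneg _) ((norm_nonneg _).trans (hB3' x hx))))).2
  obtain ⟨C1, hC1⟩ : ∃ C1 : ℝ, ∀ k : ℕ,
      |∫ x, Ident_Phi (u x / (1 / ((k : ℝ) + 1))) * divg F x| ≤ C1 := by
    obtain ⟨C, hC⟩ := L3.abs.bddAbove_range
    exact ⟨C, fun k => hC ⟨k, rfl⟩⟩
  have hC10 : 0 ≤ C1 := (abs_nonneg _).trans (hC1 0)
  have hlayer : ∀ k : ℕ, ∫ x, deriv Ident_Phi (u x / (1 / ((k : ℝ) + 1))) *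
      (1 / (1 / ((k : ℝ) + 1)) * ⟪Du u x, F x⟫) ≤ C1 := by
    intro k
    have h1 := Ident_cut_int h hK' hK'O hF0 hF (Ident_pos k)
    have h2 := neg_le_of_abs_le (hC1 k)
    linarith
  have hflayer : ∀ k : ℕ, Integrable (fun x => deriv Ident_Phi (u x / (1 / ((k : ℝ) + 1))) *
      (1 / (1 / ((k : ℝ) + 1)) * ⟪Du u x, F x⟫)) := fun k =>
    Ident_int h hK' hK'O (g := fun x => 1 / (1 / ((k : ℝ) + 1)) * ⟪Du u x, F x⟫)
      (fun x hx => by rw [hF0 x hx, inner_zero_right, mul_zero])
      (fun x hx hu => continuousAt_const.mul ((Ident_Du_cont h hx hu).inner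
        (hF x hx hu).continuousAt)) Ident_dPhi_continuous (fun t ht => Ident_dPhi_zero ht)
      (Ident_pos k)
  -- the remainder
  have hrem : ∀ ε : ℝ, 0 < ε → ε ≤ 1 / 2 →
      |∫ x, ind u x * divg G x| ≤ 2 * ε * (max B0 0 * M) * C1 := by
    intro ε hε hε2
    obtain ⟨s₁, hs₁, hs₁'⟩ := grad_near_one h hK hs hε
    refine le_of_tendsto L1.abs ?_
    obtain ⟨N, hN⟩ := exists_nat_gt (1 / s₁)
    filter_upwards [eventually_ge_atTop N] with k hk
    have hsk : 1 / ((k : ℝ) + 1) < s₁ := by
      have h1 : (N : ℝ) ≤ k := by exact_mod_cast hk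
      rw [div_lt_iff₀ (by positivity)]
      have h2 : 1 / s₁ < (k : ℝ) + 1 := by linarith
      rw [div_lt_iff₀ hs₁] at h2
      linarith
    have hsk0 := Ident_pos k
    set s := 1 / ((k : ℝ) + 1) with hsdef
    have h1 := Ident_cut_int h hK hs hG0 hG hsk0
    have h2 : ∫ x, Ident_Phi (u x / s) * divg G x =
      - ∫ x, deriv Ident_Phi (u x / s) * (1 / s * ⟪Du u x, G x⟫) := by linarith
    rw [h2, abs_neg]
    have hpt : ∀ x, ‖deriv Ident_Phi (u x / s) * (1 / s * ⟪Du u x, G x⟫)‖ ≤
        2 * ε * (max B0 0 * M) * (deriv Ident_Phi (u x / s) * (1 / s * ⟪Du u x, F x⟫)) := by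
      intro x
      rw [hFin x, hin x]
      have hd0 := Ident_dPhi_nonneg (u x / s)
      have hs0' : 0 ≤ 1 / s := by positivity
      have hrhs : 0 ≤ 2 * ε * (max B0 0 * M) *
          (deriv Ident_Phi (u x / s) * (1 / s * (φ x * ‖Du u x‖ ^ 2))) := by
        have := hφn x
        positivity
      by_cases hx : x ∈ tsupport X
      · by_cases hu : 0 < u x
        · by_cases hus : u x < s₁
          · have h3 := hs₁' x hx hu hus
            rw [hφ1 x hx, one_mul]
            have h4 : Du u x = gradient u x := by simp only [Du, if_pos hu]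
            rw [h4]
            rw [abs_lt] at h3
            have h5 : 1 / 2 ≤ ‖gradient u x‖ ^ 2 := by linarith [h3.1]
            have h6 : |1 - ‖gradient u x‖ ^ 2| ≤ ε := by
              rw [abs_le]; constructor <;> linarith [h3.1, h3.2]
            have h7 : |⟪X x, gradient u x⟫| ≤ max B0 0 * M :=
              (abs_real_inner_le_norm _ _).trans (mul_le_mul (hB0' x hx) (hM x hx hu)
                (norm_nonneg _) hB00)
            have h8 : |(1 - ‖gradient u x‖ ^ 2) * ⟪X x, gradient u x⟫| ≤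
                2 * ε * (max B0 0 * M) * ‖gradient u x‖ ^ 2 := by
              rw [abs_mul]
              calc _ ≤ ε * (max B0 0 * M) := mul_le_mul h6 h7 (abs_nonneg _) hε.le
                _ ≤ _ := by
                  have : 0 ≤ ε * (max B0 0 * M) := by positivity
                  nlinarith only [hε2, h3, this]
            rw [Real.norm_eq_abs, abs_mul, abs_mul, abs_of_nonneg hd0, abs_of_nonneg hs0']
            calc _ ≤ deriv Ident_Phi (u x / s) * (1 / s *
                  (2 * ε * (max B0 0 * M) * ‖gradient u x‖ ^ 2)) :=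
                mul_le_mul_of_nonneg_left (mul_le_mul_of_nonneg_left h8 hs0') hd0
              _ = _ := by ring
          · have h3 : 1 < u x / s := by
              rw [lt_div_iff₀ hsk0, one_mul]
              linarith [not_lt.1 hus]
            rw [Ident_dPhi_zero' h3]
            simp
        · have h3 : Du u x = 0 := by simp only [Du, if_neg hu]
          rw [h3]
          simp
      · have : ‖deriv Ident_Phi (u x / s) * (1 / s * ((1 - ‖Du u x‖ ^ 2) * ⟪X x, Du u x⟫))‖ = 0 := by
          rw [hX1 x hx, inner_zero_left]; simp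
        rw [this]
        exact hrhs
    have h3 := norm_integral_le_of_norm_le ((hflayer k).const_mul (2 * ε * (max B0 0 * M)))
      (Eventually.of_forall hpt)
    rw [integral_const_mul] at h3
    refine h3.trans (mul_le_mul_of_nonneg_left (hlayer k) (by positivity))
  have hzero : ∫ x, ind u x * divg G x = 0 := by
    by_contra hne
    have hpos : 0 < |∫ x, ind u x * divg G x| := abs_pos.2 hne
    set L := |∫ x, ind u x * divg G x| with hL
    set D := 2 * (max B0 0 * M) * C1 with hD
    have hD0 : 0 ≤ D := by positivity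
    have h1 := hrem (min (1 / 2) (L / (D + 1) / 2)) (lt_min (by norm_num) (by positivity))
      (min_le_left _ _)
    have h2 : 2 * min (1 / 2) (L / (D + 1) / 2) * (max B0 0 * M) * C1 ≤
        (L / (D + 1) / 2) * D := by
      have h3 := min_le_right (1 / 2) (L / (D + 1) / 2)
      calc _ = min (1 / 2) (L / (D + 1) / 2) * D := by rw [hD]; ring
        _ ≤ _ := mul_le_mul_of_nonneg_right h3 hD0
    have h4 : (L / (D + 1) / 2) * D < L := by
      rw [div_div, div_mul_eq_mul_div, div_lt_iff₀ (by positivity)]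
      nlinarith
    linarith
  rw [← hzero]
  congr 1
  ext x
  by_cases hx : x ∈ tsupport X
  · by_cases hu : 0 < u x
    · rw [hdiv x (hs hx) hu]
      simp only [Du, ind, if_pos hu]
      ring
    · simp only [Du, ind, if_neg hu]
      simp
  · rw [hGd0 x hx, Ident_divg_zero (hX0 x hx), (hX0 x hx).fderiv_eq]
    simp

end Pool.Agent.H32.Flat
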