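import Pool.Agent.H32.Flat.HopfTouch

/-!
# Module D2: the universal Lipschitz bound

Fix `x`, `s = |x|`, `2δ ≤ s ≤ 1/2`, `u x > 0`.  All balls of radius `≤ s/4` about points of the
sphere `|z| = s` lie in `{δ < |x| < 1}`.
(1) `LipBd_near`: if `ball z (s/4)` contains a zero and `u z > 0`, the nearest zero touches a positive
    ball: `hopf_touch` gives `u z ≤ C D`, `D` the distance to the nearest zero.
(2) `LipBd_chain`: join `x` to the point `y`, `|y| = s`, `FB u y` (`Setup.meets`) along a great circle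
    arc in `64` steps of length `≤ s/8`; going backwards from `y`, either (1) or `harnack` applies.
(3) gradient: `grad_bound` on `ball x (D/2)`.
-/

open Set Metric MeasureTheory Filter Topology InnerProductSpace
open scoped Laplacian Gradient RealInnerProductSpace

namespace Pool.Agent.H32.Flat

theorem LipBd_nearest {O : Set E3} {u : E3 → ℝ} (h : OnePhase O u) {z w : E3} {r : ℝ}
    (hO : closedBall z r ⊆ O) (hw : w ∈ ball z r) (hw0 : u w = 0) (hz : 0 < u z) :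
    ∃ D : ℝ, 0 < D ∧ D < r ∧ (∀ x ∈ ball z D, 0 < u x) ∧ ∃ y, dist y z = D ∧ u y = 0 := by
  set Z : Set E3 := closedBall z r ∩ u ⁻¹' {0} with hZ
  have hZc : IsClosed Z :=
    (h.cont.mono hO).preimage_isClosed_of_isClosed isClosed_closedBall isClosed_singleton
  have hZcomp : IsCompact Z := (isCompact_closedBall z r).of_isClosed_subset hZc inter_subset_left
  have hwZ : w ∈ Z := ⟨ball_subset_closedBall hw, hw0⟩
  obtain ⟨y, hyZ, hy⟩ := hZcomp.exists_infDist_eq_dist ⟨w, hwZ⟩ z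
  have hy0 : u y = 0 := hyZ.2
  have hDr : dist z y < r := by
    rw [← hy]
    calc infDist z Z ≤ dist z w := infDist_le_dist_of_mem hwZ
      _ < r := by rw [dist_comm]; exact hw
  refine ⟨dist z y, ?_, hDr, ?_, y, dist_comm _ _, hy0⟩
  · refine dist_pos.2 ?_
    rintro rfl
    exact absurd hy0 hz.ne'
  · intro x hx
    have hxc : x ∈ closedBall z r := by
      have : dist x z < dist z y := hx
      exact (this.trans hDr).le
    rcases (h.nonneg x (hO hxc)).lt_or_eq with h0 | h0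
    · exact h0
    · exfalso
      have hxZ : x ∈ Z := ⟨hxc, h0.symm⟩
      have h1 : infDist z Z ≤ dist z x := infDist_le_dist_of_mem hxZ
      rw [hy] at h1
      have h2 : dist x z < dist z y := hx
      rw [dist_comm] at h2
      linarith

theorem LipBd_norm_le_abs {e₁ e₂ : E3} (h1 : ‖e₁‖ = 1) (h2 : ‖e₂‖ = 1) (a b : ℝ) :
    ‖a • e₁ + b • e₂‖ ≤ |a| + |b| := by
  calc ‖a • e₁ + b • e₂‖ ≤ ‖a • e₁‖ + ‖b • e₂‖ := norm_add_le _ _
    _ = |a| + |b| := by rw [norm_smul, norm_smul, h1, h2, Real.norm_eq_abs, Real.norm_eq_abs]; ring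

theorem LipBd_exists_orth (e : E3) : ∃ f : E3, ‖f‖ = 1 ∧ ⟪e, f⟫ = 0 := by
  have hrank : 1 < Module.finrank ℝ E3 := by simp
  have hne : (ℝ ∙ e)ᗮ ≠ ⊥ := by
    intro hbot
    have h1 : (ℝ ∙ e) = ⊤ := by
      have := Submodule.orthogonal_orthogonal (K := (ℝ ∙ e))
      rw [hbot, Submodule.bot_orthogonal_eq_top] at this
      exact this.symm
    have h2 : Module.finrank ℝ (ℝ ∙ e) ≤ 1 :=
      (finrank_span_le_card (R := ℝ) ({e} : Set E3)).trans (by simp)
    rw [h1, finrank_top] at h2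
    omega
  obtain ⟨f, hf, hf0⟩ := Submodule.exists_mem_ne_zero_of_ne_bot hne
  refine ⟨(‖f‖⁻¹ : ℝ) • f, ?_, ?_⟩
  · rw [norm_smul, norm_inv, norm_norm, inv_mul_cancel₀ (norm_ne_zero_iff.2 hf0)]
  · rw [inner_smul_right]
    have : ⟪e, f⟫ = 0 := (Submodule.mem_orthogonal_singleton_iff_inner_right).1 hf
    rw [this, mul_zero]

/-- polar coordinates with pole `x`: `y = s (cos θ e₁ + sin θ e₂)` -/
theorem LipBd_polar {x y : E3} {s : ℝ} (hs : 0 < s) (hx : ‖x‖ = s) (hy : ‖y‖ = s) :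
    ∃ (e₁ e₂ : E3) (θ : ℝ), ‖e₁‖ = 1 ∧ ‖e₂‖ = 1 ∧ ⟪e₁, e₂⟫ = 0 ∧ 0 ≤ θ ∧ θ ≤ Real.pi ∧
      x = s • e₁ ∧ y = s • (Real.cos θ • e₁ + Real.sin θ • e₂) := by
  obtain ⟨e₁, he1⟩ : ∃ e₁ : E3, e₁ = s⁻¹ • x := ⟨_, rfl⟩
  obtain ⟨v, hv⟩ : ∃ v : E3, v = s⁻¹ • y := ⟨_, rfl⟩
  have hn1 : ‖e₁‖ = 1 := by
    rw [he1, norm_smul, norm_inv, Real.norm_eq_abs, abs_of_pos hs, hx, inv_mul_cancel₀ hs.ne']
  have hnv : ‖v‖ = 1 := by
    rw [hv, norm_smul, norm_inv, Real.norm_eq_abs, abs_of_pos hs, hy, inv_mul_cancel₀ hs.ne']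
  have hxe : x = s • e₁ := by rw [he1, smul_smul, mul_inv_cancel₀ hs.ne', one_smul]
  have hyv : y = s • v := by rw [hv, smul_smul, mul_inv_cancel₀ hs.ne', one_smul]
  obtain ⟨c, hc⟩ : ∃ c : ℝ, c = ⟪e₁, v⟫ := ⟨_, rfl⟩
  obtain ⟨w, hw⟩ : ∃ w : E3, w = v - c • e₁ := ⟨_, rfl⟩
  have hc1 : |c| ≤ 1 := by
    have := abs_real_inner_le_norm e₁ v
    rw [hn1, hnv, ← hc] at this
    simpa using this
  have hcl : -1 ≤ c := (abs_le.1 hc1).1
  have hcu : c ≤ 1 := (abs_le.1 hc1).2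
  have horth : ⟪e₁, w⟫ = 0 := by
    rw [hw, inner_sub_right, inner_smul_right, real_inner_self_eq_norm_sq, hn1, ← hc]; ring
  have hnw : ‖w‖ ^ 2 = 1 - c ^ 2 := by
    have h1 : v = c • e₁ + w := by rw [hw]; abel
    have h2 : ‖v‖ ^ 2 = ‖c • e₁‖ ^ 2 + 2 * ⟪c • e₁, w⟫ + ‖w‖ ^ 2 := by
      rw [h1]; exact norm_add_sq_real _ _
    rw [hnv, inner_smul_left, horth, norm_smul, hn1, Real.norm_eq_abs] at h2
    simp only [mul_one, sq_abs, mul_zero, add_zero, one_pow] at h2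
    linarith
  have hsin : Real.sin (Real.arccos c) = ‖w‖ := by
    rw [Real.sin_arccos, ← hnw, Real.sqrt_sq (norm_nonneg _)]
  have hcos : Real.cos (Real.arccos c) = c := Real.cos_arccos hcl hcu
  by_cases hw0 : w = 0
  · obtain ⟨f, hf1, hf2⟩ := LipBd_exists_orth e₁
    refine ⟨e₁, f, Real.arccos c, hn1, hf1, hf2, Real.arccos_nonneg c, Real.arccos_le_pi c, hxe, ?_⟩
    rw [hsin, hcos, hw0, norm_zero, zero_smul, add_zero, hyv]
    have : v = c • e₁ := by
      have := hw0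
      rw [hw, sub_eq_zero] at this
      exact this
    rw [← this]
  · have hwn : ‖w‖ ≠ 0 := norm_ne_zero_iff.2 hw0
    refine ⟨e₁, (‖w‖⁻¹ : ℝ) • w, Real.arccos c, hn1, ?_, ?_, Real.arccos_nonneg c,
      Real.arccos_le_pi c, hxe, ?_⟩
    · rw [norm_smul, norm_inv, norm_norm, inv_mul_cancel₀ hwn]
    · rw [inner_smul_right, horth, mul_zero]
    · have h3 : ‖w‖ • (‖w‖⁻¹ : ℝ) • w = w := by
        rw [smul_smul, mul_inv_cancel₀ hwn, one_smul]
      rw [hsin, hcos, h3, hyv]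
      congr 1
      rw [hw]; abel

/-- a chain of `65` points on the sphere of radius `s` with steps at most `s / 8` -/
theorem LipBd_path {x y : E3} {s : ℝ} (hs : 0 < s) (hx : ‖x‖ = s) (hy : ‖y‖ = s) :
    ∃ z : ℕ → E3, z 0 = x ∧ z 64 = y ∧ (∀ i, ‖z i‖ = s) ∧ ∀ i, dist (z (i + 1)) (z i) ≤ s / 8 := by
  obtain ⟨e₁, e₂, θ, h1, h2, h12, hθ0, hθπ, hxe, hye⟩ := LipBd_polar hs hx hy
  refine ⟨fun i => s • (Real.cos (i * (θ / 64)) • e₁ + Real.sin (i * (θ / 64)) • e₂), ?_, ?_, ?_, ?_⟩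
  · simp [hxe]
  · have : ((64 : ℕ) : ℝ) * (θ / 64) = θ := by push_cast; ring
    simp only [this, hye]
  · intro i
    set a : ℝ := (i : ℝ) * (θ / 64)
    have hsq : ‖Real.cos a • e₁ + Real.sin a • e₂‖ ^ 2 = 1 := by
      rw [norm_add_sq_real, inner_smul_left, inner_smul_right, h12, norm_smul, norm_smul, h1, h2,
        Real.norm_eq_abs, Real.norm_eq_abs]
      simp only [mul_one, sq_abs, mul_zero, add_zero]
      exact Real.cos_sq_add_sin_sq a
    have hn : ‖Real.cos a • e₁ + Real.sin a • e₂‖ = 1 := by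
      have h0 := norm_nonneg (Real.cos a • e₁ + Real.sin a • e₂)
      nlinarith
    rw [norm_smul, hn, Real.norm_eq_abs, abs_of_pos hs, mul_one]
  · intro i
    set a : ℝ := ((i + 1 : ℕ) : ℝ) * (θ / 64) with ha
    set b : ℝ := (i : ℝ) * (θ / 64) with hb
    have hab : |a - b| = θ / 64 := by
      rw [ha, hb]
      push_cast
      rw [show ((i : ℝ) + 1) * (θ / 64) - i * (θ / 64) = θ / 64 by ring]
      exact abs_of_nonneg (by positivity)
    have hdist : dist (s • (Real.cos a • e₁ + Real.sin a • e₂))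
        (s • (Real.cos b • e₁ + Real.sin b • e₂)) =
        s * ‖(Real.cos a - Real.cos b) • e₁ + (Real.sin a - Real.sin b) • e₂‖ := by
      rw [dist_eq_norm, ← smul_sub, norm_smul, Real.norm_eq_abs, abs_of_pos hs]
      congr 2
      rw [sub_smul, sub_smul]; abel
    rw [hdist]
    have hc : |Real.cos a - Real.cos b| ≤ |a - b| := by
      have := Real.abs_cos_sub_cos_le a b
      exact this
    have hsn : |Real.sin a - Real.sin b| ≤ |a - b| := by
      have := Real.abs_sin_sub_sin_le a b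
      exact this
    have hle := LipBd_norm_le_abs h1 h2 (Real.cos a - Real.cos b) (Real.sin a - Real.sin b)
    have hpi : Real.pi < 3.15 := Real.pi_lt_d2
    have h3 : ‖(Real.cos a - Real.cos b) • e₁ + (Real.sin a - Real.sin b) • e₂‖ ≤ 1 / 8 := by
      rw [hab] at hc hsn
      linarith
    calc s * ‖(Real.cos a - Real.cos b) • e₁ + (Real.sin a - Real.sin b) • e₂‖ ≤ s * (1 / 8) :=
          mul_le_mul_of_nonneg_left h3 hs.le
      _ = s / 8 := by ring

theorem lip_bound : ∃ L : ℝ, 1 ≤ L ∧ ∀ (δ ε : ℝ) (u : E3 → ℝ), 0 < δ → δ ≤ 1 / 8 → Setup δ ε u →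
    ∀ x : E3, 2 * δ ≤ ‖x‖ → ‖x‖ ≤ 1 / 2 → 0 < u x → ‖gradient u x‖ ≤ L ∧ u x ≤ L * ‖x‖ := by
  obtain ⟨C₁, hC₁, hopf⟩ := hopf_touch
  obtain ⟨C₂, hC₂, har⟩ := harnack
  obtain ⟨C₃, hC₃, grad⟩ := grad_bound
  set A : ℝ := C₂ ^ 64 * C₁ with hA
  have hC1' : 0 ≤ C₁ := by linarith
  have hC2' : 0 ≤ C₂ := by linarith
  have hC3' : 0 ≤ C₃ := by linarith
  have hA1 : 1 ≤ A := by
    have h1 : 1 ≤ C₂ ^ 64 := one_le_pow₀ hC₂
    calc (1 : ℝ) = 1 * 1 := by ring
      _ ≤ C₂ ^ 64 * C₁ := mul_le_mul h1 hC₁ zero_le_one (by linarith)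
  have hA0 : 0 ≤ A := by linarith
  have hC1A : C₁ ≤ A := by
    have h1 : 1 ≤ C₂ ^ 64 := one_le_pow₀ hC₂
    calc C₁ = 1 * C₁ := by ring
      _ ≤ C₂ ^ 64 * C₁ := mul_le_mul_of_nonneg_right h1 hC1'
  have hCC : 1 ≤ C₃ * C₂ := by
    calc (1 : ℝ) = 1 * 1 := by ring
      _ ≤ C₃ * C₂ := mul_le_mul hC₃ hC₂ zero_le_one hC3'
  refine ⟨8 * (C₃ * C₂ * A), ?_, ?_⟩
  · have : 1 ≤ C₃ * C₂ * A := by
      calc (1 : ℝ) = 1 * 1 := by ring
        _ ≤ C₃ * C₂ * A := mul_le_mul hCC hA1 zero_le_one (by linarith)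
    linarith
  intro δ ε u hδ hδ8 hS x hx1 hx2 hxpos
  set s : ℝ := ‖x‖ with hs
  have hs0 : 0 < s := by linarith
  set O : Set E3 := {x | δ < ‖x‖ ∧ ‖x‖ < 1} with hO
  have h1P : OnePhase O u := hS.onePhase
  -- balls about points of the sphere
  have hballs : ∀ z : E3, ‖z‖ = s → closedBall z (s / 4) ⊆ O := by
    intro z hz w hw
    have hd : ‖w - z‖ ≤ s / 4 := by rw [← dist_eq_norm]; exact hw
    have hlow : s - s / 4 ≤ ‖w‖ := by
      have := norm_sub_norm_le z (z - w)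
      have h2 : z - (z - w) = w := by abel
      rw [h2, hz] at this
      have h3 : ‖z - w‖ = ‖w - z‖ := norm_sub_rev _ _
      linarith
    have hup : ‖w‖ ≤ s + s / 4 := by
      have := norm_add_le (w - z) z
      rw [sub_add_cancel, hz] at this
      linarith
    refine ⟨?_, ?_⟩
    · linarith
    · linarith
  -- (1)
  have hnear : ∀ z : E3, ‖z‖ = s → 0 < u z → (∃ w ∈ ball z (s / 4), u w = 0) →
      ∃ D : ℝ, 0 < D ∧ D < s / 4 ∧ (∀ x ∈ ball z D, 0 < u x) ∧ u z ≤ C₁ * D := by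
    intro z hz hzpos hw
    obtain ⟨w, hw, hw0⟩ := hw
    obtain ⟨D, hD0, hDs, hDpos, y, hyD, hy0⟩ := LipBd_nearest h1P (hballs z hz) hw hw0 hzpos
    refine ⟨D, hD0, hDs, hDpos, ?_⟩
    exact hopf O u h1P z D hD0 ((closedBall_subset_closedBall hDs.le).trans (hballs z hz)) hDpos
      ⟨y, hyD, hy0⟩
  have hpos_of : ∀ z : E3, ‖z‖ = s → (¬ ∃ w ∈ ball z (s / 4), u w = 0) →
      ∀ w ∈ ball z (s / 4), 0 < u w := by
    intro z hz hno w hw
    rcases (h1P.nonneg w (hballs z hz (ball_subset_closedBall hw))).lt_or_eq with h0 | h0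
    · exact h0
    · exact absurd ⟨w, hw, h0.symm⟩ hno
  have hharm : ∀ (z : E3) (R : ℝ), ‖z‖ = s → R ≤ s / 4 → (∀ w ∈ ball z R, 0 < u w) →
      ∀ w ∈ ball z R, HarmonicAt u w := by
    intro z R hz hR hp w hw
    exact h1P.harm w (hballs z hz (closedBall_subset_closedBall hR (ball_subset_closedBall hw)))
      (hp w hw)
  -- (2)
  have hbound : u x ≤ A * s := by
    obtain ⟨y, hys, hyFB⟩ := hS.meets s (by linarith) (by linarith)
    obtain ⟨z, hz0, hz64, hzs, hzd⟩ := LipBd_path hs0 hs.symm hys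
    have key : ∀ k : ℕ, k ≤ 64 → 0 < u (z (64 - k)) → u (z (64 - k)) ≤ C₂ ^ k * (C₁ * s) := by
      intro k
      induction k with
      | zero =>
        intro _ hpos
        rw [Nat.sub_zero, hz64, hyFB.1] at hpos
        exact absurd hpos (lt_irrefl _)
      | succ k ih =>
        intro hk hpos
        set i : ℕ := 64 - (k + 1) with hi
        have hik : 64 - k = i + 1 := by omega
        by_cases hno : ∃ w ∈ ball (z i) (s / 4), u w = 0
        · obtain ⟨D, hD0, hDs, _, hD⟩ := hnear (z i) (hzs i) hpos hno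
          have h1 : 1 ≤ C₂ ^ (k + 1) := one_le_pow₀ hC₂
          calc u (z i) ≤ C₁ * D := hD
            _ ≤ C₁ * s := mul_le_mul_of_nonneg_left (by linarith) hC1'
            _ = 1 * (C₁ * s) := by ring
            _ ≤ C₂ ^ (k + 1) * (C₁ * s) :=
                mul_le_mul_of_nonneg_right h1 (mul_nonneg hC1' hs0.le)
        · have hp := hpos_of (z i) (hzs i) hno
          have hmem : z (i + 1) ∈ closedBall (z i) (s / 4 / 2) := by
            have := hzd i
            rw [mem_closedBall]; linarith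
          have hmem' : z (i + 1) ∈ ball (z i) (s / 4) := by
            have := hzd i
            rw [mem_ball]; linarith
          have hH := har u (z i) (s / 4) (by linarith)
            (hharm (z i) (s / 4) (hzs i) le_rfl hp) (fun w hw => (hp w hw).le)
            (z i) (mem_closedBall_self (by linarith)) (z (i + 1)) hmem
          have hpos' : 0 < u (z (i + 1)) := hp _ hmem'
          rw [hik] at ih
          have ih' := ih (by omega) hpos'
          calc u (z i) ≤ C₂ * u (z (i + 1)) := hH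
            _ ≤ C₂ * (C₂ ^ k * (C₁ * s)) := mul_le_mul_of_nonneg_left ih' hC2'
            _ = C₂ ^ (k + 1) * (C₁ * s) := by ring
    have := key 64 le_rfl (by simpa [hz0] using hxpos)
    rw [Nat.sub_self, hz0] at this
    rw [hA]
    linarith [this, mul_assoc (C₂ ^ 64) C₁ s]
  have hAs : 0 ≤ A * s := mul_nonneg hA0 hs0.le
  have hfin : ∀ R M : ℝ, 0 < R → R ≤ s / 4 → (∀ w ∈ ball x R, 0 < u w) → u x ≤ M * R →
      0 ≤ M → ‖gradient u x‖ ≤ 2 * (C₃ * C₂ * M) := by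
    intro R M hR hRs hp hux hM
    have hb : ∀ w ∈ ball x (R / 2), |u w| ≤ C₂ * (M * R) := by
      intro w hw
      have hwR : w ∈ ball x R := ball_subset_ball (by linarith) hw
      have hH := har u x R hR (hharm x R rfl hRs hp) (fun w hw => (hp w hw).le)
        w (ball_subset_closedBall hw) x (mem_closedBall_self (by linarith))
      rw [abs_of_pos (hp w hwR)]
      exact hH.trans (mul_le_mul_of_nonneg_left hux hC2')
    have hg := grad u x (R / 2) (C₂ * (M * R)) (by linarith)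
      (fun w hw => hharm x R rfl hRs hp w (ball_subset_ball (by linarith) hw)) hb
    calc ‖gradient u x‖ ≤ C₃ * (C₂ * (M * R)) / (R / 2) := hg
      _ = 2 * (C₃ * C₂ * M) := by field_simp
  refine ⟨?_, ?_⟩
  · by_cases hno : ∃ w ∈ ball x (s / 4), u w = 0
    · obtain ⟨D, hD0, hDs, hDp, hD⟩ := hnear x rfl hxpos hno
      have h1 := hfin D C₁ hD0 hDs.le hDp hD hC1'
      have h2 : C₃ * C₂ * C₁ ≤ C₃ * C₂ * A := mul_le_mul_of_nonneg_left hC1A (by linarith)
      have h3 : 0 ≤ C₃ * C₂ * A := mul_nonneg (by linarith) hA0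
      linarith
    · have hp := hpos_of x rfl hno
      have h1 := hfin (s / 4) (4 * A) (by linarith) le_rfl hp (by linarith) (by linarith)
      calc ‖gradient u x‖ ≤ 2 * (C₃ * C₂ * (4 * A)) := h1
        _ = 8 * (C₃ * C₂ * A) := by ring
  · have h1 : A ≤ 8 * (C₃ * C₂ * A) := by
      have : A ≤ C₃ * C₂ * A := by
        calc A = 1 * A := by ring
          _ ≤ C₃ * C₂ * A := mul_le_mul_of_nonneg_right hCC hA0
      linarith
    calc u x ≤ A * s := hbound
      _ ≤ 8 * (C₃ * C₂ * A) * s := mul_le_mul_of_nonneg_right h1 hs0.le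

end Pool.Agent.H32.Flat
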