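import Pool.Agent.H32.Flat.Defs

/-!
# Module C1: local structure of a one-phase solution near a free boundary point

`E3`, `FB`, `OnePhase`, `nu` are in `Defs`.  Paper proofs:

* `local_struct`: take `V, U` from `h.bdry`. `U p = 0`: `U` is continuous, `p` is a limit of points
  with `U = u > 0`, and `u` is continuous at `p` with `u p = 0`.  `∇U p ≠ 0` (norm one), so after
  shrinking `V` to a small ball (implicit function theorem, or directly: `fderiv U` is close to
  `fderiv U p` on the ball, so `t ↦ U (x + t ν)` is strictly increasing) the set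
  `{U > 0} ∩ ball p r` is connected (any point of it can be moved upwards in direction `ν = ∇U p`
  to the convex region `⟪x-p,ν⟫ > r/4` or so; take care of the ball shape, e.g. use two radii).
  `{0 < u} ∩ ball` is open, contained in `{U > 0}`, and relatively closed in `{U > 0} ∩ ball`
  (a boundary point `x` in the ball has `u x = 0`, so it is `FB`, and `U x = lim U = lim u = 0`).
  Hence the two sets agree, as `p` is a limit of points with `u > 0`.
  If `U x ≤ 0` then `u x = 0` (`u ≥ 0` on `O` and `0 < u x` would give `U x = u x > 0`).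
  If `U x = 0`, `x` in the ball, then `∇U x ≠ 0` shows that `x` is a limit of points with `U > 0`.
  For `0 ≤ U x`, `nu u x = gradient U x` because `gradient u = gradient U` on the open set
  `{0 < u} ∩ ball` and `gradient U` is continuous.
* `robin`: on the curve side: `‖∇U‖² = 1` on `{U = 0}` near `p`.  The derivative of `‖∇U‖²` at `p`
  vanishes on `ker (fderiv U p)` (for `τ` in the kernel take a curve in `{U = 0}` with velocity `τ`,
  by the implicit function theorem; `Mathlib`: a function constant on `{U = 0}` near `p` with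
  `fderiv U p ≠ 0` is the Lagrange multiplier situation, see
  `IsLocalExtrOn.exists_linear_map_of_hasStrictFDerivAt`/`exists_multipliers_of_hasStrictFDerivAt`),
  so `fderiv ‖∇U‖² = c • fderiv U` at `p`, i.e. `2 D²U(p) ν = c ν` by symmetry of `D²U`.
-/

open Set Metric MeasureTheory Filter Topology InnerProductSpace
open scoped Laplacian Gradient RealInnerProductSpace

namespace Pool.Agent.H32.Flat

variable {O : Set E3} {u : E3 → ℝ}

theorem Local_contDiffAt_gradient {U : E3 → ℝ} {x : E3} (hU : ContDiffAt ℝ 2 U x) :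
    ContDiffAt ℝ 1 (gradient U) x := by
  have h1 : ContDiffAt ℝ 1 (fderiv ℝ U) x := hU.fderiv_right (by norm_num)
  exact ((toDual ℝ E3).symm.contDiff.contDiffAt).comp x h1

theorem Local_grad_eq {U : E3 → ℝ} {x : E3} (hx : 0 < u x) (hc : ContinuousAt u x)
    (hU : ∀ᶠ y in 𝓝 x, 0 < u y → U y = u y) : gradient u x = gradient U x := by
  apply Filter.EventuallyEq.gradient_eq
  filter_upwards [hU, hc.eventually (lt_mem_nhds hx)] with y h1 h2
  exact (h1 h2).symm

theorem OnePhase.mono (h : OnePhase O u) {O' : Set E3} (hO' : IsOpen O') (hs : O' ⊆ O) :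
    OnePhase O' u := by
  refine ⟨hO', h.cont.mono hs, fun x hx => h.nonneg x (hs hx), fun x hx => h.harm x (hs hx), ?_⟩
  intro p hp hF
  obtain ⟨V, U, hV, hpV, hVO, hU, h1, h2⟩ := h.bdry p (hs hp) hF
  exact ⟨V ∩ O', U, hV.inter hO', ⟨hpV, hp⟩, inter_subset_right, hU.mono inter_subset_left,
    fun x hx => h1 x hx.1, fun x hx => h2 x hx.1⟩

theorem Local_contAt (h : OnePhase O u) {x : E3} (hx : x ∈ O) : ContinuousAt u x :=
  h.cont.continuousAt (h.isOpen.mem_nhds hx)

/-- `U = u` on the closure of the positive phase -/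
theorem Local_eq_closure (h : OnePhase O u) {V : Set E3} {U : E3 → ℝ} (hV : IsOpen V)
    (hVO : V ⊆ O) (hU : ContinuousOn U V) (h1 : ∀ x ∈ V, 0 < u x → U x = u x) {z : E3}
    (hz : z ∈ V) (hc : z ∈ closure {x | 0 < u x}) : U z = u z := by
  have hne : (𝓝[{x | 0 < u x}] z).NeBot := mem_closure_iff_nhdsWithin_neBot.1 hc
  have t1 : Tendsto U (𝓝[{x | 0 < u x}] z) (𝓝 (U z)) :=
    ((hU.continuousAt (hV.mem_nhds hz)).tendsto).mono_left nhdsWithin_le_nhds
  have t2 : Tendsto u (𝓝[{x | 0 < u x}] z) (𝓝 (u z)) :=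
    ((Local_contAt h (hVO hz)).tendsto).mono_left nhdsWithin_le_nhds
  have he : U =ᶠ[𝓝[{x | 0 < u x}] z] u := by
    filter_upwards [self_mem_nhdsWithin, mem_nhdsWithin_of_mem_nhds (hV.mem_nhds hz)] with y hy hyV
    exact h1 y hyV hy
  exact tendsto_nhds_unique (t1.congr' he) t2

theorem Local_seg (h : OnePhase O u) {V : Set E3} {U : E3 → ℝ} (hV : IsOpen V)
    (hVO : V ⊆ O) (hU : ContinuousOn U V) (h1 : ∀ x ∈ V, 0 < u x → U x = u x) {a b : E3}
    (hseg : ∀ z ∈ segment ℝ a b, z ∈ V ∧ 0 < U z) (hb : 0 < u b) : 0 < u a := by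
  by_contra ha
  have hG1 : IsOpen (V ∩ {x | 0 < u x}) :=
    (h.cont.mono hVO).isOpen_inter_preimage hV isOpen_Ioi
  have hG2 : IsOpen (V ∩ (closure {x | 0 < u x})ᶜ) := hV.inter isClosed_closure.isOpen_compl
  have hcov : segment ℝ a b ⊆ (V ∩ {x | 0 < u x}) ∪ (V ∩ (closure {x | 0 < u x})ᶜ) := by
    intro z hz
    obtain ⟨hzV, hzU⟩ := hseg z hz
    by_cases hzc : z ∈ closure {x | 0 < u x}
    · left
      refine ⟨hzV, ?_⟩
      have := Local_eq_closure h hV hVO hU h1 hzV hzc
      change 0 < u z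
      rw [← this]; exact hzU
    · right
      exact ⟨hzV, hzc⟩
  have hpre := (convex_segment (𝕜 := ℝ) a b).isPreconnected
  have haS := left_mem_segment ℝ a b
  have hbS := right_mem_segment ℝ a b
  have ha2 : a ∈ V ∩ (closure {x | 0 < u x})ᶜ := by
    rcases hcov haS with h' | h'
    · exact absurd h'.2 ha
    · exact h'
  obtain ⟨z, _, hz1, hz2⟩ := hpre _ _ hG1 hG2 hcov ⟨b, hbS, (hseg b hbS).1, hb⟩ ⟨a, haS, ha2⟩
  exact hz2.2 (subset_closure hz1.2)

/-- affine comparison of `U` near `p` -/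
theorem Local_radius {V : Set E3} {U : E3 → ℝ} (hV : IsOpen V) {p : E3} (hp : p ∈ V)
    (hU : ContDiffOn ℝ 2 U V) : ∃ r > 0, ball p r ⊆ V ∧
      ∀ x ∈ ball p r, ∀ y ∈ ball p r, |U y - U x - ⟪gradient U p, y - x⟫| ≤ 1 / 4 * ‖y - x‖ := by
  have hc : ContinuousAt (fderiv ℝ U) p :=
    (hU.continuousOn_fderiv_of_isOpen hV (by norm_num)).continuousAt (hV.mem_nhds hp)
  have hev : ∀ᶠ x in 𝓝 p, ‖fderiv ℝ U x - fderiv ℝ U p‖ ≤ 1 / 4 := by
    have := Metric.tendsto_nhds.1 hc.tendsto (1 / 4) (by norm_num)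
    filter_upwards [this] with x hx
    rw [← dist_eq_norm]; exact hx.le
  obtain ⟨r, hr, hball⟩ := Metric.mem_nhds_iff.1 (Filter.inter_mem (hV.mem_nhds hp) hev)
  refine ⟨r, hr, fun x hx => (hball hx).1, fun x hx y hy => ?_⟩
  have hd : ∀ z ∈ ball p r, DifferentiableAt ℝ U z := fun z hz =>
    ((hU z (hball hz).1).contDiffAt (hV.mem_nhds (hball hz).1)).differentiableAt (by norm_num)
  have hb : ∀ z ∈ ball p r, ‖fderiv ℝ U z - fderiv ℝ U p‖ ≤ 1 / 4 := fun z hz => (hball hz).2
  have := (convex_ball p r).norm_image_sub_le_of_norm_fderiv_le' hd hb hx hy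
  rw [Real.norm_eq_abs] at this
  rwa [inner_gradient_left]

theorem Local_struct (h : OnePhase O u) {p : E3} (hp : p ∈ O) (hF : FB u p) :
    ∃ r > 0, ∃ U : E3 → ℝ, ball p r ⊆ O ∧ ContDiffOn ℝ 2 U (ball p r) ∧ U p = 0 ∧
      (∀ x ∈ ball p r, u x = max (U x) 0) ∧
      (∀ x ∈ ball p r, x ∈ closure {y | 0 < u y} → U x = u x) ∧
      (∀ x ∈ ball p r, 0 ≤ U x → x ∈ closure {y | 0 < u y} ∧ nu u x = gradient U x) ∧
      (∀ x ∈ ball p r, U x = 0 → FB u x ∧ ‖gradient U x‖ = 1) := by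
  obtain ⟨V, U, hV, hpV, hVO, hU, h1, h2⟩ := h.bdry p hp hF
  obtain ⟨r0, hr0, hbV, hK⟩ := Local_radius hV hpV hU
  have hUc : ContinuousOn U V := hU.continuousOn
  have hUp : U p = 0 := by
    rw [Local_eq_closure h hV hVO hUc h1 hpV hF.2, hF.1]
  obtain ⟨ν, hν⟩ : ∃ ν, gradient U p = ν := ⟨_, rfl⟩
  have hν1 : ‖ν‖ = 1 := by rw [← hν]; exact h2 p hpV hF
  have hνν : ⟪ν, ν⟫ = 1 := by rw [real_inner_self_eq_norm_sq, hν1]; norm_num
  rw [hν] at hK
  have hpb : p ∈ ball p r0 := mem_ball_self hr0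
  -- moving upwards
  have hup : ∀ x ∈ ball p (r0 / 8), ∀ t, 0 ≤ t → t ≤ r0 / 2 →
      x + t • ν ∈ ball p r0 ∧ U x + 3 / 4 * t ≤ U (x + t • ν) := by
    intro x hx t ht0 ht
    have hx' : ‖x - p‖ < r0 / 8 := by rwa [← dist_eq_norm]
    have hm : x + t • ν ∈ ball p r0 := by
      rw [mem_ball, dist_eq_norm]
      have e : x + t • ν - p = (x - p) + t • ν := by abel
      rw [e]
      calc ‖(x - p) + t • ν‖ ≤ ‖x - p‖ + ‖t • ν‖ := norm_add_le _ _
        _ = ‖x - p‖ + t := by rw [norm_smul, hν1, Real.norm_eq_abs, abs_of_nonneg ht0, mul_one]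
        _ < r0 := by linarith
    refine ⟨hm, ?_⟩
    have hxb : x ∈ ball p r0 := ball_subset_ball (by linarith) hx
    have := hK x hxb _ hm
    have e : x + t • ν - x = t • ν := by abel
    rw [e, norm_smul, hν1, Real.norm_eq_abs, abs_of_nonneg ht0, mul_one, inner_smul_right, hνν,
      mul_one] at this
    have := (abs_le.1 this).1
    linarith
  -- top region
  have htop : ∀ w ∈ ball p (r0 / 8), 0 < U (w + (r0 / 2) • ν) := by
    intro w hw
    obtain ⟨hm, -⟩ := hup w hw (r0 / 2) (by linarith) le_rfl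
    have hw' : ‖w - p‖ < r0 / 8 := by rwa [← dist_eq_norm]
    have := hK p hpb _ hm
    have e : w + (r0 / 2) • ν - p = (w - p) + (r0 / 2) • ν := by abel
    rw [e, hUp, inner_add_right, inner_smul_right, hνν] at this
    have h3 := (abs_le.1 this).1
    have h4 : ‖(w - p) + (r0 / 2) • ν‖ ≤ r0 / 8 + r0 / 2 := by
      calc ‖(w - p) + (r0 / 2) • ν‖ ≤ ‖w - p‖ + ‖(r0 / 2) • ν‖ := norm_add_le _ _
        _ = ‖w - p‖ + r0 / 2 := by
          rw [norm_smul, hν1, Real.norm_eq_abs, abs_of_nonneg (by linarith), mul_one]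
        _ ≤ _ := by linarith
    have h5 : |⟪ν, w - p⟫| ≤ r0 / 8 := by
      calc |⟪ν, w - p⟫| ≤ ‖ν‖ * ‖w - p‖ := abs_real_inner_le_norm _ _
        _ ≤ r0 / 8 := by rw [hν1, one_mul]; exact hw'.le
    have h6 := (abs_le.1 h5).1
    nlinarith
  obtain ⟨y, hyP, hyb⟩ : ∃ y, 0 < u y ∧ y ∈ ball p (r0 / 8) := by
    obtain ⟨y, hy1, hy2⟩ := mem_closure_iff.1 hF.2 (ball p (r0 / 8)) isOpen_ball
      (mem_ball_self (by linarith))
    exact ⟨y, hy2, hy1⟩
  have hsub8 : ball p (r0 / 8) ⊆ V := fun x hx => hbV (ball_subset_ball (by linarith) hx)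
  have hUy : 0 < U y := by rw [h1 y (hsub8 hyb) hyP]; exact hyP
  -- vertical segments
  have hvert : ∀ x ∈ ball p (r0 / 8), 0 < U x →
      ∀ z ∈ segment ℝ x (x + (r0 / 2) • ν), z ∈ V ∧ 0 < U z := by
    intro x hx hUx z hz
    rw [segment_eq_image'] at hz
    obtain ⟨θ, ⟨hθ0, hθ1⟩, rfl⟩ := hz
    have e : x + θ • (x + (r0 / 2) • ν - x) = x + (θ * (r0 / 2)) • ν := by
      rw [add_sub_cancel_left, smul_smul]
    simp only [e]
    obtain ⟨hm, hle⟩ := hup x hx (θ * (r0 / 2)) (by positivity) (by nlinarith)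
    refine ⟨hbV hm, lt_of_lt_of_le ?_ hle⟩
    have : 0 ≤ 3 / 4 * (θ * (r0 / 2)) := by positivity
    linarith
  have hpos : ∀ x ∈ ball p (r0 / 8), 0 < U x → 0 < u x := by
    intro x hx hUx
    have s1 : 0 < u (y + (r0 / 2) • ν) := by
      apply Local_seg h hV hVO hUc h1 (a := y + (r0 / 2) • ν) (b := y) _ hyP
      intro z hz
      rw [segment_symm] at hz
      exact hvert y hyb hUy z hz
    have s2 : 0 < u (x + (r0 / 2) • ν) := by
      apply Local_seg h hV hVO hUc h1 (a := x + (r0 / 2) • ν) (b := y + (r0 / 2) • ν) _ s1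
      intro z hz
      rw [segment_eq_image'] at hz
      obtain ⟨θ, ⟨hθ0, hθ1⟩, rfl⟩ := hz
      have e : x + (r0 / 2) • ν + θ • (y + (r0 / 2) • ν - (x + (r0 / 2) • ν)) =
          (x + θ • (y - x)) + (r0 / 2) • ν := by
        have : y + (r0 / 2) • ν - (x + (r0 / 2) • ν) = y - x := by abel
        rw [this]; abel
      simp only [e]
      have hw : x + θ • (y - x) ∈ ball p (r0 / 8) := by
        apply (convex_ball p (r0 / 8)).segment_subset hx hyb
        rw [segment_eq_image']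
        exact ⟨θ, ⟨hθ0, hθ1⟩, rfl⟩
      exact ⟨hbV (hup _ hw (r0 / 2) (by linarith) le_rfl).1, htop _ hw⟩
    exact Local_seg h hV hVO hUc h1 (a := x) (b := x + (r0 / 2) • ν) (hvert x hx hUx) s2
  have hcl : ∀ x ∈ ball p (r0 / 8), 0 ≤ U x → x ∈ closure {y | 0 < u y} := by
    intro x hx hUx
    have ht : Tendsto (fun t : ℝ => x + t • ν) (𝓝[>] 0) (𝓝 x) := by
      have : Continuous (fun t : ℝ => x + t • ν) := by fun_prop
      have h0 := this.tendsto 0
      simp only [zero_smul, add_zero] at h0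
      exact h0.mono_left nhdsWithin_le_nhds
    apply mem_closure_of_tendsto ht
    filter_upwards [ht.eventually (isOpen_ball.mem_nhds hx), self_mem_nhdsWithin,
      mem_nhdsWithin_of_mem_nhds (Iic_mem_nhds (show (0 : ℝ) < r0 / 2 by linarith))]
      with t ht1 ht2 ht3
    apply hpos _ ht1
    have h3 := (hup x hx t (le_of_lt ht2) ht3).2
    have : (0 : ℝ) < t := ht2
    linarith
  refine ⟨r0 / 8, by linarith, U, hsub8.trans hVO, hU.mono hsub8, hUp, ?_, ?_, ?_, ?_⟩
  · intro x hx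
    rcases lt_or_ge 0 (u x) with hux | hux
    · rw [h1 x (hsub8 hx) hux, max_eq_left hux.le]
    · have hu0 : u x = 0 := le_antisymm hux (h.nonneg x (hVO (hsub8 hx)))
      have : U x ≤ 0 := by
        by_contra hc
        exact absurd (hpos x hx (not_le.1 hc)) (not_lt.2 hux)
      rw [hu0, max_eq_right this]
  · intro x hx hxc
    exact Local_eq_closure h hV hVO hUc h1 (hsub8 hx) hxc
  · intro x hx hUx
    have hxc := hcl x hx hUx
    refine ⟨hxc, ?_⟩
    have hne : (𝓝[{x | 0 < u x}] x).NeBot := mem_closure_iff_nhdsWithin_neBot.1 hxc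
    apply Tendsto.limUnder_eq
    have hgc : ContinuousAt (gradient U) x :=
      (Local_contDiffAt_gradient ((hU x (hsub8 hx)).contDiffAt
        (hV.mem_nhds (hsub8 hx)))).continuousAt
    refine (hgc.tendsto.mono_left nhdsWithin_le_nhds).congr' ?_
    filter_upwards [self_mem_nhdsWithin,
      mem_nhdsWithin_of_mem_nhds (hV.mem_nhds (hsub8 hx))] with z hz hzV
    refine (Local_grad_eq hz (Local_contAt h (hVO hzV)) ?_).symm
    filter_upwards [hV.mem_nhds hzV] with w hw
    exact h1 w hw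
  · intro x hx hUx
    have hxc := hcl x hx hUx.ge
    have hux : u x = 0 := by
      rw [← Local_eq_closure h hV hVO hUc h1 (hsub8 hx) hxc, hUx]
    have hFx : FB u x := ⟨hux, hxc⟩
    exact ⟨hFx, h2 x (hsub8 hx) hFx⟩

theorem local_struct (h : OnePhase O u) {p : E3} (hp : p ∈ O) (hF : FB u p) :
    ∃ r > 0, ∃ U : E3 → ℝ, ball p r ⊆ O ∧ ContDiffOn ℝ 2 U (ball p r) ∧
      (∀ x ∈ ball p r, u x = max (U x) 0) ∧
      (∀ x ∈ ball p r, 0 ≤ U x → x ∈ closure {y | 0 < u y} ∧ nu u x = gradient U x) ∧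
      (∀ x ∈ ball p r, U x = 0 → FB u x ∧ ‖gradient U x‖ = 1) := by
  obtain ⟨r, hr, U, h1, h2, -, h3, -, h4, h5⟩ := Local_struct h hp hF
  exact ⟨r, hr, U, h1, h2, h3, h4, h5⟩

theorem Local_gradient_cont (h : OnePhase O u) {x : E3} (hx : x ∈ O) (hu : 0 < u x) :
    ContinuousAt (gradient u) x :=
  (Local_contDiffAt_gradient (h.harm x hx hu).1).continuousAt

theorem nu_of_pos (h : OnePhase O u) {x : E3} (hx : x ∈ O) (hu : 0 < u x) :
    nu u x = gradient u x := by
  have hmem : {y | 0 < u y} ∈ 𝓝 x := (Local_contAt h hx).eventually (lt_mem_nhds hu)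
  unfold nu
  rw [nhdsWithin_eq_nhds.2 hmem]
  exact (Local_gradient_cont h hx hu).tendsto.limUnder_eq

theorem norm_nu_of_FB (h : OnePhase O u) {p : E3} (hp : p ∈ O) (hF : FB u p) :
    ‖nu u p‖ = 1 := by
  obtain ⟨r, hr, U, h1, h2, h0, h3, h3', h4, h5⟩ := Local_struct h hp hF
  rw [(h4 p (mem_ball_self hr) h0.ge).2]
  exact (h5 p (mem_ball_self hr) h0).2

theorem nu_continuousOn (h : OnePhase O u) :
    ContinuousOn (nu u) (O ∩ closure {x | 0 < u x}) := by
  intro x hx
  rcases lt_or_ge 0 (u x) with hux | hux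
  · have hmem : {y | 0 < u y} ∈ 𝓝 x := (Local_contAt h hx.1).eventually (lt_mem_nhds hux)
    apply ContinuousAt.continuousWithinAt
    refine (Local_gradient_cont h hx.1 hux).congr ?_
    filter_upwards [hmem, h.isOpen.mem_nhds hx.1] with y hy1 hy2
    exact (nu_of_pos h hy2 hy1).symm
  · have hu0 : u x = 0 := le_antisymm hux (h.nonneg x hx.1)
    obtain ⟨r, hr, U, h1, h2, h0, h3, h3', h4, h5⟩ := Local_struct h hx.1 ⟨hu0, hx.2⟩
    have hxb := mem_ball_self (x := x) hr
    have hgc : ContinuousAt (gradient U) x :=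
      (Local_contDiffAt_gradient ((h2 x hxb).contDiffAt (isOpen_ball.mem_nhds hxb))).continuousAt
    have hev : gradient U =ᶠ[𝓝[O ∩ closure {x | 0 < u x}] x] nu u := by
      filter_upwards [self_mem_nhdsWithin,
        mem_nhdsWithin_of_mem_nhds (isOpen_ball.mem_nhds hxb)] with y hy hyb
      have : 0 ≤ U y := by
        rw [h3' y hyb hy.2]; exact h.nonneg y hy.1
      exact (h4 y hyb this).2.symm
    exact hgc.continuousWithinAt.congr_of_eventuallyEq hev.symm ((h4 x hxb h0.ge).2)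

/-- the profile of `U` in the normal direction -/
theorem Local_profile (h : OnePhase O u) {p : E3} (hp : p ∈ O) (hF : FB u p) :
    ∃ r > 0, ∃ U : E3 → ℝ, ball p r ⊆ O ∧ ContDiffOn ℝ 2 U (ball p r) ∧ U p = 0 ∧
      (∀ x ∈ ball p r, u x = max (U x) 0) ∧
      (∀ x ∈ ball p r, 0 ≤ U x → nu u x = gradient U x) ∧
      (∀ x ∈ ball p r, U x = 0 → ‖gradient U x‖ = 1) ∧
      (∀ᶠ t in 𝓝 (0 : ℝ), p + t • nu u p ∈ ball p r) ∧
      (∀ᶠ t in 𝓝 (0 : ℝ), 0 ≤ t → t / 2 ≤ U (p + t • nu u p)) ∧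
      HasDerivAt (fun t : ℝ => U (p + t • nu u p)) 1 0 := by
  obtain ⟨r, hr, U, h1, h2, h0, h3, h3', h4, h5⟩ := Local_struct h hp hF
  have hpb := mem_ball_self (x := p) hr
  have hnu : nu u p = gradient U p := (h4 p hpb h0.ge).2
  have hnu1 : ‖nu u p‖ = 1 := norm_nu_of_FB h hp hF
  have hcont : Continuous (fun t : ℝ => p + t • nu u p) := by fun_prop
  have ht0 : Tendsto (fun t : ℝ => p + t • nu u p) (𝓝 0) (𝓝 p) := by
    have := hcont.tendsto 0
    simpa using this
  have hd : DifferentiableAt ℝ U p :=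
    ((h2 p hpb).contDiffAt (isOpen_ball.mem_nhds hpb)).differentiableAt (by norm_num)
  have hline : HasDerivAt (fun t : ℝ => p + t • nu u p) (nu u p) 0 := by
    have := ((hasDerivAt_id (0 : ℝ)).smul_const (nu u p)).const_add p
    simpa using this
  have hder : HasDerivAt (fun t : ℝ => U (p + t • nu u p)) 1 0 := by
    have hf : HasFDerivAt U (fderiv ℝ U p) (p + (0 : ℝ) • nu u p) := by
      simpa using hd.hasFDerivAt
    have := hf.comp_hasDerivAt (0 : ℝ) hline
    have e : fderiv ℝ U p (nu u p) = 1 := by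
      rw [← inner_gradient_left, ← hnu, real_inner_self_eq_norm_sq, hnu1]; norm_num
    rw [e] at this
    exact this
  refine ⟨r, hr, U, h1, h2, h0, h3, fun x hx hUx => (h4 x hx hUx).2,
    fun x hx hUx => (h5 x hx hUx).2, ht0.eventually (isOpen_ball.mem_nhds hpb), ?_, hder⟩
  have := (hasDerivAt_iff_isLittleO.1 hder).def (show (0 : ℝ) < 1 / 2 by norm_num)
  filter_upwards [this] with t ht htn
  simp only [sub_zero, zero_smul, add_zero, h0, smul_eq_mul, mul_one, Real.norm_eq_abs,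
    abs_of_nonneg htn] at ht
  have := (abs_le.1 ht).1
  linarith

/-- the outward (into the positive phase) derivative of `u` at a free boundary point is one -/
theorem hasDeriv_u (h : OnePhase O u) {p : E3} (hp : p ∈ O) (hF : FB u p) :
    HasDerivWithinAt (fun t : ℝ => u (p + t • nu u p)) 1 (Ici 0) 0 := by
  obtain ⟨r, hr, U, h1, h2, h0, h3, h4, h5, h6, h7, h8⟩ := Local_profile h hp hF
  refine h8.hasDerivWithinAt.congr_of_eventuallyEq ?_ ?_
  · filter_upwards [self_mem_nhdsWithin, mem_nhdsWithin_of_mem_nhds h6,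
      mem_nhdsWithin_of_mem_nhds h7] with t ht0 ht1 ht2
    have ht0' : (0 : ℝ) ≤ t := ht0
    have := ht2 ht0'
    rw [h3 _ ht1, max_eq_left (by linarith)]
  · simp [h0, hF.1]

theorem eventually_pos (h : OnePhase O u) {p : E3} (hp : p ∈ O) (hF : FB u p) :
    ∀ᶠ t in 𝓝[>] (0 : ℝ), 0 < u (p + t • nu u p) := by
  obtain ⟨r, hr, U, h1, h2, h0, h3, h4, h5, h6, h7, h8⟩ := Local_profile h hp hF
  filter_upwards [self_mem_nhdsWithin, mem_nhdsWithin_of_mem_nhds h6,
      mem_nhdsWithin_of_mem_nhds h7] with t ht0 ht1 ht2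
  have ht0' : (0 : ℝ) < t := ht0
  have := ht2 ht0'.le
  rw [h3 _ ht1]
  exact lt_max_of_lt_left (by linarith)

/-- differentiating `|∇U| = 1` along the level set `{U = 0}` -/
theorem Local_lagrange {U : E3 → ℝ} {p : E3} (hU : ContDiffAt ℝ 2 U p) (h0 : U p = 0)
    (h1 : ∀ᶠ x in 𝓝 p, U x = 0 → ‖gradient U x‖ = 1) :
    ∃ lam : ℝ, fderiv ℝ (gradient U) p (gradient U p) = lam • gradient U p := by
  have hG := Local_contDiffAt_gradient hU
  have hGs : HasStrictFDerivAt (gradient U) (fderiv ℝ (gradient U) p) p :=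
    hG.hasStrictFDerivAt (by norm_num)
  have hUs : HasStrictFDerivAt U (fderiv ℝ U p) p := hU.hasStrictFDerivAt (by norm_num)
  have hφ : HasStrictFDerivAt (fun x => ‖gradient U x‖ ^ 2)
      ((2 • innerSL ℝ (gradient U p)).comp (fderiv ℝ (gradient U) p)) p :=
    (hasStrictFDerivAt_norm_sq (gradient U p)).comp p hGs
  have hn1 : ‖gradient U p‖ = 1 := h1.self_of_nhds h0
  have hext : IsLocalExtrOn (fun x => ‖gradient U x‖ ^ 2) {x | U x = U p} p := by
    left
    have : ∀ᶠ x in 𝓝[{x | U x = U p}] p, ‖gradient U p‖ ^ 2 ≤ ‖gradient U x‖ ^ 2 := by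
      filter_upwards [self_mem_nhdsWithin, mem_nhdsWithin_of_mem_nhds h1] with x hx1 hx2
      rw [hn1, hx2 (by rw [← h0]; exact hx1)]
    exact this
  obtain ⟨a, b, hab, hsum⟩ := hext.exists_multipliers_of_hasStrictFDerivAt_1d hUs hφ
  have hUn : fderiv ℝ U p (gradient U p) = 1 := by
    rw [← inner_gradient_left, real_inner_self_eq_norm_sq, hn1]; norm_num
  have hb : b ≠ 0 := by
    rintro rfl
    have ha : a ≠ 0 := by
      rintro rfl
      exact hab rfl
    have := congrArg (fun L : StrongDual ℝ E3 => L (gradient U p)) hsum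
    simp only [zero_smul, add_zero, smul_apply, hUn, smul_eq_mul, mul_one,
      zero_apply] at this
    exact ha this
  refine ⟨-a / (2 * b), ?_⟩
  have hsymm : IsSymmSndFDerivAt ℝ U p := hU.isSymmSndFDerivAt (by simp)
  -- second derivative as derivative of gradient
  have hsnd : ∀ v w, ⟪fderiv ℝ (gradient U) p v, w⟫ = fderiv ℝ (fderiv ℝ U) p v w := by
    intro v w
    have hF : HasFDerivAt (fderiv ℝ U) (fderiv ℝ (fderiv ℝ U) p) p := by
      have : ContDiffAt ℝ 1 (fderiv ℝ U) p := hU.fderiv_right (by norm_num)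
      exact (this.differentiableAt (by norm_num)).hasFDerivAt
    have e1 : HasFDerivAt (fun x => ⟪gradient U x, w⟫)
        ((innerSL ℝ w).comp (fderiv ℝ (gradient U) p)) p := by
      have := (innerSL ℝ w).hasFDerivAt.comp p hGs.hasFDerivAt
      refine this.congr_of_eventuallyEq (Eventually.of_forall fun x => ?_)
      simp
    have e2 : HasFDerivAt (fun x => fderiv ℝ U x w)
        ((ContinuousLinearMap.apply ℝ ℝ w).comp (fderiv ℝ (fderiv ℝ U) p)) p := by
      have := (ContinuousLinearMap.apply ℝ ℝ w).hasFDerivAt.comp p hF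
      exact this
    have e3 : (fun x => ⟪gradient U x, w⟫) = fun x => fderiv ℝ U x w := by
      funext x; exact inner_gradient_left
    rw [e3] at e1
    have := congrArg (fun L : E3 →L[ℝ] ℝ => L v) (e1.unique e2)
    simpa [real_inner_comm] using this
  apply ext_inner_right ℝ
  intro w
  have hw := congrArg (fun L : StrongDual ℝ E3 => L w) hsum
  simp only [add_apply, smul_apply, smul_eq_mul,
    ContinuousLinearMap.comp_apply, innerSL_apply_apply, zero_apply] at hw
  have hw' : a * fderiv ℝ U p w + b * (2 * ⟪gradient U p, fderiv ℝ (gradient U) p w⟫) = 0 := by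
    rw [← hw]; simp
  have e1 : ⟪fderiv ℝ (gradient U) p (gradient U p), w⟫ =
      ⟪gradient U p, fderiv ℝ (gradient U) p w⟫ := by
    rw [hsnd, hsymm.eq, ← hsnd, real_inner_comm]
  have e2 : ⟪(-a / (2 * b)) • gradient U p, w⟫ = -a / (2 * b) * fderiv ℝ U p w := by
    rw [real_inner_smul_left, inner_gradient_left]
  rw [e1, e2]
  field_simp
  linarith

/-- differentiating `|∇u| = 1` along the free boundary: `D²u ν = λ ν` -/
theorem robin (h : OnePhase O u) {p : E3} (hp : p ∈ O) (hF : FB u p) :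
    ∃ lam : ℝ, HasDerivWithinAt (fun t : ℝ => nu u (p + t • nu u p)) (lam • nu u p)
      (Ici 0) 0 := by
  obtain ⟨r, hr, U, h1, h2, h0, h3, h4, h5, h6, h7, h8⟩ := Local_profile h hp hF
  have hpb := mem_ball_self (x := p) hr
  have hUp : ContDiffAt ℝ 2 U p := (h2 p hpb).contDiffAt (isOpen_ball.mem_nhds hpb)
  have hnu : nu u p = gradient U p := h4 p hpb h0.ge
  obtain ⟨lam, hlam⟩ := Local_lagrange hUp h0 (by
    filter_upwards [isOpen_ball.mem_nhds hpb] with x hx
    exact h5 x hx)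
  refine ⟨lam, ?_⟩
  have hline : HasDerivAt (fun t : ℝ => p + t • nu u p) (nu u p) 0 := by
    have := ((hasDerivAt_id (0 : ℝ)).smul_const (nu u p)).const_add p
    simpa using this
  have hG : HasFDerivAt (gradient U) (fderiv ℝ (gradient U) p) (p + (0 : ℝ) • nu u p) := by
    simpa using ((Local_contDiffAt_gradient hUp).differentiableAt (by norm_num)).hasFDerivAt
  have hd := hG.comp_hasDerivAt (0 : ℝ) hline
  rw [hnu, hlam, ← hnu] at hd
  refine hd.hasDerivWithinAt.congr_of_eventuallyEq ?_ ?_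
  · filter_upwards [self_mem_nhdsWithin, mem_nhdsWithin_of_mem_nhds h6,
      mem_nhdsWithin_of_mem_nhds h7] with t ht0 ht1 ht2
    have ht0' : (0 : ℝ) ≤ t := ht0
    have := ht2 ht0'
    exact h4 _ ht1 (by linarith)
  · simp [hnu]

end Pool.Agent.H32.Flat
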