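import Pool.Agent.H32.Flat.Nu2
import Pool.Agent.H32.Flat.MinPr
import Pool.Agent.H32.Flat.Jac

/-!
# Module C3: the two maximum principles for one-phase solutions

`minPrinciple`: the set `K' = K ∩ closure {0 < u}` is compact, the set `A = W ∩ {0 < u}` is open
(as `W ⊆ K ⊆ O`, `u` is continuous on `O`) and contained in `K'`; points of `K' \ A` are either in
`K \ W` or have `u x = 0`, i.e. are `FB`.  Apply `weakMin`.

`robinPrinciple`: the quotient `R x = ⟪nu u x, ξ⟫ / G x` is continuous on the compact set `K'`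
(`nu_continuousOn`).  Let `x₀` be a maximum point, `m = R x₀`, suppose `m > 1`.  Then `x₀ ∈ W`
(on `K \ W` one has `R ≤ 1`).
If `0 < u x₀`: near `x₀` the function `k = ⟪gradient u ·, ξ⟫ - m G ≤ 0` has a local maximum,
and `Δ k x₀ = - m Δ G x₀ > 0`
(`⟪gradient u ·, ξ⟫` is `C²` and harmonic: module H3 `harmonicAt_inner_gradient`), contradiction
with the second derivative test (`laplacian_nonneg_of_isLocalMin` for `-k`).
If `u x₀ = 0`: `FB u x₀`; let `ν = nu u x₀`.  The function `t ↦ ⟪nu u (x₀ + tν), ξ⟫ - m G(x₀+tν)`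
vanishes at `0` and has right derivative `λ⟪ν,ξ⟫ - m d > λ ⟪ν,ξ⟫ - m λ G x₀ = 0` (`robin`), so it is
positive for small `t > 0`; but `x₀ + tν ∈ W ∩ {0 < u}` for small `t > 0` (`eventually_pos`), where
it is `≤ 0`.
-/

open Set Metric MeasureTheory Filter Topology InnerProductSpace
open scoped Laplacian Gradient RealInnerProductSpace

namespace Pool.Agent.H32.Flat

variable {O : Set E3} {u : E3 → ℝ}

theorem MP_isOpen (h : OnePhase O u) {K W : Set E3} (hKO : K ⊆ O) (hW : IsOpen W) (hWK : W ⊆ K) :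
    IsOpen (W ∩ {x | 0 < u x}) :=
  (h.cont.mono (hWK.trans hKO)).isOpen_inter_preimage hW isOpen_Ioi

theorem minPrinciple (h : OnePhase O u) {K W : Set E3} (hK : IsCompact K) (hKO : K ⊆ O)
    (hW : IsOpen W) (hWK : W ⊆ K) {G : E3 → ℝ}
    (hGc : ContinuousOn G (K ∩ closure {x | 0 < u x}))
    (hG2 : ∀ x ∈ W, 0 < u x → ContDiffAt ℝ 2 G x ∧ Δ G x ≤ 0)
    (hF : ∀ x ∈ K, FB u x → 0 ≤ G x)
    (hB : ∀ x ∈ K \ W, x ∈ closure {x | 0 < u x} → 0 ≤ G x) :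
    ∀ x ∈ K, x ∈ closure {x | 0 < u x} → 0 ≤ G x := by
  intro x hx hxc
  refine weakMin (hK.inter_right isClosed_closure) (MP_isOpen h hKO hW hWK) ?_ hGc
    (fun y hy => hG2 y hy.1 hy.2) ?_ x ⟨hx, hxc⟩
  · rintro y ⟨hy, hyu⟩
    exact ⟨hWK hy, subset_closure hyu⟩
  · rintro y ⟨⟨hy, hyc⟩, hyA⟩
    by_cases hyW : y ∈ W
    · have hyu : ¬ 0 < u y := fun h' => hyA ⟨hyW, h'⟩
      exact hF y hy ⟨le_antisymm (not_lt.1 hyu) (h.nonneg y (hKO hy)), hyc⟩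
    · exact hB y ⟨hy, hyW⟩ hyc

/-- A function with positive right derivative at a zero is positive on the right. -/
theorem MP_eventually_pos {φ : ℝ → ℝ} {d : ℝ} (hφ : HasDerivWithinAt φ d (Ici 0) 0)
    (h0 : φ 0 = 0) (hd : 0 < d) : ∀ᶠ t in 𝓝[>] (0 : ℝ), 0 < φ t := by
  have h1 : HasDerivWithinAt φ d (Ioi 0) 0 := hφ.mono Ioi_subset_Ici_self
  rw [hasDerivWithinAt_iff_tendsto_slope' self_notMem_Ioi] at h1
  filter_upwards [h1.eventually (lt_mem_nhds hd), self_mem_nhdsWithin] with t ht ht0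
  rw [slope_def_field, h0, sub_zero, sub_zero] at ht
  have ht0' : 0 < t := ht0
  exact (div_pos_iff_of_pos_right ht0').1 ht

theorem robinPrinciple (h : OnePhase O u) {K W : Set E3} (hK : IsCompact K) (hKO : K ⊆ O)
    (hW : IsOpen W) (hWK : W ⊆ K) (ξ : E3) {G : E3 → ℝ}
    (hGc : ContinuousOn G (K ∩ closure {x | 0 < u x}))
    (hG2 : ∀ x ∈ W, 0 < u x → ContDiffAt ℝ 2 G x ∧ Δ G x < 0)
    (hGpos : ∀ x ∈ K, x ∈ closure {x | 0 < u x} → 0 < G x)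
    (hGF : ∀ p ∈ W, FB u p → ∀ lam : ℝ,
      HasDerivWithinAt (fun t : ℝ => nu u (p + t • nu u p)) (lam • nu u p) (Ici 0) 0 →
      ∃ d : ℝ, HasDerivWithinAt (fun t : ℝ => G (p + t • nu u p)) d (Ici 0) 0 ∧ d < lam * G p)
    (hB : ∀ x ∈ K \ W, x ∈ closure {x | 0 < u x} → ⟪nu u x, ξ⟫ ≤ G x) :
    ∀ x ∈ K, x ∈ closure {x | 0 < u x} → ⟪nu u x, ξ⟫ ≤ G x := by
  intro x hx hxc
  by_contra hlt
  rw [not_le] at hlt
  have hK' : IsCompact (K ∩ closure {x | 0 < u x}) := hK.inter_right isClosed_closure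
  have hnu : ContinuousOn (nu u) (K ∩ closure {x | 0 < u x}) :=
    (nu_continuousOn h).mono (inter_subset_inter_left _ hKO)
  have hRc : ContinuousOn (fun y => ⟪nu u y, ξ⟫ / G y) (K ∩ closure {x | 0 < u x}) := by
    refine ContinuousOn.div (hnu.inner continuousOn_const) hGc ?_
    rintro y ⟨hy, hyc⟩
    exact (hGpos y hy hyc).ne'
  obtain ⟨x₀, ⟨hx₀, hx₀c⟩, hmax⟩ := hK'.exists_isMaxOn ⟨x, hx, hxc⟩ hRc
  set m : ℝ := ⟪nu u x₀, ξ⟫ / G x₀ with hm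
  have hG0 : 0 < G x₀ := hGpos x₀ hx₀ hx₀c
  have hm0 : ⟪nu u x₀, ξ⟫ = m * G x₀ := by
    rw [hm, div_mul_cancel₀ _ hG0.ne']
  have hm1 : 1 < m := by
    have h1 : ⟪nu u x, ξ⟫ / G x ≤ m := hmax ⟨hx, hxc⟩
    have h2 : 1 < ⟪nu u x, ξ⟫ / G x := by
      rw [one_lt_div (hGpos x hx hxc)]
      exact hlt
    exact lt_of_lt_of_le h2 h1
  have hle : ∀ y ∈ K, y ∈ closure {x | 0 < u x} → ⟪nu u y, ξ⟫ ≤ m * G y := by
    intro y hy hyc
    have h1 : ⟪nu u y, ξ⟫ / G y ≤ m := hmax ⟨hy, hyc⟩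
    rwa [div_le_iff₀ (hGpos y hy hyc)] at h1
  have hx₀W : x₀ ∈ W := by
    by_contra hnW
    have h1 := hB x₀ ⟨hx₀, hnW⟩ hx₀c
    rw [hm0] at h1
    nlinarith
  rcases (h.nonneg x₀ (hKO hx₀)).lt_or_eq with hpos | hzero
  · have hA := MP_isOpen h hKO hW hWK
    obtain ⟨hGd, hGΔ⟩ := hG2 x₀ hx₀W hpos
    have hharm := harmonicAt_inner_gradient (h.harm x₀ (hKO hx₀) hpos) ξ
    have hmG : ContDiffAt ℝ 2 (m • G) x₀ := hGd.const_smul m
    have hloc : IsLocalMin (m • G - fun y => ⟪gradient u y, ξ⟫) x₀ := by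
      filter_upwards [hA.mem_nhds ⟨hx₀W, hpos⟩] with y hy
      have hyK : y ∈ K := hWK hy.1
      show m * G x₀ - ⟪gradient u x₀, ξ⟫ ≤ m * G y - ⟪gradient u y, ξ⟫
      rw [← nu_of_pos h (hKO hx₀) hpos, ← nu_of_pos h (hKO hyK) hy.2, hm0, sub_self]
      have := hle y hyK (subset_closure hy.2)
      linarith
    have h1 : 0 ≤ Δ (m • G - fun y => ⟪gradient u y, ξ⟫) x₀ :=
      laplacian_nonneg_of_isLocalMin (hmG.sub hharm.1) hloc
    have h2 : Δ (fun y => ⟪gradient u y, ξ⟫) x₀ = 0 := hharm.2.self_of_nhds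
    rw [hmG.laplacian_sub hharm.1, laplacian_smul m hGd, h2, smul_eq_mul, sub_zero] at h1
    nlinarith
  · have hFB : FB u x₀ := ⟨hzero.symm, hx₀c⟩
    obtain ⟨lam, hlam⟩ := robin h (hKO hx₀) hFB
    obtain ⟨d, hd, hdlt⟩ := hGF x₀ hx₀W hFB lam hlam
    have hφ : HasDerivWithinAt (fun t : ℝ => ⟪nu u (x₀ + t • nu u x₀), ξ⟫ -
        m * G (x₀ + t • nu u x₀)) (lam * (m * G x₀) - m * d) (Ici 0) 0 := by
      have h1 : HasDerivWithinAt (fun t : ℝ => ⟪nu u (x₀ + t • nu u x₀), ξ⟫)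
          (lam * (m * G x₀)) (Ici 0) 0 := by
        have h2 := hlam.inner ℝ (hasDerivWithinAt_const (0 : ℝ) (Ici 0) ξ)
        have h3 : ⟪nu u (x₀ + (0 : ℝ) • nu u x₀), (0 : E3)⟫ + ⟪lam • nu u x₀, ξ⟫ =
            lam * (m * G x₀) := by
          rw [inner_zero_right, zero_add, real_inner_smul_left, hm0]
        rw [h3] at h2
        exact h2
      exact h1.sub (hd.const_mul m)
    have h0 : (fun t : ℝ => ⟪nu u (x₀ + t • nu u x₀), ξ⟫ - m * G (x₀ + t • nu u x₀)) 0 = 0 := by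
      show ⟪nu u (x₀ + (0 : ℝ) • nu u x₀), ξ⟫ - m * G (x₀ + (0 : ℝ) • nu u x₀) = 0
      rw [zero_smul, add_zero, hm0, sub_self]
    have hpos := MP_eventually_pos hφ h0 (by nlinarith)
    have hline : Tendsto (fun t : ℝ => x₀ + t • nu u x₀) (𝓝[>] 0) (𝓝 x₀) := by
      have h1 : Continuous (fun t : ℝ => x₀ + t • nu u x₀) := by fun_prop
      have h2 := h1.tendsto 0
      rw [zero_smul, add_zero] at h2
      exact h2.mono_left nhdsWithin_le_nhds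
    have hWe : ∀ᶠ t in 𝓝[>] (0 : ℝ), x₀ + t • nu u x₀ ∈ W :=
      hline.eventually (hW.mem_nhds hx₀W)
    obtain ⟨t, ht1, ht2, ht3⟩ := (hpos.and (hWe.and (eventually_pos h (hKO hx₀) hFB))).exists
    have h4 := hle _ (hWK ht2) (subset_closure ht3)
    linarith

end Pool.Agent.H32.Flat
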