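import Pool.Agent.H32.Flat.Defs

/-!
# The notions of the problem

* `posPhase Ω u = {x ∈ Ω : u(x) > 0}`, `zeroPhase Ω u = {x ∈ Ω : u(x) = 0}`,
  `freeBdry Ω u = Ω ∩ ∂{u > 0}`.
* `IsClassical Ω u`: classical one-phase solution on `Ω`.
-/

open Set Metric MeasureTheory Filter Topology InnerProductSpace
open scoped Laplacian Gradient RealInnerProductSpace

namespace Pool.Agent.H32.Flat

/-- the positive phase -/
def posPhase (Ω : Set E3) (u : E3 → ℝ) : Set E3 := {x | x ∈ Ω ∧ 0 < u x}

/-- the zero phase -/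
def zeroPhase (Ω : Set E3) (u : E3 → ℝ) : Set E3 := {x | x ∈ Ω ∧ u x = 0}

/-- the free boundary `F(u) = Ω ∩ ∂{u > 0}` -/
def freeBdry (Ω : Set E3) (u : E3 → ℝ) : Set E3 := Ω ∩ frontier (posPhase Ω u)

/-- Classical one-phase solution on `Ω`: `u ≥ 0` is continuous on `Ω`; at interior points of `Ω` it
is harmonic where positive, and near each free boundary point `p` in the interior of `Ω` there is a
`C²` function `U` (a smooth extension of `u` from the positive side across the free boundary) with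
`U = u` on the positive phase and `|∇U| = 1` on the free boundary. -/
structure IsClassical (Ω : Set E3) (u : E3 → ℝ) : Prop where
  continuousOn : ContinuousOn u Ω
  nonneg : ∀ x ∈ Ω, 0 ≤ u x
  harmonic : ∀ x ∈ interior Ω, 0 < u x → HarmonicAt u x
  boundary : ∀ p ∈ interior Ω, p ∈ freeBdry Ω u → ∃ (V : Set E3) (U : E3 → ℝ),
    IsOpen V ∧ p ∈ V ∧ ContDiffOn ℝ 2 U V ∧ (∀ x ∈ V ∩ posPhase Ω u, U x = u x) ∧
    (∀ x ∈ V ∩ freeBdry Ω u, ‖gradient U x‖ = 1)

end Pool.Agent.H32.Flat
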