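import Pool.Agent.H32.Flat.NoRetract

/-!
# Module T2: a contractible subset of `ℝ³ \ {0}` contains no sphere about `0`

A contraction `H : S × [0,1] → S` (`ContractibleSpace`) restricted to the sphere gives a continuous
`F : closedBall 0 1 → E3 \ {0}`, `F x = H (s x/|x|, 1 - |x|)` (constant at the centre), `F x = s x` on the unit
sphere; divide by `s` and extend by `F x = x` for `|x| ≥ 1`: continuous on `E3`, non-zero, `m = min |F| > 0` on
`closedBall 0 2`.  Smooth approximation `P` with `|P - F| < m/4` on `closedBall 0 2` (convolution with a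
bump function, or `Mathlib`'s smooth approximation of continuous functions), `χ` a smooth cut-off, `= 1` on
`closedBall 0 (5/4)`, `= 0` off `ball 0 (3/2)`; `F̃ = χ P + (1-χ) id` satisfies `|F̃ - F| ≤ m/4` on
`closedBall 0 2` (`F = id` for `|x| ≥ 1`), `F̃ = id` for `|x| ≥ 3/2`.  Then
`f y = F̃(3y/2)/|F̃(3y/2)|` is a `C^∞` retraction: contradiction to `no_retraction`.
-/

open Set Metric MeasureTheory Filter Topology

namespace Pool.Agent.H32.Flat

/-- A nowhere vanishing continuous map which is the identity off the unit ball. -/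
theorem SphereContr_ext {S : Set E3} (h0 : (0 : E3) ∉ S) {s : ℝ} (hs : 0 < s)
    (hS : sphere (0 : E3) s ⊆ S) (hc : ContractibleSpace S) :
    ∃ F : E3 → E3, Continuous F ∧ (∀ x, F x ≠ 0) ∧ ∀ x, 1 ≤ ‖x‖ → F x = x := by
  classical
  obtain ⟨y, ⟨H⟩⟩ := id_nullhomotopic S
  have hmem : ∀ x : E3, x ≠ 0 → (s / ‖x‖) • x ∈ S := by
    intro x hx
    apply hS
    rw [mem_sphere_zero_iff_norm, norm_smul, Real.norm_eq_abs, abs_of_pos
      (div_pos hs (norm_pos_iff.2 hx)), div_mul_cancel₀ _ (norm_ne_zero_iff.2 hx)]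
  let G : E3 → S := fun x => if h : x ≠ 0 then ⟨(s / ‖x‖) • x, hmem x h⟩ else y
  have hG : ∀ x : E3, x ≠ 0 → (G x : E3) = (s / ‖x‖) • x := by
    intro x hx
    show ((if h : x ≠ 0 then (⟨(s / ‖x‖) • x, hmem x h⟩ : S) else y : S) : E3) = _
    rw [dif_pos hx]
  let T : E3 → unitInterval := fun x => projIcc (0 : ℝ) 1 zero_le_one (2 - 2 * ‖x‖)
  have hT : Continuous T := continuous_projIcc.comp (by fun_prop)
  have hne : ∀ x ∈ {x : E3 | 1 / 2 ≤ ‖x‖}, x ≠ 0 := by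
    intro x hx h
    have hx' : 1 / 2 ≤ ‖x‖ := hx
    rw [h, norm_zero] at hx'
    norm_num at hx'
  have hGc : ContinuousOn G {x : E3 | 1 / 2 ≤ ‖x‖} := by
    rw [Topology.IsInducing.subtypeVal.continuousOn_iff]
    have h1 : ContinuousOn (fun x : E3 => (s / ‖x‖) • x) {x : E3 | 1 / 2 ≤ ‖x‖} := by
      refine ContinuousOn.smul (ContinuousOn.div continuousOn_const continuous_norm.continuousOn
        fun x hx => norm_ne_zero_iff.2 (hne x hx)) continuousOn_id
    exact h1.congr fun x hx => hG x (hne x hx)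
  have hHc : ContinuousOn (fun x : E3 => ((H (T x, G x) : S) : E3)) {x : E3 | 1 / 2 ≤ ‖x‖} := by
    have h1 : ContinuousOn (fun x : E3 => (T x, G x)) {x : E3 | 1 / 2 ≤ ‖x‖} :=
      hT.continuousOn.prodMk hGc
    exact (continuous_subtype_val.comp H.continuous).comp_continuousOn h1
  refine ⟨fun x => if ‖x‖ ≤ 1 / 2 then s⁻¹ • (y : E3) else
    max 1 ‖x‖ • s⁻¹ • ((H (T x, G x) : S) : E3), ?_, ?_, ?_⟩
  · refine continuous_if_le continuous_norm continuous_const continuousOn_const ?_ ?_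
    · have h3 : ContinuousOn (fun x : E3 => s⁻¹ • ((H (T x, G x) : S) : E3))
          {x : E3 | 1 / 2 ≤ ‖x‖} := hHc.const_smul s⁻¹
      have h4 : ContinuousOn (fun x : E3 => max 1 ‖x‖) {x : E3 | 1 / 2 ≤ ‖x‖} :=
        (continuous_const.max continuous_norm).continuousOn
      exact h4.smul h3
    · intro x hx
      have h1 : T x = 1 := by
        show projIcc (0 : ℝ) 1 zero_le_one (2 - 2 * ‖x‖) = 1
        rw [hx]
        exact projIcc_of_right_le _ (by norm_num)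
      rw [h1, H.apply_one, hx]
      have h2 : max (1 : ℝ) (1 / 2) = 1 := by norm_num
      rw [h2, one_smul]
      rfl
  · intro x
    have hS0 : ∀ z : S, (z : E3) ≠ 0 := fun z h => h0 (h ▸ z.2)
    show (if ‖x‖ ≤ 1 / 2 then s⁻¹ • (y : E3) else
      max 1 ‖x‖ • s⁻¹ • ((H (T x, G x) : S) : E3)) ≠ 0
    split_ifs
    · exact smul_ne_zero (inv_ne_zero hs.ne') (hS0 y)
    · exact smul_ne_zero (lt_max_of_lt_left one_pos).ne' (smul_ne_zero (inv_ne_zero hs.ne') (hS0 _))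
  · intro x hx
    have hx0 : x ≠ 0 := hne x (le_trans (by norm_num) hx)
    have h1 : T x = 0 := by
      show projIcc (0 : ℝ) 1 zero_le_one (2 - 2 * ‖x‖) = 0
      exact projIcc_of_le_left _ (by linarith)
    show (if ‖x‖ ≤ 1 / 2 then s⁻¹ • (y : E3) else
      max 1 ‖x‖ • s⁻¹ • ((H (T x, G x) : S) : E3)) = x
    rw [if_neg (by linarith), h1, H.apply_zero]
    show max 1 ‖x‖ • s⁻¹ • ((G x : S) : E3) = x
    rw [hG x hx0, max_eq_right hx, smul_smul, smul_smul]
    have h2 : ‖x‖ * (s⁻¹ * (s / ‖x‖)) = 1 := by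
      have h3 : ‖x‖ ≠ 0 := norm_ne_zero_iff.2 hx0
      field_simp
    have h4 : ‖x‖ * s⁻¹ * (s / ‖x‖) = 1 := by rw [mul_assoc, h2]
    rw [h4, one_smul]

theorem not_contractible_of_sphere {S : Set E3} (h0 : (0 : E3) ∉ S) {s : ℝ} (hs : 0 < s)
    (hS : sphere (0 : E3) s ⊆ S) : ¬ ContractibleSpace S := by
  intro hc
  obtain ⟨F, hF, hF0, hF1⟩ := SphereContr_ext h0 hs hS hc
  have hcl : IsClosed {x : E3 | 3 / 2 ≤ ‖x‖} := isClosed_le continuous_const continuous_norm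
  have hop : IsOpen {x : E3 | 1 < ‖x‖} := isOpen_lt continuous_const continuous_norm
  have hsub : {x : E3 | 3 / 2 ≤ ‖x‖} ⊆ {x : E3 | 1 < ‖x‖} := by
    intro x hx
    have hx' : 3 / 2 ≤ ‖x‖ := hx
    show 1 < ‖x‖
    linarith
  have hcd : ContDiffOn ℝ ((1 : ℕ∞) : WithTop ℕ∞) F {x : E3 | 1 < ‖x‖} :=
    contDiffOn_id.congr fun x hx => hF1 x (le_of_lt hx)
  obtain ⟨g, hg, hgF, hgS, -⟩ := Continuous.exists_contDiff_approx_and_eqOn (n := 1) hF
    (ε := fun x => ‖F x‖ / 2) (by fun_prop) (fun x => half_pos (norm_pos_iff.2 (hF0 x))) hcl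
    (hop.mem_nhdsSet.2 hsub) hcd
  have hg0 : ∀ x, g x ≠ 0 := by
    intro x hx
    have h1 := hgF x
    rw [hx, dist_zero_left] at h1
    have h2 : 0 < ‖F x‖ := norm_pos_iff.2 (hF0 x)
    linarith
  have hgid : ∀ x : E3, 3 / 2 ≤ ‖x‖ → g x = x := by
    intro x hx
    rw [hgS hx, hF1 x (by linarith)]
  have hgc : ContDiff ℝ 1 (fun y : E3 => g ((3 / 2 : ℝ) • y)) :=
    (hg.of_le (by simp)).comp (contDiff_const_smul _)
  refine no_retraction (fun y => (‖g ((3 / 2 : ℝ) • y)‖)⁻¹ • g ((3 / 2 : ℝ) • y)) univ isOpen_univ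
    (subset_univ _) ?_ ?_ ?_
  · refine ContDiff.contDiffOn ?_
    exact ((hgc.norm ℝ fun y => hg0 _).inv fun y => norm_ne_zero_iff.2 (hg0 _)).smul hgc
  · intro x _
    show ‖(‖g ((3 / 2 : ℝ) • x)‖)⁻¹ • g ((3 / 2 : ℝ) • x)‖ = 1
    rw [norm_smul, norm_inv, norm_norm, inv_mul_cancel₀ (norm_ne_zero_iff.2 (hg0 _))]
  · intro x hx
    have hx1 : ‖x‖ = 1 := by simpa using hx
    have hn : ‖(3 / 2 : ℝ) • x‖ = 3 / 2 := by
      rw [norm_smul, hx1]
      norm_num
    show (‖g ((3 / 2 : ℝ) • x)‖)⁻¹ • g ((3 / 2 : ℝ) • x) = x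
    rw [hgid _ hn.ge, hn, smul_smul]
    norm_num

end Pool.Agent.H32.Flat
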