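import Pool.Agent.H32.Flat.MainDefs
import Pool.Agent.H32.Flat.SphereContr

/-!
# Module T3: from the hypotheses of the problem to `Setup`

`Ω` is the open shell `{δ < |x| < 1}` or the half-open shell `{δ ≤ |x| < 1}`; its interior is the open
shell.  `FB u p` for `p` in the open shell is the same as `p ∈ freeBdry Ω u`.
`meets`: suppose no `FB` point on the sphere `|x| = s`, `δ < s < 1`.  The sphere is connected, `{0<u}` and
`{u=0}` are relatively open on it, so the sphere is contained in `posPhase` or in `zeroPhase`; both are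
contractible and do not contain `0` (`δ > 0`): contradiction to `not_contractible_of_sphere`.
-/

open Set Metric MeasureTheory Filter Topology InnerProductSpace
open scoped Laplacian Gradient RealInnerProductSpace

namespace Pool.Agent.H32.Flat

theorem Meets_isOpen (δ : ℝ) : IsOpen {x : E3 | δ < ‖x‖ ∧ ‖x‖ < 1} :=
  (isOpen_lt continuous_const continuous_norm).inter (isOpen_lt continuous_norm continuous_const)

theorem Meets_subset {δ : ℝ} {Ω : Set E3}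
    (hΩ : Ω = {x | δ < ‖x‖ ∧ ‖x‖ < 1} ∨ Ω = {x | δ ≤ ‖x‖ ∧ ‖x‖ < 1}) :
    {x : E3 | δ < ‖x‖ ∧ ‖x‖ < 1} ⊆ Ω := by
  rcases hΩ with rfl | rfl
  · exact fun x hx => hx
  · exact fun x hx => ⟨hx.1.le, hx.2⟩

theorem Meets_interior {δ : ℝ} {Ω : Set E3}
    (hΩ : Ω = {x | δ < ‖x‖ ∧ ‖x‖ < 1} ∨ Ω = {x | δ ≤ ‖x‖ ∧ ‖x‖ < 1}) :
    {x : E3 | δ < ‖x‖ ∧ ‖x‖ < 1} ⊆ interior Ω :=
  interior_maximal (Meets_subset hΩ) (Meets_isOpen δ)

theorem Meets_zero_notMem {δ : ℝ} {Ω : Set E3} (hδ : 0 < δ)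
    (hΩ : Ω = {x | δ < ‖x‖ ∧ ‖x‖ < 1} ∨ Ω = {x | δ ≤ ‖x‖ ∧ ‖x‖ < 1}) : (0 : E3) ∉ Ω := by
  rcases hΩ with rfl | rfl
  · intro h
    have h1 := h.1
    rw [norm_zero] at h1
    linarith
  · intro h
    have h1 := h.1
    rw [norm_zero] at h1
    linarith

theorem FB_iff_mem_freeBdry {δ : ℝ} {Ω : Set E3} {u : E3 → ℝ} (hδ : 0 < δ)
    (hΩ : Ω = {x | δ < ‖x‖ ∧ ‖x‖ < 1} ∨ Ω = {x | δ ≤ ‖x‖ ∧ ‖x‖ < 1})
    (h : IsClassical Ω u) {x : E3} (hx : δ < ‖x‖) (hx1 : ‖x‖ < 1) :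
    FB u x ↔ x ∈ freeBdry Ω u := by
  have hxO : x ∈ {x : E3 | δ < ‖x‖ ∧ ‖x‖ < 1} := ⟨hx, hx1⟩
  have hO : {x : E3 | δ < ‖x‖ ∧ ‖x‖ < 1} ∈ 𝓝 x := (Meets_isOpen δ).mem_nhds hxO
  have hxΩ : x ∈ Ω := Meets_subset hΩ hxO
  constructor
  · rintro ⟨h1, h2⟩
    refine ⟨hxΩ, ?_, ?_⟩
    · rw [mem_closure_iff_nhds] at h2 ⊢
      intro t ht
      obtain ⟨y, ⟨hy1, hy2⟩, hy3⟩ := h2 (t ∩ {x : E3 | δ < ‖x‖ ∧ ‖x‖ < 1})
        (Filter.inter_mem ht hO)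
      exact ⟨y, hy1, Meets_subset hΩ hy2, hy3⟩
    · intro h3
      have h4 := (interior_subset h3).2
      rw [h1] at h4
      exact lt_irrefl _ h4
  · rintro ⟨_, h2, h3⟩
    refine ⟨?_, closure_mono (fun y hy => hy.2) h2⟩
    by_contra h4
    have h5 : 0 < u x := lt_of_le_of_ne (h.nonneg x hxΩ) (Ne.symm h4)
    apply h3
    rw [mem_interior_iff_mem_nhds]
    have hΩn : Ω ∈ 𝓝 x := Filter.mem_of_superset hO (Meets_subset hΩ)
    have hc : ContinuousAt u x := h.continuousOn.continuousAt hΩn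
    have h6 : ∀ᶠ y in 𝓝 x, 0 < u y := hc.eventually (lt_mem_nhds h5)
    filter_upwards [hΩn, h6] with y hy1 hy2
    exact ⟨hy1, hy2⟩

theorem setup_of_classical {δ ε : ℝ} {Ω : Set E3} {u : E3 → ℝ} (hδ : 0 < δ) (hδ1 : δ < 1)
    (hΩ : Ω = {x | δ < ‖x‖ ∧ ‖x‖ < 1} ∨ Ω = {x | δ ≤ ‖x‖ ∧ ‖x‖ < 1})
    (h : IsClassical Ω u) (hp : ContractibleSpace (posPhase Ω u))
    (hz : ContractibleSpace (zeroPhase Ω u))
    (hup : ∀ x ∈ Ω, ε < x 2 → 0 < u x) (hdown : ∀ x ∈ Ω, x 2 < -ε → u x = 0) :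
    Setup δ ε u := by
  have hOΩ := Meets_subset hΩ
  have hOi := Meets_interior hΩ
  have hOo := Meets_isOpen δ
  have hcO : ContinuousOn u {x : E3 | δ < ‖x‖ ∧ ‖x‖ < 1} := h.continuousOn.mono hOΩ
  refine ⟨⟨hOo, hcO, fun x hx => h.nonneg x (hOΩ hx), fun x hx => h.harmonic x (hOi hx), ?_⟩,
    ?_, fun x h1 h2 => hup x (hOΩ ⟨h1, h2⟩), fun x h1 h2 => hdown x (hOΩ ⟨h1, h2⟩)⟩
  · intro p hpO hFB
    have hpF : p ∈ freeBdry Ω u := (FB_iff_mem_freeBdry hδ hΩ h hpO.1 hpO.2).1 hFB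
    obtain ⟨V, U, hV, hpV, hU, h1, h2⟩ := h.boundary p (hOi hpO) hpF
    refine ⟨V ∩ {x : E3 | δ < ‖x‖ ∧ ‖x‖ < 1}, U, hV.inter hOo, ⟨hpV, hpO⟩, inter_subset_right,
      hU.mono inter_subset_left, ?_, ?_⟩
    · rintro x ⟨hxV, hxO⟩ hx
      exact h1 x ⟨hxV, hOΩ hxO, hx⟩
    · rintro x ⟨hxV, hxO⟩ hx
      exact h2 x ⟨hxV, (FB_iff_mem_freeBdry hδ hΩ h hxO.1 hxO.2).1 hx⟩
  · intro s hs hs1
    by_contra hcon
    push Not at hcon
    have hs0 : 0 < s := hδ.trans hs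
    have hsO : ∀ x ∈ sphere (0 : E3) s, x ∈ {x : E3 | δ < ‖x‖ ∧ ‖x‖ < 1} := by
      intro x hx
      have h1 : ‖x‖ = s := by simpa using hx
      exact ⟨by rw [h1]; exact hs, by rw [h1]; exact hs1⟩
    have hpre : IsPreconnected (sphere (0 : E3) s) := by
      refine isPreconnected_sphere ?_ 0 s
      rw [← Module.finrank_eq_rank ℝ E3, finrank_euclideanSpace_fin]
      norm_num
    have hW1 : IsOpen ({x : E3 | δ < ‖x‖ ∧ ‖x‖ < 1} ∩ u ⁻¹' Ioi 0) :=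
      hcO.isOpen_inter_preimage hOo isOpen_Ioi
    have hW2 : IsOpen ({x : E3 | δ < ‖x‖ ∧ ‖x‖ < 1} ∩ (closure {x | 0 < u x})ᶜ) :=
      hOo.inter isClosed_closure.isOpen_compl
    have hdis : Disjoint ({x : E3 | δ < ‖x‖ ∧ ‖x‖ < 1} ∩ u ⁻¹' Ioi 0)
        ({x : E3 | δ < ‖x‖ ∧ ‖x‖ < 1} ∩ (closure {x | 0 < u x})ᶜ) := by
      rw [Set.disjoint_left]
      rintro x ⟨_, hx1⟩ ⟨_, hx2⟩
      exact hx2 (subset_closure hx1)
    have hcov : sphere (0 : E3) s ⊆ ({x : E3 | δ < ‖x‖ ∧ ‖x‖ < 1} ∩ u ⁻¹' Ioi 0) ∪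
        ({x : E3 | δ < ‖x‖ ∧ ‖x‖ < 1} ∩ (closure {x | 0 < u x})ᶜ) := by
      intro x hx
      have hxO := hsO x hx
      by_cases hux : 0 < u x
      · exact Or.inl ⟨hxO, hux⟩
      · right
        refine ⟨hxO, fun hcl => ?_⟩
        have h0 : u x = 0 := le_antisymm (not_lt.1 hux) (h.nonneg x (hOΩ hxO))
        exact hcon x (by simpa using hx) ⟨h0, hcl⟩
    rcases hpre.subset_or_subset hW1 hW2 hdis hcov with h1 | h1
    · refine not_contractible_of_sphere (S := posPhase Ω u)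
        (fun h0 => Meets_zero_notMem hδ hΩ h0.1) hs0 ?_ hp
      intro x hx
      exact ⟨hOΩ (h1 hx).1, (h1 hx).2⟩
    · refine not_contractible_of_sphere (S := zeroPhase Ω u)
        (fun h0 => Meets_zero_notMem hδ hΩ h0.1) hs0 ?_ hz
      intro x hx
      have hxO := (h1 hx).1
      refine ⟨hOΩ hxO, le_antisymm (not_lt.1 fun h2 => ?_) (h.nonneg x (hOΩ hxO))⟩
      exact (h1 hx).2 (subset_closure h2)

end Pool.Agent.H32.Flat
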