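import Pool.Agent.H32.Flat.NLTop
import Pool.Agent.H32.Flat.MP
import Pool.Agent.H32.Flat.Jac

/-!
# Module N2: the horizontal derivatives near the free boundary (the conformal barrier)

Fix `x ∈ closure {0<u}`, `‖x‖ ≤ 1/2`, `⟪x,e⟫ ≤ t`; `x₀ = x - ⟪x,e⟫ e`, `z = · - x₀`, `R = 1/8`,
`K = closedBall x₀ R ∩ {⟪z,e⟫ ≤ t}`, `W` its interior version.  On `K ∩ closure {0<u}`:
`-2σ ≤ ⟪z,e⟫ ≤ t`, `u ≤ 2t` (by `CloseAt`, `2σ ≤ t`), `⟪nu,e⟫ ≥ 1/2`, `‖nu‖ ≤ L`.  Barrier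
`G = a ⟪nu,e⟫ + b P - κ₁ u - κ₂ u²`, `P = ‖z‖²⟪nu,e⟫ - 2⟪z,e⟫⟪z,nu⟫ - ⟪z,e⟫ u`,
`b = 8 L / R²`, `κ₁ = 7 b σ`, `κ₂ = 1` (times anything small), `a` as below.
* interior: `ΔG = -2κ₂|∇u|² < 0` (`harmonicAt_inner_gradient`, `harmonicAt_conf`, `laplacian_sq'`).
* `FB` points `p ∈ W`, `ν = nu u p`, `λ` from the Robin condition: along `t ↦ p + tν`:
  `nu' = λν`, `u' = 1`, `z' = ν`; at `p` (`u = 0`): `G' = aλν_e + b(λP + 2⟪z,ν⟫ν_e - 2ν_e⟪z,ν⟫ - 2⟪z,e⟫ - ⟪z,e⟫) - κ₁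
  = λ G p - 3b⟪z,e⟫ - κ₁ < λ G p` since `|⟪z,e⟫| ≤ 2σ`.
* `P ≥ ‖z‖²/2 - 2tL‖z‖ - 2t² ≥ -(2L²+2)t²`; on `‖z‖ = R`: `P ≥ R²/4` for `t ≤ t(L)`, so
  `G ≥ 2L - 2κ₁t - 4κ₂t² ≥ L ≥ ⟪nu,ξ⟫`; on `⟪z,e⟫ = t`: `⟪nu,ξ⟫ ≤ ‖∇u - e‖ ≤ a/4 ≤ G` for `ξ ⟂ e`
  (`nl_top`) if `a ≥ C(L) t²`-ish: `a/2 - b(2L²+2)t² - 2κ₁t - 4κ₂t² ≥ a/4 > 0` (positivity of `G` everywhere).
* `robinPrinciple` gives at `x` (where `z = s e`, `-2σ ≤ s ≤ t`, so `P x = -s²⟪nu,e⟫ - s u ≤ 4σt`):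
  `⟪nu u x, ξ⟫ ≤ a L + b·4σt` for all unit `ξ ⟂ e`.  Choose `a = η/(4L)`, then `t` small, then `σ` small.
-/

open Set Metric MeasureTheory Filter Topology InnerProductSpace
open scoped Laplacian Gradient RealInnerProductSpace

namespace Pool.Agent.H32.Flat

theorem NLHor_lower {u : E3 → ℝ} {e : E3} {σ : ℝ} (hC : CloseAt u 0 1 e σ) {y : E3}
    (hy : y ∈ closure {x | 0 < u x}) (hy1 : ‖y‖ < 1) : -σ ≤ ⟪y, e⟫ := by
  by_contra hlt
  push Not at hlt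
  have hV : IsOpen (ball (0 : E3) 1 ∩ {z : E3 | ⟪z, e⟫ < -σ}) := by
    refine isOpen_ball.inter (isOpen_lt ?_ continuous_const)
    fun_prop
  rw [_root_.mem_closure_iff] at hy
  obtain ⟨z, ⟨hz1, hz2⟩, hz3⟩ := hy _ hV ⟨by simpa using hy1, hlt⟩
  have h1 := (hC z hz1).2.2 (by simpa using hz2)
  have hz4 : 0 < u z := hz3
  rw [h1] at hz4
  exact lt_irrefl _ hz4

theorem NLHor_upper {u : E3 → ℝ} {e : E3} {σ t : ℝ} (hC : CloseAt u 0 1 e σ) {y : E3}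
    (hy1 : ‖y‖ < 1) (ht : 0 ≤ t) (hyt : ⟪y, e⟫ ≤ t) : u y ≤ t + σ := by
  have h1 := (hC y (by simpa using hy1)).1
  rw [sub_zero, mul_one] at h1
  have h2 := (abs_le.mp h1).2
  have h3 : max ⟪y, e⟫ 0 ≤ t := max_le hyt ht
  linarith

theorem NLHor_norm_nu {O : Set E3} {u : E3 → ℝ} (h : OnePhase O u) {L : ℝ} (hL : 1 ≤ L)
    (hgrad : ∀ x ∈ O, 0 < u x → ‖gradient u x‖ ≤ L) {y : E3} (hy : y ∈ O)
    (hyc : y ∈ closure {x | 0 < u x}) : ‖nu u y‖ ≤ L := by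
  rcases (h.nonneg y hy).lt_or_eq with h1 | h1
  · rw [nu_of_pos h hy h1]
    exact hgrad y hy h1
  · rw [norm_nu_of_FB h hy ⟨h1.symm, hyc⟩]
    exact hL

/-- the barrier -/
noncomputable def NLHor_P (u : E3 → ℝ) (x₀ e : E3) (y : E3) : ℝ :=
  ‖y - x₀‖ ^ 2 * ⟪nu u y, e⟫ - 2 * ⟪y - x₀, e⟫ * ⟪y - x₀, nu u y⟫ - ⟪y - x₀, e⟫ * u y

noncomputable def NLHor_G (u : E3 → ℝ) (x₀ e : E3) (a b κ : ℝ) (y : E3) : ℝ :=
  a * ⟪nu u y, e⟫ + b * NLHor_P u x₀ e y - κ * u y - u y ^ 2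

theorem NLHor_G_cont {O : Set E3} {u : E3 → ℝ} (h : OnePhase O u) (x₀ e : E3) (a b κ : ℝ) :
    ContinuousOn (NLHor_G u x₀ e a b κ) (O ∩ closure {x | 0 < u x}) := by
  have h1 := nu_continuousOn h
  have h2 : ContinuousOn u (O ∩ closure {x | 0 < u x}) := h.cont.mono inter_subset_left
  unfold NLHor_G NLHor_P
  fun_prop

theorem NLHor_G_lap {O : Set E3} {u : E3 → ℝ} (h : OnePhase O u) (x₀ e : E3) (a b κ : ℝ)
    {x : E3} (hx : x ∈ O) (hux : 0 < u x) :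
    ContDiffAt ℝ 2 (NLHor_G u x₀ e a b κ) x ∧
      Δ (NLHor_G u x₀ e a b κ) x = - (2 * ‖gradient u x‖ ^ 2) := by
  have hu := h.harm x hx hux
  set H : E3 → ℝ := (a • fun y => ⟪gradient u y, e⟫) + (b • fun y => ‖y - x₀‖ ^ 2 * ⟪gradient u y, e⟫ -
      2 * ⟪y - x₀, e⟫ * ⟪y - x₀, gradient u y⟫ - ⟪y - x₀, e⟫ * u y) - κ • u with hH
  have hHh : HarmonicAt H x :=
    (((harmonicAt_inner_gradient hu e).const_smul).add ((harmonicAt_conf hu x₀ e).const_smul)).sub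
      hu.const_smul
  have hpos : ∀ᶠ y in 𝓝 x, y ∈ O ∧ 0 < u y := by
    have h1 : O ∈ 𝓝 x := h.isOpen.mem_nhds hx
    have h2 : ContinuousAt u x := h.cont.continuousAt h1
    exact (eventually_mem_set.mpr h1).and (h2.eventually (lt_mem_nhds hux))
  have heq : NLHor_G u x₀ e a b κ =ᶠ[𝓝 x] H - fun y => u y ^ 2 := by
    filter_upwards [hpos] with y hy
    simp only [NLHor_G, NLHor_P, hH, nu_of_pos h hy.1 hy.2, Pi.sub_apply, Pi.add_apply,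
      Pi.smul_apply, smul_eq_mul]
  have hsq : ContDiffAt ℝ 2 (fun y => u y ^ 2) x := hu.1.pow 2
  constructor
  · exact (hHh.1.sub hsq).congr_of_eventuallyEq heq
  · rw [Filter.EventuallyEq.eq_of_nhds (laplacian_congr_nhds heq), hHh.1.laplacian_sub hsq,
      hHh.2.eq_of_nhds, laplacian_sq' hu]
    simp

theorem NLHor_G_robin {O : Set E3} {u : E3 → ℝ} (h : OnePhase O u) (x₀ e : E3) (a b κ : ℝ)
    {p : E3} (hp : p ∈ O) (hF : FB u p) (lam : ℝ)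
    (hlam : HasDerivWithinAt (fun t : ℝ => nu u (p + t • nu u p)) (lam • nu u p) (Ici 0) 0) :
    HasDerivWithinAt (fun t : ℝ => NLHor_G u x₀ e a b κ (p + t • nu u p))
      (lam * NLHor_G u x₀ e a b κ p - 3 * b * ⟪p - x₀, e⟫ - κ) (Ici 0) 0 := by
  have hu := hasDeriv_u h hp hF
  have hn := norm_nu_of_FB h hp hF
  set ν := nu u p with hν
  have hz : HasDerivWithinAt (fun t : ℝ => p + t • ν - x₀) ν (Ici 0) 0 := by
    have h1 : HasDerivAt (fun t : ℝ => p + t • ν - x₀) ν 0 := by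
      have h2 : HasDerivAt (fun t : ℝ => t • ν) ((1 : ℝ) • ν) 0 := (hasDerivAt_id (0 : ℝ)).smul_const ν
      rw [one_smul] at h2
      exact (h2.const_add p).sub_const x₀
    exact h1.hasDerivWithinAt
  have hne : HasDerivWithinAt (fun t : ℝ => ⟪nu u (p + t • ν), e⟫) (lam * ⟪ν, e⟫) (Ici 0) 0 := by
    have := hlam.inner ℝ (hasDerivWithinAt_const (0 : ℝ) (Ici 0) e)
    simpa [inner_smul_left] using this
  have hze : HasDerivWithinAt (fun t : ℝ => ⟪p + t • ν - x₀, e⟫) ⟪ν, e⟫ (Ici 0) 0 := by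
    have := hz.inner ℝ (hasDerivWithinAt_const (0 : ℝ) (Ici 0) e)
    simpa using this
  have hzn : HasDerivWithinAt (fun t : ℝ => ⟪p + t • ν - x₀, nu u (p + t • ν)⟫)
      (lam * ⟪p - x₀, ν⟫ + 1) (Ici 0) 0 := by
    have := hz.inner ℝ hlam
    simpa [inner_smul_right, ← hν, hn] using this
  have hzz : HasDerivWithinAt (fun t : ℝ => ‖p + t • ν - x₀‖ ^ 2) (2 * ⟪p - x₀, ν⟫) (Ici 0) 0 := by
    have := hz.norm_sq
    simpa using this
  have hu0 : u p = 0 := hF.1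
  have hu2 : HasDerivWithinAt (fun t : ℝ => u (p + t • ν)) 1 (Ici 0) 0 := hu
  have key := (((hne.const_mul a).add ((((hzz.mul hne).sub ((hze.const_mul 2).mul hzn)).sub
    (hze.mul hu2)).const_mul b)).sub (hu2.const_mul κ)).sub (hu2.pow 2)
  refine key.congr_deriv ?_
  simp only [zero_smul, add_zero, ← hν, hu0, NLHor_G, NLHor_P]
  ring

theorem NLHor_P_lower {L t σ r s w v c m : ℝ} (ht : 0 < t) (hσt : σ ≤ t)
    (hs1 : -σ ≤ s) (hs2 : s ≤ t) (hv0 : 0 ≤ v) (hv : v ≤ t + σ) (hc : 1 / 2 ≤ c)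
    (hw : |w| ≤ r * L) (hm : m = r ^ 2 * c - 2 * s * w - s * v) :
    r ^ 2 / 2 - 2 * t * L * r - 2 * t ^ 2 ≤ m := by
  have h1 : |s| ≤ t := abs_le.mpr ⟨by linarith, hs2⟩
  have h2 : |s * w| ≤ t * (r * L) := by
    rw [abs_mul]
    exact mul_le_mul h1 hw (abs_nonneg _) ht.le
  have h3 : s * w ≤ t * (r * L) := (le_abs_self _).trans h2
  have h4 : s * v ≤ t * (2 * t) := by
    have h5 : s * v ≤ t * v := mul_le_mul_of_nonneg_right hs2 hv0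
    have h6 : t * v ≤ t * (2 * t) := mul_le_mul_of_nonneg_left (by linarith) ht.le
    linarith
  have h7 : r ^ 2 * (1 / 2) ≤ r ^ 2 * c := mul_le_mul_of_nonneg_left hc (sq_nonneg r)
  rw [hm]
  nlinarith

theorem NLHor_core {L a b t σ : ℝ} {u : E3 → ℝ} {e ξ : E3} (hL : 1 ≤ L) (ha : 0 < a)
    (hb : b = 512 * L) (ht : 0 < t) (ht8 : t ≤ 1 / 8) (hσ : 0 < σ) (hσt : σ ≤ t) (he : ‖e‖ = 1)
    (hξ : ‖ξ‖ = 1) (hξe : ⟪e, ξ⟫ = 0)
    (h : OnePhase (ball 0 1) u) (hgrad : ∀ x ∈ ball (0 : E3) 1, 0 < u x → ‖gradient u x‖ ≤ L)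
    (hC : CloseAt u 0 1 e σ)
    (hhalf : ∀ x ∈ closure {x | 0 < u x}, ‖x‖ ≤ 3 / 4 → ⟪x, e⟫ ≤ t → 1 / 2 ≤ ⟪nu u x, e⟫)
    (htop : ∀ x : E3, ‖x‖ ≤ 7 / 8 → t ≤ ⟪x, e⟫ → 0 < u x ∧ ‖gradient u x - e‖ ≤ a / 4)
    (hP : t * L / 4 + 2 * t ^ 2 ≤ 1 / 256)
    (hA : b * (2 * L ^ 2 + 2) * t ^ 2 + 8 * b * t ^ 2 + 4 * t ^ 2 ≤ a / 4)
    (hA2 : 8 * b * t ^ 2 + 4 * t ^ 2 ≤ 1)
    {x : E3} (hx : x ∈ closure {x | 0 < u x}) (hx2 : ‖x‖ ≤ 1 / 2) (hxt : ⟪x, e⟫ ≤ t) :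
    ⟪nu u x, ξ⟫ ≤ a * L + 2 * b * σ * t := by
  have hb0 : 0 < b := by rw [hb]; linarith
  have hee : ⟪e, e⟫ = 1 := by rw [real_inner_self_eq_norm_sq, he]; norm_num
  set x₀ : E3 := x - ⟪x, e⟫ • e with hx₀
  have hx₀e : ⟪x₀, e⟫ = 0 := by
    rw [hx₀, inner_sub_left, inner_smul_left, hee]
    simp
  have hx₀n : ‖x₀‖ ≤ 1 / 2 := by
    have h1 : ‖x₀‖ ^ 2 ≤ ‖x‖ ^ 2 := by
      have h2 : ‖x₀‖ ^ 2 = ‖x‖ ^ 2 - ⟪x, e⟫ ^ 2 := by
        rw [hx₀, norm_sub_sq_real, inner_smul_right, norm_smul, he, mul_one, Real.norm_eq_abs, sq_abs]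
        ring
      rw [h2]
      nlinarith [sq_nonneg (⟪x, e⟫ : ℝ)]
    exact (abs_le_of_sq_le_sq' h1 (norm_nonneg _)).2.trans hx2
  set K : Set E3 := closedBall x₀ (1 / 8) ∩ {y | ⟪y, e⟫ ≤ t} with hK
  set W : Set E3 := ball x₀ (1 / 8) ∩ {y | ⟪y, e⟫ < t} with hW
  have hKc : IsCompact K := by
    refine (isCompact_closedBall _ _).inter_right (isClosed_le ?_ continuous_const)
    fun_prop
  have hWo : IsOpen W := by
    refine isOpen_ball.inter (isOpen_lt ?_ continuous_const)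
    fun_prop
  have hWK : W ⊆ K := fun y hy => ⟨ball_subset_closedBall hy.1, (show ⟪y, e⟫ < t from hy.2).le⟩
  have hKn : ∀ y ∈ K, ‖y‖ ≤ 5 / 8 := by
    intro y hy
    have h1 : ‖y - x₀‖ ≤ 1 / 8 := by simpa [dist_eq_norm] using hy.1
    calc ‖y‖ = ‖x₀ + (y - x₀)‖ := by congr 1; abel
      _ ≤ ‖x₀‖ + ‖y - x₀‖ := norm_add_le _ _
      _ ≤ 5 / 8 := by linarith
  have hKO : K ⊆ ball (0 : E3) 1 := by
    intro y hy
    rw [mem_ball_zero_iff]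
    linarith [hKn y hy]
  have hze : ∀ y : E3, ⟪y - x₀, e⟫ = ⟪y, e⟫ := by
    intro y
    rw [inner_sub_left, hx₀e, sub_zero]
  -- bounds on K
  have hlow : ∀ y ∈ K, y ∈ closure {x | 0 < u x} → -σ ≤ ⟪y - x₀, e⟫ := by
    intro y hy hyc
    rw [hze]
    exact NLHor_lower hC hyc (by linarith [hKn y hy])
  have hup : ∀ y ∈ K, 0 ≤ u y ∧ u y ≤ t + σ := fun y hy =>
    ⟨h.nonneg y (hKO hy), NLHor_upper hC (by linarith [hKn y hy]) ht.le hy.2⟩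
  have hnu : ∀ y ∈ K, y ∈ closure {x | 0 < u x} → ‖nu u y‖ ≤ L := fun y hy hyc =>
    NLHor_norm_nu h hL hgrad (hKO hy) hyc
  have hhalf' : ∀ y ∈ K, y ∈ closure {x | 0 < u x} → 1 / 2 ≤ ⟪nu u y, e⟫ := fun y hy hyc =>
    hhalf y hyc (by linarith [hKn y hy]) hy.2
  have hPl : ∀ y ∈ K, y ∈ closure {x | 0 < u x} →
      ‖y - x₀‖ ^ 2 / 2 - 2 * t * L * ‖y - x₀‖ - 2 * t ^ 2 ≤ NLHor_P u x₀ e y := by
    intro y hy hyc
    refine NLHor_P_lower (s := ⟪y - x₀, e⟫) (w := ⟪y - x₀, nu u y⟫) (v := u y) (c := ⟪nu u y, e⟫)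
      ht hσt (hlow y hy hyc) ?_ (hup y hy).1 (hup y hy).2 (hhalf' y hy hyc) ?_ rfl
    · rw [hze]; exact hy.2
    · refine (abs_real_inner_le_norm _ _).trans ?_
      exact mul_le_mul_of_nonneg_left (hnu y hy hyc) (norm_nonneg _)
  have hus : ∀ y ∈ K, (4 * b * σ) * u y + u y ^ 2 ≤ 8 * b * t ^ 2 + 4 * t ^ 2 := by
    intro y hy
    obtain ⟨h1, h2⟩ := hup y hy
    have h3 : u y ≤ 2 * t := by linarith
    have h4 : (4 * b * σ) * u y ≤ (4 * b * t) * (2 * t) := by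
      refine mul_le_mul ?_ h3 h1 (by positivity)
      exact mul_le_mul_of_nonneg_left hσt (by positivity)
    have h5 : u y ^ 2 ≤ (2 * t) ^ 2 := pow_le_pow_left₀ h1 h3 2
    nlinarith
  -- G ≥ a / 4
  have hGa : ∀ y ∈ K, y ∈ closure {x | 0 < u x} → a / 4 ≤ NLHor_G u x₀ e a b (4 * b * σ) y := by
    intro y hy hyc
    have h1 := hPl y hy hyc
    have h2 : -(2 * L ^ 2 + 2) * t ^ 2 ≤ NLHor_P u x₀ e y := by
      nlinarith [sq_nonneg (‖y - x₀‖ - 2 * t * L)]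
    have h3 := hus y hy
    have h4 : a * (1 / 2) ≤ a * ⟪nu u y, e⟫ := mul_le_mul_of_nonneg_left (hhalf' y hy hyc) ha.le
    have h5 : b * (-(2 * L ^ 2 + 2) * t ^ 2) ≤ b * NLHor_P u x₀ e y :=
      mul_le_mul_of_nonneg_left h2 hb0.le
    unfold NLHor_G
    nlinarith
  have main := robinPrinciple h hKc hKO hWo hWK ξ (G := NLHor_G u x₀ e a b (4 * b * σ))
    ((NLHor_G_cont h x₀ e a b (4 * b * σ)).mono fun y hy => ⟨hKO hy.1, hy.2⟩) ?_ ?_ ?_ ?_ x ?_ hx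
  · -- conclusion
    refine main.trans ?_
    have hxx : x - x₀ = (⟪x, e⟫ : ℝ) • e := by rw [hx₀]; abel
    have hxK : x ∈ K := by
      refine ⟨?_, hxt⟩
      rw [mem_closedBall, dist_eq_norm, hxx, norm_smul, he, mul_one, Real.norm_eq_abs, abs_le]
      have := NLHor_lower hC hx (by linarith)
      exact ⟨by linarith, by linarith⟩
    have h1 := NLHor_lower hC hx (by linarith)
    obtain ⟨h2, h3⟩ := hup x hxK
    have h4 := hhalf' x hxK hx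
    have h5 : ⟪nu u x, e⟫ ≤ L := by
      refine (real_inner_le_norm _ _).trans ?_
      rw [he, mul_one]
      exact hnu x hxK hx
    have hPx : NLHor_P u x₀ e x = -(⟪x, e⟫ ^ 2 * ⟪nu u x, e⟫) - ⟪x, e⟫ * u x := by
      unfold NLHor_P
      rw [hxx, norm_smul, he, mul_one, Real.norm_eq_abs, sq_abs, inner_smul_left, hee,
        inner_smul_left, real_inner_comm (nu u x) e]
      simp
      ring
    have h6 : -(⟪x, e⟫ * u x) ≤ 2 * σ * t := by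
      have h7 : -⟪x, e⟫ * u x ≤ σ * u x := mul_le_mul_of_nonneg_right (by linarith) h2
      have h8 : σ * u x ≤ σ * (2 * t) := mul_le_mul_of_nonneg_left (by linarith) hσ.le
      linarith
    have h9 : NLHor_P u x₀ e x ≤ 2 * σ * t := by
      rw [hPx]
      have : 0 ≤ ⟪x, e⟫ ^ 2 * ⟪nu u x, e⟫ := mul_nonneg (sq_nonneg _) (by linarith)
      linarith
    have h10 : b * NLHor_P u x₀ e x ≤ b * (2 * σ * t) := mul_le_mul_of_nonneg_left h9 hb0.le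
    have h11 : a * ⟪nu u x, e⟫ ≤ a * L := mul_le_mul_of_nonneg_left h5 ha.le
    have h12 : 0 ≤ (4 * b * σ) * u x := by positivity
    unfold NLHor_G
    nlinarith [sq_nonneg (u x)]
  · -- interior
    intro y hy hyu
    obtain ⟨h1, h2⟩ := NLHor_G_lap h x₀ e a b (4 * b * σ) (hKO (hWK hy)) hyu
    refine ⟨h1, ?_⟩
    rw [h2]
    have h3 := hhalf' y (hWK hy) (subset_closure hyu)
    rw [nu_of_pos h (hKO (hWK hy)) hyu] at h3
    have h4 : gradient u y ≠ 0 := by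
      intro h0
      rw [h0, inner_zero_left] at h3
      norm_num at h3
    have h5 : 0 < ‖gradient u y‖ := norm_pos_iff.mpr h4
    nlinarith [pow_pos h5 2]
  · -- positivity
    intro y hy hyc
    linarith [hGa y hy hyc]
  · -- Robin
    intro p hp hF lam hlam
    refine ⟨_, NLHor_G_robin h x₀ e a b (4 * b * σ) (hKO (hWK hp)) hF lam hlam, ?_⟩
    have h1 := hlow p (hWK hp) hF.2
    nlinarith [mul_pos hb0 hσ, mul_le_mul_of_nonneg_left h1 hb0.le]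
  · -- boundary
    intro y hy hyc
    have hyK : y ∈ K := hy.1
    rcases eq_or_lt_of_le (show ⟪y, e⟫ ≤ t from hyK.2) with h1 | h1
    · -- top
      have h2 := htop y (by linarith [hKn y hyK]) h1.ge
      have h3 : ⟪nu u y, ξ⟫ = ⟪gradient u y - e, ξ⟫ := by
        rw [nu_of_pos h (hKO hyK) h2.1, inner_sub_left, hξe, sub_zero]
      rw [h3]
      refine ((real_inner_le_norm _ _).trans ?_).trans (hGa y hyK hyc)
      rw [hξ, mul_one]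
      exact h2.2
    · -- lateral boundary
      have h2 : ‖y - x₀‖ = 1 / 8 := by
        have h3 : ‖y - x₀‖ ≤ 1 / 8 := by simpa [dist_eq_norm] using hyK.1
        refine le_antisymm h3 (not_lt.mp fun h4 => hy.2 ⟨?_, h1⟩)
        rw [mem_ball, dist_eq_norm]
        exact h4
      have h3 := hPl y hyK hyc
      rw [h2] at h3
      have h4 : 1 / 256 ≤ NLHor_P u x₀ e y := by nlinarith
      have h5 : b * (1 / 256) ≤ b * NLHor_P u x₀ e y := mul_le_mul_of_nonneg_left h4 hb0.le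
      have h6 := hus y hyK
      have h7 : 0 ≤ a * ⟪nu u y, e⟫ := mul_nonneg ha.le (by linarith [hhalf' y hyK hyc])
      have h8 : ⟪nu u y, ξ⟫ ≤ L := by
        refine (real_inner_le_norm _ _).trans ?_
        rw [hξ, mul_one]
        exact hnu y hyK hyc
      refine h8.trans ?_
      unfold NLHor_G
      rw [hb] at h5 h6 hA2 ⊢
      nlinarith
  · -- x ∈ K
    refine ⟨?_, hxt⟩
    have hxx : x - x₀ = (⟪x, e⟫ : ℝ) • e := by rw [hx₀]; abel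
    rw [mem_closedBall, dist_eq_norm, hxx, norm_smul, he, mul_one, Real.norm_eq_abs, abs_le]
    have := NLHor_lower hC hx (by linarith)
    exact ⟨by linarith, by linarith⟩

theorem nl_horiz : ∀ L : ℝ, 1 ≤ L → ∀ η : ℝ, 0 < η → ∃ t₂ : ℝ, 0 < t₂ ∧ ∀ t : ℝ, 0 < t → t ≤ t₂ →
    ∃ σ₀ : ℝ, 0 < σ₀ ∧ ∀ (σ : ℝ) (u : E3 → ℝ) (e : E3), 0 < σ → σ ≤ σ₀ → ‖e‖ = 1 →
    OnePhase (ball 0 1) u → (∀ x ∈ ball (0 : E3) 1, 0 < u x → ‖gradient u x‖ ≤ L) →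
    CloseAt u 0 1 e σ →
    (∀ x ∈ closure {x | 0 < u x}, ‖x‖ ≤ 3 / 4 → ⟪x, e⟫ ≤ t → 1 / 2 ≤ ⟪nu u x, e⟫) →
    ∀ x ∈ closure {x | 0 < u x}, ‖x‖ ≤ 1 / 2 → ⟪x, e⟫ ≤ t →
      ‖nu u x - ⟪nu u x, e⟫ • e‖ ≤ η := by
  intro L hL η hη
  have hL0 : 0 < L := by linarith
  set a : ℝ := η / (4 * L) with ha
  have ha0 : 0 < a := by positivity
  set b : ℝ := 512 * L with hb
  have hb0 : 0 < b := by positivity
  set D : ℝ := b * (2 * L ^ 2 + 2) + 8 * b + 4 with hD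
  have hD0 : 0 < D := by positivity
  -- choice of t₂
  set t₂ : ℝ := min (min (1 / 8) (1 / (512 * L))) (min (1 / 32) (min (min 1 (a / (4 * D))) (1 / D))) with ht₂
  have ht₂0 : 0 < t₂ := by positivity
  refine ⟨t₂, ht₂0, ?_⟩
  intro t ht htt
  have h1 : t ≤ 1 / 8 := htt.trans ((min_le_left _ _).trans (min_le_left _ _))
  have h2 : t ≤ 1 / (512 * L) := htt.trans ((min_le_left _ _).trans (min_le_right _ _))
  have h3 : t ≤ 1 / 32 := htt.trans ((min_le_right _ _).trans (min_le_left _ _))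
  have h4 : t ≤ 1 := by linarith
  have h5 : t ≤ a / (4 * D) := htt.trans ((min_le_right _ _).trans ((min_le_right _ _).trans
    ((min_le_left _ _).trans (min_le_right _ _))))
  have h6 : t ≤ 1 / D := htt.trans ((min_le_right _ _).trans ((min_le_right _ _).trans
    (min_le_right _ _)))
  have h2' : t * L ≤ 1 / 512 := by
    rw [le_div_iff₀ (by positivity)] at h2
    rw [le_div_iff₀ (by norm_num)]
    linarith
  have hP : t * L / 4 + 2 * t ^ 2 ≤ 1 / 256 := by nlinarith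
  have hDt : D * t ^ 2 ≤ a / 4 := by
    rw [le_div_iff₀ (by positivity)] at h5
    have h7 : t ^ 2 ≤ t := by nlinarith
    have h8 : D * t ^ 2 ≤ D * t := mul_le_mul_of_nonneg_left h7 hD0.le
    linarith
  have hDt2 : D * t ^ 2 ≤ 1 := by
    rw [le_div_iff₀ (by positivity)] at h6
    have h7 : t ^ 2 ≤ t := by nlinarith
    have h8 : D * t ^ 2 ≤ D * t := mul_le_mul_of_nonneg_left h7 hD0.le
    linarith
  obtain ⟨σ₁, hσ₁, htop⟩ := nl_top t ht h1 (a / 4) (by positivity)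
  set σ₀ : ℝ := min (min σ₁ t) (η / (4 * b * t)) with hσ₀
  refine ⟨σ₀, by positivity, ?_⟩
  intro σ u e hσ hσσ he h hgrad hC hhalf x hx hx2 hxt
  have hs1 : σ ≤ σ₁ := hσσ.trans ((min_le_left _ _).trans (min_le_left _ _))
  have hs2 : σ ≤ t := hσσ.trans ((min_le_left _ _).trans (min_le_right _ _))
  have hs3 : σ ≤ η / (4 * b * t) := hσσ.trans (min_le_right _ _)
  have hs3' : 4 * b * t * σ ≤ η := by
    rw [le_div_iff₀ (by positivity)] at hs3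
    linarith
  set v : E3 := nu u x - (⟪nu u x, e⟫ : ℝ) • e with hv
  rcases eq_or_ne v 0 with h0 | h0
  · rw [h0, norm_zero]; exact hη.le
  have hvn : 0 < ‖v‖ := norm_pos_iff.mpr h0
  have hee : ⟪e, e⟫ = 1 := by rw [real_inner_self_eq_norm_sq, he]; norm_num
  have hev : ⟪e, v⟫ = 0 := by
    rw [hv, inner_sub_right, inner_smul_right, hee, real_inner_comm]
    ring
  set ξ : E3 := (‖v‖⁻¹ : ℝ) • v with hξ
  have hξn : ‖ξ‖ = 1 := by
    rw [hξ, norm_smul, norm_inv, norm_norm, inv_mul_cancel₀ hvn.ne']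
  have hξe : ⟪e, ξ⟫ = 0 := by rw [hξ, inner_smul_right, hev, mul_zero]
  have hmain := NLHor_core hL ha0 hb ht h1 hσ hs2 he hξn hξe h hgrad hC hhalf
    (fun y hy hyt => htop σ u e hs1 he h hC y hy hyt) hP
    (by
      have : b * (2 * L ^ 2 + 2) * t ^ 2 + 8 * b * t ^ 2 + 4 * t ^ 2 = D * t ^ 2 := by
        rw [hD]; ring
      rw [this]; exact hDt)
    (by
      have h7 : 0 ≤ b * (2 * L ^ 2 + 2) * t ^ 2 := by positivity
      have : b * (2 * L ^ 2 + 2) * t ^ 2 + 8 * b * t ^ 2 + 4 * t ^ 2 = D * t ^ 2 := by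
        rw [hD]; ring
      linarith)
    hx hx2 hxt
  have h7 : ⟪nu u x, ξ⟫ = ‖v‖ := by
    have h8 : nu u x = v + (⟪nu u x, e⟫ : ℝ) • e := by rw [hv]; abel
    rw [h8, inner_add_left, inner_smul_left, hξe, mul_zero, add_zero, hξ, inner_smul_right,
      real_inner_self_eq_norm_sq]
    field_simp
  rw [h7] at hmain
  have h8 : a * L = η / 4 := by rw [ha]; field_simp
  rw [h8] at hmain
  nlinarith

end Pool.Agent.H32.Flat
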