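import Pool.Agent.H32.Flat.NLVert
import Pool.Agent.H32.Flat.NLHor

/-!
# Module N3: normals lemma at unit scale

(1) `nl_vert` with `θ = 1/4`, `r = 7/8`, `η = 1/4` (`⟪nu p,e⟫ ≤ ‖nu p‖ = 1` at `FB` points): `⟪nu,e⟫ ≥ 1/2`
for `‖x‖ ≤ 13/16`, `⟪x,e⟫ ≤ t`.  (2) `nl_horiz`: horizontal part `≤ η'` for `‖x‖ ≤ 1/2`, `⟪x,e⟫ ≤ t`.
(3) at `FB` points `‖nu‖ = 1`, so `|⟪nu,e⟫ - 1| ≤ η'`; `nl_vert` again with `θ = η'`, `r = 1/2`:
`|⟪nu,e⟫ - 1| ≤ 2η'` for `‖x‖ ≤ 7/16`, `⟪x,e⟫ ≤ t`.  (4) `⟪x,e⟫ ≥ t`: `nl_top` (`nu = gradient u` there).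
-/

open Set Metric MeasureTheory Filter Topology InnerProductSpace
open scoped Laplacian Gradient RealInnerProductSpace

namespace Pool.Agent.H32.Flat

theorem nl : ∀ L : ℝ, 1 ≤ L → ∀ η : ℝ, 0 < η → ∃ σ : ℝ, 0 < σ ∧ ∀ (u : E3 → ℝ) (e : E3), ‖e‖ = 1 →
    OnePhase (ball 0 1) u → (∀ x ∈ ball (0 : E3) 1, 0 < u x → ‖gradient u x‖ ≤ L) →
    CloseAt u 0 1 e σ → (∀ p ∈ ball (0 : E3) 1, FB u p → 3 / 4 ≤ ⟪nu u p, e⟫) →
    ∀ x ∈ closure {x | 0 < u x}, ‖x‖ ≤ 1 / 4 → ‖nu u x - e‖ ≤ η := by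
  intro L hL η hη
  set η' : ℝ := min (η / 4) (1 / 4) with hη'
  have h0 : 0 < η' := lt_min (by positivity) (by norm_num)
  have h1 : η' ≤ η / 4 := min_le_left _ _
  obtain ⟨t₁, ht₁, hv₁⟩ := nl_vert L hL (1 / 4) (by norm_num)
  obtain ⟨t₂, ht₂, hho⟩ := nl_horiz L hL η' h0
  obtain ⟨t₃, ht₃, hv₃⟩ := nl_vert L hL η' h0
  obtain ⟨t, ht, ht1, ht2, ht3, ht4⟩ : ∃ t : ℝ, 0 < t ∧ t ≤ t₁ ∧ t ≤ t₂ ∧ t ≤ t₃ ∧ t ≤ 1 / 8 := by
    refine ⟨min (min t₁ t₂) (min t₃ (1 / 8)), by positivity, ?_, ?_, ?_, ?_⟩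
    · exact (min_le_left _ _).trans (min_le_left _ _)
    · exact (min_le_left _ _).trans (min_le_right _ _)
    · exact (min_le_right _ _).trans (min_le_left _ _)
    · exact (min_le_right _ _).trans (min_le_right _ _)
  obtain ⟨s₁, hs₁, hv₁⟩ := hv₁ t ht ht1
  obtain ⟨s₂, hs₂, hho⟩ := hho t ht ht2
  obtain ⟨s₃, hs₃, hv₃⟩ := hv₃ t ht ht3
  obtain ⟨s₄, hs₄, htop⟩ := nl_top t ht ht4 η hη
  obtain ⟨σ, hσ, hσ1, hσ2, hσ3, hσ4, hσ5⟩ : ∃ σ : ℝ, 0 < σ ∧ σ ≤ s₁ ∧ σ ≤ s₂ ∧ σ ≤ s₃ ∧ σ ≤ s₄ ∧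
      σ ≤ t := by
    refine ⟨min (min (min s₁ s₂) (min s₃ s₄)) t, by positivity, ?_, ?_, ?_, ?_, ?_⟩
    · exact (min_le_left _ _).trans ((min_le_left _ _).trans (min_le_left _ _))
    · exact (min_le_left _ _).trans ((min_le_left _ _).trans (min_le_right _ _))
    · exact (min_le_left _ _).trans ((min_le_right _ _).trans (min_le_left _ _))
    · exact (min_le_left _ _).trans ((min_le_right _ _).trans (min_le_right _ _))
    · exact min_le_right _ _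
  refine ⟨σ, hσ, fun u e he hu hgr hcl hfb x hx hx4 => ?_⟩
  have hball : ∀ y : E3, ‖y‖ ≤ 7 / 8 → y ∈ ball (0 : E3) 1 := fun y hy => by
    rw [mem_ball_zero_iff]; linarith
  -- values at the free boundary points
  have hle : ∀ p : E3, ‖p‖ ≤ 7 / 8 → FB u p → ⟪nu u p, e⟫ ≤ 1 := fun p hp hF => by
    have := real_inner_le_norm (nu u p) e
    rwa [norm_nu_of_FB hu (hball p hp) hF, he, one_mul] at this
  have hA : ∀ x ∈ closure {x | 0 < u x}, ‖x‖ ≤ 3 / 4 → ⟪x, e⟫ ≤ t → 1 / 2 ≤ ⟪nu u x, e⟫ := by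
    intro y hy hy1 hy2
    have h := hv₁ σ (1 / 4) (7 / 8) u e hσ1 (by norm_num) le_rfl he hu hgr hcl
      (fun p hp hF => by
        have h2 := hle p hp hF
        have h3 := hfb p (hball p hp) hF
        rw [abs_le]; constructor <;> linarith) y hy (by linarith) hy2
    rw [abs_le] at h; linarith
  have hB := hho σ u e hσ hσ2 he hu hgr hcl hA
  have hC : ∀ p : E3, ‖p‖ ≤ 1 / 2 → FB u p → |⟪nu u p, e⟫ - 1| ≤ η' := by
    intro p hp hF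
    have hp8 : ‖p‖ ≤ 7 / 8 := by linarith
    have hpb := hball p hp8
    have hpe : ⟪p, e⟫ ≤ t := by
      have h := (hcl p hpb).1
      rw [hF.1, sub_zero, zero_sub, abs_neg, mul_one] at h
      have h2 := le_max_left ⟪p, e⟫ 0
      have h3 := le_abs_self (max ⟪p, e⟫ 0)
      linarith
    have h2 := hB p hF.2 hp hpe
    have h3 := norm_nu_of_FB hu hpb hF
    have h4 := hle p hp8 hF
    have h5 := hfb p hpb hF
    have h6 : ‖nu u p‖ ≤ ‖nu u p - ⟪nu u p, e⟫ • e‖ + ‖⟪nu u p, e⟫ • e‖ := by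
      simpa using norm_add_le (nu u p - ⟪nu u p, e⟫ • e) (⟪nu u p, e⟫ • e)
    rw [norm_smul, he, mul_one, Real.norm_of_nonneg (by linarith), h3] at h6
    rw [abs_le]; constructor <;> linarith
  by_cases hxt : ⟪x, e⟫ ≤ t
  · have hD := hv₃ σ η' (1 / 2) u e hσ3 h0.le (by norm_num) he hu hgr hcl hC x hx (by linarith) hxt
    have hE := hB x hx (by linarith) hxt
    have h6 : nu u x - e = (nu u x - ⟪nu u x, e⟫ • e) + (⟪nu u x, e⟫ - 1) • e := by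
      rw [sub_smul, one_smul]; abel
    rw [h6]
    refine (norm_add_le _ _).trans ?_
    rw [norm_smul, he, mul_one, Real.norm_eq_abs]
    linarith
  · obtain ⟨h7, h8⟩ := htop σ u e hσ4 he hu hcl x (by linarith) (not_le.mp hxt).le
    rw [nu_of_pos hu (hball x (by linarith)) h7]
    exact h8

end Pool.Agent.H32.Flat
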