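import Pool.Agent.H32.Flat.Harnack
import Pool.Agent.H32.Flat.Nu2

/-!
# Module N0: gradient closeness away from the free boundary

For `t ≤ ⟪x,e⟫`, `‖x‖ ≤ 7/8`, `t ≤ 1/8`: `ball x (t/2) ⊆ ball 0 1 ∩ {⟪·,e⟫ > σ} ⊆ {0 < u}`, there
`|u - ⟪·,e⟫| ≤ σ`, and `u - ⟪·,e⟫` is harmonic: `grad_bound` gives `‖∇u x - e‖ ≤ 2Cσ/t`.
-/

open Set Metric MeasureTheory Filter Topology InnerProductSpace
open scoped Laplacian Gradient RealInnerProductSpace

namespace Pool.Agent.H32.Flat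

/-- linear functionals are harmonic -/
theorem NLTop_harmonic_inner (e x : E3) : HarmonicAt (fun y : E3 => ⟪y, e⟫) x := by
  have h1 : (fun y : E3 => (⟪y, e⟫ : ℝ)) = fun y => innerSL ℝ e y := by
    funext y
    rw [innerSL_apply_apply, real_inner_comm]
  rw [h1]
  refine ⟨(innerSL ℝ e).contDiff.contDiffAt, Filter.Eventually.of_forall fun y => ?_⟩
  rw [laplacian_eq_iteratedFDeriv_stdOrthonormalBasis]
  simp only [iteratedFDeriv_two_apply]
  have h2 : fderiv ℝ (fun y : E3 => innerSL ℝ e y) = fun _ => innerSL ℝ e := by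
    funext z
    exact (innerSL ℝ e).fderiv
  rw [h2]
  simp

theorem NLTop_hasGradient_inner (e x : E3) : HasGradientAt (fun y : E3 => ⟪y, e⟫) e x := by
  have h1 : (fun y : E3 => (⟪y, e⟫ : ℝ)) = fun y => innerSL ℝ e y := by
    funext y
    rw [innerSL_apply_apply, real_inner_comm]
  rw [h1, hasGradientAt_iff_hasFDerivAt]
  exact (innerSL ℝ e).hasFDerivAt

theorem nl_top : ∀ t : ℝ, 0 < t → t ≤ 1 / 8 → ∀ η : ℝ, 0 < η → ∃ σ₀ : ℝ, 0 < σ₀ ∧
    ∀ (σ : ℝ) (u : E3 → ℝ) (e : E3), σ ≤ σ₀ → ‖e‖ = 1 → OnePhase (ball 0 1) u →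
    CloseAt u 0 1 e σ → ∀ x : E3, ‖x‖ ≤ 7 / 8 → t ≤ ⟪x, e⟫ → 0 < u x ∧ ‖gradient u x - e‖ ≤ η := by
  intro t ht ht8 η hη
  obtain ⟨C, hC1, hC⟩ := grad_bound
  refine ⟨min (t / 4) (η * t / (2 * C)), by positivity, ?_⟩
  intro σ u e hσ he h hcl x hx hxt
  have hσ1 : σ ≤ t / 4 := hσ.trans (min_le_left _ _)
  have hσ2 : σ ≤ η * t / (2 * C) := hσ.trans (min_le_right _ _)
  -- points of the ball
  have hball : ∀ y ∈ ball x (t / 2), y ∈ ball (0 : E3) 1 ∧ t / 2 < ⟪y, e⟫ := by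
    intro y hy
    rw [mem_ball, dist_eq_norm] at hy
    constructor
    · rw [mem_ball_zero_iff]
      calc ‖y‖ = ‖x + (y - x)‖ := by congr 1; abel
        _ ≤ ‖x‖ + ‖y - x‖ := norm_add_le _ _
        _ < 1 := by linarith
    · have h1 : |⟪y - x, e⟫| ≤ ‖y - x‖ * ‖e‖ := abs_real_inner_le_norm _ _
      rw [he, mul_one] at h1
      have h2 : ⟪y, e⟫ = ⟪x, e⟫ + ⟪y - x, e⟫ := by rw [inner_sub_left]; ring
      have h3 := (abs_le.mp h1).1
      rw [h2]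
      linarith
  have hpos : ∀ y ∈ ball x (t / 2), 0 < u y ∧ |u y - ⟪y, e⟫| ≤ σ := by
    intro y hy
    obtain ⟨h1, h2⟩ := hball y hy
    obtain ⟨h3, h4, -⟩ := hcl y h1
    rw [sub_zero, mul_one] at h3 h4
    refine ⟨h4 (by linarith), ?_⟩
    rwa [max_eq_left (by linarith)] at h3
  have hxb : x ∈ ball x (t / 2) := mem_ball_self (by linarith)
  refine ⟨(hpos x hxb).1, ?_⟩
  have hharm : ∀ y ∈ ball x (t / 2), HarmonicAt (u - fun y : E3 => (⟪y, e⟫ : ℝ)) y := fun y hy =>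
    (h.harm y (hball y hy).1 (hpos y hy).1).sub (NLTop_harmonic_inner e y)
  have h5 := hC (u - fun y : E3 => (⟪y, e⟫ : ℝ)) x (t / 2) σ (by linarith) hharm
    (fun y hy => (hpos y hy).2)
  have h6 : HasGradientAt u (gradient u x) x :=
    ((h.harm x (hball x hxb).1 (hpos x hxb).1).1.differentiableAt (by norm_num)).hasGradientAt
  have h7 : HasGradientAt (u - fun y : E3 => (⟪y, e⟫ : ℝ)) (gradient u x - e) x := by
    have h8 := h6.hasFDerivAt.sub (NLTop_hasGradient_inner e x).hasFDerivAt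
    rw [hasGradientAt_iff_hasFDerivAt, map_sub]
    exact h8
  rw [h7.gradient] at h5
  refine h5.trans ?_
  rw [div_le_iff₀ (by linarith)]
  rw [le_div_iff₀ (by positivity)] at hσ2
  nlinarith

end Pool.Agent.H32.Flat
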