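import Pool.Agent.H32.Flat.NLTop
import Pool.Agent.H32.Flat.MP
import Pool.Agent.H32.Flat.Jac

/-!
# Module N1: the vertical derivative near the free boundary

Fix `x ∈ closure {0<u}`, `‖x‖ ≤ r - 1/16`, `⟪x,e⟫ ≤ t` and let `x₀ = x - ⟪x,e⟫ e`, `z = · - x₀`, `R = 1/32`,
`K = closedBall x₀ R ∩ {⟪z,e⟫ ≤ t}`, `W` its interior version.  (`-2σ ≤ ⟪·,e⟫` on `closure {0 < u}`.)
Apply `minPrinciple` to `±(⟪nu u ·, e⟫ - 1) + θ + η/2 + (L+1) q/R²` with the harmonic polynomial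
`q = ‖z‖² - 3 ⟪z,e⟫² + 3t²` (`q ≥ 0` on `K ∩ closure {0 < u}`, `q ≥ R²` where `‖z‖ = R`):
on `FB` points use the hypothesis, on `⟪z,e⟫ = t` use `nl_top`, on `‖z‖ = R` use `|⟪nu,e⟫| ≤ L`.
At `x`: `q ≤ 3t²`, so the bound is `θ + η/2 + 3(L+1)t²/R² ≤ θ + η` for `t ≤ t₁(L, η)`.
-/

open Set Metric MeasureTheory Filter Topology InnerProductSpace
open scoped Laplacian Gradient RealInnerProductSpace

namespace Pool.Agent.H32.Flat

theorem NLVert_lower {u : E3 → ℝ} {e : E3} {σ : ℝ} (hC : CloseAt u 0 1 e σ) {y : E3}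
    (hy : y ∈ closure {x | 0 < u x}) (hy1 : ‖y‖ < 1) : -σ ≤ ⟪y, e⟫ := by
  by_contra hlt
  push Not at hlt
  have hV : IsOpen (ball (0 : E3) 1 ∩ {z : E3 | ⟪z, e⟫ < -σ}) := by
    refine isOpen_ball.inter (isOpen_lt ?_ continuous_const)
    fun_prop
  rw [_root_.mem_closure_iff] at hy
  obtain ⟨z, ⟨hz1, hz2⟩, hz3⟩ := hy _ hV ⟨by simpa using hy1, hlt⟩
  have h1 := (hC z hz1).2.2 (by simpa using hz2)
  have hz4 : 0 < u z := hz3
  rw [h1] at hz4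
  exact lt_irrefl _ hz4

theorem NLVert_norm_nu {O : Set E3} {u : E3 → ℝ} (h : OnePhase O u) {L : ℝ} (hL : 1 ≤ L)
    (hgrad : ∀ x ∈ O, 0 < u x → ‖gradient u x‖ ≤ L) {y : E3} (hy : y ∈ O)
    (hyc : y ∈ closure {x | 0 < u x}) : ‖nu u y‖ ≤ L := by
  rcases (h.nonneg y hy).lt_or_eq with h1 | h1
  · rw [nu_of_pos h hy h1]
    exact hgrad y hy h1
  · rw [norm_nu_of_FB h hy ⟨h1.symm, hyc⟩]
    exact hL

/-- the harmonic polynomial -/
noncomputable def NLVert_q (x₀ e : E3) (t : ℝ) (y : E3) : ℝ :=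
  ‖y - x₀‖ ^ 2 - 3 * ⟪y - x₀, e⟫ ^ 2 + 3 * t ^ 2

theorem NLVert_lap3 {f g k : E3 → ℝ} {y : E3} (hf : ContDiffAt ℝ 2 f y) (hg : ContDiffAt ℝ 2 g y)
    (hk : ContDiffAt ℝ 2 k y) : Δ (f - g + k) y = Δ f y - Δ g y + Δ k y := by
  have h1 : ContDiffAt ℝ 2 (f - g) y := hf.sub hg
  rw [h1.laplacian_add hk, hf.laplacian_sub hg]

theorem NLVert_q_harm (x₀ e : E3) (he : ‖e‖ = 1) (t : ℝ) (x : E3) :
    HarmonicAt (NLVert_q x₀ e t) x := by
  -- the linear function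
  have hl : ∀ y : E3, HarmonicAt (fun y : E3 => (⟪y - x₀, e⟫ : ℝ)) y := by
    intro y
    have h1 : (fun y : E3 => (⟪y - x₀, e⟫ : ℝ)) = (fun y : E3 => (⟪y, e⟫ : ℝ)) - fun _ => ⟪x₀, e⟫ := by
      funext z
      rw [Pi.sub_apply, inner_sub_left]
    rw [h1]
    exact (NLTop_harmonic_inner e y).sub (harmonicAt_const _)
  have hg : ∀ y : E3, gradient (fun y : E3 => (⟪y - x₀, e⟫ : ℝ)) y = e := by
    intro y
    have h1 : (fun y : E3 => (⟪y - x₀, e⟫ : ℝ)) = fun y : E3 => (⟪y, e⟫ : ℝ) - ⟪x₀, e⟫ := by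
      funext z
      rw [inner_sub_left]
    rw [h1]
    apply HasGradientAt.gradient
    rw [hasGradientAt_iff_hasFDerivAt]
    exact (NLTop_hasGradient_inner e y).hasFDerivAt.sub_const _
  have hn : ∀ y : E3, ContDiffAt ℝ 2 (fun y : E3 => ‖y - x₀‖ ^ 2) y := by
    intro y
    exact ((contDiff_id.sub contDiff_const).norm_sq ℝ).contDiffAt
  have hnl : ∀ y : E3, Δ (fun y : E3 => ‖y - x₀‖ ^ 2) y = 6 := by
    intro y
    have h1 : (fun y : E3 => ‖y - x₀‖ ^ 2) =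
        (fun y : E3 => ‖y‖ ^ 2) - ((2 : ℝ) • fun y : E3 => (⟪y, x₀⟫ : ℝ)) + fun _ => ‖x₀‖ ^ 2 := by
      funext z
      rw [norm_sub_sq_real]
      simp
    have h2 : ContDiffAt ℝ 2 (fun y : E3 => ‖y‖ ^ 2) y := (contDiff_id.norm_sq ℝ).contDiffAt
    have h3 : ContDiffAt ℝ 2 ((2 : ℝ) • fun y : E3 => (⟪y, x₀⟫ : ℝ)) y :=
      ((NLTop_harmonic_inner x₀ y).const_smul (c := (2 : ℝ))).1
    rw [h1, NLVert_lap3 h2 h3 contDiffAt_const, laplacian_norm_sq,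
      ((NLTop_harmonic_inner x₀ y).const_smul (c := (2 : ℝ))).2.eq_of_nhds]
    simp
  have hs : ∀ y : E3, ContDiffAt ℝ 2 (fun y : E3 => (⟪y - x₀, e⟫ : ℝ) ^ 2) y := fun y => (hl y).1.pow 2
  have hsl : ∀ y : E3, Δ (fun y : E3 => (⟪y - x₀, e⟫ : ℝ) ^ 2) y = 2 := by
    intro y
    rw [laplacian_sq' (hl y), hg, he]
    norm_num
  have heq : NLVert_q x₀ e t = (fun y : E3 => ‖y - x₀‖ ^ 2) -
      ((3 : ℝ) • fun y : E3 => (⟪y - x₀, e⟫ : ℝ) ^ 2) + fun _ => 3 * t ^ 2 := by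
    funext y
    simp [NLVert_q]
  have hc : ∀ y : E3, ContDiffAt ℝ 2 ((3 : ℝ) • fun y : E3 => (⟪y - x₀, e⟫ : ℝ) ^ 2) y := fun y =>
    (hs y).const_smul (3 : ℝ)
  rw [heq]
  refine ⟨((hn x).sub (hc x)).add contDiffAt_const, Filter.Eventually.of_forall fun y => ?_⟩
  rw [NLVert_lap3 (hn y) (hc y) contDiffAt_const, hnl, laplacian_smul _ (hs y), hsl]
  simp
  norm_num

theorem NLVert_core {L t σ θ r η c s : ℝ} {u : E3 → ℝ} {e : E3} (hL : 1 ≤ L) (hs : s = 1 ∨ s = -1)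
    (ht : 0 < t) (ht8 : t ≤ 1 / 32) (hσt : σ ≤ t) (he : ‖e‖ = 1) (hθ : 0 ≤ θ)
    (hr : r ≤ 7 / 8) (hη : 0 < η) (hc : c = 1024 * (L + 1))
    (h : OnePhase (ball 0 1) u) (hgrad : ∀ x ∈ ball (0 : E3) 1, 0 < u x → ‖gradient u x‖ ≤ L)
    (hC : CloseAt u 0 1 e σ)
    (hF : ∀ p : E3, ‖p‖ ≤ r → FB u p → |⟪nu u p, e⟫ - 1| ≤ θ)
    (htop : ∀ x : E3, ‖x‖ ≤ 7 / 8 → t ≤ ⟪x, e⟫ → 0 < u x ∧ ‖gradient u x - e‖ ≤ η / 2)
    {x : E3} (hx : x ∈ closure {x | 0 < u x}) (hx2 : ‖x‖ ≤ r - 1 / 16) (hxt : ⟪x, e⟫ ≤ t) :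
    0 ≤ s * (⟪nu u x, e⟫ - 1) + (θ + η / 2) + c * (3 * t ^ 2) := by
  have hc0 : 0 < c := by rw [hc]; linarith
  have hee : ⟪e, e⟫ = 1 := by rw [real_inner_self_eq_norm_sq, he]; norm_num
  have hsabs : |s| = 1 := by rcases hs with h | h <;> rw [h] <;> simp
  have hsmul : ∀ v : ℝ, -|v| ≤ s * v := by
    intro v
    have : |s * v| = |v| := by rw [abs_mul, hsabs, one_mul]
    rw [← this]
    exact neg_abs_le _
  set x₀ : E3 := x - ⟪x, e⟫ • e with hx₀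
  have hx₀e : ⟪x₀, e⟫ = 0 := by
    rw [hx₀, inner_sub_left, inner_smul_left, hee]
    simp
  have hx₀n : ‖x₀‖ ≤ r - 1 / 16 := by
    have h1 : ‖x₀‖ ^ 2 ≤ ‖x‖ ^ 2 := by
      have h2 : ‖x₀‖ ^ 2 = ‖x‖ ^ 2 - ⟪x, e⟫ ^ 2 := by
        rw [hx₀, norm_sub_sq_real, inner_smul_right, norm_smul, he, mul_one, Real.norm_eq_abs, sq_abs]
        ring
      rw [h2]
      nlinarith [sq_nonneg (⟪x, e⟫ : ℝ)]
    exact (abs_le_of_sq_le_sq' h1 (norm_nonneg _)).2.trans hx2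
  set K : Set E3 := closedBall x₀ (1 / 32) ∩ {y | ⟪y, e⟫ ≤ t} with hK
  set W : Set E3 := ball x₀ (1 / 32) ∩ {y | ⟪y, e⟫ < t} with hW
  have hKc : IsCompact K := by
    refine (isCompact_closedBall _ _).inter_right (isClosed_le ?_ continuous_const)
    fun_prop
  have hWo : IsOpen W := by
    refine isOpen_ball.inter (isOpen_lt ?_ continuous_const)
    fun_prop
  have hWK : W ⊆ K := fun y hy => ⟨ball_subset_closedBall hy.1, (show ⟪y, e⟫ < t from hy.2).le⟩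
  have hKn : ∀ y ∈ K, ‖y‖ ≤ r - 1 / 32 := by
    intro y hy
    have h1 : ‖y - x₀‖ ≤ 1 / 32 := by simpa [dist_eq_norm] using hy.1
    calc ‖y‖ = ‖x₀ + (y - x₀)‖ := by congr 1; abel
      _ ≤ ‖x₀‖ + ‖y - x₀‖ := norm_add_le _ _
      _ ≤ r - 1 / 32 := by linarith
  have hKO : K ⊆ ball (0 : E3) 1 := by
    intro y hy
    rw [mem_ball_zero_iff]
    linarith [hKn y hy]
  have hze : ∀ y : E3, ⟪y - x₀, e⟫ = ⟪y, e⟫ := by
    intro y
    rw [inner_sub_left, hx₀e, sub_zero]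
  have hlow : ∀ y ∈ K, y ∈ closure {x | 0 < u x} → -σ ≤ ⟪y - x₀, e⟫ := by
    intro y hy hyc
    rw [hze]
    exact NLVert_lower hC hyc (by linarith [hKn y hy])
  have hq : ∀ y ∈ K, y ∈ closure {x | 0 < u x} → ‖y - x₀‖ ^ 2 ≤ NLVert_q x₀ e t y := by
    intro y hy hyc
    have h1 := hlow y hy hyc
    have h2 : ⟪y - x₀, e⟫ ≤ t := by rw [hze]; exact hy.2
    have h3 : ⟪y - x₀, e⟫ ^ 2 ≤ t ^ 2 := sq_le_sq' (by linarith) h2
    unfold NLVert_q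
    linarith
  have hnu : ∀ y ∈ K, y ∈ closure {x | 0 < u x} → |⟪nu u y, e⟫ - 1| ≤ L + 1 := by
    intro y hy hyc
    have h1 : |⟪nu u y, e⟫| ≤ L := by
      refine (abs_real_inner_le_norm _ _).trans ?_
      rw [he, mul_one]
      exact NLVert_norm_nu h hL hgrad (hKO hy) hyc
    calc |⟪nu u y, e⟫ - 1| ≤ |⟪nu u y, e⟫| + |(1 : ℝ)| := abs_sub _ _
      _ ≤ L + 1 := by rw [abs_one]; linarith
  set G : E3 → ℝ := fun y => s * (⟪nu u y, e⟫ - 1) + (θ + η / 2) + c * NLVert_q x₀ e t y with hG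
  have hxx : x - x₀ = (⟪x, e⟫ : ℝ) • e := by rw [hx₀]; abel
  have hxK : x ∈ K := by
    refine ⟨?_, hxt⟩
    rw [mem_closedBall, dist_eq_norm, hxx, norm_smul, he, mul_one, Real.norm_eq_abs, abs_le]
    have := NLVert_lower hC hx (by linarith)
    exact ⟨by linarith, by linarith⟩
  have main := minPrinciple h hKc hKO hWo hWK (G := G) ?_ ?_ ?_ ?_ x hxK hx
  · have h1 : NLVert_q x₀ e t x ≤ 3 * t ^ 2 := by
      unfold NLVert_q
      rw [hxx, norm_smul, he, mul_one, Real.norm_eq_abs, sq_abs, inner_smul_left, hee]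
      simp
      nlinarith [sq_nonneg (⟪x, e⟫ : ℝ)]
    have h2 : c * NLVert_q x₀ e t x ≤ c * (3 * t ^ 2) := mul_le_mul_of_nonneg_left h1 hc0.le
    simp only [hG] at main
    linarith
  · -- continuity
    have h1 : ContinuousOn (nu u) (K ∩ closure {x | 0 < u x}) :=
      (nu_continuousOn h).mono fun y hy => ⟨hKO hy.1, hy.2⟩
    simp only [hG, NLVert_q]
    fun_prop
  · -- interior
    intro y hy hyu
    have hyO := hKO (hWK hy)
    have hu := h.harm y hyO hyu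
    set H : E3 → ℝ := (s • ((fun y => (⟪gradient u y, e⟫ : ℝ)) - fun _ => (1 : ℝ))) +
      (fun _ => (θ + η / 2)) + c • NLVert_q x₀ e t with hH
    have hHh : HarmonicAt H y :=
      ((((harmonicAt_inner_gradient hu e).sub (harmonicAt_const _)).const_smul).add
        (harmonicAt_const _)).add ((NLVert_q_harm x₀ e he t y).const_smul)
    have hpos : ∀ᶠ z in 𝓝 y, z ∈ ball (0 : E3) 1 ∧ 0 < u z := by
      have h1 : ball (0 : E3) 1 ∈ 𝓝 y := h.isOpen.mem_nhds hyO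
      have h2 : ContinuousAt u y := h.cont.continuousAt h1
      exact (eventually_mem_set.mpr h1).and (h2.eventually (lt_mem_nhds hyu))
    have heq : G =ᶠ[𝓝 y] H := by
      filter_upwards [hpos] with z hz
      simp only [hG, hH, nu_of_pos h hz.1 hz.2, Pi.sub_apply, Pi.add_apply,
        Pi.smul_apply, smul_eq_mul]
    refine ⟨hHh.1.congr_of_eventuallyEq heq, ?_⟩
    rw [Filter.EventuallyEq.eq_of_nhds (laplacian_congr_nhds heq), hHh.2.eq_of_nhds]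
    simp
  · -- free boundary
    intro y hy hyF
    have h1 := hF y (by linarith [hKn y hy]) hyF
    have h2 := hsmul (⟪nu u y, e⟫ - 1)
    have h3 := hq y hy hyF.2
    have h4 : 0 ≤ c * NLVert_q x₀ e t y := mul_nonneg hc0.le (le_trans (sq_nonneg _) h3)
    simp only [hG]
    linarith
  · -- boundary
    intro y hy hyc
    have hyK : y ∈ K := hy.1
    have h2 := hsmul (⟪nu u y, e⟫ - 1)
    have h3 := hq y hyK hyc
    have h4 : 0 ≤ c * NLVert_q x₀ e t y := mul_nonneg hc0.le (le_trans (sq_nonneg _) h3)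
    rcases eq_or_lt_of_le (show ⟪y, e⟫ ≤ t from hyK.2) with h1 | h1
    · have h5 := htop y (by linarith [hKn y hyK]) h1.ge
      have h6 : ⟪nu u y, e⟫ - 1 = ⟪gradient u y - e, e⟫ := by
        rw [nu_of_pos h (hKO hyK) h5.1, inner_sub_left, hee]
      have h7 : |⟪nu u y, e⟫ - 1| ≤ η / 2 := by
        rw [h6]
        refine (abs_real_inner_le_norm _ _).trans ?_
        rw [he, mul_one]
        exact h5.2
      simp only [hG]
      linarith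
    · have h5 : ‖y - x₀‖ = 1 / 32 := by
        have h3 : ‖y - x₀‖ ≤ 1 / 32 := by simpa [dist_eq_norm] using hyK.1
        refine le_antisymm h3 (not_lt.mp fun h4 => hy.2 ⟨?_, h1⟩)
        rw [mem_ball, dist_eq_norm]
        exact h4
      rw [h5] at h3
      have h6 : c * (1 / 32) ^ 2 ≤ c * NLVert_q x₀ e t y := mul_le_mul_of_nonneg_left h3 hc0.le
      have h7 := hnu y hyK hyc
      have h8 : c * (1 / 32) ^ 2 = L + 1 := by rw [hc]; ring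
      simp only [hG]
      linarith

theorem nl_vert : ∀ L : ℝ, 1 ≤ L → ∀ η : ℝ, 0 < η → ∃ t₁ : ℝ, 0 < t₁ ∧ ∀ t : ℝ, 0 < t → t ≤ t₁ →
    ∃ σ₀ : ℝ, 0 < σ₀ ∧ ∀ (σ θ r : ℝ) (u : E3 → ℝ) (e : E3), σ ≤ σ₀ → 0 ≤ θ → r ≤ 7 / 8 → ‖e‖ = 1 →
    OnePhase (ball 0 1) u → (∀ x ∈ ball (0 : E3) 1, 0 < u x → ‖gradient u x‖ ≤ L) →
    CloseAt u 0 1 e σ →
    (∀ p : E3, ‖p‖ ≤ r → FB u p → |⟪nu u p, e⟫ - 1| ≤ θ) →
    ∀ x ∈ closure {x | 0 < u x}, ‖x‖ ≤ r - 1 / 16 → ⟪x, e⟫ ≤ t → |⟪nu u x, e⟫ - 1| ≤ θ + η := by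
  intro L hL η hη
  set c : ℝ := 1024 * (L + 1) with hc
  have hc0 : 0 < c := by positivity
  refine ⟨min (1 / 32) (η / (6 * c)), by positivity, ?_⟩
  intro t ht htt
  have h1 : t ≤ 1 / 32 := htt.trans (min_le_left _ _)
  have h2 : t ≤ η / (6 * c) := htt.trans (min_le_right _ _)
  have h3 : c * (3 * t ^ 2) ≤ η / 2 := by
    rw [le_div_iff₀ (by positivity)] at h2
    have h4 : t ^ 2 ≤ t := by nlinarith
    have h5 : c * (3 * t ^ 2) ≤ c * (3 * t) := mul_le_mul_of_nonneg_left (by linarith) hc0.le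
    linarith
  obtain ⟨σ₁, hσ₁, htop⟩ := nl_top t ht (by linarith) (η / 2) (by positivity)
  refine ⟨min σ₁ t, by positivity, ?_⟩
  intro σ θ r u e hσ hθ hr he h hgrad hC hF x hx hx2 hxt
  have hs1 : σ ≤ σ₁ := hσ.trans (min_le_left _ _)
  have hs2 : σ ≤ t := hσ.trans (min_le_right _ _)
  have ht' : ∀ y : E3, ‖y‖ ≤ 7 / 8 → t ≤ ⟪y, e⟫ → 0 < u y ∧ ‖gradient u y - e‖ ≤ η / 2 :=
    fun y hy hyt => htop σ u e hs1 he h hC y hy hyt
  have a1 := NLVert_core (s := 1) hL (Or.inl rfl) ht h1 hs2 he hθ hr hη hc h hgrad hC hF ht' hx hx2 hxt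
  have a2 := NLVert_core (s := -1) hL (Or.inr rfl) ht h1 hs2 he hθ hr hη hc h hgrad hC hF ht' hx hx2 hxt
  rw [abs_le]
  constructor <;> linarith

end Pool.Agent.H32.Flat
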