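import Pool.Agent.H32.Flat.Defs

/-!
# Module T1: no `C¹` retraction of the ball onto the sphere (Milnor–Rogers argument)

Let `g x = f x - x` on the closed unit ball, extended by `0`; it is Lipschitz (`f` is `C¹` near the closed ball
and `g = 0` on the sphere).  For `t ∈ [0, t₀]`, `f_t = id + t g` is a Lipschitz perturbation of the
identity, hence a bijection of `E3` (contraction mapping) which is the identity off the ball, so it maps
the ball onto itself.  Change of variables: `∫_{ball} det (I + t Dg) = vol(ball)` for `t ∈ [0,t₀]`.  The left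
side is a polynomial in `t`, so this holds for `t = 1`: `∫_{ball} det Df = vol > 0`.  But `‖f‖² = 1` on the
ball gives `(Df)ᵀ f = 0`, `det Df = 0`.  Contradiction.
-/

open Set Metric MeasureTheory Filter Topology
open scoped RealInnerProductSpace NNReal

namespace Pool.Agent.H32.Flat

/-- expansion of the determinant -/
theorem NoRetract_det (A : Matrix (Fin 3) (Fin 3) ℝ) (t : ℝ) :
    (1 + t • A).det = 1 + t * (A 0 0 + A 1 1 + A 2 2) +
      t ^ 2 * (A 0 0 * A 1 1 - A 0 1 * A 1 0 + A 0 0 * A 2 2 - A 0 2 * A 2 0 + A 1 1 * A 2 2 -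
        A 1 2 * A 2 1) + t ^ 3 * A.det := by
  rw [Matrix.det_fin_three, Matrix.det_fin_three]
  simp only [Matrix.add_apply, Matrix.smul_apply, Matrix.one_apply, smul_eq_mul]
  simp only [show ((0 : Fin 3) = 1) = False by decide, show ((0 : Fin 3) = 2) = False by decide,
    show ((1 : Fin 3) = 0) = False by decide, show ((1 : Fin 3) = 2) = False by decide,
    show ((2 : Fin 3) = 0) = False by decide, show ((2 : Fin 3) = 1) = False by decide, if_true,
    if_false]
  ring

/-- extension by zero is Lipschitz -/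
theorem NoRetract_lip (g g0 : E3 → E3) (K : ℝ) (hK : 0 ≤ K)
    (h : ∀ x ∈ closedBall (0 : E3) 1, ∀ y ∈ closedBall (0 : E3) 1, ‖g0 x - g0 y‖ ≤ K * ‖x - y‖)
    (h0 : ∀ x ∈ sphere (0 : E3) 1, g0 x = 0)
    (hg : ∀ x ∈ closedBall (0 : E3) 1, g x = g0 x) (hg' : ∀ x ∉ closedBall (0 : E3) 1, g x = 0) :
    ∀ x y, ‖g x - g y‖ ≤ K * ‖x - y‖ := by
  have key : ∀ x ∈ closedBall (0 : E3) 1, ∀ y ∉ closedBall (0 : E3) 1,
      ‖g x‖ ≤ K * ‖x - y‖ := by
    intro x hx y hy
    have hx' : ‖x‖ ≤ 1 := by simpa using hx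
    have hy' : 1 ≤ ‖y‖ := by
      have : ¬ ‖y‖ ≤ 1 := by simpa using hy
      linarith
    have hcont : Continuous fun t : ℝ => ‖x + t • (y - x)‖ := by fun_prop
    have hivt := intermediate_value_Icc (zero_le_one' ℝ) hcont.continuousOn
    have h1 : (1 : ℝ) ∈ Icc (‖x + (0 : ℝ) • (y - x)‖) (‖x + (1 : ℝ) • (y - x)‖) := by
      constructor
      · simpa using hx'
      · simpa using hy'
    obtain ⟨t, ht, ht1⟩ := hivt h1
    have hz : x + t • (y - x) ∈ sphere (0 : E3) 1 := by
      rw [mem_sphere_zero_iff_norm]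
      exact ht1
    have h2 := h x hx _ (sphere_subset_closedBall hz)
    rw [h0 _ hz, sub_zero, ← hg x hx] at h2
    refine h2.trans (mul_le_mul_of_nonneg_left ?_ hK)
    have h3 : x - (x + t • (y - x)) = t • (x - y) := by
      rw [smul_sub, smul_sub]
      abel
    rw [h3, norm_smul, Real.norm_of_nonneg ht.1]
    exact mul_le_of_le_one_left (norm_nonneg _) ht.2
  intro x y
  by_cases hx : x ∈ closedBall (0 : E3) 1 <;> by_cases hy : y ∈ closedBall (0 : E3) 1
  · rw [hg x hx, hg y hy]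
    exact h x hx y hy
  · rw [hg' y hy, sub_zero]
    exact key x hx y hy
  · rw [hg' x hx, zero_sub, norm_neg, norm_sub_rev]
    exact key y hy x hx
  · rw [hg' x hx, hg' y hy, sub_zero, norm_zero]
    positivity

/-- small Lipschitz perturbations of the identity that are the identity off the ball map the ball
onto itself -/
theorem NoRetract_image (g : E3 → E3) (K t : ℝ) (hK : 0 ≤ K) (ht : 0 ≤ t) (htK : t * K < 1)
    (hg : ∀ x y, ‖g x - g y‖ ≤ K * ‖x - y‖) (h0 : ∀ x ∉ ball (0 : E3) 1, g x = 0) :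
    Function.Injective (fun x => x + t • g x) ∧
      (fun x => x + t • g x) '' ball (0 : E3) 1 = ball 0 1 := by
  have hc : 0 ≤ t * K := by positivity
  have happ : ApproximatesLinearOn (fun x => x + t • g x)
      ((ContinuousLinearEquiv.refl ℝ E3 : E3 ≃L[ℝ] E3) : E3 →L[ℝ] E3) univ ⟨t * K, hc⟩ := by
    intro x _ y _
    have h1 : x + t • g x - (y + t • g y) -
        ((ContinuousLinearEquiv.refl ℝ E3 : E3 ≃L[ℝ] E3) : E3 →L[ℝ] E3) (x - y) =
        t • (g x - g y) := by
      simp only [ContinuousLinearEquiv.coe_refl, ContinuousLinearMap.coe_id', id_eq, smul_sub]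
      abel
    rw [h1, norm_smul, Real.norm_of_nonneg ht]
    change t * ‖g x - g y‖ ≤ t * K * ‖x - y‖
    rw [mul_assoc]
    exact mul_le_mul_of_nonneg_left (hg x y) ht
  have hN : Subsingleton E3 ∨ (⟨t * K, hc⟩ : ℝ≥0) <
      ‖(((ContinuousLinearEquiv.refl ℝ E3).symm : E3 ≃L[ℝ] E3) : E3 →L[ℝ] E3)‖₊⁻¹ := by
    right
    have h1 : ‖(((ContinuousLinearEquiv.refl ℝ E3).symm : E3 ≃L[ℝ] E3) : E3 →L[ℝ] E3)‖₊ = 1 := by
      rw [ContinuousLinearEquiv.refl_symm, ContinuousLinearEquiv.coe_refl]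
      exact ContinuousLinearMap.nnnorm_id
    rw [h1, inv_one]
    exact htK
  have hinj : Function.Injective (fun x => x + t • g x) := by
    exact injOn_univ.1 (happ.injOn hN)
  have hsurj : Function.Surjective (fun x => x + t • g x) := happ.surjective hN
  refine ⟨hinj, ?_⟩
  ext y
  constructor
  · rintro ⟨x, hx, rfl⟩
    by_contra hy
    have h1 : (fun x => x + t • g x) (x + t • g x) = x + t • g x := by
      change x + t • g x + t • g (x + t • g x) = x + t • g x
      rw [h0 _ hy, smul_zero, add_zero]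
    have h2 : x + t • g x = x := hinj h1
    exact hy (by change x + t • g x ∈ ball (0 : E3) 1; rw [h2]; exact hx)
  · intro hy
    obtain ⟨x, hx⟩ := hsurj y
    refine ⟨x, ?_, hx⟩
    by_contra hx'
    have h1 : (fun x => x + t • g x) x = x := by
      change x + t • g x = x
      rw [h0 _ hx', smul_zero, add_zero]
    rw [h1] at hx
    exact hx' (by rw [hx]; exact hy)

/-- The matrix of the derivative minus the identity. -/
noncomputable def NoRetract_mat (L : E3 →L[ℝ] E3) : Matrix (Fin 3) (Fin 3) ℝ :=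
  LinearMap.toMatrix (EuclideanSpace.basisFun (Fin 3) ℝ).toBasis
    (EuclideanSpace.basisFun (Fin 3) ℝ).toBasis ((L - ContinuousLinearMap.id ℝ E3 : E3 →L[ℝ] E3) :
      E3 →ₗ[ℝ] E3)

theorem NoRetract_mat_apply (L : E3 →L[ℝ] E3) (i j : Fin 3) :
    NoRetract_mat L i j = (L (EuclideanSpace.single j 1)) i - if i = j then 1 else 0 := by
  unfold NoRetract_mat
  rw [LinearMap.toMatrix_apply]
  simp

theorem NoRetract_det' (L : E3 →L[ℝ] E3) (t : ℝ) :
    (ContinuousLinearMap.id ℝ E3 + t • (L - ContinuousLinearMap.id ℝ E3)).det =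
      (1 + t • NoRetract_mat L).det := by
  rw [ContinuousLinearMap.det, ← LinearMap.det_toMatrix (EuclideanSpace.basisFun (Fin 3) ℝ).toBasis]
  congr 1
  unfold NoRetract_mat
  rw [← LinearMap.toMatrix_id (EuclideanSpace.basisFun (Fin 3) ℝ).toBasis, ← map_smul, ← map_add]
  rfl

/-- the first coefficient -/
noncomputable def NoRetract_a1 (A : Matrix (Fin 3) (Fin 3) ℝ) : ℝ := A 0 0 + A 1 1 + A 2 2

/-- the second coefficient -/
noncomputable def NoRetract_a2 (A : Matrix (Fin 3) (Fin 3) ℝ) : ℝ :=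
  A 0 0 * A 1 1 - A 0 1 * A 1 0 + A 0 0 * A 2 2 - A 0 2 * A 2 0 + A 1 1 * A 2 2 - A 1 2 * A 2 1

theorem no_retraction (f : E3 → E3) (U : Set E3) (hU : IsOpen U) (hb : closedBall 0 1 ⊆ U)
    (hf : ContDiffOn ℝ 1 f U) (h1 : ∀ x ∈ closedBall (0 : E3) 1, ‖f x‖ = 1)
    (h2 : ∀ x ∈ sphere (0 : E3) 1, f x = x) : False := by
  classical
  -- the derivative
  have hdiff : ∀ x ∈ U, DifferentiableAt ℝ f x := fun x hx =>
    (hf.differentiableOn one_ne_zero).differentiableAt (hU.mem_nhds hx)
  have hDcont : ContinuousOn (fderiv ℝ f) U := hf.continuousOn_fderiv_of_isOpen hU le_rfl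
  have hcomp : IsCompact (closedBall (0 : E3) 1) := isCompact_closedBall _ _
  obtain ⟨M, hM⟩ : ∃ M : ℝ, ∀ x ∈ closedBall (0 : E3) 1, ‖fderiv ℝ f x‖ ≤ M :=
    hcomp.exists_bound_of_continuousOn (hDcont.mono hb)
  have hM0 : 0 ≤ M := (norm_nonneg _).trans (hM 0 (by simp))
  -- the function `g`
  obtain ⟨g, hg, hg'⟩ : ∃ g : E3 → E3, (∀ x ∈ closedBall (0 : E3) 1, g x = f x - x) ∧
      ∀ x ∉ closedBall (0 : E3) 1, g x = 0 := by
    refine ⟨fun x => if x ∈ closedBall (0 : E3) 1 then f x - x else 0, ?_, ?_⟩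
    · intro x hx
      exact if_pos hx
    · intro x hx
      exact if_neg hx
  have hlip : ∀ x y, ‖g x - g y‖ ≤ (M + 1) * ‖x - y‖ := by
    refine NoRetract_lip g (fun x => f x - x) (M + 1) (by positivity) ?_ ?_ hg hg'
    · intro x hx y hy
      have h3 : ‖f x - f y‖ ≤ M * ‖x - y‖ :=
        (convex_closedBall (0 : E3) 1).norm_image_sub_le_of_norm_fderiv_le
          (fun z hz => hdiff z (hb hz)) hM hy hx
      have h4 : f x - x - (f y - y) = (f x - f y) - (x - y) := by abel
      rw [h4]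
      have h5 := norm_sub_le (f x - f y) (x - y)
      linarith
    · intro x hx
      rw [h2 x hx, sub_self]
  have hg0 : ∀ x ∉ ball (0 : E3) 1, g x = 0 := by
    intro x hx
    by_cases h3 : x ∈ closedBall (0 : E3) 1
    · have h4 : x ∈ sphere (0 : E3) 1 := by
        rw [mem_sphere_zero_iff_norm]
        rw [mem_closedBall_zero_iff] at h3
        rw [mem_ball_zero_iff] at hx
        linarith
      rw [hg x h3, h2 x h4, sub_self]
    · exact hg' x h3
  -- the entries
  obtain ⟨A, hA⟩ : ∃ A : E3 → Matrix (Fin 3) (Fin 3) ℝ, ∀ x, A x = NoRetract_mat (fderiv ℝ f x) :=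
    ⟨_, fun _ => rfl⟩
  have hAc : ∀ i j, ContinuousOn (fun x => A x i j) (closedBall (0 : E3) 1) := by
    intro i j
    simp only [hA, NoRetract_mat_apply]
    have h3 : ContinuousOn (fun x => fderiv ℝ f x (EuclideanSpace.single j 1))
        (closedBall (0 : E3) 1) := (hDcont.mono hb).clm_apply continuousOn_const
    have h4 : Continuous fun z : E3 => z i - (if i = j then 1 else 0 : ℝ) := by fun_prop
    exact h4.comp_continuousOn h3
  obtain ⟨a, ha⟩ : ∃ a : Fin 3 → E3 → ℝ, ∀ x, a 0 x = NoRetract_a1 (A x) ∧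
      a 1 x = NoRetract_a2 (A x) ∧ a 2 x = (A x).det :=
    ⟨![fun x => NoRetract_a1 (A x), fun x => NoRetract_a2 (A x), fun x => (A x).det],
      fun x => ⟨rfl, rfl, rfl⟩⟩
  have hac : ∀ i, ContinuousOn (a i) (closedBall (0 : E3) 1) := by
    have c00 := hAc 0 0
    have c01 := hAc 0 1
    have c02 := hAc 0 2
    have c10 := hAc 1 0
    have c11 := hAc 1 1
    have c12 := hAc 1 2
    have c20 := hAc 2 0
    have c21 := hAc 2 1
    have c22 := hAc 2 2
    intro i
    fin_cases i
    · have h3 : a 0 = fun x => NoRetract_a1 (A x) := funext fun x => (ha x).1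
      change ContinuousOn (a 0) _
      rw [h3]
      unfold NoRetract_a1
      fun_prop
    · have h3 : a 1 = fun x => NoRetract_a2 (A x) := funext fun x => (ha x).2.1
      change ContinuousOn (a 1) _
      rw [h3]
      unfold NoRetract_a2
      fun_prop
    · have h3 : a 2 = fun x => (A x).det := funext fun x => (ha x).2.2
      change ContinuousOn (a 2) _
      rw [h3]
      simp only [Matrix.det_fin_three]
      fun_prop
  have hai : ∀ i, IntegrableOn (a i) (ball (0 : E3) 1) := fun i =>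
    ((hac i).integrableOn_compact hcomp).mono_set ball_subset_closedBall
  obtain ⟨C, hC⟩ : ∃ C : ℝ, ∀ i, ∀ x ∈ closedBall (0 : E3) 1, |a i x| ≤ C := by
    choose C hC using fun i => hcomp.exists_bound_of_continuousOn (hac i)
    refine ⟨max (C 0) (max (C 1) (C 2)), ?_⟩
    intro i x hx
    refine (hC i x hx).trans ?_
    fin_cases i
    · exact le_max_left _ _
    · exact (le_max_left _ _).trans (le_max_right _ _)
    · exact (le_max_right _ _).trans (le_max_right _ _)
  have hC0 : 0 ≤ C := (abs_nonneg _).trans (hC 0 0 (by simp))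
  have hdet : ∀ x (t : ℝ), (ContinuousLinearMap.id ℝ E3 +
      t • (fderiv ℝ f x - ContinuousLinearMap.id ℝ E3)).det =
      1 + t * a 0 x + t ^ 2 * a 1 x + t ^ 3 * a 2 x := by
    intro x t
    rw [NoRetract_det', NoRetract_det, (ha x).1, (ha x).2.1, (ha x).2.2, ← hA]
    rfl
  obtain ⟨V, hV⟩ : ∃ V : ℝ, V = ∫ x in ball (0 : E3) 1, (1 : ℝ) := ⟨_, rfl⟩
  have hVpos : 0 < V := by
    rw [hV, setIntegral_const, smul_eq_mul, mul_one, Measure.real]
    exact ENNReal.toReal_pos (measure_ball_pos _ _ one_pos).ne' measure_ball_lt_top.ne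
  have hint : ∀ t : ℝ, ∫ x in ball (0 : E3) 1, (1 + t * a 0 x + t ^ 2 * a 1 x + t ^ 3 * a 2 x) =
      V + t * (∫ x in ball (0 : E3) 1, a 0 x) + t ^ 2 * (∫ x in ball (0 : E3) 1, a 1 x) +
        t ^ 3 * (∫ x in ball (0 : E3) 1, a 2 x) := by
    intro t
    have i0 : IntegrableOn (fun _ : E3 => (1 : ℝ)) (ball (0 : E3) 1) :=
      integrableOn_const measure_ball_lt_top.ne
    have i1 : IntegrableOn (fun x => t * a 0 x) (ball (0 : E3) 1) := (hai 0).const_mul t
    have i2 : IntegrableOn (fun x => t ^ 2 * a 1 x) (ball (0 : E3) 1) := (hai 1).const_mul _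
    have i3 : IntegrableOn (fun x => t ^ 3 * a 2 x) (ball (0 : E3) 1) := (hai 2).const_mul _
    have j1 : IntegrableOn (fun x => 1 + t * a 0 x) (ball (0 : E3) 1) := i0.add i1
    have j2 : IntegrableOn (fun x => 1 + t * a 0 x + t ^ 2 * a 1 x) (ball (0 : E3) 1) :=
      j1.add i2
    rw [integral_add j2 i3, integral_add j1 i2, integral_add i0 i1,
      integral_const_mul, integral_const_mul, integral_const_mul, hV]
  -- the change of variables
  have hcv : ∀ t : ℝ, 0 ≤ t → t * (3 * C + M + 2) ≤ 1 →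
      ∫ x in ball (0 : E3) 1, (1 + t * a 0 x + t ^ 2 * a 1 x + t ^ 3 * a 2 x) = V := by
    intro t ht ht1
    have ht2 : t ≤ 1 := by nlinarith
    have htK : t * (M + 1) < 1 := by
      rcases ht.eq_or_lt with h | h
      · rw [← h]; simp
      · nlinarith
    obtain ⟨hinj, himg⟩ := NoRetract_image g (M + 1) t (by positivity) ht htK hlip hg0
    have hder : ∀ x ∈ ball (0 : E3) 1, HasFDerivWithinAt (fun x => x + t • g x)
        (ContinuousLinearMap.id ℝ E3 + t • (fderiv ℝ f x - ContinuousLinearMap.id ℝ E3))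
        (ball (0 : E3) 1) x := by
      intro x hx
      have h3 : HasFDerivAt (fun y => y + t • (f y - y))
          (ContinuousLinearMap.id ℝ E3 + t • (fderiv ℝ f x - ContinuousLinearMap.id ℝ E3)) x :=
        (hasFDerivAt_id x).add (((hdiff x (hb (ball_subset_closedBall hx))).hasFDerivAt.sub
          (hasFDerivAt_id x)).const_smul t)
      refine h3.hasFDerivWithinAt.congr ?_ ?_
      · intro y hy
        change y + t • g y = y + t • (f y - y)
        rw [hg y (ball_subset_closedBall hy)]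
      · rw [hg x (ball_subset_closedBall hx)]
    have h3 := integral_image_eq_integral_abs_det_fderiv_smul volume measurableSet_ball hder
      hinj.injOn (fun _ => (1 : ℝ))
    rw [himg, ← hV] at h3
    rw [h3]
    refine setIntegral_congr_fun measurableSet_ball ?_
    intro x hx
    change 1 + t * a 0 x + t ^ 2 * a 1 x + t ^ 3 * a 2 x = |_| • (1 : ℝ)
    rw [hdet, smul_eq_mul, mul_one, abs_of_nonneg]
    have hx' := ball_subset_closedBall hx
    have b0 := abs_le.1 (hC 0 x hx')
    have b1 := abs_le.1 (hC 1 x hx')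
    have b2 := abs_le.1 (hC 2 x hx')
    have t2 : t ^ 2 ≤ t := by nlinarith
    have t3 : t ^ 3 ≤ t := by nlinarith [sq_nonneg t]
    have e0 : -(t * C) ≤ t * a 0 x := by nlinarith
    have e1 : -(t * C) ≤ t ^ 2 * a 1 x := by nlinarith [sq_nonneg t]
    have e2 : -(t * C) ≤ t ^ 3 * a 2 x := by nlinarith [pow_nonneg ht 3]
    nlinarith
  -- the coefficients vanish
  obtain ⟨c0, hc0⟩ : ∃ c0, c0 = ∫ x in ball (0 : E3) 1, a 0 x := ⟨_, rfl⟩
  obtain ⟨c1, hc1⟩ : ∃ c1, c1 = ∫ x in ball (0 : E3) 1, a 1 x := ⟨_, rfl⟩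
  obtain ⟨c2, hc2⟩ : ∃ c2, c2 = ∫ x in ball (0 : E3) 1, a 2 x := ⟨_, rfl⟩
  rw [← hc0, ← hc1, ← hc2] at hint
  obtain ⟨t0, ht0, ht0'⟩ : ∃ t0 : ℝ, 0 < t0 ∧ t0 * (3 * C + M + 2) ≤ 1 := by
    refine ⟨(3 * C + M + 2)⁻¹, by positivity, ?_⟩
    rw [inv_mul_cancel₀ (by positivity)]
  have hzero : ∀ t : ℝ, 0 ≤ t → t ≤ t0 → t * c0 + t ^ 2 * c1 + t ^ 3 * c2 = 0 := by
    intro t ht ht'
    have h3 := hcv t ht (by
      refine le_trans ?_ ht0'
      exact mul_le_mul_of_nonneg_right ht' (by positivity))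
    rw [hint] at h3
    linarith
  have z1 := hzero t0 ht0.le le_rfl
  have z2 := hzero (t0 / 2) (by positivity) (by linarith)
  have z3 := hzero (t0 / 3) (by positivity) (by linarith)
  have hc2' : c2 = 0 := by
    have h3 : t0 ^ 3 * c2 = 0 := by
      linear_combination 3 * z1 - 24 * z2 + 27 * z3
    have h4 : t0 ^ 3 ≠ 0 := by positivity
    exact (mul_eq_zero.1 h3).resolve_left h4
  rw [hc2'] at z1 z2
  have hc1' : c1 = 0 := by
    have h3 : t0 ^ 2 * c1 = 0 := by
      linear_combination 2 * z1 - 4 * z2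
    have h4 : t0 ^ 2 ≠ 0 := by positivity
    exact (mul_eq_zero.1 h3).resolve_left h4
  rw [hc1'] at z1
  have hc0' : c0 = 0 := by
    have h3 : t0 * c0 = 0 := by
      linear_combination z1
    exact (mul_eq_zero.1 h3).resolve_left ht0.ne'
  -- the determinant of the derivative vanishes
  have hlast : ∀ x ∈ ball (0 : E3) 1,
      1 + (1 : ℝ) * a 0 x + 1 ^ 2 * a 1 x + 1 ^ 3 * a 2 x = 0 := by
    intro x hx
    rw [← hdet, one_smul, add_sub_cancel]
    by_contra hne
    have hx' : x ∈ U := hb (ball_subset_closedBall hx)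
    have hD := (hdiff x hx').hasFDerivAt
    have h3 := hD.norm_sq
    have h4 : HasFDerivAt (fun y => ‖f y‖ ^ 2) (0 : E3 →L[ℝ] ℝ) x := by
      refine (hasFDerivAt_const (1 : ℝ) x).congr_of_eventuallyEq ?_
      filter_upwards [isOpen_ball.mem_nhds hx] with y hy
      rw [h1 y (ball_subset_closedBall hy)]
      norm_num
    have h5 := h3.unique h4
    obtain ⟨v, hv⟩ : ∃ v, fderiv ℝ f x v = f x := by
      have h6 : LinearMap.det ((fderiv ℝ f x : E3 →L[ℝ] E3) : E3 →ₗ[ℝ] E3) ≠ 0 := hne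
      have h7 := (LinearMap.equivOfDetNeZero _ h6).surjective (f x)
      obtain ⟨v, hv⟩ := h7
      exact ⟨v, hv⟩
    have h8 := congrArg (fun L : E3 →L[ℝ] ℝ => L v) h5
    simp only [_root_.smul_apply, ContinuousLinearMap.comp_apply, hv,
      _root_.zero_apply, innerSL_apply_apply, real_inner_self_eq_norm_sq,
      h1 x (ball_subset_closedBall hx)] at h8
    norm_num at h8
  have h3 := hint 1
  rw [hc0', hc1', hc2'] at h3
  rw [setIntegral_congr_fun measurableSet_ball hlast] at h3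
  simp at h3
  linarith

end Pool.Agent.H32.Flat
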