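import Pool.Agent.H32.Flat.Nu2
import Pool.Agent.H32.Flat.Slab

/-!
# Module G1: free boundary points off every line

Suppose for a unit vector `ω` there is no `FB` point `y` with `|y| ≤ 1` (and `|y| < 1` suffices) and
`c ≤ |y - ⟪y,ω⟫ω|`.  The set `S = {x : |x| < 1, c < |x - ⟪x,ω⟫ω|}` is (pre)connected (union over unit
`θ ⟂ ω` of the convex sets `{|x| < 1, c < ⟪x,θ⟫}`, any two of which are joined by a chain), contained
in `{τ < |x| < 8}` as `τ < c`, so by `pos_or_zero_of_preconnected` `u > 0` on `S` or `u = 0` on `S`.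
`ball 0 1 \ S` has volume `≤ 8c` (it is contained in the slab `|⟪x,ω'⟫| ≤ c`, `ω' ⟂ ω`).  So
`∫_{ball 0 4 \ closedBall 0 τ} wt⁴ ind u` is `≥ mm - 8c - 8τ³` or `≤ 8c`: both contradict `vol0` with
`κ ≤ κ₀`, if `c, κ₀` are small (`mm_pos`).  (`wt (‖x‖²) = 0` for `‖x‖ ≥ 1`.)
-/

open Set Metric MeasureTheory Filter Topology InnerProductSpace
open scoped Laplacian Gradient RealInnerProductSpace

namespace Pool.Agent.H32.Flat

theorem OffLine_exists_orth (a b : E3) : ∃ e : E3, ‖e‖ = 1 ∧ ⟪a, e⟫ = 0 ∧ ⟪b, e⟫ = 0 := by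
  classical
  have h1 : Submodule.span ℝ ({a, b} : Set E3) ≠ ⊤ := by
    intro h
    have h2 : Module.finrank ℝ (Submodule.span ℝ ({a, b} : Set E3)) ≤ 2 := by
      have h3 := finrank_span_finset_le_card (R := ℝ) ({a, b} : Finset E3)
      rw [Finset.coe_pair] at h3
      exact h3.trans (Finset.card_le_two)
    rw [h, finrank_top, finrank_euclideanSpace_fin] at h2
    omega
  have h2 : (Submodule.span ℝ ({a, b} : Set E3))ᗮ ≠ ⊥ := by
    intro h
    exact h1 ((Submodule.orthogonal_eq_bot_iff).1 h)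
  obtain ⟨v, hv, hv0⟩ := Submodule.exists_mem_ne_zero_of_ne_bot h2
  have hvn : ‖v‖ ≠ 0 := norm_ne_zero_iff.2 hv0
  have ha : ⟪a, v⟫ = 0 := by
    rw [Submodule.mem_orthogonal] at hv
    exact hv a (Submodule.subset_span (by simp))
  have hb : ⟪b, v⟫ = 0 := by
    rw [Submodule.mem_orthogonal] at hv
    exact hv b (Submodule.subset_span (by simp))
  refine ⟨‖v‖⁻¹ • v, ?_, ?_, ?_⟩
  · rw [norm_smul, norm_inv, norm_norm, inv_mul_cancel₀ hvn]
  · rw [inner_smul_right, ha, mul_zero]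
  · rw [inner_smul_right, hb, mul_zero]

/-- the integrand -/
noncomputable def OffLine_g (x : E3) : ℝ := wt (‖x‖ ^ 2) ^ 4

theorem OffLine_g_nonneg (x : E3) : 0 ≤ OffLine_g x := by
  unfold OffLine_g; positivity

theorem OffLine_g_le_one (x : E3) : OffLine_g x ≤ 1 := by
  unfold OffLine_g wt
  apply pow_le_one₀ (le_max_right _ _)
  apply max_le _ zero_le_one
  have := sq_nonneg ‖x‖
  linarith

theorem OffLine_g_zero {x : E3} (hx : 1 ≤ ‖x‖) : OffLine_g x = 0 := by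
  unfold OffLine_g wt
  have : (1 : ℝ) - ‖x‖ ^ 2 ≤ 0 := by nlinarith
  rw [max_eq_right this]; norm_num

theorem OffLine_g_cont : Continuous OffLine_g := by
  unfold OffLine_g wt
  fun_prop

theorem OffLine_g_int : Integrable OffLine_g := by
  apply OffLine_g_cont.integrable_of_hasCompactSupport
  apply HasCompactSupport.of_support_subset_isCompact (isCompact_closedBall (0 : E3) 1)
  intro x hx
  rw [mem_closedBall_zero_iff]
  by_contra h
  push Not at h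
  exact hx (OffLine_g_zero h.le)

theorem OffLine_int_le {ω : E3} (hω : ‖ω‖ = 1) {c : ℝ} (hc : 0 ≤ c) {Q : Set E3}
    (hQ : MeasurableSet Q)
    (hQS : ∀ x ∈ Q, ‖x‖ < 1 → ¬ (c < ‖x - ⟪x, ω⟫ • ω‖)) :
    ∫ x in Q, OffLine_g x ≤ 8 * c := by
  obtain ⟨e, he, hωe, -⟩ := OffLine_exists_orth ω ω
  set T : Set E3 := {x : E3 | ‖x‖ ≤ 1 ∧ |⟪x, e⟫| ≤ c} with hT
  have hTc : IsClosed T := by
    apply IsClosed.inter
    · exact isClosed_le continuous_norm continuous_const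
    · have hcont : Continuous fun x : E3 => |⟪x, e⟫| :=
        (continuous_id.inner continuous_const).abs
      exact isClosed_le hcont continuous_const
  have hTm : MeasurableSet T := hTc.measurableSet
  have hTf : volume T ≠ ⊤ := by
    have hb : volume (closedBall (0 : E3) 1) ≠ ⊤ :=
      (isCompact_closedBall (0 : E3) 1).measure_lt_top.ne
    apply ne_top_of_le_ne_top hb
    apply measure_mono
    intro x hx
    rw [mem_closedBall_zero_iff]
    exact hx.1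
  have hsub : ∀ x ∈ Q, OffLine_g x ≠ 0 → x ∈ T := by
    intro x hx h0
    have hx1 : ‖x‖ < 1 := by
      by_contra h
      push Not at h
      exact h0 (OffLine_g_zero h)
    have h1 := hQS x hx hx1
    push Not at h1
    refine ⟨hx1.le, ?_⟩
    have h2 : ⟪x, e⟫ = ⟪x - ⟪x, ω⟫ • ω, e⟫ := by
      rw [inner_sub_left, inner_smul_left, hωe]
      simp
    rw [h2]
    calc |⟪x - ⟪x, ω⟫ • ω, e⟫| ≤ ‖x - ⟪x, ω⟫ • ω‖ * ‖e‖ := abs_real_inner_le_norm _ _
      _ ≤ c := by rw [he, mul_one]; exact h1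
  calc ∫ x in Q, OffLine_g x = ∫ x, Q.indicator OffLine_g x := (integral_indicator hQ).symm
    _ ≤ ∫ x, T.indicator (fun _ => (1 : ℝ)) x := by
        apply integral_mono
        · exact OffLine_g_int.indicator hQ
        · exact (integrable_indicator_iff hTm).2 (integrableOn_const hTf)
        · intro x
          by_cases hx : x ∈ Q
          · rw [indicator_of_mem hx]
            by_cases h0 : OffLine_g x = 0
            · rw [h0]
              exact indicator_nonneg (fun _ _ => zero_le_one) _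
            · rw [indicator_of_mem (hsub x hx h0)]
              exact OffLine_g_le_one x
          · rw [indicator_of_notMem hx]
            exact indicator_nonneg (fun _ _ => zero_le_one) _
    _ = volume.real T := by
        rw [integral_indicator hTm]
        simp
    _ ≤ 8 * 1 ^ 2 * c := volume_slab he zero_le_one hc
    _ = 8 * c := by ring

/-- the convex pieces -/
def OffLine_C (c : ℝ) (θ : E3) : Set E3 := {x : E3 | ‖x‖ < 1 ∧ c < ⟪x, θ⟫}

theorem OffLine_C_convex (c : ℝ) (θ : E3) : Convex ℝ (OffLine_C c θ) := by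
  have h1 : OffLine_C c θ = ball (0 : E3) 1 ∩ {x : E3 | c < ⟪x, θ⟫} := by
    ext x
    simp [OffLine_C]
  rw [h1]
  apply (convex_ball _ _).inter
  intro x hx y hy a b ha hb hab
  change c < _ at hx hy ⊢
  rw [inner_add_left, inner_smul_left, inner_smul_left]
  simp only [conj_trivial]
  rcases ha.eq_or_lt with h | h
  · have hb1 : b = 1 := by linarith
    rw [← h, hb1]; linarith
  · have h2 := mul_lt_mul_of_pos_left hx h
    have h3 := mul_le_mul_of_nonneg_left hy.le hb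
    have h4 : c = a * c + b * c := by rw [← add_mul, hab, one_mul]
    linarith

theorem OffLine_C_meet {c : ℝ} (hc : c ≤ 1 / 2) {θ θ' : E3} (h1 : ‖θ‖ = 1) (h2 : ‖θ'‖ = 1)
    (h : 0 ≤ ⟪θ, θ'⟫) : (OffLine_C c θ ∩ OffLine_C c θ').Nonempty := by
  -- the point `(3/4) (θ + θ') / ‖θ + θ'‖`, or simply `s (θ + θ')` with `s = 9/20` scaled
  set v : E3 := θ + θ' with hv
  have hvv : ‖v‖ ^ 2 = 2 + 2 * ⟪θ, θ'⟫ := by
    rw [hv, norm_add_sq_real, h1, h2]; ring
  have hv2 : 2 ≤ ‖v‖ ^ 2 := by linarith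
  have hvpos : 0 < ‖v‖ := by
    by_contra h0
    push Not at h0
    have : ‖v‖ = 0 := le_antisymm h0 (norm_nonneg _)
    rw [this] at hv2; norm_num at hv2
  have hvn : 7 / 5 < ‖v‖ := by nlinarith
  have e1 : ⟪v, θ⟫ = ‖v‖ ^ 2 / 2 := by
    rw [hvv, hv, inner_add_left, real_inner_self_eq_norm_sq, h1, real_inner_comm]; ring
  have e2 : ⟪v, θ'⟫ = ‖v‖ ^ 2 / 2 := by
    rw [hvv, hv, inner_add_left, real_inner_self_eq_norm_sq, h2]; ring
  have key : ∀ w : ℝ, w = ‖v‖ ^ 2 / 2 → c < (3 / 4) * ‖v‖⁻¹ * w → True := fun _ _ _ => trivial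
  have e3 : (3 / 4 : ℝ) * ‖v‖⁻¹ * (‖v‖ ^ 2 / 2) = 3 / 8 * ‖v‖ := by
    field_simp
    norm_num
  refine ⟨((3 / 4 : ℝ) * ‖v‖⁻¹) • v, ⟨?_, ?_⟩, ⟨?_, ?_⟩⟩
  · rw [norm_smul, Real.norm_of_nonneg (by positivity), mul_assoc, inv_mul_cancel₀ hvpos.ne']
    norm_num
  · rw [inner_smul_left, e1]
    simp only [conj_trivial]
    rw [e3]; linarith
  · rw [norm_smul, Real.norm_of_nonneg (by positivity), mul_assoc, inv_mul_cancel₀ hvpos.ne']
    norm_num
  · rw [inner_smul_left, e2]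
    simp only [conj_trivial]
    rw [e3]; linarith

theorem exists_FB_off_line : ∃ c : ℝ, 0 < c ∧ c ≤ 1 / 2 ∧ ∃ κ₀ : ℝ, 0 < κ₀ ∧
    ∀ (L κ τ : ℝ) (u : E3 → ℝ), 0 < τ → τ < c → κ ≤ κ₀ → AlmostCone L κ τ u →
    ∀ ω : E3, ‖ω‖ = 1 → ∃ y : E3, ‖y‖ ≤ 1 ∧ FB u y ∧ c ≤ ‖y - ⟪y, ω⟫ • ω‖ := by
  have hmm := mm_pos
  refine ⟨min (1 / 2) (mm / 64), by positivity, min_le_left _ _, mm / 8, by positivity, ?_⟩
  intro L κ τ u hτ hτc hκ H ω hω
  set c : ℝ := min (1 / 2) (mm / 64) with hcdef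
  have hc0 : 0 < c := by positivity
  have hc1 : c ≤ 1 / 2 := min_le_left _ _
  have hc2 : c ≤ mm / 64 := min_le_right _ _
  by_contra hcon
  push Not at hcon
  have hOP := H.onePhase
  -- membership in the domain
  have hCO : ∀ θ : E3, ‖θ‖ = 1 → OffLine_C c θ ⊆ {x : E3 | τ < ‖x‖ ∧ ‖x‖ < 8} := by
    intro θ hθ x hx
    refine ⟨?_, by linarith [hx.1]⟩
    have h1 : ⟪x, θ⟫ ≤ ‖x‖ * ‖θ‖ := real_inner_le_norm _ _
    rw [hθ, mul_one] at h1
    linarith [hx.2]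
  have hproj : ∀ x θ : E3, ‖θ‖ = 1 → ⟪ω, θ⟫ = 0 → ⟪x, θ⟫ ≤ ‖x - ⟪x, ω⟫ • ω‖ := by
    intro x θ hθ hωθ
    have h2 : ⟪x, θ⟫ = ⟪x - ⟪x, ω⟫ • ω, θ⟫ := by
      rw [inner_sub_left, inner_smul_left, hωθ]
      simp
    rw [h2]
    calc ⟪x - ⟪x, ω⟫ • ω, θ⟫ ≤ ‖x - ⟪x, ω⟫ • ω‖ * ‖θ‖ := real_inner_le_norm _ _
      _ = ‖x - ⟪x, ω⟫ • ω‖ := by rw [hθ, mul_one]
  have halt : ∀ θ : E3, ‖θ‖ = 1 → ⟪ω, θ⟫ = 0 →
      (∀ x ∈ OffLine_C c θ, 0 < u x) ∨ (∀ x ∈ OffLine_C c θ, u x = 0) := by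
    intro θ hθ hωθ
    apply pos_or_zero_of_preconnected hOP (OffLine_C_convex c θ).isPreconnected (hCO θ hθ)
    intro x hx hF
    have h1 := hcon x hx.1.le hF
    have h2 := hproj x θ hθ hωθ
    linarith [hx.2]
  -- all pieces have the same behaviour
  have hmeet : ∀ θ θ' : E3, ‖θ‖ = 1 → ⟪ω, θ⟫ = 0 → ‖θ'‖ = 1 → ⟪ω, θ'⟫ = 0 → 0 ≤ ⟪θ, θ'⟫ →
      ((∀ x ∈ OffLine_C c θ, 0 < u x) → (∀ x ∈ OffLine_C c θ', 0 < u x)) := by
    intro θ θ' h1 h1' h2 h2' h h3
    obtain ⟨z, hz, hz'⟩ := OffLine_C_meet hc1 h1 h2 h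
    rcases halt θ' h2 h2' with h4 | h4
    · exact h4
    · exact absurd (h4 z hz') (h3 z hz).ne'
  have hsame : ∀ θ θ' : E3, ‖θ‖ = 1 → ⟪ω, θ⟫ = 0 → ‖θ'‖ = 1 → ⟪ω, θ'⟫ = 0 →
      ((∀ x ∈ OffLine_C c θ, 0 < u x) → (∀ x ∈ OffLine_C c θ', 0 < u x)) := by
    intro θ θ' h1 h1' h2 h2' h3
    obtain ⟨η, hη, hωη, hθη⟩ := OffLine_exists_orth ω θ
    rcases le_total 0 ⟪η, θ'⟫ with h | h
    · exact hmeet η θ' hη hωη h2 h2' h (hmeet θ η h1 h1' hη hωη hθη.ge h3)
    · have e1 : ‖-η‖ = 1 := by rw [norm_neg]; exact hη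
      have e2 : ⟪ω, -η⟫ = 0 := by rw [inner_neg_right, hωη, neg_zero]
      have e3 : (0 : ℝ) ≤ ⟪θ, -η⟫ := by rw [inner_neg_right, hθη, neg_zero]
      have e4 : (0 : ℝ) ≤ ⟪-η, θ'⟫ := by rw [inner_neg_left]; linarith
      exact hmeet (-η) θ' e1 e2 h2 h2' e4 (hmeet θ (-η) h1 h1' e1 e2 e3 h3)
  -- the set S
  set S : Set E3 := {x : E3 | ‖x‖ < 1 ∧ c < ‖x - ⟪x, ω⟫ • ω‖} with hS
  have hSC : ∀ x ∈ S, ∃ θ : E3, ‖θ‖ = 1 ∧ ⟪ω, θ⟫ = 0 ∧ x ∈ OffLine_C c θ := by
    intro x hx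
    set v : E3 := x - ⟪x, ω⟫ • ω with hv
    have hvpos : 0 < ‖v‖ := hc0.trans hx.2
    have hωv : ⟪ω, v⟫ = 0 := by
      rw [hv, inner_sub_right, inner_smul_right, real_inner_self_eq_norm_sq, hω, real_inner_comm]
      ring
    refine ⟨‖v‖⁻¹ • v, ?_, ?_, hx.1, ?_⟩
    · rw [norm_smul, norm_inv, norm_norm, inv_mul_cancel₀ hvpos.ne']
    · rw [inner_smul_right, hωv, mul_zero]
    · have hxv : ⟪x, v⟫ = ‖v‖ ^ 2 := by
        have : x = v + ⟪x, ω⟫ • ω := by rw [hv]; abel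
        calc ⟪x, v⟫ = ⟪v + ⟪x, ω⟫ • ω, v⟫ := by rw [← this]
          _ = ‖v‖ ^ 2 := by
            rw [inner_add_left, inner_smul_left, hωv, real_inner_self_eq_norm_sq]; simp
      rw [inner_smul_right, hxv]
      have : ‖v‖⁻¹ * ‖v‖ ^ 2 = ‖v‖ := by field_simp
      rw [this]
      exact hx.2
  have hSO : ∀ x ∈ S, τ < ‖x‖ ∧ ‖x‖ < 8 := by
    intro x hx
    obtain ⟨θ, hθ, -, hxθ⟩ := hSC x hx
    exact hCO θ hθ hxθ
  have hSm : MeasurableSet S := by
    have : IsOpen S := by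
      apply IsOpen.inter
      · exact isOpen_lt continuous_norm continuous_const
      · have hcont : Continuous fun x : E3 => ‖x - ⟪x, ω⟫ • ω‖ := by
          fun_prop
        exact isOpen_lt continuous_const hcont
    exact this.measurableSet
  -- the positive set
  set A : Set E3 := ball (0 : E3) 4 \ closedBall 0 τ with hA
  have hAO : A ⊆ {x : E3 | τ < ‖x‖ ∧ ‖x‖ < 8} := by
    intro x hx
    have h1 : ‖x‖ < 4 := by simpa using hx.1
    have h2 : ¬ ‖x‖ ≤ τ := by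
      have := hx.2
      rwa [mem_closedBall_zero_iff] at this
    exact ⟨not_le.1 h2, by linarith⟩
  have hAopen : IsOpen A := isOpen_ball.sdiff isClosed_closedBall
  set P : Set E3 := A ∩ {x | 0 < u x} with hP
  have hPopen : IsOpen P := by
    have := (hOP.cont.mono hAO).isOpen_inter_preimage hAopen isOpen_Ioi (t := Ioi (0 : ℝ))
    exact this
  have hPm : MeasurableSet P := hPopen.measurableSet
  have hint : (∫ x in A, wt (‖x‖ ^ 2) ^ 4 * ind u x) = ∫ x in P, OffLine_g x := by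
    rw [← integral_indicator hAopen.measurableSet, ← integral_indicator hPm]
    congr 1
    funext x
    by_cases hx : x ∈ A
    · rw [indicator_of_mem hx]
      by_cases hu : 0 < u x
      · rw [indicator_of_mem (show x ∈ P from ⟨hx, hu⟩)]
        simp [ind, hu, OffLine_g]
      · rw [indicator_of_notMem (show x ∉ P from fun h => hu h.2)]
        simp [ind, hu]
    · rw [indicator_of_notMem hx, indicator_of_notMem (show x ∉ P from fun h => hx h.1)]
  have hvol := H.vol0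
  rw [← hA, hint] at hvol
  rw [abs_le] at hvol
  obtain ⟨θ₀, hθ₀, hωθ₀, -⟩ := OffLine_exists_orth ω ω
  rcases halt θ₀ hθ₀ hωθ₀ with hpos | hzero
  · -- positive everywhere on `S`
    have hSP : S ⊆ P := by
      intro x hx
      obtain ⟨θ, hθ, hωθ, hxθ⟩ := hSC x hx
      have h1 := hSO x hx
      refine ⟨⟨?_, ?_⟩, hsame θ₀ θ hθ₀ hωθ₀ hθ hωθ hpos x hxθ⟩
      · rw [mem_ball_zero_iff]; linarith [hx.1]
      · rw [mem_closedBall_zero_iff]; exact not_le.2 h1.1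
    have h1 : ∫ x in S, OffLine_g x ≤ ∫ x in P, OffLine_g x := by
      apply setIntegral_mono_set OffLine_g_int.integrableOn
      · exact Eventually.of_forall OffLine_g_nonneg
      · exact hSP.eventuallyLE
    have h2 : ∫ x in Sᶜ, OffLine_g x ≤ 8 * c := by
      apply OffLine_int_le hω hc0.le hSm.compl
      intro x hx hx1 h
      exact hx ⟨hx1, h⟩
    have h3 : (∫ x in S, OffLine_g x) + ∫ x in Sᶜ, OffLine_g x = mm :=
      integral_add_compl hSm OffLine_g_int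
    linarith [hvol.2]
  · -- zero everywhere on `S`
    have hSP : ∀ x ∈ P, ‖x‖ < 1 → ¬ (c < ‖x - ⟪x, ω⟫ • ω‖) := by
      intro x hx hx1 h
      obtain ⟨θ, hθ, hωθ, hxθ⟩ := hSC x ⟨hx1, h⟩
      rcases halt θ hθ hωθ with h4 | h4
      · have h5 := hsame θ θ₀ hθ hωθ hθ₀ hωθ₀ h4
        obtain ⟨z, hz, -⟩ := OffLine_C_meet hc1 hθ₀ hθ₀
          (by rw [real_inner_self_eq_norm_sq]; positivity)
        exact absurd (hzero z hz) (h5 z hz).ne'
      · exact absurd (h4 x hxθ) hx.2.ne'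
    have h2 : ∫ x in P, OffLine_g x ≤ 8 * c := OffLine_int_le hω hc0.le hPm hSP
    linarith [hvol.1]

end Pool.Agent.H32.Flat
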