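import Pool.Agent.H32.Flat.OffLine
import Pool.Agent.H32.Flat.DuMeas

/-!
# Module G2: an almost conical solution is almost one-dimensional

By `exists_FB_off_line` (twice: first `ω = e3`, giving `y₁` with `|y₁| ≥ c`, then `ω = y₁/|y₁|`) there are
`FB` points `y₁, y₂`, `|y_i| ≤ 1`, `|y₁| ≥ c`, `dist(y₂, ℝ y₁) ≥ c`.  On `A₄ = ball 0 4 \ closedBall 0 τ`:
`TT u 0 x - TT u y_i x = ⟪y_i, Du u x⟫`, so `∫_{A₄} ⟪y_i, Du⟫² ≤ 4κ`.  Let `e` be a unit vector orthogonal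
to `y₁, y₂`.  For all `g`: `‖g - ⟪g,e⟫e‖ ≤ C (|⟪g,y₁⟫| + |⟪g,y₂⟫|)` with `C = C(c)`.  Finally
`⟪x,e⟫⟪Du,e⟫ - u = TT u 0 x - ⟪x, Du - ⟪Du,e⟫e⟫`.
-/

open Set Metric MeasureTheory Filter Topology InnerProductSpace
open scoped Laplacian Gradient RealInnerProductSpace

namespace Pool.Agent.H32.Flat

theorem OneDim_sq_sub {e : E3} (he : ‖e‖ = 1) (g : E3) :
    ‖g - ⟪g, e⟫ • e‖ ^ 2 = ‖g‖ ^ 2 - ⟪g, e⟫ ^ 2 := by
  rw [norm_sub_sq_real, norm_smul, he, real_inner_smul_right, Real.norm_eq_abs, mul_one, sq_abs]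
  ring

theorem OneDim_norm_sub_le {e : E3} (he : ‖e‖ = 1) (g : E3) : ‖g - ⟪g, e⟫ • e‖ ≤ ‖g‖ := by
  have h := OneDim_sq_sub he g
  exact le_of_sq_le_sq (by rw [h]; linarith [sq_nonneg (⟪g, e⟫ : ℝ)]) (norm_nonneg _)

/-- linear algebra: a direction orthogonal to two quantitatively independent vectors -/
theorem OneDim_exists {c : ℝ} (hc : 0 < c) (hc1 : c ≤ 1 / 2) {y₁ y₂ : E3} (hy₂ : ‖y₂‖ ≤ 1)
    (h1 : c ≤ ‖y₁‖) (h2 : c ≤ ‖y₂ - ⟪y₂, (1 / ‖y₁‖) • y₁⟫ • ((1 / ‖y₁‖) • y₁)‖) :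
    ∃ e : E3, ‖e‖ = 1 ∧ ∀ g : E3, ‖g - ⟪g, e⟫ • e‖ ^ 2 ≤
      3 / c ^ 4 * (⟪y₁, g⟫ ^ 2 + ⟪y₂, g⟫ ^ 2) := by
  have hn1 : 0 < ‖y₁‖ := lt_of_lt_of_le hc h1
  set ω₁ : E3 := (1 / ‖y₁‖) • y₁ with hω₁
  have hω₁n : ‖ω₁‖ = 1 := by
    rw [hω₁, norm_smul, Real.norm_eq_abs, abs_of_pos (by positivity)]
    field_simp
  set z : E3 := y₂ - ⟪y₂, ω₁⟫ • ω₁ with hz
  have hzn : 0 < ‖z‖ := lt_of_lt_of_le hc h2
  have hzω : ⟪z, ω₁⟫ = 0 := by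
    rw [hz, inner_sub_left, real_inner_smul_left, real_inner_self_eq_norm_sq, hω₁n]
    ring
  set ω₂ : E3 := (1 / ‖z‖) • z with hω₂
  have hω₂n : ‖ω₂‖ = 1 := by
    rw [hω₂, norm_smul, Real.norm_eq_abs, abs_of_pos (by positivity)]
    field_simp
  have h12 : ⟪ω₁, ω₂⟫ = 0 := by
    rw [hω₂, real_inner_smul_right, real_inner_comm, hzω, mul_zero]
  have hon : Orthonormal ℝ (({0, 1} : Set (Fin 3)).domRestrict (![ω₁, ω₂, 0] : Fin 3 → E3)) := by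
    constructor
    · rintro ⟨i, hi⟩
      rcases hi with rfl | hi
      · exact hω₁n
      · rw [mem_singleton_iff] at hi; subst hi; exact hω₂n
    · rintro ⟨i, hi⟩ ⟨j, hj⟩ hij
      have hij' : i ≠ j := fun h => hij (Subtype.ext h)
      rcases hi with rfl | hi
      · rcases hj with rfl | hj
        · exact absurd rfl hij'
        · rw [mem_singleton_iff] at hj; subst hj; exact h12
      · rw [mem_singleton_iff] at hi; subst hi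
        rcases hj with rfl | hj
        · exact (real_inner_comm _ _).trans h12
        · rw [mem_singleton_iff] at hj; exact absurd hj.symm hij'
  obtain ⟨b, hb⟩ := hon.exists_orthonormalBasis_extension_of_card_eq (by simp)
  have hb0 : b 0 = ω₁ := by simpa using hb 0 (by simp)
  have hb1 : b 1 = ω₂ := by simpa using hb 1 (by simp)
  refine ⟨b 2, b.orthonormal.1 2, fun g => ?_⟩
  have hpars : ‖g‖ ^ 2 = ⟪ω₁, g⟫ ^ 2 + ⟪ω₂, g⟫ ^ 2 + ⟪b 2, g⟫ ^ 2 := by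
    have := b.sum_sq_norm_inner_right g
    rw [Fin.sum_univ_three, hb0, hb1] at this
    simp only [Real.norm_eq_abs, sq_abs] at this
    rw [← this]
  rw [OneDim_sq_sub (b.orthonormal.1 2) g, hpars, real_inner_comm (b 2) g]
  have e1 : (⟪ω₁, g⟫ : ℝ) = ⟪y₁, g⟫ / ‖y₁‖ := by
    rw [hω₁, real_inner_smul_left]; ring
  have e2 : (⟪ω₂, g⟫ : ℝ) = (⟪y₂, g⟫ - ⟪y₂, ω₁⟫ * ⟪ω₁, g⟫) / ‖z‖ := by
    rw [hω₂, real_inner_smul_left, hz, inner_sub_left, real_inner_smul_left]; ring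
  have b1 : (⟪ω₁, g⟫ : ℝ) ^ 2 ≤ ⟪y₁, g⟫ ^ 2 / c ^ 2 := by
    rw [e1, div_pow]
    exact div_le_div_of_nonneg_left (sq_nonneg _) (by positivity) (pow_le_pow_left₀ hc.le h1 2)
  have b3 : |(⟪y₂, ω₁⟫ : ℝ)| ≤ 1 := by
    refine (abs_real_inner_le_norm _ _).trans ?_
    rw [hω₁n, mul_one]; exact hy₂
  have b2 : (⟪ω₂, g⟫ : ℝ) ^ 2 ≤ 2 * (⟪y₂, g⟫ ^ 2 + ⟪y₁, g⟫ ^ 2 / c ^ 2) / c ^ 2 := by
    rw [e2, div_pow]
    have k1 : (⟪y₂, g⟫ - ⟪y₂, ω₁⟫ * ⟪ω₁, g⟫ : ℝ) ^ 2 ≤ 2 * (⟪y₂, g⟫ ^ 2 + ⟪y₁, g⟫ ^ 2 / c ^ 2) := by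
      have k2 : (⟪y₂, ω₁⟫ * ⟪ω₁, g⟫ : ℝ) ^ 2 ≤ ⟪y₁, g⟫ ^ 2 / c ^ 2 := by
        rw [mul_pow]
        have k3 : (⟪y₂, ω₁⟫ : ℝ) ^ 2 ≤ 1 := by
          rw [← sq_abs]; exact pow_le_one₀ (abs_nonneg _) b3
        calc (⟪y₂, ω₁⟫ : ℝ) ^ 2 * ⟪ω₁, g⟫ ^ 2 ≤ 1 * ⟪ω₁, g⟫ ^ 2 :=
              mul_le_mul_of_nonneg_right k3 (sq_nonneg _)
          _ ≤ _ := by rw [one_mul]; exact b1
      nlinarith [sq_nonneg (⟪y₂, g⟫ + ⟪y₂, ω₁⟫ * ⟪ω₁, g⟫ : ℝ)]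
    calc _ ≤ 2 * (⟪y₂, g⟫ ^ 2 + ⟪y₁, g⟫ ^ 2 / c ^ 2) / ‖z‖ ^ 2 :=
          div_le_div_of_nonneg_right k1 (by positivity)
      _ ≤ _ := div_le_div_of_nonneg_left (by positivity) (by positivity)
          (pow_le_pow_left₀ hc.le h2 2)
  have hc2 : c ^ 2 ≤ 1 := by nlinarith
  have hfin : ⟪y₁, g⟫ ^ 2 / c ^ 2 + 2 * (⟪y₂, g⟫ ^ 2 + ⟪y₁, g⟫ ^ 2 / c ^ 2) / c ^ 2 ≤
      3 / c ^ 4 * (⟪y₁, g⟫ ^ 2 + ⟪y₂, g⟫ ^ 2) := by
    have : 3 / c ^ 4 * (⟪y₁, g⟫ ^ 2 + ⟪y₂, g⟫ ^ 2) -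
        (⟪y₁, g⟫ ^ 2 / c ^ 2 + 2 * (⟪y₂, g⟫ ^ 2 + ⟪y₁, g⟫ ^ 2 / c ^ 2) / c ^ 2) =
        ((1 - c ^ 2) * ⟪y₁, g⟫ ^ 2 + (3 - 2 * c ^ 2) * ⟪y₂, g⟫ ^ 2) / c ^ 4 := by
      field_simp
      ring
    have h3 : 0 ≤ ((1 - c ^ 2) * ⟪y₁, g⟫ ^ 2 + (3 - 2 * c ^ 2) * ⟪y₂, g⟫ ^ 2) / c ^ 4 := by
      apply div_nonneg _ (by positivity)
      apply add_nonneg
      · exact mul_nonneg (by linarith) (sq_nonneg _)
      · exact mul_nonneg (by linarith) (sq_nonneg _)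
    linarith
  linarith

theorem exists_dir : ∃ C : ℝ, 1 ≤ C ∧ ∃ κ₀ : ℝ, 0 < κ₀ ∧ ∃ τ₀ : ℝ, 0 < τ₀ ∧
    ∀ (L κ τ : ℝ) (u : E3 → ℝ), 1 ≤ L → 0 < τ → τ ≤ τ₀ → κ ≤ κ₀ → AlmostCone L κ τ u →
    ∃ e : E3, ‖e‖ = 1 ∧
      ∫ x in ball 0 4 \ closedBall 0 τ, ‖Du u x - ⟪Du u x, e⟫ • e‖ ^ 2 ≤ C * κ ∧
      ∫ x in ball 0 4 \ closedBall 0 τ, (⟪x, e⟫ * ⟪Du u x, e⟫ - u x) ^ 2 ≤ C * κ := by
  obtain ⟨c, hc, hc1, κ₀, hκ₀, hoff⟩ := exists_FB_off_line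
  refine ⟨2 + 768 / c ^ 4, by have : 0 < 768 / c ^ 4 := by positivity
                              linarith, κ₀, hκ₀, c / 2, by positivity, ?_⟩
  intro L κ τ u hL hτ hτ' hκ hA
  have hτc : τ < c := by linarith
  have he3 : ‖e3‖ = 1 := by simp [e3]
  obtain ⟨y₁, hy₁, hF₁, hd₁⟩ := hoff L κ τ u hτ hτc hκ hA e3 he3
  have hy₁c : c ≤ ‖y₁‖ := hd₁.trans (OneDim_norm_sub_le he3 y₁)
  have hn1 : 0 < ‖y₁‖ := lt_of_lt_of_le hc hy₁c
  have hω₁n : ‖(1 / ‖y₁‖) • y₁‖ = 1 := by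
    rw [norm_smul, Real.norm_eq_abs, abs_of_pos (by positivity)]
    field_simp
  obtain ⟨y₂, hy₂, hF₂, hd₂⟩ := hoff L κ τ u hτ hτc hκ hA _ hω₁n
  have hy₂c : c ≤ ‖y₂‖ := hd₂.trans (OneDim_norm_sub_le hω₁n y₂)
  obtain ⟨e, he, hproj⟩ := OneDim_exists hc hc1 hy₂ hy₁c hd₂
  set O : Set E3 := {x | τ < ‖x‖ ∧ ‖x‖ < 8} with hOdef
  have hO : OnePhase O u := hA.onePhase
  set S : Set E3 := ball 0 4 \ closedBall 0 τ with hS
  have hSm : MeasurableSet S := measurableSet_ball.diff measurableSet_closedBall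
  have hSO : S ⊆ O := by
    intro x hx
    have h1 : ‖x‖ < 4 := by simpa using hx.1
    have h2 : τ < ‖x‖ := by simpa using hx.2
    exact ⟨h2, by linarith⟩
  have hSball : S ⊆ closedBall 0 4 := fun x hx => ball_subset_closedBall hx.1
  have hu0 : ∀ x ∈ S, 0 ≤ u x := fun x hx => hO.nonneg x (hSO hx)
  have hu8 : ∀ x ∈ S, u x ≤ 8 * L := fun x hx => hA.bound x (hSO hx).1 (hSO hx).2
  have hDu : ∀ x ∈ S, ‖Du u x‖ ≤ L := fun x hx =>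
    DuMeas_norm_Du_le (by linarith) (hA.lip x (hSO hx).1 (hSO hx).2)
  have hmDu : AEStronglyMeasurable (Du u) (volume.restrict S) :=
    (DuMeas_Du hO).mono_measure (Measure.restrict_mono hSO le_rfl)
  have hmu : AEStronglyMeasurable u (volume.restrict S) :=
    (DuMeas_u hO).mono_measure (Measure.restrict_mono hSO le_rfl)
  have hTT : ∀ y : E3, ‖y‖ ≤ 1 → IntegrableOn (fun x => TT u y x ^ 2) S := by
    intro y hy
    refine DuMeas_integrableOn (R := 4) (M := (13 * L) ^ 2) hSm hSball ?_ ?_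
    · have hcon : Continuous fun x : E3 => x - y := by fun_prop
      exact ((hcon.aestronglyMeasurable.inner hmDu).sub hmu).pow 2
    · intro x hx
      rw [norm_pow, Real.norm_eq_abs]
      apply pow_le_pow_left₀ (abs_nonneg _)
      unfold TT
      have h1 := abs_sub (⟪x - y, Du u x⟫ : ℝ) (u x)
      have h2 : |(⟪x - y, Du u x⟫ : ℝ)| ≤ 5 * L := by
        refine (abs_real_inner_le_norm _ _).trans ?_
        have h3 : ‖x - y‖ ≤ 5 := by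
          have := norm_sub_le x y
          have h4 : ‖x‖ < 4 := by simpa using hx.1
          linarith
        exact mul_le_mul h3 (hDu x hx) (norm_nonneg _) (by norm_num)
      rw [abs_of_nonneg (hu0 x hx)] at h1
      linarith [hu8 x hx]
  have hT0 := hTT 0 (by simp)
  have hy : ∀ y : E3, ‖y‖ ≤ 1 → FB u y → c ≤ ‖y‖ →
      IntegrableOn (fun x => (⟪y, Du u x⟫ : ℝ) ^ 2) S ∧ ∫ x in S, (⟪y, Du u x⟫ : ℝ) ^ 2 ≤ 4 * κ := by
    intro y hy1 hyF hyc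
    have hmi : IntegrableOn (fun x => (⟪y, Du u x⟫ : ℝ) ^ 2) S := by
      refine DuMeas_integrableOn (R := 4) (M := L ^ 2) hSm hSball ?_ ?_
      · exact (aestronglyMeasurable_const.inner hmDu).pow 2
      · intro x hx
        rw [norm_pow, Real.norm_eq_abs]
        apply pow_le_pow_left₀ (abs_nonneg _)
        refine (abs_real_inner_le_norm _ _).trans ?_
        calc ‖y‖ * ‖Du u x‖ ≤ 1 * L := mul_le_mul hy1 (hDu x hx) (norm_nonneg _) (by norm_num)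
          _ = L := one_mul L
    refine ⟨hmi, ?_⟩
    have hTy := hTT y hy1
    have h1 : ∀ x ∈ S, (⟪y, Du u x⟫ : ℝ) ^ 2 ≤ 2 * TT u 0 x ^ 2 + 2 * TT u y x ^ 2 := by
      intro x _
      have h2 : (⟪y, Du u x⟫ : ℝ) = TT u 0 x - TT u y x := by
        unfold TT
        rw [inner_sub_left, inner_sub_left, inner_zero_left]; ring
      rw [h2]
      nlinarith [sq_nonneg (TT u 0 x + TT u y x)]
    have hadd : IntegrableOn (fun x => 2 * TT u 0 x ^ 2 + 2 * TT u y x ^ 2) S :=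
      (hT0.const_mul 2).add (hTy.const_mul 2)
    calc ∫ x in S, (⟪y, Du u x⟫ : ℝ) ^ 2
        ≤ ∫ x in S, (2 * TT u 0 x ^ 2 + 2 * TT u y x ^ 2) :=
          setIntegral_mono_on hmi hadd hSm h1
      _ = 2 * (∫ x in S, TT u 0 x ^ 2) + 2 * ∫ x in S, TT u y x ^ 2 := by
          rw [integral_add (hT0.const_mul 2) (hTy.const_mul 2), integral_const_mul,
            integral_const_mul]
      _ ≤ 2 * κ + 2 * κ := by
          have k1 := hA.hom0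
          have k2 := hA.homF y (by linarith) hy1 hyF
          linarith
      _ = 4 * κ := by ring
  obtain ⟨hi1, hk1⟩ := hy y₁ hy₁ hF₁ hy₁c
  obtain ⟨hi2, hk2⟩ := hy y₂ hy₂ hF₂ hy₂c
  have hmDe : AEStronglyMeasurable (fun x => (⟪Du u x, e⟫ : ℝ)) (volume.restrict S) :=
    hmDu.inner aestronglyMeasurable_const
  have hiP : IntegrableOn (fun x => ‖Du u x - ⟪Du u x, e⟫ • e‖ ^ 2) S := by
    refine DuMeas_integrableOn (R := 4) (M := L ^ 2) hSm hSball ?_ ?_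
    · exact (hmDu.sub (hmDe.smul aestronglyMeasurable_const)).norm.pow 2
    · intro x hx
      rw [norm_pow, norm_norm]
      exact pow_le_pow_left₀ (norm_nonneg _) ((OneDim_norm_sub_le he _).trans (hDu x hx)) 2
  have hκ0 : 0 ≤ κ := le_trans (integral_nonneg fun x => sq_nonneg _) hA.hom0
  have hP : ∫ x in S, ‖Du u x - ⟪Du u x, e⟫ • e‖ ^ 2 ≤ 24 / c ^ 4 * κ := by
    have hadd : IntegrableOn
        (fun x => 3 / c ^ 4 * ((⟪y₁, Du u x⟫ : ℝ) ^ 2 + (⟪y₂, Du u x⟫ : ℝ) ^ 2)) S :=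
      (hi1.add hi2).const_mul _
    calc ∫ x in S, ‖Du u x - ⟪Du u x, e⟫ • e‖ ^ 2
        ≤ ∫ x in S, 3 / c ^ 4 * ((⟪y₁, Du u x⟫ : ℝ) ^ 2 + (⟪y₂, Du u x⟫ : ℝ) ^ 2) :=
          setIntegral_mono_on hiP hadd hSm fun x _ => hproj _
      _ = 3 / c ^ 4 * ((∫ x in S, (⟪y₁, Du u x⟫ : ℝ) ^ 2) + ∫ x in S, (⟪y₂, Du u x⟫ : ℝ) ^ 2) := by
          rw [integral_const_mul, integral_add hi1 hi2]
      _ ≤ 3 / c ^ 4 * (4 * κ + 4 * κ) :=
          mul_le_mul_of_nonneg_left (add_le_add hk1 hk2) (by positivity)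
      _ = 24 / c ^ 4 * κ := by ring
  refine ⟨e, he, ?_, ?_⟩
  · refine hP.trans ?_
    apply mul_le_mul_of_nonneg_right _ hκ0
    have : 24 / c ^ 4 ≤ 768 / c ^ 4 := div_le_div_of_nonneg_right (by norm_num) (by positivity)
    linarith
  · have hiE : IntegrableOn (fun x => (⟪x, e⟫ * ⟪Du u x, e⟫ - u x) ^ 2) S := by
      refine DuMeas_integrableOn (R := 4) (M := (12 * L) ^ 2) hSm hSball ?_ ?_
      · have hce : Continuous fun x : E3 => (⟪x, e⟫ : ℝ) := by fun_prop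
        exact ((hce.aestronglyMeasurable.mul hmDe).sub hmu).pow 2
      · intro x hx
        rw [norm_pow, Real.norm_eq_abs]
        apply pow_le_pow_left₀ (abs_nonneg _)
        have h1 : |(⟪x, e⟫ * ⟪Du u x, e⟫ : ℝ)| ≤ 4 * L := by
          rw [abs_mul]
          have h4 : ‖x‖ < 4 := by simpa using hx.1
          have h5 : |(⟪x, e⟫ : ℝ)| ≤ 4 := by
            refine (abs_real_inner_le_norm _ _).trans ?_
            rw [he, mul_one]; exact h4.le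
          have h6 : |(⟪Du u x, e⟫ : ℝ)| ≤ L := by
            refine (abs_real_inner_le_norm _ _).trans ?_
            rw [he, mul_one]; exact hDu x hx
          exact mul_le_mul h5 h6 (abs_nonneg _) (by norm_num)
        have h2 := abs_sub (⟪x, e⟫ * ⟪Du u x, e⟫ : ℝ) (u x)
        rw [abs_of_nonneg (hu0 x hx)] at h2
        linarith [hu8 x hx]
    have h1 : ∀ x ∈ S, (⟪x, e⟫ * ⟪Du u x, e⟫ - u x) ^ 2 ≤
        2 * TT u 0 x ^ 2 + 32 * ‖Du u x - ⟪Du u x, e⟫ • e‖ ^ 2 := by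
      intro x hx
      have h2 : (⟪x, e⟫ * ⟪Du u x, e⟫ - u x : ℝ) =
          TT u 0 x - ⟪x, Du u x - ⟪Du u x, e⟫ • e⟫ := by
        unfold TT
        rw [inner_sub_right, real_inner_smul_right, sub_zero]; ring
      have h3 : (⟪x, Du u x - ⟪Du u x, e⟫ • e⟫ : ℝ) ^ 2 ≤
          16 * ‖Du u x - ⟪Du u x, e⟫ • e‖ ^ 2 := by
        have h4 : ‖x‖ < 4 := by simpa using hx.1
        have h5 := abs_real_inner_le_norm x (Du u x - ⟪Du u x, e⟫ • e)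
        rw [← sq_abs]
        calc _ ≤ (‖x‖ * ‖Du u x - ⟪Du u x, e⟫ • e‖) ^ 2 := pow_le_pow_left₀ (abs_nonneg _) h5 2
          _ = ‖x‖ ^ 2 * ‖Du u x - ⟪Du u x, e⟫ • e‖ ^ 2 := mul_pow _ _ _
          _ ≤ 16 * ‖Du u x - ⟪Du u x, e⟫ • e‖ ^ 2 := by
            apply mul_le_mul_of_nonneg_right _ (sq_nonneg _)
            nlinarith [norm_nonneg x]
      rw [h2]
      nlinarith [sq_nonneg (TT u 0 x + ⟪x, Du u x - ⟪Du u x, e⟫ • e⟫)]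
    have hadd : IntegrableOn
        (fun x => 2 * TT u 0 x ^ 2 + 32 * ‖Du u x - ⟪Du u x, e⟫ • e‖ ^ 2) S :=
      (hT0.const_mul 2).add (hiP.const_mul 32)
    calc ∫ x in S, (⟪x, e⟫ * ⟪Du u x, e⟫ - u x) ^ 2
        ≤ ∫ x in S, (2 * TT u 0 x ^ 2 + 32 * ‖Du u x - ⟪Du u x, e⟫ • e‖ ^ 2) :=
          setIntegral_mono_on hiE hadd hSm h1
      _ = 2 * (∫ x in S, TT u 0 x ^ 2) + 32 * ∫ x in S, ‖Du u x - ⟪Du u x, e⟫ • e‖ ^ 2 := by
          rw [integral_add (hT0.const_mul 2) (hiP.const_mul 32), integral_const_mul,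
            integral_const_mul]
      _ ≤ 2 * κ + 32 * (24 / c ^ 4 * κ) := by
          have k1 := hA.hom0
          linarith
      _ = (2 + 768 / c ^ 4) * κ := by ring

end Pool.Agent.H32.Flat
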