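import Pool.Agent.H32.Flat.Ident

/-!
# Module F1: the Weiss monotonicity formula with a cut-off

Write `z = x - y`, `t = |z|²/ρ²`, `w = wt t`, `E = |Du|² + 1_{u>0}`,
`A = ∫ χ w⁴ E`, `B = ∫ χ w³ u²`, so `WW = A/ρ³ - 8B/ρ⁵`, `HH = 4B/ρ⁵`.
All integrands are bounded and supported in the compact set `closedBall y ρ ∩ tsupport χ ⊆ O`.

* differentiation under the integral sign in `ρ` (`d w/dρ = 2t/ρ` for `t < 1`):
  `A' = (8/ρ) ∫ χ w³ t E`, `B' = (6/ρ) ∫ χ w² t u²`.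
* `domainVariation` with `X = χ w⁴ z`:
  `8 ∫ χ w³ t E = 3A - 2 ∫ χ w⁴ |Du|² + (16/ρ²) ∫ χ w³ ⟪z,Du⟫² + Err1`.
* `energyIdentity` with `φ = χ w⁴`: `∫ χ w⁴ |Du|² = (8/ρ²) ∫ χ w³ u ⟪z,Du⟫ - Err2`.
* `sqIdentity` with `Y = χ w³ z`: `6 ∫ χ w² t u² = 3B + Err3 + 2 ∫ χ w³ u ⟪z,Du⟫`.
Adding up:
  `WW' = 16/ρ⁶ ∫ χ w³ (⟪z,Du⟫ - u)² + (Err1 + 2 Err2)/ρ⁴ - 8 Err3/ρ⁶`,
  `WW = VV + 8/ρ⁵ ∫ χ w³ u (⟪z,Du⟫ - u) - Err2/ρ³`,
  `HH' = 8/ρ⁶ ∫ χ w³ u (⟪z,Du⟫ - u) + 4 Err3/ρ⁶`.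
-/

open Set Metric MeasureTheory Filter Topology InnerProductSpace
open scoped Laplacian Gradient RealInnerProductSpace

namespace Pool.Agent.H32.Flat

variable {O : Set E3} {u : E3 → ℝ}

/-! ### functions that are measurable and bounded on `K` -/

/-- `g` is measurable and bounded on `K`. -/
def Weiss_BM (K : Set E3) (g : E3 → ℝ) : Prop :=
  AEStronglyMeasurable g (volume.restrict K) ∧ ∃ C : ℝ, ∀ x ∈ K, |g x| ≤ C

theorem Weiss_BM.add {K : Set E3} {f g : E3 → ℝ} (hf : Weiss_BM K f) (hg : Weiss_BM K g) :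
    Weiss_BM K (fun x => f x + g x) := by
  obtain ⟨hf1, C, hC⟩ := hf
  obtain ⟨hg1, D, hD⟩ := hg
  exact ⟨hf1.add hg1, C + D, fun x hx =>
    (abs_add_le _ _).trans (add_le_add (hC x hx) (hD x hx))⟩

theorem Weiss_BM.mul {K : Set E3} {f g : E3 → ℝ} (hf : Weiss_BM K f) (hg : Weiss_BM K g) :
    Weiss_BM K (fun x => f x * g x) := by
  obtain ⟨hf1, C, hC⟩ := hf
  obtain ⟨hg1, D, hD⟩ := hg
  refine ⟨hf1.mul hg1, C * D, fun x hx => ?_⟩
  rw [abs_mul]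
  exact mul_le_mul (hC x hx) (hD x hx) (abs_nonneg _) ((abs_nonneg _).trans (hC x hx))

theorem Weiss_BM.of_continuous {K : Set E3} (hK : IsCompact K) {f : E3 → ℝ}
    (hf : ContinuousOn f K) : Weiss_BM K f := by
  refine ⟨hf.aestronglyMeasurable hK.measurableSet, ?_⟩
  obtain ⟨C, hC⟩ := hK.exists_bound_of_continuousOn hf
  exact ⟨C, fun x hx => by simpa using hC x hx⟩

theorem Weiss_BM.const {K : Set E3} (c : ℝ) : Weiss_BM K (fun _ => c) :=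
  ⟨aestronglyMeasurable_const, |c|, fun _ _ => le_rfl⟩

theorem Weiss_BM.sub {K : Set E3} {f g : E3 → ℝ} (hf : Weiss_BM K f) (hg : Weiss_BM K g) :
    Weiss_BM K (fun x => f x - g x) := by
  have := hf.add ((Weiss_BM.const (-1)).mul hg)
  refine (funext fun x => ?_ : (fun x => f x - g x) = fun x => f x + -1 * g x) ▸ this
  ring

theorem Weiss_BM.sq {K : Set E3} {f : E3 → ℝ} (hf : Weiss_BM K f) :
    Weiss_BM K (fun x => f x ^ 2) := by
  have := hf.mul hf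
  refine (funext fun x => ?_ : (fun x => f x ^ 2) = fun x => f x * f x) ▸ this
  ring

theorem Weiss_BM.integrableOn {K : Set E3} (hK : IsCompact K) {g : E3 → ℝ}
    (hg : Weiss_BM K g) : IntegrableOn g K := by
  obtain ⟨hg1, C, hC⟩ := hg
  have : IsFiniteMeasure (volume.restrict K) :=
    ⟨by rw [Measure.restrict_apply_univ]; exact hK.measure_lt_top⟩
  refine Integrable.of_bound hg1 C ?_
  exact (ae_restrict_iff' hK.measurableSet).2 (Eventually.of_forall fun x hx => by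
    simpa using hC x hx)

theorem Weiss_BM.integrable {K : Set E3} (hK : IsCompact K) {g : E3 → ℝ}
    (hg : Weiss_BM K g) (h0 : ∀ x, x ∉ K → g x = 0) : Integrable g := by
  refine (integrableOn_iff_integrable_of_support_subset (s := K) ?_).1 (hg.integrableOn hK)
  intro x hx
  by_contra hxK
  exact hx (h0 x hxK)

/-! ### the data `u`, `ind u`, `Du u` -/

theorem Weiss_isOpen_pos (h : OnePhase O u) : IsOpen (O ∩ {x | 0 < u x}) :=
  h.cont.isOpen_inter_preimage h.isOpen isOpen_Ioi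

theorem Weiss_u (h : OnePhase O u) {K : Set E3} (hK : IsCompact K) (hKO : K ⊆ O) :
    Weiss_BM K u :=
  Weiss_BM.of_continuous hK (h.cont.mono hKO)

theorem Weiss_ind (h : OnePhase O u) {K : Set E3} (hKO : K ⊆ O) :
    Weiss_BM K (ind u) := by
  refine ⟨?_, 1, fun x _ => ?_⟩
  · have h1 : AEStronglyMeasurable (indicator (O ∩ {x | 0 < u x}) (fun _ => (1 : ℝ)))
        (volume.restrict K) :=
      (aestronglyMeasurable_const (μ := (volume : Measure E3).restrict K)).indicator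
        (Weiss_isOpen_pos h).measurableSet
    have h2 : AEStronglyMeasurable (indicator (O ∩ {x | 0 < u x}) (fun _ => (1 : ℝ)))
        (volume.restrict O) :=
      (aestronglyMeasurable_const (μ := (volume : Measure E3).restrict O)).indicator
        (Weiss_isOpen_pos h).measurableSet
    refine AEStronglyMeasurable.mono_measure ?_ (Measure.restrict_mono hKO le_rfl)
    refine h2.congr ?_
    refine (ae_restrict_iff' h.isOpen.measurableSet).2 (Eventually.of_forall fun x hx => ?_)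
    by_cases hu : 0 < u x
    · rw [indicator_of_mem (show x ∈ O ∩ {x | 0 < u x} from ⟨hx, hu⟩)]
      simp [ind, hu]
    · rw [indicator_of_notMem (fun hh => hu hh.2)]
      simp [ind, hu]
  · unfold ind
    split_ifs <;> simp

theorem Weiss_gradient_contOn (h : OnePhase O u) :
    ContinuousOn (gradient u) (O ∩ {x | 0 < u x}) := by
  intro x hx
  have h1 : ContDiffAt ℝ 2 u x := (h.harm x hx.1 hx.2).1
  have h2 : ContinuousAt (fderiv ℝ u) x :=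
    (h1.fderiv_right (m := 1) (by norm_num)).continuousAt
  exact ((toDual ℝ E3).symm.continuous.continuousAt.comp h2).continuousWithinAt

theorem Weiss_Du_meas (h : OnePhase O u) {K : Set E3} (hKO : K ⊆ O) :
    AEStronglyMeasurable (Du u) (volume.restrict K) := by
  have h2 : AEStronglyMeasurable (indicator (O ∩ {x | 0 < u x}) (gradient u))
      (volume.restrict O) := by
    refine (aestronglyMeasurable_indicator_iff (Weiss_isOpen_pos h).measurableSet).2 ?_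
    refine AEStronglyMeasurable.mono_measure ?_ (Measure.restrict_mono_measure
      Measure.restrict_le_self _)
    exact (Weiss_gradient_contOn h).aestronglyMeasurable (Weiss_isOpen_pos h).measurableSet
  refine AEStronglyMeasurable.mono_measure ?_ (Measure.restrict_mono hKO le_rfl)
  refine h2.congr ?_
  refine (ae_restrict_iff' h.isOpen.measurableSet).2 (Eventually.of_forall fun x hx => ?_)
  by_cases hu : 0 < u x
  · rw [indicator_of_mem (show x ∈ O ∩ {x | 0 < u x} from ⟨hx, hu⟩)]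
    simp [Du, hu]
  · rw [indicator_of_notMem (fun hh => hu hh.2)]
    simp [Du, hu]

theorem Weiss_Du_bdd (h : OnePhase O u) {K : Set E3} (hK : IsCompact K) (hKO : K ⊆ O) :
    ∃ M : ℝ, 0 ≤ M ∧ ∀ x ∈ K, ‖Du u x‖ ≤ M := by
  obtain ⟨M, hM0, hM⟩ := grad_bdd h hK hKO
  refine ⟨M, hM0, fun x hx => ?_⟩
  by_cases hu : 0 < u x
  · simpa [Du, hu] using hM x hx hu
  · simpa [Du, hu] using hM0

theorem Weiss_normsq (h : OnePhase O u) {K : Set E3} (hK : IsCompact K) (hKO : K ⊆ O) :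
    Weiss_BM K (fun x => ‖Du u x‖ ^ 2) := by
  refine Weiss_BM.sq ⟨(Weiss_Du_meas h hKO).norm, ?_⟩
  obtain ⟨M, _, hM⟩ := Weiss_Du_bdd h hK hKO
  exact ⟨M, fun x hx => by simpa using hM x hx⟩

theorem Weiss_inner (h : OnePhase O u) {K : Set E3} (hK : IsCompact K) (hKO : K ⊆ O)
    {f : E3 → E3} (hf : Continuous f) : Weiss_BM K (fun x => ⟪f x, Du u x⟫) := by
  refine ⟨hf.aestronglyMeasurable.inner (Weiss_Du_meas h hKO), ?_⟩
  obtain ⟨M, hM0, hM⟩ := Weiss_Du_bdd h hK hKO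
  obtain ⟨C, hC⟩ := hK.exists_bound_of_continuousOn hf.continuousOn
  refine ⟨C * M, fun x hx => ?_⟩
  refine (abs_real_inner_le_norm _ _).trans ?_
  exact mul_le_mul (hC x hx) (hM x hx) (norm_nonneg _) ((norm_nonneg _).trans (hC x hx))

/-! ### the weight -/

theorem Weiss_wt_cont : Continuous wt := by
  unfold wt
  fun_prop

theorem Weiss_wt_nonneg (t : ℝ) : 0 ≤ wt t := le_max_right _ _

theorem Weiss_wt_le {t : ℝ} (ht : 0 ≤ t) : wt t ≤ 1 := by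
  unfold wt
  exact max_le (by linarith) zero_le_one

theorem Weiss_wt_hasDerivAt (m : ℕ) (t : ℝ) :
    HasDerivAt (fun t => wt t ^ (m + 2)) (-((m + 2 : ℕ) : ℝ) * wt t ^ (m + 1)) t := by
  rcases lt_trichotomy t 1 with ht | ht | ht
  · have h1 : wt t = 1 - t := max_eq_left (by linarith)
    have h2 : (fun t => wt t ^ (m + 2)) =ᶠ[𝓝 t] fun t => (1 - t) ^ (m + 2) := by
      filter_upwards [Iio_mem_nhds ht] with s hs
      rw [show wt s = 1 - s from max_eq_left (by linarith [mem_Iio.1 hs])]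
    have h3 : HasDerivAt (fun t : ℝ => (1 - t) ^ (m + 2))
        (((m + 2 : ℕ) : ℝ) * (1 - t) ^ (m + 2 - 1) * (-1)) t :=
      ((hasDerivAt_id t).const_sub 1).pow (m + 2)
    rw [h1]
    refine (h3.congr_of_eventuallyEq h2).congr_deriv ?_
    rw [show m + 2 - 1 = m + 1 from rfl]
    ring
  · subst ht
    have h1 : wt 1 = 0 := by simp [wt]
    rw [h1, zero_pow (Nat.succ_ne_zero m), mul_zero, hasDerivAt_iff_isLittleO]
    have h2 : (fun s : ℝ => wt s ^ (m + 2) - wt 1 ^ (m + 2) - (s - 1) • (0 : ℝ)) =O[𝓝 1]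
        fun s => (s - 1) ^ 2 := by
      refine Asymptotics.IsBigO.of_bound 1 ?_
      filter_upwards [Ioo_mem_nhds (show (0 : ℝ) < 1 by norm_num) (show (1 : ℝ) < 2 by norm_num)]
        with s hs
      rw [h1, zero_pow (by omega), sub_zero, smul_zero, sub_zero, one_mul]
      rw [Real.norm_of_nonneg (pow_nonneg (Weiss_wt_nonneg s) _),
        Real.norm_of_nonneg (sq_nonneg _)]
      have h3 : wt s ≤ 1 := Weiss_wt_le hs.1.le
      calc wt s ^ (m + 2) ≤ wt s ^ 2 :=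
            pow_le_pow_of_le_one (Weiss_wt_nonneg s) h3 (by omega)
        _ ≤ |1 - s| ^ 2 := by
            refine pow_le_pow_left₀ (Weiss_wt_nonneg s) ?_ 2
            exact max_le (le_abs_self _) (abs_nonneg _)
        _ = (s - 1) ^ 2 := by rw [sq_abs]; ring
    refine h2.trans_isLittleO ?_
    have h4 := (Asymptotics.isLittleO_pow_id (𝕜 := ℝ) (n := 2) (by norm_num))
    have h5 : Tendsto (fun s : ℝ => s - 1) (𝓝 1) (𝓝 0) := by
      have : Continuous fun s : ℝ => s - 1 := by fun_prop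
      simpa using this.tendsto 1
    exact h4.comp_tendsto h5
  · have h1 : wt t = 0 := max_eq_right (by linarith)
    have h2 : (fun t => wt t ^ (m + 2)) =ᶠ[𝓝 t] fun _ => (0 : ℝ) := by
      filter_upwards [Ioi_mem_nhds ht] with s hs
      rw [show wt s = 0 from max_eq_right (by linarith [mem_Ioi.1 hs]), zero_pow (by omega)]
    rw [h1, zero_pow (Nat.succ_ne_zero m), mul_zero]
    exact (hasDerivAt_const t (0 : ℝ)).congr_of_eventuallyEq h2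

theorem Weiss_wt_hasDerivAt_rad (m : ℕ) (s : ℝ) {r : ℝ} (hr : 0 < r) :
    HasDerivAt (fun r => wt (s / r ^ 2) ^ (m + 2))
      (2 * ((m + 2 : ℕ) : ℝ) / r * (wt (s / r ^ 2) ^ (m + 1) * (s / r ^ 2))) r := by
  have h1 : HasDerivAt (fun r : ℝ => s / r ^ 2) (-(2 * s / r ^ 3)) r := by
    have h2 : HasDerivAt (fun r : ℝ => r ^ 2) (2 * r) r := by
      simpa using hasDerivAt_pow 2 r
    have h3 := (hasDerivAt_const r s).div h2 (by positivity)
    refine h3.congr_deriv ?_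
    field_simp
    ring
  have h4 := (Weiss_wt_hasDerivAt m (s / r ^ 2)).comp r h1
  refine h4.congr_deriv ?_
  field_simp

theorem Weiss_w_cont (y : E3) (ρ : ℝ) : Continuous fun x : E3 => wt (‖x - y‖ ^ 2 / ρ ^ 2) :=
  Weiss_wt_cont.comp (by fun_prop)

theorem Weiss_w_zero {y : E3} {ρ : ℝ} (hρ : 0 < ρ) {x : E3} (hx : x ∉ closedBall y ρ) :
    wt (‖x - y‖ ^ 2 / ρ ^ 2) = 0 := by
  rw [mem_closedBall, dist_eq_norm, not_le] at hx
  unfold wt
  refine max_eq_right ?_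
  rw [sub_nonpos, le_div_iff₀ (by positivity), one_mul]
  exact pow_le_pow_left₀ hρ.le hx.le 2

/-- off the set `K` everything vanishes -/
theorem Weiss_off {χ : E3 → ℝ} {y : E3} {ρ : ℝ} (hρ : 0 < ρ) {x : E3}
    (hx : x ∉ closedBall y ρ ∩ tsupport χ) :
    wt (‖x - y‖ ^ 2 / ρ ^ 2) = 0 ∨ (χ x = 0 ∧ gradient χ x = 0) := by
  by_cases h1 : x ∈ closedBall y ρ
  · right
    have h2 : x ∉ tsupport χ := fun h2 => hx ⟨h1, h2⟩
    refine ⟨image_eq_zero_of_notMem_tsupport h2, ?_⟩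
    have h3 : χ =ᶠ[𝓝 x] fun _ => 0 := notMem_tsupport_iff_eventuallyEq.1 h2
    rw [h3.gradient_eq]
    exact gradient_fun_const x 0
  · exact Or.inl (Weiss_w_zero hρ h1)

theorem Weiss_contDiff_phi {χ : E3 → ℝ} (hχ : ContDiff ℝ 1 χ) (y : E3) (ρ : ℝ) (m : ℕ) :
    ContDiff ℝ 1 (fun x => χ x * wt (‖x - y‖ ^ 2 / ρ ^ 2) ^ (m + 2)) := by
  have h1 := contDiff_wt (y := y) (ρ := ρ) (m + 1)
  refine hχ.mul (h1.of_le ?_)
  exact_mod_cast Nat.le_add_left 1 m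

theorem Weiss_grad_phi {χ : E3 → ℝ} (hχ : ContDiff ℝ 1 χ) (y : E3) (ρ : ℝ) (m : ℕ) (x : E3) :
    gradient (fun x => χ x * wt (‖x - y‖ ^ 2 / ρ ^ 2) ^ (m + 2)) x =
      wt (‖x - y‖ ^ 2 / ρ ^ 2) ^ (m + 2) • gradient χ x +
        (χ x * (-(2 * (m + 2) / ρ ^ 2) * wt (‖x - y‖ ^ 2 / ρ ^ 2) ^ (m + 1))) • (x - y) := by
  have h1 : DifferentiableAt ℝ χ x := hχ.differentiable (by norm_num) x
  have h2 : DifferentiableAt ℝ (fun x : E3 => wt (‖x - y‖ ^ 2 / ρ ^ 2) ^ (m + 2)) x :=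
    ((contDiff_wt (y := y) (ρ := ρ) (m + 1)).differentiable (by simp)) x
  have h3 := gradient_wt (y := y) (x := x) (ρ := ρ) m
  rw [gradient] at h3 ⊢
  rw [fderiv_fun_mul h1 h2, map_add, map_smulₛₗ, map_smulₛₗ, h3, gradient]
  simp only [conj_trivial]
  rw [add_comm, mul_smul (χ x)]

theorem Weiss_tsupport_phi {χ : E3 → ℝ} {y : E3} {ρ : ℝ} (hρ : 0 < ρ) (m : ℕ) :
    tsupport (fun x => χ x * wt (‖x - y‖ ^ 2 / ρ ^ 2) ^ (m + 2)) ⊆
      closedBall y ρ ∩ tsupport χ := by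
  refine closure_minimal ?_ (isClosed_closedBall.inter (isClosed_tsupport χ))
  intro x hx
  by_contra hx2
  rcases Weiss_off hρ hx2 with h1 | h1
  · exact hx (by simp [h1])
  · exact hx (by simp [h1.1])

theorem Weiss_compact {χ : E3 → ℝ} {y : E3} {ρ : ℝ} :
    IsCompact (closedBall y ρ ∩ tsupport χ) :=
  (isCompact_closedBall y ρ).inter_right (isClosed_tsupport χ)

theorem Weiss_cs_phi {χ : E3 → ℝ} {y : E3} {ρ : ℝ} (hρ : 0 < ρ) (m : ℕ) :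
    HasCompactSupport (fun x => χ x * wt (‖x - y‖ ^ 2 / ρ ^ 2) ^ (m + 2)) :=
  (Weiss_compact (χ := χ) (y := y) (ρ := ρ)).of_isClosed_subset (isClosed_tsupport _)
    (Weiss_tsupport_phi hρ m)

theorem Weiss_int1 {χ : E3 → ℝ} (hχ : Continuous χ) {y : E3} {ρ : ℝ} (hρ : 0 < ρ)
    {f : E3 → ℝ} (hf : Weiss_BM (closedBall y ρ ∩ tsupport χ) f) {n : ℕ} (hn : n ≠ 0) :
    Integrable (fun x => χ x * wt (‖x - y‖ ^ 2 / ρ ^ 2) ^ n * f x) := by
  refine Weiss_BM.integrable Weiss_compact (Weiss_BM.mul (Weiss_BM.of_continuous Weiss_compact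
    (hχ.mul ((Weiss_w_cont y ρ).pow n)).continuousOn) hf) ?_
  intro x hx
  rcases Weiss_off hρ hx with h1 | h1
  · simp [h1, hn]
  · simp [h1.1]

theorem Weiss_int2 {χ : E3 → ℝ} {y : E3} {ρ : ℝ} (hρ : 0 < ρ)
    {f : E3 → ℝ} (hf : Weiss_BM (closedBall y ρ ∩ tsupport χ) f)
    (h0 : ∀ x, gradient χ x = 0 → f x = 0) {n : ℕ} (hn : n ≠ 0) :
    Integrable (fun x => wt (‖x - y‖ ^ 2 / ρ ^ 2) ^ n * f x) := by
  refine Weiss_BM.integrable Weiss_compact (Weiss_BM.mul (Weiss_BM.of_continuous Weiss_compact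
    ((Weiss_w_cont y ρ).pow n).continuousOn) hf) ?_
  intro x hx
  rcases Weiss_off hρ hx with h1 | h1
  · simp [h1, hn]
  · simp [h0 x h1.2]

theorem Weiss_grad_cont {χ : E3 → ℝ} (hχ : ContDiff ℝ 1 χ) : Continuous (gradient χ) :=
  (toDual ℝ E3).symm.continuous.comp (hχ.continuous_fderiv (by norm_num))

theorem Weiss_lin3 {F1 F2 F3 : E3 → ℝ} (h1 : Integrable F1) (h2 : Integrable F2)
    (h3 : Integrable F3) (a b : ℝ) :
    ∫ x, (F1 x + (a * F2 x + b * F3 x)) = (∫ x, F1 x) + (a * (∫ x, F2 x) + b * ∫ x, F3 x) := by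
  have j2 : Integrable fun x => a * F2 x := h2.const_mul a
  have j3 : Integrable fun x => b * F3 x := h3.const_mul b
  have k : Integrable fun x => a * F2 x + b * F3 x := j2.add j3
  rw [integral_add h1 k, integral_add j2 j3, integral_const_mul, integral_const_mul]

theorem Weiss_lin5 {F1 F2 F3 F4 F5 : E3 → ℝ} (h1 : Integrable F1) (h2 : Integrable F2)
    (h3 : Integrable F3) (h4 : Integrable F4) (h5 : Integrable F5) (a b c d : ℝ) :
    ∫ x, (F1 x + (a * F2 x + (b * F3 x + (c * F4 x + d * F5 x)))) =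
      (∫ x, F1 x) + (a * (∫ x, F2 x) + (b * (∫ x, F3 x) + (c * (∫ x, F4 x) +
        d * ∫ x, F5 x))) := by
  have j2 : Integrable fun x => a * F2 x := h2.const_mul a
  have j3 : Integrable fun x => b * F3 x := h3.const_mul b
  have j4 : Integrable fun x => c * F4 x := h4.const_mul c
  have j5 : Integrable fun x => d * F5 x := h5.const_mul d
  have k4 : Integrable fun x => c * F4 x + d * F5 x := j4.add j5
  have k3 : Integrable fun x => b * F3 x + (c * F4 x + d * F5 x) := j3.add k4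
  have k2 : Integrable fun x => a * F2 x + (b * F3 x + (c * F4 x + d * F5 x)) := j2.add k3
  rw [integral_add h1 k2, integral_add j2 k3, integral_add j3 k4, integral_add j4 j5,
    integral_const_mul, integral_const_mul, integral_const_mul, integral_const_mul]

/-! ### the three identities -/

theorem Weiss_energy (h : OnePhase O u) {χ : E3 → ℝ} (hχ : ContDiff ℝ 1 χ) {y : E3} {ρ : ℝ}
    (hρ : 0 < ρ) (hs : closedBall y ρ ∩ tsupport χ ⊆ O) :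
    ∫ x, χ x * wt (‖x - y‖ ^ 2 / ρ ^ 2) ^ 4 * ‖Du u x‖ ^ 2 =
      8 / ρ ^ 2 * (∫ x, χ x * wt (‖x - y‖ ^ 2 / ρ ^ 2) ^ 3 * (u x * ⟪x - y, Du u x⟫)) -
        Err2 χ u y ρ := by
  have key := energyIdentity h (Weiss_contDiff_phi hχ y ρ 2) (Weiss_cs_phi hρ 2)
    ((Weiss_tsupport_phi hρ 2).trans hs)
  have hK := Weiss_compact (χ := χ) (y := y) (ρ := ρ)
  have hu := Weiss_u h hK hs
  have hz : Continuous fun x : E3 => x - y := by fun_prop
  have e1 : (fun x => u x * ⟪Du u x, gradient (fun x => χ x * wt (‖x - y‖ ^ 2 / ρ ^ 2) ^ (2 + 2)) x⟫)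
      = fun x => wt (‖x - y‖ ^ 2 / ρ ^ 2) ^ 4 * (u x * ⟪gradient χ x, Du u x⟫) +
        (-(8 / ρ ^ 2)) * (χ x * wt (‖x - y‖ ^ 2 / ρ ^ 2) ^ 3 * (u x * ⟪x - y, Du u x⟫)) := by
    funext x
    rw [Weiss_grad_phi hχ y ρ 2 x, inner_add_right, inner_smul_right, inner_smul_right,
      real_inner_comm (Du u x) (gradient χ x), real_inner_comm (Du u x) (x - y)]
    norm_num
    ring
  rw [show (2 + 2 : ℕ) = 4 from rfl] at key e1
  rw [key, e1, integral_add, integral_const_mul, Err2]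
  · ring
  · exact Weiss_int2 hρ (hu.mul (Weiss_inner h hK hs (Weiss_grad_cont hχ)))
      (fun x hx => by simp [hx]) (by norm_num)
  · exact (Weiss_int1 hχ.continuous hρ (hu.mul (Weiss_inner h hK hs hz)) (by norm_num)).const_mul _

theorem Weiss_divg (χ : E3 → ℝ) (hχ : ContDiff ℝ 1 χ) (y : E3) (ρ : ℝ) (m : ℕ) (x : E3) :
    divg (fun x => (χ x * wt (‖x - y‖ ^ 2 / ρ ^ 2) ^ (m + 2)) • (x - y)) x =
      wt (‖x - y‖ ^ 2 / ρ ^ 2) ^ (m + 2) * ⟪x - y, gradient χ x⟫ -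
        2 * (m + 2) * (χ x * wt (‖x - y‖ ^ 2 / ρ ^ 2) ^ (m + 1) * (‖x - y‖ ^ 2 / ρ ^ 2)) +
        3 * (χ x * wt (‖x - y‖ ^ 2 / ρ ^ 2) ^ (m + 2)) := by
  have h1 : DifferentiableAt ℝ (fun x => χ x * wt (‖x - y‖ ^ 2 / ρ ^ 2) ^ (m + 2)) x :=
    (Weiss_contDiff_phi hχ y ρ m).differentiable (by norm_num) x
  have h2 : DifferentiableAt ℝ (fun x : E3 => x - y) x := by fun_prop
  rw [divg_smul h1 h2, Weiss_grad_phi hχ y ρ m x, divg_sub_const, inner_add_left,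
    real_inner_smul_left, real_inner_smul_left, real_inner_self_eq_norm_sq,
    real_inner_comm (x - y) (gradient χ x)]
  ring

theorem Weiss_tsupport_X {χ : E3 → ℝ} {y : E3} {ρ : ℝ} (hρ : 0 < ρ) (m : ℕ) :
    tsupport (fun x => (χ x * wt (‖x - y‖ ^ 2 / ρ ^ 2) ^ (m + 2)) • (x - y)) ⊆
      closedBall y ρ ∩ tsupport χ := by
  refine closure_minimal ?_ (isClosed_closedBall.inter (isClosed_tsupport χ))
  intro x hx
  by_contra hx2
  rcases Weiss_off hρ hx2 with h1 | h1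
  · exact hx (by simp [h1])
  · exact hx (by simp [h1.1])

theorem Weiss_cs_X {χ : E3 → ℝ} {y : E3} {ρ : ℝ} (hρ : 0 < ρ) (m : ℕ) :
    HasCompactSupport (fun x => (χ x * wt (‖x - y‖ ^ 2 / ρ ^ 2) ^ (m + 2)) • (x - y)) :=
  (Weiss_compact (χ := χ) (y := y) (ρ := ρ)).of_isClosed_subset (isClosed_tsupport _)
    (Weiss_tsupport_X hρ m)

theorem Weiss_contDiff_X {χ : E3 → ℝ} (hχ : ContDiff ℝ 1 χ) (y : E3) (ρ : ℝ) (m : ℕ) :
    ContDiff ℝ 1 (fun x => (χ x * wt (‖x - y‖ ^ 2 / ρ ^ 2) ^ (m + 2)) • (x - y)) :=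
  (Weiss_contDiff_phi hχ y ρ m).smul (contDiff_id.sub contDiff_const)

theorem Weiss_square (h : OnePhase O u) {χ : E3 → ℝ} (hχ : ContDiff ℝ 1 χ) {y : E3} {ρ : ℝ}
    (hρ : 0 < ρ) (hs : closedBall y ρ ∩ tsupport χ ⊆ O) :
    6 * (∫ x, χ x * wt (‖x - y‖ ^ 2 / ρ ^ 2) ^ 2 * (‖x - y‖ ^ 2 / ρ ^ 2 * u x ^ 2)) =
      3 * (∫ x, χ x * wt (‖x - y‖ ^ 2 / ρ ^ 2) ^ 3 * u x ^ 2) + Err3 χ u y ρ +
      2 * ∫ x, χ x * wt (‖x - y‖ ^ 2 / ρ ^ 2) ^ 3 * (u x * ⟪x - y, Du u x⟫) := by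
  have key := sqIdentity h (Weiss_contDiff_X hχ y ρ 1) (Weiss_cs_X hρ 1)
    ((Weiss_tsupport_X hρ 1).trans hs)
  have hK := Weiss_compact (χ := χ) (y := y) (ρ := ρ)
  have hu := Weiss_u h hK hs
  have hz : Continuous fun x : E3 => x - y := by fun_prop
  have hgc := Weiss_grad_cont hχ
  have ht : Weiss_BM (closedBall y ρ ∩ tsupport χ) (fun x => ‖x - y‖ ^ 2 / ρ ^ 2) :=
    Weiss_BM.of_continuous hK (Continuous.continuousOn (by fun_prop))
  have e1 : (fun x => u x ^ 2 *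
      divg (fun x => (χ x * wt (‖x - y‖ ^ 2 / ρ ^ 2) ^ (1 + 2)) • (x - y)) x) =
      fun x => wt (‖x - y‖ ^ 2 / ρ ^ 2) ^ 3 * (u x ^ 2 * ⟪x - y, gradient χ x⟫) +
        ((-6) * (χ x * wt (‖x - y‖ ^ 2 / ρ ^ 2) ^ 2 * (‖x - y‖ ^ 2 / ρ ^ 2 * u x ^ 2)) +
        3 * (χ x * wt (‖x - y‖ ^ 2 / ρ ^ 2) ^ 3 * u x ^ 2)) := by
    funext x
    rw [Weiss_divg χ hχ y ρ 1 x]
    norm_num
    ring
  have e2 : (fun x => u x * ⟪Du u x, (χ x * wt (‖x - y‖ ^ 2 / ρ ^ 2) ^ (1 + 2)) • (x - y)⟫) =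
      fun x => χ x * wt (‖x - y‖ ^ 2 / ρ ^ 2) ^ 3 * (u x * ⟪x - y, Du u x⟫) := by
    funext x
    rw [inner_smul_right, real_inner_comm (Du u x) (x - y)]
    ring
  have i1 : Integrable fun x => wt (‖x - y‖ ^ 2 / ρ ^ 2) ^ 3 *
      (u x ^ 2 * ⟪x - y, gradient χ x⟫) :=
    Weiss_int2 hρ (hu.sq.mul (Weiss_BM.of_continuous hK
      (hz.inner hgc).continuousOn)) (fun x hx => by simp [hx]) (by norm_num)
  have i2 : Integrable fun x => χ x * wt (‖x - y‖ ^ 2 / ρ ^ 2) ^ 2 *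
      (‖x - y‖ ^ 2 / ρ ^ 2 * u x ^ 2) :=
    Weiss_int1 hχ.continuous hρ (ht.mul hu.sq) (by norm_num)
  have i3 : Integrable fun x => χ x * wt (‖x - y‖ ^ 2 / ρ ^ 2) ^ 3 * u x ^ 2 :=
    Weiss_int1 hχ.continuous hρ hu.sq (by norm_num)
  rw [e1, e2, Weiss_lin3 i1 i2 i3] at key
  rw [Err3]
  linarith

theorem Weiss_domain (h : OnePhase O u) {χ : E3 → ℝ} (hχ : ContDiff ℝ 1 χ) {y : E3} {ρ : ℝ}
    (hρ : 0 < ρ) (hs : closedBall y ρ ∩ tsupport χ ⊆ O) :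
    8 * (∫ x, χ x * wt (‖x - y‖ ^ 2 / ρ ^ 2) ^ 3 *
        (‖x - y‖ ^ 2 / ρ ^ 2 * (‖Du u x‖ ^ 2 + ind u x))) =
      3 * (∫ x, χ x * wt (‖x - y‖ ^ 2 / ρ ^ 2) ^ 4 * (‖Du u x‖ ^ 2 + ind u x)) -
      2 * (∫ x, χ x * wt (‖x - y‖ ^ 2 / ρ ^ 2) ^ 4 * ‖Du u x‖ ^ 2) +
      16 / ρ ^ 2 * (∫ x, χ x * wt (‖x - y‖ ^ 2 / ρ ^ 2) ^ 3 * ⟪x - y, Du u x⟫ ^ 2) +
      Err1 χ u y ρ := by
  have key := domainVariation h (Weiss_contDiff_X hχ y ρ 2) (Weiss_cs_X hρ 2)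
    ((Weiss_tsupport_X hρ 2).trans hs)
  have hK := Weiss_compact (χ := χ) (y := y) (ρ := ρ)
  have hu := Weiss_u h hK hs
  have hz : Continuous fun x : E3 => x - y := by fun_prop
  have hgc := Weiss_grad_cont hχ
  have ht : Weiss_BM (closedBall y ρ ∩ tsupport χ) (fun x => ‖x - y‖ ^ 2 / ρ ^ 2) :=
    Weiss_BM.of_continuous hK (Continuous.continuousOn (by fun_prop))
  have hE : Weiss_BM (closedBall y ρ ∩ tsupport χ) (fun x => ‖Du u x‖ ^ 2 + ind u x) :=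
    (Weiss_normsq h hK hs).add (Weiss_ind h hs)
  have e1 : (fun x => (‖Du u x‖ ^ 2 + ind u x) *
      divg (fun x => (χ x * wt (‖x - y‖ ^ 2 / ρ ^ 2) ^ (2 + 2)) • (x - y)) x -
      2 * ⟪Du u x, fderiv ℝ (fun x => (χ x * wt (‖x - y‖ ^ 2 / ρ ^ 2) ^ (2 + 2)) • (x - y)) x
        (Du u x)⟫) =
      fun x => wt (‖x - y‖ ^ 2 / ρ ^ 2) ^ 4 * ((‖Du u x‖ ^ 2 + ind u x) * ⟪x - y, gradient χ x⟫ -
          2 * ⟪gradient χ x, Du u x⟫ * ⟪x - y, Du u x⟫) +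
        ((-8) * (χ x * wt (‖x - y‖ ^ 2 / ρ ^ 2) ^ 3 *
          (‖x - y‖ ^ 2 / ρ ^ 2 * (‖Du u x‖ ^ 2 + ind u x))) +
        (3 * (χ x * wt (‖x - y‖ ^ 2 / ρ ^ 2) ^ 4 * (‖Du u x‖ ^ 2 + ind u x)) +
        ((-2) * (χ x * wt (‖x - y‖ ^ 2 / ρ ^ 2) ^ 4 * ‖Du u x‖ ^ 2) +
        16 / ρ ^ 2 * (χ x * wt (‖x - y‖ ^ 2 / ρ ^ 2) ^ 3 * ⟪x - y, Du u x⟫ ^ 2)))) := by
    funext x
    have h1 : DifferentiableAt ℝ (fun x => χ x * wt (‖x - y‖ ^ 2 / ρ ^ 2) ^ (2 + 2)) x :=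
      (Weiss_contDiff_phi hχ y ρ 2).differentiable (by norm_num) x
    have h2 : DifferentiableAt ℝ (fun x : E3 => x - y) x := by fun_prop
    have h3 : fderiv ℝ (fun x => (χ x * wt (‖x - y‖ ^ 2 / ρ ^ 2) ^ (2 + 2)) • (x - y)) x
        (Du u x) = (χ x * wt (‖x - y‖ ^ 2 / ρ ^ 2) ^ (2 + 2)) • Du u x +
          ⟪gradient (fun x => χ x * wt (‖x - y‖ ^ 2 / ρ ^ 2) ^ (2 + 2)) x, Du u x⟫ • (x - y) := by
      rw [fderiv_fun_smul h1 h2, inner_gradient_left]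
      have h4 : fderiv ℝ (fun x : E3 => x - y) x = ContinuousLinearMap.id ℝ E3 := by
        rw [fderiv_sub_const]
        exact fderiv_fun_id
      rw [h4]
      simp
    rw [h3, Weiss_divg χ hχ y ρ 2 x, Weiss_grad_phi hχ y ρ 2 x, inner_add_right, inner_smul_right,
      inner_smul_right, inner_add_left, real_inner_smul_left, real_inner_smul_left,
      real_inner_self_eq_norm_sq, real_inner_comm (x - y) (Du u x)]
    norm_num
    ring
  have i1 : Integrable fun x => wt (‖x - y‖ ^ 2 / ρ ^ 2) ^ 4 *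
      ((‖Du u x‖ ^ 2 + ind u x) * ⟪x - y, gradient χ x⟫ -
          2 * ⟪gradient χ x, Du u x⟫ * ⟪x - y, Du u x⟫) := by
    refine Weiss_int2 (χ := χ) hρ ?_ (fun x hx => by
      rw [hx, inner_zero_right, inner_zero_left]; ring) (by norm_num)
    exact (hE.mul (Weiss_BM.of_continuous hK (hz.inner hgc).continuousOn)).sub
      (((Weiss_BM.const 2).mul (Weiss_inner h hK hs hgc)).mul (Weiss_inner h hK hs hz))
  have i2 : Integrable fun x => χ x * wt (‖x - y‖ ^ 2 / ρ ^ 2) ^ 3 *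
      (‖x - y‖ ^ 2 / ρ ^ 2 * (‖Du u x‖ ^ 2 + ind u x)) :=
    Weiss_int1 hχ.continuous hρ (ht.mul hE) (by norm_num)
  have i3 : Integrable fun x => χ x * wt (‖x - y‖ ^ 2 / ρ ^ 2) ^ 4 *
      (‖Du u x‖ ^ 2 + ind u x) := Weiss_int1 hχ.continuous hρ hE (by norm_num)
  have i4 : Integrable fun x => χ x * wt (‖x - y‖ ^ 2 / ρ ^ 2) ^ 4 * ‖Du u x‖ ^ 2 :=
    Weiss_int1 hχ.continuous hρ (Weiss_normsq h hK hs) (by norm_num)
  have i5 : Integrable fun x => χ x * wt (‖x - y‖ ^ 2 / ρ ^ 2) ^ 3 * ⟪x - y, Du u x⟫ ^ 2 :=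
    Weiss_int1 hχ.continuous hρ (Weiss_inner h hK hs hz).sq (by norm_num)
  rw [e1, Weiss_lin5 i1 i2 i3 i4 i5] at key
  rw [Err1]
  linarith

/-! ### differentiation in the radius -/

theorem Weiss_deriv_int {χ : E3 → ℝ} (hχ : Continuous χ) {y : E3} {ρ R : ℝ}
    (hρ : 0 < ρ) (hR : ρ < R) {f : E3 → ℝ}
    (hf : Weiss_BM (closedBall y R ∩ tsupport χ) f) (m : ℕ) :
    HasDerivAt (fun r => ∫ x, χ x * wt (‖x - y‖ ^ 2 / r ^ 2) ^ (m + 2) * f x)
      (2 * ((m + 2 : ℕ) : ℝ) / ρ *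
        ∫ x, χ x * wt (‖x - y‖ ^ 2 / ρ ^ 2) ^ (m + 1) * (‖x - y‖ ^ 2 / ρ ^ 2 * f x)) ρ := by
  set K := closedBall y R ∩ tsupport χ with hKdef
  have hK : IsCompact K := Weiss_compact
  obtain ⟨hf1, C, hC⟩ := hf
  obtain ⟨D, hD⟩ := hK.exists_bound_of_continuousOn hχ.continuousOn
  -- the integrands vanish off `K`
  have hoff : ∀ r : ℝ, 0 < r → r ≤ R → ∀ x, x ∉ K → ∀ n : ℕ, n ≠ 0 →
      χ x * wt (‖x - y‖ ^ 2 / r ^ 2) ^ n = 0 := by
    intro r hr hrR x hx n hn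
    have hx' : x ∉ closedBall y r ∩ tsupport χ := fun hh =>
      hx ⟨closedBall_subset_closedBall hrR hh.1, hh.2⟩
    rcases Weiss_off hr hx' with h1 | h1
    · simp [h1, hn]
    · simp [h1.1]
  have main := (hasDerivAt_integral_of_dominated_loc_of_deriv_le
    (μ := (volume : Measure E3).restrict K) (𝕜 := ℝ) (E := ℝ)
    (F := fun r x => χ x * wt (‖x - y‖ ^ 2 / r ^ 2) ^ (m + 2) * f x)
    (F' := fun r x => χ x * (2 * ((m + 2 : ℕ) : ℝ) / r *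
      (wt (‖x - y‖ ^ 2 / r ^ 2) ^ (m + 1) * (‖x - y‖ ^ 2 / r ^ 2))) * f x)
    (x₀ := ρ) (s := Ioo (ρ / 2) R)
    (bound := fun _ => D * (2 * ((m + 2 : ℕ) : ℝ) / (ρ / 2) * (1 * (R ^ 2 / (ρ / 2) ^ 2))) * C)
    (Ioo_mem_nhds (by linarith) hR) ?_ ?_ ?_ ?_ ?_ ?_).2
  · have e1 : (fun r => ∫ x, χ x * wt (‖x - y‖ ^ 2 / r ^ 2) ^ (m + 2) * f x) =ᶠ[𝓝 ρ]
        fun r => ∫ x in K, χ x * wt (‖x - y‖ ^ 2 / r ^ 2) ^ (m + 2) * f x := by
      filter_upwards [Ioo_mem_nhds (show ρ / 2 < ρ by linarith) hR] with r hr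
      refine (setIntegral_eq_integral_of_forall_compl_eq_zero fun x hx => ?_).symm
      rw [hoff r (by linarith [hr.1]) hr.2.le x hx _ (by omega), zero_mul]
    refine (main.congr_of_eventuallyEq e1).congr_deriv ?_
    have e2 : (∫ x in K, χ x * wt (‖x - y‖ ^ 2 / ρ ^ 2) ^ (m + 1) *
        (‖x - y‖ ^ 2 / ρ ^ 2 * f x)) =
        ∫ x, χ x * wt (‖x - y‖ ^ 2 / ρ ^ 2) ^ (m + 1) * (‖x - y‖ ^ 2 / ρ ^ 2 * f x) := by
      refine setIntegral_eq_integral_of_forall_compl_eq_zero fun x hx => ?_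
      rw [hoff ρ hρ hR.le x hx _ (by omega), zero_mul]
    rw [← e2, ← integral_const_mul]
    refine integral_congr_ae (Eventually.of_forall fun x => ?_)
    simp only
    ring
  · exact Eventually.of_forall fun r =>
      ((hχ.mul ((Weiss_w_cont y r).pow (m + 2))).aestronglyMeasurable.mul hf1)
  · refine Weiss_BM.integrableOn hK ((Weiss_BM.of_continuous hK
      (hχ.mul ((Weiss_w_cont y ρ).pow (m + 2))).continuousOn).mul ⟨hf1, C, hC⟩)
  · refine AEStronglyMeasurable.mul ?_ hf1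
    refine Continuous.aestronglyMeasurable ?_
    have := Weiss_w_cont y ρ
    fun_prop
  · refine (ae_restrict_iff' hK.measurableSet).2 (Eventually.of_forall fun x hx r hr => ?_)
    have hr0 : 0 < r := by linarith [hr.1]
    have hxR : ‖x - y‖ ≤ R := by
      have := hx.1
      rwa [mem_closedBall, dist_eq_norm] at this
    have hD0 : 0 ≤ D := (norm_nonneg _).trans (hD x hx)
    have hC0 : 0 ≤ C := (abs_nonneg _).trans (hC x hx)
    have h1 : wt (‖x - y‖ ^ 2 / r ^ 2) ^ (m + 1) ≤ 1 :=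
      pow_le_one₀ (Weiss_wt_nonneg _) (Weiss_wt_le (by positivity))
    have h1' : 0 ≤ wt (‖x - y‖ ^ 2 / r ^ 2) ^ (m + 1) := pow_nonneg (Weiss_wt_nonneg _) _
    have h2 : ‖x - y‖ ^ 2 / r ^ 2 ≤ R ^ 2 / (ρ / 2) ^ 2 := by
      have h3 : ‖x - y‖ ^ 2 ≤ R ^ 2 := pow_le_pow_left₀ (norm_nonneg _) hxR 2
      have h4 : (ρ / 2) ^ 2 ≤ r ^ 2 := pow_le_pow_left₀ (by positivity) hr.1.le 2
      exact div_le_div₀ (by positivity) h3 (by positivity) h4
    rw [norm_mul, norm_mul]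
    refine mul_le_mul (mul_le_mul (hD x hx) ?_ (norm_nonneg _) hD0) (hC x hx) (abs_nonneg _)
      (by positivity)
    rw [Real.norm_of_nonneg (by positivity)]
    refine mul_le_mul ?_ (mul_le_mul h1 h2 (by positivity) zero_le_one) (by positivity)
      (by positivity)
    exact div_le_div_of_nonneg_left (by positivity) (by positivity) hr.1.le
  · exact (Weiss_BM.const _).integrableOn hK
  · refine Eventually.of_forall fun x r hr => ?_
    have hr0 : 0 < r := by linarith [hr.1]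
    exact ((Weiss_wt_hasDerivAt_rad m (‖x - y‖ ^ 2) hr0).const_mul (χ x)).mul_const (f x)

/-! ### the theorems -/

theorem Weiss_TTsq (h : OnePhase O u) {χ : E3 → ℝ} (hχ : ContDiff ℝ 1 χ) {y : E3} {ρ : ℝ}
    (hρ : 0 < ρ) (hs : closedBall y ρ ∩ tsupport χ ⊆ O) :
    ∫ x, χ x * wt (‖x - y‖ ^ 2 / ρ ^ 2) ^ 3 * TT u y x ^ 2 =
      (∫ x, χ x * wt (‖x - y‖ ^ 2 / ρ ^ 2) ^ 3 * ⟪x - y, Du u x⟫ ^ 2) -
      2 * (∫ x, χ x * wt (‖x - y‖ ^ 2 / ρ ^ 2) ^ 3 * (u x * ⟪x - y, Du u x⟫)) +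
      ∫ x, χ x * wt (‖x - y‖ ^ 2 / ρ ^ 2) ^ 3 * u x ^ 2 := by
  have hK := Weiss_compact (χ := χ) (y := y) (ρ := ρ)
  have hu := Weiss_u h hK hs
  have hz : Continuous fun x : E3 => x - y := by fun_prop
  have i1 : Integrable fun x => χ x * wt (‖x - y‖ ^ 2 / ρ ^ 2) ^ 3 * ⟪x - y, Du u x⟫ ^ 2 :=
    Weiss_int1 hχ.continuous hρ (Weiss_inner h hK hs hz).sq (by norm_num)
  have i2 : Integrable fun x => χ x * wt (‖x - y‖ ^ 2 / ρ ^ 2) ^ 3 *
      (u x * ⟪x - y, Du u x⟫) :=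
    Weiss_int1 hχ.continuous hρ (hu.mul (Weiss_inner h hK hs hz)) (by norm_num)
  have i3 : Integrable fun x => χ x * wt (‖x - y‖ ^ 2 / ρ ^ 2) ^ 3 * u x ^ 2 :=
    Weiss_int1 hχ.continuous hρ hu.sq (by norm_num)
  have e := Weiss_lin3 i1 i2 i3 (-2) 1
  have e2 : ∫ x, χ x * wt (‖x - y‖ ^ 2 / ρ ^ 2) ^ 3 * TT u y x ^ 2 =
      ∫ x, (χ x * wt (‖x - y‖ ^ 2 / ρ ^ 2) ^ 3 * ⟪x - y, Du u x⟫ ^ 2 +
        ((-2) * (χ x * wt (‖x - y‖ ^ 2 / ρ ^ 2) ^ 3 * (u x * ⟪x - y, Du u x⟫)) +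
        1 * (χ x * wt (‖x - y‖ ^ 2 / ρ ^ 2) ^ 3 * u x ^ 2))) := by
    refine integral_congr_ae (Eventually.of_forall fun x => ?_)
    simp only [TT]
    ring
  rw [e2, e]
  ring

theorem Weiss_TTu (h : OnePhase O u) {χ : E3 → ℝ} (hχ : ContDiff ℝ 1 χ) {y : E3} {ρ : ℝ}
    (hρ : 0 < ρ) (hs : closedBall y ρ ∩ tsupport χ ⊆ O) :
    ∫ x, χ x * wt (‖x - y‖ ^ 2 / ρ ^ 2) ^ 3 * (u x * TT u y x) =
      (∫ x, χ x * wt (‖x - y‖ ^ 2 / ρ ^ 2) ^ 3 * (u x * ⟪x - y, Du u x⟫)) -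
      ∫ x, χ x * wt (‖x - y‖ ^ 2 / ρ ^ 2) ^ 3 * u x ^ 2 := by
  have hK := Weiss_compact (χ := χ) (y := y) (ρ := ρ)
  have hu := Weiss_u h hK hs
  have hz : Continuous fun x : E3 => x - y := by fun_prop
  have i2 : Integrable fun x => χ x * wt (‖x - y‖ ^ 2 / ρ ^ 2) ^ 3 *
      (u x * ⟪x - y, Du u x⟫) :=
    Weiss_int1 hχ.continuous hρ (hu.mul (Weiss_inner h hK hs hz)) (by norm_num)
  have i3 : Integrable fun x => χ x * wt (‖x - y‖ ^ 2 / ρ ^ 2) ^ 3 * u x ^ 2 :=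
    Weiss_int1 hχ.continuous hρ hu.sq (by norm_num)
  rw [← integral_sub i2 i3]
  refine integral_congr_ae (Eventually.of_forall fun x => ?_)
  simp only [TT]
  ring

theorem weiss_deriv (h : OnePhase O u) {χ : E3 → ℝ} (hχ : ContDiff ℝ 1 χ) {y : E3} {ρ R : ℝ}
    (hρ : 0 < ρ) (hR : ρ < R) (hs : closedBall y R ∩ tsupport χ ⊆ O) :
    HasDerivAt (fun r => WW χ u y r)
      (16 / ρ ^ 6 * (∫ x, χ x * wt (‖x - y‖ ^ 2 / ρ ^ 2) ^ 3 * TT u y x ^ 2) +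
        (Err1 χ u y ρ + 2 * Err2 χ u y ρ) / ρ ^ 4 - 8 * Err3 χ u y ρ / ρ ^ 6) ρ := by
  have hs' : closedBall y ρ ∩ tsupport χ ⊆ O :=
    (inter_subset_inter_left _ (closedBall_subset_closedBall hR.le)).trans hs
  have hK := Weiss_compact (χ := χ) (y := y) (ρ := R)
  have hu := Weiss_u h hK hs
  have hE : Weiss_BM (closedBall y R ∩ tsupport χ) (fun x => ‖Du u x‖ ^ 2 + ind u x) :=
    (Weiss_normsq h hK hs).add (Weiss_ind h hs)
  have d1 := Weiss_deriv_int hχ.continuous hρ hR hE 2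
  have d2 := Weiss_deriv_int hχ.continuous hρ hR hu.sq 1
  have p1 : HasDerivAt (fun r : ℝ => 1 / r ^ 3) (-3 / ρ ^ 4) ρ := by
    have h2 : HasDerivAt (fun r : ℝ => r ^ 3) (3 * ρ ^ 2) ρ := by
      simpa using hasDerivAt_pow 3 ρ
    refine ((hasDerivAt_const ρ (1 : ℝ)).div h2 (by positivity)).congr_deriv ?_
    field_simp
    ring
  have p2 : HasDerivAt (fun r : ℝ => 8 / r ^ 5) (-40 / ρ ^ 6) ρ := by
    have h2 : HasDerivAt (fun r : ℝ => r ^ 5) (5 * ρ ^ 4) ρ := by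
      simpa using hasDerivAt_pow 5 ρ
    refine ((hasDerivAt_const ρ (8 : ℝ)).div h2 (by positivity)).congr_deriv ?_
    field_simp
    ring
  have d3 := (p1.mul d1).sub (p2.mul d2)
  refine HasDerivAt.congr_deriv (f := fun r => WW χ u y r) d3 ?_
  have I1 := Weiss_domain h hχ hρ hs'
  have I2 := Weiss_energy h hχ hρ hs'
  have I3 := Weiss_square h hχ hρ hs'
  rw [Weiss_TTsq h hχ hρ hs']
  rw [I2] at I1
  have I1' := congrArg (fun t => t / 8) I1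
  have I3' := congrArg (fun t => t / 6) I3
  simp only [mul_div_cancel_left₀ _ (show (8 : ℝ) ≠ 0 by norm_num),
    mul_div_cancel_left₀ _ (show (6 : ℝ) ≠ 0 by norm_num)] at I1' I3'
  norm_num at I1' I3' ⊢
  rw [I1', I3']
  field_simp
  ring

theorem weiss_split (h : OnePhase O u) {χ : E3 → ℝ} (hχ : ContDiff ℝ 1 χ) {y : E3} {ρ : ℝ}
    (hρ : 0 < ρ) (hs : closedBall y ρ ∩ tsupport χ ⊆ O) :
    WW χ u y ρ = VV χ u y ρ +
      8 / ρ ^ 5 * (∫ x, χ x * wt (‖x - y‖ ^ 2 / ρ ^ 2) ^ 3 * (u x * TT u y x)) -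
      Err2 χ u y ρ / ρ ^ 3 := by
  have hK := Weiss_compact (χ := χ) (y := y) (ρ := ρ)
  have I2 := Weiss_energy h hχ hρ hs
  have i1 : Integrable fun x => χ x * wt (‖x - y‖ ^ 2 / ρ ^ 2) ^ 4 * ‖Du u x‖ ^ 2 :=
    Weiss_int1 hχ.continuous hρ (Weiss_normsq h hK hs) (by norm_num)
  have i2 : Integrable fun x => χ x * wt (‖x - y‖ ^ 2 / ρ ^ 2) ^ 4 * ind u x :=
    Weiss_int1 hχ.continuous hρ (Weiss_ind h hs) (by norm_num)
  have e1 : ∫ x, χ x * wt (‖x - y‖ ^ 2 / ρ ^ 2) ^ 4 * (‖Du u x‖ ^ 2 + ind u x) =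
      (∫ x, χ x * wt (‖x - y‖ ^ 2 / ρ ^ 2) ^ 4 * ‖Du u x‖ ^ 2) +
      ∫ x, χ x * wt (‖x - y‖ ^ 2 / ρ ^ 2) ^ 4 * ind u x := by
    rw [← integral_add i1 i2]
    refine integral_congr_ae (Eventually.of_forall fun x => ?_)
    simp only
    ring
  rw [WW, VV, e1, I2, Weiss_TTu h hχ hρ hs]
  field_simp
  ring

theorem height_deriv (h : OnePhase O u) {χ : E3 → ℝ} (hχ : ContDiff ℝ 1 χ) {y : E3} {ρ R : ℝ}
    (hρ : 0 < ρ) (hR : ρ < R) (hs : closedBall y R ∩ tsupport χ ⊆ O) :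
    HasDerivAt (fun r => HH χ u y r)
      (8 / ρ ^ 6 * (∫ x, χ x * wt (‖x - y‖ ^ 2 / ρ ^ 2) ^ 3 * (u x * TT u y x)) +
        4 * Err3 χ u y ρ / ρ ^ 6) ρ := by
  have hs' : closedBall y ρ ∩ tsupport χ ⊆ O :=
    (inter_subset_inter_left _ (closedBall_subset_closedBall hR.le)).trans hs
  have hK := Weiss_compact (χ := χ) (y := y) (ρ := R)
  have hu := Weiss_u h hK hs
  have d2 := Weiss_deriv_int hχ.continuous hρ hR hu.sq 1
  have p2 : HasDerivAt (fun r : ℝ => 4 / r ^ 5) (-20 / ρ ^ 6) ρ := by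
    have h2 : HasDerivAt (fun r : ℝ => r ^ 5) (5 * ρ ^ 4) ρ := by
      simpa using hasDerivAt_pow 5 ρ
    refine ((hasDerivAt_const ρ (4 : ℝ)).div h2 (by positivity)).congr_deriv ?_
    field_simp
    ring
  refine HasDerivAt.congr_deriv (f := fun r => HH χ u y r) (p2.mul d2) ?_
  have I3 := Weiss_square h hχ hρ hs'
  rw [Weiss_TTu h hχ hρ hs']
  have I3' := congrArg (fun t => t / 6) I3
  simp only [mul_div_cancel_left₀ _ (show (6 : ℝ) ≠ 0 by norm_num)] at I3'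
  norm_num at I3' ⊢
  rw [I3']
  field_simp
  ring

end Pool.Agent.H32.Flat
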