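import Pool.Agent.H32.Flat.ErrBd
import Pool.Agent.H32.Flat.LipBd
import Pool.Agent.H32.Flat.Slab

/-!
# Module F3: upper bound for the density at the outer scale

Centre `0`, `ρ ∈ [r₀, 1/4]`, `χ = chi δ`, `L` from `lip_bound`, `C` generic universal (depending on `L`).
* `VV χ u 0 ρ ≤ mm/2 + C ε/ρ`: `{u > 0} ⊆ {x_3 ≥ -ε}` on the support (`Setup.down`), half-space integral
  (`half_mm`) and the slab `|x_3| ≤ ε` (`volume_slab`).
* `0 ≤ HH χ u 0 ρ ≤ C` since `u ≤ L|x| ≤ Lρ`.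
* `weiss_deriv` + `err_bound` (`y = 0`): `WW' ≥ -C δ³/ρ⁴ - C δ⁵/ρ⁶`, so
  `WW(ρ) ≥ WW(r₀) - C (δ/r₀)³` for `ρ ≥ r₀`.
* `weiss_split` and `height_deriv`: `WW = VV + ρ HH' - 4 Err3/ρ⁵ - Err2/ρ³`.
If `WW(r₀) > mm/2 + κ`, then for all `ρ ∈ [r₀, 1/4]`
`ρ HH' ≥ κ - Cε/r₀ - C(δ/r₀)³ ≥ κ/2`, so `HH(1/4) - HH(r₀) ≥ (κ/2) log(1/(4r₀)) > C` when `r₀` is small:
contradiction.  Order of choice: `r₀` from `κ`, then `ε₀, δ₀`.
-/

open Set Metric MeasureTheory Filter Topology InnerProductSpace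
open scoped Laplacian Gradient RealInnerProductSpace

namespace Pool.Agent.H32.Flat

theorem WeissUp_wt_zero {t : ℝ} (ht : 1 ≤ t) : wt t = 0 := by
  unfold wt
  exact max_eq_right (by linarith)

theorem WeissUp_wt_nonneg (t : ℝ) : 0 ≤ wt t := le_max_right _ _

theorem WeissUp_wt_le_one {t : ℝ} (ht : 0 ≤ t) : wt t ≤ 1 := by
  unfold wt
  exact max_le (by linarith) zero_le_one

theorem WeissUp_continuous_wt : Continuous wt := by
  unfold wt
  fun_prop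

theorem WeissUp_wt_far {ρ : ℝ} (hρ : 0 < ρ) {x : E3} (hx : ρ ≤ ‖x‖) :
    wt (‖x - 0‖ ^ 2 / ρ ^ 2) = 0 := by
  apply WeissUp_wt_zero
  rw [sub_zero, one_le_div (by positivity)]
  gcongr

theorem WeissUp_supp {δ : ℝ} (hδ : 0 < δ) {R : ℝ} (hR : R < 1) :
    closedBall (0 : E3) R ∩ tsupport (chi δ) ⊆ {x | δ < ‖x‖ ∧ ‖x‖ < 1} := by
  rintro x ⟨hx1, hx2⟩
  have h1 := chi_tsupport hδ hx2
  simp only [mem_ofPred_eq] at h1
  simp only [mem_closedBall, dist_zero_right] at hx1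
  exact ⟨by linarith, by linarith⟩

theorem WeissUp_inner_e3 (x : E3) : ⟪x, e3⟫ = x 2 := by
  unfold e3
  simp [EuclideanSpace.inner_single_right]

theorem WeissUp_norm_e3 : ‖e3‖ = 1 := by
  unfold e3
  simp

/-- scaled half-space integral -/
theorem WeissUp_half {ρ : ℝ} (hρ : 0 < ρ) :
    ∫ x : E3, ({x : E3 | 0 < ⟪x, e3⟫}).indicator (fun x => wt (‖x - 0‖ ^ 2 / ρ ^ 2) ^ 4) x =
      ρ ^ 3 * (mm / 2) := by
  have h1 := Measure.integral_comp_inv_smul (volume : Measure E3)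
    (({x : E3 | 0 < ⟪x, e3⟫}).indicator (fun x : E3 => wt (‖x‖ ^ 2) ^ 4)) ρ
  have h2 : ∀ x : E3, ({x : E3 | 0 < ⟪x, e3⟫}).indicator (fun x : E3 => wt (‖x‖ ^ 2) ^ 4) (ρ⁻¹ • x) =
      ({x : E3 | 0 < ⟪x, e3⟫}).indicator (fun x => wt (‖x - 0‖ ^ 2 / ρ ^ 2) ^ 4) x := by
    intro x
    have hm : (ρ⁻¹ • x ∈ {x : E3 | 0 < ⟪x, e3⟫}) ↔ x ∈ {x : E3 | 0 < ⟪x, e3⟫} := by
      simp only [mem_ofPred_eq, inner_smul_left]
      simp only [conj_trivial]
      constructor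
      · intro h
        by_contra h'
        have : ρ⁻¹ * ⟪x, e3⟫ ≤ 0 :=
          mul_nonpos_of_nonneg_of_nonpos (inv_nonneg.2 hρ.le) (not_lt.1 h')
        linarith
      · intro h
        exact mul_pos (inv_pos.2 hρ) h
    by_cases hx : x ∈ {x : E3 | 0 < ⟪x, e3⟫}
    · rw [indicator_of_mem hx, indicator_of_mem (hm.2 hx)]
      congr 2
      rw [norm_smul, mul_pow, sub_zero, Real.norm_eq_abs, sq_abs]
      field_simp
    · rw [indicator_of_notMem hx, indicator_of_notMem (fun h => hx (hm.1 h))]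
  simp only [h2] at h1
  rw [h1, integral_indicator, half_mm WeissUp_norm_e3]
  · have : Module.finrank ℝ E3 = 3 := by simp
    rw [this, abs_of_pos (by positivity), smul_eq_mul]
  · apply measurableSet_lt measurable_const
    fun_prop

theorem WeissUp_VV {δ ε ε₀ ρ : ℝ} {u : E3 → ℝ} (hδ : 0 < δ) (hε : ε ≤ ε₀) (hε₀ : 0 ≤ ε₀)
    (hS : Setup δ ε u) (hρ : 0 < ρ) (hρ1 : ρ < 1) :
    VV (chi δ) u 0 ρ ≤ mm / 2 + 8 * ε₀ / ρ := by
  set S : Set E3 := {x : E3 | ‖x‖ ≤ ρ ∧ |⟪x, e3⟫| ≤ ε₀} with hSdef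
  set H : Set E3 := {x : E3 | 0 < ⟪x, e3⟫} with hHdef
  have hSm : MeasurableSet S := by
    apply IsClosed.measurableSet
    apply IsClosed.inter
    · exact isClosed_le continuous_norm continuous_const
    · have hc : Continuous (fun x : E3 => |⟪x, e3⟫|) :=
        (Continuous.inner continuous_id continuous_const).abs
      exact isClosed_le hc continuous_const
  have hHm : MeasurableSet H := measurableSet_lt measurable_const (by fun_prop)
  have hSb : S ⊆ closedBall 0 ρ := by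
    intro x hx
    simpa using hx.1
  have hSfin : volume S ≠ ⊤ :=
    ne_top_of_le_ne_top (isCompact_closedBall (0 : E3) ρ).measure_lt_top.ne (measure_mono hSb)
  -- integrability
  have hint1 : Integrable (H.indicator (fun x : E3 => wt (‖x - 0‖ ^ 2 / ρ ^ 2) ^ 4)) := by
    apply Integrable.indicator _ hHm
    apply Continuous.integrable_of_hasCompactSupport
    · exact (WeissUp_continuous_wt.comp (by fun_prop)).pow 4
    · apply HasCompactSupport.of_support_subset_isCompact (isCompact_closedBall (0 : E3) ρ)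
      intro x hx
      rw [Function.mem_support] at hx
      rw [mem_closedBall, dist_zero_right]
      by_contra h
      apply hx
      rw [WeissUp_wt_far hρ (not_le.1 h).le]
      norm_num
  have hint2 : Integrable (S.indicator (fun _ : E3 => (1 : ℝ))) := by
    rw [integrable_indicator_iff hSm]
    exact integrableOn_const hSfin
  have hle : ∀ x : E3, chi δ x * wt (‖x - 0‖ ^ 2 / ρ ^ 2) ^ 4 * ind u x ≤
      H.indicator (fun x : E3 => wt (‖x - 0‖ ^ 2 / ρ ^ 2) ^ 4) x +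
        S.indicator (fun _ : E3 => (1 : ℝ)) x := by
    intro x
    have hw0 : 0 ≤ wt (‖x - 0‖ ^ 2 / ρ ^ 2) := WeissUp_wt_nonneg _
    have hw1 : wt (‖x - 0‖ ^ 2 / ρ ^ 2) ≤ 1 := WeissUp_wt_le_one (by positivity)
    have hr0 : 0 ≤ H.indicator (fun x : E3 => wt (‖x - 0‖ ^ 2 / ρ ^ 2) ^ 4) x :=
      indicator_nonneg (fun x _ => pow_nonneg (WeissUp_wt_nonneg _) 4) x
    have hr1 : 0 ≤ S.indicator (fun _ : E3 => (1 : ℝ)) x :=
      indicator_nonneg (fun x _ => zero_le_one) x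
    have hc := chi_nonneg δ x
    have hi0 : 0 ≤ ind u x := by unfold ind; split_ifs <;> norm_num
    have hi1 : ind u x ≤ 1 := by unfold ind; split_ifs <;> norm_num
    by_cases hfar : ρ ≤ ‖x‖
    · rw [WeissUp_wt_far hρ hfar]
      simp only [ne_eq, OfNat.ofNat_ne_zero, not_false_eq_true, zero_pow, mul_zero, zero_mul]
      linarith
    by_cases hnear : ‖x‖ ≤ 3 * δ
    · rw [chi_zero hδ hnear]
      simp only [zero_mul]
      linarith
    push Not at hfar hnear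
    by_cases hu : 0 < u x
    · have hx3 : -ε ≤ x 2 := by
        by_contra h
        have := hS.down x (by linarith) (by linarith) (not_le.1 h)
        linarith
      have hprod : chi δ x * wt (‖x - 0‖ ^ 2 / ρ ^ 2) ^ 4 * ind u x ≤
          wt (‖x - 0‖ ^ 2 / ρ ^ 2) ^ 4 := by
        have hw4 : 0 ≤ wt (‖x - 0‖ ^ 2 / ρ ^ 2) ^ 4 := pow_nonneg hw0 4
        calc chi δ x * wt (‖x - 0‖ ^ 2 / ρ ^ 2) ^ 4 * ind u x
            ≤ 1 * wt (‖x - 0‖ ^ 2 / ρ ^ 2) ^ 4 * 1 := by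
              apply mul_le_mul _ hi1 hi0 (by positivity)
              exact mul_le_mul_of_nonneg_right hc.2 hw4
          _ = _ := by ring
      by_cases hH : x ∈ H
      · rw [indicator_of_mem hH]
        linarith
      · have hxS : x ∈ S := by
          refine ⟨hfar.le, ?_⟩
          have h1 : ¬ (0 < ⟪x, e3⟫) := hH
          rw [WeissUp_inner_e3] at h1 ⊢
          rw [abs_le]
          constructor <;> linarith
        rw [indicator_of_mem hxS]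
        have : wt (‖x - 0‖ ^ 2 / ρ ^ 2) ^ 4 ≤ 1 := pow_le_one₀ hw0 hw1
        linarith
    · have : ind u x = 0 := by unfold ind; rw [if_neg hu]
      rw [this, mul_zero]
      linarith
  have hnn : ∀ x : E3, 0 ≤ chi δ x * wt (‖x - 0‖ ^ 2 / ρ ^ 2) ^ 4 * ind u x := by
    intro x
    have hi0 : 0 ≤ ind u x := by unfold ind; split_ifs <;> norm_num
    exact mul_nonneg (mul_nonneg (chi_nonneg δ x).1 (pow_nonneg (WeissUp_wt_nonneg _) 4)) hi0
  have hI : ∫ x, chi δ x * wt (‖x - 0‖ ^ 2 / ρ ^ 2) ^ 4 * ind u x ≤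
      ρ ^ 3 * (mm / 2) + 8 * ρ ^ 2 * ε₀ := by
    calc ∫ x, chi δ x * wt (‖x - 0‖ ^ 2 / ρ ^ 2) ^ 4 * ind u x
        ≤ ∫ x, (H.indicator (fun x : E3 => wt (‖x - 0‖ ^ 2 / ρ ^ 2) ^ 4) x +
          S.indicator (fun _ : E3 => (1 : ℝ)) x) :=
          integral_mono_of_nonneg (ae_of_all _ hnn) (hint1.add hint2) (ae_of_all _ hle)
      _ = ρ ^ 3 * (mm / 2) + volume.real S := by
          rw [integral_add hint1 hint2, WeissUp_half hρ]
          congr 1
          rw [integral_indicator hSm]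
          simp
      _ ≤ _ := by
          have := volume_slab WeissUp_norm_e3 hρ.le hε₀
          linarith
  unfold VV
  calc 1 / ρ ^ 3 * ∫ x, chi δ x * wt (‖x - 0‖ ^ 2 / ρ ^ 2) ^ 4 * ind u x
      ≤ 1 / ρ ^ 3 * (ρ ^ 3 * (mm / 2) + 8 * ρ ^ 2 * ε₀) :=
        mul_le_mul_of_nonneg_left hI (by positivity)
    _ = mm / 2 + 8 * ε₀ / ρ := by
        field_simp

theorem WeissUp_HH_nonneg {δ ρ : ℝ} {u : E3 → ℝ} (hρ : 0 < ρ) : 0 ≤ HH (chi δ) u 0 ρ := by
  unfold HH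
  apply mul_nonneg (by positivity)
  apply integral_nonneg
  intro x
  exact mul_nonneg (mul_nonneg (chi_nonneg δ x).1 (pow_nonneg (WeissUp_wt_nonneg _) 3))
    (sq_nonneg _)

theorem WeissUp_HH_le {δ ε L ρ : ℝ} {u : E3 → ℝ} (hδ : 0 < δ) (hL : 1 ≤ L)
    (hS : Setup δ ε u) (hLip : LipOn L δ u) (hρ : 0 < ρ) (hρ1 : ρ ≤ 1 / 2) :
    HH (chi δ) u 0 ρ ≤ 32 * L ^ 2 := by
  have hint : Integrable ((closedBall (0 : E3) ρ).indicator (fun _ : E3 => (L * ρ) ^ 2)) := by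
    rw [integrable_indicator_iff isClosed_closedBall.measurableSet]
    exact integrableOn_const (isCompact_closedBall (0 : E3) ρ).measure_lt_top.ne
  have hnn : ∀ x : E3, 0 ≤ chi δ x * wt (‖x - 0‖ ^ 2 / ρ ^ 2) ^ 3 * u x ^ 2 := by
    intro x
    exact mul_nonneg (mul_nonneg (chi_nonneg δ x).1 (pow_nonneg (WeissUp_wt_nonneg _) 3))
      (sq_nonneg _)
  have hle : ∀ x : E3, chi δ x * wt (‖x - 0‖ ^ 2 / ρ ^ 2) ^ 3 * u x ^ 2 ≤
      (closedBall (0 : E3) ρ).indicator (fun _ : E3 => (L * ρ) ^ 2) x := by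
    intro x
    have hr : 0 ≤ (closedBall (0 : E3) ρ).indicator (fun _ : E3 => (L * ρ) ^ 2) x :=
      indicator_nonneg (fun x _ => by positivity) x
    by_cases hfar : ρ ≤ ‖x‖
    · rw [WeissUp_wt_far hρ hfar]
      simpa using hr
    by_cases hnear : ‖x‖ ≤ 3 * δ
    · rw [chi_zero hδ hnear]
      simpa using hr
    push Not at hfar hnear
    have hxO : x ∈ {x : E3 | δ < ‖x‖ ∧ ‖x‖ < 1} := ⟨by linarith, by linarith⟩
    have hu0 := hS.onePhase.nonneg x hxO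
    have hub : u x ≤ L * ρ := by
      rcases hu0.lt_or_eq with hu | hu
      · have h1 := (hLip x (by linarith) (by linarith) hu).2
        have h2 : L * ‖x‖ ≤ L * ρ := by
          apply mul_le_mul_of_nonneg_left hfar.le (by linarith)
        linarith
      · rw [← hu]
        positivity
    have hmem : x ∈ closedBall (0 : E3) ρ := by
      rw [mem_closedBall, dist_zero_right]
      exact hfar.le
    rw [indicator_of_mem hmem]
    have hw0 : 0 ≤ wt (‖x - 0‖ ^ 2 / ρ ^ 2) := WeissUp_wt_nonneg _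
    have hw1 : wt (‖x - 0‖ ^ 2 / ρ ^ 2) ≤ 1 := WeissUp_wt_le_one (by positivity)
    have hw3 : wt (‖x - 0‖ ^ 2 / ρ ^ 2) ^ 3 ≤ 1 := pow_le_one₀ hw0 hw1
    have hc := chi_nonneg δ x
    calc chi δ x * wt (‖x - 0‖ ^ 2 / ρ ^ 2) ^ 3 * u x ^ 2 ≤ 1 * 1 * (L * ρ) ^ 2 := by
          apply mul_le_mul _ _ (sq_nonneg _) (by norm_num)
          · exact mul_le_mul hc.2 hw3 (pow_nonneg hw0 3) zero_le_one
          · exact pow_le_pow_left₀ hu0 hub 2
      _ = _ := by ring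
  have hI : ∫ x, chi δ x * wt (‖x - 0‖ ^ 2 / ρ ^ 2) ^ 3 * u x ^ 2 ≤ 8 * L ^ 2 * ρ ^ 5 := by
    calc ∫ x, chi δ x * wt (‖x - 0‖ ^ 2 / ρ ^ 2) ^ 3 * u x ^ 2
        ≤ ∫ x, (closedBall (0 : E3) ρ).indicator (fun _ : E3 => (L * ρ) ^ 2) x :=
          integral_mono_of_nonneg (ae_of_all _ hnn) hint (ae_of_all _ hle)
      _ = volume.real (closedBall (0 : E3) ρ) * (L * ρ) ^ 2 := by
          rw [integral_indicator isClosed_closedBall.measurableSet]
          simp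
      _ ≤ 8 * ρ ^ 3 * (L * ρ) ^ 2 := by
          apply mul_le_mul_of_nonneg_right (volume_ball_le hρ.le) (sq_nonneg _)
      _ = _ := by ring
  unfold HH
  calc 4 / ρ ^ 5 * ∫ x, chi δ x * wt (‖x - 0‖ ^ 2 / ρ ^ 2) ^ 3 * u x ^ 2
      ≤ 4 / ρ ^ 5 * (8 * L ^ 2 * ρ ^ 5) := mul_le_mul_of_nonneg_left hI (by positivity)
    _ = 32 * L ^ 2 := by
        field_simp
        ring

theorem weiss_upper : ∀ L : ℝ, 1 ≤ L → ∀ κ : ℝ, 0 < κ → ∃ r₀ : ℝ, 0 < r₀ ∧ r₀ ≤ 1 / 16 ∧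
    ∃ ε₀ : ℝ, 0 < ε₀ ∧ ∃ δ₀ : ℝ, 0 < δ₀ ∧ ∀ (δ ε : ℝ) (u : E3 → ℝ), 0 < δ → δ ≤ δ₀ → ε ≤ ε₀ →
    Setup δ ε u → LipOn L δ u → WW (chi δ) u 0 r₀ ≤ mm / 2 + κ := by
  intro L hL κ hκ
  obtain ⟨C, hC, hErr⟩ := err_bound
  set r₀ : ℝ := (1 / 4) * Real.exp (-(64 * L ^ 2 / κ + 2)) with hr₀def
  have hr₀ : 0 < r₀ := by positivity
  have hexp2 : Real.exp (-(64 * L ^ 2 / κ + 2)) ≤ 1 / 4 := by
    have h1 : Real.exp (-(64 * L ^ 2 / κ + 2)) ≤ Real.exp (-2) := by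
      apply Real.exp_le_exp.2
      have : 0 ≤ 64 * L ^ 2 / κ := by positivity
      linarith
    have h2 : Real.exp (-2 : ℝ) = (Real.exp (-1)) * (Real.exp (-1)) := by
      rw [← Real.exp_add]; norm_num
    have h3 : Real.exp (-1 : ℝ) ≤ 1 / 2 := by
      have h4 := Real.exp_one_gt_d9
      rw [Real.exp_neg, inv_le_comm₀ (Real.exp_pos _) (by norm_num)]
      norm_num
      linarith
    have h5 : 0 < Real.exp (-1 : ℝ) := Real.exp_pos _
    have h6 : Real.exp (-1 : ℝ) * Real.exp (-1) ≤ 1 / 2 * (1 / 2) :=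
      mul_le_mul h3 h3 h5.le (by norm_num)
    rw [h2] at h1
    linarith
  have hr₀16 : r₀ ≤ 1 / 16 := by rw [hr₀def]; linarith
  have hlog : Real.log (1 / 4) - Real.log r₀ = 64 * L ^ 2 / κ + 2 := by
    rw [hr₀def, Real.log_mul (by norm_num) (Real.exp_pos _).ne', Real.log_exp]
    ring
  -- choice of constants
  set ε₀ : ℝ := κ * r₀ / 32 with hε₀def
  have hε₀ : 0 < ε₀ := by positivity
  set A : ℝ := 16 * C * L ^ 2 / r₀ ^ 6 with hAdef
  have hA : 0 < A := by positivity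
  set δ₀ : ℝ := min (1 / 8) (κ / 4 / A) with hδ₀def
  have hδ₀ : 0 < δ₀ := lt_min (by norm_num) (by positivity)
  refine ⟨r₀, hr₀, hr₀16, ε₀, hε₀, δ₀, hδ₀, ?_⟩
  intro δ ε u hδ hδle hεle hS hLip
  have hδ8 : δ ≤ 1 / 8 := hδle.trans (min_le_left _ _)
  have hδA : A * δ ≤ κ / 4 := by
    have : δ ≤ κ / 4 / A := hδle.trans (min_le_right _ _)
    rw [le_div_iff₀ hA] at this
    linarith
  have hE := hErr L δ u hL hδ hδ8 hS.onePhase hLip 0
  have hE1 : ∀ ρ, 0 < ρ → ρ ≤ 1 / 2 → |Err1 (chi δ) u 0 ρ| ≤ C * L ^ 2 * δ ^ 3 ∧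
      |Err2 (chi δ) u 0 ρ| ≤ C * L ^ 2 * δ ^ 3 ∧ |Err3 (chi δ) u 0 ρ| ≤ C * L ^ 2 * δ ^ 5 := by
    intro ρ h1 h2
    obtain ⟨h3, h4, h5⟩ := hE ρ h1 (by simpa using h2)
    rw [norm_zero, zero_add] at h3 h5
    refine ⟨?_, h4, ?_⟩
    · calc _ ≤ _ := h3
        _ = _ := by ring
    · calc _ ≤ _ := h5
        _ = _ := by ring
  by_contra hcon
  push Not at hcon
  set M : ℝ := C * L ^ 2 * δ ^ 3 with hMdef
  have hM : 0 ≤ M := by positivity
  have hδ1 : δ ≤ 1 := by linarith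
  have hM5 : C * L ^ 2 * δ ^ 5 ≤ M := by
    rw [hMdef]
    apply mul_le_mul_of_nonneg_left _ (by positivity)
    exact pow_le_pow_of_le_one hδ.le hδ1 (by norm_num)
  have hMA : 16 * M / r₀ ^ 6 ≤ κ / 4 := by
    have h1 : 16 * M / r₀ ^ 6 = A * δ ^ 3 := by rw [hMdef, hAdef]; ring
    have h2 : δ ^ 3 ≤ δ := by
      calc δ ^ 3 ≤ δ ^ 1 := pow_le_pow_of_le_one hδ.le hδ1 (by norm_num)
        _ = δ := pow_one δ
    rw [h1]
    calc A * δ ^ 3 ≤ A * δ := mul_le_mul_of_nonneg_left h2 hA.le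
      _ ≤ _ := hδA
  -- general bound: `|E| / ρ ^ k ≤ M / r₀ ^ 6`
  have hquot : ∀ (E ρ : ℝ) (k : ℕ), k ≤ 6 → r₀ ≤ ρ → ρ ≤ 1 / 4 → |E| ≤ M →
      |E / ρ ^ k| ≤ M / r₀ ^ 6 := by
    intro E ρ k hk h1 h2 h3
    have hρ : 0 < ρ := by linarith
    rw [abs_div, abs_of_pos (pow_pos hρ k)]
    have h4 : r₀ ^ 6 ≤ ρ ^ k := by
      calc r₀ ^ 6 ≤ r₀ ^ k := pow_le_pow_of_le_one hr₀.le (by linarith) hk
        _ ≤ ρ ^ k := pow_le_pow_left₀ hr₀.le h1 k
    exact div_le_div₀ hM h3 (by positivity) h4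
  have hO := hS.onePhase
  -- derivative of `WW`
  have hWd : ∀ ρ, r₀ ≤ ρ → ρ ≤ 1 / 4 → ∃ W' : ℝ, HasDerivAt (fun r => WW (chi δ) u 0 r) W' ρ ∧
      -(11 * (M / r₀ ^ 6)) ≤ W' := by
    intro ρ h1 h2
    have hρ : 0 < ρ := by linarith
    refine ⟨_, weiss_deriv hO (chi_contDiff δ) hρ (R := 1 / 2) (by linarith)
      (WeissUp_supp hδ (by norm_num)), ?_⟩
    obtain ⟨e1, e2, e3'⟩ := hE1 ρ hρ (by linarith)
    have q1 := abs_le.1 (hquot _ ρ 4 (by norm_num) h1 h2 e1)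
    have q2 := abs_le.1 (hquot _ ρ 4 (by norm_num) h1 h2 e2)
    have q3 := abs_le.1 (hquot _ ρ 6 (by norm_num) h1 h2 (e3'.trans hM5))
    have hI : 0 ≤ 16 / ρ ^ 6 *
        (∫ x, chi δ x * wt (‖x - 0‖ ^ 2 / ρ ^ 2) ^ 3 * TT u 0 x ^ 2) := by
      apply mul_nonneg (by positivity)
      apply integral_nonneg
      intro x
      exact mul_nonneg (mul_nonneg (chi_nonneg δ x).1 (pow_nonneg (WeissUp_wt_nonneg _) 3))
        (sq_nonneg _)
    have s1 : (Err1 (chi δ) u 0 ρ + 2 * Err2 (chi δ) u 0 ρ) / ρ ^ 4 =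
        Err1 (chi δ) u 0 ρ / ρ ^ 4 + 2 * (Err2 (chi δ) u 0 ρ / ρ ^ 4) := by ring
    have s2 : 8 * Err3 (chi δ) u 0 ρ / ρ ^ 6 = 8 * (Err3 (chi δ) u 0 ρ / ρ ^ 6) := by ring
    rw [s1, s2]
    linarith [q1.1, q2.1, q3.2]
  have hMr : 0 ≤ M / r₀ ^ 6 := by positivity
  have hWlow : ∀ ρ, r₀ ≤ ρ → ρ ≤ 1 / 4 → WW (chi δ) u 0 r₀ - 11 * (M / r₀ ^ 6) ≤
      WW (chi δ) u 0 ρ := by
    intro ρ h1 h2
    have hmono : MonotoneOn (fun r => WW (chi δ) u 0 r + 11 * (M / r₀ ^ 6) * r)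
        (Icc r₀ (1 / 4)) := by
      apply monotoneOn_of_deriv_nonneg (convex_Icc _ _)
      · intro r hr
        obtain ⟨W', hW', _⟩ := hWd r hr.1 hr.2
        exact (hW'.continuousAt.add (by fun_prop)).continuousWithinAt
      · intro r hr
        rw [interior_Icc] at hr
        obtain ⟨W', hW', _⟩ := hWd r hr.1.le hr.2.le
        exact (hW'.differentiableAt.add (by fun_prop)).differentiableWithinAt
      · intro r hr
        rw [interior_Icc] at hr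
        obtain ⟨W', hW', hb⟩ := hWd r hr.1.le hr.2.le
        have hd := hW'.add ((hasDerivAt_id r).const_mul (11 * (M / r₀ ^ 6)))
        have hd2 : deriv (fun r => WW (chi δ) u 0 r + 11 * (M / r₀ ^ 6) * r) r =
            W' + 11 * (M / r₀ ^ 6) * 1 := hd.deriv
        rw [hd2]
        linarith
    have h3 := hmono (left_mem_Icc.2 (by linarith)) ⟨h1, h2⟩ h1
    simp only at h3
    have h4 : 11 * (M / r₀ ^ 6) * ρ ≤ 11 * (M / r₀ ^ 6) * 1 :=
      mul_le_mul_of_nonneg_left (by linarith) (by positivity)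
    have h5 : 0 ≤ 11 * (M / r₀ ^ 6) * r₀ := by positivity
    linarith
  -- derivative of `HH`
  have hHd : ∀ ρ, r₀ ≤ ρ → ρ ≤ 1 / 4 → ∃ H' : ℝ, HasDerivAt (fun r => HH (chi δ) u 0 r) H' ρ ∧
      κ / 2 ≤ ρ * H' := by
    intro ρ h1 h2
    have hρ : 0 < ρ := by linarith
    refine ⟨_, height_deriv hO (chi_contDiff δ) hρ (R := 1 / 2) (by linarith)
      (WeissUp_supp hδ (by norm_num)), ?_⟩
    have hsplit := weiss_split hO (chi_contDiff δ) (y := 0) hρ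
      (WeissUp_supp hδ (R := ρ) (by linarith))
    obtain ⟨e1, e2, e3'⟩ := hE1 ρ hρ (by linarith)
    have q2 := abs_le.1 (hquot _ ρ 3 (by norm_num) h1 h2 e2)
    have q3 := abs_le.1 (hquot _ ρ 5 (by norm_num) h1 h2 (e3'.trans hM5))
    have hV := WeissUp_VV hδ hεle hε₀.le hS hρ (by linarith)
    have hVe : 8 * ε₀ / ρ ≤ κ / 4 := by
      rw [div_le_iff₀ hρ, hε₀def]
      have : κ * r₀ ≤ κ * ρ := mul_le_mul_of_nonneg_left h1 hκ.le
      linarith
    have hW := hWlow ρ h1 h2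
    have key : ρ * (8 / ρ ^ 6 *
        (∫ x, chi δ x * wt (‖x - 0‖ ^ 2 / ρ ^ 2) ^ 3 * (u x * TT u 0 x)) +
        4 * Err3 (chi δ) u 0 ρ / ρ ^ 6) =
        8 / ρ ^ 5 * (∫ x, chi δ x * wt (‖x - 0‖ ^ 2 / ρ ^ 2) ^ 3 * (u x * TT u 0 x)) +
        4 * (Err3 (chi δ) u 0 ρ / ρ ^ 5) := by
      field_simp
    rw [key]
    have hsum : 16 * M / r₀ ^ 6 = 16 * (M / r₀ ^ 6) := by ring
    rw [hsum] at hMA
    linarith [q2.1, q3.1]
  have hmono : MonotoneOn (fun r => HH (chi δ) u 0 r - κ / 2 * Real.log r) (Icc r₀ (1 / 4)) := by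
    apply monotoneOn_of_deriv_nonneg (convex_Icc _ _)
    · intro r hr
      obtain ⟨H', hH', _⟩ := hHd r hr.1 hr.2
      have hr0 : r ≠ 0 := by linarith [hr.1]
      exact (hH'.continuousAt.sub ((Real.continuousAt_log hr0).const_mul _)).continuousWithinAt
    · intro r hr
      rw [interior_Icc] at hr
      obtain ⟨H', hH', _⟩ := hHd r hr.1.le hr.2.le
      have hr0 : r ≠ 0 := by linarith [hr.1]
      exact (hH'.differentiableAt.sub
        ((Real.differentiableAt_log hr0).const_mul _)).differentiableWithinAt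
    · intro r hr
      rw [interior_Icc] at hr
      obtain ⟨H', hH', hb⟩ := hHd r hr.1.le hr.2.le
      have hrp : 0 < r := by linarith [hr.1]
      have hd := hH'.sub ((Real.hasDerivAt_log hrp.ne').const_mul (κ / 2))
      have hd2 : deriv (fun r => HH (chi δ) u 0 r - κ / 2 * Real.log r) r =
          H' - κ / 2 * r⁻¹ := hd.deriv
      rw [hd2]
      have h3 : κ / 2 * r⁻¹ ≤ H' := by
        rw [← div_eq_mul_inv, div_le_iff₀ hrp]
        linarith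
      linarith
  have hfin := hmono (left_mem_Icc.2 (by linarith)) (right_mem_Icc.2 (by linarith))
    (by linarith : r₀ ≤ 1 / 4)
  simp only at hfin
  have hH0 : 0 ≤ HH (chi δ) u 0 r₀ := WeissUp_HH_nonneg hr₀
  have hH1 : HH (chi δ) u 0 (1 / 4) ≤ 32 * L ^ 2 :=
    WeissUp_HH_le hδ hL hS hLip (by norm_num) (by norm_num)
  have hprod : κ / 2 * (Real.log (1 / 4) - Real.log r₀) = 32 * L ^ 2 + κ := by
    rw [hlog]
    field_simp
    ring
  linarith [hprod]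

end Pool.Agent.H32.Flat
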